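import Pool.Agent.Lib.MP_696deb_nt.SP.Z0
import Pool.Agent.Lib.MP_23455a_nt.H3.CH

/-! The density theorem of Frobenius as a lower bound for the Dirichlet density. -/

set_option autoImplicit false

open scoped NNReal Classical
open Filter Topology Finset NumberField Asymptotics

namespace Pool.Agent.SP

open Pool.Agent.Lib.MP_696deb_nt Pool.Agent.Lib.MP_696deb_nt.B2
open Pool.Agent.Lib.MP_aed2da_nt.QC (pw w_nonneg pw_nonneg pw_le summable_pw P_bigO w_le_half)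
open Pool.Agent.H3 (ch3_bound ch3_rep)

section Field

variable {K L L' : Type} [Field K] [NumberField K] [Field L] [NumberField L] [Field L']
  [NumberField L']

theorem den_low {s : ℝ} (hs : 1 < s) (S : Set ℕ) (u : Finset (Ideal (𝓞 K)))
    (hu : ∀ Q ∈ u, Q.IsMaximal ∧ (Ideal.absNorm Q).Prime ∧ Ideal.absNorm Q ∈ S) :
    ∑ Q ∈ u, Lib.MP_aed2da_nt.QC.w s Q ≤ Module.finrank ℤ (𝓞 K) *
      ∑' p : ℕ, if p.Prime ∧ p ∈ S then (p : ℝ) ^ (-s) else 0 := by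
  have h0 : ∀ p : ℕ, 0 ≤ if p.Prime ∧ p ∈ S then (p : ℝ) ^ (-s) else 0 := fun p => by
    split_ifs <;> positivity
  have hg : Summable fun p : ℕ => if p.Prime ∧ p ∈ S then (p : ℝ) ^ (-s) else 0 :=
    (Real.summable_nat_rpow.2 (neg_lt_neg hs)).of_nonneg_of_le h0 fun p => by
      split_ifs
      · exact le_rfl
      · positivity
  rw [← sum_fiberwise_of_maps_to (t := u.image Ideal.absNorm) (g := Ideal.absNorm)
    fun Q hQ => mem_image_of_mem _ hQ]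
  refine le_trans (sum_le_sum (g := fun p : ℕ => Module.finrank ℤ (𝓞 K) *
    if p.Prime ∧ p ∈ S then (p : ℝ) ^ (-s) else 0) fun p hp => ?_) ?_
  · obtain ⟨Q, hQ, rfl⟩ := mem_image.1 hp
    rw [if_pos (hu Q hQ).2]
    refine (sum_le_card_nsmul _ _ ((Ideal.absNorm Q : ℝ) ^ (-s)) fun Q' hQ' => ?_).trans ?_
    · rw [← (mem_filter.1 hQ').2]
      exact le_rfl
    · rw [nsmul_eq_mul]
      refine mul_le_mul_of_nonneg_right (Nat.cast_le.2 ?_) (by positivity)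
      refine ch1_card (hu Q hQ).2.1 _ fun Q' hQ' => ?_
      obtain ⟨h5, h6⟩ := mem_filter.1 hQ'
      have h7 := (hu Q' h5).1
      exact ⟨Ideal.prime_of_isPrime (Ring.ne_bot_of_isMaximal_of_not_isField h7
        (RingOfIntegers.not_isField K)) h7.isPrime, h6 ▸ Ideal.absNorm_mem Q', h6.ge⟩
  · rw [← mul_sum]
    exact mul_le_mul_of_nonneg_left (hg.sum_le_tsum _ fun p _ => h0 p) (Nat.cast_nonneg _)

theorem den_log : Tendsto (fun s : ℝ => Real.log (s - 1)) (𝓝[>] 1) atBot := by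
  refine Real.tendsto_log_nhdsGT_zero.comp ?_
  refine tendsto_nhdsWithin_iff.2 ⟨?_, ?_⟩
  · have : Tendsto (fun s : ℝ => s - 1) (𝓝 1) (𝓝 (1 - 1)) := tendsto_id.sub_const 1
    rw [sub_self] at this
    exact this.mono_left nhdsWithin_le_nhds
  · filter_upwards [self_mem_nhdsWithin] with s hs
    exact sub_pos.2 (show 1 < s from hs)

/-- Sets of primes of upper densities one half and one third leave a positive density. -/
theorem den_an (T T' : Set (Ideal (𝓞 K)))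
    (h : ∀ s : ℝ, 1 < s → ∀ u : Finset (Ideal (𝓞 K)), (∀ P ∈ u, P ∈ T) →
      2 * ∑ P ∈ u, pw s P ≤ ∑' Q : Ideal (𝓞 L), pw s Q)
    (h' : ∀ s : ℝ, 1 < s → ∀ u : Finset (Ideal (𝓞 K)), (∀ P ∈ u, P ∈ T') →
      3 * ∑ P ∈ u, pw s P ≤ ∑' Q : Ideal (𝓞 L'), pw s Q) (B : Finset ℕ) (S : Set ℕ)
    (hS : ∀ P : Ideal (𝓞 K), P.IsMaximal → (Ideal.absNorm P).Prime → Ideal.absNorm P ∉ B →
      P ∉ T → P ∉ T' → Ideal.absNorm P ∈ S) : PosD S := by
  have hfin : {Q : Ideal (𝓞 K) | Ideal.absNorm Q ∈ B}.Finite :=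
    (B.finite_toSet.biUnion fun n _ => Ideal.finite_setOfPred_absNorm_eq (S := 𝓞 K) n).subset
      fun Q hQ => Set.mem_biUnion hQ rfl
  obtain ⟨C, hC⟩ : ∃ C : ℝ, ∀ s : ℝ, 1 < s → ∑' P : Ideal (𝓞 K), pw s P ≤
      C + (∑' Q : Ideal (𝓞 L), pw s Q) / 2 + (∑' Q : Ideal (𝓞 L'), pw s Q) / 3 +
      Module.finrank ℤ (𝓞 K) * ∑' p : ℕ, if p.Prime ∧ p ∈ S then (p : ℝ) ^ (-s) else 0 := by
    refine ⟨hfin.toFinset.card + Module.finrank ℤ (𝓞 K) * ∑' p : ℕ, 1 / (p : ℝ) ^ 2,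
      fun s hs => (summable_pw hs).tsum_le_of_sum_le fun u => ?_⟩
    have h2 : ∀ Q ∈ u, pw s Q ≤ (if Q ∈ hfin.toFinset then 1 else 0) +
        (if Q.IsMaximal ∧ ¬ (Ideal.absNorm Q).Prime then Lib.MP_aed2da_nt.QC.w s Q else 0) +
        (if Q ∈ T then pw s Q else 0) + (if Q ∈ T' then pw s Q else 0) +
        (if Q.IsMaximal ∧ (Ideal.absNorm Q).Prime ∧ Ideal.absNorm Q ∈ S then
          Lib.MP_aed2da_nt.QC.w s Q else 0) := by
      intro Q _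
      have k0 := w_nonneg s Q
      have k0' := pw_nonneg s Q
      have k1 : (0 : ℝ) ≤ if Q ∈ hfin.toFinset then 1 else 0 := by positivity
      have k2 : 0 ≤ if Q.IsMaximal ∧ ¬ (Ideal.absNorm Q).Prime then
        Lib.MP_aed2da_nt.QC.w s Q else 0 := by positivity
      have k3 : 0 ≤ if Q ∈ T then pw s Q else 0 := by positivity
      have k4 : 0 ≤ if Q ∈ T' then pw s Q else 0 := by positivity
      have k6 : 0 ≤ if Q.IsMaximal ∧ (Ideal.absNorm Q).Prime ∧ Ideal.absNorm Q ∈ S then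
        Lib.MP_aed2da_nt.QC.w s Q else 0 := by positivity
      by_cases hm : Q.IsMaximal
      · by_cases hp : (Ideal.absNorm Q).Prime
        · by_cases hB : Ideal.absNorm Q ∈ B
          · rw [if_pos (hfin.mem_toFinset.2 hB)]
            linarith [w_le_half hs.le hm, pw_le s Q]
          · by_cases hT : Q ∈ T
            · rw [if_pos hT]
              linarith
            · by_cases hT' : Q ∈ T'
              · rw [if_pos hT']
                linarith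
              · rw [if_pos (⟨hm, hp, hS Q hm hp hB hT hT'⟩ :
                  Q.IsMaximal ∧ (Ideal.absNorm Q).Prime ∧ Ideal.absNorm Q ∈ S)]
                linarith [pw_le s Q]
        · rw [if_pos (⟨hm, hp⟩ : Q.IsMaximal ∧ ¬ (Ideal.absNorm Q).Prime)]
          linarith [pw_le s Q]
      · have k5 : pw s Q = 0 := if_neg hm
        linarith
    refine (sum_le_sum h2).trans ?_
    rw [sum_add_distrib, sum_add_distrib, sum_add_distrib, sum_add_distrib, ← sum_filter,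
      ← sum_filter, ← sum_filter, ← sum_filter, ← sum_filter, sum_const, nsmul_eq_mul, mul_one]
    have k1 := h s hs (u.filter fun Q => Q ∈ T) fun P hP => (mem_filter.1 hP).2
    have k2 := h' s hs (u.filter fun Q => Q ∈ T') fun P hP => (mem_filter.1 hP).2
    have k3 := ch1_high hs (u.filter fun Q => Q.IsMaximal ∧ ¬ (Ideal.absNorm Q).Prime)
      fun Q hQ => (mem_filter.1 hQ).2
    have k4 : ((u.filter fun Q => Q ∈ hfin.toFinset).card : ℝ) ≤ hfin.toFinset.card :=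
      Nat.cast_le.2 (card_le_card fun Q hQ => (mem_filter.1 hQ).2)
    have k5 := den_low hs S (u.filter fun Q => Q.IsMaximal ∧ (Ideal.absNorm Q).Prime ∧
      Ideal.absNorm Q ∈ S) fun Q hQ => (mem_filter.1 hQ).2
    linarith
  obtain ⟨c, hc⟩ := (P_bigO K).bound
  obtain ⟨d, hd⟩ := (P_bigO L).bound
  obtain ⟨e, he⟩ := (P_bigO L').bound
  have hn : (0 : ℝ) < Module.finrank ℤ (𝓞 K) := Nat.cast_pos.2 Module.finrank_pos
  refine ⟨1 / 12 / Module.finrank ℤ (𝓞 K), by positivity, ?_⟩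
  filter_upwards [hc, hd, he, self_mem_nhdsWithin,
    den_log.eventually_le_atBot (-(12 * C + 12 * c + 6 * d + 4 * e))] with s k1 k2 k3 hs k5
  have k4 := hC s hs
  rw [norm_one, mul_one, Real.norm_eq_abs, abs_le] at k1 k2 k3
  rw [one_div (s - 1), Real.log_inv, div_mul_eq_mul_div, div_le_iff₀' hn]
  linarith [k1.1, k2.2, k3.2]

theorem den_bound {H J : Subgroup Gam} (hJ : Op J) (hle : J ≤ H)
    (hn : ∀ g ∈ H, ∀ φ ∈ J, g * φ * g⁻¹ ∈ J) {m : ℕ} (r : Fin m → Gam) (hr : ∀ i, r i ∈ H)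
    (A : Prop) (hr' : A → ∀ i i', r i' * (r i)⁻¹ ∈ J → i = i') (j : K →+* Qbar)
    (hj : ∀ x, Fx H x ↔ ∃ y, j y = x) :
    ∃ (L : Type) (_ : Field L) (_ : NumberField L) (S : Finset ℕ), ∀ s : ℝ, 1 < s →
      ∀ u : Finset (Ideal (𝓞 K)), (∀ P ∈ u, P ∈ {P : Ideal (𝓞 K) | A ∧ ∃ (v : Plc) (φ : Gam),
        v.p ∉ S ∧ P = ch2I v j ∧ v.p = Ideal.absNorm P ∧ IsFrob v v.p φ ∧ φ ∈ J}) →
      m * ∑ P ∈ u, pw s P ≤ ∑' Q : Ideal (𝓞 L), pw s Q := by
  by_cases hA : A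
  · obtain ⟨L, _, _, S, hS⟩ := ch3_bound hJ hle hn r hr (hr' hA) j hj
    exact ⟨L, inferInstance, inferInstance, S, fun s hs u hu => hS s hs u fun P hP => (hu P hP).2⟩
  · refine ⟨K, inferInstance, inferInstance, ∅, fun s _ u hu => ?_⟩
    rw [sum_eq_zero fun P hP => absurd (hu P hP).1 hA, mul_zero]
    exact tsum_nonneg (pw_nonneg s)

end Field

/-- Frobenius elements outside of two normal subgroups have positive density. -/
theorem den_avoid {H J J' : Subgroup Gam} (hH : Op H) (hJ : Op J) (hJ' : Op J')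
    (hle : J ≤ H) (hle' : J' ≤ H) (hn : ∀ g ∈ H, ∀ φ ∈ J, g * φ * g⁻¹ ∈ J)
    (hn' : ∀ g ∈ H, ∀ φ ∈ J', g * φ * g⁻¹ ∈ J') (r : Fin 2 → Gam) (r' : Fin 3 → Gam)
    (h1 : ∀ i, r i ∈ H) (h1' : ∀ i, r' i ∈ H) (A A' : Prop)
    (h2 : A → ∀ i i', r i' * (r i)⁻¹ ∈ J → i = i')
    (h2' : A' → ∀ i i', r' i' * (r' i)⁻¹ ∈ J' → i = i') (B : Finset ℕ) (D : Set ℕ)
    (hD : ∀ (v : Plc) (φ : Gam), v.p ∉ B → IsFrob v v.p φ → φ ∈ H → (A → φ ∉ J) →
      (A' → φ ∉ J') → v.p ∈ D) : PosD D := by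
  obtain ⟨K, _, _, j, hj⟩ := ch2_field hH
  obtain ⟨S, hS⟩ := ch2_fix j
  obtain ⟨L, _, _, T, hT⟩ := den_bound hJ hle hn r h1 A h2 j hj
  obtain ⟨L', _, _, T', hT'⟩ := den_bound hJ' hle' hn' r' h1' A' h2' j hj
  refine den_an _ _ hT hT' (B ∪ (S ∪ (T ∪ T'))) D fun P a1 a2 a3 a4 a5 => ?_
  obtain ⟨v, hv, rfl⟩ := ch2_plc j a1 a2
  obtain ⟨φ, hφ⟩ := exists_frob v
  rw [← hv, mem_union, mem_union, mem_union, not_or, not_or, not_or] at a3
  refine hv ▸ hD v φ a3.1 hφ (mem_of_fx hH.closed fun x hx => ?_)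
    (fun k e => a4 ⟨k, v, φ, a3.2.2.1, rfl, hv, hφ, e⟩)
    fun k e => a5 ⟨k, v, φ, a3.2.2.2, rfl, hv, hφ, e⟩
  obtain ⟨y, rfl⟩ := (hj x).1 hx
  exact hS v φ a3.2.1 a1 hv hφ y

theorem den : DenStmt := by
  intro U s N hU hN
  obtain ⟨σ, hσ⟩ : ∃ σ : Gam ⧸ U, σ = s := ⟨_, rfl⟩
  have : Finite (Gam ⧸ U) := Subgroup.quotient_finite_of_isOpen U hU
  have h0 : (0 : ℤ) < orderOf σ := Int.natCast_pos.2 (orderOf_pos σ)
  obtain ⟨J, hJ⟩ : ∃ J : ℤ → Subgroup Gam, ∀ m g, g ∈ J m ↔ ∃ n : ℤ, σ ^ (m * n) = g :=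
    ⟨fun m => (Subgroup.zpowers (σ ^ m)).comap (QuotientGroup.mk' U), fun m g => by
      simp only [Subgroup.mem_comap, Subgroup.mem_zpowers_iff, zpow_mul, QuotientGroup.mk'_apply]⟩
  have ho : ∀ m, Op (J m) := fun m => Subgroup.isOpen_mono (fun g hg => (hJ m g).2
    ⟨0, by rw [mul_zero, zpow_zero, (QuotientGroup.eq_one_iff g).2 hg]⟩) hU
  have hle : ∀ m, J m ≤ J 1 := fun m g hg => by
    obtain ⟨n, e⟩ := (hJ m g).1 hg
    exact (hJ 1 g).2 ⟨m * n, by rw [one_mul, e]⟩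
  have hn : ∀ m, ∀ g ∈ J 1, ∀ φ ∈ J m, g * φ * g⁻¹ ∈ J m := fun m g hg φ hφ => by
    obtain ⟨a, e⟩ := (hJ 1 g).1 hg
    obtain ⟨n, e'⟩ := (hJ m φ).1 hφ
    refine (hJ m _).2 ⟨n, ?_⟩
    rw [QuotientGroup.mk_mul, QuotientGroup.mk_mul, QuotientGroup.mk_inv, ← e, ← e',
      zpow_mul_comm, mul_inv_cancel_right]
  have hp : ∀ d : ℕ, s ^ d ∈ J 1 := fun d => pow_mem ((hJ 1 s).2 ⟨1, by simp [hσ]⟩) d
  have h4 : ∀ m : ℕ, (m : ℤ) ∣ orderOf σ → ∀ d, 0 < d → d < m → s ^ d ∉ J m :=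
    fun m hm d d0 d1 e => by
      obtain ⟨n, e⟩ := (hJ m _).1 e
      rw [QuotientGroup.mk_pow, ← hσ, ← zpow_natCast, zpow_eq_zpow_iff_modEq] at e
      have h5 : (m : ℤ) ∣ d := (dvd_sub_left (dvd_mul_right _ n)).1 (hm.trans e.dvd)
      exact absurd (Nat.le_of_dvd d0 (Int.natCast_dvd_natCast.1 h5)) d1.not_ge
  refine den_avoid (ho 1) (ho 2) (ho 3) (hle 2) (hle 3) (hn 2) (hn 3) (fun i => s ^ (i : ℕ))
    (fun i => s ^ (i : ℕ)) (fun _ => hp _) (fun _ => hp _) _ _ (fun k => ch3_rep (h4 2 k))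
    (fun k => ch3_rep (h4 3 k)) (range (N + 1)) _ fun v φ b1 b2 b3 b4 b5 => ⟨?_, ?_⟩
  · rw [mem_range] at b1
    omega
  obtain ⟨n, e⟩ := (hJ 1 φ).1 b3
  rw [one_mul, ← zpow_mod_orderOf] at e
  have h6 := Int.emod_nonneg n h0.ne'
  generalize n % orderOf σ = n at e h6
  have h5 : ∀ m : ℤ, φ ∉ J m → ¬ m ∣ n := by
    rintro m h ⟨n, rfl⟩
    exact h ((hJ m φ).2 ⟨n, e⟩)
  have h7 := fun k => h5 _ (b4 k)
  have h8 := fun k => h5 _ (b5 k)
  obtain ⟨t, t0, t2, t3⟩ : ∃ t : ℤ, 0 ≤ t ∧ ¬ 2 ∣ n + orderOf σ * t ∧ ¬ 3 ∣ n + orderOf σ * t := by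
    by_contra k
    push Not at k
    have k0 := k 0
    have k1 := k 1
    have k2 := k 2
    have k3 := k 3
    have k4 := k 4
    have k5 := k 5
    push_cast at h7 h8
    omega
  obtain ⟨a, ha⟩ := Int.eq_ofNat_of_zero_le (add_nonneg h6 (mul_nonneg h0.le t0))
  refine ⟨v, φ, a, rfl, b2, ?_, QuotientGroup.eq.1 ?_⟩
  · refine (Nat.Coprime.mul_left (Nat.prime_two.coprime_iff_not_dvd.2 ?_)
      (Nat.prime_three.coprime_iff_not_dvd.2 ?_)).symm <;> omega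
  · rw [QuotientGroup.mk_pow, ← hσ, ← zpow_natCast, ← ha, zpow_add, zpow_mul, zpow_natCast,
      pow_orderOf_eq_one, one_zpow, mul_one, e]

end Pool.Agent.SP
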