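import Pool.Agent.Lib.MP_696deb_nt.SP.KL

/-! Averaging over a group of bilinear forms. -/

set_option autoImplicit false

open scoped Classical
open Finset Function

namespace Pool.Agent.SP

variable {X : Type} [AddCommGroup X] [Finite X] {O : AddSubgroup (X →+ X →+ ZMod 2)}

/-- The number of forms with a given row. -/
theorem card_row (two : ∀ a : X, a + a = 0) {a : X}
    (row : ∀ b, (∀ β ∈ O, β a b = 0) → b = 0 ∨ b = a) (ρ : X →+ ZMod 2) :
    Nat.card {β : O // β.1 a = ρ} * Nat.card X ≤ 2 * Nat.card O := by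
  have fin : Finite (X →+ ZMod 2) := DFunLike.finite _
  have fin2 : Finite (X →+ X →+ ZMod 2) := DFunLike.finite _
  let φ : O →+ X →+ ZMod 2 := (AddMonoidHom.eval a).comp O.subtype
  have eφ : ∀ β : O, φ β = β.1 a := fun _ => rfl
  let ψ : X →+ φ.range →+ ZMod 2 := φ.range.subtype.flip
  have h1 : Nat.card ψ.ker ≤ 2 := by
    have hs : (ψ.ker : Set X) ⊆ {0, a} := fun b hb => row b fun β hβ =>
      DFunLike.congr_fun (AddMonoidHom.mem_ker.1 hb) ⟨φ ⟨β, hβ⟩, _, rfl⟩
    exact (Set.ncard_le_ncard hs (Set.toFinite _)).trans ((Set.ncard_insert_le _ _).trans (by rw [Set.ncard_singleton]))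
  have tw : ∀ f : φ.range, f + f = 0 := fun f => Subtype.ext (AddMonoidHom.ext fun x =>
    CharTwo.add_self_eq_zero (f.1 x))
  have fin3 : Finite (φ.range →+ ZMod 2) := DFunLike.finite _
  have h2 : Nat.card X ≤ 2 * Nat.card φ.range := by
    rw [← AddSubgroup.card_mul_index ψ.ker, AddSubgroup.index_ker]
    refine Nat.mul_le_mul h1 ?_
    rw [← TA_card_hom tw]
    exact Nat.card_le_card_of_injective _ Subtype.val_injective
  have h3 : Nat.card {β : O // β.1 a = ρ} ≤ Nat.card φ.ker := by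
    rcases isEmpty_or_nonempty {β : O // β.1 a = ρ} with h | ⟨⟨β₀⟩⟩
    · rw [Nat.card_of_isEmpty]
      exact Nat.zero_le _
    · refine Nat.card_le_card_of_injective (fun β => ⟨β.1 - β₀.1, ?_⟩) fun β β' e => ?_
      · rw [AddMonoidHom.mem_ker, map_sub, eφ, eφ, β.2, β₀.2, sub_self]
      · exact Subtype.ext (sub_left_injective (congrArg Subtype.val e))
  have h4 : Nat.card φ.ker * Nat.card φ.range = Nat.card O := by
    rw [← AddSubgroup.card_mul_index φ.ker, AddSubgroup.index_ker]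
  rw [← h4, mul_left_comm]
  exact Nat.mul_le_mul h3 h2

theorem KM_avg (two : ∀ a : X, a + a = 0)
    (row : ∀ a b, a ≠ 0 → (∀ β ∈ O, β a b = 0) → b = 0 ∨ b = a) (B : X →+ X →+ ZMod 2)
    (T : Finset X) (hT : ∀ a ∈ T, a ≠ 0) (c : ℕ)
    (hc : ∀ β ∈ O, ∃ S : Finset X, c ≤ S.card ∧ ∀ a ∈ S, a ∈ T ∧ B a = β a) :
    c * Nat.card X ≤ 2 * T.card := by
  have fin : Finite (X →+ ZMod 2) := DFunLike.finite _
  have fin2 : Finite (X →+ X →+ ZMod 2) := DFunLike.finite _
  let _ : Fintype O := Fintype.ofFinite _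
  have h1 : ∑ β : O, (T.filter fun a => B a = β.1 a).card =
      ∑ a ∈ T, Nat.card {β : O // β.1 a = B a} := by
    simp only [card_filter]
    rw [sum_comm]
    refine sum_congr rfl fun a _ => ?_
    rw [Nat.card_eq_fintype_card, Fintype.card_subtype, card_filter]
    exact sum_congr rfl fun β _ => by simp only [eq_comm]
  have h2 : c * Nat.card O ≤ ∑ β : O, (T.filter fun a => B a = β.1 a).card := by
    have := card_nsmul_le_sum univ (fun β : O => (T.filter fun a => B a = β.1 a).card) c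
      fun β _ => by
        obtain ⟨S, s1, s2⟩ := hc β.1 β.2
        exact s1.trans (card_le_card fun a ha => mem_filter.2 (s2 a ha))
    rwa [card_univ, smul_eq_mul, mul_comm, ← Nat.card_eq_fintype_card] at this
  have h3 : (∑ a ∈ T, Nat.card {β : O // β.1 a = B a}) * Nat.card X ≤
      T.card * (2 * Nat.card O) := by
    rw [sum_mul]
    have := sum_le_card_nsmul T (fun a => Nat.card {β : O // β.1 a = B a} * Nat.card X)
      (2 * Nat.card O) fun a ha => card_row two (fun b => row a b (hT a ha)) (B a)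
    rwa [smul_eq_mul] at this
  have h4 : 0 < Nat.card O := Nat.card_pos
  rw [h1] at h2
  refine Nat.le_of_mul_le_mul_right ?_ h4
  calc c * Nat.card X * Nat.card O = c * Nat.card O * Nat.card X := by ring
    _ ≤ _ := Nat.mul_le_mul_right _ h2
    _ ≤ _ := h3
    _ = _ := by ring

theorem count_one (two : ∀ a : X, a + a = 0)
    (row : ∀ a b, a ≠ 0 → (∀ β ∈ O, β a b = 0) → b = 0 ∨ b = a) (B : X →+ X →+ ZMod 2) :
    ∃ β ∈ O, ∃ a₀, ∀ a, B a = β a → a = 0 ∨ a = a₀ := by
  by_contra h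
  push Not at h
  let _ : Fintype X := Fintype.ofFinite _
  have h1 := KM_avg two row B (univ.erase 0) (fun a ha => ne_of_mem_erase ha) 3 fun β hβ => by
    obtain ⟨a, ha, a0, -⟩ := h β hβ 0
    obtain ⟨b, hb, b0, ba⟩ := h β hβ a
    have c0 : a + b ≠ 0 := fun e => ba (add_left_cancel (e.trans (two a).symm))
    refine ⟨{a, b, a + b}, (card_eq_three.2 ⟨a, b, a + b, ba.symm, fun e => b0 (left_eq_add.1 e),
      fun e => a0 (right_eq_add.1 e), rfl⟩).ge, fun x hx => ?_⟩
    simp only [mem_insert, mem_singleton] at hx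
    rcases hx with rfl | rfl | rfl
    · exact ⟨mem_erase.2 ⟨a0, mem_univ _⟩, ha⟩
    · exact ⟨mem_erase.2 ⟨b0, mem_univ _⟩, hb⟩
    · exact ⟨mem_erase.2 ⟨c0, mem_univ _⟩, by rw [map_add, map_add, ha, hb]⟩
  rw [card_erase_of_mem (mem_univ _), card_univ, ← Nat.card_eq_fintype_card] at h1
  have h2 : 0 < Nat.card X := Nat.card_pos
  omega

theorem count_sub (two : ∀ a : X, a + a = 0)
    (row : ∀ a b, a ≠ 0 → (∀ β ∈ O, β a b = 0) → b = 0 ∨ b = a) (B : X →+ X →+ ZMod 2)
    {Y : AddSubgroup X} (hY : Y ≠ ⊤) : ∃ β ∈ O, ∀ a ∈ Y, B a = β a → a = 0 := by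
  by_contra h
  push Not at h
  let _ : Fintype X := Fintype.ofFinite _
  have h0 : (0 : X) ∈ univ.filter fun a => a ∈ Y := mem_filter.2 ⟨mem_univ _, Y.zero_mem⟩
  have h1 := KM_avg two row B ((univ.filter fun a => a ∈ Y).erase 0)
    (fun a ha => ne_of_mem_erase ha) 1 fun β hβ => by
      obtain ⟨a, aY, ha, a0⟩ := h β hβ
      refine ⟨{a}, (card_singleton a).ge, fun x hx => ?_⟩
      rw [mem_singleton.1 hx]
      exact ⟨mem_erase.2 ⟨a0, mem_filter.2 ⟨mem_univ _, aY⟩⟩, ha⟩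
  have h2 : (univ.filter fun a => a ∈ Y).card = Nat.card Y := by
    rw [Nat.card_eq_fintype_card, Fintype.card_subtype]
  rw [card_erase_of_mem h0, h2] at h1
  have h3 := AddSubgroup.card_mul_index Y
  have h4 : 2 ≤ Y.index := AddSubgroup.one_lt_index_of_ne_top hY
  have h5 : 0 < Nat.card Y := Nat.card_pos
  have h6 := Nat.mul_le_mul_left (Nat.card Y) h4
  omega

theorem count_even (two : ∀ a : X, a + a = 0)
    (row : ∀ a b, a ≠ 0 → (∀ β ∈ O, β a b = 0) → b = 0 ∨ b = a) (alt : ∀ β ∈ O, ∀ a, β a a = 0)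
    (B : X →+ X →+ ZMod 2) (hB : ∀ a, B a a = 0) {k : ℕ} (hk : Nat.card X = 4 ^ k) :
    ∃ β ∈ O, ∀ a, B a = β a → a = 0 := by
  obtain ⟨β, h1, a₀, h2⟩ := count_one two row B
  refine ⟨β, h1, fun a ha => alt_ker two hk (B - β) (fun x => ?_) (a₀ := a₀)
    (fun x hx => h2 x (sub_eq_zero.1 hx)) (sub_eq_zero.2 ha)⟩
  rw [AddMonoidHom.sub_apply, AddMonoidHom.sub_apply, hB, alt β h1, sub_zero]

end Pool.Agent.SP
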