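import Pool.Agent.Lib.MP_696deb_nt.SP.K6
import Pool.Agent.Lib.MP_696deb_nt.Sm.Hilb

/-! Local classes of the twists by primes. -/

set_option autoImplicit false

open scoped Classical
open Finset Function

namespace Pool.Agent.SP

open Pool.Agent.Lib.MP_696deb_nt Pool.Agent.Lib.MP_696deb_nt.Sm
open Pool.Agent.Lib.MP_696deb_nt.B2 (cc jC)

/-- An integer of sign `ε` that is a square at all primes up to `N`. -/
def Dref (N : ℕ) (ε : ℤ) : ℤ := if ε = 1 then 1 else 1 - 8 * N.factorial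

theorem Dref_fin {N v : ℕ} (ε : ℤ) (hv : v.Prime) (h : v ≤ N) :
    ∀ g ∈ Gv v, chi (Dref N ε) g = chi 1 g := by
  intro g hg
  unfold Dref
  split_ifs
  · rfl
  rw [chi_one]
  by_cases v2 : v = 2
  · subst v2
    exact chi_Gv_two (by omega) g hg
  have h1 : ((1 - 8 * N.factorial : ℤ) : ZMod v) = 1 := by
    have : ((N.factorial : ℕ) : ZMod v) = 0 :=
      (ZMod.natCast_eq_zero_iff _ _).2 (hv.dvd_factorial.2 h)
    push_cast
    rw [this, mul_zero, sub_zero]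
  have := Fact.mk hv
  refine chi_Gv_of_aleg hv v2 (fun k => ?_) (aleg_eq_zero_iff.2 (h1 ▸ IsSquare.one)) g hg
  exact one_ne_zero (h1.symm.trans ((ZMod.intCast_zmod_eq_zero_iff_dvd _ v).2 k))

theorem Dref_inf (N : ℕ) {ε : ℤ} (hε : ε = 1 ∨ ε = -1) :
    ∀ g ∈ Gv 0, chi (Dref N ε) g = chi ε g := by
  intro g hg
  rcases hε with rfl | rfl
  · rw [Dref, if_pos rfl]
  rcases loc_Gv0 hg with rfl | rfl
  · exact (loc_one _).trans (loc_one _).symm
  have h : 0 < N.factorial := N.factorial_pos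
  rw [Dref, if_neg (by decide), loc_chi_cc (by omega), loc_chi_cc (by decide), if_neg (by omega),
    if_neg (by decide)]

theorem kp_abs {ε : ℤ} (hε : ε = 1 ∨ ε = -1) (l : ℕ) : (ε * l).natAbs = l := by
  rcases hε with rfl | rfl <;> simp

namespace Cu

variable {C : Cu} {ε : ℤ} {l l' : ℕ}

theorem tw1_prime (hε : ε = 1 ∨ ε = -1) (h : C.Gp l) : C.Tw1 (ε * l) l := by
  refine ⟨h, ?_, fun p hp k => not_dvd_of_natAbs_eq hp.1 h.1 k (kp_abs hε l)⟩
  rw [padicValInt, kp_abs hε, padicValNat.self h.1.one_lt]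

theorem sq_of_chi (hε : ε = 1 ∨ ε = -1) (h : C.Gp l) (e1 : chi (-1) (frb l) = chi ε cc)
    (e2 : ∀ q : ℕ, q.Prime → q ≤ C.N0 → chi q (frb l) = 0) :
    (ε * l) % 8 = 1 ∧ ∀ q : ℕ, q.Prime → q ≠ 2 → q ≤ C.N0 → aleg q (ε * l) = 0 := by
  have nd : ∀ q : ℕ, q.Prime → q ≤ C.N0 → ¬ (l : ℤ) ∣ q := fun q hq k =>
    not_dvd_of_natAbs_eq h.1 hq (k.trans_lt h.2).ne' rfl
  have od := h.1.eq_two_or_odd.resolve_left h.ne_two
  rw [chi_frb h.1 h.ne_two (not_dvd_of_natAbs_eq' h.1), hilb_neg h.1 h.ne_two, ep2] at e1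
  have k1 : ε * l = pstar l := by
    unfold pstar
    rcases hε with rfl | rfl
    · rw [chi_one] at e1
      rw [one_mul, if_pos]
      by_contra k
      exact one_ne_zero ((if_neg (by omega)).symm.trans e1)
    · rw [loc_chi_cc (by decide), if_neg (show ¬ (0 : ℤ) < -1 by decide)] at e1
      rw [neg_one_mul, if_neg]
      exact fun k => zero_ne_one ((if_pos (by omega)).symm.trans e1)
  have k2 := e2 2 Nat.prime_two C.two_le_N0
  rw [chi_frb h.1 h.ne_two (nd 2 Nat.prime_two C.two_le_N0), Nat.cast_ofNat,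
    hilb_sup h.1 h.ne_two] at k2
  have k3 : (l : ℤ) % 8 = 1 ∨ (l : ℤ) % 8 = 7 := by
    by_contra k
    exact one_ne_zero ((if_neg k).symm.trans k2)
  have k4 := pstar_emod od
  refine ⟨?_, fun q hq q2 k => ?_⟩
  · rw [← k1] at k4
    rcases hε with rfl | rfl <;> omega
  · rw [k1, aleg_pstar hq h.1 q2 h.ne_two (k.trans_lt h.2).ne, ← chi_frb h.1 h.ne_two (nd q hq k)]
    exact e2 q hq k

theorem sim_Dref (hε : ε = 1 ∨ ε = -1) (h : C.Gp l) (h8 : (ε * l) % 8 = 1)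
    (e : ∀ q : ℕ, q.Prime → q ≠ 2 → q ≤ C.N0 → aleg q (ε * l) = 0) :
    C.Sim (ε * l) (Dref C.N0 ε) := by
  rintro v (rfl | ⟨hv, k⟩) g hg
  · have l0 : (0 : ℤ) < l := Int.natCast_pos.2 h.1.pos
    rw [Dref_inf _ hε g hg, chi_mul (by rcases hε with rfl | rfl <;> decide) l0.ne',
      chi_Gv_zero l0 g hg, add_zero]
  rw [Dref_fin ε hv k g hg, chi_one]
  by_cases v2 : v = 2
  · subst v2
    exact chi_Gv_two h8 g hg
  · exact chi_Gv_of_aleg hv v2 (not_dvd_of_natAbs_eq hv h.1 (k.trans_lt h.2).ne (kp_abs hε l))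
      (e v hv v2 k) g hg

end Cu

end Pool.Agent.SP
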