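import Pool.Agent.Lib.MP_696deb_nt.SP.KN
import Pool.Agent.Lib.MP_696deb_nt.SP.KM
import Pool.Agent.Lib.MP_696deb_nt.SP.KP

/-! Curves without rational points of order two: definitions. -/

set_option autoImplicit false

open scoped Classical
open Finset Function

namespace Pool.Agent.SP

open Pool.Agent.Lib.MP_696deb_nt Pool.Agent.Lib.MP_696deb_nt.Sm
open Pool.Agent.Lib.MP_696deb_nt.B2 (cc jC)

/-- Quadratic characters of the fixed field of `H` that are unramified above `N` and split up to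
`N` are trivial. -/
def BigH (H : Subgroup GQ) (N : ℕ) : Prop := ∀ χ : GQ → F2, B2.Sm H χ → B2.IsHom H χ →
  (∀ w : B2.Plc, N < w.p → ∀ σ ∈ H ⊓ B2.Ine w, χ σ = 0) →
  (∀ w : B2.Plc, w.p ≤ N → ∀ g ∈ H ⊓ B2.Dec w, χ g = 0) → ∀ g ∈ H, χ g = 0

namespace Cu

variable (C : Cu)

/-- The same curve with a larger set of bad primes. -/
abbrev big (N : ℕ) (h : C.N0 ≤ N) : Cu := { C with N0 := N, hN := C.hN.trans h }

/-- The automorphisms that fix the first root. -/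
def P0 : Subgroup GQ where
  carrier := {g | C.pm g 0 = 0}
  one_mem' := C.pm_one 0
  mul_mem' := fun {g k} h h' => by
    show C.pm (g * k) 0 = 0
    rw [pm_mul, show C.pm k 0 = 0 from h', show C.pm g 0 = 0 from h]
  inv_mem' := fun {g} h => by
    have e := C.inv_pm g 0
    rwa [show C.pm g 0 = 0 from h] at e

/-- Normalised unramified cocycles with the local conditions at the bad primes. -/
noncomputable def RR (g0 : GQ) : AddSubgroup (GQ → C.A) where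
  carrier := {a | a ∈ C.U g0 1 ∧ ∀ v : ℕ, v.Prime → v ≤ C.N0 → C.Loc v 1 a}
  zero_mem' := ⟨zero_mem _, fun v _ _ => C.loc_zero v 1⟩
  add_mem' := fun h h' => ⟨add_mem h.1 h'.1, fun v k k' => (h.2 v k k').add (h'.2 v k k')⟩
  neg_mem' := fun {a} h =>
    ⟨neg_mem h.1, fun v k k' => neg_one_zsmul a ▸ (h.2 v k k').zsmul (-1)⟩

/-- Those with the local condition of sign `ε` at the real place. -/
noncomputable def SS (g0 : GQ) (ε : ℤ) : AddSubgroup (GQ → C.A) where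
  carrier := {a | a ∈ C.RR g0 ∧ C.Loc 0 ε a}
  zero_mem' := ⟨zero_mem _, C.loc_zero 0 ε⟩
  add_mem' := fun h h' => ⟨add_mem h.1 h'.1, h.2.add h'.2⟩
  neg_mem' := fun {a} h => ⟨neg_mem h.1, neg_one_zsmul a ▸ h.2.zsmul (-1)⟩

/-- Normalised unramified cocycles with the dual conditions at the bad primes. -/
noncomputable def RD (g0 : GQ) : AddSubgroup (GQ → C.A) where
  carrier := {b | b ∈ C.U g0 1 ∧
    ∀ v : ℕ, v.Prime → v ≤ C.N0 → ∀ k, C.Z2 (Gv v) k → C.Loc v 1 k → C.Bv v k b = 0}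
  zero_mem' := ⟨zero_mem _, fun _ hv _ _ h _ =>
    (Bv_comm hv h (C.z2_zero _)).trans (Bv_zero hv (fun _ _ => rfl) h)⟩
  add_mem' := fun h h' => ⟨add_mem h.1 h'.1, fun v hv h0 k h1 h2 => by
    rw [Bv_add_right hv h1 (h.1.1.mono le_top) (h'.1.1.mono le_top), h.2 v hv h0 k h1 h2,
      h'.2 v hv h0 k h1 h2, add_zero]⟩
  neg_mem' := fun {b} h => by
    rwa [show -b = b from funext fun g => C.neg_two (h.1.1.two g trivial)]

/-- The class of `s` gives twists of sign `ε` that are squares at the bad primes. -/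
def Ok (ε : ℤ) (s : GQ) : Prop :=
  chi (-1) s = chi ε cc ∧ ∀ q : ℕ, q.Prime → q ≤ C.N0 → chi q s = 0

/-- In some class at most the element `a₀` of `X` lifts. -/
def Few (s : GQ) (D0 : ℤ) (X : AddSubgroup (GQ → C.A)) (a₀ : GQ → C.A) : Prop :=
  ∃ (τ : GQ) (U : Subgroup GQ), C.Na τ ∧ B2.Op U ∧ U.Normal ∧
    ∀ a ∈ X, C.Lc U (s * τ) D0 a → a = 0 ∨ a = a₀

/-- The prime `l` gives a twist of sign `ε` that is a square at the bad primes, and at most one
nonzero class, none if `z` holds, comes from the Selmer group of level four. -/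
def Nice (g0 : GQ) (ε : ℤ) (z : Prop) (l : ℕ) : Prop := (ε * l) % 8 = 1 ∧
  (∀ q : ℕ, q.Prime → q ≠ 2 → q ≤ C.N0 → aleg q (ε * l) = 0) ∧
  ∃ a₀, (z → a₀ = 0) ∧ ∀ A, C.IsSel (ε * l) 2 A → A g0 = 0 → 2 • A = 0 ∨ 2 • A = a₀

/-- All good primes in one class have this property. -/
def Res (g0 : GQ) (ε : ℤ) (z : Prop) : Prop := ∃ (U : Subgroup GQ) (s : GQ), B2.Op U ∧ U.Normal ∧
  ∀ l, C.Gp l → Frb U s l → C.Nice g0 ε z l

/-- The real number `f'(e i)`. -/
noncomputable def fd (i : Fin 3) : ℝ := (jC (C.lam (C.T i) (C.T i))).re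

/-- The real number `f''(e i) / 2`. -/
noncomputable def fs (i : Fin 3) : ℝ := (jC (3 * C.e i + C.a)).re

variable {C} {g0 : GQ} {ε : ℤ} {a : GQ → C.A}

theorem op_P0 (C : Cu) : B2.Op C.P0 :=
  Subgroup.isOpen_mono (H₁ := C.Kpm) (fun _ h => h 0) C.op_Kpm

theorem SS_le : C.SS g0 ε ≤ C.U g0 1 := fun _ h => h.1.1

theorem RR_le : C.RR g0 ≤ C.RD g0 := fun _ h => ⟨h.1, fun v hv h0 _ h1 h2 =>
  Bv_iso hv h1 (h.1.1.mono le_top) h2 (h.2 v hv h0)⟩

theorem mem_SS (hε : ε = 1 ∨ ε = -1) :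
    a ∈ C.SS g0 ε ↔ a ∈ C.U g0 1 ∧ ∀ v, C.Bd v → C.Loc v (Dref C.N0 ε) a := by
  constructor
  · rintro ⟨⟨h1, h2⟩, h3⟩
    refine ⟨h1, ?_⟩
    rintro v (rfl | ⟨hv, h0⟩)
    · exact h3.congr (Dref_inf _ hε) fun _ _ => rfl
    · exact (h2 v hv h0).congr (Dref_fin ε hv h0) fun _ _ => rfl
  · rintro ⟨h1, h2⟩
    exact ⟨⟨h1, fun v hv h0 => (h2 v (.inr ⟨hv, h0⟩)).congr
      (fun g hg => (Dref_fin ε hv h0 g hg).symm) fun _ _ => rfl⟩,
      (h2 0 (.inl rfl)).congr (fun g hg => (Dref_inf _ hε g hg).symm) fun _ _ => rfl⟩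

theorem finite_le (h0 : C.G3 g0) {X : AddSubgroup (GQ → C.A)} (h : X ≤ C.U g0 1) : Finite X :=
  have := finite_U h0 one_ne_zero
  Finite.of_injective _ (AddSubgroup.inclusion_injective h)

theorem Res.mono {z z' : Prop} (h : C.Res g0 ε z) (k : z' → z) : C.Res g0 ε z' := by
  obtain ⟨U, s, h1, h2, h3⟩ := h
  refine ⟨U, s, h1, h2, fun l hl hf => ?_⟩
  obtain ⟨a1, a2, a, a3, a4⟩ := h3 l hl hf
  exact ⟨a1, a2, a, fun e => a3 (k e), a4⟩

end Cu

end Pool.Agent.SP
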