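import Pool.Agent.Lib.MP_696deb_nt.SP.I0

/-! Classes of primes in which few classes lift. -/

set_option autoImplicit false

open scoped Classical
open Finset Function

namespace Pool.Agent.SP

open Pool.Agent.Lib.MP_696deb_nt Pool.Agent.Lib.MP_696deb_nt.Sm
open Pool.Agent.Lib.MP_696deb_nt.B2 (cc jC)

namespace Cu

variable {C : Cu} {g0 s : GQ} {D0 : ℤ} {X : AddSubgroup (GQ → C.A)} {a b : GQ → C.A}

theorem ia_conj (ha : a ∈ C.U g0 1) (k : GQ) : a (g0 * k * g0⁻¹) = C.act g0 (a k) :=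
  ha.1.conj trivial trivial (by rw [ha.2.1, map_zero])

theorem ia_mul (ha : a ∈ C.U g0 1) {g : GQ} (hg : g ∈ C.Kpm) (k : GQ) : a (g * k) = a g + a k := by
  rw [ha.1.coc g trivial k trivial, act_Kpm hg (ha.1.two k trivial)]

theorem ia_chi (d : ℤ) (g k : GQ) : chi d (g * k * g⁻¹) = chi d k := by
  have e := chi_mul_g d (g * k * g⁻¹) g
  rw [inv_mul_cancel_right, chi_mul_g, add_comm] at e
  exact (add_right_cancel e).symm

/-- Every point of order two is a value at an element that is killed by the quadratic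
characters. -/
theorem exists_tau (h0 : C.G3 g0) (ha : a ∈ C.U g0 1) (a0 : a ≠ 0) (i : Fin 3) :
    ∃ τ ∈ C.Kpm, (∀ d : ℤ, chi d τ = 0) ∧ a τ = C.T i := by
  obtain ⟨k, hk, h1⟩ : ∃ k ∈ C.Kpm, a k ≠ 0 := by
    by_contra! e
    exact a0 (funext (ha.1.eq_zero h0 ha.2.1 e))
  obtain ⟨j, hj⟩ := (C.tors2 (ha.1.two k trivial)).resolve_left h1
  have step : ∀ i, (∃ τ ∈ C.Kpm, (∀ d : ℤ, chi d τ = 0) ∧ a τ = C.T i) →
      ∃ τ ∈ C.Kpm, (∀ d : ℤ, chi d τ = 0) ∧ a τ = C.T (i + 1) := fun i ⟨τ, t1, t2, t3⟩ =>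
    ⟨_, conj_Kpm t1 g0, fun d => (ia_chi d g0 τ).trans (t2 d), by
      rw [ia_conj ha, t3, act_T, h0.1]⟩
  have base : ∃ τ ∈ C.Kpm, (∀ d : ℤ, chi d τ = 0) ∧ a τ = C.T (j + 2) :=
    ⟨k * (g0 * k * g0⁻¹), mul_mem hk (conj_Kpm hk g0), fun d => by
      rw [chi_mul_g, ia_chi, CharTwo.add_self_eq_zero], by
      rw [ia_mul ha hk, ia_conj ha, hj, act_T, h0.1, T_add]⟩
  have e : ∀ i j : Fin 3, i = j + 2 ∨ i = j + 2 + 1 ∨ i = j + 2 + 1 + 1 := by decide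
  rcases e i j with rfl | rfl | rfl
  · exact base
  · exact step _ base
  · exact step _ (step _ base)

theorem ia_zero (h0 : C.G3 g0) (ha : a ∈ C.U g0 1) (hb : b ∈ C.U g0 1)
    (h : ∀ g ∈ C.Kpm, C.ep (a g) (b g) = 0) {τ : GQ} (h1 : τ ∈ C.Kpm) (h2 : a τ = C.T 0)
    (h3 : b τ = 0) : b = 0 := by
  have pol : ∀ t ∈ C.Kpm, b t = 0 → ∀ g ∈ C.Kpm, C.ep (b g) (a t) = 0 := fun t ht e g hg => by
    have k := h _ (mul_mem ht hg)
    rwa [ia_mul ha ht, ia_mul hb ht, e, zero_add, C.ep_add_left (ha.1.two t trivial)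
      (ha.1.two g trivial) (hb.1.two g trivial), h g hg, add_zero, ep_comm] at k
  refine funext (hb.1.eq_zero h0 hb.2.1 fun g hg => ?_)
  have k0 := pol τ h1 h3 g hg
  have k1 := pol _ (conj_Kpm h1 g0) (by rw [ia_conj hb, h3, map_zero]) g hg
  rw [ia_conj ha, h2, act_T, h0.1] at k1
  rw [h2] at k0
  refine ((C.ep_T_eq_zero _).1 k0).elim id fun e0 => ((C.ep_T_eq_zero _).1 k1).elim id fun e1 => ?_
  exact absurd (C.T_inj (e0.symm.trans e1)) (by decide)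

/-- The annihilator of a row. -/
theorem row_ann (h0 : C.G3 g0) (ha : a ∈ C.U g0 1) (hb : b ∈ C.U g0 1) (a0 : a ≠ 0)
    (h : ∀ g ∈ C.Kpm, C.ep (a g) (b g) = 0) : b = 0 ∨ b = a := by
  obtain ⟨τ, t1, -, t3⟩ := exists_tau h0 ha a0 0
  have k := h τ t1
  rw [t3, ep_comm] at k
  refine ((C.ep_T_eq_zero 0).1 k).imp (ia_zero h0 ha hb h t1 t3) fun e => sub_eq_zero.1 ?_
  refine ia_zero h0 ha (sub_mem hb ha) (fun g hg => ?_) t1 t3 (by rw [Pi.sub_apply, e, t3, sub_self])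
  rw [Pi.sub_apply, sub_eq_add_neg, C.neg_two (ha.1.two g trivial), C.ep_add_right
    (hb.1.two g trivial) (ha.1.two g trivial) (ha.1.two g trivial), h g hg, ep_self, add_zero]

theorem row_Om (h0 : C.G3 g0) (hX : X ≤ C.U g0 1) (a b : X) (a0 : a ≠ 0)
    (h : ∀ β ∈ C.Om X, β a b = 0) : b = 0 ∨ b = a :=
  (row_ann h0 (hX a.2) (hX b.2) (fun e => a0 (Subtype.ext e)) fun g hg => by
    obtain ⟨β, h1, h2⟩ := exists_om (fun b hb => (hX hb).1) hg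
    rw [← h2, h β h1]).imp Subtype.ext Subtype.ext

theorem few_one (h0 : C.G3 g0) (hX : X ≤ C.U g0 1) (h : C.Adm s D0 X) : ∃ a₀, C.Few s D0 X a₀ := by
  have := h.fin
  obtain ⟨B, τ, U, -, h2, h3, h4⟩ := key h
  obtain ⟨β, k1, a₀, k2⟩ := count_one (two_X fun b hb => (hX hb).1) (row_Om h0 hX) B
  exact ⟨a₀, τ β, U, (h4 β k1).1, h2, h3, fun a ha hl =>
    (k2 ⟨a, ha⟩ ((h4 β k1).2 _ hl)).imp (congrArg Subtype.val) (congrArg Subtype.val)⟩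

theorem few_even (h0 : C.G3 g0) (hX : X ≤ C.U g0 1) (h : C.Adm s D0 X) {k : ℕ}
    (hk : Nat.card X = 4 ^ k) : C.Few s D0 X 0 := by
  have := h.fin
  obtain ⟨B, τ, U, h1, h2, h3, h4⟩ := key h
  obtain ⟨β, k1, k2⟩ := count_even (two_X fun b hb => (hX hb).1) (row_Om h0 hX)
    (fun β hβ => (om_alt hβ).1) B h1 hk
  exact ⟨τ β, U, (h4 β k1).1, h2, h3, fun a ha hl =>
    .inl (congrArg Subtype.val (k2 ⟨a, ha⟩ ((h4 β k1).2 _ hl)))⟩

theorem few_sub (h0 : C.G3 g0) (hX : X ≤ C.U g0 1) (h : C.Adm s D0 X)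
    {Y : AddSubgroup (GQ → C.A)} (hY : ∀ a ∈ X, (∀ v, C.Bd v → C.Loc v D0 a) → a ∈ Y)
    (hb : b ∈ X) (hb' : b ∉ Y) : C.Few s D0 X 0 := by
  have := h.fin
  obtain ⟨B, τ, U, -, h2, h3, h4⟩ := key h
  obtain ⟨β, k1, k2⟩ := count_sub (two_X fun b hb => (hX hb).1) (row_Om h0 hX) B
    (Y := Y.addSubgroupOf X) fun e => hb' (e.ge (AddSubgroup.mem_top (⟨b, hb⟩ : X)))
  exact ⟨τ β, U, (h4 β k1).1, h2, h3, fun a ha hl => .inl (congrArg Subtype.val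
    (k2 ⟨a, ha⟩ (hY a ha fun _ hv => hl.loc hv) ((h4 β k1).2 _ hl)))⟩

theorem card_two (h0 : C.G3 g0) (hX : X ≤ C.U g0 1) :
    ∃ k, Nat.card X = 4 ^ k ∨ Nat.card X = 2 * 4 ^ k := by
  have := finite_le h0 hX
  obtain ⟨k, hk⟩ := SP.card_two (two_X (X := X) fun b hb => (hX hb).1)
  obtain ⟨j, rfl | rfl⟩ := k.even_or_odd'
  · exact ⟨j, .inl (by rw [hk, pow_mul]; rfl)⟩
  · exact ⟨j, .inr (by rw [hk, pow_succ', pow_mul]; rfl)⟩

end Cu

end Pool.Agent.SP
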