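import Pool.Agent.Lib.MP_696deb_nt.SP.IA

/-! From lifts to Selmer groups. -/

set_option autoImplicit false

open scoped Classical
open Finset Function

namespace Pool.Agent.SP

open Pool.Agent.Lib.MP_696deb_nt Pool.Agent.Lib.MP_696deb_nt.Sm
open Pool.Agent.Lib.MP_696deb_nt.B2 (cc jC)

namespace Cu

variable {C : Cu} {g0 s : GQ} {ε : ℤ} {X : AddSubgroup (GQ → C.A)} {a₀ c : GQ → C.A} {z : Prop}

/-- A subgroup that fixes the roots and is killed by the symbols and the unramified cocycles. -/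
theorem exists_U0 (h0 : C.G3 g0) : ∃ U : Subgroup GQ, B2.Op U ∧ U.Normal ∧ U ≤ C.Kpm ∧
    (∀ a ∈ C.U g0 1, ∀ u ∈ U, a u = 0) ∧ (∀ u ∈ U, chi (-1) u = 0) ∧
      ∀ q : ℕ, q ≤ C.N0 → ∀ u ∈ U, chi q u = 0 := by
  have := finite_U h0 one_ne_zero
  obtain ⟨U1, a1, a2, a3⟩ := exists_kill (fun a : C.U g0 1 => a.1) fun a => a.2.1.sm
  obtain ⟨U2, b1, b2, b3⟩ := exists_kill (fun q : Option (Fin (C.N0 + 1)) =>
    chi (q.elim (-1) fun i => (i.1 : ℤ))) fun _ => lc_chi _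
  have := C.normal_Kpm
  have e : ∀ d : ℤ, chi d 1 = 0 := fun d => by
    have k := chi_mul_g d 1 1
    rw [mul_one] at k
    exact left_eq_add.1 k
  exact ⟨U1 ⊓ U2 ⊓ C.Kpm, (a1.inter b1).inter C.op_Kpm, inferInstance, inf_le_right,
    fun a ha u hu => (a3 ⟨a, ha⟩ u hu.1.1).trans ha.1.one,
    fun u hu => (b3 none u hu.1.2).trans (e _),
    fun q hq u hu => (b3 (some ⟨q, Nat.lt_succ_of_le hq⟩) u hu.1.2).trans (e _)⟩

/-- The primes of the class give twists that are squares at the bad primes. -/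
theorem ib_sq (hε : ε = 1 ∨ ε = -1) (hs : C.Ok ε s) {τ : GQ} (hτ : ∀ d : ℤ, chi d τ = 0)
    {U : Subgroup GQ} (hU : U.Normal) (k1 : ∀ u ∈ U, chi (-1) u = 0)
    (k2 : ∀ q : ℕ, q ≤ C.N0 → ∀ u ∈ U, chi q u = 0) {l : ℕ} (hl : C.Gp l) (hf : Frb U (s * τ) l) :
    (ε * l) % 8 = 1 ∧ ∀ q : ℕ, q.Prime → q ≠ 2 → q ≤ C.N0 → aleg q (ε * l) = 0 := by
  refine sq_of_chi hε hl ?_ fun q hq h => ?_
  · rw [chi_Frb hU hf hl.1 hl.ne_two (fun e => hl.1.one_lt.ne' ?_) k1, chi_mul_g, hτ, add_zero,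
      hs.1]
    exact_mod_cast Int.eq_one_of_dvd_one (by positivity) (dvd_neg.1 e)
  · rw [chi_Frb hU hf hl.1 hl.ne_two (fun e => hl.2.not_ge ?_) (k2 q h), chi_mul_g, hτ, add_zero,
      hs.2 q hq h]
    exact (Nat.le_of_dvd hq.pos (Int.natCast_dvd_natCast.1 e)).trans h

/-- Normalised classes with the local conditions at the bad places, unramified away from `l`. -/
structure IbD (C : Cu) (g0 : GQ) (ε : ℤ) (l : ℕ) (a : GQ → C.A) : Prop where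
  z2 : C.Z2 ⊤ a
  nrm : a g0 = 0
  unr : ∀ q, C.Gp q → q ≠ l → a (sig q) = 0
  loc : ∀ v, C.Bd v → C.Loc v (Dref C.N0 ε) a

theorem IbD.add {l : ℕ} {a a' : GQ → C.A} (h : C.IbD g0 ε l a) (h' : C.IbD g0 ε l a') :
    C.IbD g0 ε l (a + a') :=
  ⟨h.z2.add h'.z2, by rw [Pi.add_apply, h.nrm, h'.nrm, add_zero],
    fun q k k' => by rw [Pi.add_apply, h.unr q k k', h'.unr q k k', add_zero],
    fun v hv => (h.loc v hv).add (h'.loc v hv)⟩

theorem IbD.mem {l : ℕ} {a : GQ → C.A} (h : C.IbD g0 ε l a) (hε : ε = 1 ∨ ε = -1)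
    (k : a (sig l) = 0) : a ∈ C.SS g0 ε :=
  (mem_SS hε).2 ⟨mem_U_one.2 ⟨⟨h.z2, fun q hq => if e : q = l then e ▸ k else h.unr q hq e⟩,
    h.nrm⟩, h.loc⟩

theorem ib_dat {l : ℕ} {A : GQ → C.A} (t : C.Tw1 (ε * l) l) (hS : C.Sim (ε * l) (Dref C.N0 ε))
    (hA : C.IsSel (ε * l) 2 A) (k : A g0 = 0) : C.IbD g0 ε l (2 • A) :=
  ⟨hA.coc.two hA.lc (hA.lift t).tors, by rw [Pi.smul_apply, k, nsmul_zero],
    fun q hq e => by rw [Pi.smul_apply, (hA.lift t).unr q hq e, nsmul_zero],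
    fun v hv => ((hA.lift t).loc v hv).two.congr (fun g hg => (hS v hv g hg).symm) fun _ _ => rfl⟩

/-- A class that is not a coboundary at the Frobenius element forbids ramification. -/
theorem IbD.sig_zero {l : ℕ} {a : GQ → C.A} (h : C.IbD g0 ε l a) (hε : ε = 1 ∨ ε = -1)
    (hl : C.Ty2 l) (hc : c ∈ C.SS g0 ε) (hc' : ¬ C.Cb c (frb l)) : a (sig l) = 0 := by
  obtain ⟨c1, c2⟩ := (mem_SS hε).1 hc
  have c3 := (mem_U_one.1 c1).1
  have e := recip' c3.1 h.z2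
    ((h.loc 0 (.inl rfl)).prp (.inl rfl) (h.z2.mono le_top) c (c3.1.mono le_top) (c2 0 (.inl rfl)))
    {l} (fun v hv => mem_singleton.1 hv ▸ hl.1)
    fun v hv k => ⟨c3.2 v hv, h.unr v hv fun e => k (mem_singleton.2 e)⟩
  rw [sum_singleton, sum_eq_zero fun v hv => Bv_iso (mem_bad.1 hv).1 (c3.1.mono le_top)
    (h.z2.mono le_top) (c2 v (.inr (mem_bad.1 hv))) (h.loc v (.inr (mem_bad.1 hv))),
    Bv_tame hl.1 (c3.1.mono le_top) (h.z2.mono le_top) (c3.2 l hl.1)] at e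
  refine ((h.z2.mono le_top).sig_ty2 hl).resolve_right fun k => hc' ?_
  rw [k] at e
  exact (Cb_iff_ep (c3.1.two _ trivial) hl.2).2 e

/-- An unramified class with the local condition at a prime of the second type that divides the
twist is a coboundary there. -/
theorem ib_cb {l : ℕ} {D : ℤ} {a : GQ → C.A} (hl : C.Ty2 l) (hD : padicValInt l D = 1)
    (h : C.Z2 ⊤ a) (k : C.Loc l D a) (h0 : a (sig l) = 0) : C.Cb a (frb l) := by
  have e := (loc_iff hl hD (h.mono le_top)).1 k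
  rw [rm, if_pos h0, zero_mul] at e
  exact (Cb_iff_ep (h.two _ trivial) hl.2).2 e

/-- The groups of Selmer type are admissible. -/
theorem adm_SS (h0 : C.G3 g0) (hε : ε = 1 ∨ ε = -1) (hX : X ≤ C.SS g0 ε)
    (cb : ∀ b ∈ X, C.Cb b s) : C.Adm s (Dref C.N0 ε) X :=
  ⟨finite_le h0 (hX.trans SS_le), fun _ hb => (mem_U_one.1 (SS_le (hX hb))).1,
    fun _ hb v hv => (((mem_SS hε).1 (hX hb)).2 v hv).prp hv.or ((SS_le (hX hb)).1.mono le_top), cb⟩

/-- Frobenius elements of order three. -/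
theorem res_three (h0 : C.G3 g0) (hε : ε = 1 ∨ ε = -1) (hs : C.Ok ε s) (h3 : ∀ i, C.pm s i ≠ i)
    (hX : C.SS g0 ε ≤ X) (h : C.Few s (Dref C.N0 ε) X a₀) (hz : z → a₀ = 0) : C.Res g0 ε z := by
  obtain ⟨τ, U, h1, h2, h4, h5⟩ := h
  obtain ⟨U0, k1, k2, k3, -, k5, k6⟩ := exists_U0 h0
  refine ⟨U ⊓ U0, s * τ, h2.inter k1, inferInstance, fun l hl hf => ?_⟩
  have f0 := hf.mono inf_le_right
  obtain ⟨e1, e2⟩ := ib_sq hε hs h1.chr k2 k5 k6 hl f0
  have t := tw1_prime hε hl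
  have hS := sim_Dref hε hl e1 e2
  refine ⟨e1, e2, a₀, hz, fun A hA hg => ?_⟩
  have d := ib_dat t hS hA hg
  refine h5 _ (hX (d.mem hε ?_)) ⟨l, ε * l, A, hf.mono inf_le_left, t, hS, hA.lift t, rfl⟩
  refine ((d.z2.mono le_top).sig_ty hl).resolve_right fun ⟨i, hi, _⟩ => ?_
  exact fpf_Frb k2 k3 f0 hl (fun j => by rw [pm_mul, h1.one j]; exact h3 j) i hi

/-- Frobenius elements of order two, when some class is not a coboundary there. -/
theorem res_two (h0 : C.G3 g0) (hε : ε = 1 ∨ ε = -1) (hs : C.Ok ε s) (h2 : chi C.disc s = 1)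
    (hc : c ∈ C.SS g0 ε) (hc' : ¬ C.Cb c s) (hX : ∀ a ∈ C.SS g0 ε, C.Cb a s → a ∈ X)
    (h : C.Few s (Dref C.N0 ε) X a₀) (hz : z → a₀ = 0) : C.Res g0 ε z := by
  obtain ⟨τ, U, h1, h3, h4, h5⟩ := h
  obtain ⟨U0, k1, k2, k3, k4, k5, k6⟩ := exists_U0 h0
  refine ⟨U ⊓ U0, s * τ, h3.inter k1, inferInstance, fun l hl hf => ?_⟩
  have f0 := hf.mono inf_le_right
  obtain ⟨e1, e2⟩ := ib_sq hε hs h1.chr k2 k5 k6 hl f0
  have t := tw1_prime hε hl
  have hS := sim_Dref hε hl e1 e2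
  have ty : C.Ty2 l := ty2_Frb k2 k3 f0 hl (by rw [chi_mul_g, h1.chr, add_zero, h2])
  have cb : ∀ b ∈ C.SS g0 ε, C.Cb b (frb l) ↔ C.Cb b s := fun b hb =>
    have m := SS_le hb
    (Cb_Frb k2 k3 f0 hl m.1 ((mem_U_one.1 m).1.2 l hl) (k4 b m)).trans
      (Cb_mul m.1 h1.one (h1.zero b m.1))
  refine ⟨e1, e2, a₀, hz, fun A hA hg => ?_⟩
  have d := ib_dat t hS hA hg
  have s0 := d.sig_zero hε ty hc fun k => hc' ((cb c hc).1 k)
  have m := d.mem hε s0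
  exact h5 _ (hX _ m ((cb _ m).1 (ib_cb ty t.val d.z2 (hA.loc l (.inr hl.1)).two s0)))
    ⟨l, ε * l, A, hf.mono inf_le_left, t, hS, hA.lift t, rfl⟩

/-- Frobenius elements of order two, when there is no unramified class. -/
theorem res_two' (h0 : C.G3 g0) (hε : ε = 1 ∨ ε = -1) (hs : C.Ok ε s) (h2 : chi C.disc s = 1)
    (h : ∀ a ∈ C.SS g0 ε, a = 0) : C.Res g0 ε False := by
  obtain ⟨U0, k1, k2, k3, -, k5, k6⟩ := exists_U0 h0
  refine ⟨U0, s, k1, k2, fun l hl hf => ?_⟩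
  obtain ⟨e1, e2⟩ := ib_sq hε hs (τ := 1) (fun d => left_eq_add.1
    ((congrArg (chi d) (mul_one 1)).symm.trans (chi_mul_g d 1 1))) k2 k5 k6 hl
    (by rwa [mul_one])
  have t := tw1_prime hε hl
  have hS := sim_Dref hε hl e1 e2
  have ty : C.Ty2 l := ty2_Frb k2 k3 hf hl h2
  have k : ∀ a, C.IbD g0 ε l a → a ≠ 0 → a (sig l) = C.T (C.tp l) := fun a d a0 =>
    ((d.z2.mono le_top).sig_ty2 ty).resolve_left fun e => a0 (h a (d.mem hε e))
  refine ⟨e1, e2, ?_⟩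
  by_cases e : ∃ a, C.IbD g0 ε l a ∧ a ≠ 0
  · obtain ⟨a, d, a0⟩ := e
    refine ⟨a, False.elim, fun A hA hg => or_iff_not_imp_left.2 fun A0 => ?_⟩
    have d' := ib_dat t hS hA hg
    have e3 := h _ ((d'.add d).mem hε (by rw [Pi.add_apply, k _ d' A0, k _ d a0, T_add_self]))
    exact funext fun g => (eq_neg_of_add_eq_zero_left (congrFun e3 g)).trans
      (C.neg_two (d.z2.two g trivial))
  · exact ⟨0, False.elim, fun A hA hg => .inl (by_contra fun A0 => e ⟨_, ib_dat t hS hA hg, A0⟩)⟩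

theorem G3.ok (h0 : C.G3 g0) : C.Ok 1 g0 := ⟨(h0.2 _).trans (chi_one _).symm, fun _ _ _ => h0.2 _⟩

theorem G3.fpf (h0 : C.G3 g0) (i : Fin 3) : C.pm g0 i ≠ i := by
  rw [h0.1]
  revert i
  decide

/-- Complex conjugation times an element that is killed by the quadratic characters. -/
theorem ok_cc {τ : GQ} (h : ∀ d : ℤ, chi d τ = 0) : C.Ok (-1) (cc * τ) :=
  ⟨by rw [chi_mul_g, h, add_zero], fun q hq _ => by
    rw [chi_mul_g, h, add_zero, chi_Gv_zero (by exact_mod_cast hq.pos) _ loc_cc_mem]⟩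

end Cu

end Pool.Agent.SP
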