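import Pool.Agent.Lib.MP_696deb_nt.SP.IB

/-! Negative discriminant. -/

set_option autoImplicit false

open scoped Classical
open Finset Function

namespace Pool.Agent.SP

open Pool.Agent.Lib.MP_696deb_nt Pool.Agent.Lib.MP_696deb_nt.Sm
open Pool.Agent.Lib.MP_696deb_nt.B2 (cc jC)

namespace Cu

variable {C : Cu} {g0 s : GQ}

theorem SS_neg (hn : C.disc < 0) (ε : ℤ) : C.SS g0 ε = C.RR g0 := by
  refine le_antisymm (fun _ h => h.1) fun a h => ⟨h, ?_⟩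
  obtain ⟨S, hS, e⟩ := Z2.cob_cc hn (h.1.1.mono le_top)
  exact ⟨S, fun g hg => by rw [cob, C.tw_two ε g hS, e g (Gv_zero ▸ hg)]⟩

/-- The classes that are coboundaries at `s`. -/
noncomputable def XC (C : Cu) (g0 s : GQ) : AddSubgroup (GQ → C.A) where
  carrier := {a | a ∈ C.RR g0 ∧ C.Cb a s}
  zero_mem' := ⟨zero_mem _, 0, nsmul_zero 2, by simp⟩
  add_mem' := fun h h' => ⟨add_mem h.1 h'.1, by
    obtain ⟨P, h1, h2⟩ := h.2
    obtain ⟨Q, h3, h4⟩ := h'.2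
    exact ⟨P + Q, by rw [smul_add, h1, h3, add_zero], by
      rw [Pi.add_apply, h2, h4, map_add]
      abel⟩⟩
  neg_mem' := fun {b} h => by
    rwa [show -b = b from funext fun g => C.neg_two (h.1.1.1.two g trivial)]

/-- An element of order two at which some class is not a coboundary. -/
theorem exists_s (hn : C.disc < 0) (h0 : C.G3 g0) {c : GQ → C.A} (hc : c ∈ C.RR g0) (c0 : c ≠ 0) :
    ∃ s, C.Ok (-1) s ∧ chi C.disc s = 1 ∧ ¬ C.Cb c s ∧
      Nat.card (C.RR g0) = 2 * Nat.card (C.XC g0 s) := by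
  obtain ⟨t, ht⟩ := C.pm_isCC hn B2.isCC_cc
  obtain ⟨τ, h1, h2, h3⟩ := exists_tau h0 hc.1 c0 (t + 1)
  have hs : ∀ i, C.pm (cc * τ) i = i ↔ i = t := fun i => by rw [pm_mul, h1 i, ht]
  have two : ∀ b ∈ C.RR g0, ∀ g, 2 • b g = 0 := fun b hb g => hb.1.1.two g trivial
  have e1 : C.ep (c (cc * τ)) (C.T t) = 1 := by
    obtain ⟨S, hS, e⟩ := Z2.cob_cc hn (hc.1.1.mono le_top)
    have k1 : C.ep (c cc) (C.T t) = 0 :=
      (Cb_iff_ep (two c hc _) ht).1 ⟨S, hS, e _ (Subgroup.mem_zpowers _)⟩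
    have k2 : C.pm cc (t + 1) ≠ t := fun k => by
      have k3 : t + 1 = t := C.pm_inj cc (k.trans ((ht t).2 rfl).symm)
      revert k3
      generalize t = i
      revert i
      decide
    rw [hc.1.1.coc _ trivial _ trivial, h3, act_T,
      C.ep_add_left (two c hc _) (C.two_T _) (C.two_T _), k1, ep_T, if_neg k2, zero_add]
  let f : C.RR g0 →+ F2 := AddMonoidHom.mk' (fun b => C.ep (b.1 (cc * τ)) (C.T t)) fun b b' =>
    C.ep_add_left (two _ b.2 _) (two _ b'.2 _) (C.two_T _)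
  have f1 : Surjective f := fun x => by
    rcases F2_cases x with rfl | rfl
    · exact ⟨0, map_zero f⟩
    · exact ⟨⟨c, hc⟩, e1⟩
  have f2 : f.ker = (C.XC g0 (cc * τ)).addSubgroupOf (C.RR g0) := by
    ext b
    rw [AddMonoidHom.mem_ker, AddSubgroup.mem_addSubgroupOf]
    exact ⟨fun k => ⟨b.2, (Cb_iff_ep (two _ b.2 _) hs).2 k⟩,
      fun k => (Cb_iff_ep (two _ b.2 _) hs).1 k.2⟩
  refine ⟨cc * τ, ok_cc h2, (C.chi_disc _).2 ⟨t, hs⟩, fun k => ?_, ?_⟩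
  · rw [(Cb_iff_ep (two c hc _) hs).1 k] at e1
    exact zero_ne_one e1
  · rw [AddSubgroup.card_eq_card_quotient_mul_card_addSubgroup f.ker,
      Nat.card_congr (QuotientAddGroup.quotientKerEquivOfSurjective f f1).toEquiv, Nat.card_zmod,
      f2, Nat.card_congr (AddSubgroup.addSubgroupOfEquivOfLe
        (show C.XC g0 (cc * τ) ≤ C.RR g0 from fun _ h => h.1)).toEquiv]

theorem ic_adm (hn : C.disc < 0) (h0 : C.G3 g0) :
    C.Adm s (Dref C.N0 (-1)) (C.XC g0 s) :=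
  adm_SS h0 (.inr rfl) (fun _ h => (SS_neg hn (-1)).ge h.1) fun _ hb => hb.2

theorem ic_adm3 (h0 : C.G3 g0) : C.Adm g0 (Dref C.N0 1) (C.SS g0 1) :=
  adm_SS h0 (.inl rfl) le_rfl fun _ hb => Cb_of_fpf ((SS_le hb).1.two _ trivial) h0.fpf

theorem neg_zero (hn : C.disc < 0) (h0 : C.G3 g0) :
    ∃ ε : ℤ, (ε = 1 ∨ ε = -1) ∧ C.Res g0 ε True := by
  obtain ⟨k, hk | hk⟩ := card_two h0 (X := C.RR g0) fun _ h => h.1
  · exact ⟨1, .inl rfl, res_three h0 (.inl rfl) h0.ok h0.fpf le_rfl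
      (few_even h0 SS_le (ic_adm3 h0) ((SS_neg hn 1).symm ▸ hk)) fun _ => rfl⟩
  · have e : ∃ c ∈ C.RR g0, c ≠ 0 := by
      by_contra e
      rw [(AddSubgroup.eq_bot_iff_forall _).2 fun c hc => by_contra fun c0 => e ⟨c, hc, c0⟩,
        AddSubgroup.card_bot] at hk
      omega
    obtain ⟨c, hc, c0⟩ := e
    obtain ⟨s, h1, h2, h3, h4⟩ := exists_s hn h0 hc c0
    exact ⟨-1, .inr rfl, res_two h0 (.inr rfl) h1 h2 ((SS_neg hn _).ge hc) h3
      (X := C.XC g0 s) (fun a ha cb => ⟨ha.1, cb⟩)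
      (few_even h0 (fun _ h => h.1.1) (ic_adm hn h0) (k := k) (by omega)) fun _ => rfl⟩

theorem neg_one (hn : C.disc < 0) (h0 : C.G3 g0) {ε : ℤ} (hε : ε = 1 ∨ ε = -1) :
    C.Res g0 ε False := by
  rcases hε with rfl | rfl
  · obtain ⟨a, h⟩ := few_one h0 SS_le (ic_adm3 h0)
    exact res_three h0 (.inl rfl) h0.ok h0.fpf le_rfl h False.elim
  · by_cases e : ∃ c ∈ C.RR g0, c ≠ 0
    · obtain ⟨c, hc, c0⟩ := e
      obtain ⟨s, h1, h2, h3, -⟩ := exists_s hn h0 hc c0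
      obtain ⟨a, h⟩ := few_one h0 (X := C.XC g0 s) (fun _ h => h.1.1) (ic_adm hn h0)
      exact res_two h0 (.inr rfl) h1 h2 ((SS_neg hn _).ge hc) h3 (X := C.XC g0 s)
        (fun a ha cb => ⟨ha.1, cb⟩) h False.elim
    · refine res_two' (s := cc * 1) h0 (.inr rfl) (ok_cc fun d => loc_one d) ?_
        fun a ha => by_contra fun a0 => e ⟨a, ha.1, a0⟩
      rw [mul_one]
      exact (C.chi_disc _).2 (C.pm_isCC hn B2.isCC_cc)

end Cu

end Pool.Agent.SP
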