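import Pool.Agent.Lib.MP_696deb_nt.SP.ID1

/-! Images of real points. -/

set_option autoImplicit false

open scoped Classical
open Finset Function

namespace Pool.Agent.SP

open Pool.Agent.Lib.MP_696deb_nt Pool.Agent.Lib.MP_696deb_nt.Sm
open Pool.Agent.Lib.MP_696deb_nt.B2 (cc jC)

theorem id_cx {u l : ℂ} {p q : ℝ} {ε : ℤ} (hε : ε = 1 ∨ ε = -1) (hpq : p ≠ q) (hu : u ≠ 0)
    (h1 : starRingEnd ℂ u * u = p * q) (h2 : l ^ 2 = u + starRingEnd ℂ u + (p + q))
    (h3 : ε * starRingEnd ℂ l = -l) : 0 < p * q ∧ ε * (p + q) < 0 := by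
  have a0 := Complex.normSq_pos.2 hu
  have a1 := congrArg Complex.re h1
  have a2 := congrArg Complex.re h2
  have a3 := congrArg Complex.re h3
  have a4 := congrArg Complex.im h3
  have a5 := sq_pos_of_ne_zero (sub_ne_zero.2 hpq)
  rw [Complex.normSq_apply] at a0
  simp [sq] at a1 a2 a3 a4
  refine ⟨a1 ▸ a0, not_le.1 fun k => ?_⟩
  rcases hε with rfl | rfl
  · simp at a3 k
    rw [show l.re = 0 by linarith] at a2
    nlinarith [mul_self_nonneg l.im, mul_self_nonneg u.im, mul_nonneg k (mul_self_nonneg l.im),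
      mul_self_nonneg (l.im * l.im)]
  · simp at a4 k
    rw [show l.im = 0 by linarith] at a2
    nlinarith [mul_self_nonneg l.re, mul_self_nonneg u.im, mul_self_nonneg (l.re * l.re),
      mul_nonneg (neg_nonneg.2 (show p + q ≤ 0 by linarith)) (mul_self_nonneg l.re)]

theorem id_add {K : Type} [Field K] {W : WeierstrassCurve K} {e1 e2 e3 x y x' y' : K}
    (h : Split W e1 e2 e3) {hP : W.toAffine.Nonsingular x y} {hP' : W.toAffine.Nonsingular x' y'}
    (e : .some x' y' hP' = WeierstrassCurve.Affine.Point.some x y hP + h.T) :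
    x ≠ e1 ∧ (x' - e1) * (x - e1) = (e1 - e2) * (e1 - e3) ∧ ∃ l, y = l * (x - e1) ∧
      y' = -l * (x' - e1) ∧ l ^ 2 = (x - e1) + (x' - e1) + ((e1 - e2) + (e1 - e3)) := by
  have heq := (h.nonsingular_iff x y).mp hP
  have hx : x ≠ e1 := by
    rintro rfl
    obtain rfl : y = 0 := pow_eq_zero_iff two_ne_zero |>.mp (by rw [heq]; ring)
    exact WeierstrassCurve.Affine.Point.some_ne_zero _
      (e.trans ((two_nsmul _).symm.trans h.two_nsmul_T))
  obtain ⟨_, _, _, k, f, -⟩ := h.add_T hP hx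
  obtain ⟨rfl, -⟩ := (WeierstrassCurve.Affine.Point.some.injEq ..).mp (e.trans k)
  obtain ⟨a, b⟩ := (WeierstrassCurve.Affine.Point.some.injEq ..).mp
    (e.trans (WeierstrassCurve.Affine.Point.add_of_X_ne hx))
  have hl : W.toAffine.slope x e1 y 0 * (x - e1) = y := by
    rw [WeierstrassCurve.Affine.slope_of_X_ne hx, sub_zero, div_mul_cancel₀ _ (sub_ne_zero.2 hx)]
  rw [WeierstrassCurve.Affine.addY, h.negY_eq, WeierstrassCurve.Affine.negAddY, ← a] at b
  generalize W.toAffine.slope x e1 y 0 = l at hl a b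
  simp only [WeierstrassCurve.Affine.addX, WeierstrassCurve.toAffine, h.a1, h.a2] at a
  exact ⟨hx, f, l, hl.symm, by linear_combination b + hl, by linear_combination -a⟩

namespace Cu

variable {C : Cu} {a : GQ → C.A}

/-- The images of the real points of the curve and of its twist by minus one. -/
theorem real_kum (hp : 0 < C.disc) {ε : ℤ} (hε : ε = 1 ∨ ε = -1) {Q : C.A} {i : Fin 3}
    (h : C.cob ε Q cc = C.T i) : 0 < C.fd i ∧ ε * C.fs i < 0 := by
  have fx : ∀ j, cc (C.e j) = C.e j := fun j => by rw [e_pm, isCC_Kpm hp B2.isCC_cc j]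
  have re : ∀ j k, (((jC (C.e j - C.e k)).re : ℝ) : ℂ) = jC (C.e j - C.e k) := fun j k =>
    Complex.conj_eq_iff_re.1 (by rw [← B2.jC_cc, map_sub, fx, fx])
  rcases Q with _ | ⟨x, y, hQ⟩
  · exact absurd (h.symm.trans (by
      rw [cob, ← WeierstrassCurve.Affine.Point.zero_def, tw_zero, sub_zero])) (C.T_ne i)
  obtain ⟨h1, e1⟩ := C.act_some cc hQ
  obtain ⟨h2, e2⟩ : ∃ h', C.tw ε cc (.some x y hQ) = .some (cc x) (ε * cc y) h' := by
    rcases hε with rfl | rfl
    · exact ⟨by simpa using h1, by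
        rw [tw, chi_one, sn_zero, one_zsmul, e1]
        exact ell_ext rfl (by simp)⟩
    · have h3 := (WeierstrassCurve.Affine.nonsingular_neg _ _).2 h1
      rw [(C.split 0).negY_eq] at h3
      refine ⟨by simpa using h3, ?_⟩
      rw [tw, loc_chi_cc (by decide), if_neg (by decide), sn_one, neg_one_zsmul, e1,
        WeierstrassCurve.Affine.Point.neg_some]
      exact ell_ext rfl (by rw [(C.split 0).negY_eq]; simp)
  rw [cob, e2, sub_eq_iff_eq_add'] at h
  obtain ⟨hx, f, l, f1, f2, f3⟩ := id_add (C.split i) h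
  have u0 := sub_ne_zero.2 hx
  have e3 : cc x - C.e i = cc (x - C.e i) := by rw [map_sub, fx]
  rw [e3] at f f2 f3
  have f4 : ε * cc l = -l := mul_right_cancel₀ ((map_ne_zero cc).2 u0) (by
    rw [← f2, f1, map_mul, mul_assoc])
  have := id_cx (u := jC (x - C.e i)) (l := jC l) (p := (jC (C.e i - C.e (i + 1))).re)
    (q := (jC (C.e i - C.e (i + 2))).re) hε (fun k => (C.split i).h23 (sub_right_inj.1
      (jC.injective (by rw [← re i (i + 1), ← re i (i + 2), k])))) ((map_ne_zero jC).2 u0)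
    (by rw [re, re, ← B2.jC_cc, ← map_mul, f, map_mul])
    (by rw [re, re, ← B2.jC_cc, ← map_pow, f3, map_add, map_add, map_add])
    (by rw [← B2.jC_cc, ← map_neg, ← f4, map_mul, map_intCast])
  have g1 : 3 * C.e i + C.a = (C.e i - C.e (i + 1)) + (C.e i - C.e (i + 2)) := by
    have : (C.a : Qb) = _ := (C.split i).a2
    linear_combination this
  rw [fd, fs, lam_TT, if_pos rfl, der (C.split i), g1, map_mul, map_add, ← re, ← re i (i + 2),
    ← Complex.ofReal_mul, ← Complex.ofReal_add, Complex.ofReal_re, Complex.ofReal_re]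
  exact this

end Cu

end Pool.Agent.SP
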