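import Pool.Agent.Lib.MP_696deb_nt.SP.TBb

/-! The quadratic refinement of the local pairing. -/

set_option autoImplicit false

open scoped Classical
open Finset

namespace Pool.Agent.SP

open Pool.Agent.Lib.MP_696deb_nt Pool.Agent.Lib.MP_696deb_nt.Sm
open Pool.Agent.Lib.MP_696deb_nt.B2 (jC cc)

/-- The bit of a sign. -/
noncomputable def tf_bit (x : Qb) : F2 := if x = 1 then 0 else 1

theorem tf_sn {x : Qb} (h : x * x = 1) : (sn (tf_bit x) : Qb) = x := by
  unfold tf_bit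
  split_ifs with e
  · rw [e, sn_zero, Int.cast_one]
  · rw [sn_one, (mul_self_eq_one_iff.1 h).resolve_left e, Int.cast_neg, Int.cast_one]

theorem tf_sq (x : F2) : (sn x : Qb) * sn x = 1 := by
  rcases F2_cases x with rfl | rfl <;> simp [sn_zero, sn_one]

theorem tf_spl {H : Subgroup GQ} (hH : IsClosed (H : Set GQ)) {c : GQ → GQ → F2}
    (hc : B2.C2 1 H c) {B : GQ → Qb} (h1 : B2.Sm H B) (h2 : ∀ g ∈ H, B g ≠ 0)
    (h3 : ∀ g ∈ H, ∀ k ∈ H, (sn (c g k) : Qb) * B (g * k) = B g * g (B k)) : B2.Spl 1 H c := by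
  have z : ∀ x : F2, B2.zeta 1 ^ x.val = (sn x : Qb) := fun x => by
    rcases F2_cases x with rfl | rfl <;> simp [sn_zero, sn_one, B2.zeta, ZMod.val_one]
  refine (B2.spl_iff hH hc).2 ⟨fun g => if B g = 0 then 1 else B g,
    h1.comp fun x => if x = 0 then 1 else x, fun g => ?_, fun g hg l hl => ?_⟩
  · beta_reduce
    split_ifs with c
    exacts [one_ne_zero, c]
  · beta_reduce
    rw [if_neg (h2 g hg), if_neg (h2 l hl), if_neg (h2 _ (mul_mem hg hl)), z, h3 g hg l hl]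

namespace Cu

variable {C : Cu} {H : Subgroup GQ} {a a' : GQ → C.A} {D : ℤ} {S S' : C.A} {p : ℕ}

/-- The norm of the scalar of a point of order two. -/
noncomputable def nn (C : Cu) (S : C.A) : Qb := if S = 0 then 1 else -C.lam S S

/-- Its square root. -/
noncomputable def ss (C : Cu) (S : C.A) : Qb := rt (C.nn S)

/-- The obstruction cocycle, with values in the signs. -/
noncomputable def om (C : Cu) (a : GQ → C.A) (g k : GQ) : Qb :=
  C.lam (C.act g (a k)) (a g) * C.ss (a (g * k)) / (C.ss (a g) * g (C.ss (a k)))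

/-- The obstruction cocycle. -/
noncomputable def ob (C : Cu) (a : GQ → C.A) (g k : GQ) : F2 := tf_bit (C.om a g k)

theorem nn_zero : C.nn 0 = 1 := if_pos rfl

theorem nn_T (i : Fin 3) : C.nn (C.T i) = -((C.e i - C.e (i + 1)) * (C.e i - C.e (i + 2))) := by
  rw [nn, if_neg (C.T_ne i), lam_TT, if_pos rfl, der (C.split i)]

theorem nn_ne (h : 2 • S = 0) : C.nn S ≠ 0 := by
  unfold nn
  split_ifs
  exacts [one_ne_zero, neg_ne_zero.2 (lam_ne h S)]

theorem nn_act (g : GQ) (S : C.A) : C.nn (C.act g S) = g (C.nn S) := by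
  simp only [nn, map_eq_zero_iff _ (C.act_inj g)]
  split_ifs
  · rw [map_one]
  · rw [lam_act, map_neg]

theorem nn_add (h : 2 • S = 0) (h' : 2 • S' = 0) :
    C.lam S S' * C.lam S S' * C.nn (S + S') = C.nn S * C.nn S' := by
  rcases C.tors2 h with rfl | ⟨i, rfl⟩
  · rw [lam_zero, zero_add, nn_zero, one_mul]
  rcases C.tors2 h' with rfl | ⟨j, rfl⟩
  · rw [lam_zero', add_zero, nn_zero, one_mul, one_mul, mul_one]
  rcases eq_or_ne i j with rfl | e
  · rw [T_add_self, nn_zero, nn, if_neg (C.T_ne i), mul_one, neg_mul_neg]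
  obtain ⟨k, k1, k2⟩ : ∃ k, i ≠ k ∧ j ≠ k := by clear h h' e; revert i j; decide
  have s := split' (C := C) e k1 k2
  rw [C.T_add_ne e k1 k2, nn, nn, nn, if_neg (C.T_ne i), if_neg (C.T_ne j), if_neg (C.T_ne k),
    lam_TT, lam_TT, lam_TT, lam_TT, if_pos rfl, if_pos rfl, if_pos rfl, if_neg e.symm, der s,
    der s.swap12, der s.swap13]
  ring

theorem ss_sq (S : C.A) : C.ss S * C.ss S = C.nn S := rt_mul_self _

theorem ss_ne (h : 2 • S = 0) : C.ss S ≠ 0 := fun e => nn_ne h (by rw [← ss_sq, e, mul_zero])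

theorem sn_ob (h : C.Z2 H a) {g k : GQ} (hg : g ∈ H) (hk : k ∈ H) :
    (sn (C.ob a g k) : Qb) = C.om a g k := by
  refine tf_sn ?_
  have h1 := nn_add (C.two_act g (h.two k hk)) (h.two g hg)
  rw [add_comm, ← h.coc g hg k hk, nn_act, ← ss_sq, ← ss_sq (a g), ← ss_sq (a k), map_mul] at h1
  have h2 := ss_ne (h.two g hg)
  have h3 := (map_ne_zero g).2 (ss_ne (h.two k hk))
  rw [om, div_mul_div_comm, div_eq_one_iff_eq (by simp only [ne_eq, mul_eq_zero, h2, h3]; tauto)]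
  linear_combination h1

theorem c2_ob (h : C.Z2 H a) : B2.C2 1 H (C.ob a) := by
  refine ⟨?_, fun g hg l hl m hm => ?_⟩
  · refine B2.cla_congr (((h.sm.mul.comp₂ h.sm.left Prod.mk).comp₂
      (B2.cla_app (h.sm.comp C.ss)) Prod.mk).comp fun x =>
        tf_bit (C.lam (x.1.1 - x.1.2) x.1.2 * C.ss x.1.1 / (C.ss x.1.2 * x.2))) fun g hg k hk => ?_
    rw [ob, om]
    dsimp only
    rw [h.coc g hg k hk, add_sub_cancel_left]
  · rw [B2.cy_one_eq, one_mul]
    show C.ob a l m + C.ob a g (l * m) = C.ob a (g * l) m + C.ob a g l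
    refine sn_cast_inj ?_
    have e : (sn (C.ob a l m) : Qb) = g (sn (C.ob a l m) : Qb) := (map_intCast g _).symm
    have t := C.two_act g (h.two l hl)
    have h1 := lam_add (C.two_act g (C.two_act l (h.two m hm))) t (a g)
    rw [← map_add, add_comm (C.act l (a m)), ← h.coc l hl m hm, ← h.coc g hg l hl,
      lam_act g (C.act l (a m)), ← act_mul] at h1
    have n1 := ss_ne (h.two g hg)
    have n2 := (map_ne_zero g).2 (ss_ne (h.two l hl))
    have n3 := (map_ne_zero g).2 ((map_ne_zero l).2 (ss_ne (h.two m hm)))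
    have n4 := ss_ne (h.two _ (mul_mem hg hl))
    have n5 := (map_ne_zero g).2 (ss_ne (h.two _ (mul_mem hl hm)))
    rw [sn_add, sn_add, Int.cast_mul, Int.cast_mul, e, sn_ob h hl hm, sn_ob h hg (mul_mem hl hm),
      sn_ob h (mul_mem hg hl) hm, sn_ob h hg hl]
    simp only [om, map_div₀, map_mul, mul_assoc g l m, AlgEquiv.mul_apply]
    field_simp
    linear_combination -C.ss (a (g * (l * m))) * h1

theorem spl_ob (hH : IsClosed (H : Set GQ)) (h : C.Z2 H a) {P : C.A}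
    (hP : ∀ g ∈ H, a g = C.cob D P g) : B2.Spl 1 H (C.ob a) := by
  refine tf_spl hH (c2_ob h) (B := fun g => C.lam (a g) P / C.ss (a g))
    (h.sm.comp fun S => C.lam S P / C.ss S)
    (fun g hg => div_ne_zero (lam_ne (h.two g hg) P) (ss_ne (h.two g hg))) fun g hg k hk => ?_
  have n1 := ss_ne (h.two g hg)
  have n2 := (map_ne_zero g).2 (ss_ne (h.two k hk))
  have n3 := ss_ne (h.two _ (mul_mem hg hk))
  rw [sn_ob h hg hk, om, map_div₀, div_mul_div_comm (C.lam (a g) P), lam_coc h hP hg hk]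
  field_simp

theorem spl_pol (hH : IsClosed (H : Set GQ)) (h : C.Z2 H a) (h' : C.Z2 H a') :
    B2.Spl 1 H (C.ob (a + a') + (C.ob a + C.ob a' + C.cu a a')) := by
  have h2 := h.add h'
  refine tf_spl hH ((c2_ob h2).add (((c2_ob h).add (c2_ob h')).add (c2_cu h h')))
    (B := fun g => C.ss (a g) * C.ss (a' g) / (C.lam (a g) (a' g) * C.ss (a g + a' g)))
    (h.sm.comp₂ h'.sm fun S S' => C.ss S * C.ss S' / (C.lam S S' * C.ss (S + S')))
    (fun g hg => div_ne_zero (mul_ne_zero (ss_ne (h.two g hg)) (ss_ne (h'.two g hg)))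
      (mul_ne_zero (lam_ne (h.two g hg) _) (ss_ne (h2.two g hg)))) fun g hg k hk => ?_
  have gk := mul_mem hg hk
  have h4 := lam_four (t := a' g) (h.two g hg) (C.two_act g (h.two k hk))
    (C.two_act g (h'.two k hk))
  rw [← h.coc g hg k hk, ← h'.coc g hg k hk, lam_act, ← map_add] at h4
  have e1 := eq_inv_of_mul_eq_one_left (tf_sq (C.ob a g k))
  have e2 := eq_inv_of_mul_eq_one_left (tf_sq (C.ob a' g k))
  have e3 := eq_inv_of_mul_eq_one_left (tf_sq (C.cu a a' g k))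
  have n1 := ss_ne (h.two g hg)
  have n2 := (map_ne_zero g).2 (ss_ne (h.two k hk))
  have n3 := ss_ne (h.two _ gk)
  have n4 := ss_ne (h'.two g hg)
  have n5 := (map_ne_zero g).2 (ss_ne (h'.two k hk))
  have n6 := ss_ne (h'.two _ gk)
  have n7 := ss_ne (h2.two g hg)
  have n8 := (map_ne_zero g).2 (ss_ne (h2.two k hk))
  have n9 := ss_ne (h2.two _ gk)
  have m1 := lam_ne (C.two_act g (h.two k hk)) (a g)
  have m2 := lam_ne (C.two_act g (h'.two k hk)) (a' g)
  have m3 := lam_ne (h.two g hg) (a' g)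
  have m4 := (map_ne_zero g).2 (lam_ne (h.two k hk) (a' k))
  have m5 := lam_ne (h.two _ gk) (a' (g * k))
  have m6 := left_ne_zero_of_mul_eq_one (tf_sq (C.cu a a' g k))
  simp only [Pi.add_apply, sn_add, Int.cast_mul] at n7 n8 n9 ⊢
  rw [e1, e2, e3, sn_ob h hg hk, sn_ob h' hg hk, sn_ob h2 hg hk]
  rw [cu] at m6 ⊢
  simp only [om, Pi.add_apply, map_div₀, map_mul]
  field_simp
  linear_combination h4

theorem ss_ine (hp : C.Gp p) {g : GQ} (hg : g ∈ Iv p) (h : 2 • S = 0) : g (C.ss S) = C.ss S := by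
  have h1 : g (C.nn S) = C.nn S := by rw [← nn_act, hp.act_ine hg h]
  have h2 : nrm p (C.nn S) = 1 := by
    have n : ∀ j : Fin 3, j ≠ j + 1 ∧ j ≠ j + 2 := by decide
    rcases C.tors2 h with rfl | ⟨i, rfl⟩
    · rw [nn_zero, map_one]
    · rw [nn_T, Valuation.map_neg, map_mul, hp.nrm_sub (n i).1, hp.nrm_sub (n i).2, mul_one]
  rw [chB_spec (ss_sq S) h1, chB_unit hp.1 hp.ne_two hg h1 h2, sn_zero, Int.cast_one, one_mul]

theorem iv_ob_good (hp : C.Gp p) (h : C.Un a) : iv p (C.ob a) = 0 := by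
  rw [iv, if_neg hp.1.ne_zero]
  refine cft.unr isOpen_univ (c2_ob (h.1.mono le_top)) fun g _ l _ σ hσ τ hτ => ?_
  have u := h.1.ine_all hp (h.2 p hp) (pl_p hp.1)
  have e : ∀ x y, y ∈ Iv p → a (x * y) = a x := fun x y hy => by
    rw [h.1.coc x trivial y trivial, (u y hy).1, map_zero, add_zero]
  have e1 : ∀ S : C.A, 2 • S = 0 → C.act (g * σ) S = C.act g S := fun S hS => by
    rw [act_mul, (u σ hσ.2).2 S hS]
  have e2 : a (g * σ * (l * τ)) = a (g * l) := by
    rw [h.1.coc _ trivial _ trivial, h.1.coc g trivial l trivial, e g σ hσ.2, e l τ hτ.2,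
      e1 _ (h.1.two l trivial)]
  rw [ob, ob, om, om, e2, e g σ hσ.2, e l τ hτ.2, e1 _ (h.1.two l trivial), AlgEquiv.mul_apply,
    ss_ine hp hσ.2 (h.1.two l trivial)]

end Cu

theorem Cu.sum_ob {C : Cu} {a : GQ → C.A} (h : C.Un a) : ∑ v ∈ plc C.N0, iv v (C.ob a) = 0 :=
  iv_recip (Cu.c2_ob h.1) _ (mem_plc.2 (.inl rfl))
    (mem_plc.2 (.inr ⟨Nat.prime_two, C.two_le_N0⟩))
    (fun _ hv => (mem_plc.1 hv).imp_right And.left) fun _ hq k =>
      Cu.iv_ob_good ⟨hq, not_le.1 fun l => k (mem_plc.2 (.inr ⟨hq, l⟩))⟩ h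

theorem Cu.iv_ob_loc {C : Cu} {a : GQ → C.A} {v : ℕ} {D : ℤ} (hv : Pv v) (h : C.Z2 (Gv v) a)
    (hl : C.Loc v D a) : iv v (C.ob a) = 0 := by
  obtain ⟨P, hP⟩ := hl
  exact (iv_eq_zero hv (Cu.c2_ob h)).2 (Cu.spl_ob (closed_Gv hv) h hP)

theorem qst : QStmt := by
  refine fun C => ⟨fun v a => iv v (C.ob a), fun v a a' hv h => ?_, fun v a a' hv h h' => ?_,
    fun v a D hv h hl => Cu.iv_ob_loc hv h hl, fun a h => Cu.sum_ob h⟩
  · exact iv_congr hv fun g hg l hl => by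
      rw [Cu.ob, Cu.ob, Cu.om, Cu.om, h g hg, h l hl, h _ (mul_mem hg hl)]
  · have k1 := Cu.c2_ob (h.add h')
    have k2 := (Cu.c2_ob h).add (Cu.c2_ob h')
    have k3 := k2.add (Cu.c2_cu h h')
    have k4 := (iv_eq_zero hv (k1.add k3)).2 (Cu.spl_pol (closed_Gv hv) h h')
    rw [iv_add hv k1 k3, iv_add hv k2 (Cu.c2_cu h h'), iv_add hv (Cu.c2_ob h) (Cu.c2_ob h')] at k4
    exact CharTwo.add_eq_zero.1 k4

/-- A global class that comes from points at the bad primes has a forced shape at the real place. -/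
theorem Cu.ob_real {C : Cu} {a : GQ → C.A} (hp : cc ∈ C.Kpm) (h : C.Un a)
    (hl : ∀ v : ℕ, v.Prime → v ≤ C.N0 → C.Loc v 1 a) {i : Fin 3} (e : a cc = C.T i) :
    0 < (jC (C.lam (C.T i) (C.T i))).re := by
  have h1 := Cu.sum_ob h
  rw [sum_eq_single_of_mem 0 (mem_plc.2 (.inl rfl)) fun v hv h0 => by
    have k := (mem_plc.1 hv).resolve_left h0
    exact Cu.iv_ob_loc (.inr k.1) (h.1.mono le_top) (hl v k.1 k.2), iv, if_pos rfl,
    CharTwo.add_eq_zero] at h1
  have h2 := congrArg (fun x => (sn x : Qb)) h1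
  have h3 : C.ss 0 * C.ss 0 = 1 := (Cu.ss_sq 0).trans Cu.nn_zero
  have n := Cu.ss_ne (C.two_T i)
  have n' := (map_ne_zero cc).2 n
  have n0 := left_ne_zero_of_mul_eq_one h3
  simp only [Cu.sn_ob h.1 (Subgroup.mem_top _) (Subgroup.mem_top _), Cu.om, B2.cc_mul_cc, mul_one,
    h.1.one, e, map_zero, Cu.lam_zero, C.act_T, hp i, AlgEquiv.one_apply, h3, one_mul,
    div_one] at h2
  have h4 : C.lam (C.T i) (C.T i) = C.ss (C.T i) * cc (C.ss (C.T i)) := by
    field_simp at h2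
    exact h2
  rw [h4, map_mul, B2.jC_cc, Complex.mul_conj, Complex.ofReal_re]
  exact Complex.normSq_pos.2 ((map_ne_zero jC).2 n)

end Pool.Agent.SP
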