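import Pool.Agent.Lib.MP_696deb_nt.SP.I0
import Pool.Agent.Lib.MP_696deb_nt.SP.TF

/-! Positive discriminant: the real place. -/

set_option autoImplicit false

open scoped Classical
open Finset Function

namespace Pool.Agent.SP

open Pool.Agent.Lib.MP_696deb_nt Pool.Agent.Lib.MP_696deb_nt.Sm
open Pool.Agent.Lib.MP_696deb_nt.B2 (cc jC)

namespace Cu

variable {C : Cu} {a : GQ → C.A}

theorem isCC_Kpm (hp : 0 < C.disc) {g : GQ} (h : B2.IsCC g) : g ∈ C.Kpm := by
  obtain ⟨j, hj⟩ := h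
  rcases C.pm_cases g with k | k | k
  · exact k
  · have h1 := hj C.del
    rw [act_del, (C.chi_disc g).2 k, sn_one, Int.cast_neg, Int.cast_one, neg_one_mul, map_neg] at h1
    have h2 := congrArg j C.del_sq
    rw [map_mul, map_intCast] at h2
    have h3 := Complex.mul_conj (j C.del)
    rw [← h1, mul_neg, h2] at h3
    have h4 : -(C.disc : ℝ) = Complex.normSq (j C.del) := by exact_mod_cast h3
    have h5 : (0 : ℝ) < C.disc := Int.cast_pos.2 hp
    exact absurd (Complex.normSq_nonneg (j C.del)) (by linarith)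
  · have e : ∀ f : Fin 3 → Fin 3, (∀ i, f i ≠ i) → ¬ ∀ i, f (f i) = i := by decide
    refine absurd (fun i => C.e_inj (j.injective ?_)) (e _ k)
    rw [← e_pm, ← e_pm, hj, hj, Complex.conj_conj]

/-- The order of the three real roots. -/
theorem exists_order (hp : 0 < C.disc) : ∃ i j : Fin 3, i ≠ j ∧
    (∀ t, 0 < C.fd t → C.fs t < 0 → t = i) ∧ (∀ t, 0 < C.fd t → 0 < C.fs t → t = j) ∧
    ∀ t, 0 < C.fd t → t = i ∨ t = j := by
  obtain ⟨r, hr⟩ : ∃ r : Fin 3 → ℝ, ∀ i, jC (C.e i) = r i := by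
    refine ⟨fun i => (jC (C.e i)).re, fun i => (Complex.conj_eq_iff_re.1 ?_).symm⟩
    rw [← B2.jC_cc, e_pm, isCC_Kpm hp B2.isCC_cc i]
  have h1 : ∀ t, C.fd t = (r t - r (t + 1)) * (r t - r (t + 2)) := fun t => by
    rw [fd, lam_TT, if_pos rfl, der (C.split t), map_mul, map_sub, map_sub, hr, hr, hr]
    exact_mod_cast Complex.ofReal_re _
  have h2 : ∀ t, C.fs t = r t - r (t + 1) + (r t - r (t + 2)) := fun t => by
    have a : (C.a : Qb) = _ := (C.split t).a2
    rw [fs, show 3 * C.e t + C.a = C.e t - C.e (t + 1) + (C.e t - C.e (t + 2)) by rw [a]; ring,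
      map_add, map_sub, map_sub, hr, hr, hr]
    exact_mod_cast Complex.ofReal_re _
  have h3 : ∀ t i : Fin 3, t = i ∨ i = t + 1 ∨ i = t + 2 := by decide
  obtain ⟨i, hi⟩ := Finite.exists_min r
  obtain ⟨j, hj⟩ := Finite.exists_max r
  have h4 : ∀ t, r t - r (t + 1) < 0 ∧ r t - r (t + 2) < 0 → t = i := fun t h => by
    have := hi t
    rcases h3 t i with e | rfl | rfl
    exacts [e, by linarith [h.1], by linarith [h.2]]
  have h5 : ∀ t, 0 < r t - r (t + 1) ∧ 0 < r t - r (t + 2) → t = j := fun t h => by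
    have := hj t
    rcases h3 t j with e | rfl | rfl
    exacts [e, by linarith [h.1], by linarith [h.2]]
  simp only [h1, h2, mul_pos_iff]
  refine ⟨i, j, ?_, fun t h k => h.elim (fun a => by linarith [a.1, a.2]) (h4 t),
    fun t h k => h.elim (h5 t) fun a => by linarith [a.1, a.2],
    fun t h => h.symm.imp (h4 t) (h5 t)⟩
  rintro rfl
  refine C.e_inj.ne (show (0 : Fin 3) ≠ 1 by decide) (jC.injective ?_)
  rw [hr, hr, le_antisymm ((hj 0).trans (hi 1)) ((hj 1).trans (hi 0))]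

/-- A class with the local conditions at all primes does not give the middle root. -/
theorem ob_inf (hp : 0 < C.disc) (h : C.Un a) (hl : ∀ v : ℕ, v.Prime → v ≤ C.N0 → C.Loc v 1 a)
    {i : Fin 3} (e : a cc = C.T i) : 0 < C.fd i := by
  exact ob_real (isCC_Kpm hp B2.isCC_cc) h hl e

/-- Reciprocity at the real place. -/
theorem ep_cc (hp : 0 < C.disc) {g0 : GQ} {b : GQ → C.A} (ha : a ∈ C.RR g0) (hb : b ∈ C.RD g0) :
    C.ep (a cc) (b cc) = 0 := by
  have a1 := (mem_U_one.1 ha.1).1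
  have b1 := (mem_U_one.1 hb.1).1
  have h := bv_recip a1.1 b1.1 ∅ (by simp) fun q hq _ => ⟨a1.2 q hq, b1.2 q hq⟩
  rw [sum_empty, sum_eq_single_of_mem 0 (mem_plc.2 (.inl rfl)) fun v hv h0 => by
    have k := (mem_plc.1 hv).resolve_left h0
    exact (bv_prime k.1 a b).trans (hb.2 v k.1 k.2 a (a1.1.mono le_top) (ha.2 v k.1 k.2)), bv,
    tb_zero, cu, cu, a1.1.one, ep_zero_left, add_zero,
    act_of_pm (isCC_Kpm hp B2.isCC_cc) (b1.1.two cc trivial)] at h
  exact h.symm

end Cu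

end Pool.Agent.SP
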