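import Pool.Agent.Lib.MP_696deb_nt.B2.CH2
import Pool.Agent.Lib.MP_696deb_nt.B6.GWj
import Pool.Agent.Lib.MP_696deb_nt.SP.I0

/-! A large set of primes. -/

set_option autoImplicit false

open scoped Classical
open Finset Function

namespace Pool.Agent.SP

open Pool.Agent.Lib.MP_696deb_nt Pool.Agent.Lib.MP_696deb_nt.Sm
open Pool.Agent.Lib.MP_696deb_nt.B2 (cc jC)

open Pool.Agent.Lib.MP_696deb_nt.B2 (Plc Op Zu Rs Zc Z1 Z2 tr Apart Away GoodA LocC Perp rs IsCC)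
open Pool.Agent.Lib.MP_696deb_nt.B6 (W2 N2 sg dW P0)

theorem exists_big {H : Subgroup GQ} (hH : Op H) (N : ℕ) : ∃ N', N ≤ N' ∧ BigH H N' := by
  have hf : Finite (Zu H tr ∅) := Pool.Agent.B6.S.sf_fin hH ∅
  have key : ∀ χ : Zu H tr ∅, ∃ p : ℕ, χ.1 ≠ 0 → ∃ w : Plc, w.p = p ∧
      ∃ φ ∈ H ⊓ B2.Dec w, χ.1 φ ≠ 0 := by
    intro χ
    by_cases h0 : χ.1 = 0
    · exact ⟨0, fun k => absurd h0 k⟩
    · obtain ⟨g, hg⟩ := Function.ne_iff.1 h0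
      have hH' : g ∈ H := by
        by_contra k
        exact hg (χ.2.1.2 g k)
      obtain ⟨w, -, h2⟩ := B2.exists_plc_ne B2.cheb hH χ.2.1.1 hH' hg ∅
      exact ⟨w.p, fun _ => ⟨w, rfl, h2⟩⟩
  choose p hp using key
  have := Fintype.ofFinite (Zu H tr ∅)
  refine ⟨max N (univ.sup p), le_max_left _ _, fun χ h1 h2 h3 h4 g hg => ?_⟩
  let ψ : GQ → Z2 := rs H (M := Z2) χ
  have e : ∀ k ∈ H, ψ k = χ k := fun k hk => B2.rs_of_mem (M := Z2) hk χ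
  have hψ : ψ ∈ Zu H tr ∅ := by
    refine B2.mem_Zu.2 ⟨⟨⟨?_, fun a ha b hb => ?_⟩, fun k hk => B2.rs_of_notMem (M := Z2) hk χ⟩,
      fun w _ σ hσ => ?_⟩
    · obtain ⟨U, u1, u2, u3⟩ := h1
      exact ⟨U, u1, u2, fun a ha b hb k => by rw [e a ha, e b hb]; exact u3 a ha b hb k⟩
    · rw [B2.tr_apply, e _ (mul_mem ha hb), e a ha, e b hb]
      exact h2 a ha b hb
    · rw [e σ hσ.1]
      rcases lt_or_ge (max N (univ.sup p)) w.p with k | k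
      · exact h3 w k σ hσ
      · exact h4 w k σ ⟨hσ.1, B2.Ine_le w hσ.2⟩
  by_contra h0
  have hne : ψ ≠ 0 := fun k => h0 ((e g hg).symm.trans (congrFun k g))
  obtain ⟨w, hw, φ, k1, k2⟩ := hp ⟨ψ, hψ⟩ hne
  refine k2 ((e φ k1.1).trans (h4 w ?_ φ k1))
  rw [hw]
  exact le_max_of_le_right (le_sup (f := p) (mem_univ _))

end Pool.Agent.SP
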