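import Pool.Agent.Lib.MP_696deb_nt.SP.IE2
import Pool.Agent.Lib.MP_696deb_nt.SP.IE1
import Pool.Agent.Lib.MP_696deb_nt.B6.GWj
import Pool.Agent.Lib.MP_696deb_nt.SP.I0

/-! Global duality over the rational numbers with a real place. -/

set_option autoImplicit false

open scoped Classical
open Finset Function

namespace Pool.Agent.SP

open Pool.Agent.Lib.MP_696deb_nt Pool.Agent.Lib.MP_696deb_nt.Sm
open Pool.Agent.Lib.MP_696deb_nt.B2 (cc jC)

open Pool.Agent.Lib.MP_696deb_nt.B2 (Plc Op Zu Rs Zc Z1 Z2 tr Apart Away GoodA LocC Perp rs IsCC)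
open Pool.Agent.Lib.MP_696deb_nt.B6 (W2 N2 sg dW P0)

/-- The chosen places above the primes up to `N`. -/
noncomputable def plS (N : ℕ) : Finset Plc := ((range (N + 1)).filter Nat.Prime).image pl

theorem IE_mem {N : ℕ} {v : Plc} : v ∈ plS N ↔ ∃ p, p ≤ N ∧ p.Prime ∧ pl p = v := by
  simp only [plS, mem_image, mem_filter, mem_range, Nat.lt_succ_iff, and_assoc]

theorem apart_plS (N : ℕ) : Apart ⊤ (plS N) := by
  intro v hv w hw g _ e
  obtain ⟨p, -, hp, rfl⟩ := IE_mem.1 hv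
  obtain ⟨q, -, hq, rfl⟩ := IE_mem.1 hw
  have := congrArg Plc.p e
  rw [B2.smul_p, pl_p hp, pl_p hq] at this
  rw [this]

theorem away_plS {N : ℕ} {w : Plc} : Away ⊤ (plS N) w ↔ N < w.p := by
  refine ⟨fun h => lt_of_not_ge fun k => ?_, fun h v hv g _ e => ?_⟩
  · obtain ⟨g, hg⟩ := B2.plc_conj (pl_p w.prime)
    exact h _ (IE_mem.2 ⟨_, k, w.prime, rfl⟩) g trivial hg
  · obtain ⟨p, k, hp, rfl⟩ := IE_mem.1 hv
    rw [← e, B2.smul_p, pl_p hp] at h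
    omega

/-- The data of a totally real representation with an element of order three. -/
structure Rl (r : GQ →* N2) (N : ℕ) : Prop where
  sm : B2.Sm ⊤ r
  o3 : ∃ γ, (r γ).trace = 1
  re : ∀ g, IsCC g → r g = 1
  two : 2 ≤ N
  unr : ∀ w : Plc, N < w.p → ∀ σ ∈ B2.Ine w, r σ = 1
  big : BigH (P0 r) N

theorem Rl.good {r : GQ →* N2} {N : ℕ} (h : Rl r N) : GoodA ⊤ (sg r) (plS N) := fun w hw =>
  ⟨(h.two.trans_lt (away_plS.1 hw)).ne', fun σ hσ x => by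
    rw [B6.sg_apply, h.unr w (away_plS.1 hw) σ hσ.2, Matrix.one_mulVec]⟩

theorem Rl.ineq {r : GQ →* N2} {N : ℕ} (h : Rl r N) :
    Nat.card (Rs ⊤ (sg r) (plS N)) * 4 ≤ Nat.card (Zu ⊤ (sg r) (plS N)) := by
  obtain ⟨γ, hγ⟩ := h.o3
  obtain ⟨t, T⟩ := B6.exists_Tv_glob (H := ⊤) h.sm (Subgroup.mem_top γ) hγ
  have hH : Op (⊤ : Subgroup GQ) := isOpen_univ
  obtain ⟨s, hs, k⟩ := T.exists_cover (plS N)
  have e0 : ∀ (H : Subgroup GQ) (w : Plc), Nat.card (B2.H0 (H ⊓ B2.Dec w) tr) = 2 := fun H w => by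
    rw [show B2.H0 (H ⊓ B2.Dec w) tr = ⊤ from eq_top_iff.2 fun _ _ _ _ => rfl,
      AddSubgroup.card_top, Nat.card_zmod, pow_one]
  have e1 := su_real (T.GWe_op hH) (fun g c => ⟨trivial, B6.mem_P0.2 (by
    rw [B6.sg_apply, h.re g c, Matrix.one_mulVec])⟩) hs
    fun w hw => (h.good w ((k w).1 hw)).1
  have e2 := T.card_Zu_W hH h.good k
  have e3 := T.card_Rs_W hH (apart_plS N) k
  have e4 := card_Zu_top (s := plS N) fun w hw => (h.good w hw).1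
  have e5 : (Zc (⊤ ⊓ P0 r) tr s fun w => B2.B1 (⊤ ⊓ P0 r ⊓ B2.Dec w) tr) = ⊥ := by
    refine eq_bot_iff.2 fun c hc => funext fun g => ?_
    obtain ⟨h1, h2⟩ := B2.mem_Zc.1 hc
    refine (em (g ∈ ⊤ ⊓ P0 r)).elim (fun hg => ?_) (h1.1.2 g)
    have b := h.big
    rw [← top_inf_eq (P0 r)] at b
    refine b c h1.1.1.1 h1.1.1.2 (fun w hw => h1.2 w ((k w).2 (away_plS.2 hw)))
      (fun w hw d hd => ?_) g hg
    have := mt (k w).1 (mt away_plS.1 hw.not_gt)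
    simp only [Away, not_forall, not_not] at this
    obtain ⟨v, hv, u, hu, rfl⟩ := this
    obtain ⟨x, hx⟩ := B2.rs_mem_B1.1 (h2 v hv)
    exact (B6.GWe_conj (B6.act0_of (B2.act_tr _)) h1.1.1 hx hu hd).trans (sub_self _)
  have e6 := Subgroup.relIndex_mul_index T.le
  have hf : Finite (Zc ⊤ tr (plS N) fun w => B2.B1 (⊤ ⊓ B2.Dec w) tr) :=
    have := B6.finH hH (plS N)
    Finite.Set.subset (Zu ⊤ tr (plS N)) fun _ h => (B2.mem_Zc.1 h).1
  have e7 : 0 < Nat.card (Zc ⊤ tr (plS N) fun w => B2.B1 (⊤ ⊓ B2.Dec w) tr) := Nat.card_pos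
  rw [T.relIndex, Subgroup.index_top] at e6
  rw [← e6] at e1
  rw [B2.card_Rs ⊤ tr, B2.card_Rs _ tr, e5, AddSubgroup.card_bot] at e3
  simp only [e0, prod_const] at e3
  refine Nat.le_of_mul_le_mul_right ?_ (pow_pos two_pos (1 + (plS N).card))
  calc _ = Nat.card (Rs ⊤ (sg r) (plS N)) * (1 * 2 ^ (plS N).card) * 8 := by ring
    _ ≤ 4 * (1 * 2 ^ s.card) * 8 := Nat.mul_le_mul_right _
      ((Nat.mul_le_mul_left _ (Nat.mul_le_mul_right _ e7)).trans e3)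
    _ = 4 * 2 ^ (3 * 1 + s.card) := by ring
    _ ≤ _ := ((Nat.mul_le_mul_left _ e1).trans e2).trans (Nat.mul_le_mul_left _ e4)

end Pool.Agent.SP
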