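import Pool.Agent.Lib.MP_696deb_nt.SP.IE1
import Pool.Agent.Lib.MP_696deb_nt.B6.GWj
import Pool.Agent.Lib.MP_696deb_nt.SP.I0
import Pool.Agent.Lib.MP_696deb_nt.B2.CFc

/-! Units of totally real fields. -/

set_option autoImplicit false

open scoped Classical
open Finset Function

namespace Pool.Agent.SP

open Pool.Agent.Lib.MP_696deb_nt Pool.Agent.Lib.MP_696deb_nt.Sm
open Pool.Agent.Lib.MP_696deb_nt.B2 (cc jC)

open Pool.Agent.Lib.MP_696deb_nt.B2 (Plc Op Zu Rs Zc Z1 Z2 tr Apart Away GoodA LocC Perp rs IsCC)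
open Pool.Agent.Lib.MP_696deb_nt.B6 (W2 N2 sg dW P0)

open B2 in
theorem ie2_real {H : Subgroup GQ} (hH : Op H) (hR : ∀ g, IsCC g → g ∈ H) :
    NumberField.IsTotallyReal (Kf H) := by
  have := nf_Kf hH
  refine ⟨fun u => ?_⟩
  obtain ⟨φ, rfl⟩ : ∃ φ, NumberField.InfinitePlace.mk φ = u := ⟨_, u.mk_embedding⟩
  refine ⟨φ, NumberField.ComplexEmbedding.isReal_iff.2 (RingHom.ext fun x => ?_), rfl⟩
  let j := NumberField.ComplexEmbedding.lift Qbar φ
  obtain ⟨σ, hσ⟩ := NumberField.ComplexEmbedding.exists_comp_symm_eq_of_comp_eq (k := ℚ) j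
    (NumberField.ComplexEmbedding.conjugate j) (Subsingleton.elim _ _)
  have h1 : ∀ x, j (σ.symm x) = starRingEnd ℂ (j x) := RingHom.congr_fun hσ
  have h2 : j x = φ x := NumberField.ComplexEmbedding.lift_algebraMap_apply Qbar φ x
  have h3 := h1 x
  rw [fx_Kf x _ (hR σ.symm ⟨j, h1⟩), h2] at h3
  exact h3.symm

open B2 in
open Pool.Agent.Lib.MP_580eba_nt (index_ES mem_ES mem_map_pw) in
theorem ie2_su {H : Subgroup GQ} (hH : Op H) (hR : ∀ g, IsCC g → g ∈ H) {s : Finset Plc}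
    (hs : Apart H s) : ∃ a : Fin (H.index + s.card) → Qbar,
    (∀ i, a i ≠ 0 ∧ Fx H (a i) ∧ ∀ w, Away H s w → w.V (a i) = 1) ∧
    ∀ t : Finset (Fin (H.index + s.card)), (∃ b, Fx H b ∧ ∏ i ∈ t, a i = b ^ 2) → t = ∅ := by
  have := nf_Kf hH
  have := ie2_real hH hR
  choose u hu using fun w : Plc => exists_un (H := H) w
  have h1 : (s.image u).card = s.card := card_image_of_injOn fun v hv w hw h => by
    obtain ⟨g, hg, e⟩ := Un.conj hH (hu v) (h ▸ hu w)
    exact hs v hv w hw g hg e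
  have h2 : Fintype.card (NumberField.InfinitePlace (Kf H)) = H.index := by
    rw [NumberField.InfinitePlace.card_eq_nrRealPlaces_add_nrComplexPlaces,
      NumberField.IsTotallyReal.nrComplexPlaces_eq_zero, ← finrank_Kf hH,
      NumberField.IsTotallyReal.finrank, add_zero]
  have h3 := index_ES (s.image u)
  rw [h1, h2, add_comm] at h3
  obtain ⟨a, ha, hi⟩ := exists_indep _ h3
  refine ⟨fun i => ((a i : Kf H) : Qbar), fun i => ⟨?_, fx_Kf _, fun w hw => ?_⟩, fun t ht => ?_⟩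
  · exact fun h => (a i).ne_zero (Subtype.ext h)
  · refine ((hu w).eq_one _).1 (mem_ES.1 (ha i) _ fun h => ?_)
    obtain ⟨v, hv, e⟩ := mem_image.1 h
    obtain ⟨g, hg, e'⟩ := Un.conj hH (hu v) (e ▸ hu w)
    exact hw v hv g hg e'
  · obtain ⟨b, hb, e⟩ := ht
    refine hi t (mem_map_pw (Subgroup.prod_mem _ fun i _ => ha i) ⟨⟨b, b3a_fx.1 hb⟩, ?_⟩)
    refine Subtype.ext ?_
    rw [Units.coe_prod, SubmonoidClass.coe_finsetProd]
    exact e.trans (pow_two b)

/-- Units of a totally real field. -/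
theorem su_real {H : Subgroup GQ} (hH : Op H) (hR : ∀ g, IsCC g → g ∈ H) {s : Finset Plc}
    (hs : Apart H s) (h2 : ∀ w, Away H s w → w.p ≠ 2) :
    2 ^ (H.index + s.card) ≤ Nat.card (Zu H tr s) := by
  obtain ⟨a, ha, hi⟩ := ie2_su hH hR hs
  choose κ hκ using fun i => B2.exists_kum 1 (ha i).1 (ha i).2.1
  have := B6.finH hH s
  let f : (Fin (H.index + s.card) → Z2) →+ (GQ → Z2) := (rs H).comp
    { toFun := fun x g => ∑ i, x i * κ i g
      map_zero' := funext fun g => by simp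
      map_add' := fun x y => funext fun g => by simp [add_mul, sum_add_distrib] }
  have hf' : ∀ x, f x = rs H (∑ i ∈ univ.filter fun i => x i = 1, κ i) := fun x =>
    congrArg (rs H) (B2.GWi_sum κ x)
  have mem : ∀ x, f x ∈ Zu H tr s := fun x => by
    rw [hf']
    refine B2.mem_Zu.2 ⟨B2.rs_mem_Z1 (B2.GWi_kum_prod hκ _).coc_tr, fun w hw σ hσ => ?_⟩
    rw [B2.rs_of_mem hσ.1]
    refine (B2.GWi_kum_prod hκ _).unr (h2 w hw) ?_ σ hσ
    rw [map_prod]
    exact prod_eq_one fun i _ => (ha i).2.2 w hw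
  have inj : Function.Injective f := by
    refine (injective_iff_map_eq_zero f).2 fun x hx => ?_
    obtain ⟨r, r1, r2⟩ := (B2.GWi_kum_prod hκ (univ.filter fun i => x i = 1)).pow_iff.2
      ⟨0, fun g hg => by
        rw [mul_zero, ← B2.rs_of_mem hg (∑ i ∈ univ.filter fun i => x i = 1, κ i), ← hf', hx]
        rfl⟩
    have e := hi _ ⟨r, r1, by simpa using r2.symm⟩
    funext i
    refine (B2.Z2.cases (x i)).resolve_right fun k => ?_
    exact eq_empty_iff_forall_notMem.1 e i (mem_filter.2 ⟨mem_univ _, k⟩)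
  have le := Nat.card_le_card_of_injective (fun x => (⟨f x, mem x⟩ : Zu H tr s))
    fun x y e => inj (congrArg Subtype.val e)
  simpa [Nat.card_eq_fintype_card] using le

theorem card_Zu_top {s : Finset Plc} (h2 : ∀ w, Away ⊤ s w → w.p ≠ 2) :
    Nat.card (Zu ⊤ tr s) ≤ 2 ^ (1 + s.card) := by
  have h : (Zu ⊤ tr s : Set (GQ → Z2)) ⊆ ↑((({1, -1} : Finset ℤ) ×ˢ (s.image Plc.p).powerset).image
      fun x => (B2.xi (x.1 * (∏ p ∈ x.2, p : ℕ)) : GQ → Z2)) := by
    intro χ hχ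
    obtain ⟨a, ha, e⟩ := B2.hom_top (B2.mem_Zu.1 hχ).1.1
    refine mem_coe.2 (mem_image.2 ⟨(a.sign, a.natAbs.primeFactors),
      mem_product.2 ⟨?_, mem_powerset.2 fun p hp => ?_⟩, ?_⟩)
    · rcases lt_or_gt_of_ne ha.ne_zero with k | k
      · simp [Int.sign_eq_neg_one_of_neg k]
      · simp [Int.sign_eq_one_of_pos k]
    · obtain ⟨w, rfl⟩ := B2.exists_plc (Nat.prime_of_mem_primeFactors hp)
      by_contra k
      refine B2.not_dvd_of_unr ha (h2 w (B2.GWi_away k)) (fun σ hσ => ?_)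
        (Int.natCast_dvd.2 (Nat.dvd_of_mem_primeFactors hp))
      exact (e σ).symm.trans ((B2.mem_Zu.1 hχ).2 w (B2.GWi_away k) σ ⟨trivial, hσ⟩)
    · simp only
      rw [Nat.prod_primeFactors_of_squarefree (Int.squarefree_natAbs.2 ha), Int.sign_mul_natAbs]
      exact (funext e).symm
  have h1 := Set.ncard_le_ncard h (Finset.finite_toSet _)
  rw [Set.ncard_coe_finset] at h1
  refine le_trans h1 (card_image_le.trans ?_)
  rw [card_product, card_powerset, pow_add]
  exact Nat.mul_le_mul card_le_two (Nat.pow_le_pow_right two_pos card_image_le)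

end Pool.Agent.SP
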