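import Pool.Agent.Lib.MP_696deb_nt.B2.GWb

/-! The counting argument of global duality with one additional space. -/

set_option autoImplicit false

open scoped Classical
open Finset Function

namespace Pool.Agent.SP

open Pool.Agent.Lib.MP_696deb_nt.B2

variable {n : ℕ} [NeZero n]

theorem if_one {V Z E : Type} [AddCommGroup V] [AddCommGroup Z] [AddCommGroup E] [Finite V]
    [Finite Z] [Finite E] (P : V →+ V →+ ZMod n) (q : E →+ E →+ ZMod n)
    (hq : ∀ x, (∀ y, q x y = 0) → x = 0) (l : Z →+ V) (e : Z →+ E)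
    (h : ∀ z z', P (l z) (l z') + q (e z) (e z') = 0)
    (hb : Nat.card (P.ker.comap l) * Nat.card (P.flip.ker.comap l) * (Nat.card V * Nat.card E) ≤
      Nat.card Z * Nat.card Z * Nat.card P.flip.ker)
    {U : AddSubgroup V} (hU : P.ker ≤ U) (h0 : ∀ z, l z ∈ U → e z = 0) (t : E) :
    ∃ z, e z = t ∧ l z ∈ ann P U := by
  obtain ⟨Q, hQ⟩ : ∃ Q : V × E →+ V × E →+ ZMod n, ∀ x y, Q x y = P x.1 y.1 + q x.2 y.2 :=
    ⟨(P.comp (AddMonoidHom.fst V E)).compl₂ (AddMonoidHom.fst V E) +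
      (q.comp (AddMonoidHom.snd V E)).compl₂ (AddMonoidHom.snd V E), fun _ _ => rfl⟩
  have a1 : ∀ x ∈ Q.ker, x.1 ∈ P.ker ∧ x.2 = 0 := fun x hx =>
    ⟨AddMonoidHom.ext fun y => by
      have := hQ x (y, 0)
      rw [show Q x = 0 from hx, map_zero, add_zero] at this
      exact this.symm, hq _ fun y => by
      have := hQ x (0, y)
      rw [show Q x = 0 from hx, map_zero, zero_add] at this
      exact this.symm⟩
  have a2 : ∀ y ∈ Q.flip.ker, y.1 ∈ P.flip.ker := fun y hy => AddMonoidHom.ext fun x => by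
    have := hQ (x, 0) y
    rw [show Q (x, 0) y = 0 from DFunLike.congr_fun hy _, map_zero, AddMonoidHom.zero_apply,
      add_zero] at this
    exact this.symm
  have a3 : Nat.card P.flip.ker ≤ Nat.card Q.flip.ker :=
    Nat.card_le_card_of_injective (fun y => ⟨(y.1, 0), AddMonoidHom.ext fun x => by
      show Q x (y.1, 0) = 0
      rw [hQ, map_zero, add_zero]
      exact DFunLike.congr_fun y.2 _⟩) fun y y' k =>
        Subtype.ext (congrArg (fun u => u.1.1) k)
  have key := (pt_one Q (l.prod e) (l.prod e) (fun z z' => (hQ _ _).trans (h z z')) (by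
    rw [Nat.card_prod]
    refine le_trans (Nat.mul_le_mul_right _ (Nat.mul_le_mul (AddSubgroup.card_le_of_le ?_)
      (AddSubgroup.card_le_of_le ?_))) (hb.trans (Nat.mul_le_mul_left _ a3))
    exacts [fun z hz => (a1 _ hz).1, fun z hz => a2 _ hz])).2
  have k1 := key (U.prod ⊤) fun x hx => ⟨hU (a1 x hx).1, trivial⟩
  have k2 := key (U.prod ⊥) fun x hx => ⟨hU (a1 x hx).1, (a1 x hx).2⟩
  have e1 : (U.prod ⊤).comap (l.prod e) = (U.prod ⊥).comap (l.prod e) :=
    AddSubgroup.ext fun z => ⟨fun k => ⟨k.1, h0 z k.1⟩, fun k => ⟨k.1, trivial⟩⟩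
  have e2 : ∀ W : AddSubgroup E, Nat.card (U.prod W) = Nat.card U * Nat.card W := fun W => by
    rw [← Nat.card_prod]
    exact Nat.card_congr (AddSubgroup.prodEquiv U W).toEquiv
  rw [e1, k2, e2, e2, AddSubgroup.card_bot, AddSubgroup.card_top, mul_one] at k1
  obtain ⟨Y, hY⟩ : ∃ Y, Y = (ann Q (U.prod ⊥)).comap (l.prod e) := ⟨_, rfl⟩
  obtain ⟨X, hX⟩ : ∃ X, X = (ann Q (U.prod ⊤)).comap (l.prod e) := ⟨_, rfl⟩
  rw [← hY, ← hX] at k1
  have k3 : Nat.card Y = Nat.card X * Nat.card E := by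
    refine Nat.eq_of_mul_eq_mul_left (show 0 < Nat.card Z * Nat.card U * Nat.card Q.flip.ker from
      mul_pos (mul_pos Nat.card_pos Nat.card_pos) Nat.card_pos) ?_
    calc _ = Nat.card Z * Nat.card U * Nat.card Y * Nat.card Q.flip.ker := by ring
      _ = _ := by rw [k1]; ring
  have m : ∀ z ∈ Y, l z ∈ ann P U := fun z hz x hx => by
    rw [hY] at hz
    have := hz (x, 0) ⟨hx, rfl⟩
    rwa [hQ, map_zero, AddMonoidHom.zero_apply, add_zero] at this
  have k4 : Y ⊓ e.ker ≤ X := fun z hz => by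
    rw [hX]
    intro x hx
    rw [hQ]
    show P x.1 (l z) + q x.2 (e z) = 0
    rw [m z hz.1 _ hx.1, show e z = 0 from hz.2, map_zero, add_zero]
  have k5 : Nat.card E ≤ Nat.card (Y.map e) := by
    refine Nat.le_of_mul_le_mul_left ?_ (Nat.card_pos (α := X))
    rw [← k3, card_map_inf e Y]
    exact Nat.mul_le_mul_right _ (AddSubgroup.card_le_of_le k4)
  obtain ⟨z, hz, rfl⟩ : t ∈ Y.map e := by
    rw [AddSubgroup.eq_top_of_le_card _ k5]
    trivial
  exact ⟨z, rfl, m z hz⟩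

theorem if_pi {ι : Type} [Fintype ι] {V : ι → Type} [∀ i, AddCommGroup (V i)]
    [∀ i, Finite (V i)] {Z E : Type} [AddCommGroup Z] [AddCommGroup E] [Finite Z] [Finite E]
    (p : ∀ i, V i →+ V i →+ ZMod n) (q : E →+ E →+ ZMod n) (hq : ∀ x, (∀ y, q x y = 0) → x = 0)
    (l : ∀ i, Z →+ V i) (e : Z →+ E)
    (h : ∀ z z', ∑ i, p i (l i z) (l i z') + q (e z) (e z') = 0)
    (hb : Nat.card {z // ∀ i, l i z ∈ (p i).ker} * Nat.card {z // ∀ i, l i z ∈ (p i).flip.ker} *
      ((∏ i, Nat.card (V i)) * Nat.card E) ≤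
        Nat.card Z * Nat.card Z * ∏ i, Nat.card (p i).flip.ker)
    {U : ∀ i, AddSubgroup (V i)} (hU : ∀ i, (p i).ker ≤ U i)
    (h0 : ∀ z, (∀ i, l i z ∈ U i) → e z = 0) (t : E) :
    ∃ z, e z = t ∧ ∀ i, l i z ∈ ann (p i) (U i) := by
  obtain ⟨P, hP⟩ : ∃ P : (∀ i, V i) →+ (∀ i, V i) →+ ZMod n, ∀ x y, P x y = ∑ i, p i (x i) (y i) :=
    ⟨∑ i, ((p i).comp (Pi.evalAddMonoidHom V i)).compl₂ (Pi.evalAddMonoidHom V i), fun x y => by
      simp [AddMonoidHom.finsetSum_apply]⟩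
  have e1 : ∀ i x y, P (Pi.single i x) y = p i x (y i) := fun i x y => by
    rw [hP, Finset.sum_eq_single i (fun j _ hj => by simp [Pi.single_eq_of_ne hj]) (by simp),
      Pi.single_eq_same]
  have e2 : ∀ i x y, P x (Pi.single i y) = p i (x i) y := fun i x y => by
    rw [hP, Finset.sum_eq_single i (fun j _ hj => by simp [Pi.single_eq_of_ne hj]) (by simp),
      Pi.single_eq_same]
  have k1 : P.ker = AddSubgroup.pi Set.univ fun i => (p i).ker := AddSubgroup.ext fun x =>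
    ⟨fun hx i _ => AddMonoidHom.ext fun y => (e2 i x y).symm.trans (DFunLike.congr_fun hx _),
      fun hx => AddMonoidHom.ext fun y => (hP x y).trans (Finset.sum_eq_zero fun i _ =>
        DFunLike.congr_fun (hx i trivial) _)⟩
  have k2 : P.flip.ker = AddSubgroup.pi Set.univ fun i => (p i).flip.ker := AddSubgroup.ext fun y =>
    ⟨fun hy i _ => AddMonoidHom.ext fun x => (e1 i x y).symm.trans (DFunLike.congr_fun hy _),
      fun hy => AddMonoidHom.ext fun x => (hP x y).trans (Finset.sum_eq_zero fun i _ =>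
        DFunLike.congr_fun (hy i trivial) _)⟩
  obtain ⟨z, z1, z2⟩ := if_one P q hq (AddMonoidHom.pi l) e (fun z z' => by rw [hP]; exact h z z')
    (by rwa [k1, k2, GWb_card_comap, GWb_card_comap, GWb_card_pi, Nat.card_pi])
    (U := AddSubgroup.pi Set.univ U) (k1 ▸ fun x hx i hi => hU i (hx i hi))
    (fun z hz => h0 z fun i => hz i trivial) t
  exact ⟨z, z1, fun i x hx => (e1 i x _).symm.trans
    (z2 _ ((AddSubgroup.single_mem_pi i x).2 fun _ => hx))⟩

end Pool.Agent.SP
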