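import Pool.Agent.Lib.MP_696deb_nt.SP.TB

/-! Reciprocity over the rational numbers and the symbol of Hilbert. -/

set_option autoImplicit false

open scoped Classical
open Finset

namespace Pool.Agent.SP

open Pool.Agent.Lib.MP_696deb_nt Pool.Agent.Lib.MP_696deb_nt.Sm
open Pool.Agent.Lib.MP_696deb_nt.B2 (jC cc)

variable {v : ℕ} {c c' : GQ → GQ → F2} {t t' y y' : GQ → F2}

theorem iv_prime (h : v.Prime) (c : GQ → GQ → F2) : iv v c = cft.inv 1 ⊤ (pl v) c :=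
  if_neg h.ne_zero

/-- A global class that splits at a place splits at the conjugate places. -/
theorem tbb_conj (hc : B2.C2 1 ⊤ c) {w : B2.Plc} (h : B2.Spl 1 (B2.Dec w) c) (k : GQ) :
    B2.Spl 1 (B2.Dec (k • w)) c := by
  obtain ⟨b, b1, b2⟩ := h
  obtain ⟨U, u1, u2, u3⟩ := hc.1
  have s1 : B2.Sm ⊤ fun g => c g k := ⟨U, u1, u2, fun g _ l _ e =>
    u3 g trivial l trivial k trivial k trivial e (by simp)⟩
  have s2 : B2.Sm ⊤ (c k) := ⟨U, u1, u2, fun g _ l _ e =>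
    u3 k trivial k trivial g trivial l trivial (by simp) e⟩
  refine Cu.sa3_spl (f := fun g => b (k⁻¹ * g * k) + (c g k + c k (k⁻¹ * g * k)))
    ((b1.conj _ _ fun g => B2.mem_Dec_smul.1).comp₂ ((s1.mono le_top).comp₂
      (s2.conj _ _ fun _ _ => trivial) (· + ·)) (· + ·)) fun g hg l hl => ?_
  have e0 := b2 _ (B2.mem_Dec_smul.1 hg) _ (B2.mem_Dec_smul.1 hl)
  have e1 := hc.2 g trivial l trivial k trivial
  have e2 := hc.2 g trivial k trivial (k⁻¹ * l * k) trivial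
  have e3 := hc.2 k trivial (k⁻¹ * g * k) trivial (k⁻¹ * l * k) trivial
  rw [B2.cy_one_eq, one_mul] at e0 e1 e2 e3
  rw [show k * (k⁻¹ * l * k) = l * k by group] at e2
  rw [show k * (k⁻¹ * g * k) = g * k by group] at e3
  rw [show k⁻¹ * g * k * (k⁻¹ * l * k) = k⁻¹ * (g * l) * k by group] at e0 e3
  have z : ∀ x : ZMod (2 ^ 1), x + x = 0 := by decide
  linear_combination e0 - e1 + e2 + e3 + z (c (g * k) (k⁻¹ * l * k)) -
    z (c (k⁻¹ * g * k) (k⁻¹ * l * k)) - z (c k (k⁻¹ * l * k))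

theorem tbb_all (hc : B2.C2 1 ⊤ c) (w : B2.Plc) (h : iv w.p c = 0) : cft.inv 1 ⊤ w c = 0 := by
  obtain ⟨k, e⟩ := B2.plc_conj (pl_p w.prime)
  have := tbb_conj hc (Gv_prime w.prime ▸ (iv_eq_zero (.inr w.prime) (hc.mono le_top)).1 h) k
  rw [e] at this
  exact (cft.zero_iff isOpen_univ (hc.mono le_top)).2 (by rwa [top_inf_eq])

theorem tbb_inf (hc : B2.C2 1 ⊤ c) (h : iv 0 c = 0) : B2.AtInf 1 ⊤ c :=
  .inr ⟨rfl, Gv_zero ▸ (iv_eq_zero (.inl rfl) (hc.mono le_top)).1 h⟩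

theorem tbb_recip (hc : B2.C2 1 ⊤ c) (h0 : iv 0 c = 0) (V : Finset ℕ) (hV : ∀ v ∈ V, v.Prime)
    (h : ∀ q : ℕ, q.Prime → q ∉ V → iv q c = 0) : ∑ v ∈ V, iv v c = 0 := by
  have hi : Set.InjOn pl V := fun v hv w hw e => by rw [← pl_p (hV v hv), e, pl_p (hV w hw)]
  have key := cft.recip (V.image pl) isOpen_univ hc (tbb_inf hc h0) (fun x hx y hy g _ e => by
      obtain ⟨v, hv, rfl⟩ := mem_image.1 hx
      obtain ⟨w, hw, rfl⟩ := mem_image.1 hy
      have := congrArg B2.Plc.p e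
      rw [B2.smul_p, pl_p (hV v hv), pl_p (hV w hw)] at this
      rw [this]) fun w hw => tbb_all hc w (h w.p w.prime fun m => by
        obtain ⟨g, hg⟩ := B2.plc_conj (pl_p w.prime)
        exact hw _ (mem_image_of_mem pl m) g trivial hg)
  rw [sum_image hi] at key
  exact (sum_congr rfl fun v hv => iv_prime (hV v hv) c).trans key

theorem Ho.ine (h : v.Prime) (h2 : v ≠ 2) (k : Ho (Gv v) t) {g : GQ} (hg : g ∈ Iv v) :
    t g = chi v g * t (sig v) := by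
  have hI := Iv_le h
  obtain ⟨n, hk⟩ := B2.tame_gen (w := pl v) (by rw [pl_p h]; exact h2) (gen_sig h h2)
    (π := fun g => Multiplicative.ofAdd (t g, chi v g))
    ((k.1.mono hI).comp₂ ((lc_chi v).mono le_top) fun a b => Multiplicative.ofAdd (a, b))
    (fun g hg l hl => by
      beta_reduce
      rw [← ofAdd_add, Prod.mk_add_mk, k.2 g (hI hg) l (hI hl), chi_mul_g])
    (fun g hg => ⟨1, by
      rw [← ofAdd_nsmul, ofAdd_eq_one, pow_one, Prod.smul_mk, two_nsmul, two_nsmul,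
        CharTwo.add_self_eq_zero, CharTwo.add_self_eq_zero, Prod.mk_zero_zero]⟩) hg
  rw [← ofAdd_nsmul, Prod.smul_mk, chi_sig_self h h2] at hk
  obtain ⟨h1, h3⟩ := Prod.mk.inj (Multiplicative.ofAdd.injective hk)
  rw [h1, h3, nsmul_one, nsmul_eq_mul]

theorem Ho.smul {H : Subgroup GQ} (k : Ho H t) (a : F2) : Ho H fun g => t g * a :=
  ⟨k.1.comp (· * a), fun g hg l hl => by simp only [k.2 g hg l hl, add_mul]⟩

theorem hv_tame (h : v.Prime) (h2 : v ≠ 2) (k : Ho (Gv v) t) (l : Ho (Gv v) y)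
    (h0 : t (sig v) = 0) : hv v t y = t (frb v) * y (sig v) := by
  have k1 := (ho_chi (Gv v) v).smul (y (sig v))
  have k2 := l.add k1
  have u0 : ∀ g ∈ Iv v, t g = 0 := fun g hg => by rw [k.ine h h2 hg, h0, mul_zero]
  have e1 : hv v t (y + fun g => chi v g * y (sig v)) = 0 := by
    rw [hv, iv_prime h]
    have := c2_ho k k2
    rw [← Cu.sa3_G h] at this k k2
    refine cft.unr isOpen_univ this fun g hg m hm σ hσ τ hτ => ?_
    rw [k.2 g hg σ ⟨trivial, hσ.2.1⟩, k2.2 m hm τ ⟨trivial, hτ.2.1⟩, u0 σ hσ.2, add_zero,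
      Pi.add_apply y _ τ, ← l.ine h h2 hτ.2, CharTwo.add_self_eq_zero, add_zero]
  rw [hv_add_right (.inr h) k l k1, CharTwo.add_eq_zero] at e1
  have k3 := k.smul (y (sig v))
  rw [← Cu.sa3_G h] at k3
  have e3 := cft.kum (m := 1) (H := ⊤) (w := pl v) (χ := fun g => t g * y (sig v))
    (κ := B2.xi v) (a := ((v : ℤ) : Qb)) (φ := frb v) 1 isOpen_univ le_top trivial
    (by rw [top_inf_eq, Subgroup.relIndex_self, pow_one, pl_p h]
        exact (frb_spec h h2).1) k3.1 k3.2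
    (fun g hg => by rw [u0 g hg, zero_mul])
    (B2.kum_xi (Int.natCast_ne_zero.2 h.ne_zero))
    (by rw [zpow_one, ← (pl v).hV, pl_p h, Int.cast_natCast])
  rw [Int.cast_one, mul_one] at e3
  rw [e1, hv, iv_prime h]
  refine Eq.trans (cft.congr fun g _ m _ => ?_) e3
  rw [B2.cup, B2.cy_one_eq, mul_one, ← chi_eq_xi, mul_assoc, mul_comm (y _)]

theorem tbb_nd (h : v.Prime) : ¬ (v : ℤ) ∣ -1 := fun e =>
  h.ne_one (Nat.dvd_one.1 (Int.natCast_dvd.1 e))

theorem tbb_neg (h : v.Prime) (h2 : v ≠ 2) : chi (-1) (sig v) = 0 :=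
  chi_sig_of_not_dvd h h2 (tbb_nd h)

theorem tbb_cc : chi (-1) cc = 1 := by rw [loc_chi_cc (by norm_num), if_neg (by norm_num)]

theorem tbb_two : hv 2 (chi (-1)) (chi (-1)) = 1 := by
  have p7 : Nat.Prime 7 := by norm_num
  have e := tbb_recip (c2_ho (ho_chi ⊤ (-1)) (ho_chi ⊤ 7))
    ((hv_real (ho_chi _ _)).trans (by rw [loc_chi_cc (d := 7) (by norm_num)]; simp)) {2, 7}
    (by simp [Nat.prime_two, p7]) fun q hq k => by
      simp only [mem_insert, mem_singleton, not_or] at k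
      refine (hv_tame hq k.1 (ho_chi _ _) (ho_chi _ _) (tbb_neg hq k.1)).trans ?_
      rw [chi_sig_of_not_dvd hq k.1 fun e => k.2 ((Nat.prime_dvd_prime_iff_eq hq p7).1
        (by exact_mod_cast e)), mul_zero]
  rw [sum_pair (by norm_num), CharTwo.add_eq_zero] at e
  have e1 := hv_tame p7 (by norm_num) (ho_chi _ (-1)) (ho_chi _ (7 : ℕ)) (tbb_neg p7 (by norm_num))
  rw [chi_sig_self p7 (by norm_num), chi_frb p7 (by norm_num) (by norm_num),
    hilb_neg p7 (by norm_num)] at e1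
  refine (hv_congr (.inr Nat.prime_two) (fun _ _ => rfl) fun g hg => ?_).trans
    (e.trans (e1.trans (by decide)))
  have := chi_Gv_two (d := -1 * 7) (by norm_num) g hg
  rwa [chi_mul (by norm_num) (by norm_num), CharTwo.add_eq_zero] at this

/-- The reciprocity law with the real place. -/
theorem iv_recip (hc : B2.C2 1 ⊤ c) (V : Finset ℕ) (h0 : 0 ∈ V) (h2 : 2 ∈ V) (hV : ∀ v ∈ V, Pv v)
    (h : ∀ q : ℕ, q.Prime → q ∉ V → iv q c = 0) : ∑ v ∈ V, iv v c = 0 := by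
  have a1 : ∀ v ∈ V.erase 0, v.Prime := fun v hv =>
    (hV v (mem_of_mem_erase hv)).resolve_left (ne_of_mem_erase hv)
  have a2 : ∀ q : ℕ, q.Prime → q ∉ V.erase 0 → q ∉ V := fun q hq k e =>
    k (mem_erase.2 ⟨hq.ne_zero, e⟩)
  rw [← add_sum_erase _ _ h0]
  rcases F2_cases (iv 0 c) with e | e
  · rw [e, zero_add]
    exact tbb_recip hc e _ a1 fun q hq k => h q hq (a2 q hq k)
  have k0 := c2_ho (ho_chi ⊤ (-1)) (ho_chi ⊤ (-1))
  have b0 : ∀ v, Pv v → iv v (c + fun g l => chi (-1) g * chi (-1) l) =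
      iv v c + hv v (chi (-1)) (chi (-1)) := fun v hv =>
    iv_add hv (hc.mono le_top) (k0.mono le_top)
  have b1 : ∀ q : ℕ, q.Prime → q ≠ 2 → hv q (chi (-1)) (chi (-1)) = 0 := fun q hq k => by
    rw [hv_tame hq k (ho_chi _ _) (ho_chi _ _) (tbb_neg hq k), tbb_neg hq k, mul_zero]
  have b2 := tbb_recip (hc.add k0) (by
    rw [b0 0 (.inl rfl), e, hv_real (ho_chi _ _), tbb_cc]; decide) _ a1 fun q hq k => by
      rw [b0 q (.inr hq), h q hq (a2 q hq k), b1 q hq fun e => a2 q hq k (e ▸ h2), add_zero]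
  rw [sum_congr rfl fun v hv => b0 v (.inr (a1 v hv)), sum_add_distrib,
    sum_eq_single_of_mem 2 (mem_erase.2 ⟨two_ne_zero, h2⟩) fun v hv k => b1 v (a1 v hv) k,
    tbb_two] at b2
  rw [e, add_comm, b2]

theorem iv_abhn (hc : B2.C2 1 ⊤ c) (h : ∀ v, Pv v → iv v c = 0) : B2.Spl 1 ⊤ c :=
  cft.abhn isOpen_univ hc (tbb_inf hc (h 0 (.inl rfl))) fun w =>
    tbb_all hc w (h _ (.inr w.prime))

/-- Local characters come from integers. -/
theorem loc_kummer (h : Pv v) (k : Ho (Gv v) t) : ∃ m : ℤ, m ≠ 0 ∧ ∀ g ∈ Gv v, t g = chi m g := by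
  obtain ⟨a, ha⟩ := B2.kum_surj (m := 1) (κ := t) (closed_Gv h) k.1 fun g hg l hl => by
    rw [k.2 g hg l hl, B2.cy_one_eq, one_mul]
  obtain ⟨a0, a1⟩ := ha.fx
  obtain ⟨m, n, n0, e⟩ := approx_cls h a1 {0} (by simpa using a0)
  obtain ⟨e1, e2⟩ := e 0 (mem_singleton_self _)
  refine ⟨_, mul_ne_zero n0 e1, fun g hg => Eq.trans ?_ (e2 g hg)⟩
  obtain ⟨r, -, r1, r2⟩ := ha
  rw [Int.cast_zero, sub_zero]
  refine (chB_eq a0 (z := r) (by rw [← r1]; ring) ((r2 g hg).trans ?_)).symm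
  rcases F2_cases (t g) with e | e <;> rw [e]
  · rw [sn_zero]; simp
  · rw [sn_one]
    change r * (-1) ^ 1 = _
    simp

theorem hv_recip (k : Ho ⊤ t) (l : Ho ⊤ y) (V : Finset ℕ) (h0 : 0 ∈ V) (h2 : 2 ∈ V)
    (hV : ∀ v ∈ V, Pv v) (h : ∀ q : ℕ, q.Prime → q ∉ V → t (sig q) = 0 ∧ y (sig q) = 0) :
    ∑ v ∈ V, hv v t y = 0 :=
  iv_recip (c2_ho k l) V h0 h2 hV fun q hq e =>
    (hv_tame hq (fun e' => e (e' ▸ h2)) (k.mono le_top) (l.mono le_top) (h q hq e).1).trans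
      (by rw [(h q hq e).2, mul_zero])

theorem hv_neg (h : Pv v) {b : ℤ} (hb : b ≠ 0) : hv v (chi (-b)) (chi b) = 0 := by
  refine (iv_eq_zero h (c2_ho (ho_chi _ _) (ho_chi _ _))).2 ?_
  have := B2.spl_of_norm (B2.kum_xi (H := Gv v) (neg_ne_zero.2 hb)) (B2.kum_xi hb) (closed_Gv h)
    (fx_int _ 0) (fx_int _ 1) (by simp)
  convert this using 3 with g l
  rw [B2.cup, B2.cy_one_eq, mul_one, chi_eq_xi]

theorem tbb_odd (h : v.Prime) (h2 : v ≠ 2) {a b : ℤ} (ha : a ≠ 0) (hb : b ≠ 0) :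
    hv v (chi a) (chi b) = hs v a b := by
  rw [hs_odd h h2 ha hb]
  rcases F2_cases (chi a (sig v)) with e | e
  · rw [hv_tame h h2 (ho_chi _ _) (ho_chi _ _) e, e]
    ring
  rcases F2_cases (chi b (sig v)) with e' | e'
  · rw [hv_comm (.inr h) (ho_chi _ _) (ho_chi _ _), hv_tame h h2 (ho_chi _ _) (ho_chi _ _) e', e']
    ring
  have nb : ∀ g, chi (-b) g = chi (-1) g + chi b g := fun g => by
    rw [← chi_mul (by norm_num) hb, neg_one_mul]
  have e1 := hv_add_left (.inr h) (ho_chi _ a) (ho_chi _ (-b)) (ho_chi _ b)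
  rw [hv_neg (.inr h) hb, add_zero, hv_tame h h2 ((ho_chi _ _).add (ho_chi _ _)) (ho_chi _ _) (by
    rw [Pi.add_apply, nb, e, e', tbb_neg h h2]; decide), Pi.add_apply, nb,
    chi_frb h h2 (tbb_nd h)] at e1
  rw [← e1, e, e']
  ring

theorem tbb_real {a b : ℤ} (ha : a ≠ 0) (hb : b ≠ 0) : hv 0 (chi a) (chi b) = hs 0 a b := by
  rw [hv_real (ho_chi _ _), loc_chi_cc ha, loc_chi_cc hb, hs, if_neg (by norm_num : ¬ 0 = 2),
    if_neg Nat.not_prime_zero]
  split_ifs <;> first | omega | simp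

/-- The local symbol is the symbol of Hilbert. -/
theorem hv_hs (h : Pv v) {a b : ℤ} (ha : a ≠ 0) (hb : b ≠ 0) : hv v (chi a) (chi b) = hs v a b := by
  rcases h with rfl | h
  · exact tbb_real ha hb
  by_cases h2 : v = 2
  swap
  · exact tbb_odd h h2 ha hb
  subst h2
  obtain ⟨V, hV⟩ : ∃ V, V = insert 0 (insert 2 (a * b).natAbs.primeFactors) := ⟨_, rfl⟩
  have a0 : 0 ∈ V := by simp [hV]
  have a2 : 2 ∈ V := by simp [hV]
  have a3 : ∀ v ∈ V, Pv v := fun v k => by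
    simp only [hV, mem_insert] at k
    rcases k with k | rfl | k
    exacts [.inl k, .inr h, .inr (Nat.prime_of_mem_primeFactors k)]
  have a4 : ∀ p : ℕ, p.Prime → (p : ℤ) ∣ a * b → p ∈ V := fun p hp k => by
    rw [hV]
    exact mem_insert_of_mem (mem_insert_of_mem (Nat.mem_primeFactors.2
      ⟨hp, Int.natCast_dvd.1 k, Int.natAbs_ne_zero.2 (mul_ne_zero ha hb)⟩))
  have e1 := hv_recip (ho_chi ⊤ a) (ho_chi ⊤ b) V a0 a2 a3 fun q hq k =>
    ⟨chi_sig_of_not_dvd hq (fun e => k (e ▸ a2)) fun e => k (a4 q hq (e.mul_right _)),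
      chi_sig_of_not_dvd hq (fun e => k (e ▸ a2)) fun e => k (a4 q hq (e.mul_left _))⟩
  have e2 := hs_sum ha hb V a0 a2 a3 a4
  rw [← add_sum_erase _ _ a2] at e1 e2
  rw [sum_congr rfl (g := fun v => hs v a b) fun v k => by
    rcases a3 v (mem_of_mem_erase k) with rfl | k'
    exacts [tbb_real ha hb, tbb_odd k' (ne_of_mem_erase k) ha hb]] at e1
  exact add_right_cancel (e1.trans e2.symm)

namespace Cu

variable {C : Cu} {u u' b b' : GQ → C.A} {D : ℤ}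

theorem bv_recip (k : C.Z2 ⊤ u) (l : C.Z2 ⊤ b) (V : Finset ℕ) (hV : ∀ v ∈ V, C.Gp v)
    (h : ∀ q, C.Gp q → q ∉ V → u (sig q) = 0 ∧ b (sig q) = 0) :
    ∑ v ∈ V, C.Bv v u b = ∑ v ∈ plc C.N0, C.bv v u b := by
  have := iv_recip (c2_cu k l) (V ∪ plc C.N0) (mem_union_right _ (mem_plc.2 (.inl rfl)))
    (mem_union_right _ (mem_plc.2 (.inr ⟨Nat.prime_two, C.two_le_N0⟩)))
    (fun v hv => (mem_union.1 hv).elim (fun m => .inr (hV v m).1) fun m =>
      (mem_plc.1 m).imp_right And.left) fun q hq m => by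
      have g : C.Gp q := ⟨hq, not_le.1 fun e => m (mem_union_right _ (mem_plc.2 (.inr ⟨hq, e⟩)))⟩
      obtain ⟨a1, a2⟩ := h q g fun e => m (mem_union_left _ e)
      refine (bv_prime hq u b).trans ?_
      rw [Bv_tame g (k.mono le_top) (l.mono le_top) a1, a2, ep_zero_right]
  rw [sum_union (disjoint_left.2 fun v m e => (mem_plc.1 e).elim (hV v m).1.ne_zero
    fun e => (hV v m).2.not_ge e.2), CharTwo.add_eq_zero] at this
  exact (sum_congr rfl fun v m => (bv_prime (hV v m).1 u b).symm).trans this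

end Cu

end Pool.Agent.SP
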