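import Pool.Agent.Lib.MP_696deb_nt.SP.IE
import Pool.Agent.Lib.MP_696deb_nt.SP.IF1
import Pool.Agent.Lib.MP_696deb_nt.SP.TBb

/-! Classes with a given value at complex conjugation. -/

set_option autoImplicit false

open scoped Classical
open Finset Function

namespace Pool.Agent.SP

open Pool.Agent.Lib.MP_696deb_nt Pool.Agent.Lib.MP_696deb_nt.Sm
open Pool.Agent.Lib.MP_696deb_nt.B2 (cc jC)

open Pool.Agent.Lib.MP_696deb_nt.B2 (Plc Op Zu Rs Zc Z1 Z2 tr Apart Away GoodA LocC Perp rs IsCC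
  cupb)
open Pool.Agent.Lib.MP_696deb_nt.B6 (W2 N2 sg dW P0)

variable {r : GQ →* N2} {N : ℕ}

theorem dual3_dW (h : B2.Sm ⊤ r) (H : Subgroup GQ) : B6.Dual3 r 1 H (sg r) (sg r) dW :=
  ⟨h, B6.act3_sg h H, B6.act3_sg h H, fun g _ x y => by rw [B6.dW_sg, B2.cy_one_eq, one_mul],
    B6.dW_left, fun y k => B6.dW_left y fun x => (B6.dW_comm y x).trans (k x)⟩

theorem Rl.recip (h : Rl r N) {c c' : GQ → W2} (k : c ∈ Zu ⊤ (sg r) (plS N))
    (k' : c' ∈ Zu ⊤ (sg r) (plS N)) :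
    ∑ w ∈ plS N, cft.inv 1 ⊤ w (cupb dW (sg r) c c') + dW (c cc) (c' cc) = 0 := by
  have hd := fun H => (dual3_dW h.sm H).zero
  have e := iv_recip (B6.c2_cupb0 (hd ⊤) k.1.1 k'.1.1) (plc N) (mem_plc.2 (.inl rfl))
    (mem_plc.2 (.inr ⟨Nat.prime_two, h.two⟩))
    (fun v hv => (mem_plc.1 hv).imp_right And.left) fun q hq hn => by
      have a : Away ⊤ (plS N) (pl q) := away_plS.2 (by
        rw [pl_p hq]
        exact not_le.1 fun e => hn (mem_plc.2 (.inr ⟨hq, e⟩)))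
      rw [iv_prime hq]
      exact B6.inv_cupb_unr0 cft isOpen_univ (hd _) (h.good _ a).2 (k.1.1.mono inf_le_left)
        (k'.1.1.mono inf_le_left) (k.2 _ a) (k'.2 _ a)
  have e1 : c 1 = 0 := by
    have := k.1.1.2 1 trivial 1 trivial
    rwa [one_mul, B6.sg_one, left_eq_add] at this
  have e2 : r cc = 1 := h.re cc ⟨jC, B2.jC_cc⟩
  have hi : Set.InjOn pl ((range (N + 1)).filter Nat.Prime : Finset ℕ) := fun v hv w hw e => by
    rw [← pl_p (mem_filter.1 hv).2, e, pl_p (mem_filter.1 hw).2]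
  rw [plc, sum_insert (fun e => Nat.not_prime_zero (mem_filter.1 e).2), tb_zero, cupb, cupb, e1,
    map_zero, AddMonoidHom.zero_apply, add_zero, B6.sg_apply, e2, Matrix.one_mulVec,
    sum_congr rfl fun v hv => iv_prime (mem_filter.1 hv).2 _, add_comm] at e
  rw [plS, sum_image hi]
  exact e

theorem Rl.dual (h : Rl r N) {L : Plc → AddSubgroup (GQ → W2)}
    (hL : ∀ w ∈ plS N, LocC ⊤ w (sg r) (L w)) (h0 : ∀ c ∈ Zc ⊤ (sg r) (plS N) L, c cc = 0)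
    (t : W2) : ∃ c' ∈ Zu ⊤ (sg r) (plS N), c' cc = t ∧
      ∀ w ∈ plS N, ∀ c ∈ L w, cft.inv 1 ⊤ w (cupb dW (sg r) c c') = 0 := by
  obtain ⟨s, hs⟩ : ∃ s, s = plS N := ⟨_, rfl⟩
  have i1 := h.ineq
  have rc := @Rl.recip r N h
  have ap : Apart ⊤ (plS N) := apart_plS N
  rw [← hs] at i1 rc ap hL h0 ⊢
  have hH : Op ⊤ := isOpen_univ
  have hl := fun w : Plc => dual3_dW h.sm (⊤ ⊓ B2.Dec w)
  have f1 := B6.finite_Zu3 hH (dual3_dW h.sm ⊤) s
  have f3 : ∀ i : s, Finite (Z1 (⊤ ⊓ B2.Dec i.1) (sg r)) := fun i => (B6.ld_core3 cft hH (hl i)).1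
  choose p hp using fun w => B6.exists_lp0 cft hH (hl w).zero
  have k1 := fun w => (B6.lp_ker3 cft hH (hl w) (hp w)).1
  have k2 := fun w => (B6.lp_ker3 cft hH (hl w) (hp w)).2
  have c1 : Nat.card {z // ∀ i : s, B2.GWm_loc ⊤ (sg r) s i.1 z ∈ (p i.1).ker} =
      Nat.card (Zc ⊤ (sg r) s fun w => B2.B1 (⊤ ⊓ B2.Dec w) (sg r)) :=
    B2.GWm_card s _ _ fun i c => by rw [k1]; rfl
  have c2 : Nat.card {z // ∀ i : s, B2.GWm_loc ⊤ (sg r) s i.1 z ∈ (p i.1).flip.ker} =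
      Nat.card (Zc ⊤ (sg r) s fun w => B2.B1 (⊤ ⊓ B2.Dec w) (sg r)) :=
    B2.GWm_card s _ _ fun i c => by rw [k2]; rfl
  have c4 : ∏ i : s, Nat.card (p i.1).flip.ker =
      ∏ w ∈ s, Nat.card (B2.B1 (⊤ ⊓ B2.Dec w) (sg r)) := by
    rw [← prod_coe_sort s]
    refine prod_congr rfl fun i _ => ?_
    rw [k2]
    exact Nat.card_congr (AddSubgroup.addSubgroupOfEquivOfLe (B6.B1_le0 (hl i).zero.act')).toEquiv
  have c5 : ∏ i : s, Nat.card (Z1 (⊤ ⊓ B2.Dec i.1) (sg r)) =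
      ∏ w ∈ s, Nat.card (Z1 (⊤ ⊓ B2.Dec w) (sg r)) :=
    prod_coe_sort s fun w => Nat.card (Z1 (⊤ ⊓ B2.Dec w) (sg r))
  have c0 : Nat.card W2 = 4 := by simp [W2]
  rw [B2.card_Rs, ← c0, ← pow_one (Nat.card W2)] at i1
  have ar := B2.GWm_arith (μ := Nat.card W2) (s := s.card) (d := ∑ w ∈ s, B2.ldeg ⊤ w + 1)
    (v' := (∏ w ∈ s, Nat.card (Z1 (⊤ ⊓ B2.Dec w) (sg r))) * Nat.card W2)
    (β := ∏ w ∈ s, Nat.card (B2.B1 (⊤ ⊓ B2.Dec w) (sg r)))
    (β' := ∏ w ∈ s, Nat.card (B2.B1 (⊤ ⊓ B2.Dec w) (sg r))) Nat.card_pos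
    (prod_pos fun _ _ => Nat.card_pos) Nat.card_pos Nat.card_pos i1 i1
    (by
      rw [← add_assoc, pow_succ (Nat.card W2), mul_right_comm, card_eq_sum_ones,
        ← sum_add_distrib, ← prod_pow_eq_pow_sum, ← prod_mul_distrib]
      exact congrArg (· * _) (prod_congr rfl fun w _ => (B6.ld_core3 cft hH (hl w)).2.1))
    (by
      rw [← prod_mul_distrib, ← prod_const]
      exact prod_congr rfl fun w _ => B2.card_H0_B1 _ _)
    (by
      rw [← add_assoc, pow_succ (Nat.card W2), mul_right_comm, card_eq_sum_ones, mul_sum,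
        ← sum_add_distrib, ← prod_pow_eq_pow_sum, ← prod_mul_distrib]
      exact congrArg (· * _) (prod_congr rfl fun w _ => B6.card_Z1_B13 cft hH (hl w)))
    (by
      have := B2.sum_ldeg_le hH ap
      rw [Subgroup.index_top] at this
      omega)
  obtain ⟨z, z1, z2⟩ := if_pi (ι := s) (V := fun i => Z1 (⊤ ⊓ B2.Dec i.1) (sg r))
    (fun i => p i.1) dW B6.dW_left (fun i => B2.GWm_loc ⊤ (sg r) s i.1)
    ((Pi.evalAddMonoidHom (fun _ : GQ => W2) cc).comp (Zu ⊤ (sg r) s).subtype)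
    (fun z z' => by
      rw [← rc z.2 z'.2, ← sum_coe_sort s]
      exact congrArg (· + _) (sum_congr rfl fun i _ => (hp _ _ _).trans (B2.inv_cupb_rs cft)))
    (by rw [c1, c2, c4, c5]; exact ar.1)
    (U := fun i => (L i.1).addSubgroupOf _) (fun i => by
      rw [k1]
      rintro c ⟨x, hx⟩
      rw [AddSubgroup.mem_addSubgroupOf,
        ← show rs (⊤ ⊓ B2.Dec i.1) (B2.cob (sg r) x) = c.1 from hx]
      exact (hL _ i.2).2 x)
    (fun z hz => h0 z.1 (B2.mem_Zc.2 ⟨z.2, fun w hw => hz ⟨w, hw⟩⟩)) t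
  refine ⟨z.1, z.2, z1, fun w hw c hc => ?_⟩
  have := z2 ⟨w, hw⟩ ⟨c, (hL w hw).1 hc⟩ hc
  rw [hp] at this
  exact (B2.inv_cupb_congr cft (fun _ _ => rfl) fun _ hg => (B2.rs_of_mem hg _).symm).trans this

end Pool.Agent.SP
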