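import Pool.Agent.Lib.MP_696deb_nt.SP.IG1
import Pool.Agent.Lib.MP_696deb_nt.SP.IF
import Pool.Agent.Lib.MP_696deb_nt.SP.ID

/-! The duality theorem for the two-torsion. -/

set_option autoImplicit false

open scoped Classical
open Finset Function

namespace Pool.Agent.SP

open Pool.Agent.Lib.MP_696deb_nt Pool.Agent.Lib.MP_696deb_nt.Sm
open Pool.Agent.Lib.MP_696deb_nt.B2 (cc jC)

open Pool.Agent.Lib.MP_696deb_nt.B6 (W2 N2 sg dW)

namespace Cu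

variable {C : Cu} {g0 : GQ}

/-- Normalisation of an unramified cocycle. -/
theorem ig_norm (hp : 0 < C.disc) (h0 : C.G3 g0) {a : GQ → C.A} (h : C.Un a) :
    ∃ S : C.A, 2 • S = 0 ∧ (a + fun g => C.act g S - S) ∈ C.U g0 1 ∧
      (a + fun g => C.act g S - S) cc = a cc := by
  obtain ⟨S, h1, h2⟩ := h.1.norm h0
  refine ⟨S, h1, mem_U_one.2 ⟨h.add ⟨z2_cob _ h1, fun q hq => ?_⟩, ?_⟩, ?_⟩
  · exact sub_eq_zero.2 (hq.act_ine (sig_ine hq.1 hq.ne_two) h1)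
  · rw [Pi.add_apply, ← h2, ← two_nsmul, h.1.two g0 trivial]
  · rw [Pi.add_apply, act_of_pm (isCC_Kpm hp B2.isCC_cc) h1, sub_self, add_zero]

theorem ig_loc (v : ℕ) {S : C.A} (h : 2 • S = 0) : C.Loc v 1 fun g => C.act g S - S :=
  ⟨S, fun g _ => by rw [cob, C.tw_two 1 g h]⟩

theorem ig_mem {N : ℕ} {w : B2.Plc} : w ∈ plS N ↔ ∃ v : ℕ, v.Prime ∧ v ≤ N ∧ pl v = w := by
  simp only [plS, mem_image, mem_filter, mem_range, Nat.lt_succ_iff]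
  exact exists_congr fun v => by tauto

theorem pt_inf (hp : 0 < C.disc) (h0 : C.G3 g0) (hB : BigH C.P0 C.N0)
    (h : ∀ a ∈ C.RR g0, a cc = 0) (i : Fin 3) : ∃ b ∈ C.RD g0, b cc = C.T i := by
  obtain ⟨r, ι, hι, h2, hact, hep, hsm, hP, hK, htr⟩ := C.exists_coord
  have t2 : ∀ x, 2 • ι x = 0 := fun x => (h2 _).2 ⟨x, rfl⟩
  have n3 : ∀ j : Fin 3, j + 1 ≠ j := by decide
  have R : Rl r C.N0 := ⟨hsm, ⟨g0, htr g0 fun j => (h0.1 j).symm ▸ n3 j⟩,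
    fun g hg => (hK g).2 (isCC_Kpm hp hg), C.two_le_N0, fun w hw σ hσ => (hK σ).2 fun j =>
      C.T_inj ((C.act_T σ j).symm.trans
        (((C.z2_zero ⊤).ine_all ⟨w.prime, hw⟩ rfl rfl σ hσ).2 _ (C.two_T j))), hP ▸ hB⟩
  have un : ∀ c ∈ B2.Zu ⊤ (sg r) (plS C.N0), C.Un fun g => ι (c g) := fun c hc =>
    ⟨⟨fun g _ => t2 _, fun g hg k hk => by rw [hc.1.1.2 g hg k hk, map_add, hact],
      hc.1.1.1.comp ι⟩, fun q hq => (congrArg ι (hc.2 (pl q)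
        (away_plS.2 ((pl_p hq.1).symm ▸ hq.2)) _ ⟨trivial, sig_ine hq.1 hq.ne_two⟩)).trans
          (map_zero ι)⟩
  let L : B2.Plc → AddSubgroup (GQ → W2) := fun w =>
    { carrier := {c | c ∈ B2.Z1 (⊤ ⊓ B2.Dec w) (sg r) ∧ C.Loc w.p 1 fun g => ι (c g)}
      zero_mem' := ⟨zero_mem _, (C.loc_zero _ 1).congr (fun _ _ => rfl) fun _ _ => map_zero ι⟩
      add_mem' := fun k k' => ⟨add_mem k.1 k'.1,
        (k.2.add k'.2).congr (fun _ _ => rfl) fun _ _ => map_add ι _ _⟩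
      neg_mem' := fun k => ⟨neg_mem k.1, (k.2.zsmul (-1)).congr (fun _ _ => rfl) fun _ _ =>
        (map_neg ι _).trans (neg_one_zsmul _).symm⟩ }
  obtain ⟨t, ht⟩ := (h2 _).1 (C.two_T i)
  obtain ⟨c', k1, k2, k3⟩ := R.dual (L := L) (fun w hw => by
    obtain ⟨v, hv, -, rfl⟩ := ig_mem.1 hw
    refine ⟨fun _ k => k.1, fun x => ⟨B2.rs_mem_Z1 ⟨(hsm.mono le_top).comp fun m =>
      Matrix.mulVec m x - x, fun g _ k _ => ?_⟩, ?_⟩⟩
    · simp only [B2.cob, B6.sg_mul, map_sub]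
      abel
    · rw [pl_p hv]
      exact (ig_loc v (t2 x)).congr (fun _ _ => rfl) fun g hg => by
        rw [B2.rs_of_mem ((sa3_G hv).symm ▸ hg), B2.cob, map_sub, hact]) (fun c hc => by
    obtain ⟨c1, c2⟩ := B2.mem_Zc.1 hc
    obtain ⟨S, s1, s2, s3⟩ := ig_norm hp h0 (un c c1)
    have e := h _ ⟨s2, fun v hv hN => Loc.add ?_ (ig_loc v s1)⟩
    · exact hι ((s3.symm.trans e).trans (map_zero ι).symm)
    · have k := (c2 _ (ig_mem.2 ⟨v, hv, hN, rfl⟩)).2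
      rw [pl_p hv] at k
      exact k.congr (fun _ _ => rfl) fun g hg => by
        rw [B2.rs_of_mem ((sa3_G hv).symm ▸ hg)]) t
  have u := un c' k1
  obtain ⟨S, s1, s2, s3⟩ := ig_norm hp h0 u
  refine ⟨_, ⟨s2, fun v hv hN k z l => ?_⟩, by rw [s3, k2, ht]⟩
  have inv : ∀ g ∈ Gv v, ι (invFun ι (k g)) = k g := fun g hg => invFun_eq ((h2 _).1 (z.two g hg))
  have G := sa3_G hv
  have m : B2.rs (⊤ ⊓ B2.Dec (pl v)) (fun g => invFun ι (k g)) ∈ L (pl v) := by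
    refine ⟨B2.rs_mem_Z1 (G.symm ▸ ⟨z.sm.comp _, fun g hg x hx => hι ?_⟩), ?_⟩
    · rw [inv _ (mul_mem hg hx), map_add, ← hact, inv g hg, inv x hx, z.coc g hg x hx]
    · rw [pl_p hv]
      exact l.congr (fun _ _ => rfl) fun g hg => by rw [B2.rs_of_mem (G.symm ▸ hg), inv g hg]
  rw [Bv_add_right hv z (u.1.mono le_top) (z2_cob _ s1), Bv_comm hv z (z2_cob _ s1),
    Bv_cob hv s1 (fun _ _ => rfl) z, add_zero, ← k3 _ (ig_mem.2 ⟨v, hv, hN, rfl⟩) _ m]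
  exact cft.congr fun g hg x _ => by
    rw [cu, B2.cupb, B2.rs_of_mem hg, ← hep, ← hact, inv g (G ▸ hg)]

end Cu

end Pool.Agent.SP
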