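import Pool.Agent.Lib.MP_696deb_nt.SP.IF
import Pool.Agent.Lib.MP_696deb_nt.SP.ID

/-! Coordinates on the two-torsion. -/

set_option autoImplicit false

open scoped Classical
open Finset Function

namespace Pool.Agent.SP

open Pool.Agent.Lib.MP_696deb_nt Pool.Agent.Lib.MP_696deb_nt.Sm
open Pool.Agent.Lib.MP_696deb_nt.B2 (cc jC)

open Pool.Agent.Lib.MP_696deb_nt.B6 (W2 N2 sg dW)

/-- The three nonzero vectors of the plane. -/
def ig1V : Fin 3 → W2 := ![![1, 0], ![0, 1], ![1, 1]]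

/-- The matrix of a permutation of the three vectors. -/
def ig1M (f : Fin 3 → Fin 3) : N2 := Matrix.of fun i j => ig1V (f j.castSucc) i

theorem ig1_cases : ∀ x : W2, x = 0 ∨ ∃ i, x = ig1V i := by decide

theorem ig1_vec : ∀ f : Fin 3 → Fin 3, Injective f → ∀ i,
    (ig1M f).mulVec (ig1V i) = ig1V (f i) := by decide

theorem ig1_one : ∀ f : Fin 3 → Fin 3, Injective f → (ig1M f = 1 ↔ ∀ i, f i = i) := by decide

theorem ig1_tr : ∀ f : Fin 3 → Fin 3, Injective f → (∀ i, f i ≠ i) → (ig1M f).trace = 1 := by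
  decide

theorem ig1_inj : Injective ig1V := by decide

theorem ig1_d : ∀ i j, dW (ig1V i) (ig1V j) = if i = j then 0 else 1 := by decide

namespace Cu

variable {C : Cu} {g0 : GQ}

/-- Coordinates on the two-torsion. -/
theorem exists_coord (C : Cu) : ∃ (r : GQ →* N2) (ι : W2 →+ C.A), Injective ι ∧
    (∀ S, 2 • S = 0 ↔ ∃ x, ι x = S) ∧ (∀ g x, C.act g (ι x) = ι (sg r g x)) ∧
    (∀ x y, C.ep (ι x) (ι y) = dW x y) ∧ B2.Sm ⊤ r ∧ B6.P0 r = C.P0 ∧
    (∀ g, r g = 1 ↔ g ∈ C.Kpm) ∧ ∀ g, (∀ i, C.pm g i ≠ i) → (r g).trace = 1 := by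
  let r : GQ →* N2 :=
    { toFun := fun g => ig1M (C.pm g)
      map_one' := (ig1_one _ (C.pm_inj 1)).2 C.pm_one
      map_mul' := fun g h => Matrix.ext fun i j => by
        have e := congrFun (ig1_vec _ (C.pm_inj g) (C.pm h j.castSucc)) i
        rw [← pm_mul] at e
        exact e.symm }
  let ι : W2 →+ C.A := AddMonoidHom.mk' (fun x => C.pr ![x 0, x 1, 0]) fun x y => by
    rw [← pr_add]
    congr 1
    funext i
    rcases fin3 i with rfl | rfl | rfl
    exacts [rfl, rfl, (add_zero _).symm]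
  have hT (i : Fin 3) : ι (ig1V i) = C.T i := by
    have e : ∀ i : Fin 3, ∃ t : F2, (![ig1V i 0, ig1V i 1, 0] : Fin 3 → F2) =
        (fun j => if j = i then 1 else 0) + fun _ => t := by decide
    obtain ⟨t, e⟩ := e i
    change C.pr _ = _
    rw [e, pr_add, pr_const, add_zero, pr_single]
  have hs (g : GQ) (i : Fin 3) : sg r g (ig1V i) = ig1V (C.pm g i) := ig1_vec _ (C.pm_inj g) i
  refine ⟨r, ι, (injective_iff_map_eq_zero ι).2 fun x h => ?_, fun S => ⟨fun h => ?_, ?_⟩,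
    fun g x => ?_, fun x y => ?_, (C.sm_pm ⊤).comp ig1M, Subgroup.ext fun g => ?_,
    fun g => ig1_one _ (C.pm_inj g), fun g => ig1_tr _ (C.pm_inj g)⟩
  · rcases ig1_cases x with e | ⟨i, rfl⟩
    exacts [e, absurd ((hT i).symm.trans h) (C.T_ne i)]
  · rcases C.tors2 h with rfl | ⟨i, rfl⟩
    exacts [⟨0, map_zero ι⟩, ⟨_, hT i⟩]
  · rintro ⟨x, rfl⟩
    exact C.two_pr _
  · rcases ig1_cases x with rfl | ⟨i, rfl⟩
    · simp only [map_zero]
    · rw [hs, hT, hT, act_T]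
  · rcases ig1_cases x with rfl | ⟨i, rfl⟩
    · rw [map_zero, map_zero, ep_zero_left]
      rfl
    rcases ig1_cases y with rfl | ⟨j, rfl⟩
    · rw [map_zero, map_zero, ep_zero_right]
    · rw [hT, hT, ep_T, ig1_d]
  · exact (Eq.congr_left (hs g 0)).trans (ig1_inj.eq_iff (b := 0))

end Cu

end Pool.Agent.SP
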