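import Pool.Agent.Lib.MP_696deb_nt.SP.IB
import Pool.Agent.Lib.MP_696deb_nt.SP.IG

/-! Positive discriminant. -/

set_option autoImplicit false

open scoped Classical
open Finset Function

namespace Pool.Agent.SP

open Pool.Agent.Lib.MP_696deb_nt Pool.Agent.Lib.MP_696deb_nt.Sm
open Pool.Agent.Lib.MP_696deb_nt.B2 (cc jC)

namespace Cu

variable {C : Cu} {g0 : GQ}

/-- The classes with the dual conditions whose value at complex conjugation lies on a line. -/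
noncomputable def XL (C : Cu) (g0 : GQ) (i : Fin 3) : AddSubgroup (GQ → C.A) where
  carrier := {b | b ∈ C.RD g0 ∧ C.ep (b cc) (C.T i) = 0}
  zero_mem' := ⟨zero_mem _, C.ep_zero_left _⟩
  add_mem' := fun h h' => ⟨add_mem h.1 h'.1, by
    rw [Pi.add_apply, C.ep_add_left (h.1.1.1.two _ trivial) (h'.1.1.1.two _ trivial) (C.two_T i),
      h.2, h'.2, add_zero]⟩
  neg_mem' := fun {b} h => by
    rwa [show -b = b from funext fun g => C.neg_two (h.1.1.1.two g trivial)]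

/-- The line `i` holds the images of the real points of the twist of sign `ε`. -/
def Ln (C : Cu) (ε : ℤ) (i : Fin 3) : Prop :=
  ∀ k, C.Z2 (Gv 0) k → C.Loc 0 ε k → C.ep (k cc) (C.T i) = 0

theorem ih_ln (hp : 0 < C.disc) {ε : ℤ} (hε : ε = 1 ∨ ε = -1) {i : Fin 3}
    (h : ∀ t, 0 < C.fd t → ε * C.fs t < 0 → t = i) : C.Ln ε i := by
  rintro k hk ⟨Q, hQ⟩
  rcases C.tors2 (hk.two cc loc_cc_mem) with e | ⟨t, e⟩
  · rw [e, ep_zero_left]
  · obtain ⟨h1, h2⟩ := real_kum hp hε ((hQ cc loc_cc_mem).symm.trans e)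
    rw [e, h t h1 h2, ep_self]

theorem exists_Ln (hp : 0 < C.disc) : ∃ i j : Fin 3, i ≠ j ∧ C.Ln 1 i ∧ C.Ln (-1) j ∧
    ∀ t, 0 < C.fd t → t = i ∨ t = j := by
  obtain ⟨i, j, h1, h2, h3, h4⟩ := exists_order hp
  exact ⟨i, j, h1, ih_ln hp (.inl rfl) fun t a b => h2 t a (by simpa using b),
    ih_ln hp (.inr rfl) fun t a b => h3 t a (by simpa using b), h4⟩

theorem ih_line {S S' : C.A} {i : Fin 3} (h : C.ep S (C.T i) = 0) (h' : C.ep S' (C.T i) = 0) :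
    C.ep S S' = 0 := by
  rcases (C.ep_T_eq_zero i).1 h' with rfl | rfl
  exacts [C.ep_zero_right S, h]

theorem adm_XL (hp : 0 < C.disc) (h0 : C.G3 g0) {ε : ℤ} (hε : ε = 1 ∨ ε = -1) {i : Fin 3}
    (h : C.Ln ε i) {s : GQ} (h3 : ∀ i, C.pm s i ≠ i) :
    C.Adm s (Dref C.N0 ε) (C.XL g0 i) ∧ C.SS g0 ε ≤ C.XL g0 i := by
  refine ⟨⟨finite_le h0 fun _ hb => hb.1.1, fun _ hb => (mem_U_one.1 hb.1.1).1, ?_,
    fun _ hb => Cb_of_fpf (hb.1.1.1.two s trivial) h3⟩,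
    fun a ha => ⟨RR_le ha.1, h a (ha.1.1.1.mono le_top) ha.2⟩⟩
  rintro b hb v (rfl | ⟨hv, h1⟩) k hk hl
  · rw [spl_cc_iff (c2_cu hk (hb.1.1.1.mono le_top)), cu, cu, hk.one, ep_zero_left, add_zero,
      act_of_pm (isCC_Kpm hp B2.isCC_cc) (hb.1.1.1.two cc trivial)]
    exact ih_line (h k hk (hl.congr (fun g hg => (Dref_inf _ hε g hg).symm) fun _ _ => rfl)) hb.2
  · exact (Bv_eq_zero hv hk (hb.1.1.1.mono le_top)).1 (hb.1.2 v hv h1 k hk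
      (hl.congr (fun g hg => (Dref_fin ε hv h1 g hg).symm) fun _ _ => rfl))

/-- An element of order three for each sign. -/
theorem exists_s3 (hp : 0 < C.disc) (h0 : C.G3 g0) {ε : ℤ} (hε : ε = 1 ∨ ε = -1) :
    ∃ s, C.Ok ε s ∧ ∀ i, C.pm s i ≠ i := by
  rcases hε with rfl | rfl
  · exact ⟨g0, h0.ok, h0.fpf⟩
  · refine ⟨cc * g0, ok_cc h0.2, fun i => ?_⟩
    rw [pm_mul, isCC_Kpm hp B2.isCC_cc]
    exact h0.fpf i

theorem ih_even (hp : 0 < C.disc) (h0 : C.G3 g0) {ε : ℤ} (hε : ε = 1 ∨ ε = -1) {i : Fin 3}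
    (h : C.Ln ε i) {k : ℕ} (hk : Nat.card (C.XL g0 i) = 4 ^ k) : C.Res g0 ε True := by
  obtain ⟨s, h1, h2⟩ := exists_s3 hp h0 hε
  obtain ⟨h3, h4⟩ := adm_XL hp h0 hε h h2
  exact res_three h0 hε h1 h2 h4 (few_even h0 (fun _ hb => hb.1.1) h3 hk) fun _ => rfl

/-- The group of another line has index two. -/
theorem ih_index (hp : 0 < C.disc) {a : GQ → C.A} (ha : a ∈ C.RR g0) {t u : Fin 3}
    (e : a cc = C.T t) (h : t ≠ u) : Nat.card (C.XL g0 t) = 2 * Nat.card (C.XL g0 u) := by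
  have h1 : C.XL g0 u ≤ C.XL g0 t := fun b hb => ⟨hb.1, by rw [ep_comm, ← e, ep_cc hp ha hb.1]⟩
  have h2 : ((C.XL g0 u).addSubgroupOf (C.XL g0 t)).index = 2 := by
    have a1 : a ∈ C.XL g0 t := ⟨RR_le ha, by rw [e, ep_self]⟩
    refine AddSubgroup.index_eq_two_iff.2 ⟨⟨a, a1⟩, fun b => ?_⟩
    have e1 : C.ep ((b.1 + a) cc) (C.T u) = C.ep (b.1 cc) (C.T u) + 1 := by
      rw [Pi.add_apply, C.ep_add_left (b.2.1.1.1.two cc trivial) (ha.1.1.two cc trivial)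
        (C.two_T u), e, ep_T, if_neg h]
    rcases F2_cases (C.ep (b.1 cc) (C.T u)) with e2 | e2
    · refine .inr ⟨⟨b.2.1, e2⟩, fun k => ?_⟩
      have k2 : C.ep ((b.1 + a) cc) (C.T u) = 0 := k.2
      rw [e1, e2] at k2
      exact absurd k2 (by decide)
    · refine .inl ⟨⟨add_mem b.2.1 a1.1, ?_⟩, fun k => ?_⟩
      · show C.ep ((b.1 + a) cc) (C.T u) = 0
        rw [e1, e2]
        rfl
      · exact absurd (e2.symm.trans k.2) (by decide)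
  rw [← ((C.XL g0 u).addSubgroupOf (C.XL g0 t)).card_mul_index, h2, mul_comm,
    Nat.card_congr (AddSubgroup.addSubgroupOfEquivOfLe h1).toEquiv]

theorem ih_or (hp : 0 < C.disc) (h0 : C.G3 g0) {a : GQ → C.A} (ha : a ∈ C.RR g0) {t u : Fin 3}
    (e : a cc = C.T t) (h : t ≠ u) :
    ∃ k, Nat.card (C.XL g0 t) = 4 ^ k ∨ Nat.card (C.XL g0 u) = 4 ^ k := by
  obtain ⟨k, hk | hk⟩ := card_two h0 (X := C.XL g0 u) fun _ hb => hb.1.1
  · exact ⟨k, .inr hk⟩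
  · exact ⟨k + 1, .inl (by rw [ih_index hp ha e h, hk]; ring)⟩

theorem pos_zero (hp : 0 < C.disc) (h0 : C.G3 g0) (hB : BigH C.P0 C.N0) :
    ∃ ε : ℤ, (ε = 1 ∨ ε = -1) ∧ C.Res g0 ε True := by
  obtain ⟨i, j, hij, hi, hj, h⟩ := exists_Ln hp
  by_cases c : ∀ a ∈ C.RR g0, a cc = 0
  · obtain ⟨b, hb, e⟩ := pt_inf hp h0 hB c i
    obtain ⟨h3, h4⟩ := adm_XL hp h0 (.inl rfl) hi h0.fpf
    refine ⟨1, .inl rfl, res_three h0 (.inl rfl) h0.ok h0.fpf h4 (few_sub h0 (fun _ hb => hb.1.1)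
      h3 (Y := C.RR g0) (b := b) (fun a ha hl => ⟨ha.1.1, fun v hv h1 => ?_⟩)
      ⟨hb, by rw [e, ep_self]⟩ fun k => C.T_ne i (e.symm.trans (c b k))) fun _ => rfl⟩
    exact (hl v (.inr ⟨hv, h1⟩)).congr (fun g hg => (Dref_fin 1 hv h1 g hg).symm) fun _ _ => rfl
  have k : ∃ k, Nat.card (C.XL g0 i) = 4 ^ k ∨ Nat.card (C.XL g0 j) = 4 ^ k := by
    simp only [not_forall] at c
    obtain ⟨a, ha, a0⟩ := c
    obtain ⟨t, e⟩ := (C.tors2 (ha.1.1.two cc trivial)).resolve_left a0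
    rcases h t (ob_inf hp (mem_U_one.1 ha.1).1 ha.2 e) with rfl | rfl
    · exact ih_or hp h0 ha e hij
    · exact (ih_or hp h0 ha e hij.symm).imp fun _ => Or.symm
  obtain ⟨k, hk | hk⟩ := k
  exacts [⟨1, .inl rfl, ih_even hp h0 (.inl rfl) hi hk⟩,
    ⟨-1, .inr rfl, ih_even hp h0 (.inr rfl) hj hk⟩]

theorem pos_one (hp : 0 < C.disc) (h0 : C.G3 g0) {ε : ℤ} (hε : ε = 1 ∨ ε = -1) :
    C.Res g0 ε False := by
  obtain ⟨s, h1, h2⟩ := exists_s3 hp h0 hε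
  obtain ⟨a₀, h⟩ := few_one h0 SS_le
    (adm_SS h0 hε le_rfl fun b hb => Cb_of_fpf ((SS_le hb).1.two s trivial) h2)
  exact res_three h0 hε h1 h2 le_rfl h False.elim

end Cu

end Pool.Agent.SP
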