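import Pool.Agent.Lib.MP_696deb_nt.SP.IC
import Pool.Agent.Lib.MP_696deb_nt.SP.IH

/-! Curves without rational points of order two have prime twists of rank zero. -/

set_option autoImplicit false

open scoped Classical
open Finset Function

namespace Pool.Agent.SP

open Pool.Agent.Lib.MP_696deb_nt Pool.Agent.Lib.MP_696deb_nt.Sm
open Pool.Agent.Lib.MP_696deb_nt.B2 (cc jC)

namespace Cu

variable {C : Cu} {g0 : GQ} {D : ℤ}

/-- If no normalised class comes from level four, then none does. -/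
theorem nl_of (h0 : C.G3 g0) (h : ∀ A, C.IsSel D 2 A → A g0 = 0 → 2 • A = 0) : C.Nl D := by
  intro c hc
  obtain ⟨Q, h1, h2⟩ := h0.surj (hc.tors g0)
  have h3 := h _ (hc.sub Q (m := 2) fun g => by
    rw [smul_sub, hc.tors, ← Pi.smul_apply, ← cob_nsmul, h1, cob, tw_zero, sub_zero, sub_zero])
    (by rw [Pi.sub_apply, cob, h0.tw, h2, sub_self])
  refine ⟨2 • Q, by rw [smul_comm]; exact (congrArg _ h1).trans (smul_zero _), fun g => ?_⟩
  rw [cob_nsmul, ← sub_eq_zero, Pi.smul_apply, ← smul_sub]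
  exact congrFun h3 g

theorem res_one (h0 : C.G3 g0) {ε : ℤ} (hε : ε = 1 ∨ ε = -1) : C.Res g0 ε False :=
  C.disc_ne.lt_or_gt.elim (fun h => neg_one h h0 hε) fun h => pos_one h h0 hε

end Cu

theorem caseI (mw : MWStmt) {a b c : ℤ} (h : dsc a b c ≠ 0)
    (h0 : ∀ x : ℤ, x ^ 3 + a * x ^ 2 + b * x + c ≠ 0) : GoalF a b c := by
  obtain ⟨C₀, rfl, rfl, rfl, -⟩ := exists_Cu h 0
  obtain ⟨N, hN, hB⟩ := exists_big C₀.op_P0 C₀.N0
  let C := C₀.big N hN
  obtain ⟨g0, hg⟩ := C.exists_G3 h0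
  obtain ⟨ε, hε, U, s, h1, h2, h3⟩ := C.disc_ne.lt_or_gt.elim (fun h => Cu.neg_zero h hg)
    fun h => Cu.pos_zero h hg hB
  refine ⟨ε, U, s, N, hε, h1, h2, fun p hp k hf => ?_⟩
  obtain ⟨-, -, a₀, h4, h5⟩ := h3 p ⟨hp, k⟩ hf
  exact (mw C _ (Cu.tw1_prime (C := C) hε ⟨hp, k⟩).ne (Cu.nl_of hg fun A hA e =>
    (h5 A hA e).elim id fun e' => e'.trans (h4 trivial))).2

end Pool.Agent.SP
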