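import Pool.Agent.Lib.MP_696deb_nt.SP.IJ1
import Pool.Agent.Lib.MP_696deb_nt.SP.II
import Pool.Agent.Lib.MP_696deb_nt.B6.PTd

/-! Corank at most one. -/

set_option autoImplicit false

open scoped Classical
open Finset Function

namespace Pool.Agent.SP

open Pool.Agent.Lib.MP_696deb_nt Pool.Agent.Lib.MP_696deb_nt.Sm
open Pool.Agent.Lib.MP_696deb_nt.B2 (cc jC)

open Pool.Agent.B6 (Cw EE WZ cub Cork)

/-- Smooth cocycles with all local conditions. -/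
noncomputable def Cu.ijZ (C : Cu) (D : ℤ) : AddSubgroup (GQ → C.A) where
  carrier := {c | C.Coc D c ∧ LC c ∧ ∀ v : ℕ, v = 0 ∨ v.Prime → C.Loc v D c}
  zero_mem' := ⟨fun g _ => by simp [C.tw_zero], B2.Sm.const 0, fun v _ => C.loc_zero v D⟩
  add_mem' := fun {a b} h h' => ⟨fun g k => by
      simp only [Pi.add_apply, h.1 g k, h'.1 g k, C.tw_add]
      abel,
    h.2.1.comp₂ h'.2.1 (· + ·), fun v hv => (h.2.2 v hv).add (h'.2.2 v hv)⟩
  neg_mem' := fun {a} h => ⟨fun g k => by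
      rw [Pi.neg_apply, Pi.neg_apply, Pi.neg_apply, h.1 g k, ← neg_one_zsmul (a k), C.tw_zsmul,
        neg_one_zsmul, neg_add],
    h.2.1.comp (-·), fun v hv => neg_one_zsmul a ▸ (h.2.2 v hv).zsmul (-1)⟩

theorem Cu.ij_cob (C : Cu) (D : ℤ) (Q : C.A) : C.cob D Q ∈ C.ijZ D :=
  ⟨C.cob_mul D Q, C.lc_cob D Q, fun v _ => C.loc_cob v D Q⟩

theorem Cu.ij_sel {C : Cu} {D : ℤ} {n : ℕ} {c : GQ → C.A} :
    C.IsSel D n c ↔ c ∈ C.ijZ D ∧ 2 ^ n • c = 0 :=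
  ⟨fun h => ⟨⟨h.coc, h.lc, h.loc⟩, funext h.tors⟩,
    fun h => ⟨congrFun h.2, h.1.1, h.1.2.1, h.1.2.2⟩⟩

/-- Selmer cocycles can be normalised. -/
theorem Cu.ij_norm {C : Cu} {g0 : GQ} (h0 : C.G3 g0) {D : ℤ} {n : ℕ} {c : GQ → C.A}
    (h : C.IsSel D n c) :
    ∃ Q : C.A, 2 ^ n • Q = 0 ∧ C.IsSel D n (c - C.cob D Q) ∧ (c - C.cob D Q) g0 = 0 := by
  obtain ⟨Q, h1, h2⟩ := h0.surj (h.tors g0)
  refine ⟨Q, h1, Cu.ij_sel.2 ⟨sub_mem (Cu.ij_sel.1 h).1 (C.ij_cob D Q), ?_⟩, ?_⟩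
  · rw [smul_sub, (Cu.ij_sel.1 h).2, ← C.cob_nsmul, h1, zero_sub, neg_eq_zero]
    exact funext fun g => by rw [Cu.cob, C.tw_zero, sub_zero, Pi.zero_apply]
  · rw [Pi.sub_apply, Cu.cob, h0.tw, h2, sub_self]

theorem Cu.finite_sel {C : Cu} {g0 : GQ} (h0 : C.G3 g0) {D : ℤ} (hD : D ≠ 0) :
    {c | C.IsSel D 1 c}.Finite := by
  have h1 : (C.U g0 D : Set (GQ → C.A)).Finite := Set.finite_coe_iff.1 (Cu.finite_U h0 hD)
  refine ((h1.prod (C.finite_tors 1)).image fun t => t.1 + C.cob D t.2).subset fun c hc => ?_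
  obtain ⟨Q, k1, k2, k3⟩ := Cu.ij_norm h0 hc
  exact ⟨(c - C.cob D Q, Q), ⟨⟨k2.coc.z2 k2.lc k2.tors, k3, fun q hq e =>
    Cu.loc_good hq e k2.tors (k2.loc q (.inr hq.1))⟩, k1⟩, sub_add_cancel _ _⟩

theorem cork_of [Cw] {C : Cu} {g0 : GQ} (h0 : C.G3 g0) {ψ : EE →+ C.A} (hi : Injective ψ)
    (hg : ∀ (g : GQ) (P : EE), ψ (g • P) = C.act g (ψ P)) {D : ℤ} (hD : D ≠ 0) {a₀ : GQ → C.A}
    (h : ∀ A, C.IsSel D 2 A → A g0 = 0 → 2 • A = 0 ∨ 2 • A = a₀) : Cork D := by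
  have e1 : ∀ g, sn (chi D g) = B2.chi D g := fun g => by
    rcases F2_cases (chi D g) with k | k
    · rw [k, B2.xi_eq_zero.1 k]
      rfl
    · rw [k, B2.xi_eq_one.1 k]
      rfl
  have e2 : ∀ g P, ψ (B6.tw D g P) = C.tw D g (ψ P) := fun g P => by
    rw [B6.tw, Cu.tw, map_zsmul, hg, e1]
  have hT := Cu.finite_sel h0 hD
  let U : Finset (GQ → C.A) :=
    (({0, a₀} : Finset (GQ → C.A)) ×ˢ (C.finite_tors 1).toFinset).image fun t => t.1 + C.cob D t.2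
  have hU : U.card ≤ 8 := by
    refine card_image_le.trans ?_
    rw [card_product, ← Set.ncard_eq_toFinset_card _ (C.finite_tors 1), C.card_tors]
    exact Nat.mul_le_mul_right _ card_le_two
  refine ⟨hT.toFinset.card, fun m s hs => ?_⟩
  have hj : Injective fun (ξ : GQ → EE) (g : GQ) => ψ (ξ g) :=
    fun ξ ξ' k => funext fun g => hi (congrFun k g)
  rw [← card_image_of_injective s hj]
  refine (B6.card_tors (C.ijZ D) hT.toFinset U (fun z hz e => ?_) (fun z hz e => ?_) m _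
    fun z hz => ?_).trans (Nat.mul_le_mul_left _ (Nat.pow_le_pow_left hU m))
  · exact hT.mem_toFinset.2 (Cu.ij_sel.2 ⟨hz, e⟩)
  · obtain ⟨Q, k1, k2, k3⟩ := Cu.ij_norm h0 (Cu.ij_sel.2 ⟨hz, show 2 ^ 2 • z = 0 from e⟩)
    refine mem_image.2 ⟨(2 • (z - C.cob D Q), 2 • Q), mem_product.2 ⟨?_, ?_⟩, ?_⟩
    · rw [mem_insert, mem_singleton]
      exact h _ k2 k3
    · rw [Set.Finite.mem_toFinset, Set.mem_ofPred_eq, smul_smul]
      exact k1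
    · rw [C.cob_nsmul, ← smul_add, sub_add_cancel]
  · obtain ⟨ξ, hξ, rfl⟩ := mem_image.1 hz
    obtain ⟨h1, h2⟩ := hs ξ hξ
    have h3 : C.Coc D fun g => ψ (ξ g) := fun g k => by
      beta_reduce
      rw [h1.coc, map_add, e2]
    refine ⟨⟨h3, h1.sm.comp ψ, ?_⟩, funext fun g => ?_⟩
    · rintro v (rfl | hv)
      · obtain ⟨S, hS⟩ := h1.inf
        refine ⟨ψ S, fun g k => ?_⟩
        rcases loc_Gv0 k with rfl | rfl
        · have e := h3 1 1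
          rw [mul_one, Cu.tw, C.act_one, left_eq_add] at e
          have e3 : chi D 1 = 0 := by
            have e4 := chi_mul_g D 1 1
            rw [mul_one] at e4
            exact left_eq_add.1 e4
          rw [e3, sn_zero, one_zsmul] at e
          rw [Cu.cob, Cu.tw, e3, sn_zero, one_zsmul, C.act_one, sub_self]
          exact e
        · simp only [Cu.cob, ← e2, ← map_sub, hS]
      · obtain ⟨S, hS⟩ := h1.loc (pl v)
        refine ⟨ψ S, fun g k => ?_⟩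
        rw [Gv_prime hv] at k
        simp only [Cu.cob, ← e2, ← map_sub, hS g k]
    · rw [Pi.smul_apply, Pi.zero_apply, ← map_nsmul, pow_succ', mul_smul, h2, smul_zero, map_zero]

/-- For each sign, a class of primes whose twists have corank at most one and are squares at the
bad primes. -/
theorem cork_class [Cw] (h2 : ∀ x : ℚ, cub x ≠ 0) {ε : ℤ} (hε : ε = 1 ∨ ε = -1) :
    ∃ (U : Subgroup GQ) (s : GQ) (N : ℕ), B2.Op U ∧ U.Normal ∧ ∀ l : ℕ, l.Prime → N < l →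
      Frb U s l → Cork (ε * l) ∧ (ε * l) % 8 = 1 ∧ ¬ (l : ℤ) ∣ WZ.Δ ∧
        ∀ q : ℕ, q.Prime → q ≠ 2 → (q : ℤ) ∣ WZ.Δ → aleg q (ε * l) = 0 := by
  obtain ⟨C, g0, ψ, h0, hi, hg, hN⟩ := exists_model h2
  obtain ⟨U, s, h3, h4, h5⟩ := Cu.res_one h0 hε
  have k : ∀ q : ℕ, (q : ℤ) ∣ WZ.Δ → q ≤ C.N0 := fun q hq =>
    (Nat.le_of_dvd (Int.natAbs_pos.2 B6.WZ_ne) (Int.natCast_dvd.1 hq)).trans hN
  refine ⟨U, s, C.N0, h3, h4, fun l hl hl' hf => ?_⟩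
  obtain ⟨h6, h7, a₀, -, h8⟩ := h5 l ⟨hl, hl'⟩ hf
  exact ⟨cork_of h0 hi hg (Cu.tw1_prime (C := C) hε ⟨hl, hl'⟩).ne h8, h6,
    fun e => (k l e).not_gt hl', fun q hq q2 e => h7 q hq q2 (k q e)⟩

end Pool.Agent.SP
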