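import Pool.Agent.Lib.MP_696deb_nt.SP.II
import Pool.Agent.Lib.MP_696deb_nt.B6.PTd

/-! The change of model. -/

set_option autoImplicit false

open scoped Classical
open Finset Function

namespace Pool.Agent.SP

open Pool.Agent.Lib.MP_696deb_nt Pool.Agent.Lib.MP_696deb_nt.Sm
open Pool.Agent.Lib.MP_696deb_nt.B2 (cc jC)

open Pool.Agent.B6 (Cw EE WZ cub Cork)

/-- The change of model. -/
theorem exists_model [Cw] (h2 : ∀ x : ℚ, cub x ≠ 0) : ∃ (C : Cu) (g0 : GQ) (ψ : EE →+ C.A),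
    C.G3 g0 ∧ Injective ψ ∧ (∀ (g : GQ) (P : EE), ψ (g • P) = C.act g (ψ P)) ∧
      WZ.Δ.natAbs ≤ C.N0 := by
  obtain ⟨C, ha, hb, hc, hN⟩ := exists_Cu (a := WZ.b₂) (b := 8 * WZ.b₄) (c := 16 * WZ.b₆)
    (by
      have e : dsc WZ.b₂ (8 * WZ.b₄) (16 * WZ.b₆) = 256 * WZ.Δ := by
        rw [dsc, WeierstrassCurve.Δ]
        linear_combination (64 * WZ.b₂ ^ 2) * WZ.b_relation
      rw [e]
      exact mul_ne_zero (by norm_num) B6.WZ_ne) WZ.Δ.natAbs
  obtain ⟨g0, h0⟩ := C.exists_G3 fun x hx => h2 (x / 4) (by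
    rw [ha, hb, hc] at hx
    have := congrArg (Int.cast (R := ℚ)) hx
    push_cast at this
    rw [cub]
    linear_combination this / 16)
  have h : VC (RingHom.id Qb) (B6.Wu.baseChange Qb) (C.W Qb) 2 0 WZ.a₁ (4 * WZ.a₃) := by
    refine ⟨two_ne_zero, ?_, ?_, ?_, ?_, ?_⟩ <;>
      simp only [RingHom.id_apply, B6.Wu_a₁, B6.Wu_a₂, B6.Wu_a₃, B6.Wu_a₄, B6.Wu_a₆, Cu.W, ha, hb,
        hc, WeierstrassCurve.b₂, WeierstrassCurve.b₄, WeierstrassCurve.b₆] <;> push_cast <;> ring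
  refine ⟨C, g0, h.hom, h0, h.hom_injective, fun g P => ?_, hN⟩
  rcases P with _ | ⟨x, y, hP⟩
  · exact (map_zero (C.act g)).symm
  · obtain ⟨h', e⟩ := C.act_some g ((h.nonsingular x y).2 hP)
    refine Eq.trans ?_ e.symm
    change WeierstrassCurve.Affine.Point.some _ _ _ = _
    congr 1 <;> simp [map_ofNat]

end Pool.Agent.SP
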