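import Pool.Agent.Lib.MP_696deb_nt.SP.K0

/-! The two-torsion as a module with its pairing. -/

set_option autoImplicit false

open scoped Classical
open Finset Function

namespace Pool.Agent.SP

open Pool.Agent.Lib.MP_696deb_nt Pool.Agent.Lib.MP_696deb_nt.Sm

theorem sa1_int {K : Type} [CommRing K] {a b c : ℤ} {x : K}
    (h : x ^ 3 + a * x ^ 2 + b * x + c = 0) : IsIntegral ℤ x := by
  refine ⟨Polynomial.X ^ 3 + Polynomial.C a * Polynomial.X ^ 2 + Polynomial.C b * Polynomial.X +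
    Polynomial.C c, by monicity!, ?_⟩
  simpa only [Polynomial.eval₂_add, Polynomial.eval₂_mul, Polynomial.eval₂_X_pow,
    Polynomial.eval₂_X, Polynomial.eval₂_C, eq_intCast (algebraMap ℤ K)] using h

theorem sa1_roots (a b c : ℤ) : ∃ e : Fin 3 → Qb, (a : Qb) = -(e 0 + e 1 + e 2) ∧
    (b : Qb) = e 0 * e 1 + e 0 * e 2 + e 1 * e 2 ∧ (c : Qb) = -(e 0 * e 1 * e 2) := by
  obtain ⟨x, hx⟩ := IsAlgClosed.exists_root (Polynomial.X ^ 3 + Polynomial.C (a : Qb) *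
    Polynomial.X ^ 2 + Polynomial.C (b : Qb) * Polynomial.X + Polynomial.C (c : Qb)) (by
      rw [show Polynomial.degree _ = 3 by compute_degree!]
      decide)
  simp only [Polynomial.IsRoot, Polynomial.eval_add, Polynomial.eval_mul, Polynomial.eval_pow,
    Polynomial.eval_X, Polynomial.eval_C] at hx
  have hs := rt_mul_self ((a + x) ^ 2 - 4 * (b + x * (a + x)))
  generalize rt _ = s at hs
  refine ⟨![x, (-(a + x) + s) / 2, (-(a + x) - s) / 2], ?_, ?_, ?_⟩ <;>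
    simp only [Matrix.cons_val]
  · ring
  · linear_combination hs / 4
  · linear_combination hx - x * hs / 4

namespace Cu

variable (C : Cu) {S S' P : C.A}

theorem ep_zero_left (S : C.A) : C.ep 0 S = 0 := if_pos (.inl rfl)

theorem ep_zero_right (S : C.A) : C.ep S 0 = 0 := if_pos (.inr (.inl rfl))

theorem ep_self (S : C.A) : C.ep S S = 0 := if_pos (.inr (.inr rfl))

theorem ep_comm (S S' : C.A) : C.ep S S' = C.ep S' S := by
  unfold ep
  exact if_congr (by rw [or_left_comm, eq_comm (a := S) (b := S')]) rfl rfl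

theorem ep_T (i j : Fin 3) : C.ep (C.T i) (C.T j) = if i = j then 0 else 1 := by
  simp only [ep, C.T_ne, C.T_inj.eq_iff, false_or]

theorem ep_act (g : GQ) (S S' : C.A) : C.ep (C.act g S) (C.act g S') = C.ep S S' := by
  simp only [ep, map_eq_zero_iff _ (C.act_inj g), (C.act_inj g).eq_iff]

theorem T_add_ne {i j k : Fin 3} (h1 : i ≠ j) (h2 : i ≠ k) (h3 : j ≠ k) :
    C.T i + C.T j = C.T k := by
  have e : ∀ i j k : Fin 3, i ≠ j → i ≠ k → j ≠ k →
      j = i + 1 ∧ k = i + 2 ∨ i = j + 1 ∧ k = j + 2 := by decide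
  rcases e i j k h1 h2 h3 with ⟨rfl, rfl⟩ | ⟨rfl, rfl⟩
  · exact C.T_add i
  · exact (add_comm _ _).trans (C.T_add j)

theorem ep_add_left (h : 2 • S = 0) (h' : 2 • S' = 0) (hP : 2 • P = 0) :
    C.ep (S + S') P = C.ep S P + C.ep S' P := by
  rcases C.tors2 h with rfl | ⟨i, rfl⟩
  · rw [zero_add, ep_zero_left, zero_add]
  rcases C.tors2 h' with rfl | ⟨j, rfl⟩
  · rw [add_zero, ep_zero_left, add_zero]
  rcases C.tors2 hP with rfl | ⟨k, rfl⟩
  · rw [ep_zero_right, ep_zero_right, ep_zero_right, add_zero]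
  by_cases e : i = j
  · rw [e, T_add_self, ep_zero_left, CharTwo.add_self_eq_zero]
  have e1 : ∀ i j : Fin 3, i ≠ j → ∃ l, i ≠ l ∧ j ≠ l ∧ ∀ k, (if l = k then 0 else 1 : F2) =
      (if i = k then 0 else 1) + if j = k then 0 else 1 := by decide
  obtain ⟨l, h1, h2, h3⟩ := e1 i j e
  rw [C.T_add_ne e h1 h2, ep_T, ep_T, ep_T, h3]

theorem ep_add_right (h : 2 • S = 0) (h' : 2 • S' = 0) (hP : 2 • P = 0) :
    C.ep P (S + S') = C.ep P S + C.ep P S' := by
  rw [ep_comm, C.ep_add_left h h' hP, C.ep_comm P, C.ep_comm P]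

theorem ep_smul_left (k : F2) (S P : C.A) : C.ep (k.val • S) P = k * C.ep S P := by
  rcases F2_cases k with rfl | rfl
  · rw [ZMod.val_zero, zero_nsmul, zero_mul, ep_zero_left]
  · rw [ZMod.val_one, one_nsmul, one_mul]

theorem ep_smul_right (k : F2) (S P : C.A) : C.ep P (k.val • S) = k * C.ep P S := by
  rw [ep_comm, ep_smul_left, ep_comm]

theorem ep_sum_left {ι : Type} (s : Finset ι) {f : ι → C.A} (h : ∀ i ∈ s, 2 • f i = 0)
    (hP : 2 • P = 0) : C.ep (∑ i ∈ s, f i) P = ∑ i ∈ s, C.ep (f i) P := by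
  induction s using Finset.induction_on with
  | empty => rw [sum_empty, sum_empty, ep_zero_left]
  | insert i s hi ih =>
    have h1 : ∀ j ∈ s, 2 • f j = 0 := fun j hj => h j (mem_insert_of_mem hj)
    rw [sum_insert hi, sum_insert hi, C.ep_add_left (h i (mem_insert_self i s))
      (by rw [smul_sum, sum_eq_zero h1]) hP, ih h1]

theorem ep_zsmul_left (k : ℤ) (h : 2 • S = 0) (hP : 2 • P = 0) :
    C.ep (k • S) P = (k : F2) * C.ep S P := by
  have e : ∀ q : ℤ, (2 * q) • S = 0 := fun q => by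
    rw [mul_comm, mul_smul, ofNat_zsmul, h, smul_zero]
  have e2 : ∀ q : ℤ, ((2 * q : ℤ) : F2) = 0 := fun q => by
    rw [two_mul, Int.cast_add, CharTwo.add_self_eq_zero]
  have _ := hP
  obtain ⟨q, rfl | rfl⟩ := Int.even_or_odd' k
  · rw [e, e2, zero_mul, ep_zero_left]
  · rw [add_smul, e, Int.cast_add, e2, zero_add, zero_add, one_smul, Int.cast_one, one_mul]

theorem ep_T_eq_zero (i : Fin 3) : C.ep S (C.T i) = 0 ↔ S = 0 ∨ S = C.T i := by
  simp only [ep, C.T_ne, false_or, ite_eq_left_iff, one_ne_zero, imp_false, not_not]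

theorem sum_ep (h : 2 • S = 0) : ∑ i, C.ep S (C.T i) = 0 := by
  rcases C.tors2 h with rfl | ⟨j, rfl⟩
  · exact sum_eq_zero fun i _ => C.ep_zero_left _
  · simp only [ep_T]
    clear h
    revert j
    decide

theorem eq_zero_of_ep (h : ∀ i, C.ep S (C.T i) = 0) : S = 0 := by
  refine ((C.ep_T_eq_zero 0).1 (h 0)).elim id fun h0 =>
    ((C.ep_T_eq_zero 1).1 (h 1)).elim id fun h1 => ?_
  exact absurd (C.T_inj (h0.symm.trans h1)) (by decide)

theorem two_smul_val (k : F2) (h : 2 • S = 0) : 2 • k.val • S = 0 := by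
  rw [smul_comm, h, smul_zero]

theorem neg_two (h : 2 • S = 0) : -S = S := by
  rwa [neg_eq_iff_add_eq_zero, ← two_nsmul]

theorem two_act (g : GQ) (h : 2 • S = 0) : 2 • C.act g S = 0 := by
  rw [← map_nsmul, h, map_zero]

theorem two_pr (x : Fin 3 → F2) : 2 • C.pr x = 0 := by
  rw [pr, smul_sum]
  exact sum_eq_zero fun i _ => C.two_smul_val _ (C.two_T i)

theorem pr_add (x y : Fin 3 → F2) : C.pr (x + y) = C.pr x + C.pr y := by
  rw [pr, pr, pr, ← sum_add_distrib]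
  exact sum_congr rfl fun i _ => ell_two (C.two_T i) _ _

theorem pr_const (t : F2) : C.pr (fun _ => t) = 0 := by
  rw [pr, ← smul_sum, Fin.sum_univ_three, show C.T 0 + C.T 1 = C.T 2 from C.T_add 0, T_add_self,
    smul_zero]

theorem pr_single (i : Fin 3) : C.pr (fun j => if j = i then 1 else 0) = C.T i := by
  rw [pr, sum_eq_single i (fun j _ h => by rw [if_neg h, ZMod.val_zero, zero_nsmul])
    fun h => absurd (mem_univ i) h, if_pos rfl, ZMod.val_one, one_nsmul]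

theorem ep_pr (x : Fin 3 → F2) (i : Fin 3) : C.ep (C.pr x) (C.T i) = x i + ∑ j, x j := by
  rw [pr, C.ep_sum_left _ (fun j _ => C.two_smul_val _ (C.two_T j)) (C.two_T i)]
  simp only [ep_smul_left, ep_T, Fin.sum_univ_three]
  have e : ∀ a b c : F2, (a * 0 + b * 1 + c * 1 = a + (a + b + c) ∧
      a * 1 + b * 0 + c * 1 = b + (a + b + c)) ∧ a * 1 + b * 1 + c * 0 = c + (a + b + c) := by
    decide
  rcases fin3 i with rfl | rfl | rfl
  exacts [(e _ _ _).1.1, (e _ _ _).1.2, (e _ _ _).2]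

theorem pr_ep (h : 2 • S = 0) : C.pr (fun i => C.ep S (C.T i)) = S := by
  rw [← C.neg_two h, eq_neg_iff_add_eq_zero, C.neg_two h]
  refine C.eq_zero_of_ep fun i => ?_
  rw [C.ep_add_left (C.two_pr _) h (C.two_T i), ep_pr, C.sum_ep h, add_zero,
    CharTwo.add_self_eq_zero]

theorem act_pr (g : GQ) (x : Fin 3 → F2) :
    C.act g (C.pr x) = C.pr fun i => x (C.pm g⁻¹ i) := by
  rw [pr, pr, map_sum]
  exact Fintype.sum_bijective _ (C.pm_bij g) _ _ fun i => by rw [map_nsmul, act_T, inv_pm]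

theorem sa1_tors (n : ℕ) : ∃ F : C.A × F2 × F2 → C.A, Injective F ∧
    {P : C.A | 2 ^ (n + 1) • P = 0} = F '' ({P : C.A | 2 ^ n • P = 0} ×ˢ Set.univ) := by
  choose hf e using C.exists_half
  have h1 : ∀ P x, 2 • (hf P + C.pr x) = P := fun P x => by rw [nsmul_add, e, two_pr, add_zero]
  refine ⟨fun t => hf t.1 + C.pr ![t.2.1, t.2.2, 0], ?_, Set.ext fun P => ⟨fun hP => ?_, ?_⟩⟩
  · rintro ⟨P, a, b⟩ ⟨P', a', b'⟩ h
    have h2 : hf P + C.pr ![a, b, 0] = hf P' + C.pr ![a', b', 0] := h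
    obtain rfl : P = P' := by rw [← h1 P ![a, b, 0], h2, h1]
    have h3 := fun i => (C.ep_pr _ i).symm.trans
      ((congrArg (C.ep · (C.T i)) (add_left_cancel h2)).trans (C.ep_pr _ i))
    have h4 : ∀ a b a' b' : F2, (∀ i, ![a, b, 0] i + ∑ j, ![a, b, 0] j =
      ![a', b', 0] i + ∑ j, ![a', b', 0] j) → a = a' ∧ b = b' := by decide
    obtain ⟨rfl, rfl⟩ := h4 a b a' b' h3
    rfl
  · have h2 := C.pr_ep (S := P - hf (2 • P)) (by rw [nsmul_sub, e, sub_self])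
    generalize (fun i => C.ep (P - hf (2 • P)) (C.T i)) = x at h2
    refine ⟨(2 • P, x 0 + x 2, x 1 + x 2), ⟨?_, trivial⟩, ?_⟩
    · change 2 ^ n • 2 • P = 0
      rw [← mul_nsmul', ← pow_succ]
      exact hP
    · change hf (2 • P) + C.pr ![x 0 + x 2, x 1 + x 2, 0] = P
      have h3 : ![x 0 + x 2, x 1 + x 2, 0] = x + fun _ => x 2 := by
        funext i
        rcases fin3 i with rfl | rfl | rfl
        exacts [rfl, rfl, (CharTwo.add_self_eq_zero (x 2)).symm]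
      rw [h3, pr_add, pr_const, add_zero, h2, add_sub_cancel]
  · rintro ⟨⟨Q, a, b⟩, ⟨hQ, -⟩, rfl⟩
    change 2 ^ (n + 1) • (hf Q + C.pr ![a, b, 0]) = 0
    rw [pow_succ, mul_nsmul', h1]
    exact hQ

theorem finite_tors (n : ℕ) : {P : C.A | 2 ^ n • P = 0}.Finite := by
  induction n with
  | zero => simp
  | succ n ih =>
    obtain ⟨F, -, e⟩ := C.sa1_tors n
    rw [e]
    exact (ih.prod Set.finite_univ).image F

theorem card_tors (n : ℕ) : {P : C.A | 2 ^ n • P = 0}.ncard = 4 ^ n := by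
  induction n with
  | zero => simp
  | succ n ih =>
    obtain ⟨F, hF, e⟩ := C.sa1_tors n
    rw [e, Set.ncard_image_of_injective _ hF, Set.ncard_prod, ih, Set.ncard_univ, Nat.card_prod,
      Nat.card_zmod, pow_succ]

/-- The element of order three has no fixed torsion point. -/
theorem G3.fix {C : Cu} {g0 : GQ} (h0 : C.G3 g0) {P : C.A} {n : ℕ} (h : 2 ^ n • P = 0)
    (hP : C.act g0 P = P) : P = 0 := by
  induction n generalizing P with
  | zero => simpa using h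
  | succ n ih =>
    have h2 : 2 • P = 0 := ih (by rwa [← mul_nsmul', ← pow_succ]) (by rw [map_nsmul, hP])
    rcases C.tors2 h2 with h3 | ⟨i, rfl⟩
    · exact h3
    · rw [act_T, h0.1] at hP
      have e : ∀ i : Fin 3, i + 1 ≠ i := by decide
      exact absurd (C.T_inj hP) (e i)

theorem G3.surj {C : Cu} {g0 : GQ} (h0 : C.G3 g0) {P : C.A} {n : ℕ} (h : 2 ^ n • P = 0) :
    ∃ Q : C.A, 2 ^ n • Q = 0 ∧ C.act g0 Q - Q = P := by
  have h1 : Set.MapsTo (fun Q => C.act g0 Q - Q) {Q : C.A | 2 ^ n • Q = 0}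
      {Q : C.A | 2 ^ n • Q = 0} := fun Q hQ => by
    change 2 ^ n • (C.act g0 Q - Q) = 0
    rw [nsmul_sub, ← map_nsmul, show 2 ^ n • Q = 0 from hQ, map_zero, sub_zero]
  have h2 := ((C.finite_tors n).injOn_iff_bijOn_of_mapsTo h1).1 fun Q hQ Q' hQ' e =>
    sub_eq_zero.1 (h0.fix (n := n) (by
      rw [nsmul_sub, show 2 ^ n • Q = 0 from hQ, show 2 ^ n • Q' = 0 from hQ', sub_zero]) (by
      rw [map_sub]
      exact sub_eq_sub_iff_sub_eq_sub.1 e))
  exact h2.surjOn h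

/-- An element that fixes exactly one root. -/
theorem exists_sub {g : GQ} {t : Fin 3} (h : ∀ i, C.pm g i = i ↔ i = t) :
    ∃ S : C.A, 2 • S = 0 ∧ C.act g S - S = C.T t := by
  have e : ∀ i : Fin 3, i + 1 ≠ i := by decide
  refine ⟨C.T (t + 1), C.two_T _, ?_⟩
  rw [act_T, sub_eq_add_neg, C.neg_two (C.two_T _)]
  refine C.T_add_ne (fun k => e t ((h _).1 k)) (fun k => e t (C.pm_inj g ?_)) (e t)
  rw [k, (h t).2 rfl]

/-- The three types of permutations, by the number of fixed roots. -/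
theorem pm_cases (g : GQ) : (∀ i, C.pm g i = i) ∨ (∃ t, ∀ i, C.pm g i = i ↔ i = t) ∨
    ∀ i, C.pm g i ≠ i := by
  have e : ∀ f : Fin 3 → Fin 3, Injective f →
      (∀ i, f i = i) ∨ (∃ t, ∀ i, f i = i ↔ i = t) ∨ ∀ i, f i ≠ i := by decide
  exact e _ (C.pm_inj g)

theorem chi_disc (g : GQ) : chi C.disc g = 1 ↔ ∃ t, ∀ i, C.pm g i = i ↔ i = t := by
  have e : ∀ f : Fin 3 → Fin 3, Injective f → (¬ ∃ t, ∀ i, f i = i ↔ i = t) ∧
      (f 0 = 0 ∧ f 1 = 1 ∧ f 2 = 2 ∨ f 0 = 1 ∧ f 1 = 2 ∧ f 2 = 0 ∨ f 0 = 2 ∧ f 1 = 0 ∧ f 2 = 1) ∨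
      (∃ t, ∀ i, f i = i ↔ i = t) ∧
      (f 0 = 0 ∧ f 1 = 2 ∧ f 2 = 1 ∨ f 0 = 2 ∧ f 1 = 1 ∧ f 2 = 0 ∨ f 0 = 1 ∧ f 1 = 0 ∧ f 2 = 2) := by
    decide
  have h0 : (C.disc : Qb) ≠ 0 := Int.cast_ne_zero.2 C.disc_ne
  have h1 : g C.del = (C.e (C.pm g 0) - C.e (C.pm g 1)) * (C.e (C.pm g 0) - C.e (C.pm g 2)) *
      (C.e (C.pm g 1) - C.e (C.pm g 2)) := by simp only [del, map_mul, map_sub, e_pm]
  rcases e _ (C.pm_inj g) with ⟨h2, h3⟩ | ⟨h2, h3⟩
  · have h4 : chi C.disc g = 0 := chB_eq h0 C.del_sq (by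
      rw [h1, sn_zero, Int.cast_one, del]
      rcases h3 with ⟨a, b, c⟩ | ⟨a, b, c⟩ | ⟨a, b, c⟩ <;> rw [a, b, c] <;> ring)
    exact iff_of_false (by rw [h4]; exact zero_ne_one) h2
  · refine iff_of_true (chB_eq h0 C.del_sq ?_) h2
    rw [h1, sn_one, Int.cast_neg, Int.cast_one, del]
    rcases h3 with ⟨a, b, c⟩ | ⟨a, b, c⟩ | ⟨a, b, c⟩ <;> rw [a, b, c] <;> ring

theorem act_del (g : GQ) : g C.del = (sn (chi C.disc g) : Qb) * C.del :=
  chB_spec C.del_sq (map_intCast g _)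

theorem pm_isCC (hn : C.disc < 0) {g : GQ} (h : B2.IsCC g) : ∃ t, ∀ i, C.pm g i = i ↔ i = t := by
  obtain ⟨j, hj⟩ := h
  refine (C.chi_disc g).1 ((F2_cases _).resolve_left fun h0 => ?_)
  have h1 := hj C.del
  rw [act_del, h0, sn_zero, Int.cast_one, one_mul] at h1
  obtain ⟨r, hr⟩ := Complex.conj_eq_iff_real.1 h1.symm
  have h2 := congrArg j C.del_sq
  rw [map_mul, hr, map_intCast] at h2
  have h3 : r * r = C.disc := by exact_mod_cast h2
  have h4 : (C.disc : ℝ) < 0 := Int.cast_lt_zero.2 hn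
  exact (h3 ▸ mul_self_nonneg r).not_gt h4

theorem ty2_iff {p : ℕ} : C.Ty2 p ↔ C.Gp p ∧ chi C.disc (frb p) = 1 := by
  rw [chi_disc]
  refine and_congr_right fun _ => ⟨fun h => ⟨_, h⟩, fun ⟨t, h⟩ => ?_⟩
  have h1 : ∃ i, C.pm (frb p) i = i := ⟨t, (h t).2 rfl⟩
  rw [tp, dif_pos h1, (h _).1 h1.choose_spec]
  exact h

theorem Ty2.fix {C : Cu} {p : ℕ} (h : C.Ty2 p) : C.pm (frb p) (C.tp p) = C.tp p := (h.2 _).2 rfl

theorem int_e (i : Fin 3) : IsIntegral ℤ (C.e i) := by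
  exact sa1_int (C.root i)

end Cu

/-- A cubic of nonzero discriminant gives the data. -/
theorem exists_Cu {a b c : ℤ} (h : dsc a b c ≠ 0) (N : ℕ) :
    ∃ C : Cu, C.a = a ∧ C.b = b ∧ C.c = c ∧ N ≤ C.N0 := by
  obtain ⟨e, ha, hb, hc⟩ := sa1_roots a b c
  exact ⟨⟨a, b, c, e, (dsc a b c).natAbs + 2 + N, ha, hb, hc, h, Nat.le_add_right _ _⟩, rfl, rfl, rfl,
    Nat.le_add_left _ _⟩

/-- A cubic without integral root has an automorphism of order three. -/
theorem Cu.exists_G3 (C : Cu) (h0 : ∀ x : ℤ, x ^ 3 + C.a * x ^ 2 + C.b * x + C.c ≠ 0) :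
    ∃ g, C.G3 g := by
  have h7 : ∀ i, ∃ g, C.pm g i ≠ i := fun i => by
    by_contra! k
    obtain ⟨r, hr⟩ := B2.fx_top (x := C.e i) fun g _ => by rw [C.e_pm, k]
    have k1 := C.root i
    rw [hr] at k1
    have k2 : r ^ 3 + C.a * r ^ 2 + C.b * r + C.c = 0 := by exact_mod_cast k1
    obtain ⟨y, rfl⟩ := IsIntegrallyClosed.isIntegral_iff.1 (sa1_int k2)
    rw [eq_intCast] at k2
    exact h0 y (by exact_mod_cast k2)
  have k1 : ∀ (u v : Fin 3 → Fin 3) (t s i : Fin 3), Injective u ∧ Injective v ∧ u 0 ≠ 0 ∧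
      u t = t ∧ v t ≠ t ∧ v s = s → u (v i) ≠ i := by decide
  have k2 : ∀ u : Fin 3 → Fin 3, Injective u → (∀ i, u i ≠ i) →
      (∀ i, u (u i) = i + 1) ∨ ∀ i, u (u (u (u i))) = i + 1 := by decide
  have k4 : ∃ g, ∀ i, C.pm g i ≠ i := by
    obtain ⟨g, hg⟩ := h7 0
    by_contra! k
    obtain ⟨t, ht⟩ := k g
    obtain ⟨g', hg'⟩ := h7 t
    obtain ⟨s, hs⟩ := k g'
    obtain ⟨i, hi⟩ := k (g * g')
    exact k1 _ _ t s i ⟨C.pm_inj g, C.pm_inj g', hg, ht, hg', hs⟩ ((C.pm_mul g g' i).symm.trans hi)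
  obtain ⟨g, hg⟩ := k4
  rcases k2 _ (C.pm_inj g) hg with k5 | k5
  · exact ⟨g * g, fun i => by rw [C.pm_mul, k5], fun d => by
      rw [chi_mul_g]; exact CharTwo.add_self_eq_zero _⟩
  · exact ⟨g * g * (g * g), fun i => by rw [C.pm_mul, C.pm_mul, C.pm_mul, k5], fun d => by
      rw [chi_mul_g]; exact CharTwo.add_self_eq_zero _⟩

end Pool.Agent.SP
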