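import Pool.Agent.Lib.MP_696deb_nt.SP.K2
import Pool.Agent.Lib.MP_696deb_nt.B2.CF

/-! The local pairing and the reciprocity law. -/

set_option autoImplicit false

open scoped Classical
open Finset Function

namespace Pool.Agent.SP

open Pool.Agent.Lib.MP_696deb_nt Pool.Agent.Lib.MP_696deb_nt.Sm

/-- A system of local invariants. -/
noncomputable def cft : B2.CFT := Classical.choice B2.exists_cft

namespace Cu

/-- The cup product of two cocycles. -/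
noncomputable def cu (C : Cu) (u b : GQ → C.A) (g h : GQ) : F2 := C.ep (u g) (C.act g (b h))

/-- The local pairing. -/
noncomputable def Bv (C : Cu) (v : ℕ) (u b : GQ → C.A) : F2 := cft.inv 1 ⊤ (pl v) (C.cu u b)

variable {C : Cu} {H : Subgroup GQ} {u u' b b' : GQ → C.A} {v p : ℕ}

theorem sa3_G (hv : v.Prime) : ⊤ ⊓ Dec (pl v) = Gv v := by rw [top_inf_eq, Gv_prime hv]

theorem sa3_act {g g' : GQ} (h : C.pm g = C.pm g') {S : C.A} (hS : 2 • S = 0) :
    C.act g S = C.act g' S := by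
  rcases C.tors2 hS with rfl | ⟨i, rfl⟩
  · rw [map_zero, map_zero]
  · rw [act_T, act_T, h]

theorem sa3_spl {c : GQ → GQ → F2} {f : GQ → F2} (h1 : B2.Sm H f)
    (h2 : ∀ g ∈ H, ∀ h ∈ H, f (g * h) + c g h = f g + f h) : B2.Spl 1 H c :=
  ⟨f, h1, fun g hg h hh => by
    rw [B2.cy_one_eq, one_mul]
    exact eq_sub_of_add_eq' (h2 g hg h hh)⟩

theorem c2_cu (h : C.Z2 H u) (k : C.Z2 H b) : B2.C2 1 H (C.cu u b) := by
  refine ⟨?_, fun g hg l hl m hm => ?_⟩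
  · obtain ⟨U, a1, a2, a3⟩ := (h.sm.comp₂ (C.sm_pm H) Prod.mk).left.comp₂ k.sm.right Prod.mk
    refine ⟨U, a1, a2, fun g hg g' hg' l hl l' hl' k1 k2 => ?_⟩
    obtain ⟨e1, e3⟩ := Prod.ext_iff.1 (a3 g hg g' hg' l hl l' hl' k1 k2)
    obtain ⟨e1, e2⟩ := Prod.ext_iff.1 e1
    dsimp only at e1 e2 e3
    rw [cu, cu, e1, e3, sa3_act e2 (k.two l' hl')]
  · rw [B2.cy_one_eq, one_mul]
    show C.cu u b l m + C.cu u b g (l * m) = C.cu u b (g * l) m + C.cu u b g l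
    have t1 := C.two_act g (C.two_act l (k.two m hm))
    rw [cu, cu, cu, cu, h.coc g hg l hl, k.coc l hl m hm, map_add, act_mul, ← C.ep_act g (u l),
      C.ep_add_left (h.two g hg) (C.two_act g (h.two l hl)) t1,
      C.ep_add_right (C.two_act g (k.two l hl)) t1 (h.two g hg)]
    ring

theorem Bv_eq_zero (hv : v.Prime) (h : C.Z2 (Gv v) u) (k : C.Z2 (Gv v) b) :
    C.Bv v u b = 0 ↔ B2.Spl 1 (Gv v) (C.cu u b) := by
  rw [← sa3_G hv] at h k ⊢
  exact cft.zero_iff isOpen_univ (c2_cu h k)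

theorem Bv_congr (hv : v.Prime) (h : ∀ g ∈ Gv v, u g = u' g) (k : ∀ g ∈ Gv v, b g = b' g) :
    C.Bv v u b = C.Bv v u' b' := by
  rw [← sa3_G hv] at h k
  exact cft.congr fun g hg l hl => by rw [cu, cu, h g hg, k l hl]

theorem Bv_add_left (hv : v.Prime) (h : C.Z2 (Gv v) u) (h' : C.Z2 (Gv v) u') (k : C.Z2 (Gv v) b) :
    C.Bv v (u + u') b = C.Bv v u b + C.Bv v u' b := by
  rw [← sa3_G hv] at h h' k
  exact (cft.congr fun g hg l hl => C.ep_add_left (h.two g hg) (h'.two g hg)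
    (C.two_act g (k.two l hl))).trans (cft.add isOpen_univ (c2_cu h k) (c2_cu h' k))

theorem Bv_comm (hv : v.Prime) (h : C.Z2 (Gv v) u) (k : C.Z2 (Gv v) b) :
    C.Bv v u b = C.Bv v b u := by
  rw [← sa3_G hv] at h k
  have k1 := c2_cu h k
  have k2 := c2_cu k h
  refine CharTwo.add_eq_zero.1 ((cft.add isOpen_univ k1 k2).symm.trans
    ((cft.zero_iff isOpen_univ (k1.add k2)).2 (sa3_spl (h.sm.comp₂ k.sm C.ep)
      fun g hg l hl => ?_)))
  have t1 := C.two_act g (h.two l hl)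
  have t2 := C.two_act g (k.two l hl)
  show C.ep (u (g * l)) (b (g * l)) + (C.cu u b g l + C.cu b u g l) = _
  rw [cu, cu, h.coc g hg l hl, k.coc g hg l hl,
    C.ep_add_left (h.two g hg) t1 (by rw [smul_add, k.two g hg, t2, add_zero]),
    C.ep_add_right (k.two g hg) t2 (h.two g hg), C.ep_add_right (k.two g hg) t2 t1, ep_act,
    C.ep_comm (b g)]
  have e : ∀ x y z t : F2, x + y + (z + t) + (y + z) = x + t := by decide
  exact e _ _ _ _

theorem Bv_add_right (hv : v.Prime) (h : C.Z2 (Gv v) u) (k : C.Z2 (Gv v) b)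
    (k' : C.Z2 (Gv v) b') : C.Bv v u (b + b') = C.Bv v u b + C.Bv v u b' := by
  rw [Bv_comm hv h (k.add k'), Bv_add_left hv k k' h, Bv_comm hv h k, Bv_comm hv h k']

theorem spl_cob {S : C.A} (hS : 2 • S = 0) (h : ∀ g ∈ H, u g = C.act g S - S) (k : C.Z2 H b) :
    B2.Spl 1 H (C.cu u b) := by
  refine sa3_spl (k.sm.comp (C.ep S)) fun g hg l hl => ?_
  have t2 := C.two_act g (k.two l hl)
  rw [cu, h g hg, k.coc g hg l hl, sub_eq_add_neg, C.neg_two hS,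
    C.ep_add_left (C.two_act g hS) hS t2, C.ep_add_right (k.two g hg) t2 hS, ep_act]
  have e : ∀ x y z : F2, x + y + (z + y) = x + z := by decide
  exact e _ _ _

theorem Bv_cob (hv : v.Prime) {S : C.A} (hS : 2 • S = 0) (h : ∀ g ∈ Gv v, u g = C.act g S - S)
    (k : C.Z2 (Gv v) b) : C.Bv v u b = 0 :=
  (Bv_eq_zero hv ((z2_cob _ hS).congr h) k).2 (spl_cob hS h k)

theorem Bv_zero (hv : v.Prime) (h : ∀ g ∈ Gv v, u g = 0) (k : C.Z2 (Gv v) b) : C.Bv v u b = 0 :=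
  Bv_cob hv (nsmul_zero 2) (fun g hg => by rw [h g hg, map_zero, sub_zero]) k

theorem sa3_unr {w : Plc} (h : C.Z2 (⊤ ⊓ Dec w) u) (k : C.Z2 (⊤ ⊓ Dec w) b)
    (h0 : ∀ g ∈ Ine w, u g = 0 ∧ b g = 0 ∧ ∀ S : C.A, 2 • S = 0 → C.act g S = S) :
    cft.inv 1 ⊤ w (C.cu u b) = 0 := by
  refine cft.unr isOpen_univ (c2_cu h k) fun g hg l hl σ hσ τ hτ => ?_
  rw [cu, cu, h.coc g hg σ ⟨trivial, hσ.2.1⟩, k.coc l hl τ ⟨trivial, hτ.2.1⟩, (h0 σ hσ.2).1,
    (h0 τ hτ.2).2.1, map_zero, map_zero, add_zero, add_zero, act_mul,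
    (h0 σ hσ.2).2.2 _ (k.two l hl)]

/-- The tame formula. -/
theorem Bv_tame (hp : C.Gp p) (h : C.Z2 (Gv p) u) (k : C.Z2 (Gv p) b) (h0 : u (sig p) = 0) :
    C.Bv p u b = C.ep (u (frb p)) (b (sig p)) := by
  have s1 := sig_mem hp.1 hp.ne_two
  have t0 := k.two _ s1
  have f0 := k.sig_fix hp
  have k1 := z2_chi (H := Gv p) p t0 f0
  have k2 := k.sub k1
  have u0 : ∀ g ∈ Iv p, u g = 0 := fun g hg => by rw [h.ine hp hg, h0, smul_zero]
  have e1 : C.Bv p u (b - fun g => (chi p g).val • b (sig p)) = 0 :=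
    sa3_unr (sa3_G hp.1 ▸ h) (sa3_G hp.1 ▸ k2) fun g hg =>
      ⟨u0 g hg, sub_eq_zero.2 (k.ine hp hg), fun S hS => hp.act_ine hg hS⟩
  have e2 := Bv_add_right hp.1 h k1 k2
  rw [add_sub_cancel, e1, add_zero] at e2
  rw [← sa3_G hp.1] at h f0
  have e3 := cft.kum (m := 1) (H := ⊤) (w := pl p) (χ := fun g => C.ep (u g) (b (sig p)))
    (κ := B2.xi p) (a := ((p : ℤ) : Qb)) (φ := frb p) 1 isOpen_univ le_top trivial
    (by rw [top_inf_eq, Subgroup.relIndex_self, pow_one, pl_p hp.1]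
        exact (frb_spec hp.1 hp.ne_two).1)
    (h.sm.comp fun x => C.ep x (b (sig p)))
    (fun g hg l hl => by
      show C.ep _ _ = C.ep _ _ + C.ep _ _
      rw [h.coc g hg l hl, C.ep_add_left (h.two g hg) (C.two_act g (h.two l hl)) t0,
        ← C.ep_act g (u l), f0 g hg])
    (fun g hg => by rw [u0 g hg, ep_zero_left])
    (B2.kum_xi (Int.natCast_ne_zero.2 hp.1.ne_zero))
    (by rw [zpow_one, ← (pl p).hV, pl_p hp.1, Int.cast_natCast])
  rw [Int.cast_one, mul_one] at e3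
  refine e2.trans (Eq.trans (cft.congr fun g hg l _ => ?_) e3)
  rw [B2.cup, B2.cy_one_eq, mul_one, cu, map_nsmul, f0 g hg, ep_smul_right]
  exact mul_comm _ _

/-- The reciprocity law. -/
theorem recip (h : C.Z2 ⊤ u) (k : C.Z2 ⊤ b) (hi0 : B2.Spl 1 (Gv 0) (C.cu u b)) (V : Finset ℕ)
    (hV : ∀ v ∈ V, v.Prime)
    (h0 : ∀ v : ℕ, v.Prime → v ∉ V → C.Gp v ∧ u (sig v) = 0 ∧ b (sig v) = 0) :
    ∑ v ∈ V, C.Bv v u b = 0 := by
  have hi : Set.InjOn pl V := fun v hv w hw e => by rw [← pl_p (hV v hv), e, pl_p (hV w hw)]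
  have key := cft.recip (V.image pl) isOpen_univ (c2_cu h k)
    (.inr ⟨rfl, Gv_zero ▸ hi0⟩) (fun x hx y hy g _ e => by
      obtain ⟨v, hv, rfl⟩ := mem_image.1 hx
      obtain ⟨w, hw, rfl⟩ := mem_image.1 hy
      have := congrArg B2.Plc.p e
      rw [B2.smul_p, pl_p (hV v hv), pl_p (hV w hw)] at this
      rw [this]) fun w hw => by
      obtain ⟨a1, a2, a3⟩ := h0 w.p w.prime fun m => by
        obtain ⟨g, hg⟩ := B2.plc_conj (pl_p w.prime)
        exact hw _ (mem_image_of_mem pl m) g trivial hg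
      exact sa3_unr (h.mono le_top) (k.mono le_top) fun g hg => ⟨(h.ine_all a1 a2 rfl g hg).1,
        (k.ine_all a1 a3 rfl g hg).1, (h.ine_all a1 a2 rfl g hg).2⟩
  rwa [sum_image hi] at key

/-- The bad primes. -/
def bad (C : Cu) : Finset ℕ := (range (C.N0 + 1)).filter Nat.Prime

theorem mem_bad : v ∈ C.bad ↔ v.Prime ∧ v ≤ C.N0 := by
  rw [bad, mem_filter, mem_range, Nat.lt_succ_iff, and_comm]

/-- The reciprocity law, with the bad primes taken apart. -/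
theorem recip' (h : C.Z2 ⊤ u) (k : C.Z2 ⊤ b) (hi0 : B2.Spl 1 (Gv 0) (C.cu u b)) (V : Finset ℕ)
    (hV : ∀ v ∈ V, C.Gp v)
    (h0 : ∀ v, C.Gp v → v ∉ V → u (sig v) = 0 ∧ b (sig v) = 0) :
    ∑ v ∈ V, C.Bv v u b = ∑ v ∈ C.bad, C.Bv v u b := by
  have := recip h k hi0 (V ∪ C.bad)
    (fun v hv => (mem_union.1 hv).elim (fun m => (hV v m).1) fun m => (mem_bad.1 m).1)
    fun v hv m => by
      have g : C.Gp v := ⟨hv, not_le.1 fun l => m (mem_union_right _ (mem_bad.2 ⟨hv, l⟩))⟩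
      exact ⟨g, h0 v g fun l => m (mem_union_left _ l)⟩
  rw [sum_union (disjoint_left.2 fun v m l => (hV v m).2.not_ge (mem_bad.1 l).2)] at this
  exact CharTwo.add_eq_zero.1 this

end Cu

end Pool.Agent.SP
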