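import Pool.Agent.Lib.MP_696deb_nt.SP.TJ
import Pool.Agent.Lib.MP_696deb_nt.B2.GWo

/-! Definitions for the variation of twists by primes. -/

set_option autoImplicit false

open scoped Classical
open Finset Function

namespace Pool.Agent.SP

open Pool.Agent.Lib.MP_696deb_nt Pool.Agent.Lib.MP_696deb_nt.Sm
open Pool.Agent.Lib.MP_696deb_nt.B2 (cc jC)

namespace Cu

variable (C : Cu)

/-- `b` is orthogonal to the images of local points at `v`. -/
def Prp (v : ℕ) (D : ℤ) (b : GQ → C.A) : Prop :=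
  ∀ k, C.Z2 (Gv v) k → C.Loc v D k → B2.Spl 1 (Gv v) (C.cu k b)

/-- The only good prime that divides `D` is `l`, and it divides once. -/
structure Tw1 (D : ℤ) (l : ℕ) : Prop where
  gp : C.Gp l
  val : padicValInt l D = 1
  out : ∀ p, C.Gp p → p ≠ l → ¬ (p : ℤ) ∣ D

/-- The same local classes at the bad places. -/
def Sim (D D' : ℤ) : Prop := ∀ v, C.Bd v → ∀ g ∈ Gv v, chi D g = chi D' g

/-- Cocycles with values in the four-torsion with the local conditions at the bad places,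
unramified at the good primes other than `l`. -/
structure Lift (D : ℤ) (l : ℕ) (A : GQ → C.A) : Prop where
  tors : ∀ g, 4 • A g = 0
  coc : C.Coc D A
  lc : LC A
  loc : ∀ v, C.Bd v → C.Loc v D A
  unr : ∀ p, C.Gp p → p ≠ l → A (sig p) = 0

/-- `a` is twice such a cocycle for a prime in the class of `t`. -/
def Lc (U : Subgroup GQ) (t : GQ) (D0 : ℤ) (a : GQ → C.A) : Prop :=
  ∃ (l : ℕ) (D : ℤ) (A : GQ → C.A), Frb U t l ∧ C.Tw1 D l ∧ C.Sim D D0 ∧ C.Lift D l A ∧ 2 • A = a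

/-- A cochain whose coboundary is the cup product. -/
structure Gov (a b : GQ → C.A) (φ : GQ → F2) : Prop where
  sm : LC φ
  mul : ∀ g h, φ (g * h) = φ g + φ h + C.cu a b g h

/-- Unramified at the good primes. -/
def Unf (φ : GQ → F2) : Prop := ∀ p, C.Gp p → ∀ g ∈ Iv p, φ g = 0

/-- The value at `g` is the value of a coboundary. -/
def Cb (b : GQ → C.A) (g : GQ) : Prop := ∃ P : C.A, 2 • P = 0 ∧ b g = C.act g P - P

/-- A point that gives this coboundary. -/
noncomputable def yb (b : GQ → C.A) (g : GQ) : C.A := if h : C.Cb b g then h.choose else 0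

/-- The governing symbol. -/
noncomputable def Gm (a b : GQ → C.A) (φ : GQ → F2) (g : GQ) : F2 :=
  φ g + C.ep (a g) (C.act g (C.yb b g))

/-- Elements that are killed by all cocycles and all quadratic characters. -/
structure Na (u : GQ) : Prop where
  one : u ∈ C.Kpm
  zero : ∀ a, C.Z2 ⊤ a → a u = 0
  chr : ∀ d : ℤ, chi d u = 0

/-- The failure of the cocycle condition is a sum of cup products. -/
structure Dif {ι : Type} (s : Finset ι) (E : ι → ℤ) (a : ι → GQ → C.A) (x : GQ → C.A) : Prop where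
  two : ∀ g, 2 • x g = 0
  sm : LC x
  mul : ∀ g h, x (g * h) = x g + C.act g (x h) + ∑ i ∈ s, (chi (E i) g).val • C.act g (a i h)

/-- The two-cocycle of the variation formula. -/
noncomputable def zc {ι : Type} (s : Finset ι) (E : ι → ℤ) (φ : ι → GQ → F2) (x b : GQ → C.A)
    (g h : GQ) : F2 := C.cu x b g h + ∑ i ∈ s, chi (E i) g * φ i h

/-- The Weil pairing on the four-torsion, for the twist by `D`. -/
structure E4 (D : ℤ) where
  e : C.A → C.A → ZMod (2 ^ (1 + 1))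
  addl : ∀ P P' Q, 4 • P = 0 → 4 • P' = 0 → 4 • Q = 0 → e (P + P') Q = e P Q + e P' Q
  addr : ∀ P Q Q', 4 • P = 0 → 4 • Q = 0 → 4 • Q' = 0 → e P (Q + Q') = e P Q + e P Q'
  eqv : ∀ g P Q, 4 • P = 0 → 4 • Q = 0 →
    e (C.tw D g P) (C.tw D g Q) = B2.cy (1 + 1) g * e P Q
  right : ∀ P S, 4 • P = 0 → 2 • S = 0 → e P S = B2.up 1 (C.ep (2 • P) S)
  left : ∀ S P, 2 • S = 0 → 4 • P = 0 → e S P = B2.up 1 (C.ep S (2 • P))
  iso : ∀ (H : Subgroup GQ) (A B : GQ → C.A) (P Q : C.A), IsClosed (H : Set GQ) →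
    (∀ g ∈ H, 4 • A g = 0) → (∀ g ∈ H, 4 • B g = 0) → (∀ g ∈ H, A g = C.cob D P g) →
    (∀ g ∈ H, B g = C.cob D Q g) → B2.Spl (1 + 1) H fun g h => e (A g) (C.tw D g (B h))

/-- The two-cocycle of the symmetry formula. -/
noncomputable def E4.z {C : Cu} {D : ℤ} (W : C.E4 D) (D' : ℤ) (A B a b : GQ → C.A) (φ : GQ → F2)
    (g h : GQ) : ZMod (2 ^ (1 + 1)) := W.e (A g) (C.tw D g (B h)) +
      B2.up 1 (chi (D * D') g * (C.cu a b g h + φ h))

variable {C} {D D' D'' : ℤ} {v l p : ℕ} {a b c A : GQ → C.A} {g : GQ}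

theorem Bd.or (h : C.Bd v) : v = 0 ∨ v.Prime := h.imp_right And.left

theorem Coc.z2 (h : C.Coc D c) (hl : LC c) (h2 : ∀ g, 2 • c g = 0) : C.Z2 ⊤ c :=
  ⟨fun g _ => h2 g, fun g _ k _ => by rw [h, C.tw_two D g (h2 k)], hl⟩

theorem Loc.prp (hv : v = 0 ∨ v.Prime) (h : C.Loc v D b) (hb : C.Z2 (Gv v) b) : C.Prp v D b :=
  fun _ k ⟨_, hP⟩ => h.elim fun _ hQ => spl_iso (closed_Gv hv) k hb hP hQ

theorem Prp.congr (h : C.Prp v D b) (k : ∀ g ∈ Gv v, chi D g = chi D' g) : C.Prp v D' b :=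
  fun c h1 h2 => h c h1 (h2.congr k fun _ _ => rfl)

theorem Sim.refl (C : Cu) (D : ℤ) : C.Sim D D := fun _ _ _ _ => rfl

theorem Sim.symm (h : C.Sim D D') : C.Sim D' D := fun v hv g hg => (h v hv g hg).symm

theorem Sim.trans (h : C.Sim D D') (k : C.Sim D' D'') : C.Sim D D'' :=
  fun v hv g hg => (h v hv g hg).trans (k v hv g hg)

theorem Tw1.ne (h : C.Tw1 D l) : D ≠ 0 := by
  rintro rfl
  simpa using h.val

theorem Tw1.chi_sig (h : C.Tw1 D l) (hp : C.Gp p) : chi D (sig p) = if p = l then 1 else 0 := by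
  split_ifs with e
  · rw [e, Sm.chi_sig h.gp.1 h.gp.ne_two h.ne, h.val, Nat.cast_one]
  · exact chi_sig_of_not_dvd hp.1 hp.ne_two (h.out p hp e)

theorem IsSel.lift (h : C.IsSel D 2 A) (k : C.Tw1 D l) : C.Lift D l A :=
  ⟨h.tors, h.coc, h.lc, fun v hv => h.loc v hv.or,
    fun p hp e => loc_good hp (k.out p hp e) h.tors (h.loc p (.inr hp.1))⟩

theorem Loc.two (h : C.Loc v D A) : C.Loc v D (2 • A) := by
  rw [two_nsmul]
  exact h.add h

theorem Coc.two (h : C.Coc D A) (hl : LC A) (h4 : ∀ g, 4 • A g = 0) : C.Z2 ⊤ (2 • A) :=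
  Coc.z2 (D := D) (fun g k => by simp only [Pi.smul_apply, h g k, smul_add, tw_nsmul])
    (hl.comp fun P => 2 • P) fun g => by rw [Pi.smul_apply, smul_smul]; exact h4 g

theorem yb_spec (h : C.Cb b g) : 2 • C.yb b g = 0 ∧ b g = C.act g (C.yb b g) - C.yb b g := by
  rw [yb, dif_pos h]
  exact h.choose_spec

theorem two_yb (C : Cu) (b : GQ → C.A) (g : GQ) : 2 • C.yb b g = 0 := by
  by_cases h : C.Cb b g
  · exact (yb_spec h).1
  · rw [yb, dif_neg h, nsmul_zero]

end Cu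

end Pool.Agent.SP
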