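import Pool.Agent.Lib.MP_696deb_nt.SP.K6
import Pool.Agent.Lib.MP_696deb_nt.B2.GWf

/-! Reciprocity over the rational numbers in terms of the chosen places. -/

set_option autoImplicit false

open scoped Classical
open Finset Function

namespace Pool.Agent.SP

open Pool.Agent.Lib.MP_696deb_nt Pool.Agent.Lib.MP_696deb_nt.Sm
open Pool.Agent.Lib.MP_696deb_nt.B2 (cc jC)

variable {m : ℕ} {c : GQ → GQ → ZMod (2 ^ m)} {p : ℕ}

/-- The invariant of a global class depends only on the prime. -/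
theorem inv_smulQ (h : B2.C2 m ⊤ c) (hT : B2.AtInf m ⊤ c) (g : GQ) (w : B2.Plc) :
    cft.inv m ⊤ (g • w) c = cft.inv m ⊤ w c := by
  have hH : B2.Op ⊤ := isOpen_univ
  obtain ⟨B, hB⟩ := cft.finite hH h
  obtain ⟨s, s1, s2, s3⟩ := B2.gw_exists_ext hH (s := {w}) (fun v hv v' hv' _ _ _ =>
    (mem_singleton.1 hv).trans (mem_singleton.1 hv').symm) B
  have hw : w ∈ s := s1 (mem_singleton_self w)
  have k : ∀ v, B2.Away ⊤ s v → cft.inv m ⊤ v c = 0 := fun v hv => hB v fun e => s3 v e hv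
  have e1 := cft.recip s hH h hT s2 k
  have e2 := cft.recip (insert (g • w) (s.erase w)) hH h hT (fun v hv v' hv' l hl e => by
    rcases mem_insert.1 hv with rfl | hv <;> rcases mem_insert.1 hv' with rfl | hv'
    · rfl
    · exact absurd (s2 w hw v' (mem_of_mem_erase hv') (l * g) trivial (by rw [mul_smul, e])).symm
        (ne_of_mem_erase hv')
    · exact absurd (s2 v (mem_of_mem_erase hv) w hw (g⁻¹ * l) trivial
        (by rw [mul_smul, e, inv_smul_smul])) (ne_of_mem_erase hv)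
    · exact s2 v (mem_of_mem_erase hv) v' (mem_of_mem_erase hv') l hl e)
    fun v hv => k v fun v' hv' l hl e => by
      by_cases e' : v' = w
      · exact hv _ (mem_insert_self _ _) (l * g⁻¹) trivial
          (by rw [mul_smul, inv_smul_smul, ← e', e])
      · exact hv _ (mem_insert_of_mem (mem_erase.2 ⟨e', hv'⟩)) l hl e
  rw [sum_insert fun e => ne_of_mem_erase e
    (s2 w hw _ (mem_of_mem_erase e) g trivial rfl).symm] at e2
  rw [← add_sum_erase _ _ hw] at e1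
  exact add_right_cancel (e2.trans e1.symm)

/-- The reciprocity law. -/
theorem recipQ (h : B2.C2 m ⊤ c) (hi : B2.Spl m (Gv 0) c) (V : Finset ℕ) (hV : ∀ v ∈ V, v.Prime)
    (h0 : ∀ v : ℕ, v.Prime → v ∉ V → cft.inv m ⊤ (pl v) c = 0) :
    ∑ v ∈ V, cft.inv m ⊤ (pl v) c = 0 := by
  have hi' : Set.InjOn pl V := fun v hv w hw e => by rw [← pl_p (hV v hv), e, pl_p (hV w hw)]
  have key := cft.recip (V.image pl) isOpen_univ h (.inr ⟨rfl, Gv_zero ▸ hi⟩)
    (fun x hx y hy g _ e => by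
      obtain ⟨v, hv, rfl⟩ := mem_image.1 hx
      obtain ⟨w, hw, rfl⟩ := mem_image.1 hy
      have := congrArg B2.Plc.p e
      rw [B2.smul_p, pl_p (hV v hv), pl_p (hV w hw)] at this
      rw [this]) fun w hw => by
      obtain ⟨g, hg⟩ := B2.plc_conj (pl_p w.prime)
      rw [← hg, inv_smulQ h (.inr ⟨rfl, Gv_zero ▸ hi⟩), h0 w.p w.prime fun m => hw _ (mem_image_of_mem pl m) g trivial hg]
  rwa [sum_image hi'] at key

/-- A class that splits everywhere locally splits. -/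
theorem abhnQ {η : GQ → GQ → F2} (h : B2.C2 1 ⊤ η) (hi : B2.Spl 1 (Gv 0) η)
    (h0 : ∀ v : ℕ, v.Prime → cft.inv 1 ⊤ (pl v) η = 0) : B2.Spl 1 ⊤ η :=
  iv_abhn h fun v hv => hv.elim (fun e => e ▸ (iv_eq_zero (.inl rfl) (h.mono le_top)).2 hi)
    fun k => (iv_prime k η).trans (h0 v k)

theorem inv_eq_zero (hp : p.Prime) (h : B2.C2 m (Gv p) c) :
    cft.inv m ⊤ (pl p) c = 0 ↔ B2.Spl m (Gv p) c := by
  rw [← Cu.sa3_G hp] at h ⊢
  exact cft.zero_iff isOpen_univ h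

/-- Unramified classes have invariant zero. -/
theorem inv_unr (hp : p.Prime) (h : B2.C2 m (Gv p) c)
    (k : ∀ g ∈ Gv p, ∀ l ∈ Gv p, ∀ σ ∈ Iv p, ∀ τ ∈ Iv p, c (g * σ) (l * τ) = c g l) :
    cft.inv m ⊤ (pl p) c = 0 := by
  rw [← Cu.sa3_G hp] at h k
  exact cft.unr isOpen_univ h fun g hg l hl σ hσ τ hτ => k g hg l hl σ hσ.2 τ hτ.2

/-- Cohomologous cocycles have the same invariant. -/
theorem inv_cob (hp : p.Prime) {c' : GQ → GQ → ZMod (2 ^ m)} (h : B2.C2 m (Gv p) c)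
    (β : GQ → ZMod (2 ^ m)) (hβ : B2.Sm (Gv p) β)
    (e : ∀ g ∈ Gv p, ∀ k ∈ Gv p, c' g k = c g k + (β g + B2.cy m g * β k - β (g * k))) :
    cft.inv m ⊤ (pl p) c' = cft.inv m ⊤ (pl p) c := by
  rw [← Cu.sa3_G hp] at h hβ e
  exact B2.GWf_inv_cob cft isOpen_univ h β hβ e

theorem inv_add (hp : p.Prime) {c' : GQ → GQ → ZMod (2 ^ m)} (h : B2.C2 m (Gv p) c)
    (h' : B2.C2 m (Gv p) c') :
    cft.inv m ⊤ (pl p) (c + c') = cft.inv m ⊤ (pl p) c + cft.inv m ⊤ (pl p) c' := by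
  rw [← Cu.sa3_G hp] at h h'
  exact cft.add isOpen_univ h h'

theorem inv_upQ (hp : p.Prime) {η : GQ → GQ → F2} (h : B2.C2 1 (Gv p) η) :
    cft.inv (1 + 1) ⊤ (pl p) (fun g k => B2.up 1 (η g k)) = B2.up 1 (cft.inv 1 ⊤ (pl p) η) := by
  rw [← Cu.sa3_G hp] at h
  exact B2.inv_up cft isOpen_univ h 1

/-- The real place. -/
theorem spl_cc_iff {η : GQ → GQ → F2} (h : B2.C2 1 (Gv 0) η) :
    B2.Spl 1 (Gv 0) η ↔ η cc cc + η 1 1 = 0 := (iv_eq_zero (.inl rfl) h).symm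

theorem c2_mul {H : Subgroup GQ} {ψ χ : GQ → F2} (h1 : B2.Sm H ψ) (h2 : B2.IsHom H ψ)
    (h3 : B2.Sm H χ) (h4 : B2.IsHom H χ) : B2.C2 1 H fun g k => ψ g * χ k :=
  B2.GWo_c2 (m := 1) (fun g _ => B2.cy_one_eq g) h1 h2 h3 h4

/-- The tame formula for a quadratic character and an unramified character. -/
theorem inv_tame (hp : p.Prime) (h2 : p ≠ 2) (d : ℤ) {χ : GQ → F2}
    (h3 : B2.Sm (Gv p) χ) (h4 : B2.IsHom (Gv p) χ) (u : ∀ g ∈ Iv p, χ g = 0) :
    cft.inv 1 ⊤ (pl p) (fun g k => chi d g * χ k) = chi d (sig p) * χ (frb p) := by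
  rw [← iv_prime hp, mul_comm]
  exact (hv_comm (.inr hp) (ho_chi _ d) ⟨h3, h4⟩).trans
    (hv_tame hp h2 ⟨h3, h4⟩ (ho_chi _ d) (u _ (gen_sig hp h2).1))

end Pool.Agent.SP
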