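import Pool.Agent.Lib.MP_696deb_nt.SP.KB1
import Pool.Agent.Lib.MP_696deb_nt.SP.K6

/-! The algebra of the governing symbol. -/

set_option autoImplicit false

open scoped Classical
open Finset Function

namespace Pool.Agent.SP

open Pool.Agent.Lib.MP_696deb_nt Pool.Agent.Lib.MP_696deb_nt.Sm
open Pool.Agent.Lib.MP_696deb_nt.B2 (cc jC)

namespace Cu

variable {C : Cu} {a b : GQ → C.A} {φ : GQ → F2} {g s u u' : GQ}

theorem kb_cob (hb : C.Z2 ⊤ b) {P : C.A} (e : b s = C.act s P - P) (n : ℕ) :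
    b (s ^ n) = C.act (s ^ n) P - P := by
  induction n with
  | zero => rw [pow_zero, hb.one, act_one, sub_self]
  | succ n ih =>
    rw [pow_succ, hb.coc _ trivial _ trivial, ih, e, map_sub, act_mul, sub_add_sub_cancel']

theorem Cb_of_fpf (hb : 2 • b s = 0) (h : ∀ i, C.pm s i ≠ i) : C.Cb b s := by
  rcases C.tors2 hb with e | ⟨k, e⟩
  · exact ⟨0, nsmul_zero 2, by rw [e, map_zero, sub_zero]⟩
  have e1 : ∀ f : Fin 3 → Fin 3, Injective f → (∀ i, f i ≠ i) →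
      ∀ k, ∃ i, f i ≠ k ∧ i ≠ k := by decide
  obtain ⟨i, h1, h2⟩ := e1 _ (C.pm_inj s) h k
  exact ⟨C.T i, C.two_T i, by
    rw [e, act_T, sub_eq_add_neg, C.neg_two (C.two_T i), C.T_add_ne (h i) h1 h2]⟩

theorem Cb_iff_ep (hb : 2 • b s = 0) {t : Fin 3} (h : ∀ i, C.pm s i = i ↔ i = t) :
    C.Cb b s ↔ C.ep (b s) (C.T t) = 0 := by
  have _ := hb
  refine ⟨fun ⟨S, hS, e⟩ => ?_, fun h2 => ?_⟩
  · have e1 := C.ep_act s S (C.T t)
    rw [act_T, (h t).2 rfl] at e1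
    rw [e, sub_eq_add_neg, C.neg_two hS, C.ep_add_left (C.two_act _ hS) hS (C.two_T _), e1]
    exact CharTwo.add_self_eq_zero _
  · rcases (C.ep_T_eq_zero _).1 h2 with h3 | h3
    · exact ⟨0, nsmul_zero 2, by rw [h3, map_zero, sub_zero]⟩
    · obtain ⟨S, hS, e⟩ := C.exists_sub h
      exact ⟨S, hS, by rw [h3, e]⟩

theorem fpf_pow (h : ∀ i, C.pm s i ≠ i) {k : ℕ} (hk : k.Coprime 6) (i : Fin 3) :
    C.pm (s ^ k) i ≠ i := by
  have e1 : ∀ f : Fin 3 → Fin 3, Injective f → (∀ i, f i ≠ i) →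
      ∀ i, f (f (f i)) = i ∧ f (f i) ≠ i := by decide
  have h1 := e1 _ (C.pm_inj s) h
  have h3 : ¬3 ∣ k := fun e => absurd (Nat.Coprime.coprime_dvd_left e hk) (by decide)
  rw [← Nat.div_add_mod k 3, pow_add, pm_mul, pow_mul, pm_pow (by
    rw [pow_succ, pow_two, pm_mul, pm_mul]; exact (h1 _).1)]
  rcases (by omega : k % 3 = 1 ∨ k % 3 = 2) with e | e <;> rw [e]
  · rw [pow_one]; exact h i
  · rw [pow_two, pm_mul]; exact (h1 i).2

theorem Cb_pow (hb : C.Z2 ⊤ b) {k : ℕ} (hk : k.Coprime 6) : C.Cb b (s ^ k) ↔ C.Cb b s := by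
  refine ⟨fun ⟨P, hP, e⟩ => ?_, fun ⟨P, hP, e⟩ => ⟨P, hP, kb_cob hb e k⟩⟩
  have h2 : ¬2 ∣ k := fun e => absurd (Nat.Coprime.coprime_dvd_left e hk) (by decide)
  have h3 : ¬3 ∣ k := fun e => absurd (Nat.Coprime.coprime_dvd_left e hk) (by decide)
  have h4 : k * k % 12 = 1 := by
    rw [Nat.mul_mod]
    rcases (by omega : k % 12 = 1 ∨ k % 12 = 5 ∨ k % 12 = 7 ∨ k % 12 = 11) with e | e | e | e <;>
      rw [e]
  have e1 : ∀ f : Fin 3 → Fin 3, Injective f → ∀ i, f (f (f (f (f (f i))))) = i := by decide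
  have h6 : s ^ 6 ∈ C.Kpm := fun i => by
    simp only [pow_succ, pow_zero, one_mul, pm_mul]; exact e1 _ (C.pm_inj s) i
  have h7 : b (s ^ 6 * s ^ 6) = C.act (s ^ 6 * s ^ 6) 0 - 0 := by
    rw [hb.coc _ trivial _ trivial, act_Kpm h6 (hb.two _ trivial), ← two_nsmul, hb.two _ trivial,
      map_zero, sub_zero]
  refine (Cb_mul hb (pow_mem (mul_mem h6 h6) (k * k / 12))
    (by rw [kb_cob hb h7, map_zero, sub_zero])).1 ?_
  rw [← pow_add, ← pow_mul, ← pow_succ', ← h4, Nat.div_add_mod, pow_mul]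
  exact ⟨P, hP, kb_cob hb e k⟩

theorem Gm_pow (h : C.Gov a b φ) (ha : C.Z2 ⊤ a) (hb : C.Z2 ⊤ b) (ca : C.Cb a s) (cb : C.Cb b s)
    {k : ℕ} (hk : Odd k) : C.Gm a b φ (s ^ k) = C.Gm a b φ s := by
  obtain ⟨P, hP, e⟩ := cb
  have h1 : ∀ n : ℕ, φ (s ^ n) + C.ep (a (s ^ n)) (C.act (s ^ n) P) =
      n * (φ s + C.ep (a s) (C.act s P)) := fun n => by
    induction n with
    | zero => rw [pow_zero, h.one ha, ha.one, ep_zero_left, Nat.cast_zero, zero_mul, add_zero]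
    | succ n ih =>
      have h2 := C.two_act s hP
      rw [pow_succ, h.mul, ha.coc _ trivial _ trivial, cu, e, act_mul, sub_eq_add_neg,
        C.neg_two hP, map_add, C.ep_add_right (C.two_act _ h2) (C.two_act _ hP) (ha.two _ trivial),
        C.ep_add_left (ha.two _ trivial) (C.two_act _ (ha.two _ trivial)) (C.two_act _ h2), ep_act,
        Nat.cast_succ, add_one_mul, ← ih]
      linear_combination
        CharTwo.add_self_eq_zero (C.ep (a (s ^ n)) (C.act (s ^ n) (C.act s P)))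
  obtain ⟨Q, hQ, eQ⟩ := ca
  rw [Gm_eq ⟨Q, hQ, kb_cob ha eQ k⟩ hP (kb_cob hb e k), Gm_eq ⟨Q, hQ, eQ⟩ hP e, h1,
    (ZMod.natCast_eq_one_iff_odd).2 hk, one_mul]

end Cu

end Pool.Agent.SP
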