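import Pool.Agent.Lib.MP_696deb_nt.SP.K6

/-! The algebra of the governing symbol, first part. -/

set_option autoImplicit false

open scoped Classical
open Finset Function

namespace Pool.Agent.SP

open Pool.Agent.Lib.MP_696deb_nt Pool.Agent.Lib.MP_696deb_nt.Sm
open Pool.Agent.Lib.MP_696deb_nt.B2 (cc jC)

namespace Cu

variable {C : Cu} {a b : GQ → C.A} {φ : GQ → F2} {g s u u' : GQ}

theorem act_Kpm (h : u ∈ C.Kpm) {S : C.A} (hS : 2 • S = 0) : C.act u S = S := act_of_pm h hS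

theorem conj_Kpm (h : u ∈ C.Kpm) (g : GQ) : g * u * g⁻¹ ∈ C.Kpm := fun i => by
  rw [pm_mul, pm_mul, h, pm_inv]

theorem kb1_neg {S : C.A} (h : 2 • S = 0) : -S = S := by
  rw [neg_eq_iff_add_eq_zero, ← two_nsmul, h]

theorem kb1_two {S S' : C.A} (h : 2 • S = 0) (h' : 2 • S' = 0) : 2 • (S - S') = 0 := by
  rw [smul_sub, h, h', sub_zero]

theorem kb1_left {S S' P : C.A} (h : 2 • S = 0) (h' : 2 • S' = 0) (hP : 2 • P = 0) :
    C.ep (S - S') P = C.ep S P + C.ep S' P := by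
  rw [sub_eq_add_neg, kb1_neg h', C.ep_add_left h h' hP]

theorem kb1_right {S S' P : C.A} (h : 2 • S = 0) (h' : 2 • S' = 0) (hP : 2 • P = 0) :
    C.ep P (S - S') = C.ep P S + C.ep P S' := by
  rw [sub_eq_add_neg, kb1_neg h', C.ep_add_right h h' hP]

theorem kb1_mul (hb : C.Z2 ⊤ b) (h0 : b u = 0) : b (s * u) = b s := by
  rw [hb.coc s trivial u trivial, h0, map_zero, add_zero]

theorem kb1_act (hu : u ∈ C.Kpm) {P : C.A} (hP : 2 • P = 0) : C.act (s * u) P = C.act s P := by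
  rw [act_mul, act_Kpm hu hP]

theorem kb1_val (hb : C.Z2 ⊤ b) (g s : GQ) :
    b (g * s * g⁻¹) = b g + C.act g (b s) - C.act (g * s * g⁻¹) (b g) := by
  rw [eq_sub_iff_add_eq, ← hb.coc _ trivial g trivial, inv_mul_cancel_right,
    hb.coc g trivial s trivial]

theorem kb1_pt (g s : GQ) (P : C.A) :
    C.act (g * s * g⁻¹) (C.act g P) = C.act g (C.act s P) := by
  rw [← act_mul, inv_mul_cancel_right, act_mul]

theorem kb1_conj (hb : C.Z2 ⊤ b) {P : C.A} (e : b s = C.act s P - P) (g : GQ) :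
    b (g * s * g⁻¹) = C.act (g * s * g⁻¹) (C.act g P - b g) - (C.act g P - b g) := by
  rw [kb1_val hb, e, map_sub, map_sub, kb1_pt]
  abel

theorem kb1_cb (hb : C.Z2 ⊤ b) (g : GQ) (h : C.Cb b s) : C.Cb b (g * s * g⁻¹) :=
  h.elim fun _ hP => ⟨_, kb1_two (C.two_act g hP.1) (hb.two g trivial), kb1_conj hb hP.2 g⟩

theorem Gov.one (h : C.Gov a b φ) (ha : C.Z2 ⊤ a) : φ 1 = 0 := by
  have e := h.mul 1 1
  rwa [mul_one, cu, ha.one, ep_zero_left, add_zero, CharTwo.add_self_eq_zero] at e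

theorem Gov.sq (h : C.Gov a b φ) (hb : C.Z2 ⊤ b) (hg : g ∈ C.Kpm) :
    φ (g * g) = C.ep (a g) (b g) := by
  rw [h.mul, CharTwo.add_self_eq_zero, zero_add, cu, act_Kpm hg (hb.two g trivial)]

theorem Gov.nn (h : C.Gov a b φ) (ha : C.Z2 ⊤ a) (hu : C.Na u) (g : GQ) :
    φ (u * g) = φ u + φ g := by
  rw [h.mul, cu, hu.zero a ha, ep_zero_left, add_zero]

theorem nn_one (C : Cu) : C.Na 1 := by
  refine ⟨one_mem _, fun _ ha => ha.one, fun d => ?_⟩
  have e := chi_mul_g d 1 1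
  rwa [mul_one, CharTwo.add_self_eq_zero] at e

theorem nn_sq (hg : g ∈ C.Kpm) : C.Na (g * g) := by
  refine ⟨mul_mem hg hg, fun a ha => ?_, fun d => ?_⟩
  · rw [ha.coc g trivial g trivial, act_Kpm hg (ha.two g trivial), ← two_nsmul, ha.two g trivial]
  · rw [chi_mul_g, CharTwo.add_self_eq_zero]

theorem Na.mul (h : C.Na u) (h' : C.Na u') : C.Na (u * u') := by
  refine ⟨mul_mem h.one h'.one, fun a ha => ?_, fun d => ?_⟩
  · rw [kb1_mul ha (h'.zero a ha), h.zero a ha]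
  · rw [chi_mul_g, h.chr, h'.chr, add_zero]

/-- The symbol does not depend on the choice of the point. -/
theorem Gm_eq (ha : C.Cb a g) {P : C.A} (hP : 2 • P = 0) (e : b g = C.act g P - P) :
    C.Gm a b φ g = φ g + C.ep (a g) (C.act g P) := by
  obtain ⟨Q, hQ, eQ⟩ := ha
  obtain ⟨hY, eY⟩ := yb_spec (⟨P, hP, e⟩ : C.Cb b g)
  have hF := kb1_two hP hY
  have k : C.act g (P - C.yb b g) = P - C.yb b g := by
    rw [map_sub, sub_eq_sub_iff_sub_eq_sub, ← e, ← eY]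
  have k1 : C.ep (a g) (C.act g (P - C.yb b g)) = 0 := by
    rw [eQ, kb1_left (C.two_act g hQ) hQ (C.two_act g hF), ep_act, k, CharTwo.add_self_eq_zero]
  rw [map_sub, kb1_right (C.two_act g hP) (C.two_act g hY)
    (eQ ▸ kb1_two (C.two_act g hQ) hQ), CharTwo.add_eq_zero] at k1
  rw [Gm, k1]

/-- The other expression of the symbol. -/
theorem Gm_eq' (hb : C.Cb b g) {P : C.A} (hP : 2 • P = 0) (e : a g = C.act g P - P) :
    C.Gm a b φ g = φ g + C.ep P (b g) := by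
  obtain ⟨hY, eY⟩ := yb_spec hb
  rw [Gm, e, kb1_left (C.two_act g hP) hP (C.two_act g hY), ep_act, eY,
    kb1_right (C.two_act g hY) hY hP, add_comm (C.ep P (C.yb b g))]

theorem Cb_mul (hb : C.Z2 ⊤ b) (hu : u ∈ C.Kpm) (h0 : b u = 0) : C.Cb b (s * u) ↔ C.Cb b s := by
  refine exists_congr fun P => and_congr_right fun hP => ?_
  rw [kb1_mul hb h0, kb1_act hu hP]

theorem Gm_mul (h : C.Gov a b φ) (ha : C.Z2 ⊤ a) (hb : C.Z2 ⊤ b) (hu : u ∈ C.Kpm) (a0 : a u = 0)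
    (b0 : b u = 0) (ca : C.Cb a s) (cb : C.Cb b s) :
    C.Gm a b φ (s * u) = C.Gm a b φ s + φ u := by
  obtain ⟨P, hP, e⟩ := cb
  rw [Gm_eq ca hP e, Gm_eq ((Cb_mul ha hu a0).2 ca) hP (by rw [kb1_mul hb b0, kb1_act hu hP, e]),
    kb1_mul ha a0, kb1_act hu hP, h.mul, cu, b0, map_zero, ep_zero_right, add_zero, add_right_comm]

theorem Cb_conj (hb : C.Z2 ⊤ b) (g : GQ) : C.Cb b (g * s * g⁻¹) ↔ C.Cb b s := by
  refine ⟨fun h => ?_, kb1_cb hb g⟩
  have e := kb1_cb hb g⁻¹ h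
  rwa [show g⁻¹ * (g * s * g⁻¹) * g⁻¹⁻¹ = s by group] at e

theorem Gm_conj (h : C.Gov a b φ) (ha : C.Z2 ⊤ a) (hb : C.Z2 ⊤ b) (ca : C.Cb a s) (cb : C.Cb b s)
    (g : GQ) : C.Gm a b φ (g * s * g⁻¹) = C.Gm a b φ s := by
  obtain ⟨P, hP, e⟩ := cb
  have a2 := fun x => ha.two x trivial
  have b2 := fun x => hb.two x trivial
  have p1 := C.two_act g hP
  have p2 := C.two_act g (C.two_act s hP)
  have e1 := h.mul (g * s * g⁻¹) g
  rw [inv_mul_cancel_right, h.mul, cu, cu, e, map_sub, kb1_right p2 p1 (a2 g)] at e1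
  have e2 : C.ep (a (g * s * g⁻¹)) (C.act g (C.act s P)) = C.ep (a g) (C.act g (C.act s P)) +
      C.ep (a s) (C.act s P) + C.ep (a g) (C.act g P) := by
    rw [kb1_val ha, kb1_left (by rw [smul_add, a2, C.two_act g (a2 s), add_zero])
      (C.two_act _ (a2 g)) p2, C.ep_add_left (a2 g) (C.two_act g (a2 s)) p2, ep_act, ← kb1_pt,
      ep_act]
  rw [Gm_eq ca hP e, Gm_eq (kb1_cb ha g ca) (kb1_two p1 (b2 g)) (kb1_conj hb e g), map_sub,
    kb1_right (C.two_act _ p1) (C.two_act _ (b2 g)) (a2 _), kb1_pt, e2]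
  linear_combination -e1 + CharTwo.add_self_eq_zero (C.ep (a g) (C.act g (C.act s P))) +
    CharTwo.add_self_eq_zero (C.ep (a g) (C.act g P))

end Cu

end Pool.Agent.SP
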