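import Pool.Agent.Lib.MP_696deb_nt.SP.KB

/-! Values at Frobenius elements in a given class. -/

set_option autoImplicit false

open scoped Classical
open Finset Function

namespace Pool.Agent.SP

open Pool.Agent.Lib.MP_696deb_nt Pool.Agent.Lib.MP_696deb_nt.Sm
open Pool.Agent.Lib.MP_696deb_nt.B2 (cc jC)

/-- The chosen Frobenius element in terms of the class. -/
theorem frb_dec {U : Subgroup GQ} (hU : U.Normal) {s : GQ} {p : ℕ} (h : Frb U s p) (hp : p.Prime)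
    (h2 : p ≠ 2) : ∃ (g : GQ) (k : ℕ) (u σ : GQ), k.Coprime 6 ∧ u ∈ U ∧ σ ∈ Iv p ∧
      frb p = g * s ^ k * g⁻¹ * u * σ := by
  obtain ⟨g, u, σ, k, h1, h3, h4, e⟩ := h.conj hp h2
  exact ⟨g, k, _, σ, h4, hU.conj_mem u h1 g, h3, by rw [e]; group⟩

theorem chi_Frb {U : Subgroup GQ} (hU : U.Normal) {s : GQ} {p : ℕ} (h : Frb U s p) (hp : p.Prime)
    (h2 : p ≠ 2) {d : ℤ} (hd : ¬ (p : ℤ) ∣ d) (k : ∀ u ∈ U, chi d u = 0) :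
    chi d (frb p) = chi d s := by
  obtain ⟨g, n, u, σ, h1, h3, h4, e⟩ := frb_dec hU h hp h2
  obtain ⟨j, rfl⟩ := tj_odd h1
  have h9 := chi_mul_g d g g⁻¹
  rw [mul_inv_cancel, tj_one (ho_chi ⊤ d)] at h9
  rw [e, chi_mul_g, chi_mul_g, chi_mul_g, chi_mul_g, chi_ine_of_not_dvd hp h2 hd σ h4, k u h3,
    tj_pow (ho_chi ⊤ d)]
  linear_combination -h9

/-- Finitely many smooth functions have a common open normal subgroup. -/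
theorem exists_kill {ι α : Type} [Finite ι] (f : ι → GQ → α) (h : ∀ i, LC (f i)) :
    ∃ U : Subgroup GQ, B2.Op U ∧ U.Normal ∧ ∀ i, ∀ u ∈ U, f i u = f i 1 := by
  obtain ⟨U, h1, h2, h3⟩ := B2.Sm.pi (H := ⊤) h
  exact ⟨U, h1, h2, fun i u hu =>
    (congrFun (h3 1 trivial u trivial (by simpa using hu)) i).symm⟩

namespace Cu

variable {C : Cu} {a b : GQ → C.A} {φ : GQ → F2} {s : GQ} {U : Subgroup GQ} {p : ℕ}

theorem normal_Kpm (C : Cu) : C.Kpm.Normal := ⟨fun _ h g => conj_Kpm h g⟩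

theorem kc_ine (hp : C.Gp p) (hb : C.Z2 ⊤ b) (b1 : b (sig p) = 0) {σ : GQ} (h : σ ∈ Iv p) :
    b σ = 0 := by
  rw [(hb.mono le_top).ine hp h, b1, nsmul_zero]

theorem Cb_Frb (hU : U.Normal) (hK : U ≤ C.Kpm) (h : Frb U s p) (hp : C.Gp p) (hb : C.Z2 ⊤ b)
    (b1 : b (sig p) = 0) (b0 : ∀ u ∈ U, b u = 0) : C.Cb b (frb p) ↔ C.Cb b s := by
  obtain ⟨g, n, u, σ, h1, h3, h4, e⟩ := frb_dec hU h hp.1 hp.ne_two
  rw [e, Cb_mul hb (hp.pm_ine h4) (kc_ine hp hb b1 h4), Cb_mul hb (hK h3) (b0 u h3), Cb_conj hb,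
    Cb_pow hb h1]

theorem Gm_Frb (hU : U.Normal) (hK : U ≤ C.Kpm) (h : Frb U s p) (hp : C.Gp p) (ha : C.Un a)
    (hb : C.Un b) (hφ : C.Gov a b φ) (uφ : C.Unf φ) (a0 : ∀ u ∈ U, a u = 0)
    (b0 : ∀ u ∈ U, b u = 0) (φ0 : ∀ u ∈ U, φ u = 0) (ca : C.Cb a s) (cb : C.Cb b s) :
    C.Gm a b φ (frb p) = C.Gm a b φ s := by
  obtain ⟨g, n, u, σ, h1, h3, h4, e⟩ := frb_dec hU h hp.1 hp.ne_two
  have a1 := (Cb_pow ha.1 h1).2 ca
  have b1 := (Cb_pow hb.1 h1).2 cb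
  have a2 := (Cb_conj ha.1 g).2 a1
  have b2 := (Cb_conj hb.1 g).2 b1
  rw [e, Gm_mul hφ ha.1 hb.1 (hp.pm_ine h4) (kc_ine hp ha.1 (ha.2 p hp) h4)
      (kc_ine hp hb.1 (hb.2 p hp) h4) ((Cb_mul ha.1 (hK h3) (a0 u h3)).2 a2)
      ((Cb_mul hb.1 (hK h3) (b0 u h3)).2 b2),
    Gm_mul hφ ha.1 hb.1 (hK h3) (a0 u h3) (b0 u h3) a2 b2, Gm_conj hφ ha.1 hb.1 a1 b1,
    Gm_pow hφ ha.1 hb.1 ca cb (tj_odd h1), uφ p hp σ h4, φ0 u h3, add_zero, add_zero]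

theorem fpf_Frb (hU : U.Normal) (hK : U ≤ C.Kpm) (h : Frb U s p) (hp : C.Gp p)
    (k : ∀ i, C.pm s i ≠ i) (i : Fin 3) : C.pm (frb p) i ≠ i := by
  obtain ⟨g, n, u, σ, h1, h3, h4, e⟩ := frb_dec hU h hp.1 hp.ne_two
  rw [e, pm_mul, pm_mul, hp.pm_ine h4, hK h3, pm_mul, pm_mul]
  exact fun r => fpf_pow k h1 _ (C.pm_inj g (r.trans (C.pm_inv g i).symm))

theorem ty2_Frb (hU : U.Normal) (hK : U ≤ C.Kpm) (h : Frb U s p) (hp : C.Gp p)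
    (k : chi C.disc s = 1) : C.Ty2 p := by
  refine C.ty2_iff.2 ⟨hp, (chi_Frb hU h hp.1 hp.ne_two hp.not_dvd fun u hu => ?_).trans k⟩
  refine (F2_cases _).resolve_right fun r => ?_
  obtain ⟨t, ht⟩ := (C.chi_disc u).1 r
  exact absurd (((ht 0).1 (hK hu 0)).trans ((ht 1).1 (hK hu 1)).symm) (by decide)

end Cu

end Pool.Agent.SP
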