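import Pool.Agent.Lib.MP_696deb_nt.SP.KD1
import Pool.Agent.Lib.MP_696deb_nt.SP.KA
import Pool.Agent.Lib.MP_696deb_nt.SP.KB

/-! Existence of governing cochains, and unramified cocycles. -/

set_option autoImplicit false

open scoped Classical
open Finset Function

namespace Pool.Agent.SP

open Pool.Agent.Lib.MP_696deb_nt Pool.Agent.Lib.MP_696deb_nt.Sm
open Pool.Agent.Lib.MP_696deb_nt.B2 (cc jC)

namespace Cu

variable {C : Cu} {a b A : GQ → C.A} {φ : GQ → F2} {p n : ℕ} {D : ℤ}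

/-- An unramified cocycle is determined by its value at the Frobenius element. -/
theorem cob_Gv (hp : C.Gp p) (hb : C.Z2 (Gv p) b) (h0 : b (sig p) = 0) {P : C.A} (hP : 2 • P = 0)
    (e : b (frb p) = C.act (frb p) P - P) : ∀ g ∈ Gv p, b g = C.act g P - P := by
  refine fun g hg => sub_eq_zero.1 ((hb.sub (z2_cob _ hP)).dec hp ?_ ?_ g hg)
  · rw [Pi.sub_apply, h0, hp.act_ine (sig_ine hp.1 hp.ne_two) hP, sub_self, sub_self]
  · rw [Pi.sub_apply, e, sub_self]

/-- The inertia group fixes the torsion points of two-power order. -/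
theorem Gp.act_tors (hp : C.Gp p) {P : C.A} (h : 2 ^ n • P = 0) : ∀ g ∈ Iv p, C.act g P = P := by
  induction n generalizing P with
  | zero =>
    intro g _
    rw [pow_zero, one_nsmul] at h
    rw [h, map_zero]
  | succ m ih => exact half_fix hp (ih (by rw [← mul_smul, ← pow_succ, h]))

theorem Gp.tw_tors (hp : C.Gp p) (hD : ¬ (p : ℤ) ∣ D) {P : C.A} (h : 2 ^ n • P = 0) :
    ∀ g ∈ Iv p, C.tw D g P = P := by
  intro g hg
  rw [tw, chi_ine_of_not_dvd hp.1 hp.ne_two hD g hg, sn_zero, one_smul, hp.act_tors h g hg]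

theorem Coc.one (h : C.Coc D A) : A 1 = 0 := by
  have e := h 1 1
  have k := chi_mul_g D 1 1
  rw [mul_one, CharTwo.add_self_eq_zero] at k
  rw [mul_one, tw, k, sn_zero, one_smul, act_one] at e
  exact left_eq_add.1 e

theorem Coc.ine (h : C.Coc D A) (hl : LC A) (ht : ∀ g, 2 ^ n • A g = 0) (hp : C.Gp p)
    (hD : ¬ (p : ℤ) ∣ D) (h0 : A (sig p) = 0) : ∀ g ∈ Iv p, A g = 0 := by
  intro g hg
  obtain ⟨k, hk⟩ := B2.tame_gen (w := pl p) (by rw [pl_p hp.1]; exact hp.ne_two)
    (gen_sig hp.1 hp.ne_two) (π := fun g => Multiplicative.ofAdd (A g))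
    ((hl.mono le_top).comp fun a => Multiplicative.ofAdd a)
    (fun g hg l _ => by
      beta_reduce
      rw [← ofAdd_add, h, hp.tw_tors hD (ht l) g hg])
    (fun g _ => ⟨n, by rw [← ofAdd_nsmul, ht, ofAdd_zero]⟩) hg
  rw [← ofAdd_nsmul, h0, nsmul_zero] at hk
  exact Multiplicative.ofAdd.injective hk

/-- The symbol is an unramified character of the decomposition group. -/
theorem Gov.char (hφ : C.Gov a b φ) (uφ : C.Unf φ) (ha : C.Un a) (hp : C.Gp p) {P : C.A}
    (hP : 2 • P = 0) (e : ∀ g ∈ Gv p, b g = C.act g P - P) :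
    B2.Sm (Gv p) (fun g => φ g + C.ep (a g) (C.act g P)) ∧
      B2.IsHom (Gv p) (fun g => φ g + C.ep (a g) (C.act g P)) ∧
      ∀ g ∈ Iv p, φ g + C.ep (a g) (C.act g P) = 0 := by
  refine ⟨(hφ.sm.mono le_top).comp₂
    ((ha.1.sm.mono le_top).comp₂ ((C.lc_act P).mono le_top) fun x y => C.ep x y) (· + ·),
    fun g hg l hl => ?_, fun g hg => ?_⟩
  · have a2 := fun x => ha.1.two x trivial
    have p1 := C.two_act g hP
    have p2 := C.two_act g (C.two_act l hP)
    beta_reduce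
    rw [hφ.mul, cu, e l hl, map_sub, kb1_right p2 p1 (a2 g), ha.1.coc g trivial l trivial, act_mul,
      C.ep_add_left (a2 g) (C.two_act g (a2 l)) p2, ep_act]
    linear_combination CharTwo.add_self_eq_zero (C.ep (a g) (C.act g (C.act l P)))
  · rw [uφ p hp g hg, (ha.1.mono le_top).ine hp hg, ha.2 p hp, nsmul_zero, ep_zero_left, add_zero]

end Cu

end Pool.Agent.SP
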