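import Pool.Agent.Lib.MP_696deb_nt.SP.KA
import Pool.Agent.Lib.MP_696deb_nt.SP.KB

/-! Existence of governing cochains. -/

set_option autoImplicit false

open scoped Classical
open Finset Function

namespace Pool.Agent.SP

open Pool.Agent.Lib.MP_696deb_nt Pool.Agent.Lib.MP_696deb_nt.Sm
open Pool.Agent.Lib.MP_696deb_nt.B2 (cc jC)

namespace Cu

variable {C : Cu} {a b A : GQ → C.A} {φ : GQ → F2} {p n : ℕ} {D : ℤ}

theorem kd1_ine (h : C.Gov a b φ) (ha : C.Un a) (hp : C.Gp p) {g : GQ} (hg : g ∈ Iv p) :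
    φ g = φ (sig p) * chi p g := by
  obtain ⟨n, hk⟩ := B2.tame_gen (w := pl p) (by rw [pl_p hp.1]; exact hp.ne_two)
    (gen_sig hp.1 hp.ne_two) (π := fun g => Multiplicative.ofAdd (φ g, chi p g))
    ((h.sm.mono le_top).comp₂ ((lc_chi p).mono le_top) fun a b => Multiplicative.ofAdd (a, b))
    (fun g hg l _ => by
      beta_reduce
      rw [← ofAdd_add, Prod.mk_add_mk, h.mul, chi_mul_g, cu, (ha.1.mono le_top).ine hp hg,
        ha.2 p hp, nsmul_zero, ep_zero_left, add_zero])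
    (fun g _ => ⟨1, by
      rw [← ofAdd_nsmul, ofAdd_eq_one, pow_one, Prod.smul_mk, two_nsmul, two_nsmul,
        CharTwo.add_self_eq_zero, CharTwo.add_self_eq_zero, Prod.mk_zero_zero]⟩) hg
  rw [← ofAdd_nsmul, Prod.smul_mk, chi_sig_self hp.1 hp.ne_two] at hk
  obtain ⟨h1, h3⟩ := Prod.mk.inj (Multiplicative.ofAdd.injective hk)
  rw [h1, h3, nsmul_one, nsmul_eq_mul, mul_comm]

theorem exists_gov (ha : C.Un a) (hb : C.Un b)
    (iso : ∀ v, C.Bd v → B2.Spl 1 (Gv v) (C.cu a b)) : ∃ φ, C.Gov a b φ ∧ C.Unf φ := by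
  obtain ⟨φ, h2, h3⟩ := abhnQ (c2_cu ha.1 hb.1) (iso 0 (.inl rfl)) fun v hv => by
    have a1 : C.Z2 (Gv v) a := ha.1.mono le_top
    have b1 : C.Z2 (Gv v) b := hb.1.mono le_top
    rcases le_or_gt v C.N0 with k | k
    · exact (Bv_eq_zero hv a1 b1).2 (iso v (.inr ⟨hv, k⟩))
    · exact (Bv_tame ⟨hv, k⟩ a1 b1 (ha.2 v ⟨hv, k⟩)).trans (by rw [hb.2 v ⟨hv, k⟩, ep_zero_right])
  have h4 : C.Gov a b φ := ⟨h2, fun g h => by
    have := h3 g trivial h trivial
    rw [B2.cy_one_eq, one_mul] at this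
    rw [this]
    generalize φ g = t, φ h = t', φ (g * h) = t''
    revert t t' t''
    decide⟩
  obtain ⟨U, u1, -, u3⟩ := h2
  obtain ⟨s, hs⟩ := B2.finite_ram u1
  have h7 : LC fun g => ∑ p ∈ s.filter Nat.Prime, φ (sig p) * chi p g :=
    (lc_sum (s.filter Nat.Prime) (c := fun p g => φ (sig p) * chi p g)
      fun p _ => (lc_chi p).comp (φ (sig p) * ·)).congr fun g _ => sum_apply _ _ _
  refine ⟨fun g => φ g + ∑ p ∈ s.filter Nat.Prime, φ (sig p) * chi p g,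
    ⟨h4.sm.comp₂ h7 (· + ·), fun g h => ?_⟩, fun q hq σ hσ => ?_⟩
  · simp only [h4.mul, chi_mul_g, mul_add, sum_add_distrib]
    ring
  · have h5 : ∀ p ∈ s.filter Nat.Prime, p ≠ q → φ (sig p) * chi p σ = 0 := fun p hp hp' => by
      rw [chi_ine_of_not_dvd hq.1 hq.ne_two
        (not_dvd_of_natAbs_eq hq.1 (mem_filter.1 hp).2 hp'.symm (Int.natAbs_natCast p)) σ hσ,
        mul_zero]
    show φ σ + _ = 0
    by_cases h6 : q ∈ s
    · rw [sum_eq_single_of_mem q (mem_filter.2 ⟨h6, hq.1⟩) h5, kd1_ine h4 ha hq hσ,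
        CharTwo.add_self_eq_zero]
    · rw [sum_eq_zero fun p hp => h5 p hp fun k => h6 (k ▸ (mem_filter.1 hp).1), add_zero,
        ← u3 1 trivial σ trivial (by simpa using hs (pl q) (by rwa [pl_p hq.1]) hσ), h4.one ha.1]

end Cu

end Pool.Agent.SP
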