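import Pool.Agent.Lib.MP_696deb_nt.SP.KD

/-! The local invariants of the cocycle of the variation formula. -/

set_option autoImplicit false

open scoped Classical
open Finset Function

namespace Pool.Agent.SP

open Pool.Agent.Lib.MP_696deb_nt Pool.Agent.Lib.MP_696deb_nt.Sm
open Pool.Agent.Lib.MP_696deb_nt.B2 (cc jC)

theorem ke_sm {ι M : Type} [AddCommMonoid M] {H : Subgroup GQ} (s : Finset ι) {f : ι → GQ → M}
    (h : ∀ i ∈ s, B2.Sm H (f i)) : B2.Sm H fun g => ∑ i ∈ s, f i g := by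
  induction s using Finset.induction_on with
  | empty => exact B2.Sm.const 0
  | insert i s hi ih =>
    simp only [sum_insert hi]
    exact (h i (mem_insert_self i s)).comp₂ (ih fun j hj => h j (mem_insert_of_mem hj)) (· + ·)

theorem ke_sm2 {ι M : Type} [AddCommMonoid M] {H : Subgroup GQ} (s : Finset ι)
    {f : ι → GQ → GQ → M} (h : ∀ i ∈ s, B2.Sm2 H (f i)) :
    B2.Sm2 H fun g k => ∑ i ∈ s, f i g k := by
  induction s using Finset.induction_on with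
  | empty => exact (B2.Sm.const 0).left
  | insert i s hi ih =>
    simp only [sum_insert hi]
    exact (h i (mem_insert_self i s)).comp₂ (ih fun j hj => h j (mem_insert_of_mem hj)) (· + ·)

theorem ke_inv {ι : Type} {m p : ℕ} (hp : p.Prime) (s : Finset ι)
    {c : ι → GQ → GQ → ZMod (2 ^ m)} (h : ∀ i ∈ s, B2.C2 m (Gv p) (c i)) :
    B2.C2 m (Gv p) (∑ i ∈ s, c i) ∧
      cft.inv m ⊤ (pl p) (∑ i ∈ s, c i) = ∑ i ∈ s, cft.inv m ⊤ (pl p) (c i) := by
  induction s using Finset.induction_on with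
  | empty =>
    have h0 : B2.Spl m (Gv p) 0 := ⟨0, B2.Sm.const 0, fun _ _ _ _ => by simp⟩
    exact ⟨h0.c2, (inv_eq_zero hp h0.c2).2 h0⟩
  | insert i s hi ih =>
    have h1 := h i (mem_insert_self i s)
    obtain ⟨h2, h3⟩ := ih fun j hj => h j (mem_insert_of_mem hj)
    rw [sum_insert hi, sum_insert hi, inv_add hp h1 h2, h3]
    exact ⟨h1.add h2, rfl⟩

namespace Cu

variable {C : Cu} {ι : Type} {s : Finset ι} {D E : ι → ℤ} {D0 : ℤ} {A a : ι → GQ → C.A}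
  {φ : ι → GQ → F2} {x b : GQ → C.A} {p v : ℕ}

theorem ke_tw {D : ℤ} (h0 : D0 ≠ 0) (hD : D ≠ 0) {P : C.A} (h : 4 • P = 0) (g : GQ) :
    C.tw D g P = C.tw D0 g P + (chi (D * D0) g).val • C.act g (2 • P) := by
  have h1 : 4 • C.act g P = 0 := by rw [← map_nsmul, h, map_zero]
  rw [chi_mul hD h0, tw, tw, map_nsmul]
  generalize C.act g P = Q at h1
  rcases F2_cases (chi D g) with e | e <;> rcases F2_cases (chi D0 g) with e' | e' <;> rw [e, e']
  · rw [add_zero, ZMod.val_zero, zero_nsmul, add_zero]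
  · rw [zero_add, ZMod.val_one, sn_zero, sn_one]
    module
  · rw [add_zero, ZMod.val_one, sn_zero, sn_one, ← sub_zero (-1 • Q), ← neg_zero, ← h1]
    module
  · rw [CharTwo.add_self_eq_zero, ZMod.val_zero, zero_nsmul, add_zero]

theorem ke_ep (hx : C.Dif s E a x) (ha : ∀ i ∈ s, C.Z2 ⊤ (a i)) {Q : C.A} (hQ : 2 • Q = 0)
    (g h : GQ) : C.ep (x (g * h)) (C.act g Q) = C.ep (x g) (C.act g Q) + C.ep (x h) Q +
      ∑ i ∈ s, chi (E i) g * C.ep (a i h) Q := by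
  have t0 := C.two_act g hQ
  have t1 := C.two_act g (hx.two h)
  have t2 : ∀ i ∈ s, 2 • (chi (E i) g).val • C.act g (a i h) = 0 := fun i hi =>
    C.two_smul_val _ (C.two_act g ((ha i hi).two h trivial))
  rw [hx.mul, C.ep_add_left (by rw [nsmul_add, hx.two, t1, add_zero])
    (by rw [smul_sum, sum_eq_zero t2]) t0, C.ep_add_left (hx.two g) t1 t0, ep_act,
    C.ep_sum_left s t2 t0]
  simp only [ep_smul_left, ep_act]

theorem dif_sum (h0 : D0 ≠ 0) (hD : ∀ i ∈ s, D i ≠ 0) (hA : ∀ i ∈ s, C.Coc (D i) (A i) ∧ LC (A i))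
    (h4 : ∀ i ∈ s, ∀ g, 4 • A i g = 0) (ha : ∀ i ∈ s, 2 • A i = a i) (hs : ∑ i ∈ s, a i = 0) :
    C.Dif s (fun i => D i * D0) a (∑ i ∈ s, A i) := by
  have h2 : ∀ g, 2 • (∑ i ∈ s, A i) g = 0 := fun g => by
    rw [← Pi.smul_apply, smul_sum, sum_congr rfl ha, hs, Pi.zero_apply]
  refine ⟨h2, (ke_sm s fun i hi => (hA i hi).2).congr fun g _ => (Finset.sum_apply g s A).symm,
    fun g h => ?_⟩
  rw [← C.tw_two D0 g (h2 h), Finset.sum_apply, Finset.sum_apply, Finset.sum_apply, tw_sum,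
    ← sum_add_distrib, ← sum_add_distrib]
  refine sum_congr rfl fun i hi => ?_
  rw [(hA i hi).1 g h, ke_tw h0 (hD i hi) (h4 i hi h), ← ha i hi, Pi.smul_apply, add_assoc]

theorem c2_zc (hx : C.Dif s E a x) (ha : ∀ i ∈ s, C.Z2 ⊤ (a i)) (hb : C.Z2 ⊤ b)
    (hφ : ∀ i ∈ s, C.Gov (a i) b (φ i)) : B2.C2 1 ⊤ (C.zc s E φ x b) := by
  refine ⟨B2.Sm2.comp₂ ?_ (ke_sm2 s fun i hi =>
    (lc_chi (E i)).left.comp₂ (hφ i hi).sm.right (· * ·)) (· + ·), fun g _ l _ m _ => ?_⟩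
  · obtain ⟨U, a1, a2, a3⟩ := (hx.sm.comp₂ (C.sm_pm ⊤) Prod.mk).left.comp₂ hb.sm.right Prod.mk
    refine ⟨U, a1, a2, fun g hg g' hg' l hl l' hl' k1 k2 => ?_⟩
    obtain ⟨e1, e3⟩ := Prod.ext_iff.1 (a3 g hg g' hg' l hl l' hl' k1 k2)
    obtain ⟨e1, e2⟩ := Prod.ext_iff.1 e1
    dsimp only at e1 e2 e3
    rw [cu, cu, e1, e3, sa3_act e2 (hb.two l' hl')]
  · rw [B2.cy_one_eq, one_mul]
    show C.zc s E φ x b l m + C.zc s E φ x b g (l * m) =
      C.zc s E φ x b (g * l) m + C.zc s E φ x b g l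
    have t1 := C.two_act l (hb.two m trivial)
    have e : ∑ i ∈ s, chi (E i) g * φ i (l * m) =
        ∑ i ∈ s, chi (E i) g * (φ i l + φ i m + C.cu (a i) b l m) :=
      sum_congr rfl fun i hi => by rw [(hφ i hi).mul]
    rw [zc, zc, zc, zc, e]
    simp only [cu, chi_mul_g, mul_add, add_mul, sum_add_distrib]
    rw [act_mul, ke_ep hx ha t1, hb.coc l trivial m trivial, map_add,
      C.ep_add_right (C.two_act g (hb.two l trivial)) (C.two_act g t1) (hx.two g)]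
    ring

theorem spl_zc (hx : C.Dif s E a x) (hE : ∀ i ∈ s, ∀ g ∈ Gv v, chi (E i) g = 0)
    (hl : C.Loc v D0 x) (hb : C.Prp v D0 b) : B2.Spl 1 (Gv v) (C.zc s E φ x b) := by
  obtain ⟨β, k1, k2⟩ := hb x ⟨fun g _ => hx.two g, fun g hg h _ => by
    rw [hx.mul, sum_eq_zero fun i hi => by rw [hE i hi g hg, ZMod.val_zero, zero_nsmul],
      add_zero], hx.sm.mono le_top⟩ hl
  refine ⟨β, k1, fun g hg h hh => ?_⟩
  rw [zc, sum_eq_zero fun i hi => by rw [hE i hi g hg, zero_mul], add_zero, k2 g hg h hh]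

theorem inv_zc_unr (hx : C.Dif s E a x) (ha : ∀ i ∈ s, C.Un (a i)) (hb : C.Un b)
    (hφ : ∀ i ∈ s, C.Gov (a i) b (φ i) ∧ C.Unf (φ i)) (hp : C.Gp p)
    (hE : ∀ i ∈ s, ¬ (p : ℤ) ∣ E i) (h0 : ∀ g ∈ Iv p, x g = 0) :
    cft.inv 1 ⊤ (pl p) (C.zc s E φ x b) = 0 := by
  have u : ∀ {c : GQ → C.A}, C.Un c → ∀ g ∈ Iv p, c g = 0 := fun h g hg => by
    rw [(h.1.mono le_top).ine hp hg, h.2 p hp, smul_zero]
  refine inv_unr hp.1 ((c2_zc hx (fun i hi => (ha i hi).1) hb.1 fun i hi => (hφ i hi).1).mono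
    le_top) fun g _ l _ σ hσ τ hτ => ?_
  rw [zc, zc, cu, cu, hx.mul, h0 σ hσ, map_zero, add_zero,
    sum_eq_zero fun i hi => by rw [u (ha i hi) σ hσ, map_zero, smul_zero], add_zero,
    hb.1.coc l trivial τ trivial, u hb τ hτ, map_zero, add_zero, act_mul,
    hp.act_ine hσ (hb.1.two l trivial)]
  refine congrArg _ (sum_congr rfl fun i hi => ?_)
  rw [chi_mul_g, chi_ine_of_not_dvd hp.1 hp.ne_two (hE i hi) σ hσ, add_zero, (hφ i hi).1.mul,
    (hφ i hi).2 p hp τ hτ, cu, u hb τ hτ, map_zero, ep_zero_right, add_zero, add_zero]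

theorem inv_zc_ram (hx : C.Dif s E a x) (ha : ∀ i ∈ s, C.Un (a i)) (hb : C.Un b)
    (hφ : ∀ i ∈ s, C.Gov (a i) b (φ i) ∧ C.Unf (φ i)) (hp : C.Gp p) (hE : ∀ i ∈ s, E i ≠ 0)
    (cb : C.Cb b (frb p)) : cft.inv 1 ⊤ (pl p) (C.zc s E φ x b) =
      ∑ i ∈ s, chi (E i) (sig p) * C.Gm (a i) b (φ i) (frb p) := by
  have _ := hE
  obtain ⟨hP, e0⟩ := yb_spec cb
  have e := cob_Gv hp (hb.1.mono le_top) (hb.2 p hp) hP e0
  simp only [Gm]
  generalize C.yb b (frb p) = P at hP e0 e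
  have k := fun i hi => (hφ i hi).1.char (hφ i hi).2 (ha i hi) hp hP e
  obtain ⟨k1, k2⟩ := ke_inv (m := 1) hp.1 s
    (c := fun i g h => chi (E i) g * (φ i h + C.ep (a i h) (C.act h P))) fun i hi =>
    c2_mul ((lc_chi (E i)).mono le_top) (fun g _ h _ => chi_mul_g _ g h) (k i hi).1 (k i hi).2.1
  refine (inv_cob hp.1 k1 (fun g => C.ep (x g) (C.act g P))
    ((hx.sm.comp₂ (C.lc_act P) C.ep).mono le_top) fun g _ h hh => ?_).trans
    (k2.trans (sum_congr rfl fun i hi =>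
      inv_tame hp.1 hp.ne_two (E i) (k i hi).1 (k i hi).2.1 (k i hi).2.2))
  have t1 := C.two_act h hP
  rw [B2.cy_one_eq, one_mul, act_mul, ke_ep hx (fun i hi => (ha i hi).1) t1, zc, cu, e h hh,
    sub_eq_add_neg (C.act h P), C.neg_two hP, map_add,
    C.ep_add_right (C.two_act g t1) (C.two_act g hP) (hx.two g), Finset.sum_apply,
    Finset.sum_apply]
  simp only [mul_add, sum_add_distrib]
  have z : ∀ a b c d e : F2, a + b + c = c + d + (b + e - (a + e + d)) := by decide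
  exact z _ _ _ _ _

end Cu

end Pool.Agent.SP
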