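import Pool.Agent.Lib.MP_696deb_nt.SP.KE

/-! The variation formula. -/

set_option autoImplicit false

open scoped Classical
open Finset Function

namespace Pool.Agent.SP

open Pool.Agent.Lib.MP_696deb_nt Pool.Agent.Lib.MP_696deb_nt.Sm
open Pool.Agent.Lib.MP_696deb_nt.B2 (cc jC)

namespace Cu

variable {C : Cu}

/-- The variation formula for a family of lifts of classes with sum zero. -/
theorem var_k {ι : Type} {s : Finset ι} {D : ι → ℤ} {l : ι → ℕ} {A a : ι → GQ → C.A}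
    {φ : ι → GQ → F2} {b : GQ → C.A} {D0 : ℤ} {l0 : ℕ} (h0 : C.Tw1 D0 l0)
    (ht : ∀ i ∈ s, C.Tw1 (D i) (l i)) (hs : ∀ i ∈ s, C.Sim (D i) D0)
    (hA : ∀ i ∈ s, C.Lift (D i) (l i) (A i)) (ha : ∀ i ∈ s, 2 • A i = a i)
    (ua : ∀ i ∈ s, C.Un (a i)) (h : ∑ i ∈ s, a i = 0) (ub : C.Un b)
    (pb : ∀ v, C.Bd v → C.Prp v D0 b) (cb : ∀ i ∈ s, C.Cb b (frb (l i))) (cb0 : C.Cb b (frb l0))
    (hφ : ∀ i ∈ s, C.Gov (a i) b (φ i) ∧ C.Unf (φ i)) :
    ∑ i ∈ s, C.Gm (a i) b (φ i) (frb (l i)) = ∑ i ∈ s, C.Gm (a i) b (φ i) (frb l0) := by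
  have hx := dif_sum h0.ne (fun i hi => (ht i hi).ne) (fun i hi => ⟨(hA i hi).coc, (hA i hi).lc⟩)
    (fun i hi => (hA i hi).tors) ha h
  have c2 := c2_zc hx (fun i hi => (ua i hi).1) ub.1 fun i hi => (hφ i hi).1
  have bad : ∀ v, C.Bd v →
      B2.Spl 1 (Gv v) (C.zc s (fun i => D i * D0) φ (∑ i ∈ s, A i) b) := fun v hv =>
    spl_zc hx (fun i hi g hg => by
      rw [chi_mul (ht i hi).ne h0.ne, hs i hi v hv g hg, CharTwo.add_self_eq_zero])
      (Finset.sum_induction A (C.Loc v D0) (fun _ _ => Loc.add) (C.loc_zero v D0) fun i hi =>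
        ((hA i hi).loc v hv).congr (fun g hg => (hs i hi v hv g hg).symm) fun _ _ => rfl) (pb v hv)
  have hV : ∀ p ∈ insert l0 (s.image l), C.Gp p ∧ C.Cb b (frb p) := fun p hp => by
    rcases mem_insert.1 hp with rfl | hp
    · exact ⟨h0.gp, cb0⟩
    · obtain ⟨i, hi, rfl⟩ := mem_image.1 hp
      exact ⟨(ht i hi).gp, cb i hi⟩
  have key := recipQ c2 (bad 0 (.inl rfl)) (insert l0 (s.image l)) (fun p hp => (hV p hp).1.1)
    fun p hp hn => by
      rcases le_or_gt p C.N0 with k | k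
      · exact (inv_eq_zero hp (c2.mono le_top)).2 (bad p (.inr ⟨hp, k⟩))
      have gp : C.Gp p := ⟨hp, k⟩
      have n0 : p ≠ l0 := fun e => hn (e ▸ mem_insert_self _ _)
      have n1 : ∀ i ∈ s, p ≠ l i := fun i hi e =>
        hn (e ▸ mem_insert_of_mem (mem_image_of_mem l hi))
      refine inv_zc_unr hx ua ub hφ gp (fun i hi d => ?_) fun g hg => ?_
      · exact ((Nat.prime_iff_prime_int.1 hp).dvd_or_dvd d).elim ((ht i hi).out p gp (n1 i hi))
          (h0.out p gp n0)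
      · rw [Finset.sum_apply]
        exact sum_eq_zero fun i hi => Coc.ine (n := 2) (hA i hi).coc (hA i hi).lc (hA i hi).tors gp
          ((ht i hi).out p gp (n1 i hi)) ((hA i hi).unr p gp (n1 i hi)) g hg
  rw [sum_congr rfl fun p hp => inv_zc_ram hx ua ub hφ (hV p hp).1
    (fun i hi => mul_ne_zero (ht i hi).ne h0.ne) (hV p hp).2, sum_comm] at key
  rw [← CharTwo.add_eq_zero, ← sum_add_distrib, ← key]
  refine sum_congr rfl fun i hi => ?_
  rw [sum_congr rfl fun p hp => by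
    rw [chi_mul (ht i hi).ne h0.ne, (ht i hi).chi_sig (hV p hp).1, h0.chi_sig (hV p hp).1, add_mul,
      ite_mul, ite_mul, one_mul, zero_mul], sum_add_distrib, sum_ite_eq', sum_ite_eq',
    if_pos (mem_insert_of_mem (mem_image_of_mem l hi)), if_pos (mem_insert_self _ _)]

end Cu

end Pool.Agent.SP
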