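import Pool.Agent.Lib.MP_696deb_nt.SP.K6
import Pool.Agent.Lib.MP_696deb_nt.B6.TAa
import Pool.Agent.Lib.MP_696deb_nt.B6.TAc

/-! Every curve over the complex numbers comes from a lattice. -/

set_option autoImplicit false

open scoped Classical
open Finset Function

namespace Pool.Agent.SP

open Pool.Agent.Lib.MP_696deb_nt Pool.Agent.Lib.MP_696deb_nt.Sm
open Pool.Agent.Lib.MP_696deb_nt.B2 (cc jC)

theorem exists_periodPair {g₂ g₃ : ℂ} (h : g₂ ^ 3 ≠ 27 * g₃ ^ 2) :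
    ∃ L : PeriodPair, L.g₂ = g₂ ∧ L.g₃ = g₃ := by
  have z : ∀ k : ℕ, 1 < k → riemannZeta k ≠ 0 := fun k hk =>
    riemannZeta_ne_zero_of_one_lt_re (by simpa using hk)
  rcases eq_or_ne g₂ 0 with rfl | h2
  · have h3 : g₃ ≠ 0 := fun e => h (by rw [e]; ring)
    obtain ⟨τ, hτ⟩ := Unif.exists_E_rel (x := 1) (y := 0) one_ne_zero
    have h4 : ModularForm.E₄ τ = 0 := by simpa using hτ
    have h6 : ModularForm.E₆ τ ≠ 0 := fun e => Unif.E_ne τ (by rw [h4, e]; ring)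
    have hw : 140 * (2 * riemannZeta (6 : ℕ) * ModularForm.E₆ τ) ≠ 0 :=
      mul_ne_zero (by norm_num) (mul_ne_zero (mul_ne_zero two_ne_zero (z 6 (by norm_num))) h6)
    obtain ⟨c, hc⟩ := IsAlgClosed.exists_pow_nat_eq
      (140 * (2 * riemannZeta (6 : ℕ) * ModularForm.E₆ τ) / g₃) (n := 6) (by norm_num)
    have c0 : c ≠ 0 := fun e => div_ne_zero hw h3 (by rw [← hc, e]; ring)
    refine ⟨Unif.pairOf τ c0, ?_, ?_⟩
    · rw [PeriodPair.g₂, Unif.G_pairOf τ c0 (by norm_num : 3 ≤ 4), h4]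
      ring
    · rw [PeriodPair.g₃, Unif.G_pairOf τ c0 (by norm_num : 3 ≤ 6), hc, mul_left_comm, inv_div,
        div_mul_cancel₀ _ hw]
  rcases eq_or_ne g₃ 0 with rfl | h3
  · obtain ⟨τ, hτ⟩ := Unif.exists_E_rel (x := 0) (y := 1) zero_ne_one
    have h6 : ModularForm.E₆ τ = 0 := by simpa using hτ.symm
    have h4 : ModularForm.E₄ τ ≠ 0 := fun e => Unif.E_ne τ (by rw [h6, e]; ring)
    have hw : 60 * (2 * riemannZeta (4 : ℕ) * ModularForm.E₄ τ) ≠ 0 :=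
      mul_ne_zero (by norm_num) (mul_ne_zero (mul_ne_zero two_ne_zero (z 4 (by norm_num))) h4)
    obtain ⟨c, hc⟩ := IsAlgClosed.exists_pow_nat_eq
      (60 * (2 * riemannZeta (4 : ℕ) * ModularForm.E₄ τ) / g₂) (n := 4) (by norm_num)
    have c0 : c ≠ 0 := fun e => div_ne_zero hw h2 (by rw [← hc, e]; ring)
    refine ⟨Unif.pairOf τ c0, ?_, ?_⟩
    · rw [PeriodPair.g₂, Unif.G_pairOf τ c0 (by norm_num : 3 ≤ 4), hc, mul_left_comm, inv_div,
        div_mul_cancel₀ _ hw]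
    · rw [PeriodPair.g₃, Unif.G_pairOf τ c0 (by norm_num : 3 ≤ 6), h6]
      ring
  · exact Unif.exists_periodPair h2 h3 h

end Pool.Agent.SP
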