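import Pool.Agent.Lib.MP_696deb_nt.SP.T0

/-! The descent theorem for twists. -/

set_option autoImplicit false

open scoped Classical
open Finset WeierstrassCurve WeierstrassCurve.Affine

namespace Pool.Agent.SP

open Pool.Agent.Lib.MP_696deb_nt Pool.Agent.Lib.MP_696deb_nt.Sm
open Pool.Agent.Lib.MP_696deb_nt.B2 (jC cc)

theorem tm_rt_ne {D : ℤ} (hD : D ≠ 0) : rt (D : Qb) ≠ 0 := fun h => hD (by
  have k := rt_mul_self (D : Qb)
  rw [h, mul_zero] at k
  exact_mod_cast k.symm)

/-- The change of variables from the twist to the curve. -/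
theorem Cu.tm_vc (C : Cu) {D : ℤ} (hD : D ≠ 0) :
    VC (algebraMap ℚ Qb) (Tw C.a C.b C.c D) (C.W Qb) (1 / rt (D : Qb)) 0 0 0 := by
  have h0 := tm_rt_ne hD
  have h1 := rt_mul_self (D : Qb)
  generalize rt (D : Qb) = r at h0 h1
  refine ⟨by simp [h0], ?_, ?_, ?_, ?_, ?_⟩ <;>
    simp only [Tw, Cu.W, map_mul, map_pow, map_intCast, map_zero, ← h1]
  · simp
  · field_simp; ring
  · simp
  · field_simp; ring
  · field_simp; ring

theorem tm_fix {x : Qb} (h : ∀ g : GQ, g x = x) : ∃ r : ℚ, algebraMap ℚ Qb r = x :=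
  (InfiniteGalois.mem_range_algebraMap_iff_fixed (k := ℚ) x).2 h

theorem Cu.tw_some (C : Cu) (D : ℤ) (g : GQ) {x y : Qb} (h : C.NS x y) :
    ∃ h', C.tw D g (.some x y h) = .some (g x) ((sn (chi D g) : Qb) * g y) h' := by
  obtain ⟨h1, e⟩ := C.act_some g h
  rw [Cu.tw, e]
  rcases F2_cases (chi D g) with k | k <;> rw [k]
  · exact ⟨by simpa [sn_zero] using h1, (congrArg (· • _) sn_zero).trans
      ((one_zsmul _).trans (ell_ext rfl (by simp [sn_zero])))⟩
  · have e2 : (C.W Qb).toAffine.negY (g x) (g y) = ((sn 1 : ℤ) : Qb) * g y := by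
      simp [negY, Cu.W, sn_one]
    refine ⟨e2 ▸ (nonsingular_neg _ _).2 h1, ?_⟩
    exact (congrArg (· • _) sn_one).trans ((neg_one_zsmul _).trans (ell_ext rfl e2))

theorem Cu.tm_range (C : Cu) {D : ℤ} (hD : D ≠ 0) (P : C.A) :
    P ∈ (C.tm_vc hD).hom.range ↔ P ∈ C.Rat D := by
  have h0 := tm_rt_ne hD
  have h1 := rt_mul_self (D : Qb)
  have hs : ∀ g : GQ, (sn (chi D g) : Qb) * sn (chi D g) = 1 := fun g => by
    rcases F2_cases (chi D g) with k | k <;> simp [k, sn_zero, sn_one]
  have hn : ∀ g : GQ, (sn (chi D g) : Qb) ≠ 0 := fun g => left_ne_zero_of_mul_eq_one (hs g)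
  rcases P with _ | ⟨x, y, h⟩
  · exact iff_of_true ⟨0, rfl⟩ (C.Rat D).zero_mem
  constructor
  · rintro ⟨_ | ⟨a, b, k⟩, e⟩ g
    · exact absurd e.symm (Point.some_ne_zero _)
    · obtain ⟨e1, e2⟩ := (Point.some.injEq ..).mp (((C.tm_vc hD).hom_some k).symm.trans e)
      obtain ⟨_, e3⟩ := C.tw_some D g h
      have h2 := hs g
      have h3 := hn g
      refine e3.trans (ell_ext ?_ ?_)
      · rw [← e1]
        simp only [map_add, map_mul, map_pow, map_div₀, map_one, map_zero, AlgEquiv.commutes,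
          chi_spec]
        generalize (sn (chi D g) : Qb) = s at h2 h3
        field_simp
        linear_combination (-(algebraMap ℚ Qb a)) * h2
      · rw [← e2]
        simp only [map_add, map_mul, map_pow, map_div₀, map_one, map_zero, AlgEquiv.commutes,
          chi_spec]
        generalize (sn (chi D g) : Qb) = s at h2 h3
        field_simp
        linear_combination (-(algebraMap ℚ Qb b)) * h2
  · intro k
    have k1 : ∀ g : GQ, g x = x ∧ (sn (chi D g) : Qb) * g y = y := fun g => by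
      obtain ⟨_, e3⟩ := C.tw_some D g h
      exact (Point.some.injEq ..).mp (e3.symm.trans (k g))
    obtain ⟨a, ha⟩ := tm_fix (x := x * rt (D : Qb) ^ 2) fun g => by
      rw [map_mul, map_pow, chi_spec, (k1 g).1]
      linear_combination (x * rt (D : Qb) ^ 2) * hs g
    obtain ⟨b, hb⟩ := tm_fix (x := y * rt (D : Qb) ^ 3) fun g => by
      rw [map_mul, map_pow, chi_spec]
      linear_combination (rt (D : Qb) ^ 3) * (k1 g).2 +
        (g y * rt (D : Qb) ^ 3 * sn (chi D g)) * hs g
    exact (C.tm_vc hD).mem_range h (x := a) (y := b) (by rw [ha]; field_simp; ring)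
      (by rw [hb]; field_simp; ring)

/-- The rational points of the twist as a subgroup of the points over the algebraic numbers. -/
theorem exists_phi (C : Cu) (D : ℤ) (hD : D ≠ 0) :
    ∃ f : (Tw C.a C.b C.c D).toAffine.Point →+ C.A,
      Function.Injective f ∧ f.range = C.Rat D :=
  ⟨_, (C.tm_vc hD).hom_injective, AddSubgroup.ext (C.tm_range hD)⟩

end Pool.Agent.SP
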