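import Pool.Agent.Lib.MP_696deb_nt.SP.KG2
import Pool.Agent.Lib.MP_696deb_nt.SP.KG1
import Pool.Agent.Lib.MP_696deb_nt.SP.K6
import Pool.Agent.Lib.MP_696deb_nt.SP.TM
import Pool.Agent.Lib.MP_696deb_nt.B6.TAa
import Pool.Agent.Lib.MP_696deb_nt.B6.TAc

/-! The Tate module of an arbitrary curve and models of the twists. -/

set_option autoImplicit false

open scoped Classical
open Finset Function

namespace Pool.Agent.SP

open Pool.Agent.Lib.MP_696deb_nt Pool.Agent.Lib.MP_696deb_nt.Sm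
open Pool.Agent.Lib.MP_696deb_nt.B2 (cc jC)

theorem kg_ne (C : Cu) {D : ℤ} (hD : D ≠ 0) :
    (⟨0, C.a * D, 0, C.b * D ^ 2, C.c * D ^ 3⟩ : WeierstrassCurve ℤ).Δ ≠ 0 := by
  have e : (⟨0, C.a * D, 0, C.b * D ^ 2, C.c * D ^ 3⟩ : WeierstrassCurve ℤ).Δ =
      16 * D ^ 6 * dsc C.a C.b C.c := by
    simp only [WeierstrassCurve.Δ, WeierstrassCurve.b₂, WeierstrassCurve.b₄, WeierstrassCurve.b₆,
      WeierstrassCurve.b₈, dsc]
    ring
  rw [e]
  exact mul_ne_zero (mul_ne_zero (by decide) (pow_ne_zero 6 hD)) C.ne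

theorem kg_vc (C : Cu) {D : ℤ} (hD : D ≠ 0) :
    VC (RingHom.id Qb) ((@B6.Wu ⟨_, kg_ne C hD⟩).baseChange Qb) (C.W Qb) (1 / rt (D : Qb))
      0 0 0 := by
  obtain ⟨h0, h1, h2, h3, h4, h6⟩ := C.tm_vc hD
  refine ⟨h0, ?_, ?_, ?_, ?_, ?_⟩
  · simpa [B6.Wu, B6.WZ, B6.Cw.W, Tw] using h1
  · simpa [B6.Wu, B6.WZ, B6.Cw.W, Tw] using h2
  · simpa [B6.Wu, B6.WZ, B6.Cw.W, Tw] using h3
  · simpa [B6.Wu, B6.WZ, B6.Cw.W, Tw] using h4
  · simpa [B6.Wu, B6.WZ, B6.Cw.W, Tw] using h6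

/-- An integral model of the twist. -/
theorem Cu.exists_twist (C : Cu) {D : ℤ} (hD : D ≠ 0) : ∃ (W : B6.Cw) (ψ : @B6.EE W ≃+ C.A),
    ∀ (g : GQ) (P : @B6.EE W), ψ (g • P) = C.tw D g (ψ P) := by
  have h0 := tm_rt_ne hD
  have v := kg_vc C hD
  refine ⟨⟨_, kg_ne C hD⟩, AddEquiv.ofBijective v.hom ⟨v.hom_injective, ?_⟩, ?_⟩
  · rintro (_ | ⟨x, y, h⟩)
    · exact ⟨0, rfl⟩
    · exact v.mem_range h (x := x * rt (D : Qb) ^ 2) (y := y * rt (D : Qb) ^ 3)
        (by rw [RingHom.id_apply]; field_simp; ring)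
        (by rw [RingHom.id_apply, RingHom.id_apply]; field_simp; ring)
  · rintro g (_ | ⟨x, y, h⟩)
    · exact (C.tw_zero D g).symm
    · have hs : (sn (chi D g) : Qb) * sn (chi D g) = 1 := by
        rcases F2_cases (chi D g) with k | k <;> simp [k, sn_zero, sn_one]
      have hn : (sn (chi D g) : Qb) ≠ 0 := left_ne_zero_of_mul_eq_one hs
      obtain ⟨_, e⟩ := C.tw_some D g ((v.nonsingular x y).mpr h)
      refine Eq.trans ?_ e.symm
      refine ell_ext ?_ ?_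
      · change (1 / rt (D : Qb)) ^ 2 * g x + 0 = _
        simp only [map_add, map_mul, map_pow, map_div₀, map_one, map_zero, chi_spec,
          RingHom.id_apply]
        generalize (sn (chi D g) : Qb) = s at hs hn
        field_simp
        linear_combination (g x) * hs
      · change (1 / rt (D : Qb)) ^ 3 * g y + (1 / rt (D : Qb)) ^ 2 * 0 * g x + 0 = _
        simp only [map_add, map_mul, map_pow, map_div₀, map_one, map_zero, chi_spec,
          RingHom.id_apply]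
        generalize (sn (chi D g) : Qb) = s at hs hn
        field_simp
        linear_combination (g y) * hs

end Pool.Agent.SP
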