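import Pool.Agent.Lib.MP_696deb_nt.SP.KG1
import Pool.Agent.Lib.MP_696deb_nt.SP.K6
import Pool.Agent.Lib.MP_696deb_nt.B6.TAa
import Pool.Agent.Lib.MP_696deb_nt.B6.TAc

/-! The Tate module of an arbitrary curve. -/

set_option autoImplicit false

open scoped Classical
open Finset Function

namespace Pool.Agent.SP

open Pool.Agent.Lib.MP_696deb_nt Pool.Agent.Lib.MP_696deb_nt.Sm
open Pool.Agent.Lib.MP_696deb_nt.B2 (cc jC)

theorem kg2_per [B6.Cw] :
    ∃ L : PeriodPair, Shared.Weier.IsPer L (B6.Wu.baseChange ℂ) := by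
  obtain ⟨L, h2, h3⟩ := exists_periodPair
    (g₂ := (B6.Wu.baseChange ℂ).c₄ / 12) (g₃ := (B6.Wu.baseChange ℂ).c₆ / 216) fun e =>
      (B6.Wu.baseChange ℂ).isUnit_Δ.ne_zero (by
        linear_combination (B6.Wu.baseChange ℂ).c_relation / 1728 + e)
  exact ⟨L, by rw [h2]; ring, by rw [h3]; ring⟩

open B6 in
open Pool.Agent.Lib.MP_696deb_nt.B2 (taa_int taa_ne) in
theorem kg2_emb [B6.Cw] : Nonempty B6.Emb := by
  have := Fact.mk kg2_per
  refine ⟨⟨taaE, fun m x y h => ?_, fun m P h => ?_, fun m k x => pmap_injective jC ?_, taa_weil⟩⟩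
  · have e := congrArg (pmap jC) h
    rw [taa_spec (taa_int _) (taa_int _), taa_spec (taa_int _) (taa_int _), taa_iff, taa_int,
      taa_int, taa_int, taa_int] at e
    funext i
    fin_cases i
    exacts [e.1, e.2]
  · obtain ⟨u, hu⟩ := unU_surjective (pmap jC P)
    obtain ⟨a, b, e⟩ := PeriodPair.mem_lattice.1 (unU_eq_zero_iff.1
      ((taa_pow hu.symm m).symm.trans (by rw [h, map_zero])))
    refine ⟨![a, b], pmap_injective jC ?_⟩
    rw [taa_spec (a := a) (b := b) rfl rfl, taaV, e, mul_div_cancel_left₀ _ (taa_ne m), hu]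
  · rw [taa_pow (taa_spec (taa_int _) (taa_int _)),
      taa_spec (a := (x 0).val) (b := (x 1).val) (by simp) (by simp), pow_add (2 : ℂ)]
    congr 1
    have := taa_ne m
    have := taa_ne k
    field_simp

theorem exists_TB [B6.Cw] : Nonempty B6.TB :=
  kg2_emb.elim fun E => E.exists_rho.elim fun T _ => ⟨T⟩

end Pool.Agent.SP
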