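import Pool.Agent.Lib.MP_696deb_nt.SP.KG

/-! The Weil pairing on the four-torsion. -/

set_option autoImplicit false

open scoped Classical
open Finset Function

namespace Pool.Agent.SP

open Pool.Agent.Lib.MP_696deb_nt Pool.Agent.Lib.MP_696deb_nt.Sm
open Pool.Agent.Lib.MP_696deb_nt.B2 (cc jC)

theorem kh_right : ∀ x y : Fin 2 → ZMod (2 ^ (1 + 1)), 2 • y = 0 →
    B2.det2 x y = B2.up 1 (if 2 • x = 0 ∨ y = 0 ∨ 2 • x = y then 0 else 1) := by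
  decide

theorem kh_left : ∀ x y : Fin 2 → ZMod (2 ^ (1 + 1)), 2 • x = 0 →
    B2.det2 x y = B2.up 1 (if x = 0 ∨ 2 • y = 0 ∨ x = 2 • y then 0 else 1) := by
  decide

theorem Cu.exists_E4 (C : Cu) {D : ℤ} (hD : D ≠ 0) : Nonempty (C.E4 D) := by
  obtain ⟨W, ψ, hψ⟩ := C.exists_twist hD
  obtain ⟨T⟩ := exists_TB
  obtain ⟨f, hf⟩ : ∃ f : (Fin 2 → ZMod (2 ^ (1 + 1))) →+ C.A, ∀ x, f x = ψ (T.emb (1 + 1) x) :=
    ⟨ψ.toAddMonoidHom.comp (T.emb (1 + 1)), fun _ => rfl⟩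
  have hi : Injective f := fun x y h => T.inj _ (ψ.injective (by rwa [← hf, ← hf]))
  have hs : ∀ P : C.A, 4 • P = 0 → ∃ x, f x = P := fun P h => by
    obtain ⟨x, hx⟩ := T.surj (1 + 1) (ψ.symm P) (by
      rw [← map_nsmul]
      exact (congrArg _ h).trans (map_zero _))
    exact ⟨x, by rw [hf, hx, ψ.apply_symm_apply]⟩
  have hl := leftInverse_invFun hi
  have ht : ∀ g x, C.tw D g (f x) = f ((B2.mred (1 + 1) (T.ρ g)).mulVec x) := fun g x => by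
    rw [hf, hf, ← hψ, T.smul]
  have h4 : ∀ S : C.A, 2 • S = 0 → 4 • S = 0 := fun S h => by
    rw [show 4 = 2 * 2 from rfl, mul_smul, h, smul_zero]
  have he : ∀ x y, C.ep (f x) (f y) = if x = 0 ∨ y = 0 ∨ x = y then 0 else 1 := fun x y => by
    simp only [Cu.ep, map_eq_zero_iff f hi, hi.eq_iff]
  refine ⟨⟨fun P Q => B2.det2 (invFun f P) (invFun f Q), fun P P' Q h1 h2 _ => ?_,
    fun P Q Q' _ h1 h2 => ?_, fun g P Q h1 h2 => ?_, fun P S h1 h2 => ?_, fun S P h1 h2 => ?_,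
    fun H A B P Q hH h1 h2 h3 h5 => ?_⟩⟩
  · obtain ⟨x, rfl⟩ := hs P h1
    obtain ⟨y, rfl⟩ := hs P' h2
    rw [← map_add, hl, hl, hl]
    simp only [B2.det2, Pi.add_apply]
    ring
  · obtain ⟨x, rfl⟩ := hs Q h1
    obtain ⟨y, rfl⟩ := hs Q' h2
    rw [← map_add, hl, hl, hl]
    simp only [B2.det2, Pi.add_apply]
    ring
  · obtain ⟨x, rfl⟩ := hs P h1
    obtain ⟨y, rfl⟩ := hs Q h2
    rw [ht, ht, hl, hl, hl, hl, B6.tac_det]
  · obtain ⟨x, rfl⟩ := hs P h1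
    obtain ⟨y, rfl⟩ := hs S (h4 S h2)
    rw [hl, hl, ← map_nsmul, he, kh_right x y (hi (by rw [map_nsmul, h2, map_zero]))]
  · obtain ⟨x, rfl⟩ := hs S (h4 S h1)
    obtain ⟨y, rfl⟩ := hs P h2
    rw [hl, hl, ← map_nsmul, he, kh_left x y (hi (by rw [map_nsmul, h1, map_zero]))]
  · have k : ∀ (A : GQ → C.A) (P : C.A), (∀ g ∈ H, 4 • A g = 0) → (∀ g ∈ H, A g = C.cob D P g) →
        ∀ g ∈ H, T.emb (1 + 1) (invFun f (A g)) = g • ψ.symm P - ψ.symm P := fun A P a1 a2 g hg =>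
      ψ.injective (by
        rw [← hf, invFun_eq (hs _ (a1 g hg)), map_sub, hψ, ψ.apply_symm_apply, a2 g hg, Cu.cob])
    obtain ⟨b, b1, b2⟩ := T.iso (1 + 1) H _ _ _ _ hH (k A P h1 h3) (k B Q h2 h5)
    refine ⟨b, b1, fun g hg h hh => (b2 g hg h hh).symm ▸ ?_⟩
    obtain ⟨y, hy⟩ := hs _ (h2 h hh)
    beta_reduce
    rw [← hy, ht, hl, hl]

end Pool.Agent.SP
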