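import Pool.Agent.Lib.MP_696deb_nt.SP.KD

/-! The cocycle of the symmetry formula. -/

set_option autoImplicit false

open scoped Classical
open Finset Function

namespace Pool.Agent.SP

open Pool.Agent.Lib.MP_696deb_nt Pool.Agent.Lib.MP_696deb_nt.Sm
open Pool.Agent.Lib.MP_696deb_nt.B2 (cc jC)

namespace Cu

variable {C : Cu} {D D' : ℤ} (W : C.E4 D) {A B a b : GQ → C.A} {φ : GQ → F2} {p v : ℕ}

/-- The data of two lifts. -/
structure Two (C : Cu) (D D' : ℤ) (A B a b : GQ → C.A) (φ : GQ → F2) : Prop where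
  ne : D ≠ 0
  ne' : D' ≠ 0
  tA : ∀ g, 4 • A g = 0
  tB : ∀ g, 4 • B g = 0
  cA : C.Coc D A
  cB : C.Coc D' B
  lA : LC A
  lB : LC B
  ha : 2 • A = a
  hb : 2 • B = b
  ua : C.Un a
  ub : C.Un b
  gov : C.Gov a b φ
  unf : C.Unf φ

theorem ki_sm2_act (hB : LC B) : B2.Sm2 ⊤ fun g k => C.act g (B k) := by
  have hf : Finite (B '' ((⊤ : Subgroup GQ) : Set GQ)) := hB.finite_range.to_subtype
  have h1 : B2.Sm ⊤ fun g => fun P : (B '' ((⊤ : Subgroup GQ) : Set GQ)) => C.act g P.1 :=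
    B2.Sm.pi fun P => C.lc_act P.1
  obtain ⟨U, a1, a2, a3⟩ := h1.left.comp₂ hB.right Prod.mk
  refine ⟨U, a1, a2, fun g hg g' hg' l hl l' hl' k1 k2 => ?_⟩
  obtain ⟨e1, e2⟩ := Prod.ext_iff.1 (a3 g hg g' hg' l hl l' hl' k1 k2)
  dsimp only at e1 e2
  show C.act g (B l) = C.act g' (B l')
  rw [e2]
  exact congrFun e1 ⟨B l', l', hl', rfl⟩

theorem ki_four (D : ℤ) (g : GQ) {P : C.A} (h : 4 • P = 0) : 4 • C.tw D g P = 0 := by
  rw [← tw_nsmul, h, tw_zero]

theorem ki_four_of_two {P : C.A} (h : 2 • P = 0) : 4 • P = 0 := by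
  rw [show (4 : ℕ) = 2 * 2 from rfl, mul_smul, h, smul_zero]

theorem ki_tw (hD : D ≠ 0) (hD' : D' ≠ 0) (g : GQ) {P : C.A} (h : 4 • P = 0) :
    C.tw D' g P = C.tw D g P + (chi (D * D') g).val • C.act g (2 • P) := by
  have h4 : 4 • C.act g P = 0 := by rw [← map_nsmul, h, map_zero]
  rw [tw, tw, chi_mul hD hD', map_nsmul]
  generalize C.act g P = Q at h4 ⊢
  have v0 : (0 : F2).val = 0 := rfl
  have v1 : (1 : F2).val = 1 := rfl
  have s1 : (1 + 1 : F2) = 0 := rfl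
  rcases F2_cases (chi D g) with h1 | h1 <;> rcases F2_cases (chi D' g) with h2 | h2 <;>
    rw [h1, h2]
  · rw [add_zero, v0, zero_smul, add_zero]
  · rw [zero_add, v1, one_smul, sn_zero, sn_one, one_zsmul, neg_one_zsmul, neg_eq_iff_add_eq_zero,
      ← h4]
    abel
  · rw [add_zero, v1, one_smul, sn_zero, sn_one, one_zsmul, neg_one_zsmul]
    abel
  · rw [s1, v0, zero_smul, add_zero]

theorem c2_z (h : C.Two D D' A B a b φ) : B2.C2 (1 + 1) ⊤ (W.z D' A B a b φ) := by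
  have ha : ∀ g, a g = 2 • A g := fun g => by rw [← h.ha]; rfl
  have hb : ∀ g, b g = 2 • B g := fun g => by rw [← h.hb]; rfl
  have c2 := c2_cu h.ua.1 h.ub.1
  refine ⟨?_, fun g _ k _ l _ => ?_⟩
  · have s1 : B2.Sm2 ⊤ fun g k => C.tw D g (B k) :=
      (lc_chi D).left.comp₂ (ki_sm2_act h.lB) fun c P => sn c • P
    exact (h.lA.left.comp₂ s1 W.e).comp₂
      (((lc_chi (D * D')).left.comp₂ (c2.1.comp₂ h.gov.sm.right fun x y => x + y)
        fun x y => x * y).comp (B2.up 1)) fun x y => x + y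
  · have c3 := c2.2 g trivial k trivial l trivial
    rw [B2.cy_one_eq, one_mul] at c3
    have tb : ∀ g, 2 • b g = 0 := fun g => h.ub.1.two g trivial
    have ta : ∀ g, 2 • a g = 0 := fun g => h.ua.1.two g trivial
    have t1 := C.two_act g (C.two_act k (tb l))
    have c4 : C.cu a b (g * k) l = C.ep (a g) (C.act g (C.act k (b l))) + C.cu a b k l := by
      rw [cu, cu, h.ua.1.coc g trivial k trivial, act_mul, ← C.ep_act g (a k),
        C.ep_add_left (ta g) (C.two_act g (ta k)) t1]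
    have t2 : 2 • ((chi (D * D') k).val • C.act k (b l)) = 0 := by
      rw [smul_comm, C.two_act k (tb l), smul_zero]
    have t3 : 2 • ((chi (D * D') k).val • C.act g (C.act k (b l))) = 0 := by
      rw [smul_comm, t1, smul_zero]
    have e1 : C.tw D g (B (k * l)) = C.tw D g (B k) + C.tw D g (C.tw D k (B l)) +
        (chi (D * D') k).val • C.act g (C.act k (b l)) := by
      rw [h.cB, ki_tw h.ne h.ne' k (h.tB l), ← hb, tw_add, tw_add, C.tw_two D g t2, map_nsmul,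
        add_assoc]
    have f1 := ki_four D g (h.tB k)
    have f2 := ki_four D g (ki_four D k (h.tB l))
    simp only [E4.z]
    rw [e1, W.addr _ _ _ (h.tA g) (by rw [smul_add, f1, f2, add_zero]) (ki_four_of_two t3),
      W.addr _ _ _ (h.tA g) f1 f2, W.right _ _ (h.tA g) t3, ← ha, ep_smul_right, h.cA, tw_mul,
      W.addl _ _ _ (h.tA g) (ki_four D g (h.tA k)) f2,
      W.eqv g _ _ (h.tA k) (ki_four D k (h.tB l)), mul_add, B2.cy_mul_up, chi_mul_g, h.gov.mul]
    have key : chi (D * D') k * (C.cu a b k l + φ l) +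
        (chi (D * D') k * C.ep (a g) (C.act g (C.act k (b l))) +
        chi (D * D') g * (C.cu a b g (k * l) + (φ k + φ l + C.cu a b k l))) =
        (chi (D * D') g + chi (D * D') k) * (C.cu a b (g * k) l + φ l) +
          chi (D * D') g * (C.cu a b g k + φ k) := by
      have e : C.cu a b g (k * l) = C.cu a b (g * k) l + C.cu a b g k - C.cu a b k l :=
        eq_sub_of_add_eq' c3
      rw [e, c4]
      ring
    have key2 := congrArg (B2.up 1) key
    rw [B2.up_add, B2.up_add, B2.up_add] at key2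
    linear_combination key2

theorem spl_z (h : C.Two D D' A B a b φ) (hv : v = 0 ∨ v.Prime)
    (e : ∀ g ∈ Gv v, chi D' g = chi D g) (hA : C.Loc v D A) (hB : C.Loc v D' B) :
    B2.Spl (1 + 1) (Gv v) (W.z D' A B a b φ) := by
  obtain ⟨P, hP⟩ := hA
  obtain ⟨Q, hQ⟩ := hB
  obtain ⟨β, h1, h2⟩ := W.iso (Gv v) A B P Q (closed_Gv hv) (fun g _ => h.tA g) (fun g _ => h.tB g)
    hP fun g hg => by rw [hQ g hg, cob, cob, tw, tw, e g hg]
  refine ⟨β, h1, fun g hg k hk => ?_⟩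
  rw [← h2 g hg k hk, E4.z, chi_mul h.ne h.ne', e g hg, CharTwo.add_self_eq_zero (chi D g),
    zero_mul, B2.up_zero, add_zero]

theorem inv_z_unr (h : C.Two D D' A B a b φ) (hp : C.Gp p) (hD : ¬ (p : ℤ) ∣ D)
    (hD' : ¬ (p : ℤ) ∣ D') (hA : A (sig p) = 0) (hB : B (sig p) = 0) :
    cft.inv (1 + 1) ⊤ (pl p) (W.z D' A B a b φ) = 0 := by
  have ha : ∀ g, a g = 2 • A g := fun g => by rw [← h.ha]; rfl
  have hb : ∀ g, b g = 2 • B g := fun g => by rw [← h.hb]; rfl
  have iA := h.cA.ine (n := 2) h.lA h.tA hp hD hA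
  have iB := h.cB.ine (n := 2) h.lB h.tB hp hD' hB
  have hDD : ¬ (p : ℤ) ∣ D * D' := fun k =>
    ((Nat.prime_iff_prime_int.1 hp.1).dvd_or_dvd k).elim hD hD'
  refine inv_unr hp.1 ((c2_z W h).mono le_top) fun g _ l _ σ hσ τ hτ => ?_
  have e1 : A (g * σ) = A g := by rw [h.cA, iA σ hσ, tw_zero, add_zero]
  have e2 : B (l * τ) = B l := by rw [h.cB, iB τ hτ, tw_zero, add_zero]
  have e3 : a (g * σ) = a g := by rw [ha, ha, e1]
  have e4 : b (l * τ) = b l := by rw [hb, hb, e2]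
  have e5 : b τ = 0 := by rw [hb, iB τ hτ, smul_zero]
  rw [E4.z, E4.z, e1, e2, tw_mul, hp.tw_tors (n := 2) hD (h.tB l) σ hσ, chi_mul_g,
    chi_ine_of_not_dvd hp.1 hp.ne_two hDD σ hσ, add_zero, h.gov.mul, h.unf p hp τ hτ, add_zero,
    cu, cu, cu, e3, e4, e5, map_zero, ep_zero_right, add_zero, act_mul,
    hp.act_ine hσ (h.ub.1.two l trivial)]

end Cu

end Pool.Agent.SP
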