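import Pool.Agent.Lib.MP_696deb_nt.SP.KJ1
import Pool.Agent.Lib.MP_696deb_nt.SP.KI

/-! The invariants of the cocycle of the symmetry formula at the twisting primes. -/

set_option autoImplicit false

open scoped Classical
open Finset Function

namespace Pool.Agent.SP

open Pool.Agent.Lib.MP_696deb_nt Pool.Agent.Lib.MP_696deb_nt.Sm
open Pool.Agent.Lib.MP_696deb_nt.B2 (cc jC)

namespace Cu

variable {C : Cu} {D D' : ℤ} (W : C.E4 D) {A B a b : GQ → C.A} {φ : GQ → F2} {p : ℕ}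

/-- The two twisted actions differ by a point of order two. -/
theorem kj_tw (hD : D ≠ 0) (hD' : D' ≠ 0) (g : GQ) {Q : C.A} (hQ : 4 • Q = 0) :
    C.tw D g Q = C.tw D' g Q + (chi (D * D') g).val • C.act g (2 • Q) := by
  have h4 : C.act g Q + C.act g Q + (C.act g Q + C.act g Q) = 0 := by
    rw [← map_add, ← map_add, ← two_nsmul, ← two_nsmul, smul_smul, show (2 * 2) • Q = 0 from hQ,
      map_zero]
  rw [chi_mul hD hD', tw, tw, two_nsmul, map_add]
  generalize C.act g Q = X at h4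
  rcases F2_cases (chi D g) with e | e <;> rcases F2_cases (chi D' g) with e' | e' <;> rw [e, e']
  · rw [add_zero, ZMod.val_zero, zero_nsmul, add_zero]
  · rw [zero_add, ZMod.val_one, one_nsmul, sn_zero, sn_one, one_zsmul, neg_one_zsmul]
    abel
  · rw [add_zero, ZMod.val_one, one_nsmul, sn_zero, sn_one, one_zsmul, neg_one_zsmul,
      neg_eq_iff_add_eq_zero, ← add_assoc, ← add_assoc, ← h4]
    abel
  · rw [CharTwo.add_self_eq_zero, ZMod.val_zero, zero_nsmul, add_zero]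

theorem kj_four {S : C.A} (h : 2 • S = 0) : 4 • S = 0 := by
  rw [show 4 = 2 * 2 from rfl, ← smul_smul, h, smul_zero]

theorem kj_four_tw (D : ℤ) (g : GQ) {Q : C.A} (h : 4 • Q = 0) : 4 • C.tw D g Q = 0 := by
  rw [← tw_nsmul, h, tw_zero]

theorem inv_z_right (h : C.Two D D' A B a b φ) (hp : C.Gp p) (hD : ¬ (p : ℤ) ∣ D)
    (hA : A (sig p) = 0) (ca : C.Cb a (frb p)) (cb : C.Cb b (frb p)) :
    cft.inv (1 + 1) ⊤ (pl p) (W.z D' A B a b φ) =
      B2.up 1 (chi (D * D') (sig p) * C.Gm a b φ (frb p)) := by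
  obtain ⟨P, hP, e⟩ := ca
  have za : C.Z2 (Gv p) a := h.ua.1.mono le_top
  have zb : C.Z2 (Gv p) b := h.ub.1.mono le_top
  have b2 : ∀ g, 2 • b g = 0 := fun g => h.ub.1.two g trivial
  have ea := cob_Gv hp za (h.ua.2 p hp) hP e
  obtain ⟨R, hR⟩ := C.exists_half P
  have R4 : 4 • R = 0 := by rw [show 4 = 2 * 2 from rfl, ← smul_smul, hR, hP]
  have a2 : ∀ g, 2 • A g = a g := fun g => congrFun h.ha g
  have B2' : ∀ g, 2 • B g = b g := fun g => congrFun h.hb g
  have t2 : ∀ g ∈ Gv p, 2 • (A - C.cob D R) g = 0 := fun g hg => by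
    rw [Pi.sub_apply, smul_sub, a2, ea g hg, cob, smul_sub, ← tw_nsmul, hR, C.tw_two D g hP,
      sub_self]
  have zα : C.Z2 (Gv p) (A - C.cob D R) :=
    ⟨t2, fun g _ k hk => by
      rw [← C.tw_two D g (t2 k hk)]
      simp only [Pi.sub_apply, h.cA g k, cob_mul, tw_sub]
      abel, (h.lA.mono le_top).comp₂ ((C.lc_cob D R).mono le_top) (· - ·)⟩
  have α0 : (A - C.cob D R) (sig p) = 0 := by
    rw [Pi.sub_apply, hA, cob, hp.tw_tors (n := 2) hD R4 _ (sig_ine hp.1 hp.ne_two), sub_self,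
      sub_self]
  have ec : ∀ g ∈ Gv p, ∀ k, C.cu a b g k = C.ep P (b k) + C.ep P (C.act g (b k)) :=
    fun g hg k => by
      rw [cu, ea g hg, sub_eq_add_neg, C.neg_two hP,
        C.ep_add_left (C.two_act g hP) hP (C.two_act g (b2 k)), ep_act]
  have s1 : B2.Sm (Gv p) fun g => φ g + C.ep P (b g) :=
    (h.gov.sm.mono le_top).comp₂ zb.sm fun x y => x + C.ep P y
  have s2 : B2.IsHom (Gv p) fun g => φ g + C.ep P (b g) := fun g hg k hk => by
    beta_reduce
    rw [h.gov.mul, ec g hg, zb.coc g hg k hk, C.ep_add_right (b2 g) (C.two_act g (b2 k)) hP]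
    have e1 : ∀ x y z t u : F2, x + y + (z + t) + (u + t) = x + u + (y + z) := by decide
    exact e1 _ _ _ _ _
  have s3 : ∀ g ∈ Iv p, φ g + C.ep P (b g) = 0 := fun g hg => by
    rw [h.unf p hp g hg, zb.ine hp hg, h.ub.2 p hp, nsmul_zero, ep_zero_right, add_zero]
  have c1 := c2_cu zα zb
  have c2 := c2_mul (ho_chi (Gv p) (D * D')).1 (ho_chi (Gv p) (D * D')).2 s1 s2
  have i1 : cft.inv 1 ⊤ (pl p) (C.cu (A - C.cob D R) b) = 0 := by
    have := Bv_tame hp zα zb α0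
    rwa [h.ub.2 p hp, ep_zero_right] at this
  have i2 := inv_tame hp.1 hp.ne_two (D * D') s1 s2 s3
  have i3 := inv_add hp.1 c1 c2
  rw [i1, i2, zero_add, ← Gm_eq' cb hP e] at i3
  rw [← i3, ← inv_upQ hp.1 (c1.add c2)]
  refine inv_cob hp.1 (B2.c2_up (c1.add c2) 1) (fun g => W.e R (B g))
    ((h.lB.mono le_top).comp (W.e R)) fun g hg k _ => ?_
  have q1 := kj_four_tw D g (h.tB k)
  have q2 := kj_four_tw D' g (h.tB k)
  have q3 := C.two_smul_val (chi (D * D') g) (C.two_act g (b2 k))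
  have e1 : W.e (A g + R) (C.tw D g (B k)) =
      W.e ((A - C.cob D R) g + C.tw D g R) (C.tw D g (B k)) := by
    rw [Pi.sub_apply, cob]
    congr 1
    abel
  rw [W.addl _ _ _ (h.tA g) R4 q1, W.addl _ _ _ (kj_four (t2 g hg)) (kj_four_tw D g R4) q1,
    W.eqv g _ _ R4 (h.tB k), W.left _ _ (t2 g hg) q1, ← tw_nsmul, B2', C.tw_two D g (b2 k)] at e1
  have e2 : W.e R (C.tw D g (B k)) = W.e R (C.tw D' g (B k)) +
      B2.up 1 (chi (D * D') g * C.ep P (C.act g (b k))) := by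
    rw [kj_tw h.ne h.ne' g (h.tB k), B2', W.addr _ _ _ R4 q2 (kj_four q3), W.right _ _ R4 q3, hR,
      ep_smul_right]
  have e3 : W.e R (B (g * k)) = W.e R (B g) + W.e R (C.tw D' g (B k)) := by
    rw [h.cB g k, W.addr _ _ _ R4 (h.tB g) q2]
  have e4 : B2.up 1 (chi (D * D') g * (C.cu a b g k + φ k)) =
      B2.up 1 (chi (D * D') g * (φ k + C.ep P (b k))) +
        B2.up 1 (chi (D * D') g * C.ep P (C.act g (b k))) := by
    rw [← B2.up_add, ec g hg]
    congr 1
    ring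
  have e5 := B2.up_add 1 (C.ep ((A - C.cob D R) g) (C.act g (b k)))
    (chi (D * D') g * (φ k + C.ep P (b k)))
  change W.e (A g) (C.tw D g (B k)) + B2.up 1 (chi (D * D') g * (C.cu a b g k + φ k)) =
    B2.up 1 (C.ep ((A - C.cob D R) g) (C.act g (b k)) + chi (D * D') g * (φ k + C.ep P (b k))) +
      (W.e R (B g) + B2.cy (1 + 1) g * W.e R (B k) - W.e R (B (g * k)))
  linear_combination e1 - e2 + e3 + e4 - e5

end Cu

end Pool.Agent.SP
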