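import Pool.Agent.Lib.MP_696deb_nt.SP.KI

/-! The invariant at the first twisting prime. -/

set_option autoImplicit false

open scoped Classical
open Finset Function

namespace Pool.Agent.SP

open Pool.Agent.Lib.MP_696deb_nt Pool.Agent.Lib.MP_696deb_nt.Sm
open Pool.Agent.Lib.MP_696deb_nt.B2 (cc jC)

namespace Cu

variable {C : Cu} {D D' : ℤ} (W : C.E4 D) {A B a b : GQ → C.A} {φ : GQ → F2} {p : ℕ}

theorem kj1_four {S : C.A} (h : 2 • S = 0) : 4 • S = 0 := by
  rw [show 4 = 2 * 2 from rfl, mul_nsmul, h, nsmul_zero]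

theorem kj1_tw4 (D : ℤ) (g : GQ) {R : C.A} (h : 4 • R = 0) : 4 • C.tw D g R = 0 := by
  rw [← tw_nsmul, h, tw_zero]

theorem kj1_tw (hD : D ≠ 0) (hD' : D' ≠ 0) (g : GQ) {R : C.A} (h : 4 • R = 0) :
    C.tw D' g R = C.tw D g R + (chi (D * D') g).val • C.act g (2 • R) := by
  have h4 : 4 • C.act g R = 0 := by rw [← map_nsmul, h, map_zero]
  rw [chi_mul hD hD', tw, tw, map_nsmul]
  generalize C.act g R = X at h4
  rcases F2_cases (chi D g) with e | e <;> rcases F2_cases (chi D' g) with e' | e' <;> rw [e, e']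
  · simp
  · rw [zero_add, sn_zero, sn_one, ZMod.val_one, one_nsmul, one_zsmul, neg_one_zsmul,
      neg_eq_iff_add_eq_zero, ← h4]
    abel
  · rw [add_zero, sn_zero, sn_one, ZMod.val_one, one_nsmul, one_zsmul, neg_one_zsmul]
    abel
  · rw [CharTwo.add_self_eq_zero, ZMod.val_zero, zero_nsmul, add_zero]

/-- The cocycle is cohomologous to a cocycle with values of order two. -/
theorem kj1_key (h : C.Two D D' A B a b φ) {R : C.A} (hR : 4 • R = 0) {g k : GQ}
    (e : b k = C.act k (2 • R) - 2 • R) :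
    W.z D' A B a b φ g k = B2.up 1 (C.cu a (B - C.cob D' R) g k +
        chi (D * D') g * (φ k + C.ep (a k) (C.act k (2 • R)))) +
      ((B2.up 1 (chi (D * D') g * C.ep (a g) (C.act g (2 • R))) - W.e (A g) (C.tw D g R)) +
        B2.cy (1 + 1) g *
          (B2.up 1 (chi (D * D') k * C.ep (a k) (C.act k (2 • R))) - W.e (A k) (C.tw D k R)) -
        (B2.up 1 (chi (D * D') (g * k) * C.ep (a (g * k)) (C.act (g * k) (2 • R))) -
          W.e (A (g * k)) (C.tw D (g * k) R))) := by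
  have hP : 2 • 2 • R = 0 := by rw [← mul_nsmul]; exact hR
  have a2 : ∀ g, 2 • A g = a g := fun g => congrFun h.ha g
  have t2 : ∀ g, 2 • a g = 0 := fun g => h.ua.1.two g trivial
  have hβ : 2 • (B - C.cob D' R) k = 0 := by
    rw [Pi.sub_apply, nsmul_sub, show 2 • B k = b k from congrFun h.hb k, e, cob, nsmul_sub,
      ← tw_nsmul, C.tw_two D' k hP, sub_self]
  have hS := C.two_smul_val (chi (D * D') k) (C.two_act (g * k) hP)
  have e1 : C.tw D g (B k) + C.tw D g R = C.act g ((B - C.cob D' R) k) + (C.tw D (g * k) R +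
      (chi (D * D') k).val • C.act (g * k) (2 • R)) := by
    rw [← C.tw_two D g hβ, act_mul, ← map_nsmul, tw_mul,
      ← C.tw_two D g (C.two_smul_val _ (C.two_act k hP)), ← tw_add, ← tw_add, ← tw_add,
      ← kj1_tw h.ne h.ne' k hR, Pi.sub_apply, cob]
    congr 1
    abel
  have e2 := congrArg (W.e (A g)) e1
  rw [W.addr _ _ _ (h.tA g) (kj1_tw4 D g (h.tB k)) (kj1_tw4 D g hR),
    W.addr _ _ _ (h.tA g) (kj1_four (C.two_act g hβ))
      (by rw [nsmul_add, kj1_tw4 D _ hR, kj1_four hS, add_zero]),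
    W.addr _ _ _ (h.tA g) (kj1_tw4 D _ hR) (kj1_four hS), W.right _ _ (h.tA g) (C.two_act g hβ),
    W.right _ _ (h.tA g) hS, a2, ep_smul_right] at e2
  have e3 : W.e (A (g * k)) (C.tw D (g * k) R) =
      W.e (A g) (C.tw D (g * k) R) + B2.cy (1 + 1) g * W.e (A k) (C.tw D k R) := by
    rw [h.cA g k, W.addl _ _ _ (h.tA g) (kj1_tw4 D g (h.tA k)) (kj1_tw4 D _ hR),
      ← W.eqv g _ _ (h.tA k) (kj1_tw4 D k hR), ← tw_mul]
  have e4 : C.ep (a (g * k)) (C.act (g * k) (2 • R)) =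
      C.ep (a g) (C.act (g * k) (2 • R)) + C.ep (a k) (C.act k (2 • R)) := by
    rw [h.ua.1.coc g trivial k trivial,
      C.ep_add_left (t2 g) (C.two_act g (t2 k)) (C.two_act _ hP), ← C.ep_act g (a k), ← act_mul]
  have e5 : C.cu a b g k =
      C.ep (a g) (C.act (g * k) (2 • R)) + C.ep (a g) (C.act g (2 • R)) := by
    rw [cu, e, map_sub, ← act_mul, sub_eq_add_neg, C.neg_two (C.two_act g hP),
      C.ep_add_right (C.two_act _ hP) (C.two_act g hP) (t2 g)]
  rw [E4.z, e3, e4, e5, mul_sub, B2.cy_mul_up, chi_mul_g, cu, eq_sub_of_add_eq e2]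
  generalize C.ep (a g) (C.act (g * k) (2 • R)) = x
  generalize C.ep (a g) (C.act g (2 • R)) = y
  generalize C.ep (a k) (C.act k (2 • R)) = y'
  generalize chi (D * D') g = s
  generalize chi (D * D') k = t
  have e6 : ∀ c s t x y y' u : F2, B2.up 1 c + B2.up 1 (t * x) + B2.up 1 (s * (x + y + u)) =
      B2.up 1 (c + s * (u + y')) + B2.up 1 (s * y) + B2.up 1 (t * y') -
        B2.up 1 ((s + t) * (x + y')) := by decide
  linear_combination e6 (C.ep (a g) (C.act g ((B - C.cob D' R) k))) s t x y y' (φ k)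

theorem inv_z_left (h : C.Two D D' A B a b φ) (hp : C.Gp p) (hD' : ¬ (p : ℤ) ∣ D')
    (hB : B (sig p) = 0) (cb : C.Cb b (frb p)) : cft.inv (1 + 1) ⊤ (pl p) (W.z D' A B a b φ) =
      B2.up 1 (chi (D * D') (sig p) * C.Gm a b φ (frb p)) := by
  obtain ⟨hP, e⟩ := yb_spec cb
  have e1 := cob_Gv hp (h.ub.1.mono le_top) (h.ub.2 p hp) hP e
  obtain ⟨c1, c2, c3⟩ := h.gov.char h.unf h.ua hp hP e1
  rw [Gm]
  obtain ⟨R, hR⟩ := C.exists_half (C.yb b (frb p))
  rw [← hR] at hP e1 c1 c2 c3 ⊢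
  have h4 : 4 • R = 0 := by rw [← hP, ← mul_nsmul]
  have h2 : ∀ k ∈ Gv p, 2 • (B - C.cob D' R) k = 0 := fun k hk => by
    rw [Pi.sub_apply, nsmul_sub, show 2 • B k = b k from congrFun h.hb k, e1 k hk, cob, nsmul_sub,
      ← tw_nsmul, C.tw_two D' k hP, sub_self]
  have hβ : C.Z2 (Gv p) (B - C.cob D' R) := ⟨h2, fun g _ k hk => by
    rw [← C.tw_two D' g (h2 k hk)]
    simp only [Pi.sub_apply, h.cB g k, cob_mul, tw_sub]
    abel, (h.lB.comp₂ (C.lc_cob D' R) (· - ·)).mono le_top⟩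
  have ha : C.Z2 (Gv p) a := h.ua.1.mono le_top
  have k1 := c2_cu ha hβ
  have k2 := c2_mul (ho_chi (Gv p) (D * D')).1 (ho_chi _ _).2 c1 c2
  have s1 : LC fun g => B2.up 1 (chi (D * D') g * C.ep (a g) (C.act g (2 • R))) -
      W.e (A g) (C.tw D g R) :=
    ((lc_chi (D * D')).comp₂ (h.ua.1.sm.comp₂ (C.lc_act (2 • R)) C.ep)
      fun s t => B2.up 1 (s * t)).comp₂
      (h.lA.comp₂ ((lc_chi D).comp₂ (C.lc_act R) fun c P => sn c • P) W.e) (· - ·)
  have b0 : (B - C.cob D' R) (sig p) = 0 := by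
    rw [Pi.sub_apply, hB, cob, hp.tw_tors (n := 2) hD' h4 _ (sig_ine hp.1 hp.ne_two), sub_self,
      sub_self]
  have b1 := Bv_tame hp ha hβ (h.ua.2 p hp)
  rw [b0, ep_zero_right, Bv] at b1
  rw [inv_cob hp.1 (B2.c2_up (k1.add k2) 1) _ (s1.mono le_top)
      fun g _ k hk => kj1_key W h h4 (e1 k hk),
    inv_upQ hp.1 (k1.add k2), inv_add hp.1 k1 k2, b1, zero_add,
    inv_tame hp.1 hp.ne_two _ c1 c2 c3]

end Cu

end Pool.Agent.SP
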