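import Pool.Agent.Lib.MP_696deb_nt.SP.KJ
import Pool.Agent.Lib.MP_696deb_nt.SP.KH

/-! The symmetry formula. -/

set_option autoImplicit false

open scoped Classical
open Finset Function

namespace Pool.Agent.SP

open Pool.Agent.Lib.MP_696deb_nt Pool.Agent.Lib.MP_696deb_nt.Sm
open Pool.Agent.Lib.MP_696deb_nt.B2 (cc jC)

namespace Cu

variable {C : Cu}

theorem sym_two {D D' : ℤ} {l l' : ℕ} {A B a b : GQ → C.A} {φ : GQ → F2} (h : C.Tw1 D l)
    (h' : C.Tw1 D' l') (hs : C.Sim D' D) (hA : C.Lift D l A) (hB : C.Lift D' l' B)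
    (ha : 2 • A = a) (hb : 2 • B = b) (ua : C.Un a) (ub : C.Un b) (cb : C.Cb b (frb l))
    (ca' : C.Cb a (frb l')) (cb' : C.Cb b (frb l')) (hφ : C.Gov a b φ) (uφ : C.Unf φ) :
    C.Gm a b φ (frb l) = C.Gm a b φ (frb l') := by
  rcases eq_or_ne l l' with rfl | e
  · rfl
  obtain ⟨W⟩ := C.exists_E4 h.ne
  have T : C.Two D D' A B a b φ := ⟨h.ne, h'.ne, hA.tors, hB.tors, hA.coc, hB.coc, hA.lc, hB.lc,
    ha, hb, ua, ub, hφ, uφ⟩
  have hc := c2_z W T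
  have bad : ∀ v, C.Bd v → B2.Spl (1 + 1) (Gv v) (W.z D' A B a b φ) := fun v hv =>
    spl_z W T hv.or (hs v hv) (hA.loc v hv) (hB.loc v hv)
  have key := recipQ hc (bad 0 (.inl rfl)) {l, l'} (fun v hv => by
    rcases mem_insert.1 hv with rfl | hv
    · exact h.gp.1
    · exact mem_singleton.1 hv ▸ h'.gp.1) fun v hv k => by
      rw [mem_insert, mem_singleton, not_or] at k
      rcases le_or_gt v C.N0 with m | m
      · exact (inv_eq_zero hv (hc.mono le_top)).2 (bad v (.inr ⟨hv, m⟩))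
      · exact inv_z_unr W T ⟨hv, m⟩ (h.out v ⟨hv, m⟩ k.1) (h'.out v ⟨hv, m⟩ k.2)
          (hA.unr v ⟨hv, m⟩ k.1) (hB.unr v ⟨hv, m⟩ k.2)
  rw [sum_pair e, inv_z_left W T h.gp (h'.out l h.gp e) (hB.unr l h.gp e) cb,
    inv_z_right W T h'.gp (h.out l' h'.gp e.symm) (hA.unr l' h'.gp e.symm) ca' cb',
    ← B2.up_add, B2.up_eq_zero, chi_mul h.ne h'.ne, chi_mul h.ne h'.ne, h.chi_sig h.gp,
    h'.chi_sig h.gp, h.chi_sig h'.gp, h'.chi_sig h'.gp, if_pos rfl, if_pos rfl, if_neg e,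
    if_neg e.symm, add_zero, zero_add, one_mul, one_mul] at key
  exact CharTwo.add_eq_zero.1 key

end Cu

end Pool.Agent.SP
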