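import Pool.Agent.Lib.MP_696deb_nt.SP.TA

/-! Alternating forms on finite elementary abelian two-groups. -/

set_option autoImplicit false

open scoped Classical
open Finset Function

namespace Pool.Agent.SP

variable {X : Type} [AddCommGroup X] [Finite X]

theorem KL_ginv {K U V : Type} [Field K] [AddCommGroup U] [AddCommGroup V] [Module K U]
    [Module K V] (L : U →ₗ[K] V) : ∃ g : V →ₗ[K] U, ∀ c, L (g (L c)) = L c := by
  obtain ⟨p, hp⟩ := (LinearMap.range L).subtype.exists_leftInverse_of_injective
    (Submodule.ker_subtype _)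
  obtain ⟨r, hr⟩ := L.rangeRestrict.exists_rightInverse_of_surjective
    (LinearMap.range_rangeRestrict L)
  refine ⟨r.comp p, fun c => ?_⟩
  have e1 : p (L c) = L.rangeRestrict c := LinearMap.congr_fun hp (L.rangeRestrict c)
  have e2 := congrArg Subtype.val (LinearMap.congr_fun hr (L.rangeRestrict c))
  rw [LinearMap.comp_apply, e1]
  exact e2

/-- Rows that are given on a subset extend to an alternating form. -/
theorem exists_alt (two : ∀ a : X, a + a = 0) (A : Set X) (ρ : X → X →+ ZMod 2)
    (h1 : ∀ t : Finset X, (∀ a ∈ t, a ∈ A) → ∑ a ∈ t, a = 0 → ∑ a ∈ t, ρ a = 0)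
    (h2 : ∀ a ∈ A, ∀ b ∈ A, ρ a b = ρ b a) (h3 : ∀ a ∈ A, ρ a a = 0) :
    ∃ B : X →+ X →+ ZMod 2, (∀ a, B a a = 0) ∧ ∀ a ∈ A, B a = ρ a := by
  let _ : Module (ZMod 2) X := AddCommGroup.zmodModule fun x => by rw [two_nsmul, two]
  let L : (A →₀ ZMod 2) →ₗ[ZMod 2] X := Finsupp.linearCombination (ZMod 2) fun a : A => a.1
  let R : (A →₀ ZMod 2) →ₗ[ZMod 2] (X →+ ZMod 2) :=
    Finsupp.linearCombination (ZMod 2) fun a : A => ρ a.1
  have one : ∀ (c : A →₀ ZMod 2), ∀ a ∈ c.support, c a = 1 := fun c a ha =>
    (TA_F2 (c a)).resolve_left (Finsupp.mem_support_iff.1 ha)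
  have hk : ∀ c, L c = 0 → R c = 0 := fun c hc => by
    have e1 : L c = ∑ a ∈ c.support.map (Embedding.subtype _), a := by
      rw [sum_map, Finsupp.linearCombination_apply, Finsupp.sum]
      exact sum_congr rfl fun a ha => by rw [one c a ha, one_smul]; rfl
    have e2 : R c = ∑ a ∈ c.support.map (Embedding.subtype _), ρ a := by
      rw [sum_map, Finsupp.linearCombination_apply, Finsupp.sum]
      exact sum_congr rfl fun a ha => by rw [one c a ha, one_smul]; rfl
    rw [e2]
    refine h1 _ (fun a ha => ?_) (e1 ▸ hc)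
    obtain ⟨b, -, rfl⟩ := mem_map.1 ha
    exact b.2
  have sm : ∀ (f : X →+ ZMod 2) (r : ZMod 2) (x : X), f (r • x) = r * f x := fun f r x => by
    rcases TA_F2 r with rfl | rfl
    · rw [zero_smul, map_zero, zero_mul]
    · rw [one_smul, one_mul]
  have eL : ∀ (a : A) (r : ZMod 2), L (Finsupp.single a r) = r • a.1 := fun a r =>
    Finsupp.linearCombination_single _ _ _
  have eR : ∀ (a : A) (r : ZMod 2), R (Finsupp.single a r) = r • ρ a.1 := fun a r =>
    Finsupp.linearCombination_single _ _ _
  have sym : ∀ c d, R c (L d) = R d (L c) := fun c d => by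
    induction c using Finsupp.induction_linear with
    | zero => simp only [map_zero, AddMonoidHom.zero_apply]
    | add c c' i1 i2 => simp only [map_add, AddMonoidHom.add_apply, i1, i2]
    | single a r =>
      induction d using Finsupp.induction_linear with
      | zero => simp only [map_zero, AddMonoidHom.zero_apply]
      | add d d' i1 i2 => simp only [map_add, AddMonoidHom.add_apply, i1, i2]
      | single b s =>
        rw [eL, eL, eR, eR, sm, sm, AddMonoidHom.smul_apply, AddMonoidHom.smul_apply,
          h2 a.1 a.2 b.1 b.2, smul_eq_mul, smul_eq_mul, mul_left_comm]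
  have alt : ∀ c, R c (L c) = 0 := fun c => by
    induction c using Finsupp.induction_linear with
    | zero => simp only [map_zero]
    | add c d i1 i2 =>
      simp only [map_add, AddMonoidHom.add_apply, i1, i2, zero_add, add_zero]
      rw [sym c d, CharTwo.add_self_eq_zero]
    | single a r =>
      rw [eL, eR, sm, AddMonoidHom.smul_apply, h3 a.1 a.2, smul_zero, mul_zero]
  obtain ⟨g, hg⟩ := KL_ginv L
  let M : X →+ X →+ ZMod 2 := (R.comp g).toAddMonoidHom
  let q : X →+ X := AddMonoidHom.id X - (L.comp g).toAddMonoidHom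
  have eM : ∀ x, M x = R (g x) := fun _ => rfl
  have eq : ∀ x, q x = x - L (g x) := fun _ => rfl
  have eB : ∀ x y, (M + M.flip.comp q) x y = M x y + M y (q x) := fun _ _ => rfl
  refine ⟨M + M.flip.comp q, fun x => ?_, fun a ha => AddMonoidHom.ext fun y => ?_⟩
  · rw [eB, eq, map_sub, eM, alt, sub_zero, CharTwo.add_self_eq_zero]
  · have e1 : L (Finsupp.single ⟨a, ha⟩ 1) = a := by rw [eL, one_smul]
    have e2 : L (g a) = a := by
      have := hg (Finsupp.single ⟨a, ha⟩ 1)
      rwa [e1] at this
    have e3 : R (g a) = ρ a := by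
      have := hk (g a - Finsupp.single ⟨a, ha⟩ 1) (by rw [map_sub, e1, e2, sub_self])
      rwa [map_sub, eR, one_smul, sub_eq_zero] at this
    rw [eB, eq, e2, sub_self, map_zero, add_zero, eM, e3]

/-- The radical of an alternating form in even dimension is not a line. -/
theorem alt_ker (two : ∀ a : X, a + a = 0) {k : ℕ} (hk : Nat.card X = 4 ^ k)
    (B : X →+ X →+ ZMod 2) (alt : ∀ a, B a a = 0) {a₀ : X} (h : ∀ a, B a = 0 → a = 0 ∨ a = a₀)
    {a : X} (ha : B a = 0) : a = 0 := by
  by_contra h0
  have e : a = a₀ := (h a ha).resolve_left h0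
  subst e
  have h2 : Nat.card B.ker = 2 := by
    rw [Nat.card_eq_two_iff]
    refine ⟨0, ⟨a, ha⟩, fun e => h0 (congrArg Subtype.val e).symm, ?_⟩
    refine Set.eq_univ_of_forall fun x => ?_
    rcases h x.1 x.2 with e | e
    · exact Or.inl (Subtype.ext e)
    · exact Or.inr (Subtype.ext e)
  have h4 : ∀ n : ℕ, par (4 ^ n) = 0 := fun n => by
    induction n with
    | zero => exact par_one
    | succ n ih =>
      rw [pow_succ, par_mul (by positivity) (by norm_num), ih, zero_add,
        show (4 : ℕ) = 2 * 2 from rfl, par_mul two_ne_zero two_ne_zero, CharTwo.add_self_eq_zero]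
  have := alt_par B alt
  rw [h2, hk, h4, par_two] at this
  exact one_ne_zero this

end Pool.Agent.SP
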