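import Pool.Agent.Lib.MP_696deb_nt.SP.KC
import Pool.Agent.Lib.MP_696deb_nt.SP.KF
import Pool.Agent.Lib.MP_696deb_nt.SP.KK
import Pool.Agent.Lib.MP_696deb_nt.SP.KL

/-! The rows of the classes that lift come from one alternating form. -/

set_option autoImplicit false

open scoped Classical
open Finset Function

namespace Pool.Agent.SP

open Pool.Agent.Lib.MP_696deb_nt Pool.Agent.Lib.MP_696deb_nt.Sm
open Pool.Agent.Lib.MP_696deb_nt.B2 (cc jC)

namespace Cu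

variable {C : Cu} {X : AddSubgroup (GQ → C.A)} {s : GQ} {D0 : ℤ}

/-- A finite group of unramified classes that are orthogonal to the local conditions and are
coboundaries at `s`. -/
structure Adm (C : Cu) (s : GQ) (D0 : ℤ) (X : AddSubgroup (GQ → C.A)) : Prop where
  fin : Finite X
  un : ∀ b ∈ X, C.Un b
  prp : ∀ b ∈ X, ∀ v, C.Bd v → C.Prp v D0 b
  cb : ∀ b ∈ X, C.Cb b s

/-- The forms `(a, b) ↦ ep (a g) (b g)` for `g` that fixes the roots generate this group. -/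
noncomputable def Om (C : Cu) (X : AddSubgroup (GQ → C.A)) : AddSubgroup (X →+ X →+ F2) :=
  AddSubgroup.closure {β | ∃ g ∈ C.Kpm, ∀ a b : X, β a b = C.ep (a.1 g) (b.1 g)}

theorem exists_om (h : ∀ b ∈ X, C.Z2 ⊤ b) {g : GQ} (hg : g ∈ C.Kpm) :
    ∃ β ∈ C.Om X, ∀ a b : X, β a b = C.ep (a.1 g) (b.1 g) :=
  ⟨AddMonoidHom.mk' (fun a => AddMonoidHom.mk' (fun b => C.ep (a.1 g) (b.1 g)) fun b b' =>
      C.ep_add_right ((h _ b.2).two g trivial) ((h _ b'.2).two g trivial) ((h _ a.2).two g trivial))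
    fun a a' => AddMonoidHom.ext fun b =>
      C.ep_add_left ((h _ a.2).two g trivial) ((h _ a'.2).two g trivial) ((h _ b.2).two g trivial),
    AddSubgroup.subset_closure ⟨g, hg, fun _ _ => rfl⟩, fun _ _ => rfl⟩

theorem two_X (h : ∀ b ∈ X, C.Z2 ⊤ b) (a : X) : a + a = 0 :=
  Subtype.ext (funext fun g => (two_nsmul _).symm.trans ((h _ a.2).two g trivial))

theorem om_alt {β : X →+ X →+ F2} (h : β ∈ C.Om X) :
    (∀ a, β a a = 0) ∧ ∀ a b, β a b = β b a := by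
  induction h using AddSubgroup.closure_induction with
  | mem β h =>
    obtain ⟨g, -, h⟩ := h
    exact ⟨fun a => by rw [h, ep_self], fun a b => by rw [h, h, ep_comm]⟩
  | zero => exact ⟨fun _ => rfl, fun _ _ => rfl⟩
  | add β γ _ _ h k =>
    exact ⟨fun a => by rw [AddMonoidHom.add_apply, AddMonoidHom.add_apply, h.1, k.1, add_zero],
      fun a b => by simp only [AddMonoidHom.add_apply, h.2 a b, k.2 a b]⟩
  | neg β _ h =>
    exact ⟨fun a => by rw [AddMonoidHom.neg_apply, AddMonoidHom.neg_apply, h.1, neg_zero],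
      fun a b => by simp only [AddMonoidHom.neg_apply, h.2 a b]⟩

/-- Every form in the group is the value of the governing cochains at one element. -/
theorem om_tau (hX : ∀ b ∈ X, C.Z2 ⊤ b) {β : X →+ X →+ F2} (h : β ∈ C.Om X) :
    ∃ τ, C.Na τ ∧ ∀ (a b : X) (φ : GQ → F2), C.Gov a b φ → φ τ = β a b := by
  induction h using AddSubgroup.closure_induction with
  | mem β h =>
    obtain ⟨g, hg, h⟩ := h
    exact ⟨g * g, nn_sq hg, fun a b φ k => by rw [h, k.sq (hX _ b.2) hg]⟩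
  | zero => exact ⟨1, C.nn_one, fun a b φ k => k.one (hX _ a.2)⟩
  | add β γ _ _ h k =>
    obtain ⟨τ, h1, h2⟩ := h
    obtain ⟨τ', h3, h4⟩ := k
    exact ⟨τ * τ', h1.mul h3, fun a b φ k => by
      rw [k.nn (hX _ a.2) h1, h2 a b φ k, h4 a b φ k, AddMonoidHom.add_apply,
        AddMonoidHom.add_apply]⟩
  | neg β _ h =>
    obtain ⟨τ, h1, h2⟩ := h
    exact ⟨τ, h1, fun a b φ k => by
      rw [h2 a b φ k, AddMonoidHom.neg_apply, AddMonoidHom.neg_apply, CharTwo.neg_eq]⟩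

theorem Lc.loc {U : Subgroup GQ} {t : GQ} {a : GQ → C.A} (h : C.Lc U t D0 a) {v : ℕ}
    (hv : C.Bd v) : C.Loc v D0 a := by
  obtain ⟨l, D, A, -, -, h1, h2, rfl⟩ := h
  exact (h2.loc v hv).two.congr (fun g hg => (h1 v hv g hg).symm) fun _ _ => rfl

theorem Na.nn {u : GQ} (h : C.Na u) (hX : ∀ b ∈ X, C.Z2 ⊤ b) : C.Nn X u :=
  ⟨h.one, fun t ht => by
    obtain ⟨m, -, -, rfl⟩ := (mem_Ch C.two_le_N0).1 ht
    exact h.chr m, fun a ha => h.zero a (hX a ha)⟩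

theorem kn_ch {ψ : GQ → F2} {u : GQ} (hu : C.QK u) (h1 : LC ψ)
    (h2 : ∀ g k, ψ (g * k) = ψ g + ψ k) (h3 : C.Unf ψ) : ψ u = 0 :=
  hu ψ ⟨⟨h1, fun g _ k _ => h2 g k⟩, fun q hq k =>
    h3 q ⟨hq, k⟩ _ (sig_ine hq (Gp.ne_two ⟨hq, k⟩))⟩

theorem Un.ine {a : GQ → C.A} (h : C.Un a) {p : ℕ} (hp : C.Gp p) {g : GQ} (hg : g ∈ Iv p) :
    a g = 0 := by
  rw [(h.1.mono le_top).ine hp hg, h.2 p hp, smul_zero]

theorem kn_add {a b b' : GQ → C.A} {φ φ' φ'' : GQ → F2} {u : GQ} (hu : C.QK u) (ha : C.Z2 ⊤ a)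
    (hb : C.Z2 ⊤ b) (hb' : C.Z2 ⊤ b') (h : C.Gov a b φ ∧ C.Unf φ) (h' : C.Gov a b' φ' ∧ C.Unf φ')
    (h'' : C.Gov a (b + b') φ'' ∧ C.Unf φ'') : φ'' u = φ u + φ' u := by
  refine CharTwo.add_eq_zero.1 (kn_ch (ψ := fun g => φ'' g + (φ g + φ' g)) hu
    (h''.1.sm.comp₂ (h.1.sm.comp₂ h'.1.sm (· + ·)) (· + ·)) (fun g k => ?_) fun p hp g hg => ?_)
  · simp only [h.1.mul, h'.1.mul, h''.1.mul, cu, Pi.add_apply, map_add]
    rw [C.ep_add_right (C.two_act g (hb.two k trivial)) (C.two_act g (hb'.two k trivial))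
      (ha.two g trivial)]
    have e : ∀ x : F2, x + x = 0 := by decide
    linear_combination e (C.ep (a g) (C.act g (b k))) + e (C.ep (a g) (C.act g (b' k)))
  · simp only [h.2 p hp g hg, h'.2 p hp g hg, h''.2 p hp g hg, add_zero]

theorem kn_sym {a b : GQ → C.A} {φ φ' : GQ → F2} {u : GQ} (hu : C.QK u) (ha : C.Un a)
    (hb : C.Un b) (a0 : a u = 0) (h : C.Gov a b φ ∧ C.Unf φ) (h' : C.Gov b a φ' ∧ C.Unf φ') :
    φ u = φ' u := by
  have k := kn_ch (ψ := fun g => φ g + φ' g + C.ep (a g) (b g)) hu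
    ((h.1.sm.comp₂ h'.1.sm (· + ·)).comp₂ (ha.1.sm.comp₂ hb.1.sm C.ep) (· + ·))
    (fun g k => ?_) fun p hp g hg => ?_
  · simpa only [a0, ep_zero_left, add_zero, CharTwo.add_eq_zero] using k
  · have t1 := C.two_act g (ha.1.two k trivial)
    have t2 := C.two_act g (hb.1.two k trivial)
    have t3 := ha.1.two g trivial
    have t4 := hb.1.two g trivial
    simp only [h.1.mul, h'.1.mul, cu]
    rw [ha.1.coc g trivial k trivial, hb.1.coc g trivial k trivial,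
      C.ep_add_left t3 t1 (by rw [smul_add, t4, t2, add_zero]), C.ep_add_right t4 t2 t3,
      C.ep_add_right t4 t2 t1, ep_act, C.ep_comm (b g)]
    have e : ∀ x : F2, x + x = 0 := by decide
    linear_combination e (C.ep (a g) (C.act g (b k))) + e (C.ep (C.act g (a k)) (b g))
  · simp only [h.2 p hp g hg, h'.2 p hp g hg, ha.ine hp hg, ep_zero_left, add_zero]

theorem kn_q {S S' : C.A} (h' : 2 • S' = 0) : (if S + S' = 0 then 0 else 1 : F2) =
    (if S = 0 then 0 else 1) + (if S' = 0 then 0 else 1) + C.ep S S' := by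
  have e : S + S' = 0 ↔ S = S' := by rw [add_eq_zero_iff_eq_neg, C.neg_two h']
  simp only [e, ep]
  by_cases h1 : S = 0
  · subst h1
    simp [eq_comm]
  by_cases h2 : S' = 0
  · subst h2
    simp
  by_cases h3 : S = S'
  · rw [if_pos h3, if_neg h1, if_neg h2, if_pos (.inr (.inr h3))]
    decide
  · rw [if_neg h3, if_neg h1, if_neg h2, if_neg (by tauto)]
    decide

theorem kn_diag {a : GQ → C.A} {φ : GQ → F2} {u : GQ} (hu : C.QK u) (ha : C.Un a) (a0 : a u = 0)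
    (h : C.Gov a a φ ∧ C.Unf φ) : φ u = 0 := by
  have k := kn_ch (ψ := fun g => φ g + if a g = 0 then 0 else 1) hu
    (h.1.sm.comp₂ ha.1.sm fun x S => x + if S = 0 then 0 else 1) (fun g k => ?_)
    fun p hp g hg => ?_
  · simpa only [a0, if_true, add_zero] using k
  · simp only [h.1.mul, cu]
    rw [ha.1.coc g trivial k trivial, kn_q (C.two_act g (ha.1.two k trivial))]
    simp only [map_eq_zero_iff _ (C.act_inj g)]
    have e : ∀ x : F2, x + x = 0 := by decide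
    linear_combination e (C.ep (a g) (C.act g (a k)))
  · simp only [h.2 p hp g hg, ha.ine hp hg, if_true, add_zero]

/-- The key lemma, in terms of the governing cochains. -/
theorem key0 (h : C.Adm s D0 X) {φ : X → X → GQ → F2}
    (hφ : ∀ a b : X, (∀ v, C.Bd v → C.Loc v D0 a) → C.Gov a b (φ a b) ∧ C.Unf (φ a b)) :
    ∃ (B : X →+ X →+ F2) (U : Subgroup GQ), (∀ a, B a a = 0) ∧ B2.Op U ∧ U.Normal ∧
      ∀ u, C.Nn X u → ∀ a : X, C.Lc U (s * u) D0 a → ∀ b, B a b = φ a b u := by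
  have := h.fin
  have hX : ∀ b : X, C.Z2 ⊤ b := fun b => (h.un _ b.2).1
  obtain ⟨U1, o1, n1, k1⟩ := exists_kill (fun a : X => a.1) fun a => (hX a).sm
  obtain ⟨U2, o2, n2, k2⟩ := exists_kill
    (fun x : {x : X × X // ∀ v, C.Bd v → C.Loc v D0 x.1} => φ x.1.1 x.1.2)
    fun x => (hφ _ _ x.2).1.sm
  have n3 := C.normal_Kpm
  obtain ⟨U, hU⟩ : ∃ U, U = U1 ⊓ U2 ⊓ C.Kpm := ⟨_, rfl⟩
  have nU : U.Normal := by rw [hU]; infer_instance
  have hK : U ≤ C.Kpm := hU ▸ inf_le_right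
  have a0 : ∀ a : X, ∀ u ∈ U, a.1 u = 0 := fun a u hu =>
    (k1 a u (hU ▸ hu).1.1).trans (hX a).one
  have cu : ∀ u, C.Nn X u → ∀ a : X, C.Cb a (s * u) := fun u hu a =>
    (Cb_mul (hX a) hu.1 (hu.2.2 _ a.2)).2 (h.cb _ a.2)
  have cf : ∀ u l, C.Nn X u → C.Gp l → Frb U (s * u) l → ∀ a : X, C.Cb a (frb l) :=
    fun u l hu hl hf a => (Cb_Frb nU hK hf hl (hX a) ((h.un _ a.2).2 l hl) (a0 a)).2 (cu u hu a)
  have gm : ∀ u l, C.Nn X u → C.Gp l → Frb U (s * u) l → ∀ a b : X,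
      (∀ v, C.Bd v → C.Loc v D0 a) →
      C.Gm a b (φ a b) (frb l) = C.Gm a b (φ a b) s + φ a b u := fun u l hu hl hf a b ha => by
    rw [Gm_Frb nU hK hf hl (h.un _ a.2) (h.un _ b.2) (hφ a b ha).1 (hφ a b ha).2 (a0 a) (a0 b)
      (fun w hw => (k2 ⟨(a, b), ha⟩ w (hU ▸ hw).1.2).trans ((hφ a b ha).1.one (hX a)))
      (cu u hu a) (cu u hu b), Gm_mul (hφ a b ha).1 (hX a) (hX b) hu.1 (hu.2.2 _ a.2)
      (hu.2.2 _ b.2) (h.cb _ a.2) (h.cb _ b.2)]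
  have V : ∀ {ι : Type} (t : Finset ι) (a : ι → X) (u : ι → GQ),
      (∀ i ∈ t, C.Nn X (u i) ∧ C.Lc U (s * u i) D0 (a i)) → ∑ i ∈ t, a i = 0 →
      ∀ b, ∑ i ∈ t, φ (a i) b (u i) = 0 := fun {ι} t a u hu e b => by
    rcases t.eq_empty_or_nonempty with rfl | ⟨j, hj⟩
    · rfl
    have lo : ∀ i ∈ t, ∀ v, C.Bd v → C.Loc v D0 (a i) := fun i hi v hv => (hu i hi).2.loc hv
    have e' : ∑ i ∈ t, (a i).1 = 0 := by rw [← AddSubgroup.val_finsetSum, e]; rfl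
    choose! l D A h1 h2 h3 h4 h5 using fun i hi => (hu i hi).2
    have k := var_k (φ := fun i => φ (a i) b) (h2 j hj) h2
      (fun i hi => (h3 i hi).trans (h3 j hj).symm) h4 h5 (fun i _ => h.un _ (a i).2) e'
      (h.un _ b.2) (fun v hv => (h.prp _ b.2 v hv).congr ((h3 j hj).symm v hv))
      (fun i hi => cf _ _ (hu i hi).1 (h2 i hi).gp (h1 i hi) b)
      (cf _ _ (hu j hj).1 (h2 j hj).gp (h1 j hj) b) fun i hi => hφ _ _ (lo i hi)
    rw [sum_congr rfl fun i hi => gm _ _ (hu i hi).1 (h2 i hi).gp (h1 i hi) _ b (lo i hi),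
      sum_congr rfl fun i hi => gm _ _ (hu j hj).1 (h2 j hj).gp (h1 j hj) _ b (lo i hi),
      sum_add_distrib, sum_add_distrib, add_right_inj] at k
    rw [k]
    refine kn_ch (ψ := fun g => ∑ i ∈ t, φ (a i) b g) (hu j hj).1.2.1 ?_ (fun g k => ?_)
      fun p hp g hg => sum_eq_zero fun i hi => (hφ _ _ (lo i hi)).2 p hp g hg
    · exact ((B2.Sm.pi fun i : t => (hφ _ b (lo i i.2)).1.sm).comp fun z => ∑ i, z i).congr
        fun g _ => sum_coe_sort t fun i => φ (a i) b g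
    · rw [sum_congr rfl fun i hi => (hφ _ _ (lo i hi)).1.mul g k, sum_add_distrib,
        sum_add_distrib, add_eq_left]
      simp only [Cu.cu]
      rw [← C.ep_sum_left t (fun i _ => (hX (a i)).two g trivial)
        (C.two_act g ((hX b).two k trivial)), ← Finset.sum_apply, e', Pi.zero_apply, ep_zero_left]
  obtain ⟨A, hA⟩ : ∃ A : Set X, A = {a : X | ∃ u, C.Nn X u ∧ C.Lc U (s * u) D0 a} := ⟨_, rfl⟩
  have ex : ∀ a ∈ A, ∃ (u : GQ) (ρ : X →+ F2), (C.Nn X u ∧ C.Lc U (s * u) D0 a) ∧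
      ∀ b, ρ b = φ a b u := fun a ha => by
    obtain ⟨u, h1, h2⟩ := hA ▸ ha
    have lo : ∀ v, C.Bd v → C.Loc v D0 a := fun v hv => h2.loc hv
    exact ⟨u, AddMonoidHom.mk' (fun b => φ a b u) fun b b' => kn_add h1.2.1 (hX a) (hX b) (hX b')
      (hφ a b lo) (hφ a b' lo) (hφ a (b + b') lo), ⟨h1, h2⟩, fun _ => rfl⟩
  choose! u ρ h1 h2 using ex
  have lo : ∀ a ∈ A, ∀ v, C.Bd v → C.Loc v D0 a.1 := fun a ha v hv => (h1 a ha).2.loc hv
  obtain ⟨B, b1, b2⟩ := exists_alt (two_X fun b hb => hX ⟨b, hb⟩) A ρ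
    (fun t ht e => AddMonoidHom.ext fun b => by
      rw [AddMonoidHom.finsetSum_apply, sum_congr rfl fun a ha => h2 a (ht a ha) b]
      exact V t id u (fun a ha => h1 a (ht a ha)) e b)
    (fun a ha b hb => by
      obtain ⟨l, D, A1, r1, r2, r3, r4, r5⟩ := (h1 a ha).2
      obtain ⟨l', D', A2, s1, s2, s3, s4, s5⟩ := (h1 b hb).2
      have k := sym_two r2 s2 (s3.trans r3.symm) r4 s4 r5 s5 (h.un _ a.2) (h.un _ b.2)
        (cf _ _ (h1 a ha).1 r2.gp r1 b) (cf _ _ (h1 b hb).1 s2.gp s1 a)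
        (cf _ _ (h1 b hb).1 s2.gp s1 b) (hφ a b (lo a ha)).1 (hφ a b (lo a ha)).2
      rw [gm _ _ (h1 a ha).1 r2.gp r1 a b (lo a ha), gm _ _ (h1 b hb).1 s2.gp s1 a b (lo a ha),
        add_right_inj] at k
      rw [h2 a ha, h2 b hb, k]
      exact kn_sym (h1 b hb).1.2.1 (h.un _ a.2) (h.un _ b.2) ((h1 b hb).1.2.2 _ a.2)
        (hφ a b (lo a ha)) (hφ b a (lo b hb)))
    fun a ha => (h2 a ha a).trans
      (kn_diag (h1 a ha).1.2.1 (h.un _ a.2) ((h1 a ha).1.2.2 _ a.2) (hφ a a (lo a ha)))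
  refine ⟨B, U, b1, hU ▸ (o1.inter o2).inter C.op_Kpm, nU, fun w hw a ha b => ?_⟩
  have m : a ∈ A := hA ▸ ⟨w, hw, ha⟩
  have k := V (univ : Finset Bool) (fun _ => a) (fun i => cond i (u a) w)
    (fun i _ => by cases i; exacts [⟨hw, ha⟩, h1 a m])
    (by rw [Fintype.sum_bool]; exact two_X (fun b hb => hX ⟨b, hb⟩) a) b
  rw [Fintype.sum_bool] at k
  rw [b2 a m, h2 a m]
  exact CharTwo.add_eq_zero.1 k

theorem Adm.gov (h : C.Adm s D0 X) : ∃ φ : X → X → GQ → F2, ∀ a b : X,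
    (∀ v, C.Bd v → C.Loc v D0 a) → C.Gov a b (φ a b) ∧ C.Unf (φ a b) := by
  have k : ∀ a b : X, ∃ φ : GQ → F2,
      (∀ v, C.Bd v → C.Loc v D0 a) → C.Gov a b φ ∧ C.Unf φ := fun a b => by
    by_cases e : ∀ v, C.Bd v → C.Loc v D0 a
    · obtain ⟨φ, hφ⟩ := exists_gov (h.un _ a.2) (h.un _ b.2) fun v hv =>
        h.prp _ b.2 v hv _ ((h.un _ a.2).1.mono le_top) (e v hv)
      exact ⟨φ, fun _ => hφ⟩
    · exact ⟨0, fun e' => absurd e' e⟩
  choose φ hφ using k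
  exact ⟨φ, hφ⟩

/-- The key lemma. -/
theorem key (h : C.Adm s D0 X) : ∃ (B : X →+ X →+ F2) (τ : (X →+ X →+ F2) → GQ)
    (U : Subgroup GQ), (∀ a, B a a = 0) ∧ B2.Op U ∧ U.Normal ∧ ∀ β ∈ C.Om X, C.Na (τ β) ∧
      ∀ a : X, C.Lc U (s * τ β) D0 a → B a = β a := by
  have hX : ∀ b ∈ X, C.Z2 ⊤ b := fun b hb => (h.un b hb).1
  obtain ⟨φ, hφ⟩ := h.gov
  obtain ⟨B, U, h1, h2, h3, h4⟩ := key0 h hφ
  choose! τ h5 h6 using fun β (hβ : β ∈ C.Om X) => om_tau hX hβ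
  exact ⟨B, τ, U, h1, h2, h3, fun β hβ => ⟨h5 β hβ, fun a ha => AddMonoidHom.ext fun b =>
    (h4 _ ((h5 β hβ).nn hX) a ha b).trans (h6 β hβ a b _ (hφ a b fun _ hv => ha.loc hv).1)⟩⟩

end Cu

end Pool.Agent.SP
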