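import Pool.Agent.Lib.MP_696deb_nt.SP.KN
import Pool.Agent.Lib.MP_696deb_nt.SP.KP

/-! The variation of the pairing in a class of primes. -/

set_option autoImplicit false

open scoped Classical
open Finset Function

namespace Pool.Agent.SP

open Pool.Agent.Lib.MP_696deb_nt Pool.Agent.Lib.MP_696deb_nt.Sm
open Pool.Agent.Lib.MP_696deb_nt.B2 (cc jC)

theorem core : CoreStmt := by
  intro C ε l S hε hl fin hS h0
  have hX : ∀ b ∈ S, C.Z2 ⊤ b := fun b hb => (hS hb).1.1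
  have h : C.Adm (frb l) (ε * l) S := ⟨fin, fun b hb => (hS hb).1,
    fun b hb v hv => ((hS hb).2 v hv).prp hv.or ((hX b hb).mono le_top),
    fun b hb => ⟨0, nsmul_zero 2, by rw [h0 b hb, map_zero, sub_zero]⟩⟩
  obtain ⟨φ, hφ⟩ := h.gov
  obtain ⟨B, U, h1, h2, h3, h4⟩ := Cu.key0 h hφ
  obtain ⟨U', k1, k2, k3⟩ := exists_ker C.two_le_N0
  have g : ∀ a b : S, C.Gov a b (φ a b) := fun a b => (hφ a b (hS a.2).2).1
  refine ⟨B, fun u a b => φ a b u, h1, fun u u' hu _ a b => ?_,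
    fun _ hg a b => (g a b).sq (hX _ b.2) hg, fun u hu => ⟨U ⊓ U', C.N0, h2.inter k1,
      inferInstance, fun p hp hN hf a ⟨c, c1, c2, c3, c4⟩ => h4 u hu a ?_⟩⟩
  · show φ a b _ = φ a b u + φ a b u'
    rw [(g a b).mul, Cu.cu, hu.2.2 _ a.2, Cu.ep_zero_left, add_zero]
  have t := Cu.tw1_prime hε (⟨hp, hN⟩ : C.Gp p)
  refine ⟨p, ε * p, c, hf.mono inf_le_left, t, ?_, Cu.IsSel.lift ⟨fun g => ?_, c2, c1, c3⟩ t,
    funext c4⟩
  · rintro v (rfl | ⟨hv, k⟩)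
    · exact cls_real hε hp hl.1
    · refine cls_loc C.two_le_N0 hε hε hp hl.1 hN hl.2 (fun t ht => ?_) v hv k
      rw [(hf.mono inf_le_right).ch C.two_le_N0 k3 hp hN t ht, ht.1.2 _ trivial _ trivial,
        hu.2.1 t ht, add_zero]
  · rw [show 2 ^ 2 = 2 * 2 from rfl, ← smul_smul, c4, (hX _ a.2).two g trivial]

end Pool.Agent.SP
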