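import Pool.Agent.Lib.MP_696deb_nt.SP.TMb

/-! Bounded exponent gives bounded order. -/

set_option autoImplicit false

open scoped Classical
open Finset Function

namespace Pool.Agent.SP

open Pool.Agent.Lib.MP_696deb_nt Pool.Agent.Lib.MP_696deb_nt.Sm

namespace Cu

variable {C : Cu} {D : ℤ}

theorem fin_one (C : Cu) (hD : D ≠ 0) : {c | C.IsSel D 1 c}.Finite := by
  obtain ⟨s, -, -, hs⟩ := B2.exists_reps C.op_Kpm (range (C.N0 + 1) ∪ D.natAbs.primeFactors)
  have := B6.finH C.op_Kpm s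
  have : Finite {P : C.A | 2 ^ 1 • P = 0} := C.finite_tors 1
  let f : {c | C.IsSel D 1 c} → Fin 3 → B2.Zu C.Kpm B2.tr s := fun c i =>
    ⟨_, B2.rs_mem_Z1 (B2.coc_tr.2 ((c.2.z2.mono le_top).hom le_rfl i)), fun w hw σ hσ => by
      have h1 : w.p ∉ range (C.N0 + 1) ∪ D.natAbs.primeFactors := fun k => hs w k hw
      rw [notMem_union, mem_range, not_lt] at h1
      have h2 : C.Gp w.p := ⟨w.prime, h1.1⟩
      have h3 : ¬ (w.p : ℤ) ∣ D := fun k => h1.2 (Nat.mem_primeFactors.2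
        ⟨w.prime, Int.natCast_dvd.1 k, Int.natAbs_ne_zero.2 hD⟩)
      refine (B2.rs_of_mem hσ.1 _).trans ?_
      rw [(c.2.z2.ine_all h2 (loc_good h2 h3 c.2.tors (c.2.loc _ (.inr w.prime))) rfl σ hσ.2).1,
        ep_zero_left]⟩
  let f' : {c | C.IsSel D 1 c} → (Fin 3 → Fin 3) → {P : C.A | 2 ^ 1 • P = 0} := fun c π =>
    ⟨c.1 (invFun C.pm π), c.2.tors _⟩
  refine Finite.of_injective (fun c => (f c, f' c)) fun c c' e => Subtype.ext (funext fun g => ?_)
  have e1 : ∀ g ∈ C.Kpm, c.1 g = c'.1 g := fun g hg => by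
    rw [← C.pr_ep (c.2.z2.two g trivial), ← C.pr_ep (c'.2.z2.two g trivial)]
    refine congrArg C.pr (funext fun i => ?_)
    exact (B2.rs_of_mem hg _).symm.trans ((congrFun (congrArg Subtype.val
      (congrFun (congrArg Prod.fst e) i)) g).trans (B2.rs_of_mem hg _))
  have e2 : c.1 (invFun C.pm (C.pm g)) = c'.1 (invFun C.pm (C.pm g)) :=
    congrArg Subtype.val (congrFun (congrArg Prod.snd e) _)
  have e3 : C.pm (invFun C.pm (C.pm g)) = C.pm g := invFun_eq ⟨g, rfl⟩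
  generalize invFun C.pm (C.pm g) = r at e2 e3
  rw [← mul_inv_cancel_left r g, c.2.coc, c'.2.coc, e2,
    e1 _ fun i => by rw [pm_mul, ← e3, inv_pm]]

theorem fin_sel (C : Cu) (hD : D ≠ 0) (n : ℕ) : {c | C.IsSel D n c}.Finite := by
  induction n with
  | zero =>
    exact (Set.finite_singleton 0).subset fun c h => funext fun g =>
      (one_nsmul _).symm.trans (h.tors g)
  | succ n ih =>
    refine Set.Finite.of_finite_fibers (fun c => 2 • c) (ih.subset ?_) ?_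
    · rintro _ ⟨c, h, rfl⟩
      exact h.two
    · rintro _ ⟨c, h, rfl⟩
      refine ((C.fin_one hD).image (· + c)).subset fun a ⟨h1, h2⟩ => ⟨a - c, ⟨fun g => ?_,
        fun g k => ?_, h1.lc.comp₂ h.lc (· - ·), fun v hv => ?_⟩, sub_add_cancel _ _⟩
      · rw [Pi.sub_apply, smul_sub, sub_eq_zero]
        exact congrFun h2 g
      · simp only [Pi.sub_apply, h1.coc g k, h.coc g k, tw_sub]
        abel
      · simpa only [neg_one_zsmul, ← sub_eq_add_neg] using (h1.loc v hv).add ((h.loc v hv).zsmul (-1))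

theorem Kz.rat (hD : D ≠ 0) (h : C.Kz D) : (C.Rat D : Set C.A).Finite := by
  obtain ⟨f, -, hr⟩ := exists_phi C D hD
  have := h.fin hD
  rw [← hr, AddMonoidHom.coe_range]
  exact Set.finite_range f

theorem Kz.bound (hD : D ≠ 0) (h : C.Kz D) : ∃ B : ℕ, ∀ (n : ℕ) (s : Set (GQ → C.A)),
    (∀ c ∈ s, C.IsSel D n c) → (∀ c ∈ s, ∀ c' ∈ s, ∀ S : C.A, 2 ^ n • S = 0 →
      (∀ g, c g - c' g = C.cob D S g) → c = c') → s.ncard ≤ B := by
  have f1 := h.rat hD
  obtain ⟨k, h⟩ := h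
  have f2 := (C.fin_sel hD k).prod f1
  refine ⟨({c | C.IsSel D k c} ×ˢ (C.Rat D : Set C.A)).ncard, fun n s h1 h2 => ?_⟩
  have key : ∀ c ∈ s, ∃ Q : C.A, C.IsSel D k (c - C.cob D Q) ∧ 2 ^ n • Q ∈ C.Rat D := fun c hc => by
    rcases le_total n k with l | l
    · obtain ⟨i, rfl⟩ := Nat.exists_eq_add_of_le' l
      refine ⟨0, (h1 c hc).sub 0 fun g => ?_, by rw [smul_zero]; exact zero_mem _⟩
      rw [cob, tw_zero, sub_zero, sub_zero, pow_add, mul_smul, (h1 c hc).tors, smul_zero]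
    · obtain ⟨i, rfl⟩ := Nat.exists_eq_add_of_le' l
      obtain ⟨S, -, -, e⟩ := h _ c (h1 c hc)
      obtain ⟨Q, rfl⟩ := C.exists_div k S
      refine ⟨Q, (h1 c hc).sub Q fun g => ?_, fun g => sub_eq_zero.1 ?_⟩
      · rw [smul_sub, e, cob_nsmul, Pi.smul_apply, sub_self]
      · rw [← cob, pow_add, mul_smul, cob_nsmul, Pi.smul_apply, ← e, ← mul_smul, ← pow_add,
          (h1 c hc).tors]
  choose! Q q1 q2 using key
  refine Set.ncard_le_ncard_of_injOn (fun c => (c - C.cob D (Q c), 2 ^ n • Q c))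
    (fun c hc => ⟨q1 c hc, q2 c hc⟩) (fun c hc c' hc' e => h2 c hc c' hc' (Q c - Q c') ?_ ?_) f2
  · rw [smul_sub, sub_eq_zero]
    exact congrArg Prod.snd e
  · intro g
    rw [cob_sub, Pi.sub_apply, ← sub_eq_sub_iff_sub_eq_sub]
    exact congrFun (congrArg Prod.fst e) g

end Cu

end Pool.Agent.SP
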