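import Pool.Agent.Lib.MP_696deb_nt.SP.PI1
import Pool.Agent.Lib.MP_696deb_nt.SP.YA

/-! The parity of the Selmer group of level `2 ^ ∞`: definitions. -/

set_option autoImplicit false

open scoped Classical
open Finset Function

namespace Pool.Agent.SP

open Pool.Agent.Lib.MP_696deb_nt Pool.Agent.Lib.MP_696deb_nt.Sm
open Pool.Agent.Lib.MP_696deb_nt.B2 (cc jC)

namespace Cu

variable (C : Cu)

/-- All cocycles that come from points at all places. -/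
noncomputable def Zi (D : ℤ) : AddSubgroup (GQ → C.A) where
  carrier := {c | C.Coc D c ∧ LC c ∧ ∀ v, Pv v → C.Loc v D c}
  zero_mem' := ⟨fun g _ => by simp [C.tw_zero], B2.Sm.const 0, fun v _ => C.loc_zero v D⟩
  add_mem' := fun {a b} h h' => ⟨fun g k => by
      simp only [Pi.add_apply, h.1 g k, h'.1 g k, C.tw_add]
      abel,
    h.2.1.comp₂ h'.2.1 (· + ·), fun v hv => (h.2.2 v hv).add (h'.2.2 v hv)⟩
  neg_mem' := fun {a} h => ⟨fun g k => by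
      rw [Pi.neg_apply, Pi.neg_apply, Pi.neg_apply, h.1 g k, ← neg_one_zsmul (a k), C.tw_zsmul,
        neg_one_zsmul, neg_add],
    h.2.1.comp (-·), fun v hv => neg_one_zsmul a ▸ (h.2.2 v hv).zsmul (-1)⟩

/-- The Selmer cocycles of level `2 ^ n`. -/
noncomputable def Zs (D : ℤ) (n : ℕ) : AddSubgroup (GQ → C.A) :=
  C.Zi D ⊓ (nsmulAddMonoidHom (2 ^ n)).ker

/-- The cocycles of level two that come from points of two-power order. -/
noncomputable def Ti (D : ℤ) : AddSubgroup (GQ → C.A) where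
  carrier := {c | (∀ g, 2 • c g = 0) ∧ ∃ (S : C.A) (m : ℕ), 2 ^ m • S = 0 ∧ c = C.cob D S}
  zero_mem' := ⟨fun _ => smul_zero _, 0, 0, smul_zero _, funext fun g => by simp [cob, tw_zero]⟩
  add_mem' := by
    rintro _ _ ⟨h, S, m, h1, rfl⟩ ⟨k, S', m', k1, rfl⟩
    refine ⟨fun g => by rw [Pi.add_apply, smul_add, h, k, add_zero], S + S', m + m', ?_,
      (C.cob_add D S S').symm⟩
    rw [smul_add, pow_add, mul_smul, mul_smul, k1, smul_comm, h1, smul_zero, smul_zero, add_zero]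
  neg_mem' := fun {b} h => by
    rwa [show -b = b from funext fun g => C.neg_two (h.1 g)]

/-- The parity of the Selmer group of level two modulo torsion points. -/
noncomputable def Pr (D : ℤ) : F2 := par (Nat.card (C.Zs D 1)) + par (Nat.card (C.Ti D))

/-- The Selmer group of level `2 ^ ∞` has corank at most one. -/
def K1 (D : ℤ) : Prop := ∃ k : ℕ, ∀ n : ℕ, ∃ s : Finset (GQ → C.A), s.card ≤ 2 ^ n ∧
  ∀ c, C.IsSel D n c → ∃ b ∈ s, ∃ (S : C.A) (m : ℕ), 2 ^ m • S = 0 ∧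
    ∀ g, 2 ^ k • c g = b g + C.cob D S g

/-- Twice a class of level four lies in a group of order at most two, up to torsion points. -/
def Nl1 (D : ℤ) : Prop := ∃ a₀ : GQ → C.A, ∀ c, C.IsSel D 2 c → ∃ R : C.A, 4 • R = 0 ∧
  ((∀ g, 2 • c g = C.cob D R g) ∨ ∀ g, 2 • c g = a₀ g + C.cob D R g)

/-- Selmer cocycles are twice a global cocycle. -/
def Lft (D : ℤ) : Prop := ∀ n c, C.IsSel D n c → ∃ c', C.Coc D c' ∧ LC c' ∧ 2 • c' = c

/-- A global half of `c` and its distance from the local conditions. -/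
structure Dat (D : ℤ) (c c' : GQ → C.A) (t : ℕ → GQ → C.A) (N : ℕ) : Prop where
  coc : C.Coc D c'
  lc : LC c'
  two : 2 • c' = c
  z2 : ∀ v, Pv v → C.Z2 (Gv v) (t v)
  loc : ∀ v, Pv v → C.Loc v D (c' - t v)
  big : C.N0 ≤ N
  abs : D.natAbs ≤ N
  unr : ∀ q : ℕ, q.Prime → N < q → t q (sig q) = 0

/-- The Weil pairing of level `2 ^ (1 + j)`. -/
structure EW (D : ℤ) (j : ℕ) where
  e : C.A → C.A → ZMod (2 ^ (1 + j))
  addl : ∀ P P' Q, 2 ^ (1 + j) • P = 0 → 2 ^ (1 + j) • P' = 0 → 2 ^ (1 + j) • Q = 0 →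
    e (P + P') Q = e P Q + e P' Q
  addr : ∀ P Q Q', 2 ^ (1 + j) • P = 0 → 2 ^ (1 + j) • Q = 0 → 2 ^ (1 + j) • Q' = 0 →
    e P (Q + Q') = e P Q + e P Q'
  skew : ∀ P Q, e P Q = -e Q P
  eqv : ∀ g P Q, 2 ^ (1 + j) • P = 0 → 2 ^ (1 + j) • Q = 0 →
    e (C.tw D g P) (C.tw D g Q) = B2.cy (1 + j) g * e P Q
  right : ∀ P S, 2 ^ (1 + j) • P = 0 → 2 • S = 0 → e P S = B2.up j (C.ep (2 ^ j • P) S)
  iso : ∀ (H : Subgroup GQ) (A B : GQ → C.A) (P Q : C.A), IsClosed (H : Set GQ) →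
    (∀ g ∈ H, 2 ^ (1 + j) • A g = 0) → (∀ g ∈ H, 2 ^ (1 + j) • B g = 0) →
    (∀ g ∈ H, A g = C.cob D P g) → (∀ g ∈ H, B g = C.cob D Q g) →
    B2.Spl (1 + j) H fun g h => e (A g) (C.tw D g (B h))

/-- The square of Pontryagin. -/
noncomputable def EW.pont {C : Cu} {D : ℤ} {j : ℕ} (W : C.EW D j) (A : GQ → C.A) (g h : GQ) :
    ZMod (2 ^ (1 + j)) := W.e (A g) (C.tw D g (A h)) +
      B2.up j (C.ep (2 ^ j • A (g * h)) (A g + C.tw D g (A h) - A (g * h)))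

variable {C} {D : ℤ} {n : ℕ} {c : GQ → C.A}

theorem mem_Zs' : c ∈ C.Zs D n ↔ c ∈ C.Zi D ∧ 2 ^ n • c = 0 := Iff.rfl

theorem mem_Zs : c ∈ C.Zs D n ↔ C.IsSel D n c :=
  ⟨fun h => ⟨congrFun h.2, h.1.1, h.1.2.1, h.1.2.2⟩, fun h => ⟨⟨h.coc, h.lc, h.loc⟩, funext h.tors⟩⟩

theorem finite_Zs (C : Cu) (hD : D ≠ 0) (n : ℕ) : Finite (C.Zs D n) :=
  ((C.fin_sel hD n).subset fun _ h => mem_Zs.1 h).to_subtype

theorem cob_Zi (C : Cu) (D : ℤ) (Q : C.A) : C.cob D Q ∈ C.Zi D :=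
  ⟨C.cob_mul D Q, C.lc_cob D Q, fun v _ => C.loc_cob v D Q⟩

theorem Ti_le (C : Cu) (D : ℤ) : C.Ti D ≤ C.Zs D 1 := by
  rintro _ ⟨h, S, -, -, rfl⟩
  exact ⟨C.cob_Zi D S, funext h⟩

end Cu

/-- A finite Selmer group of level `2 ^ ∞` forces even parity. -/
def ParStmt : Prop := ∀ (C : Cu) (D : ℤ), D ≠ 0 → C.Kz D → C.Pr D = 0

/-- The Selmer group of level `2 ^ ∞` of the twist has corank one. -/
def Fn1 (a b c d : ℤ) : Prop := ∀ C : Cu, C.a = a → C.b = b → C.c = c → C.K1 d ∧ ¬ C.Kz d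

/-- One sign and a set of primes of positive density give twists of corank one. -/
def Goal1 (a b c : ℤ) : Prop := ∃ ε : ℤ, (ε = 1 ∨ ε = -1) ∧ PosD {p | Fn1 a b c (ε * p)}

/-- One sign and one class of Frobenius elements give twists of corank one. -/
def GoalF1 (a b c : ℤ) : Prop := ∃ (ε : ℤ) (U : Subgroup GQ) (s : GQ) (N : ℕ), (ε = 1 ∨ ε = -1) ∧
  B2.Op U ∧ U.Normal ∧ ∀ p : ℕ, p.Prime → N < p → Frb U s p → Fn1 a b c (ε * p)

theorem GoalF1.goal (den : DenStmt) {a b c : ℤ} (h : GoalF1 a b c) : Goal1 a b c := by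
  obtain ⟨ε, U, s, N, h1, h2, h3, h4⟩ := h
  exact ⟨ε, h1, (den U s N h2 h3).mono fun p hp k => h4 p hp k.1 k.2⟩

end Pool.Agent.SP
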