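import Pool.Agent.Lib.MP_696deb_nt.SP.IG1

/-! Duality over the rational numbers for modules that are killed by two: definitions. -/

set_option autoImplicit false

open scoped Classical
open Finset Function

namespace Pool.Agent.SP

open Pool.Agent.Lib.MP_696deb_nt Pool.Agent.Lib.MP_696deb_nt.Sm
open Pool.Agent.Lib.MP_696deb_nt.B2 (cc jC Plc Op Zu Rs Z1 H0 GoodA Apart Away cupb)
open Pool.Agent.Lib.MP_696deb_nt.B6 (W2 N2 sg dW)

/-- Smooth two-cocycles with values in the plane. -/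
def C2R (r : GQ →* N2) (H : Subgroup GQ) (w : GQ → GQ → W2) : Prop :=
  B2.Sm2 H w ∧ ∀ g ∈ H, ∀ h ∈ H, ∀ k ∈ H, sg r g (w h k) + w g (h * k) = w (g * h) k + w g h

/-- Coboundaries. -/
def SplR (r : GQ →* N2) (H : Subgroup GQ) (w : GQ → GQ → W2) : Prop :=
  ∃ β : GQ → W2, B2.Sm H β ∧ ∀ g ∈ H, ∀ h ∈ H, w g h = β g + sg r g (β h) - β (g * h)

/-- The subgroup that fixes the square roots of minus one. -/
def HF : Subgroup GQ where
  carrier := {g | chi (-1) g = 0}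
  one_mem' := loc_one _
  mul_mem' := fun {g h} k k' => by
    show chi (-1) (g * h) = 0
    rw [chi_mul_g, show chi (-1) g = 0 from k, show chi (-1) h = 0 from k', add_zero]
  inv_mem' := fun {g} k => by
    have e := chi_mul_g (-1) g g⁻¹
    rw [mul_inv_cancel, show chi (-1) g = 0 from k, zero_add] at e
    exact e.symm.trans (loc_one _)

theorem mem_HF {g : GQ} : g ∈ HF ↔ chi (-1) g = 0 := Iff.rfl

/-- A smooth representation that is unramified at the primes above `N`. -/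
structure Ur (r : GQ →* N2) (N : ℕ) : Prop where
  sm : B2.Sm ⊤ r
  two : 2 ≤ N
  unr : ∀ w : Plc, N < w.p → ∀ σ ∈ B2.Ine w, r σ = 1

/-- Cocycles that are unramified above `N` and trivial at the primes up to `N` are trivial. -/
def BigW (r : GQ →* N2) (N : ℕ) : Prop := ∀ y ∈ Zu ⊤ (sg r) (plS N),
  (∀ v : ℕ, v.Prime → v ≤ N → ∃ S, ∀ g ∈ Gv v, y g = B2.cob (sg r) S g) →
  ∃ S, ∀ g, y g = B2.cob (sg r) S g

/-- The module that is induced from the subgroup `HF`. -/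
noncomputable def aN (r : GQ →* N2) (g : GQ) : W2 × W2 →+ W2 × W2 :=
  AddMonoidHom.mk' (fun z => (sg r g z.1 + (chi (-1) g).val • sg r g z.2, sg r g z.2))
    fun z z' => by
      simp only [Prod.fst_add, Prod.snd_add, map_add, smul_add, Prod.mk_add_mk, Prod.mk.injEq,
        and_true]
      abel

theorem aN_apply (r : GQ →* N2) (g : GQ) (z : W2 × W2) :
    aN r g z = (sg r g z.1 + (chi (-1) g).val • sg r g z.2, sg r g z.2) := rfl

/-- Its invariant pairing. -/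
def bN : W2 × W2 →+ W2 × W2 →+ ZMod (2 ^ 1) :=
  AddMonoidHom.mk' (fun z => AddMonoidHom.mk' (fun z' => dW z.1 z'.2 + dW z.2 z'.1) fun y y' => by
    simp only [Prod.fst_add, Prod.snd_add, map_add]
    abel) fun z z' => AddMonoidHom.ext fun y => by
      simp only [AddMonoidHom.mk'_apply, Prod.fst_add, Prod.snd_add, map_add,
        AddMonoidHom.add_apply]
      abel

theorem bN_apply (z z' : W2 × W2) : bN z z' = dW z.1 z'.2 + dW z.2 z'.1 := rfl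

section

variable {M : Type} [AddCommGroup M] (a : GQ → M →+ M) (b : M →+ M →+ ZMod (2 ^ 1)) (N : ℕ)

/-- The global classes are their own annihilator. -/
def LagA : Prop := ∀ t : ℕ → GQ → M, (∀ v ∈ plc N, B2.Coc (Gv v) a (t v)) →
  (∀ z ∈ Zu ⊤ a (plS N), ∑ v ∈ plc N, iv v (cupb b a (t v) z) = 0) →
  ∃ z ∈ Zu ⊤ a (plS N), ∀ v ∈ plc N, ∃ x, ∀ g ∈ Gv v, (t v + z) g = B2.cob a x g

/-- The same relative to local conditions. -/
def PtA : Prop := ∀ Y : ℕ → (GQ → M) → Prop, (∀ v y y', Y v y → Y v y' → Y v (y + y')) →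
  (∀ v y y', Y v y → (∀ g ∈ Gv v, y' g = y g) → Y v y') → (∀ v x, Y v (B2.cob a x)) →
  ∀ t : ℕ → GQ → M, (∀ v ∈ plc N, B2.Coc (Gv v) a (t v)) →
  (∀ y ∈ Zu ⊤ a (plS N), (∀ v ∈ plc N, Y v y) → ∑ v ∈ plc N, iv v (cupb b a (t v) y) = 0) →
  ∃ z ∈ Zu ⊤ a (plS N), ∀ v ∈ plc N, ∀ y, B2.Coc (Gv v) a y → Y v y →
    iv v (cupb b a (t v + z) y) = 0

/-- The inequality between the numbers of cocycles. -/
def Inq : Prop := Nat.card (Rs ⊤ a (plS N)) * Nat.card (H0 (Subgroup.zpowers cc) a) ≤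
  Nat.card (Zu ⊤ a (plS N))

end

variable {r : GQ →* N2} {N : ℕ}

theorem op_HF : Op HF := by
  obtain ⟨U, h1, -, h3⟩ := lc_chi (-1)
  exact Subgroup.isOpen_mono (fun g hg => (h3 1 trivial g trivial (by simpa using hg)).symm.trans
    (loc_one _)) h1

theorem Ur.mono (h : Ur r N) {N' : ℕ} (k : N ≤ N') : Ur r N' :=
  ⟨h.sm, h.two.trans k, fun w hw => h.unr w (k.trans_lt hw)⟩

theorem Ur.good (h : Ur r N) : GoodA ⊤ (sg r) (plS N) := fun w hw =>
  ⟨(h.two.trans_lt (away_plS.1 hw)).ne', fun σ hσ x => by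
    rw [B6.sg_apply, h.unr w (away_plS.1 hw) σ hσ.2, Matrix.one_mulVec]⟩

theorem BigH.mono {H : Subgroup GQ} (h : BigH H N) {N' : ℕ} (k : N ≤ N') : BigH H N' :=
  fun χ h1 h2 h3 h4 => h χ h1 h2 (fun w hw σ hσ => by
    by_cases e : N' < w.p
    · exact h3 w e σ hσ
    · exact h4 w (not_lt.1 e) σ ⟨hσ.1, hσ.2.1⟩) fun w hw => h4 w (hw.trans k)

namespace Cu

/-- Coordinates on the two-torsion. -/
structure Co (C : Cu) (r : GQ →* N2) (ι : W2 →+ C.A) : Prop where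
  inj : Injective ι
  ran : ∀ S, 2 • S = 0 ↔ ∃ x, ι x = S
  act : ∀ g x, C.act g (ι x) = ι (sg r g x)
  ep : ∀ x y, C.ep (ι x) (ι y) = dW x y
  sm : B2.Sm ⊤ r
  p0 : B6.P0 r = C.P0
  one : ∀ g, r g = 1 ↔ g ∈ C.Kpm
  tr : ∀ g, (∀ i, C.pm g i ≠ i) → (r g).trace = 1

theorem exists_co (C : Cu) : ∃ r ι, C.Co r ι := by
  obtain ⟨r, ι, h1, h2, h3, h4, h5, h6, h7, h8⟩ := C.exists_coord
  exact ⟨r, ι, h1, h2, h3, h4, h5, h6, h7, h8⟩

variable {C : Cu} {ι : W2 →+ C.A} {H : Subgroup GQ}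

theorem Co.two (h : C.Co r ι) (x : W2) : 2 • ι x = 0 := (h.ran _).2 ⟨x, rfl⟩

theorem Co.inv (h : C.Co r ι) {S : C.A} (k : 2 • S = 0) : ι (invFun ι S) = S :=
  invFun_eq ((h.ran S).1 k)

theorem Co.z2 (h : C.Co r ι) {c : GQ → W2} (k : B2.Coc H (sg r) c) : C.Z2 H fun g => ι (c g) :=
  ⟨fun _ _ => h.two _, fun g hg l hl => by rw [k.2 g hg l hl, map_add, h.act], k.1.comp ι⟩

theorem Co.coc (h : C.Co r ι) {c : GQ → C.A} (k : C.Z2 H c) :
    B2.Coc H (sg r) fun g => invFun ι (c g) :=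
  ⟨k.sm.comp (invFun ι), fun g hg l hl => h.inj (by
    rw [map_add, ← h.act, h.inv (k.two _ (mul_mem hg hl)), h.inv (k.two g hg), h.inv (k.two l hl),
      k.coc g hg l hl])⟩

theorem Co.cob (h : C.Co r ι) (x : W2) (g : GQ) :
    ι (B2.cob (sg r) x g) = C.act g (ι x) - ι x := by rw [B2.cob, map_sub, h.act]

theorem Co.cu (h : C.Co r ι) (u b : GQ → W2) :
    C.cu (fun g => ι (u g)) (fun g => ι (b g)) = cupb dW (sg r) u b := by
  funext g k
  rw [Cu.cu, h.act, h.ep]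
  rfl

theorem Co.bv (h : C.Co r ι) (v : ℕ) (u b : GQ → W2) :
    C.bv v (fun g => ι (u g)) (fun g => ι (b g)) = iv v (cupb dW (sg r) u b) := by
  rw [Cu.bv, h.cu]

theorem Co.big (h : C.Co r ι) (k : C.N0 ≤ N) : (C.big N k).Co r ι :=
  ⟨h.inj, h.ran, h.act, h.ep, h.sm, h.p0, h.one, h.tr⟩

theorem Co.ur (h : C.Co r ι) : Ur r C.N0 :=
  ⟨h.sm, C.two_le_N0, fun w hw σ hσ => (h.one σ).2 fun i => C.T_inj (by
    rw [← act_T]
    exact (Z2.ine_all ⟨w.prime, hw⟩ (C.z2_zero ⊤) rfl rfl σ hσ).2 _ (C.two_T i))⟩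

theorem Co.zu (h : C.Co r ι) {y : GQ → W2} :
    y ∈ Zu ⊤ (sg r) (plS C.N0) ↔ C.Un fun g => ι (y g) := by
  refine ⟨fun k => ⟨h.z2 k.1.1, fun q hq => ?_⟩, fun k => ⟨⟨?_, fun _ e => absurd trivial e⟩,
    fun w hw σ hσ => h.inj ?_⟩⟩
  · beta_reduce
    rw [k.2 (pl q) (away_plS.2 (by rw [pl_p hq.1]; exact hq.2)) _
      ⟨trivial, sig_ine hq.1 hq.ne_two⟩, map_zero]
  · simpa only [leftInverse_invFun h.inj _] using h.coc k.1
  · have e : C.Gp w.p := ⟨w.prime, away_plS.1 hw⟩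
    rw [map_zero]
    exact (Z2.ine_all e k.1 (k.2 _ e) rfl σ hσ.2).1

/-- The global classes with values in the two-torsion are their own annihilator. -/
def Lag (C : Cu) : Prop := ∀ t : ℕ → GQ → C.A, (∀ v ∈ plc C.N0, C.Z2 (Gv v) (t v)) →
  (∀ y, C.Un y → ∑ v ∈ plc C.N0, C.bv v (t v) y = 0) →
  ∃ y, C.Un y ∧ ∀ v ∈ plc C.N0, ∃ S : C.A, 2 • S = 0 ∧ ∀ g ∈ Gv v, (t v + y) g = C.act g S - S

end Cu

end Pool.Agent.SP
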