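import Pool.Agent.Lib.MP_696deb_nt.SP.IE

/-! The global count for any sign of the discriminant. -/

set_option autoImplicit false

open scoped Classical
open Finset Function

namespace Pool.Agent.SP

open Pool.Agent.Lib.MP_696deb_nt Pool.Agent.Lib.MP_696deb_nt.Sm
open Pool.Agent.Lib.MP_696deb_nt.B2 (cc jC)

open Pool.Agent.Lib.MP_696deb_nt.B2 (Plc Op Zu Rs Zc Z1 Z2 tr Apart Away GoodA LocC Perp rs IsCC)
open Pool.Agent.Lib.MP_696deb_nt.B6 (W2 N2 sg dW P0)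

open B2 in
open Pool.Agent.Lib.MP_580eba_nt (index_ES mem_ES mem_map_pw) in
theorem pc_su {H : Subgroup GQ} (hH : Op H) {s : Finset Plc} (hs : Apart H s) :
    ∃ n, H.index ≤ 2 * n ∧ ∃ a : Fin (n + s.card) → Qbar,
    (∀ i, a i ≠ 0 ∧ Fx H (a i) ∧ ∀ w, Away H s w → w.V (a i) = 1) ∧
    ∀ t : Finset (Fin (n + s.card)), (∃ b, Fx H b ∧ ∏ i ∈ t, a i = b ^ 2) → t = ∅ := by
  have := nf_Kf hH
  choose u hu using fun w : Plc => exists_un (H := H) w
  have h1 : (s.image u).card = s.card := card_image_of_injOn fun v hv w hw h => by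
    obtain ⟨g, hg, e⟩ := Un.conj hH (hu v) (h ▸ hu w)
    exact hs v hv w hw g hg e
  have h2 : H.index ≤ 2 * Fintype.card (NumberField.InfinitePlace (Kf H)) := by
    rw [NumberField.InfinitePlace.card_eq_nrRealPlaces_add_nrComplexPlaces, ← finrank_Kf hH,
      ← NumberField.InfinitePlace.card_add_two_mul_card_eq_rank]
    omega
  have h3 := index_ES (s.image u)
  rw [h1, add_comm] at h3
  obtain ⟨a, ha, hi⟩ := exists_indep _ h3
  refine ⟨_, h2, fun i => ((a i : Kf H) : Qbar), fun i => ⟨?_, fx_Kf _, fun w hw => ?_⟩, fun t ht => ?_⟩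
  · exact fun h => (a i).ne_zero (Subtype.ext h)
  · refine ((hu w).eq_one _).1 (mem_ES.1 (ha i) _ fun h => ?_)
    obtain ⟨v, hv, e⟩ := mem_image.1 h
    obtain ⟨g, hg, e'⟩ := Un.conj hH (hu v) (e ▸ hu w)
    exact hw v hv g hg e'
  · obtain ⟨b, hb, e⟩ := ht
    refine hi t (mem_map_pw (Subgroup.prod_mem _ fun i _ => ha i) ⟨⟨b, b3a_fx.1 hb⟩, ?_⟩)
    refine Subtype.ext ?_
    rw [Units.coe_prod, SubmonoidClass.coe_finsetProd]
    exact e.trans (pow_two b)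

/-- Units of an arbitrary number field. -/
theorem su_any {H : Subgroup GQ} (hH : Op H) {s : Finset Plc} (hs : Apart H s)
    (h2 : ∀ w, Away H s w → w.p ≠ 2) :
    ∃ n, H.index ≤ 2 * n ∧ 2 ^ (n + s.card) ≤ Nat.card (Zu H tr s) := by
  obtain ⟨n, hn, a, ha, hi⟩ := pc_su hH hs
  refine ⟨n, hn, ?_⟩
  choose κ hκ using fun i => B2.exists_kum 1 (ha i).1 (ha i).2.1
  have := B6.finH hH s
  let f : (Fin (n + s.card) → Z2) →+ (GQ → Z2) := (rs H).comp
    { toFun := fun x g => ∑ i, x i * κ i g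
      map_zero' := funext fun g => by simp
      map_add' := fun x y => funext fun g => by simp [add_mul, sum_add_distrib] }
  have hf' : ∀ x, f x = rs H (∑ i ∈ univ.filter fun i => x i = 1, κ i) := fun x =>
    congrArg (rs H) (B2.GWi_sum κ x)
  have mem : ∀ x, f x ∈ Zu H tr s := fun x => by
    rw [hf']
    refine B2.mem_Zu.2 ⟨B2.rs_mem_Z1 (B2.GWi_kum_prod hκ _).coc_tr, fun w hw σ hσ => ?_⟩
    rw [B2.rs_of_mem hσ.1]
    refine (B2.GWi_kum_prod hκ _).unr (h2 w hw) ?_ σ hσ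
    rw [map_prod]
    exact prod_eq_one fun i _ => (ha i).2.2 w hw
  have inj : Function.Injective f := by
    refine (injective_iff_map_eq_zero f).2 fun x hx => ?_
    obtain ⟨r, r1, r2⟩ := (B2.GWi_kum_prod hκ (univ.filter fun i => x i = 1)).pow_iff.2
      ⟨0, fun g hg => by
        rw [mul_zero, ← B2.rs_of_mem hg (∑ i ∈ univ.filter fun i => x i = 1, κ i), ← hf', hx]
        rfl⟩
    have e := hi _ ⟨r, r1, by simpa using r2.symm⟩
    funext i
    refine (B2.Z2.cases (x i)).resolve_right fun k => ?_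
    exact eq_empty_iff_forall_notMem.1 e i (mem_filter.2 ⟨mem_univ _, k⟩)
  have le := Nat.card_le_card_of_injective (fun x => (⟨f x, mem x⟩ : Zu H tr s))
    fun x y e => inj (congrArg Subtype.val e)
  simpa [Nat.card_eq_fintype_card] using le

theorem pc_two {r : GQ →* N2} {N : ℕ} (sm : B2.Sm ⊤ r) (o3 : ∃ γ, (r γ).trace = 1) (two : 2 ≤ N)
    (unr : ∀ w : Plc, N < w.p → ∀ σ ∈ B2.Ine w, r σ = 1) (big : BigH (P0 r) N) :
    Nat.card (Rs ⊤ (sg r) (plS N)) * 2 ≤ Nat.card (Zu ⊤ (sg r) (plS N)) := by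
  have good : GoodA ⊤ (sg r) (plS N) := fun w hw =>
    ⟨(two.trans_lt (away_plS.1 hw)).ne', fun σ hσ x => by
      rw [B6.sg_apply, unr w (away_plS.1 hw) σ hσ.2, Matrix.one_mulVec]⟩
  obtain ⟨γ, hγ⟩ := o3
  obtain ⟨t, T⟩ := B6.exists_Tv_glob (H := ⊤) sm (Subgroup.mem_top γ) hγ
  have hH : Op (⊤ : Subgroup GQ) := isOpen_univ
  obtain ⟨s, hs, k⟩ := T.exists_cover (plS N)
  have e0 : ∀ (H : Subgroup GQ) (w : Plc), Nat.card (B2.H0 (H ⊓ B2.Dec w) tr) = 2 := fun H w => by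
    rw [show B2.H0 (H ⊓ B2.Dec w) tr = ⊤ from eq_top_iff.2 fun _ _ _ _ => rfl,
      AddSubgroup.card_top, Nat.card_zmod, pow_one]
  obtain ⟨n, hn, e1⟩ := su_any (T.GWe_op hH) hs fun w hw => (good w ((k w).1 hw)).1
  have e2 := T.card_Zu_W hH good k
  have e3 := T.card_Rs_W hH (apart_plS N) k
  have e4 := card_Zu_top (s := plS N) fun w hw => (good w hw).1
  have e5 : (Zc (⊤ ⊓ P0 r) tr s fun w => B2.B1 (⊤ ⊓ P0 r ⊓ B2.Dec w) tr) = ⊥ := by
    refine eq_bot_iff.2 fun c hc => funext fun g => ?_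
    obtain ⟨h1, h2⟩ := B2.mem_Zc.1 hc
    refine (em (g ∈ ⊤ ⊓ P0 r)).elim (fun hg => ?_) (h1.1.2 g)
    have b := big
    rw [← top_inf_eq (P0 r)] at b
    refine b c h1.1.1.1 h1.1.1.2 (fun w hw => h1.2 w ((k w).2 (away_plS.2 hw)))
      (fun w hw d hd => ?_) g hg
    have := mt (k w).1 (mt away_plS.1 hw.not_gt)
    simp only [Away, not_forall, not_not] at this
    obtain ⟨v, hv, u, hu, rfl⟩ := this
    obtain ⟨x, hx⟩ := B2.rs_mem_B1.1 (h2 v hv)
    exact (B6.GWe_conj (B6.act0_of (B2.act_tr _)) h1.1.1 hx hu hd).trans (sub_self _)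
  have e6 := Subgroup.relIndex_mul_index T.le
  have hf : Finite (Zc ⊤ tr (plS N) fun w => B2.B1 (⊤ ⊓ B2.Dec w) tr) :=
    have := B6.finH hH (plS N)
    Finite.Set.subset (Zu ⊤ tr (plS N)) fun _ h => (B2.mem_Zc.1 h).1
  have e7 : 0 < Nat.card (Zc ⊤ tr (plS N) fun w => B2.B1 (⊤ ⊓ B2.Dec w) tr) := Nat.card_pos
  rw [T.relIndex, Subgroup.index_top] at e6
  replace e1 := (Nat.pow_le_pow_right two_pos (show 2 + s.card ≤ n + s.card by omega)).trans e1
  rw [B2.card_Rs ⊤ tr, B2.card_Rs _ tr, e5, AddSubgroup.card_bot] at e3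
  simp only [e0, prod_const] at e3
  refine Nat.le_of_mul_le_mul_right ?_ (pow_pos two_pos (1 + (plS N).card))
  calc _ = Nat.card (Rs ⊤ (sg r) (plS N)) * (1 * 2 ^ (plS N).card) * 4 := by ring
    _ ≤ 4 * (1 * 2 ^ s.card) * 4 := Nat.mul_le_mul_right _
      ((Nat.mul_le_mul_left _ (Nat.mul_le_mul_right _ e7)).trans e3)
    _ = 4 * 2 ^ (2 + s.card) := by ring
    _ ≤ _ := ((Nat.mul_le_mul_left _ e1).trans e2).trans (Nat.mul_le_mul_left _ e4)

/-- The global count, for both signs of the discriminant. -/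
theorem ineq_one {r : GQ →* N2} {N : ℕ} (sm : B2.Sm ⊤ r) (o3 : ∃ γ, (r γ).trace = 1) (two : 2 ≤ N)
    (unr : ∀ w : Plc, N < w.p → ∀ σ ∈ B2.Ine w, r σ = 1) (big : BigH (P0 r) N) :
    Nat.card (Rs ⊤ (sg r) (plS N)) * Nat.card (B2.H0 (Subgroup.zpowers cc) (sg r)) ≤
      Nat.card (Zu ⊤ (sg r) (plS N)) := by
  have d := AddSubgroup.card_addSubgroup_dvd_card (B2.H0 (Subgroup.zpowers cc) (sg r))
  rw [B6.card_W2] at d
  by_cases e : r cc = 1
  · refine (Nat.mul_le_mul_left _ (Nat.le_of_dvd four_pos d)).trans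
      (Rl.ineq ⟨sm, o3, fun g hg => ?_, two, unr, big⟩)
    obtain ⟨k, rfl⟩ := hg.conj
    rw [map_mul, map_mul, e, mul_one, ← map_mul, mul_inv_cancel, map_one]
  refine (Nat.mul_le_mul_left _ ?_).trans (pc_two sm o3 two unr big)
  have h4 : Nat.card (B2.H0 (Subgroup.zpowers cc) (sg r)) ≠ 4 := fun k => e (by
    have := AddSubgroup.eq_top_of_card_eq _ (k.trans B6.card_W2.symm)
    refine Matrix.ext_of_mulVec_single fun i => ?_
    rw [Matrix.one_mulVec]
    exact this.ge (AddSubgroup.mem_top _) cc (Subgroup.mem_zpowers cc))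
  have := Nat.le_of_dvd four_pos d
  generalize Nat.card (B2.H0 (Subgroup.zpowers cc) (sg r)) = x at *
  interval_cases x <;> omega

end Pool.Agent.SP
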