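import Pool.Agent.Lib.MP_696deb_nt.SP.PK2
import Pool.Agent.Lib.MP_696deb_nt.SP.PA0

/-! Global duality over the rational numbers for self-dual modules. -/

set_option autoImplicit false

open scoped Classical
open Finset Function

namespace Pool.Agent.SP

open Pool.Agent.Lib.MP_696deb_nt Pool.Agent.Lib.MP_696deb_nt.Sm
open Pool.Agent.Lib.MP_696deb_nt.B2 (cc jC)

open Pool.Agent.Lib.MP_696deb_nt.B2 (Plc Op Zu Rs Zc Z1 B1 H0 GoodA rs cupb Coc ann)
open Pool.Agent.Lib.MP_696deb_nt.B6 (N2 Dual0 Dual3)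

variable {M : Type} [AddCommGroup M] {a : GQ → M →+ M} {b : M →+ M →+ ZMod (2 ^ 1)}
  {r : GQ →* N2} {N : ℕ}

theorem recip_top (hd : B6.Dual0 1 ⊤ a a b) (hN : 2 ≤ N) (hg : GoodA ⊤ a (plS N)) {z z' : GQ → M}
    (k : z ∈ Zu ⊤ a (plS N)) (k' : z' ∈ Zu ⊤ a (plS N)) :
    ∑ v ∈ plc N, iv v (cupb b a z z') = 0 := pk_recip hd hN hg k k'

theorem lag_of_inq [Finite M] (hd : Dual3 r 1 ⊤ a a b) (hN : 2 ≤ N) (hg : GoodA ⊤ a (plS N))
    (h : Inq a N) : LagA a b N := fun t ht k => by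
  obtain ⟨z, h1, h2⟩ := pk_gen hd hN hg (L := fun _ => ⊤) (Gv_zero ▸ le_rfl) h h
    (fun _ _ => le_top) ht fun y hy _ => k y hy
  refine ⟨z, h1, fun v hv => pk_ker (tc_pv hv) (hd.mono le_top) ((ht v hv).add
    (h1.1.1.mono le_top)) fun c hc => Eq.trans (iv_congr (tc_pv hv) fun g _ l hl => ?_)
      (h2 v hv _ trivial (B2.rs_mem_Z1 hc))⟩
  simp only [cupb, B2.rs_of_mem hl]

theorem pt_of_lag [Finite M] (hd : Dual3 r 1 ⊤ a a b) (hN : 2 ≤ N) (hg : GoodA ⊤ a (plS N))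
    (h : LagA a b N) : PtA a b N := fun Y y1 y2 y3 t ht k => by
  have hl := fun v => hd.mono (le_top (a := Gv v))
  have f3 : ∀ v : plc N, Finite (Z1 (Gv v) a) := fun ⟨v, hv⟩ => (tc_pv hv).elim
    (fun e => e ▸ (pk_card0 (hl 0).zero).1) fun e => (pk_card e (hl v)).1
  choose p hp using fun v : plc N => pk_lp (tc_pv v.2) (hl v).zero
  have k1 := fun v : plc N => pk_kers (tc_pv v.2) (hl v) (hp v)
  let U : ∀ v : plc N, AddSubgroup (Z1 (Gv v) a) := fun v =>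
    { carrier := {c | Y v c}
      zero_mem' := y2 v _ _ (y3 v 0) fun g _ => by simp [B2.cob]
      add_mem' := y1 v _ _
      neg_mem' := fun {c} e => y2 v _ _ e fun g _ => neg_eq_of_add_eq_zero_left
        ((two_nsmul _).symm.trans (hd.zero.pow_smul _)) }
  obtain ⟨z, hz⟩ := pk_pi p (fun v => pkL a N v) (fun v => pkL a N v) (fun z z' => by
      rw [← pk_recip hd.zero hN hg z.2 z'.2, ← sum_coe_sort (plc N)]
      exact sum_congr rfl fun v _ => (hp _ _ _).trans (iv_congr (tc_pv v.2) fun g hg l hl => by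
        simp [cupb, pkL, B2.rs_of_mem hg, B2.rs_of_mem hl])) (.inr fun x hx => by
      obtain ⟨z, z1, z2⟩ := h (fun v => if e : v ∈ plc N then x ⟨v, e⟩ else 0)
        (fun v hv => by simpa only [dif_pos hv] using (x ⟨v, hv⟩).2.1) fun y hy => by
          rw [← hx ⟨y, hy⟩, ← sum_coe_sort (plc N)]
          exact sum_congr rfl fun v _ => (iv_congr (tc_pv v.2) fun g hg l hl => by
            simp [cupb, pkL, B2.rs_of_mem hl]).trans (hp _ _ _).symm
      refine ⟨⟨z, z1⟩, fun v => ?_⟩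
      obtain ⟨s, hs⟩ := z2 v v.2
      rw [(k1 v).1, AddSubgroup.mem_addSubgroupOf, ← B2.rs_eq_self (Subtype.prop _), B2.rs_mem_B1]
      exact ⟨s, fun g hg => by simpa [pkL, B2.rs_of_mem hg] using hs g hg⟩)
    (U := U) (fun v => (k1 v).2 ▸ fun c ⟨s, hs⟩ => y2 v _ _ (y3 v s) fun g hg => by
      rw [← B2.rs_of_mem hg (B2.cob a s)]
      exact (congrFun hs g).symm)
    (x := fun v => ⟨_, B2.rs_mem_Z1 (ht v v.2)⟩) fun y hy => by
      rw [← k y.1 y.2 fun v hv => y2 v _ _ (hy ⟨v, hv⟩) fun g hg => (B2.rs_of_mem hg _).symm,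
        ← sum_coe_sort (plc N)]
      exact sum_congr rfl fun v _ => (hp _ _ _).trans (iv_congr (tc_pv v.2) fun g hg l hl => by
        simp [cupb, pkL, B2.rs_of_mem hg, B2.rs_of_mem hl])
  refine ⟨z.1, z.2, fun v hv u hu h1 => Eq.trans (iv_congr (tc_pv hv) fun g hg l hl => ?_)
    ((hp _ _ _).symm.trans (hz ⟨v, hv⟩ ⟨_, B2.rs_mem_Z1 hu⟩
      (y2 v _ _ h1 fun g hg => B2.rs_of_mem hg _)))⟩
  simp [cupb, pkL, B2.rs_of_mem hg, B2.rs_of_mem hl]

theorem pt_top [Finite M] (hd : Dual3 r 1 ⊤ a a b) (hN : 2 ≤ N) (hg : GoodA ⊤ a (plS N))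
    (h : Inq a N) : PtA a b N := pt_of_lag hd hN hg (lag_of_inq hd hN hg h)

end Pool.Agent.SP
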