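import Pool.Agent.Lib.MP_696deb_nt.SP.PA0

/-! The number of cocycles with values in the induced module. -/

set_option autoImplicit false

open scoped Classical
open Finset Function

namespace Pool.Agent.SP

open Pool.Agent.Lib.MP_696deb_nt Pool.Agent.Lib.MP_696deb_nt.Sm
open Pool.Agent.Lib.MP_696deb_nt.B2 (cc jC Plc Op Zu Rs Z1 H0 GoodA Apart Away cupb)
open Pool.Agent.Lib.MP_696deb_nt.B6 (W2 N2 sg dW)

variable {r : GQ →* N2} {N : ℕ}

theorem pf_cc : chi (-1) cc = 1 := by rw [loc_chi_cc (by norm_num), if_neg (by norm_num)]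

theorem pf_not {g : GQ} : g ∉ HF ↔ chi (-1) g = 1 := by
  rw [mem_HF]
  generalize chi (-1) g = t
  revert t
  decide

theorem pf_mul_cc {g : GQ} : g * cc ∈ HF ↔ g ∉ HF := by
  rw [mem_HF, mem_HF, chi_mul_g, pf_cc]
  generalize chi (-1) g = t
  revert t
  decide

theorem pf_val : ∀ (a b : ZMod 2) (v : W2), (a + b).val • v = a.val • v + b.val • v := by decide

theorem pf_ine {w : Plc} (hw : w.p ≠ 2) {σ : GQ} (h : σ ∈ B2.Ine w) : σ ∈ HF :=
  B2.xi_eq_zero.2 (B2.chi_ine (fun k => hw ((Nat.prime_dvd_prime_iff_eq w.prime Nat.prime_two).1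
    (Int.natCast_dvd_natCast.1 (by simpa using k)))) h)

theorem tc_HF : B2.TC HF :=
  B2.tc_of_le (q := 1) one_pos fun _ hg => B2.xi_eq_zero.1 hg

theorem index_HF : HF.index = 2 :=
  Subgroup.index_eq_two_iff.2 ⟨cc, fun g => by
    rw [pf_mul_cc]
    exact (em (g ∈ HF)).symm.imp (fun e => ⟨e, e⟩) fun e => ⟨e, not_not.2 e⟩⟩

theorem pf_act (h : B2.Sm ⊤ r) (H : Subgroup GQ) : B6.Act3 r H (aN r) := by
  refine ⟨⟨B2.Sm.mono ?_ le_top, fun z => ?_, fun g _ k _ z => ?_⟩, fun g _ e => ⟨1, fun z => ?_⟩,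
    fun g hg e z k => ?_⟩
  · obtain ⟨U, h1, h2, h3⟩ := h.comp₂ (lc_chi (-1)) Prod.mk
    refine ⟨U, h1, h2, fun g hg k hk e => AddMonoidHom.ext fun z => ?_⟩
    obtain ⟨e1, e2⟩ := Prod.mk.inj (h3 g hg k hk e)
    simp only [aN_apply, B6.sg_apply, e1, e2]
  · rw [aN_apply, show chi (-1) 1 = 0 from loc_one _, B6.sg_one, B6.sg_one, ZMod.val_zero,
      zero_smul, add_zero]
  · simp only [aN_apply, B6.sg_mul, chi_mul_g, pf_val, map_add, map_nsmul, Prod.mk.injEq, and_true]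
    abel
  · have e1 : ∀ x, sg r (g * g) x = x := fun x => by
      rw [B6.sg_apply, map_mul, e, mul_one, Matrix.one_mulVec]
    rw [show g ^ 2 ^ 1 = g * g from pow_two g, aN_apply, chi_mul_g, pf_val, e1, e1, B6.W2.add_self, add_zero]
  · have k2 : z.2 = 0 := (B6.act3_sg h H).fpf g hg e _ (congrArg Prod.snd k)
    have k1 := congrArg Prod.fst k
    rw [aN_apply, k2, map_zero, smul_zero, add_zero] at k1
    exact Prod.ext ((B6.act3_sg h H).fpf g hg e _ k1) k2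

theorem pf_left (x : W2 × W2) (k : ∀ y, bN x y = 0) : x = 0 :=
  Prod.ext (B6.dW_left _ fun v => by simpa only [bN_apply, map_zero, add_zero] using k (0, v))
    (B6.dW_left _ fun v => by simpa only [bN_apply, map_zero, zero_add] using k (v, 0))

theorem dual3_aN (h : B2.Sm ⊤ r) (H : Subgroup GQ) : B6.Dual3 r 1 H (aN r) (aN r) bN := by
  refine ⟨h, pf_act h H, pf_act h H, fun g _ x y => ?_, pf_left, fun y k => pf_left y fun x => ?_⟩
  · simp only [bN_apply, aN_apply, map_add, map_nsmul, AddMonoidHom.add_apply,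
      AddMonoidHom.nsmul_apply, B6.dW_sg, B2.cy_one_eq, one_mul]
    rw [add_add_add_comm, B2.Z2.add_self (_ • _), add_zero]
  · rw [← k x, bN_apply, bN_apply, add_comm, B6.dW_comm y.2, B6.dW_comm y.1]

theorem Ur.goodN (h : Ur r N) : GoodA ⊤ (aN r) (plS N) := fun w hw =>
  ⟨(h.good w hw).1, fun σ hσ z => by
    rw [aN_apply, mem_HF.1 (pf_ine (h.good w hw).1 hσ.2), (h.good w hw).2 σ hσ,
      (h.good w hw).2 σ hσ, ZMod.val_zero, zero_smul, add_zero]⟩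

theorem exists_coverF (s : Finset Plc) :
    ∃ s' : Finset Plc, Apart HF s' ∧ ∀ w, Away HF s' w ↔ Away ⊤ s w := by
  obtain ⟨s', h1, h2⟩ := B6.GWe_apart HF (s ∪ s.image (cc • ·))
  refine ⟨s', h1, fun w => (h2 w).trans ⟨fun k v hv g _ e => ?_, fun k v hv g _ e => ?_⟩⟩
  · by_cases c : g ∈ HF
    · exact k v (mem_union_left _ hv) g c e
    · refine k _ (mem_union_right _ (mem_image_of_mem _ hv)) (g * cc) (pf_mul_cc.2 c) ?_
      rw [← mul_smul, mul_assoc, B2.cc_mul_cc, mul_one, e]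
  · rcases mem_union.1 hv with c | c
    · exact k v c g trivial e
    · obtain ⟨u, hu, rfl⟩ := mem_image.1 c
      exact k u hu (g * cc) trivial (by rw [mul_smul, e])

theorem card_H0_aN (r : GQ →* N2) : Nat.card (H0 (Subgroup.zpowers cc) (aN r)) ≤ 4 := by
  have k : ∀ z : H0 (Subgroup.zpowers cc) (aN r), z.1.2 = z.1.1 - sg r cc z.1.1 := fun z => by
    have e := z.2 cc (Subgroup.mem_zpowers cc)
    have e2 : sg r cc z.1.2 = z.1.2 := congrArg Prod.snd e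
    have e1 := congrArg Prod.fst e
    rw [aN_apply, pf_cc, e2, ZMod.val_one, one_smul] at e1
    exact eq_sub_of_add_eq' e1
  rw [← B6.card_W2]
  exact Nat.card_le_card_of_injective (fun z => z.1.1) fun z z' e =>
    Subtype.ext (Prod.ext e (by rw [k, k, show z.1.1 = z'.1.1 from e]))

/-- The first coordinate of the induced cocycle. -/
noncomputable def pfX (r : GQ →* N2) (c : GQ → W2) (x0 : W2) (g : GQ) : W2 :=
  c g + c (g * cc) + (chi (-1) g).val • sg r (g * cc) x0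

/-- The second coordinate. -/
noncomputable def pfY (r : GQ →* N2) (c : GQ → W2) (x0 : W2) (g : GQ) : W2 :=
  sg r cc (pfX r c x0 (cc * g) - pfX r c x0 cc) - pfX r c x0 g

section

variable {c : GQ → W2} {x0 : W2}

theorem pf_sm (hc : c ∈ Z1 HF (sg r)) : B2.Sm ⊤ c := by
  obtain ⟨U, h1, -, h3⟩ := hc.1.1
  refine B2.Sm.of_open (U ⊓ HF) (h1.inter op_HF) fun g _ u hu => ?_
  by_cases e : g ∈ HF
  · exact (h3 g e _ (mul_mem e hu.2.2) (by simpa using hu.2.1)).symm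
  · rw [hc.2 g e, hc.2 _ fun k => e ((HF.mul_mem_cancel_right hu.2.2).1 k)]

theorem pfX_mem (hc : c ∈ Z1 HF (sg r)) {g : GQ} (hg : g ∈ HF) : pfX r c x0 g = c g := by
  rw [pfX, hc.2 _ (fun k => pf_mul_cc.1 k hg), mem_HF.1 hg, ZMod.val_zero, zero_smul, add_zero,
    add_zero]

theorem pfX_not (hc : c ∈ Z1 HF (sg r)) {g : GQ} (hg : g ∉ HF) :
    pfX r c x0 g = c (g * cc) + sg r (g * cc) x0 := by
  rw [pfX, hc.2 _ hg, pf_not.1 hg, ZMod.val_one, one_smul, zero_add]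

theorem pfX_cc (hc : c ∈ Z1 HF (sg r)) : pfX r c x0 cc = x0 := by
  have e := hc.1.2 1 (one_mem _) 1 (one_mem _)
  rw [one_mul, B6.sg_one, left_eq_add] at e
  rw [pfX_not hc (pf_not.2 pf_cc), B2.cc_mul_cc, e, B6.sg_one, zero_add]

theorem pfX_left (hc : c ∈ Z1 HF (sg r)) {g : GQ} (hg : g ∈ HF) (h : GQ) :
    pfX r c x0 (g * h) = pfX r c x0 g + sg r g (pfX r c x0 h) := by
  by_cases e : h ∈ HF
  · rw [pfX_mem hc hg, pfX_mem hc e, pfX_mem hc (mul_mem hg e), hc.1.2 g hg h e]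
  · rw [pfX_mem hc hg, pfX_not hc e, pfX_not hc fun k => e ((mul_mem_cancel_left hg).1 k),
      mul_assoc, hc.1.2 g hg _ (pf_mul_cc.2 e), B6.sg_mul, map_add, add_assoc]

theorem pfX_mul (hc : c ∈ Z1 HF (sg r)) (g h : GQ) : pfX r c x0 (g * h) =
    pfX r c x0 g + (sg r g (pfX r c x0 h) + (chi (-1) g).val • sg r g (pfY r c x0 h)) := by
  by_cases e : g ∈ HF
  · rw [pfX_left hc e, mem_HF.1 e, ZMod.val_zero, zero_smul, add_zero]
  · obtain ⟨k, rfl⟩ : ∃ k, g = k * cc := ⟨g * cc, by rw [mul_assoc, B2.cc_mul_cc, mul_one]⟩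
    have hk : k ∈ HF := not_not.1 fun c => e (pf_mul_cc.2 c)
    rw [pf_not.1 e, ZMod.val_one, one_smul, ← map_add, pfY, add_sub_cancel, ← B6.sg_mul,
      mul_assoc k cc cc, B2.cc_mul_cc, mul_one, mul_assoc, pfX_left hc hk, pfX_left hc hk, map_sub]
    abel

theorem pfY_mul (hc : c ∈ Z1 HF (sg r)) (g h : GQ) :
    pfY r c x0 (g * h) = pfY r c x0 g + sg r g (pfY r c x0 h) := by
  have e : ∀ v, sg r cc (sg r cc v) = v := fun v => by rw [← B6.sg_mul, B2.cc_mul_cc, B6.sg_one]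
  have e1 := pfX_mul (x0 := x0) hc (cc * g) h
  rw [chi_mul_g, pf_val, pf_cc, ZMod.val_one, one_smul] at e1
  rw [pfY, ← mul_assoc, e1, pfX_mul hc g h, pfY.eq_def r c x0 g]
  simp only [B6.sg_mul, map_add, map_sub, map_nsmul, e]
  abel

theorem pfX_sm (h : B2.Sm ⊤ r) (hc : c ∈ Z1 HF (sg r)) : B2.Sm ⊤ (pfX r c x0) := by
  have a := (pf_sm hc).conj (H' := ⊤) 1 cc fun _ _ => trivial
  have b := h.conj (H' := ⊤) 1 cc fun _ _ => trivial
  simp only [one_mul] at a b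
  exact ((pf_sm hc).comp₂ a (· + ·)).comp₂ ((lc_chi (-1)).comp₂ b fun t A => t.val • A.mulVec x0)
    (· + ·)

theorem pfY_sm (h : B2.Sm ⊤ r) (hc : c ∈ Z1 HF (sg r)) : B2.Sm ⊤ (pfY r c x0) := by
  have a := (pfX_sm (x0 := x0) h hc).conj (H' := ⊤) cc 1 fun _ _ => trivial
  simp only [mul_one] at a
  exact a.comp₂ (pfX_sm h hc) fun u v => sg r cc (u - pfX r c x0 cc) - v

theorem pf_mem (h : Ur r N) {s' : Finset Plc} (k : ∀ w, Away HF s' w ↔ Away ⊤ (plS N) w)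
    (hc : c ∈ Zu HF (sg r) s') (x0 : W2) :
    (fun g => (pfX r c x0 g, pfY r c x0 g)) ∈ Zu ⊤ (aN r) (plS N) := by
  have z : ∀ w, Away ⊤ (plS N) w → ∀ σ ∈ B2.Ine w, pfX r c x0 σ = 0 := fun w hw σ hσ => by
    have e := pf_ine (h.good w hw).1 hσ
    rw [pfX_mem hc.1 e, hc.2 w ((k w).2 hw) σ ⟨e, hσ⟩]
  refine ⟨⟨⟨(pfX_sm h.sm hc.1).comp₂ (pfY_sm h.sm hc.1) Prod.mk, fun g _ l _ =>
    Prod.ext (pfX_mul hc.1 g l) (pfY_mul hc.1 g l)⟩, fun _ e => absurd trivial e⟩,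
    fun w hw σ hσ => Prod.ext (z w hw σ hσ.2) ?_⟩
  have hw' : Away ⊤ (plS N) (cc • w) := away_plS.2 (away_plS.1 hw :)
  have h1 : cc * σ * cc⁻¹ ∈ B2.Ine (cc • w) := B2.mem_Ine_smul.2 (by simpa [mul_assoc] using hσ.2)
  have h2 := pfX_left (x0 := x0) hc.1 (pf_ine (h.good _ hw').1 h1) cc
  rw [inv_mul_cancel_right, z _ hw' _ h1, (h.good _ hw').2 _ ⟨trivial, h1⟩, zero_add] at h2
  show pfY r c x0 σ = 0
  rw [pfY, h2, z w hw σ hσ.2, sub_self, map_zero, sub_zero]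

end

theorem card_Zu_aN (h : Ur r N) {s' : Finset Plc} (k : ∀ w, Away HF s' w ↔ Away ⊤ (plS N) w) :
    4 * Nat.card (Zu HF (sg r) s') ≤ Nat.card (Zu ⊤ (aN r) (plS N)) := by
  have := B6.finite_Zu3 (H := ⊤) isOpen_univ (dual3_aN h.sm ⊤) (plS N)
  rw [← B6.card_W2, ← Nat.card_prod]
  refine Nat.card_le_card_of_injective (fun z => ⟨_, pf_mem h k z.2.2 z.1⟩) fun z z' e => ?_
  have e1 : ∀ g, pfX r z.2.1 z.1 g = pfX r z'.2.1 z'.1 g := fun g =>
    congrArg Prod.fst (congrFun (congrArg Subtype.val e) g)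
  refine Prod.ext ?_ (Subtype.ext (funext fun g => ?_))
  · rw [← pfX_cc (x0 := z.1) z.2.2.1, e1, pfX_cc z'.2.2.1]
  · by_cases c : g ∈ HF
    · rw [← pfX_mem (x0 := z.1) z.2.2.1 c, e1, pfX_mem z'.2.2.1 c]
    · rw [z.2.2.1.2 g c, z'.2.2.1.2 g c]

end Pool.Agent.SP
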