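import Pool.Agent.Lib.MP_696deb_nt.SP.PF

/-! The inequality for the induced module. -/

set_option autoImplicit false

open scoped Classical
open Finset Function

namespace Pool.Agent.SP

open Pool.Agent.Lib.MP_696deb_nt Pool.Agent.Lib.MP_696deb_nt.Sm
open Pool.Agent.Lib.MP_696deb_nt.B2 (cc jC Plc Op Zu Rs Z1 H0 GoodA Apart Away cupb)
open Pool.Agent.Lib.MP_696deb_nt.B6 (W2 N2 sg dW)

variable {r : GQ →* N2} {N : ℕ}

theorem pf2_fst {g : GQ} (hg : g ∈ HF) (x : W2 × W2) : (aN r g x).1 = sg r g x.1 := by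
  rw [aN_apply, mem_HF.1 hg, ZMod.val_zero, zero_smul, add_zero]

theorem pf2_snd {x : W2 × W2} (h : x.1 = 0) (k : (aN r cc x).1 = 0) : x = 0 := by
  have e : (1 : ZMod 2).val = 1 := rfl
  rw [aN_apply, tbb_cc, e, one_smul, h, map_zero, zero_add] at k
  have k' := congrArg (sg r cc⁻¹) k
  rw [← B6.sg_mul, inv_mul_cancel, B6.sg_one, map_zero] at k'
  exact Prod.ext h k'

theorem pf2_zero {z : GQ → W2 × W2} (h : B2.Coc ⊤ (aN r) z) (k : ∀ g ∈ HF, (z g).1 = 0)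
    (e : (z cc).1 = 0) : z = 0 := by
  have h1 : ∀ g, (z g).1 = 0 := fun g => by
    by_cases c : g ∈ HF
    · exact k g c
    have m : g * cc⁻¹ ∈ HF := by
      have e1 := chi_mul_g (-1) (g * cc⁻¹) cc
      rw [inv_mul_cancel_right, tbb_cc] at e1
      have e2 : ∀ a b : ZMod 2, a ≠ 0 → a = b + 1 → b = 0 := by decide
      exact e2 _ _ c e1
    have e3 := congrArg Prod.fst (h.2 (g * cc⁻¹) trivial cc trivial)
    rwa [inv_mul_cancel_right, Prod.fst_add, pf2_fst m, k _ m, e, map_zero, add_zero] at e3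
  funext g
  have e4 := congrArg Prod.fst (h.2 cc trivial g trivial)
  rw [Prod.fst_add, h1, h1, zero_add] at e4
  exact pf2_snd (h1 g) e4.symm

/-- The comparison map. -/
noncomputable def pf2_psi (r : GQ →* N2) (s' : Finset Plc) (v : Plc → Plc) (g : Plc → GQ) :
    (GQ → W2 × W2) × (Plc → W2 × W2) →+ ((GQ → W2) × (Plc → W2)) × W2 :=
  AddMonoidHom.mk' (fun z => ((B2.rs HF fun k => (z.1 k).1, fun w => if w ∈ s' then
    (aN r (g w) (z.2 (v w)) - z.1 (g w)).1 else 0), (z.1 cc).1)) fun z z' =>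
    Prod.ext (Prod.ext (map_add (B2.rs HF) (fun k => (z.1 k).1) fun k => (z'.1 k).1)
      (funext fun w => by
        simp only [Prod.fst_add, Prod.snd_add, Pi.add_apply, map_add, Prod.fst_sub]
        split_ifs <;> abel)) rfl

theorem card_Rs_aN (h : Ur r N) {s' : Finset Plc} (k : ∀ w, Away HF s' w ↔ Away ⊤ (plS N) w) :
    Nat.card (Rs ⊤ (aN r) (plS N)) ≤ 4 * Nat.card (Rs HF (sg r) s') := by
  have ex : ∀ {K : Subgroup GQ} {t : Finset Plc} {w : Plc}, ¬ Away K t w →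
      ∃ v ∈ t, ∃ g ∈ K, g • v = w := fun h => by simpa [Away] using h
  choose! v hv g hg e using fun w (hw : w ∈ s') =>
    ex (mt (k w).2 fun c => c w hw 1 (one_mem _) (one_smul _ _))
  have hf : Finite (Rs HF (sg r) s') :=
    B2.finite_Sel (B6.finite_Zu3 op_HF (dual3_dW h.sm HF) s') _ _ _
  have ha : B6.Act0 ⊤ (aN r) := (dual3_aN h.sm ⊤).act.toAct0
  have mem : ∀ z ∈ Rs ⊤ (aN r) (plS N), (pf2_psi r s' v g z).1 ∈ Rs HF (sg r) s' := by
    rintro ⟨c, μ⟩ hz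
    obtain ⟨h1, h2, -⟩ := B2.GWj_mem.1 hz
    refine B2.GWj_mem.2 ⟨⟨B2.rs_mem_Z1 ((h1.1.1.mono le_top).map (AddMonoidHom.fst _ _)
      fun d hd x => pf2_fst hd x), fun w hw σ hσ => ?_⟩, fun w hw d hd => ?_, fun w hw => if_neg hw⟩
    · exact (B2.rs_of_mem hσ.1 _).trans
        (congrArg Prod.fst (h1.2 w ((k w).1 hw) σ ⟨trivial, hσ.2⟩))
    · have m1 : d ∈ ⊤ ⊓ B2.Dec (g w • v w) := ⟨trivial, (e w hw).symm ▸ hd.2⟩
      refine (B2.rs_of_mem hd.1 _).trans ?_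
      dsimp only
      rw [B6.GWe_conj ha h1.1.1 (h2 _ (hv w hw)) trivial m1, if_pos hw, B2.cob, B2.cob,
        Prod.fst_sub, pf2_fst hd.1]
  have ker : ∀ z ∈ Rs ⊤ (aN r) (plS N), pf2_psi r s' v g z = 0 → z = 0 := by
    rintro ⟨c, μ⟩ hz h0
    obtain ⟨h1, h2, h3⟩ := B2.GWj_mem.1 hz
    obtain rfl : c = 0 := pf2_zero h1.1.1 (fun d hd => (B2.rs_of_mem hd _).symm.trans
      (congrFun (congrArg (fun x => x.1.1) h0) d)) (congrArg Prod.snd h0)
    refine Prod.ext rfl (funext fun u => ?_)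
    by_cases hu : u ∈ plS N
    swap
    · exact h3 u hu
    have key : ∀ γ, (aN r γ (μ u)).1 = 0 := fun γ => by
      obtain ⟨w, hw, d, hd, e1⟩ := ex (mt (k (γ • u)).1 fun c => c u hu γ trivial rfl)
      have e2 : (γ⁻¹ * (d * g w)) • v w = u := by
        rw [mul_smul, mul_smul, e w hw, e1, inv_smul_smul]
      obtain rfl := apart_plS N _ (hv w hw) _ hu _ trivial e2
      have e3 := sub_eq_zero.1 (h2 _ hu _ ⟨trivial, e2⟩).symm
      have e4 : (aN r (g w) (μ (v w)) - 0).1 = 0 :=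
        (if_pos hw).symm.trans (congrFun (congrArg (fun x => x.1.2) h0) w)
      rw [← e3, ← ha.mul _ trivial _ trivial, mul_inv_cancel_left, ha.mul _ trivial _ trivial,
        pf2_fst hd, ← sub_zero (aN r (g w) _), e4, map_zero]
    exact pf2_snd (by simpa only [ha.one] using key 1) (key cc)
  rw [mul_comm, ← B6.card_W2, ← Nat.card_prod]
  refine Nat.card_le_card_of_injective (fun z => (⟨_, mem z.1 z.2⟩, (pf2_psi r s' v g z.1).2))
    fun z z' c => Subtype.ext (sub_eq_zero.1 (ker _ (sub_mem z.2 z'.2) ?_))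
  rw [map_sub, sub_eq_zero]
  exact Prod.ext (congrArg (fun x => x.1.1) c) (congrArg (fun x => x.2) c :)

theorem inq_aN (h : Ur r N) : Inq (aN r) N := by
  obtain ⟨s', hs, k⟩ := exists_coverF (plS N)
  have e1 := B6.gw_ineq3 cft B2.su B2.cheb op_HF tc_HF (dual3_dW h.sm HF) hs fun w hw =>
    ⟨(h.good w ((k w).1 hw)).1, fun σ hσ => (h.good w ((k w).1 hw)).2 σ ⟨trivial, hσ.2⟩⟩
  rw [index_HF, B6.card_W2] at e1
  exact (Nat.mul_le_mul (card_Rs_aN h k) (card_H0_aN r)).trans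
    (((mul_assoc _ _ _).trans_le (Nat.mul_le_mul_left _ e1)).trans (card_Zu_aN h k))

end Pool.Agent.SP
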