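import Pool.Agent.Lib.MP_696deb_nt.SP.PA0

/-! Cocycles that are trivial at many primes are trivial. -/

set_option autoImplicit false

open scoped Classical
open Finset Function

namespace Pool.Agent.SP

open Pool.Agent.Lib.MP_696deb_nt Pool.Agent.Lib.MP_696deb_nt.Sm
open Pool.Agent.Lib.MP_696deb_nt.B2 (cc jC Plc Op Zu Rs Z1 H0 GoodA Apart Away cupb)
open Pool.Agent.Lib.MP_696deb_nt.B6 (W2 N2 sg dW)

variable {r : GQ →* N2}

theorem exists_ur (h : B2.Sm ⊤ r) : ∃ N, Ur r N := by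
  obtain ⟨U, u1, -, u3⟩ := id h
  obtain ⟨s, hs⟩ := B2.finite_ram u1
  refine ⟨max 2 (s.sup id), h, le_max_left _ _, fun w hw σ hσ => ?_⟩
  have e : w.p ∉ s := fun k => ((le_sup (f := id) k).trans (le_max_right 2 _)).not_gt hw
  rw [← u3 1 trivial σ trivial (by simpa using hs w e hσ), map_one]

theorem exists_zu (h : B2.Sm ⊤ r) {y : GQ → W2} (k : B2.Coc ⊤ (sg r) y) :
    ∃ N, ∀ N', N ≤ N' → y ∈ Zu ⊤ (sg r) (plS N') := by
  obtain ⟨s, hs⟩ := B6.finite_ram0 (B6.act3_sg h ⊤).toAct0 k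
  exact ⟨s.sup id, fun N' hN => ⟨⟨k, fun _ e => absurd trivial e⟩, fun w hw =>
    hs w fun l => ((le_sup (f := id) l).trans hN).not_gt (away_plS.1 hw)⟩⟩

/-- The stabilizer of a vector. -/
def pg_St (r : GQ →* N2) (x : W2) : Subgroup GQ where
  carrier := {g | sg r g x = x}
  one_mem' := B6.sg_one r x
  mul_mem' := fun {g h} hg hh => by
    show sg r (g * h) x = x
    rw [B6.sg_mul, hh, hg]
  inv_mem' := fun {g} hg => by
    show sg r g⁻¹ x = x
    nth_rewrite 1 [← show sg r g x = x from hg]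
    rw [← B6.sg_mul, inv_mul_cancel, B6.sg_one]

theorem pg_op (h : B2.Sm ⊤ r) (x : W2) : Op (pg_St r x) := by
  obtain ⟨U, u1, -, u3⟩ := h
  refine Subgroup.isOpen_mono (fun g hg => ?_) u1
  show sg r g x = x
  rw [B6.sg_apply, ← u3 1 trivial g trivial (by simpa using hg), map_one, Matrix.one_mulVec]

/-- A cocycle all of whose coordinates vanish on the stabilizers is a coboundary. -/
theorem pg_cob {y : GQ → W2} (k : ∀ g h, y (g * h) = y g + sg r g (y h))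
    (m : ∀ x : B6.X3, ∀ g, sg r g x.1 = x.1 → dW x.1 (y g) = 0) :
    ∃ S, ∀ g, y g = B2.cob (sg r) S g := by
  have : Nonempty B6.X3 := ⟨B6.x0⟩
  let o : B6.X3 → B6.X3 := fun x => Classical.epsilon fun z => ∃ g, B6.pm r g z = x
  have o1 : ∀ x, ∃ g, B6.pm r g (o x) = x := fun x =>
    Classical.epsilon_spec (p := fun z => ∃ g, B6.pm r g z = x) ⟨x, 1, by rw [map_one]; rfl⟩
  have o2 : ∀ g x, o (B6.pm r g x) = o x := fun g x =>
    congrArg Classical.epsilon (funext fun z => propext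
      ⟨fun ⟨u, hu⟩ => ⟨g⁻¹ * u, by
        rw [map_mul, Equiv.Perm.mul_apply, hu, map_inv]
        exact (B6.pm r g).symm_apply_apply x⟩,
      fun ⟨u, hu⟩ => ⟨g * u, by rw [map_mul, Equiv.Perm.mul_apply, hu]⟩⟩)
  choose ρ hρ using o1
  have ρ1 : ∀ x, sg r (ρ x) (o x).1 = x.1 := fun x => congrArg Subtype.val (hρ x)
  have key : ∀ g x, dW (B6.pm r g x).1 (y g) =
      dW (B6.pm r g x).1 (y (ρ (B6.pm r g x))) - dW x.1 (y (ρ x)) := fun g x => by
    have e0 : g * ρ x = ρ (B6.pm r g x) * ((ρ (B6.pm r g x))⁻¹ * g * ρ x) := by group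
    have e1 := k g (ρ x)
    have e2 := ρ1 (B6.pm r g x)
    rw [o2] at e2
    have e3 : sg r ((ρ (B6.pm r g x))⁻¹ * g * ρ x) (o x).1 = (o x).1 := by
      rw [B6.sg_mul, B6.sg_mul, ρ1, ← B6.pm_val, ← e2, ← B6.sg_mul, inv_mul_cancel, B6.sg_one]
    rw [e0, k] at e1
    have e4 := congrArg (dW (B6.pm r g x).1) e1
    rw [map_add, map_add] at e4
    nth_rewrite 2 [← e2] at e4
    rw [B6.dW_sg, m _ _ e3, add_zero, B6.pm_val r g x, B6.dW_sg] at e4
    rw [B6.pm_val r g x, e4, add_sub_cancel_right]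
  refine ⟨∑ x : B6.X3, dW x.1 (y (ρ x)) • x.1, fun g => ?_⟩
  rw [B2.cob, ← B6.W2.neg_eq (_ - _), neg_sub, map_sum, ← B6.X3.sum_dW (y g),
    ← Equiv.sum_comp (B6.pm r g), ← Equiv.sum_comp (B6.pm r g) fun x => dW x.1 (y (ρ x)) • x.1,
    ← sum_sub_distrib]
  refine sum_congr rfl fun x _ => ?_
  rw [key, sub_smul, B6.sg_apply, Matrix.mulVec_smul]
  rfl

theorem exists_bigW (h : B2.Sm ⊤ r) (N : ℕ) : ∃ N', N ≤ N' ∧ BigW r N' := by
  choose B b1 b2 using fun x : B6.X3 => exists_big (pg_op h x.1) N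
  refine ⟨univ.sup B, (b1 B6.x0).trans (le_sup (mem_univ _)), fun y hy l => ?_⟩
  refine pg_cob (fun g k => hy.1.1.2 g trivial k trivial) fun x => ?_
  refine (b2 x).mono (le_sup (mem_univ x)) (fun g => dW x.1 (y g))
    ((hy.1.1.1.mono le_top).comp _) (fun g hg k _ => ?_) (fun w hw σ hσ => ?_) fun w hw d hd => ?_
  · beta_reduce
    rw [hy.1.1.2 g trivial k trivial, map_add]
    nth_rewrite 2 [← show sg r g x.1 = x.1 from hg]
    rw [B6.dW_sg]
  · rw [hy.2 w (away_plS.2 hw) σ ⟨trivial, hσ.2⟩, map_zero]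
  · obtain ⟨S, hS⟩ := l w.p w.prime hw
    obtain ⟨u, hu⟩ := B2.plc_conj (pl_p w.prime)
    rw [Gv_prime w.prime] at hS
    have e := B6.GWe_conj (B6.act3_sg h ⊤).toAct0 hy.1.1 (fun d k => hS d k.2)
      (Subgroup.mem_top u) (k := d) ⟨trivial, hu.symm ▸ hd.2⟩
    rw [e, B2.cob, map_sub]
    nth_rewrite 1 [← show sg r d x.1 = x.1 from hd.1]
    rw [B6.dW_sg, sub_self]

end Pool.Agent.SP
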