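import Pool.Agent.Lib.MP_696deb_nt.SP.PA0

/-! The local-global principle for two-cocycles over totally complex fields. -/

set_option autoImplicit false

open scoped Classical
open Finset Function

namespace Pool.Agent.SP

open Pool.Agent.Lib.MP_696deb_nt Pool.Agent.Lib.MP_696deb_nt.Sm
open Pool.Agent.Lib.MP_696deb_nt.B2 (cc jC Plc Op Zu Rs Z1 H0 GoodA Apart Away cupb)
open Pool.Agent.Lib.MP_696deb_nt.B6 (W2 N2 sg dW)

/-- The local-global principle over the rational numbers. -/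
def ShaStmt : Prop := ∀ (r : GQ →* N2) (w : GQ → GQ → W2), B2.Sm ⊤ r → C2R r ⊤ w →
  (∀ v, Pv v → SplR r (Gv v) w) → SplR r ⊤ w

variable {r : GQ →* N2} {H H' : Subgroup GQ} {w : GQ → GQ → W2}

theorem C2R.mono (h : C2R r H w) (k : H' ≤ H) : C2R r H' w :=
  ⟨h.1.mono k, fun g hg l hl m hm => h.2 g (k hg) l (k hl) m (k hm)⟩

theorem SplR.mono (h : SplR r H w) (k : H' ≤ H) : SplR r H' w :=
  h.imp fun _ b => ⟨b.1.mono k, fun g hg l hl => b.2 g (k hg) l (k hl)⟩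

theorem ph_left (h : B2.Sm2 H w) {k : GQ} (hk : k ∈ H) : B2.Sm H fun g => w g k := by
  obtain ⟨U, u1, u2, u3⟩ := h
  exact ⟨U, u1, u2, fun g hg l hl e => u3 g hg l hl k hk k hk e (by simp)⟩

theorem ph_right (h : B2.Sm2 H w) {k : GQ} (hk : k ∈ H) : B2.Sm H (w k) := by
  obtain ⟨U, u1, u2, u3⟩ := h
  exact ⟨U, u1, u2, fun g hg l hl e => u3 k hk k hk g hg l hl (by simp) e⟩

theorem splR_conj (hs : B2.Sm ⊤ r) (h : C2R r ⊤ w) {v : Plc} (k : SplR r (B2.Dec v) w) (g : GQ) :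
    SplR r (B2.Dec (g • v)) w := by
  obtain ⟨b, b1, b2⟩ := k
  refine ⟨fun d => sg r g (b (g⁻¹ * d * g)) + (w d g - w g (g⁻¹ * d * g)),
    ((b1.conj _ _ fun d => B2.mem_Dec_smul.1).comp (sg r g)).comp₂
      (((ph_left h.1 trivial).mono le_top).comp₂
        ((ph_right h.1 trivial).conj _ _ fun _ _ => trivial) (· - ·)) (· + ·), fun d hd l hl => ?_⟩
  have e0 := congrArg (sg r g) (b2 _ (B2.mem_Dec_smul.1 hd) _ (B2.mem_Dec_smul.1 hl))
  have e1 := h.2 d trivial l trivial g trivial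
  have e2 := h.2 d trivial g trivial (g⁻¹ * l * g) trivial
  have e3 := h.2 g trivial (g⁻¹ * d * g) trivial (g⁻¹ * l * g) trivial
  rw [map_sub, map_add, ← B6.sg_mul] at e0
  rw [show g * (g⁻¹ * l * g) = l * g by group] at e2
  rw [show g * (g⁻¹ * d * g) = d * g by group] at e0 e3
  rw [show g⁻¹ * d * g * (g⁻¹ * l * g) = g⁻¹ * (d * l) * g by group] at e0 e3
  beta_reduce
  rw [map_add, map_sub, ← B6.sg_mul]
  linear_combination e0 - e3 + e2 - e1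

theorem splR_all (hs : B2.Sm ⊤ r) (h : C2R r ⊤ w) (k : ∀ v, Pv v → SplR r (Gv v) w) (v : Plc) :
    SplR r (B2.Dec v) w := by
  obtain ⟨g, e⟩ := B2.plc_conj (pl_p v.prime)
  have := splR_conj hs h (Gv_prime v.prime ▸ k v.p (.inr v.prime)) g
  rwa [e] at this

theorem ph_pm (hs : B2.Sm ⊤ r) : B2.Sm ⊤ (B6.pm r) := by
  obtain ⟨U, u1, u2, u3⟩ := hs
  exact ⟨U, u1, u2, fun g _ l _ e => Equiv.ext fun x => Subtype.ext (by
    rw [B6.pm_val, B6.pm_val, B6.sg_apply, B6.sg_apply, u3 g trivial l trivial e])⟩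

theorem ph_coc (h : C2R r H w) {g l m : GQ} (hg : g ∈ H) (hl : l ∈ H) (hm : m ∈ H) {x z : B6.X3}
    (e : B6.pm r g x = z) : dW x.1 (w l m) + dW z.1 (w g (l * m)) =
      dW z.1 (w (g * l) m) + dW z.1 (w g l) := by
  rw [← map_add, ← h.2 g hg l hl m hm, map_add, ← e, B6.pm_val, B6.dW_sg]

/-- The coordinate at `y` splits on the stabilizer of `y`. -/
theorem ph_stab (hs : B2.Sm ⊤ r) (hH : Op H) (hT : B2.TC H) (h : C2R r H w)
    (k : ∀ v : Plc, SplR r (H ⊓ B2.Dec v) w) (y : B6.X3) : ∃ b : GQ → ZMod (2 ^ 1), B2.Sm ⊤ b ∧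
      ∀ g ∈ H, ∀ l ∈ H, B6.pm r g y = y → B6.pm r l y = y →
        dW y.1 (w g l) = b g + b l - b (g * l) := by
  let S : Subgroup GQ := (MulAction.stabilizer (Equiv.Perm B6.X3) y).comap (B6.pm r)
  have hS : Op S := by
    obtain ⟨U, u1, -, u3⟩ := ph_pm hs
    refine Subgroup.isOpen_mono (fun g hg => ?_) u1
    show B6.pm r g y = y
    rw [← u3 1 trivial g trivial (by simpa using hg), map_one]
    rfl
  have c : B2.C2 1 (H ⊓ S) fun g l => dW y.1 (w g l) :=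
    ⟨(h.1.mono inf_le_left).comp _, fun g hg l hl m hm => by
      rw [B2.cy_one_eq, one_mul]
      exact ph_coc h hg.1 hl.1 hm.1 hg.2⟩
  obtain ⟨b, b1, b2⟩ := cft.abhn (hH.inf hS) c (.inl fun g e m => hT g e m.1) fun v => by
    obtain ⟨β, β1, β2⟩ := k v
    refine (cft.zero_iff (hH.inf hS) (c.mono inf_le_left)).2 ⟨_,
      (β1.mono (inf_le_inf_right _ inf_le_left)).comp (dW y.1), fun g hg l hl => ?_⟩
    beta_reduce
    rw [B2.cy_one_eq, one_mul, β2 g ⟨hg.1.1, hg.2⟩ l ⟨hl.1.1, hl.2⟩, map_sub, map_add,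
      ← B6.dW_sg r g y.1 (β l), ← B6.pm_val, show B6.pm r g y = y from hg.1.2]
  obtain ⟨b', c1, c2⟩ := b1.extend
  refine ⟨b', c1, fun g hg l hl e e' => ?_⟩
  have g1 : g ∈ H ⊓ S := ⟨hg, e⟩
  have l1 : l ∈ H ⊓ S := ⟨hl, e'⟩
  rw [c2 g g1, c2 l l1, c2 _ (mul_mem g1 l1), ← one_mul (b l), ← B2.cy_one_eq g]
  exact b2 g g1 l l1

theorem ph_rep (r : GQ →* N2) (H : Subgroup GQ) : ∃ (o : B6.X3 → B6.X3) (ρ : B6.X3 → GQ),
    (∀ x, ρ x ∈ H ∧ B6.pm r (ρ x) (o x) = x) ∧ ∀ g ∈ H, ∀ x, o (B6.pm r g x) = o x := by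
  have : Nonempty B6.X3 := ⟨B6.x0⟩
  have h := fun x => Classical.epsilon_spec (p := fun y => ∃ g ∈ H, B6.pm r g y = x)
    ⟨x, 1, one_mem _, by rw [map_one]; rfl⟩
  choose ρ h1 h2 using h
  refine ⟨_, ρ, fun x => ⟨h1 x, h2 x⟩, fun g hg x => congrArg _ (funext fun y => propext
    ⟨fun ⟨l, hl, e⟩ => ⟨g⁻¹ * l, mul_mem (inv_mem hg) hl, ?_⟩,
      fun ⟨l, hl, e⟩ => ⟨g * l, mul_mem hg hl, ?_⟩⟩)⟩
  · rw [map_mul, map_inv, Equiv.Perm.mul_apply, e]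
    exact Equiv.symm_apply_apply _ _
  · rw [map_mul, Equiv.Perm.mul_apply, e]

theorem sha_tc (hs : B2.Sm ⊤ r) (hH : Op H) (hT : B2.TC H) (h : C2R r H w)
    (k : ∀ v : Plc, SplR r (H ⊓ B2.Dec v) w) : SplR r H w := by
  choose b b1 b2 using ph_stab hs hH hT h k
  obtain ⟨o, ρ, h1, h2⟩ := ph_rep r H
  let F : B6.X3 → B6.X3 → GQ → ZMod (2 ^ 1) := fun x t g => b (o x) ((ρ t)⁻¹ * g * ρ x) +
    (dW t.1 (w g (ρ x)) - dW t.1 (w (ρ t) ((ρ t)⁻¹ * g * ρ x)))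
  have m : ∀ x t, ∀ g ∈ H, (ρ t)⁻¹ * g * ρ x ∈ H := fun x t g hg =>
    mul_mem (mul_mem (inv_mem (h1 t).1) hg) (h1 x).1
  have sF : ∀ x t, B2.Sm H (F x t) := fun x t =>
    ((b1 _).conj _ _ fun _ _ => trivial).comp₂ (((ph_left h.1 (h1 x).1).comp _).comp₂
      (((ph_right h.1 (h1 t).1).conj _ _ (m x t)).comp _) (· - ·)) (· + ·)
  have fix : ∀ g ∈ H, ∀ x, B6.pm r ((ρ (B6.pm r g x))⁻¹ * g * ρ x) (o x) = o x := fun g hg x => by
    rw [map_mul, map_mul, map_inv, Equiv.Perm.mul_apply, Equiv.Perm.mul_apply, (h1 x).2,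
      Equiv.Perm.inv_eq_iff_eq, ← h2 g hg x, (h1 _).2]
  have key : ∀ g ∈ H, ∀ l ∈ H, ∀ x, dW (B6.pm r (g * l) x).1 (w g l) =
      F (B6.pm r l x) (B6.pm r (g * l) x) g + F x (B6.pm r l x) l -
        F x (B6.pm r (g * l) x) (g * l) := fun g hg l hl x => by
    have a1 := fix g hg (B6.pm r l x)
    have a2 := fix l hl x
    have a3 := (h1 (B6.pm r (g * l) x)).2
    have a4 : B6.pm r g (B6.pm r l x) = B6.pm r (g * l) x := by rw [map_mul]; rfl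
    rw [h2 _ (mul_mem hg hl)] at a3
    rw [h2 l hl, a4] at a1
    simp only [F, h2 l hl]
    generalize B6.pm r (g * l) x = z at *
    generalize B6.pm r l x = y at *
    have e0 := b2 (o x) _ (m y z g hg) _ (m x y l hl) a1 a2
    have e1 := ph_coc h hg hl (h1 x).1 a4
    have e2 := ph_coc h hg (h1 y).1 (m x y l hl) a4
    have e3 := ph_coc h (h1 z).1 (m y z g hg) (m x y l hl) a3
    rw [show ρ y * ((ρ y)⁻¹ * l * ρ x) = l * ρ x by group] at e2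
    rw [show ρ z * ((ρ z)⁻¹ * g * ρ y) = g * ρ y by group] at e3
    rw [show (ρ z)⁻¹ * g * ρ y * ((ρ y)⁻¹ * l * ρ x) = (ρ z)⁻¹ * (g * l) * ρ x by group] at e0 e3
    linear_combination e0 - e3 + e2 - e1
  refine ⟨fun g => ∑ x, F x (B6.pm r g x) g • (B6.pm r g x).1,
    (B2.Sm.pi fun x => B2.Sm.pi (sF x)).comp₂ ((ph_pm hs).mono le_top)
      fun f p => ∑ x, f x (p x) • (p x).1, fun g hg l hl => ?_⟩
  beta_reduce
  rw [← B6.X3.sum_dW (w g l), ← Equiv.sum_comp (B6.pm r (g * l)), map_sum,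
    ← Equiv.sum_comp (B6.pm r l) fun x => F x (B6.pm r g x) g • (B6.pm r g x).1,
    ← sum_add_distrib, ← sum_sub_distrib]
  refine sum_congr rfl fun x _ => ?_
  have a4 : B6.pm r g (B6.pm r l x) = B6.pm r (g * l) x := by rw [map_mul]; rfl
  rw [key g hg l hl, B6.sg_apply, Matrix.mulVec_smul, ← B6.sg_apply, ← B6.pm_val, a4, sub_smul,
    add_smul]

end Pool.Agent.SP
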