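import Pool.Agent.Lib.MP_696deb_nt.SP.T0

/-! The size of the local condition at a prime. -/

set_option autoImplicit false

open scoped Classical NNReal
open Finset WeierstrassCurve WeierstrassCurve.Affine

namespace Pool.Agent.SP

open Pool.Agent.Lib.MP_696deb_nt Pool.Agent.Lib.MP_696deb_nt.Sm
open Pool.Agent.Lib.MP_696deb_nt.B2 (jC cc)

theorem td_four {G : Type} [AddCommGroup G] (hs : ∀ P : G, ∃ Q, 2 • Q = P)
    (h4 : {P : G | 2 ^ 1 • P = 0}.ncard = 4 ^ 1) (T : AddSubgroup G) (hT : Finite T) :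
    ∃ t : Fin 4 → G, (∀ i, 2 • t i ∈ T) ∧ ∀ i j, t i - t j ∈ T → i = j := by
  let f : G →+ G := nsmulAddMonoidHom 2
  have h1 : f.ker.relIndex (T.comap f) = Nat.card T := by
    rw [AddSubgroup.relIndex_ker, AddSubgroup.map_comap_eq_self_of_surjective (f := f) hs]
  have h2 := AddSubgroup.relIndex_mul_relIndex ⊥ f.ker (T.comap f) bot_le fun P (h : f P = 0) =>
    show f P ∈ T from h ▸ zero_mem T
  have h3 := AddSubgroup.relIndex_mul_relIndex ⊥ T (T.comap f) bot_le fun P h => nsmul_mem h 2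
  rw [← h2, h1, AddSubgroup.relIndex_bot_left, AddSubgroup.relIndex_bot_left, mul_comm,
    show Nat.card f.ker = 4 from h4] at h3
  have h5 : Nat.card (T.comap f ⧸ T.addSubgroupOf (T.comap f)) = 4 :=
    Nat.eq_of_mul_eq_mul_right Nat.card_pos h3
  have : Finite (T.comap f ⧸ T.addSubgroupOf (T.comap f)) := Nat.finite_of_card_ne_zero (by omega)
  let e := (Finite.equivFinOfCardEq h5).symm
  refine ⟨fun i => (e i).out, fun i => (e i).out.2, fun i j h => e.injective ?_⟩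
  rw [← (e i).out_eq, ← (e j).out_eq]
  exact QuotientAddGroup.eq_iff_sub_mem.2 h

section
variable (V : Valuation Qb ℝ≥0)

theorem td_horner {x r a : Qb} {n : ℕ} (hx : 1 < V x) (hr : V r = V x ^ n) (ha : V a ≤ 1) :
    V (r * x + a) = V x ^ (n + 1) := by
  have h : V (r * x) = V x ^ (n + 1) := by rw [map_mul, hr, pow_succ]
  rw [V.map_add_eq_of_lt_left, h]
  exact h ▸ ha.trans_lt (one_lt_pow₀ hx n.succ_ne_zero)

theorem td_sq {y : Qb} (h : y ^ 2 ∈ V.integer) : y ∈ V.integer := by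
  rwa [Valuation.mem_integer_iff, map_pow, pow_le_one_iff_of_nonneg zero_le two_ne_zero] at h

theorem td_key {x1 x2 x3 y l a b : Qb} (e1 : x1 + x2 = l ^ 2 + -(a + x3))
    (e2 : x1 * x2 = b + x3 * (a + x3) + -(2 * y) * l + x3 * l ^ 2) (h1 : 1 < V x1) (h2 : 1 < V x2)
    (h3 : x3 ∈ V.integer) (hy : y ∈ V.integer) (ha : a ∈ V.integer) (hb : b ∈ V.integer) :
    False := by
  have m1 : V l ≤ max 1 (V l) := le_max_right _ _
  have m2 : 1 ≤ max 1 (V l) := le_max_left _ _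
  have a1 : V (x1 * x2) ≤ max 1 (V l) ^ 2 := by
    rw [e2]
    refine V.map_add_le (V.map_add_le ((show V _ ≤ 1 from add_mem hb (mul_mem h3 (add_mem ha h3))).trans
      (one_le_pow₀ m2)) ?_) ?_
    · rw [map_mul, sq]
      exact mul_le_mul' ((show V _ ≤ 1 from neg_mem (mul_mem (ofNat_mem _ 2) hy)).trans m2) m1
    · rw [map_mul, map_pow]
      exact (mul_le_of_le_one_left' h3).trans (pow_le_pow_left' m1 2)
  have a2 : max 1 (V l) ^ 2 ≤ max (V x1) (V x2) := by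
    rcases le_or_gt (V l) 1 with k | k
    · rw [max_eq_left k, one_pow]
      exact h1.le.trans (le_max_left _ _)
    · refine le_trans ?_ (V.map_add x1 x2)
      rw [max_eq_right k.le, e1, V.map_add_eq_of_lt_left, map_pow]
      rw [map_pow]
      exact (show V _ ≤ 1 from neg_mem (add_mem ha h3)).trans_lt (one_lt_pow₀ k two_ne_zero)
  rw [map_mul] at a1
  rcases le_max_iff.1 (a1.trans a2) with k | k
  · exact (lt_mul_of_one_lt_right (one_pos.trans h1) h2).not_ge k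
  · exact (lt_mul_of_one_lt_left (one_pos.trans h2) h1).not_ge k

end

theorem td_approx {v : ℕ} (hv : v.Prime) {x : Qb} (hx : B2.Fx (Gv v) x) (h : nrm v x ≤ 1) (k : ℕ) :
    ∃ n : ℤ, nrm v (x - n) ≤ nrm v ((v : Qb) ^ k) := by
  have v0 : (v : Qb) ^ k ≠ 0 := pow_ne_zero _ (Nat.cast_ne_zero.2 hv.ne_zero)
  have v1 : nrm v ((v : Qb) ^ k) ≤ 1 := by simpa using nrm_int_le (p := v) (v ^ k)
  obtain ⟨r, hr⟩ := B2.approx_rat (w := pl v) (Gv_prime hv ▸ hx)
    (pos_iff_ne_zero.2 ((nrm v).ne_zero_iff.2 v0))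
  have r1 : nrm v r ≤ 1 := by
    rw [show (r : Qb) = x - (x - r) by ring]
    exact (nrm v).map_sub_le h (hr.le.trans v1)
  have r2 : (r : Qb) * (r.den : ℤ) = r.num := by exact_mod_cast r.mul_den_eq_num
  have r3 : ¬ (v : ℤ) ∣ r.den := fun e => by
    have a := (nrm_int_lt hv).1 (r2 ▸ map_mul (nrm v) _ _ ▸
      (mul_le_of_le_one_left' r1).trans_lt ((nrm_int_lt hv).2 e))
    exact (Nat.prime_iff_prime_int.1 hv).not_isUnit (r.isCoprime_num_den.isUnit_of_dvd' a e)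
  obtain ⟨s, t, e⟩ := ((Nat.prime_iff_prime_int.1 hv).coprime_iff_not_dvd.2 r3).pow_left (m := k)
  have e' : (s : Qb) * v ^ k + t * (r.den : ℤ) = 1 := by exact_mod_cast e
  refine ⟨r.num * t, ?_⟩
  rw [show x - ((r.num * t : ℤ) : Qb) = x - r + r * s * v ^ k by
    rw [Int.cast_mul, ← r2]; linear_combination (-r : Qb) * e']
  refine (nrm v).map_add_le hr.le ?_
  rw [map_mul, map_mul]
  exact mul_le_of_le_one_left' (mul_le_one' r1 (nrm_int_le s))

namespace Cu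

variable {C : Cu} {v : ℕ} {D : ℤ} {P Q : C.A}

/-- The first coordinate. -/
noncomputable def xc (C : Cu) : C.A → Qb
  | .zero => 0
  | .some x _ _ => x

theorem td_ns {x y : Qb} : C.NS x y ↔ y ^ 2 = x ^ 3 + C.a * x ^ 2 + C.b * x + C.c := by
  rw [C.root_iff]
  exact (C.split 0).nonsingular_iff x y

theorem td_neg (P : C.A) : C.xc (-P) = C.xc P := by cases P <;> rfl

theorem td_xc {g : GQ} (h : C.tw D g P = P) : g (C.xc P) = C.xc P := by
  have a : C.xc (C.act g P) = g (C.xc P) := by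
    rcases P with _ | ⟨x, y, hP⟩
    · rw [← Point.zero_def, map_zero]
      exact (map_zero g).symm
    · obtain ⟨_, e⟩ := C.act_some g hP
      rw [e]
      rfl
  rw [← a]
  conv_rhs => rw [← h, tw]
  rcases F2_cases (chi D g) with k | k
  · rw [k, sn_zero, one_zsmul]
  · rw [k, sn_one, neg_one_zsmul, td_neg]

theorem td_y {x y : Qb} (h : C.NS x y) (hx : 1 < nrm v x) : nrm v y ^ 2 = nrm v x ^ 3 := by
  rw [← map_pow, td_ns.1 h, show x ^ 3 + C.a * x ^ 2 + C.b * x + C.c =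
    ((1 * x + C.a) * x + C.b) * x + C.c by ring]
  exact td_horner _ hx (td_horner _ hx (td_horner _ hx (n := 0) (by simp) (nrm_int_le _))
    (nrm_int_le _)) (nrm_int_le _)

theorem td_dbl (hx : 1 < nrm v (C.xc P)) :
    nrm v (C.xc (2 • P)) * nrm v 4 = nrm v (C.xc P) := by
  rcases P with _ | ⟨x, y, h⟩
  · exact absurd hx (by simp [xc])
  change 1 < nrm v x at hx
  have a := td_y h hx
  have x0 := pow_ne_zero 3 (one_pos.trans hx).ne'
  have y0 : y ≠ 0 := fun e => x0 (by rw [← a, e, map_zero, zero_pow two_ne_zero])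
  have hy : y ≠ (C.W Qb).toAffine.negY x y := by
    rw [(C.split 0).negY_eq]
    exact fun k => y0 (by linear_combination k / 2)
  have b : C.xc (2 • Point.some x y h) * 4 * y ^ 2 = (((1 * x + 0) * x + (-2 * C.b : ℤ)) * x +
      (-8 * C.c : ℤ)) * x + (C.b ^ 2 - 4 * C.a * C.c : ℤ) := by
    rw [two_nsmul, Point.add_self_of_Y_ne hy, xc, slope_of_Y_ne rfl hy, (C.split 0).negY_eq,
      sub_neg_eq_add, ← two_mul y]
    simp only [addX, toAffine, W]
    push_cast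
    field_simp
    linear_combination (-16 * (C.a + 2 * x)) * td_ns.1 h
  have c := congrArg (nrm v) b
  rw [map_mul, map_mul, map_pow, a, td_horner _ hx (td_horner _ hx (td_horner _ hx (td_horner _ hx
    (n := 0) (by simp) (by simp)) (nrm_int_le _)) (nrm_int_le _)) (nrm_int_le _)] at c
  exact mul_right_cancel₀ x0 (c.trans (pow_succ' _ 3))

theorem td_pow (hx : 1 < nrm v (C.xc P)) (n : ℕ) : 1 < nrm v (C.xc (2 ^ n • P)) ∧
    nrm v (C.xc (2 ^ n • P)) * nrm v 4 ^ n = nrm v (C.xc P) := by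
  induction n with
  | zero => simpa using hx
  | succ n ih =>
    have a := td_dbl ih.1
    rw [pow_succ, mul_nsmul]
    exact ⟨(ih.1.trans_eq a.symm).trans_le (mul_le_of_le_one_right' loc_four), by
      rw [pow_succ', ← mul_assoc, a, ih.2]⟩

theorem td_line {x1 y1 x2 y2 : Qb} (h1 : C.NS x1 y1) (h2 : C.NS x2 y2) (h : x1 ≠ x2) :
    ∃ l y, l * (x1 - x2) = y1 - y2 ∧ C.NS (C.xc (.some x1 y1 h1 + .some x2 y2 h2)) y ∧
      C.xc (.some x1 y1 h1 + .some x2 y2 h2) = l ^ 2 - C.a - x1 - x2 ∧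
      y = l * (l ^ 2 - C.a - x1 - x2 - x1) + y1 := by
  refine ⟨(C.W Qb).toAffine.slope x1 x2 y1 y2, _, by
    rw [slope_of_X_ne h, div_mul_cancel₀ _ (sub_ne_zero.2 h)], ?_, ?_, rfl⟩
  · rw [Point.add_of_X_ne h]
    convert nonsingular_negAdd h1 h2 fun k => h k.1 using 1
    · rfl
    · simp [negAddY, addX, W]
  · rw [Point.add_of_X_ne h]
    simp [xc, addX, W]

/-- The kernel of reduction. -/
noncomputable def Kr (C : Cu) (v : ℕ) : AddSubgroup C.A where
  carrier := {P | P = 0 ∨ 1 < nrm v (C.xc P)}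
  zero_mem' := .inl rfl
  neg_mem' h := h.imp neg_eq_zero.2 fun k => by rwa [td_neg]
  add_mem' := by
    rintro P Q (rfl | hP) (rfl | hQ)
    · exact .inl (add_zero 0)
    · exact .inr (by rwa [zero_add])
    · exact .inr (by rwa [add_zero])
    rcases P with _ | ⟨x1, y1, h1⟩
    · exact absurd hP (by simp [xc])
    rcases Q with _ | ⟨x2, y2, h2⟩
    · exact absurd hQ (by simp [xc])
    by_cases h : x1 = x2
    · rcases Point.X_eq_iff.1 h with e | e
      · rw [← e, ← two_nsmul]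
        exact .inr (td_pow hP 1).1
      · exact .inl (add_eq_zero_iff_eq_neg.2 e)
    obtain ⟨l, y, e1, e2, e3, e4⟩ := td_line h1 h2 h
    refine .inr (not_le.1 fun k => ?_)
    rw [← e3] at e4
    generalize C.xc (.some x1 y1 h1 + .some x2 y2 h2) = x3 at e2 e3 e4 k
    have ha : (C.a : Qb) ∈ (nrm v).integer := intCast_mem _ _
    have hb : (C.b : Qb) ∈ (nrm v).integer := intCast_mem _ _
    have k' : x3 ∈ (nrm v).integer := k
    refine td_key (nrm v) (x1 := x1) (x2 := x2) (l := l) (by linear_combination e3) ?_ hP hQ k'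
      (td_sq _ (y := y) ?_) ha hb
    · refine mul_left_cancel₀ (sub_ne_zero.2 h) ?_
      rw [e4, e3]
      linear_combination td_ns.1 h1 - td_ns.1 h2 + (y1 + y2 - l * (x1 - x2)) * e1
    · rw [td_ns.1 e2]
      exact add_mem (add_mem (add_mem (pow_mem k' 3) (mul_mem ha (pow_mem k' 2))) (mul_mem hb k'))
        (intCast_mem _ _)

theorem td_mem : P ∈ C.Kr v ↔ P = 0 ∨ 1 < nrm v (C.xc P) := Iff.rfl

theorem td_int (h : P ∉ C.Kr v) : C.xc P ∈ (nrm v).integer := not_lt.1 fun k => h (.inr k)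

theorem td_sep (hP : P ∉ C.Kr v) (hQ : Q ∉ C.Kr v)
    (h : nrm v (C.xc P - C.xc Q) < nrm v (4 * C.disc)) : P + Q ∈ C.Kr v ∨ P - Q ∈ C.Kr v := by
  have p1 := td_int hP
  have p2 := td_int hQ
  rcases P with _ | ⟨x1, y1, h1⟩
  · exact absurd (.inl rfl) hP
  rcases Q with _ | ⟨x2, y2, h2⟩
  · exact absurd (.inl rfl) hQ
  by_cases e : x1 = x2
  · exact (Point.X_eq_iff.1 e).symm.imp (fun k => .inl (add_eq_zero_iff_eq_neg.2 k))
      fun k => .inl (sub_eq_zero.2 k)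
  by_contra! k
  have p3 := td_int k.1
  have p4 := td_int k.2
  rw [sub_eq_add_neg, Point.neg_some] at p4
  obtain ⟨l, -, e1, -, e2, -⟩ := td_line h1 h2 e
  obtain ⟨m, -, e3, -, e4, -⟩ := td_line h1 ((nonsingular_neg ..).2 h2) e
  rw [(C.split 0).negY_eq] at e3
  rw [e2] at p3
  rw [e4] at p4
  change x1 ∈ _ at p1
  change x2 ∈ _ at p2
  change nrm v (x1 - x2) < _ at h
  have ha : (C.a : Qb) ∈ (nrm v).integer := intCast_mem _ _
  have hb : (C.b : Qb) ∈ (nrm v).integer := intCast_mem _ _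
  have hc : (C.c : Qb) ∈ (nrm v).integer := intCast_mem _ _
  have q : ∀ l : Qb, l ^ 2 - C.a - x1 - x2 ∈ (nrm v).integer → l ∈ (nrm v).integer := fun l k =>
    td_sq _ (by simpa using add_mem (add_mem (add_mem k p2) p1) ha)
  have a1 : 3 * x1 ^ 2 + 2 * C.a * x1 + C.b = (x1 - x2) * (l * m + (2 * x1 + x2 + C.a)) :=
    mul_left_cancel₀ (sub_ne_zero.2 e) (by
      linear_combination td_ns.1 h2 - td_ns.1 h1 - (m * (x1 - x2)) * e1 - (y1 - y2) * e3)
  have a2 : 4 * (x1 ^ 3 + C.a * x1 ^ 2 + C.b * x1 + C.c) = ((l + m) * (x1 - x2)) ^ 2 := by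
    rw [add_mul, e1, e3, ← td_ns.1 h1]; ring
  have a3 : (4 * C.disc : Qb) = (x1 - x2) * ((6 * (3 * C.b - C.a ^ 2) * x1 + 15 * C.a * C.b -
      4 * C.a ^ 3 - 27 * C.c) * ((l + m) ^ 2 * (x1 - x2)) - 4 * (2 * (3 * C.b - C.a ^ 2) * x1 ^ 2 +
      (7 * C.a * C.b - 2 * C.a ^ 3 - 9 * C.c) * x1 + 4 * C.b ^ 2 - C.a ^ 2 * C.b - 3 * C.a * C.c) *
      (l * m + (2 * x1 + x2 + C.a))) := by
    simp only [disc, dsc]
    push_cast
    linear_combination (6 * (3 * C.b - C.a ^ 2) * x1 + 15 * C.a * C.b - 4 * C.a ^ 3 - 27 * C.c) * a2 -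
      4 * (2 * (3 * C.b - C.a ^ 2) * x1 ^ 2 + (7 * C.a * C.b - 2 * C.a ^ 3 - 9 * C.c) * x1 +
        4 * C.b ^ 2 - C.a ^ 2 * C.b - 3 * C.a * C.c) * a1
  rw [a3, map_mul] at h
  refine h.not_ge (mul_le_of_le_one_right' (((nrm v).mem_integer_iff _).1 ?_))
  have hl := q l p3
  have hm := q m p4
  generalize (C.a : Qb) = a, (C.b : Qb) = b, (C.c : Qb) = c, (nrm v).integer = O at *
  clear * - ha hb hc hl hm p1 p2
  aesop

/-- The points that are fixed by the decomposition group. -/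
noncomputable def Fa (C : Cu) (v : ℕ) (D : ℤ) : AddSubgroup C.A where
  carrier := {P | ∀ g ∈ Gv v, C.tw D g P = P}
  zero_mem' g _ := C.tw_zero D g
  add_mem' h k g hg := by rw [tw_add, h g hg, k g hg]
  neg_mem' h g hg := by rw [← neg_one_zsmul, tw_zsmul, h g hg]

theorem td_exp (C : Cu) (hv : v.Prime) (D : ℤ) :
    ∃ N : ℕ, 0 < N ∧ ∀ P ∈ C.Fa v D, N • P ∈ C.Kr v := by
  have v1 : nrm v (v : Qb) < 1 := by simpa using (nrm_int_lt hv (n := v)).2 dvd_rfl
  obtain ⟨k, hk⟩ := NNReal.exists_pow_lt_of_lt_one (pos_iff_ne_zero.2 ((nrm v).ne_zero_iff.2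
    (mul_ne_zero (by norm_num : (4 : Qb) ≠ 0) (Int.cast_ne_zero.2 C.disc_ne : (C.disc : Qb) ≠ 0)))) v1
  rw [← map_pow] at hk
  refine ⟨(2 * (v ^ k + 1)).factorial, Nat.factorial_pos _, fun P hP => ?_⟩
  suffices h : ∃ t : ℕ, 0 < t ∧ t ≤ 2 * (v ^ k + 1) ∧ t • P ∈ C.Kr v by
    obtain ⟨t, h1, h2, h3⟩ := h
    obtain ⟨u, e⟩ := Nat.dvd_factorial h1 h2
    rw [e, mul_nsmul]
    exact nsmul_mem h3 u
  by_contra! c
  have c1 : ∀ i : Fin (v ^ k + 1), (i.1 + 1) • P ∉ C.Kr v := fun i =>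
    c _ i.1.succ_pos (by have := i.2; omega)
  choose n hn using fun i : Fin (v ^ k + 1) => td_approx hv
    (fun g hg => td_xc (nsmul_mem hP (i.1 + 1) g hg)) (td_int (c1 i)) k
  have : NeZero (v ^ k) := ⟨pow_ne_zero _ hv.ne_zero⟩
  obtain ⟨i, j, h1, h2⟩ : ∃ i j, i < j ∧ (n i : ZMod (v ^ k)) = n j := by
    by_contra! a
    obtain ⟨i, j, h1, h2⟩ := Fintype.exists_ne_map_eq_of_card_lt
      (fun i => (n i : ZMod (v ^ k))) (by simp)
    exact h1.lt_or_gt.elim (fun h => a i j h h2) fun h => a j i h h2.symm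
  obtain ⟨u, e⟩ := (ZMod.intCast_eq_intCast_iff_dvd_sub ..).1 h2
  have e' : (n j : Qb) - n i = v ^ k * u := by exact_mod_cast e
  have i2 := j.2
  have h3 : i.1 < j.1 := h1
  rcases td_sep (c1 j) (c1 i) (lt_of_le_of_lt (by
    rw [show C.xc ((j.1 + 1) • P) - C.xc ((i.1 + 1) • P) = C.xc ((j.1 + 1) • P) - n j -
      (C.xc ((i.1 + 1) • P) - n i) + v ^ k * u by rw [← e']; ring]
    refine (nrm v).map_add_le ((nrm v).map_sub_le (hn j) (hn i)) ?_
    rw [map_mul]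
    exact mul_le_of_le_one_right' (nrm_int_le u)) hk) with h | h
  · exact c (j.1 + 1 + (i.1 + 1)) (by omega) (by omega) (by rwa [add_nsmul])
  · refine c (j.1 - i.1) (by omega) (by omega) ?_
    rwa [show j.1 + 1 = j.1 - i.1 + (i.1 + 1) by omega, add_nsmul, add_sub_cancel_right] at h

theorem td_tors {N n : ℕ} (h0 : 0 < N) (h : N • P ∈ C.Kr v) (k : 2 ^ n • P = 0) :
    2 ^ N • P = 0 := by
  have a : N • P = 0 := h.resolve_right fun e => by
    have := (td_pow e n).1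
    rw [smul_comm, k, smul_zero] at this
    exact absurd this (by simp [xc])
  obtain ⟨i, -, e⟩ := (Nat.dvd_prime_pow Nat.prime_two).1 (addOrderOf_dvd_iff_nsmul_eq_zero.2 k)
  have b := Nat.le_of_dvd h0 (addOrderOf_dvd_iff_nsmul_eq_zero.2 a)
  rw [e] at b
  exact addOrderOf_dvd_iff_nsmul_eq_zero.1 (e ▸ pow_dvd_pow 2 (i.lt_two_pow_self.le.trans b))

theorem td_pt (C : Cu) (hD : D ≠ 0) : ∃ P ∈ C.Fa 2 D, 1 < nrm 2 (C.xc P) := by
  obtain ⟨u, hu⟩ : ∃ u : ℤ, u = 1 + 8 * (2 * D * (C.a + 16 * D * (C.b + 16 * D * C.c))) := ⟨_, rfl⟩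
  have u0 : u ≠ 0 := by omega
  have D0 : (D : Qb) ≠ 0 := Int.cast_ne_zero.2 hD
  have r := rt_mul_self ((u * D : ℤ) : Qb)
  have h : C.NS (16 * D : Qb)⁻¹ (4 / (16 * D) ^ 2 * rt ((u * D : ℤ) : Qb)) := by
    rw [td_ns, mul_pow, sq (rt _), r, hu]
    push_cast
    field_simp
    ring
  refine ⟨.some _ _ h, fun g hg => ?_, ?_⟩
  · obtain ⟨_, e⟩ := C.act_some g h
    have a := chB_spec r (map_intCast g _)
    rw [← chi, chi_mul u0 hD, chi_Gv_two (by omega) g hg, zero_add] at a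
    rw [tw, e]
    rcases F2_cases (chi D g) with k | k <;> rw [k] at a ⊢
    · rw [sn_zero, one_zsmul]
      exact ell_ext (by simp [map_ofNat]) (by rw [map_mul, a]; simp [sn_zero, map_ofNat])
    · rw [sn_one, neg_one_zsmul, Point.neg_some]
      exact ell_ext (by simp [map_ofNat]) (by
        rw [(C.split 0).negY_eq, map_mul, a]; simp [sn_one, map_ofNat])
  · have a := (nrm_int_lt Nat.prime_two (n := 16 * D)).2 ⟨8 * D, by push_cast; ring⟩
    rw [xc, map_inv₀, one_lt_inv₀ (pos_iff_ne_zero.2 ((nrm 2).ne_zero_iff.2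
      (mul_ne_zero (by norm_num) D0)))]
    simpa using a

theorem td_two (C : Cu) (hD : D ≠ 0) :
    ∃ q, 2 • q ∈ C.Fa 2 D ∧ ∀ t (n : ℕ), 2 ^ n • t = 0 → q - t ∉ C.Fa 2 D := by
  obtain ⟨N, N0, hN⟩ := C.td_exp Nat.prime_two D
  have v4 : nrm 2 4 < 1 := by simpa using (nrm_int_lt Nat.prime_two (n := 4)).2 (by decide)
  have v0 : 0 < nrm 2 4 := pos_iff_ne_zero.2 ((nrm 2).ne_zero_iff.2 (by norm_num))
  by_contra! c
  have a1 : ∀ P ∈ C.Fa 2 D, ∃ Q ∈ C.Fa 2 D, 2 ^ N • P = 2 • 2 ^ N • Q := fun P hP => by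
    obtain ⟨q, rfl⟩ := C.exists_half P
    obtain ⟨t, n, h1, h2⟩ := c q hP
    have h3 : 2 • t ∈ C.Fa 2 D := by simpa [nsmul_sub] using sub_mem hP (nsmul_mem h2 2)
    have h4 := td_tors (n := n) N0 (hN _ h3) (by rw [smul_comm, h1, smul_zero])
    exact ⟨_, h2, by rw [smul_comm 2, nsmul_sub, nsmul_sub, h4, sub_zero]⟩
  have a2 : ∀ j : ℕ, ∀ P ∈ C.Fa 2 D, ∃ Q ∈ C.Fa 2 D, 2 ^ N • P = 2 ^ j • 2 ^ N • Q := fun j P hP => by
    induction j with
    | zero => exact ⟨P, hP, (one_nsmul _).symm⟩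
    | succ j ih =>
      obtain ⟨Q, h1, h2⟩ := ih
      obtain ⟨R, h3, h4⟩ := a1 Q h1
      exact ⟨R, h3, by rw [h2, h4, pow_succ', mul_nsmul]⟩
  obtain ⟨P, hP, h1⟩ := C.td_pt hD
  have a3 : (N * 2 ^ N) • P = 0 := by
    by_contra b
    have a4 := one_pos.trans ((show (N * 2 ^ N) • P ∈ C.Kr 2 from
      mul_nsmul P _ _ ▸ nsmul_mem (hN P hP) _).resolve_left b)
    obtain ⟨j, hj⟩ := NNReal.exists_pow_lt_of_lt_one (inv_pos.2 a4) v4
    obtain ⟨Q, h2, h3⟩ := a2 j P hP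
    have h4 : (N * 2 ^ N) • P = 2 ^ j • 2 ^ N • N • Q := by
      rw [mul_nsmul', h3, smul_comm N, smul_comm N]
    have h5 := (nsmul_mem (hN Q h2) (2 ^ N)).resolve_left fun e => b (by rw [h4, e, smul_zero])
    rw [← (td_pow h5 j).2, ← h4, mul_comm] at h5
    rw [← one_div, lt_div_iff₀ a4] at hj
    exact hj.not_gt h5
  refine Set.infinite_of_injective_forall_mem (f := fun i : ℕ => 2 ^ i • P) (fun i j e => ?_)
    (fun i => nsmul_mem (AddSubmonoid.mem_multiples P) _)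
    (isOfFinAddOrder_iff_nsmul_eq_zero.2 ⟨_, by positivity, a3⟩).finite_multiples
  have b1 := td_pow h1 i
  have b2 := (td_pow h1 j).2
  rw [← show 2 ^ i • P = 2 ^ j • P from e, ← b1.2] at b2
  exact (pow_right_injective₀ v0 v4.ne (mul_left_cancel₀ (one_pos.trans b1.1).ne' b2)).symm

end Cu

theorem ls : LSStmt := by
  intro C v D hv hD
  suffices h : ∃ t : Fin (if v = 2 then 8 else 4) → C.A, (∀ i, 2 • t i ∈ C.Fa v D) ∧
      ∀ i j, t i - t j ∈ C.Fa v D → i = j by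
    obtain ⟨t, h1, h2⟩ := h
    refine ⟨fun i => C.cob D (t i), fun i => ⟨Cu.z2_cob_half (h1 i), C.loc_cob v D _⟩,
      fun i j h => h2 i j fun g hg => ?_⟩
    rw [C.tw_sub]
    exact sub_eq_sub_iff_sub_eq_sub.1 (h g hg)
  obtain ⟨N, N0, hN⟩ := C.td_exp hv D
  obtain ⟨t, h1, h2⟩ := td_four C.exists_half (C.card_tors 1)
    (C.Fa v D ⊓ (nsmulAddMonoidHom (2 ^ N) : C.A →+ C.A).ker)
    ((C.finite_tors N).subset fun P h => h.2)
  have h3 : ∀ i j, 2 ^ (N + 1) • (t i - t j) = 0 := fun i j => by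
    rw [pow_succ', mul_nsmul, nsmul_sub]
    exact (sub_mem (h1 i) (h1 j)).2
  have h4 : ∀ i j, t i - t j ∈ C.Fa v D → i = j := fun i j h =>
    h2 i j ⟨h, Cu.td_tors N0 (hN _ h) (h3 i j)⟩
  by_cases e : v = 2
  · subst e
    rw [if_pos rfl]
    obtain ⟨q, q1, q2⟩ := C.td_two hD
    let e : Fin 8 ≃ Fin 4 ⊕ Fin 4 := (finSumFinEquiv (m := 4) (n := 4)).symm
    refine ⟨fun i => Sum.elim t (fun j => q + t j) (e i), fun i => ?_, fun i j h => e.injective ?_⟩
    · beta_reduce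
      rcases e i with i | i
      · exact (h1 i).1
      · exact (nsmul_add q (t i) 2).symm ▸ add_mem q1 (h1 i).1
    · revert h
      beta_reduce
      rcases e i with i | i <;> rcases e j with j | j <;> intro h
      · rw [h4 i j h]
      · exact absurd (by simpa [sub_sub_eq_add_sub] using neg_mem h) (q2 _ _ (h3 i j))
      · exact absurd (by simpa [sub_sub_eq_add_sub] using h) (q2 _ _ (h3 j i))
      · rw [h4 i j (by simpa using h)]
  · rw [if_neg e]
    exact ⟨t, fun i => (h1 i).1, h4⟩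

end Pool.Agent.SP
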