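import Pool.Agent.Lib.MP_696deb_nt.SP.IC
import Pool.Agent.Lib.MP_696deb_nt.SP.IH
import Pool.Agent.Lib.MP_696deb_nt.SP.TD
import Pool.Agent.Lib.MP_696deb_nt.SP.TF

/-! Curves without rational points of order two: the Selmer group of level two. -/

set_option autoImplicit false

open scoped Classical
open Finset Function

namespace Pool.Agent.SP

open Pool.Agent.Lib.MP_696deb_nt Pool.Agent.Lib.MP_696deb_nt.Sm
open Pool.Agent.Lib.MP_696deb_nt.B2 (cc jC)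

/-- The duality theorem for the local conditions that come from points. -/
def PTK : Prop := ∀ (C : Cu) (D : ℤ), D ≠ 0 → (∀ q, C.Gp q → ¬ (q : ℤ) ∣ D) →
  ∀ x : ℕ → GQ → C.A, (∀ v ∈ plc C.N0, C.Z2 (Gv v) (x v)) →
    (∀ b ∈ C.Sh D, ∑ v ∈ plc C.N0, C.bv v (x v) b = 0) →
    ∃ y, C.Un y ∧ ∀ v ∈ plc C.N0, C.Loc v D (x v + y)

namespace Cu

variable {C : Cu} {g0 s : GQ} {ε D : ℤ} {l p : ℕ} {a c : GQ → C.A}

theorem loc_good' (hp : C.Gp p) (hD : ¬ (p : ℤ) ∣ D) (h : C.Z2 (Gv p) c) (k : C.Loc p D c) :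
    c (sig p) = 0 := by
  have e := loc_good (c := fun g => if g ∈ Gv p then c g else 0) (n := 1) hp hD (fun g => by
    split_ifs with hg
    exacts [h.two g hg, smul_zero _]) (k.congr (fun _ _ => rfl) fun g hg => if_pos hg)
  rwa [if_pos (sig_mem hp.1 hp.ne_two)] at e

/-- Unramified classes come from points. -/
theorem loc_unr (hp : C.Gp p) (hD : ¬ (p : ℤ) ∣ D) (h : C.Z2 (Gv p) c) (h0 : c (sig p) = 0) :
    C.Loc p D c := by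
  obtain ⟨k, h1, h2⟩ := ls C p D hp.1 fun e => hD (e ▸ dvd_zero _)
  have f := frb_mem hp.1 hp.ne_two
  have s0 := fun i => loc_good' hp hD (h1 i).1 (h1 i).2
  have eq : ∀ {x y : GQ → C.A}, C.Z2 (Gv p) x → C.Z2 (Gv p) y → x (sig p) = 0 → y (sig p) = 0 →
      x (frb p) = y (frb p) → ∀ g ∈ Gv p, x g = y g := fun hx hy x0 y0 e g hg =>
    sub_eq_zero.1 ((hx.sub hy).dec hp (by rw [Pi.sub_apply, x0, y0, sub_zero])
      (sub_eq_zero.2 e) g hg)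
  have := (C.finite_tors 1).to_subtype
  have bij := Injective.bijective_of_nat_card_le
    (f := fun i => (⟨k i (frb p), (h1 i).1.two _ f⟩ : {P : C.A | 2 ^ 1 • P = 0}))
    (fun i j e => h2 i j (eq (h1 i).1 (h1 j).1 (s0 i) (s0 j) (congrArg Subtype.val e))) (by
      rw [Nat.card_coe_set_eq, C.card_tors, Nat.card_fin, if_neg hp.ne_two, pow_one])
  obtain ⟨i, e⟩ := bij.2 ⟨c (frb p), h.two _ f⟩
  exact (h1 i).2.congr (fun _ _ => rfl) (eq h (h1 i).1 h0 (s0 i) (congrArg Subtype.val e).symm)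

theorem loc_two (v : ℕ) (D : ℤ) {S : C.A} (hS : 2 • S = 0)
    (h : ∀ g ∈ Gv v, c g = C.act g S - S) : C.Loc v D c :=
  ⟨S, fun g hg => by rw [h g hg, cob, C.tw_two D g hS]⟩

theorem loc_of_cb (hp : C.Gp p) (h : C.Z2 (Gv p) c) (h0 : c (sig p) = 0) (k : C.Cb c (frb p))
    (D : ℤ) : C.Loc p D c :=
  k.elim fun _ k => loc_two p D k.1 (cob_Gv hp h h0 k.1 k.2)

/-- The normalised Selmer group of level two. -/
noncomputable def SL (C : Cu) (g0 : GQ) (D : ℤ) : AddSubgroup (GQ → C.A) where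
  carrier := {a | C.Z2 ⊤ a ∧ a g0 = 0 ∧ ∀ v, Pv v → C.Loc v D a}
  zero_mem' := ⟨C.z2_zero _, rfl, fun v _ => C.loc_zero v D⟩
  add_mem' := fun h k => ⟨h.1.add k.1, by rw [Pi.add_apply, h.2.1, k.2.1, add_zero],
    fun v hv => (h.2.2 v hv).add (k.2.2 v hv)⟩
  neg_mem' := fun {b} h => by
    rwa [show -b = b from funext fun g => C.neg_two (h.1.two g trivial)]

/-- What is used of a prime in the class of `s`. -/
structure At (C : Cu) (g0 : GQ) (ε : ℤ) (s : GQ) (l : ℕ) : Prop where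
  gp : C.Gp l
  m8 : (ε * l) % 8 = 1
  sq : ∀ q : ℕ, q.Prime → q ≠ 2 → q ≤ C.N0 → aleg q (ε * l) = 0
  tw : C.Tw1 (ε * l) l
  sim : C.Sim (ε * l) (Dref C.N0 ε)
  fpf : (∀ i, C.pm s i ≠ i) → ∀ i, C.pm (frb l) i ≠ i
  ty : chi C.disc s = 1 → C.Ty2 l
  cb : ∀ b ∈ C.U g0 1, C.Cb b (frb l) ↔ C.Cb b s

theorem exists_at (h0 : C.G3 g0) (hε : ε = 1 ∨ ε = -1) (hs : C.Ok ε s) : ∃ U : Subgroup GQ,
    B2.Op U ∧ U.Normal ∧ ∀ τ, C.Na τ → ∀ l, C.Gp l → Frb U (s * τ) l → C.At g0 ε s l := by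
  obtain ⟨U, k1, k2, k3, k4, k5, k6⟩ := exists_U0 h0
  refine ⟨U, k1, k2, fun τ h1 l hl f => ?_⟩
  obtain ⟨e1, e2⟩ := ib_sq hε hs h1.chr k2 k5 k6 hl f
  exact ⟨hl, e1, e2, tw1_prime hε hl, sim_Dref hε hl e1 e2,
    fun h3 => fpf_Frb k2 k3 f hl fun j => by rw [pm_mul, h1.one j]; exact h3 j,
    fun h2 => ty2_Frb k2 k3 f hl (by rw [chi_mul_g, h1.chr, add_zero, h2]),
    fun b m => (Cb_Frb k2 k3 f hl m.1 ((mem_U_one.1 m).1.2 l hl) (k4 b m)).trans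
      (Cb_mul m.1 h1.one (h1.zero b m.1))⟩

theorem At.mem (h : C.At g0 ε s l) :
    a ∈ C.SL g0 (ε * l) ↔ C.IbD g0 ε l a ∧ C.Loc l (ε * l) a := by
  refine ⟨fun ⟨h1, h2, h3⟩ => ⟨⟨h1, h2, fun q hq e => loc_good' hq (h.tw.out q hq e)
    (h1.mono le_top) (h3 q (.inr hq.1)), fun v hv => (h3 v hv.pv).congr
      (fun g hg => (h.sim v hv g hg).symm) fun _ _ => rfl⟩, h3 l (.inr h.gp.1)⟩,
    fun ⟨d, k⟩ => ⟨d.z2, d.nrm, fun v hv => ?_⟩⟩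
  by_cases b : C.Bd v
  · exact (d.loc v b).congr (h.sim v b) fun _ _ => rfl
  have hv' := hv.resolve_left fun e => b (.inl e)
  have g : C.Gp v := ⟨hv', not_le.1 fun e => b (.inr ⟨hv', e⟩)⟩
  by_cases e : v = l
  · exact e ▸ k
  · exact loc_unr g (h.tw.out v g e) (d.z2.mono le_top) (d.unr v g e)

theorem ibd_of (hε : ε = 1 ∨ ε = -1) (h : a ∈ C.SS g0 ε) (l : ℕ) : C.IbD g0 ε l a :=
  have k := (mem_SS hε).1 h
  ⟨k.1.1, k.1.2.1, fun q hq _ => (mem_U_one.1 k.1).1.2 q hq, k.2⟩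

theorem At.of_cb (h : C.At g0 ε s l) (hε : ε = 1 ∨ ε = -1) (ha : a ∈ C.SS g0 ε) (k : C.Cb a s) :
    a ∈ C.SL g0 (ε * l) :=
  h.mem.2 ⟨ibd_of hε ha l, loc_of_cb h.gp ((SS_le ha).1.mono le_top)
    ((mem_U_one.1 (SS_le ha)).1.2 l h.gp) ((h.cb a (SS_le ha)).2 k) _⟩

theorem At.three (h : C.At g0 ε s l) (hε : ε = 1 ∨ ε = -1) (h3 : ∀ i, C.pm s i ≠ i) :
    C.SL g0 (ε * l) = C.SS g0 ε := by
  refine le_antisymm (fun a ha => ?_) fun a ha =>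
    h.of_cb hε ha (Cb_of_fpf ((SS_le ha).1.two _ trivial) h3)
  have d := (h.mem.1 ha).1
  exact d.mem hε (((d.z2.mono le_top).sig_ty h.gp).resolve_right fun ⟨i, hi, _⟩ => h.fpf h3 i hi)

theorem At.two (h : C.At g0 ε s l) (hε : ε = 1 ∨ ε = -1) (hn : C.disc < 0)
    (h2 : chi C.disc s = 1) (hc : c ∈ C.RR g0) (hc' : ¬ C.Cb c s) :
    C.SL g0 (ε * l) = C.XC g0 s := by
  refine le_antisymm (fun a ha => ?_) fun a ha => h.of_cb hε ((SS_neg hn ε).ge ha.1) ha.2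
  obtain ⟨d, k⟩ := h.mem.1 ha
  have s0 := d.sig_zero hε (h.ty h2) ((SS_neg hn ε).ge hc) fun e => hc' ((h.cb c hc.1).1 e)
  have m := d.mem hε s0
  exact ⟨m.1, (h.cb a (SS_le m)).1 (ib_cb (h.ty h2) h.tw.val d.z2 k s0)⟩

theorem two_SL {A : GQ → C.A} (hA : C.IsSel D 2 A) (k : A g0 = 0) : 2 • A ∈ C.SL g0 D :=
  ⟨hA.two.z2, by rw [Pi.smul_apply, k, nsmul_zero], hA.two.loc⟩

/-- One class of primes with odd Selmer group in which at most one class lifts. -/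
def Res1 (C : Cu) (g0 : GQ) (ε : ℤ) : Prop := ∃ (U : Subgroup GQ) (s : GQ), B2.Op U ∧ U.Normal ∧
  ∀ l, C.Gp l → Frb U s l → C.Nice g0 ε False l ∧ par (Nat.card (C.SL g0 (ε * l))) = 1

theorem res1_of (h0 : C.G3 g0) (hε : ε = 1 ∨ ε = -1) (hs : C.Ok ε s)
    {X : AddSubgroup (GQ → C.A)} (hX : C.Adm s (Dref C.N0 ε) X) (hU : X ≤ C.U g0 1)
    (h : ∀ l, C.At g0 ε s l → C.SL g0 (ε * l) = X) (k : par (Nat.card X) = 1) : C.Res1 g0 ε := by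
  obtain ⟨a₀, τ, U, h1, h2, h3, h4⟩ := few_one h0 hU hX
  obtain ⟨U0, k1, k2, k3⟩ := exists_at h0 hε hs
  refine ⟨U ⊓ U0, s * τ, h2.inter k1, inferInstance, fun l hl hf => ?_⟩
  have t := k3 τ h1 l hl (hf.mono inf_le_right)
  exact ⟨⟨t.m8, t.sq, a₀, False.elim, fun A hA hg => h4 _ ((h l t).le (two_SL hA hg))
    ⟨l, ε * l, A, hf.mono inf_le_left, t.tw, t.sim, hA.lift t.tw, rfl⟩⟩, (h l t).symm ▸ k⟩

theorem Z2.nrm (h0 : C.G3 g0) (h : C.Z2 ⊤ c) : ∃ (S : C.A) (c' : GQ → C.A), 2 • S = 0 ∧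
    C.Z2 ⊤ c' ∧ c' g0 = 0 ∧ (∀ g, c g = c' g + (C.act g S - S)) ∧
    (∀ v D, C.Loc v D c → C.Loc v D c') ∧ ∀ p, C.Gp p → c' (sig p) = c (sig p) := by
  obtain ⟨S, h1, h2⟩ := h.norm h0
  refine ⟨S, c + fun g => C.act g S - S, h1, h.add (z2_cob _ h1), ?_, fun g => ?_,
    fun v D k => k.add (loc_two v D h1 fun _ _ => rfl), fun p hp => ?_⟩
  · rw [Pi.add_apply, h2, ← two_nsmul, (z2_cob ⊤ h1).two g0 trivial]
  · rw [Pi.add_apply, add_assoc, ← two_nsmul, (z2_cob ⊤ h1).two g trivial, add_zero]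
  · rw [Pi.add_apply, hp.act_ine (sig_ine hp.1 hp.ne_two) h1, sub_self, add_zero]

end Cu

end Pool.Agent.SP
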