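import Pool.Agent.Lib.MP_696deb_nt.SP.PI1

/-! Curves without rational points of order two: an odd Selmer group. -/

set_option autoImplicit false

open scoped Classical
open Finset Function

namespace Pool.Agent.SP

open Pool.Agent.Lib.MP_696deb_nt Pool.Agent.Lib.MP_696deb_nt.Sm
open Pool.Agent.Lib.MP_696deb_nt.B2 (cc jC)

theorem pi_par {m n : ℕ} (h : m = 2 * n) (hm : m ≠ 0) : par m = par n + 1 := by
  rw [h, par_mul two_ne_zero fun e => hm (by rw [h, e]), par_two, add_comm]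

namespace Cu

variable {C : Cu} {g0 s : GQ} {ε D : ℤ} {l p : ℕ} {a c : GQ → C.A}

theorem bv_zero {v : ℕ} (hv : Pv v) (h : C.Z2 (Gv v) c) : C.bv v 0 c = 0 := by
  have e := bv_add_left hv (C.z2_zero _) (C.z2_zero _) h
  rw [add_zero] at e
  exact left_eq_add.1 e

theorem pi_single (pt : PTK) (C : Cu) {w : ℕ} (hw : w ∈ plc C.N0) {κ : GQ → C.A}
    (hκ : C.Z2 (Gv w) κ) (h : ∀ b ∈ C.Sh 1, C.bv w κ b = 0) : ∃ y, C.Un y ∧ C.Loc w 1 (κ + y) ∧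
      ∀ v ∈ plc C.N0, v ≠ w → C.Loc v 1 y := by
  obtain ⟨y, h1, h2⟩ := pt C 1 one_ne_zero (fun q hq e => hq.1.one_lt.ne' (by
      exact_mod_cast Int.eq_one_of_dvd_one (by positivity) e)) (fun v => if v = w then κ else 0)
    (fun v _ => by
      split_ifs with e
      exacts [e ▸ hκ, C.z2_zero _]) fun b hb => by
      rw [sum_eq_single_of_mem w hw fun v hv e => by
        rw [if_neg e, bv_zero (C.bd_iff.2 hv).pv (hb.1.1.mono le_top)], if_pos rfl, h b hb]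
  refine ⟨y, h1, by simpa only [if_true] using h2 w hw, fun v hv e => ?_⟩
  simpa only [if_neg e, zero_add] using h2 v hv

theorem pi_nd {q : ℕ} (hq : q.Prime) : ¬ (q : ℤ) ∣ 1 := fun e => hq.one_lt.ne' (by
  exact_mod_cast Int.eq_one_of_dvd_one (by positivity) e)

/-- A ramified class exists when there is no unramified one. -/
theorem At.ram (pt : PTK) (h0 : C.G3 g0) (h : C.At g0 ε s l) (hε : ε = 1 ∨ ε = -1)
    (hn : C.disc < 0) (ty : C.Ty2 l) (hR : ∀ a ∈ C.RR g0, a = 0) :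
    ∃ y ∈ C.SL g0 (ε * l), y ≠ 0 := by
  have hl := h.gp
  have pv : Pv l := .inr hl.1
  have ml : l ∈ plc l := mem_plc.2 (.inr ⟨hl.1, le_rfl⟩)
  have kz := sa5_z2 ty (ε * l)
  have un : ∀ {b : GQ → C.A}, (C.big l hl.2.le).Un b → (∀ v ∈ plc l, v ≠ l → C.Loc v 1 b) →
      C.Z2 ⊤ b ∧ (∀ q, C.Gp q → q ≠ l → b (sig q) = 0) ∧
        ∀ v : ℕ, v.Prime → v ≤ C.N0 → C.Loc v 1 b := fun {b} h1 h2 =>
    have z : C.Z2 ⊤ b := ⟨h1.1.two, h1.1.coc, h1.1.sm⟩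
    ⟨z, fun q hq e => (le_or_gt q l).elim (fun k => loc_good' hq (pi_nd hq.1) (z.mono le_top)
      (h2 q (mem_plc.2 (.inr ⟨hq.1, k⟩)) e)) fun k => h1.2 q ⟨hq.1, k⟩,
      fun v hv k => h2 v (mem_plc.2 (.inr ⟨hv, k.trans hl.2.le⟩)) (k.trans_lt hl.2).ne⟩
  obtain ⟨y, y1, y2, y3⟩ : ∃ y : GQ → C.A, (C.big l hl.2.le).Un y ∧
      C.Loc l 1 (C.cob (ε * l) (C.hf (C.T (C.tp l))) + y) ∧ ∀ v ∈ plc l, v ≠ l → C.Loc v 1 y :=
    pi_single pt (C.big l hl.2.le) ml (κ := C.cob (ε * l) (C.hf (C.T (C.tp l))))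
      ⟨kz.two, kz.coc, kz.sm⟩ fun (b : GQ → C.A) hb => by
      obtain ⟨b1, b2, b3⟩ := un hb.1 fun v hv _ => hb.2 v (mem_plc.1 hv)
      obtain ⟨S, b', s1, s2, s3, s4, s5, s6⟩ := b1.nrm h0
      have bl : C.Loc l 1 b := hb.2 l (mem_plc.1 ml)
      have b0 := hR b' ⟨mem_U_one.2 ⟨⟨s2, fun q hq => (s6 q hq).trans (if e : q = l then
        e ▸ loc_good' hl (pi_nd hl.1) (b1.mono le_top) bl else b2 q hq e)⟩,
        s3⟩, fun v hv k => s5 v 1 (b3 v hv k)⟩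
      show C.bv l _ b = 0
      rw [bv_comm pv kz (b1.mono le_top), bv_prime hl.1]
      exact Bv_cob hl.1 s1 (fun g _ => by rw [s4, b0, Pi.zero_apply, zero_add]) kz
  obtain ⟨z1, z2, z3⟩ := un y1 y3
  have uz := kz.add (z1.mono le_top)
  have u0 := loc_good' hl (pi_nd hl.1) uz y2
  have ey : ∀ g ∈ Gv l, y g = (C.cob (ε * l) (C.hf (C.T (C.tp l))) +
      (C.cob (ε * l) (C.hf (C.T (C.tp l))) + y)) g := fun g hg => by
    rw [Pi.add_apply, Pi.add_apply, ← add_assoc, ← two_nsmul, kz.two g hg, zero_add]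
  have ly : C.Loc l (ε * l) y := by
    obtain ⟨Q, q1, q2, q3, q4⟩ := qst (C.big l hl.2.le)
    have big : ∀ {v : ℕ} {b : GQ → C.A}, C.Z2 (Gv v) b → (C.big l hl.2.le).Z2 (Gv v) b :=
      fun k => ⟨k.two, k.coc, k.sm⟩
    have e := q4 y y1
    rw [sum_eq_single_of_mem l ml fun v hv k => q3 v y 1 ((mem_plc.1 hv).imp_right And.left)
      (big (z1.mono le_top)) (y3 v hv k)] at e
    replace e := ((q1 l _ _ pv ey).trans (q2 l _ _ pv (big kz) (big uz))).symm.trans e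
    rw [q3 l _ _ pv (big kz) (C.loc_cob l _ _), q3 l _ _ pv (big uz) y2, zero_add, zero_add] at e
    replace e : C.bv l _ _ = 0 := e
    rw [bv_comm pv kz uz, bv_prime hl.1, Bv_tame hl uz kz u0, sa5_sig ty h.tw.val] at e
    exact ((C.loc_cob l _ _).add (loc_of_cb hl uz u0
      ((Cb_iff_ep (uz.two _ (frb_mem hl.1 hl.ne_two)) ty.2).2 e) _)).congr (fun _ _ => rfl) ey
  obtain ⟨S, y', s1, s2, s3, s4, s5, s6⟩ := z1.nrm h0
  refine ⟨y', h.mem.2 ⟨⟨s2, s3, fun q hq e => (s6 q hq).trans (z2 q hq e), ?_⟩, s5 _ _ ly⟩,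
    fun e => C.T_ne (C.tp l) ?_⟩
  · rintro v (rfl | ⟨hv, k⟩)
    · obtain ⟨S, hS, e⟩ := Z2.cob_cc hn (s2.mono le_top)
      exact loc_two 0 _ hS fun g hg => e g (Gv_zero ▸ hg)
    · exact (s5 v 1 (z3 v hv k)).congr (Dref_fin ε hv k) fun _ _ => rfl
  · rw [Pi.add_apply, ← s6 l hl, e, Pi.zero_apply, add_zero, sa5_sig ty h.tw.val] at u0
    exact u0

theorem At.card (pt : PTK) (h0 : C.G3 g0) (h : C.At g0 ε s l) (hε : ε = 1 ∨ ε = -1)
    (hn : C.disc < 0) (ty : C.Ty2 l) (hR : ∀ a ∈ C.RR g0, a = 0) :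
    ∃ y, y ≠ 0 ∧ ∀ a, a ∈ C.SL g0 (ε * l) ↔ a = 0 ∨ a = y := by
  obtain ⟨y, y1, y0⟩ := h.ram pt h0 hε hn ty hR
  have k : ∀ a ∈ C.SL g0 (ε * l), a ≠ 0 → a (sig l) = C.T (C.tp l) := fun a ha a0 =>
    ((ha.1.mono le_top).sig_ty2 ty).resolve_left fun e => a0 (hR a ((h.mem.1 ha).1.mem hε e).1)
  refine ⟨y, y0, fun a => ⟨fun ha => or_iff_not_imp_left.2 fun a0 => ?_, ?_⟩⟩
  · have e := hR _ ((h.mem.1 (add_mem ha y1)).1.mem hε (by
      rw [Pi.add_apply, k a ha a0, k y y1 y0, T_add_self])).1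
    exact funext fun g => (eq_neg_of_add_eq_zero_left (congrFun e g)).trans
      (C.neg_two (y1.1.two g trivial))
  · rintro (rfl | rfl)
    exacts [zero_mem _, y1]

theorem neg_odd (pt : PTK) (hn : C.disc < 0) (h0 : C.G3 g0) :
    ∃ ε : ℤ, (ε = 1 ∨ ε = -1) ∧ C.Res1 g0 ε := by
  have := finite_le h0 (X := C.RR g0) fun _ h => h.1
  rcases F2_cases (par (Nat.card (C.RR g0))) with e | e
  swap
  · exact ⟨1, .inl rfl, res1_of h0 (.inl rfl) h0.ok (ic_adm3 h0) SS_le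
      (fun l h => h.three (.inl rfl) h0.fpf) ((SS_neg hn 1).symm ▸ e)⟩
  refine ⟨-1, .inr rfl, ?_⟩
  by_cases k : ∃ c ∈ C.RR g0, c ≠ 0
  · obtain ⟨c, hc, c0⟩ := k
    obtain ⟨s, h1, h2, h3, h4⟩ := exists_s hn h0 hc c0
    refine res1_of h0 (.inr rfl) h1 (ic_adm hn h0) (fun _ h => h.1.1)
      (fun l h => h.two (.inr rfl) hn h2 hc h3) ?_
    rw [pi_par h4 Nat.card_pos.ne'] at e
    exact CharTwo.add_eq_zero.1 e
  obtain ⟨U, k1, k2, k3⟩ := exists_at h0 (.inr rfl) (ok_cc fun d => loc_one d)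
  refine ⟨U, cc * 1 * 1, k1, k2, fun l hl hf => ?_⟩
  have t := k3 1 C.nn_one l hl hf
  obtain ⟨y, y0, hy⟩ := t.card pt h0 (.inr rfl) hn (t.ty (by
    rw [mul_one]
    exact (C.chi_disc _).2 (C.pm_isCC hn B2.isCC_cc))) fun a ha => by_contra fun a0 => k ⟨a, ha, a0⟩
  refine ⟨⟨t.m8, t.sq, y, False.elim, fun A hA hg => (hy _).1 (two_SL hA hg)⟩, ?_⟩
  have e2 : (C.SL g0 (-1 * l) : Set (GQ → C.A)) = {0, y} := Set.ext hy
  rw [← SetLike.coe_sort_coe, e2, Nat.card_coe_set_eq, Set.ncard_pair y0.symm, par_two]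

end Cu

end Pool.Agent.SP
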