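import Pool.Agent.Lib.MP_696deb_nt.SP.TE

/-! The real place. -/

set_option autoImplicit false

open scoped Classical
open Finset

namespace Pool.Agent.SP

open Pool.Agent.Lib.MP_696deb_nt Pool.Agent.Lib.MP_696deb_nt.Sm
open Pool.Agent.Lib.MP_696deb_nt.B2 (jC cc)

theorem teb_congr {t y : GQ → F2} (ht : Ho (Gv 0) t) (hy : Ho (Gv 0) y) (e : t cc = y cc) :
    ∀ g ∈ Gv 0, t g = y g := fun g hg => by
  have h1 : ∀ {t : GQ → F2}, Ho (Gv 0) t → t 1 = 0 := fun {t} ht => by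
    have := ht.2 1 (one_mem _) 1 (one_mem _)
    rw [mul_one] at this
    exact left_eq_add.1 this
  rcases loc_Gv0 hg with rfl | rfl
  · rw [h1 ht, h1 hy]
  · exact e

theorem teb_neg {d : ℤ} (h : d < 0) : chi d cc = 1 := by
  rw [loc_chi_cc h.ne, if_neg h.not_gt]

namespace Cu

variable {C : Cu} {t : GQ → F2}

theorem teb_X (h : C.e 0 = 0) {D : ℤ} {y : GQ → F2} (hy : Ho (Gv 0) y) (h1 : y cc = 1)
    (hx : C.Xl 0 D y) (ht : Ho (Gv 0) t) : C.Xl 0 D t ∧ (C.Yl 0 D t ↔ t cc = 0) := by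
  refine ⟨?_, fun k => ?_, fun k =>
    (C.yl_zero 0 D).congr (fun _ _ => rfl) (teb_congr ht (ho_zero _) k)⟩
  · rcases F2_cases (t cc) with k | k
    · exact (C.xl_zero 0 D).congr (fun _ _ => rfl) (teb_congr ht (ho_zero _) k)
    · exact hx.congr (fun _ _ => rfl) (teb_congr ht hy (k.trans h1.symm))
  · have := xy h (.inl rfl) hy hx k
    rwa [hv_real hy, h1, one_mul] at this

theorem teb_Y (h : C.e 0 = 0) {D : ℤ} {y : GQ → F2} (hy : Ho (Gv 0) y) (h1 : y cc = 1)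
    (hx : C.Yl 0 D y) (ht : Ho (Gv 0) t) : C.Yl 0 D t ∧ (C.Xl 0 D t ↔ t cc = 0) := by
  refine ⟨?_, fun k => ?_, fun k =>
    (C.xl_zero 0 D).congr (fun _ _ => rfl) (teb_congr ht (ho_zero _) k)⟩
  · rcases F2_cases (t cc) with k | k
    · exact (C.yl_zero 0 D).congr (fun _ _ => rfl) (teb_congr ht (ho_zero _) k)
    · exact hx.congr (fun _ _ => rfl) (teb_congr ht hy (k.trans h1.symm))
  · have := xy h (.inl rfl) ht k hx
    rwa [hv_real ht, h1, mul_one] at this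

/-- The first coordinate of a half of a point of order two. -/
theorem teb_half {g : GQ} {i : Fin 3} (hg : g (C.e i) = C.e i) {R : C.A} (hR : 2 • R = C.T i)
    (k : C.act g R = R ∨ C.act g R = -R) :
    ∃ r : Qb, g r = r ∧ r * r = 3 * C.e i ^ 2 + 2 * C.a * C.e i + C.b := by
  rcases R with _ | ⟨u, w, hP⟩
  · exact absurd (hR.symm.trans (nsmul_zero 2)) (C.T_ne i)
  have hw : w ≠ 0 := fun e => C.T_ne i (hR.symm.trans ((ell_y (C.split i)).2 e))
  have h1 := ell_sq (C.split i) hR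
  rw [sub_self, mul_self_eq_zero, ell_s_some, div_eq_zero_iff, sub_eq_zero,
    or_iff_left (mul_ne_zero two_ne_zero hw), sq] at h1
  obtain ⟨_, e⟩ := C.act_some g hP
  refine ⟨u - C.e i, ?_, h1⟩
  rw [map_sub, hg]
  congr 1
  rcases k with k | k
  · exact ((WeierstrassCurve.Affine.Point.some.injEq ..).mp (e.symm.trans k)).1
  · rw [WeierstrassCurve.Affine.Point.neg_some] at k
    exact ((WeierstrassCurve.Affine.Point.some.injEq ..).mp (e.symm.trans k)).1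

/-- A half of a point of order two whose first coordinate is not real. -/
theorem teb_exists (h : C.e 0 = 0) (hb : 0 < C.b) (hb' : 0 < C.bb) (hk : cc ∈ C.Kpm) :
    ∃ i, i ≠ 0 ∧ ∃ R : C.A, 2 • R = C.T i ∧ C.act cc R ≠ R ∧ C.act cc R ≠ -R := by
  by_contra! k
  have key := fun i hi => teb_half (C := C) (g := cc) (i := i) (by rw [C.e_pm, hk i])
    (two_hf (C.T i)) (or_iff_not_imp_left.2 (k i hi _ (two_hf _)))
  obtain ⟨r, r1, r2⟩ := key 1 (by decide)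
  obtain ⟨s, s1, s2⟩ := key 2 (by decide)
  have h1 : chB (r * s * (r * s)) cc = 0 := chB_sq (by rw [map_mul, r1, s1])
  have h2 : r * s * (r * s) = ((-(C.b * C.bb) : ℤ) : Qb) := by
    rw [mul_mul_mul_comm, r2, s2, bb]
    push_cast
    rw [C.ha, C.hb, h]
    ring
  rw [h2] at h1
  exact zero_ne_one (h1.symm.trans (teb_neg (neg_lt_zero.2 (mul_pos hb hb'))))

theorem teb_sign (h : C.e 0 = 0) (hb : 0 < C.b) (hb' : 0 < C.bb) : ∃ (R : C.A) (s : F2),
    ∀ D : ℤ, C.Z2 (Gv 0) (C.cob D R) ∧ (chi D cc = s → C.cob D R cc = C.T 0) ∧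
      (chi D cc ≠ s → C.nu (C.cob D R) cc = 1) := by
  have hk : cc ∈ C.Kpm := (two_Kpm h).2 (by rw [loc_chi_cc hb'.ne', if_pos hb'])
  obtain ⟨i, hi, R, hR, n1, n2⟩ := teb_exists h hb hb' hk
  have a1 : C.act cc (C.T i) = C.T i := by rw [act_T, hk i]
  have hz : ∀ D : ℤ, C.Z2 (Gv 0) (C.cob D R) := fun D => z2_cob_half fun g hg => by
    rw [hR, C.tw_two D g (C.two_T i)]
    rcases loc_Gv0 hg with rfl | rfl
    exacts [C.act_one _, a1]
  have a2 : 2 • C.act cc R = C.T i := by rw [← map_nsmul, hR, a1]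
  have c0 : ∀ D : ℤ, chi D cc = 0 → C.cob D R cc = C.act cc R - R := fun D e => by
    rw [cob, tw, e, sn_zero, one_zsmul]
  have c1 : ∀ D : ℤ, chi D cc = 1 → C.cob D R cc = C.act cc R - R + C.T i := fun D e => by
    rw [cob, tw, e, sn_one, neg_one_zsmul, ← C.neg_two (C.two_T i), ← a2, two_nsmul]
    abel
  have f0 : ∀ x : F2, x ≠ 0 → x = 1 := by decide
  have f1 : ∀ x : F2, x ≠ 1 → x = 0 := by decide
  rcases C.tors2 (P := C.act cc R - R) (by rw [nsmul_sub, a2, hR, sub_self]) with e | ⟨j, e⟩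
  · exact absurd (sub_eq_zero.1 e) n1
  have hj : j ≠ i := fun k => n2 (by
    rw [k, ← C.neg_two (C.two_T i), ← hR, sub_eq_iff_eq_add] at e
    rw [e, two_nsmul]
    abel)
  by_cases h0 : j = 0
  · refine ⟨R, 0, fun D => ⟨hz D, fun k => by rw [c0 D k, e, h0], fun k => ?_⟩⟩
    rw [nu, c1 D (f0 _ k), e, h0, C.ep_add_left (C.two_T _) (C.two_T _) (C.two_T _), ep_self,
      ep_T, if_neg hi, zero_add]
  · refine ⟨R, 1, fun D => ⟨hz D, fun k => by rw [c1 D k, e, C.T_add_ne hj h0 hi], fun k => ?_⟩⟩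
    rw [nu, c0 D (f1 _ k), e, ep_T, if_neg h0]

/-- The real place when the quadratic factor has no real root. -/
theorem real_neg (h : C.e 0 = 0) (hn : C.bb < 0) (D : ℤ) (ht : Ho (Gv 0) t) :
    C.Xl 0 D t ∧ (C.Yl 0 D t ↔ t cc = 0) := by
  exact teb_X h (ho_chi _ _) (teb_neg hn) (xl_bb h 0 D) ht

/-- The real place when zero is the middle root. -/
theorem real_mid (h : C.e 0 = 0) (hn : C.b < 0) (D : ℤ) (ht : Ho (Gv 0) t) :
    C.Yl 0 D t ∧ (C.Xl 0 D t ↔ t cc = 0) := by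
  exact teb_Y h (ho_chi _ _) (teb_neg hn) (yl_b h 0 D) ht

/-- The real place when zero is an extreme root. -/
theorem real_pos (h : C.e 0 = 0) (hb : 0 < C.b) (hb' : 0 < C.bb) : ∃ s : F2, ∀ (D : ℤ)
    (t : GQ → F2), Ho (Gv 0) t → (chi D cc = s → C.Xl 0 D t ∧ (C.Yl 0 D t ↔ t cc = 0)) ∧
      (chi D cc ≠ s → C.Yl 0 D t ∧ (C.Xl 0 D t ↔ t cc = 0)) := by
  obtain ⟨R, s, hs⟩ := teb_sign h hb hb'
  have h1 : chi (-1) cc = 1 := teb_neg (by decide)
  refine ⟨s, fun D t ht => ⟨fun k => teb_X h (ho_chi _ (-1)) h1 ⟨R, fun g hg => ?_⟩ ht,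
    fun k => teb_Y h (ho_nu h (hs D).1) ((hs D).2.2 k)
      ⟨_, (hs D).1, C.loc_cob 0 D R, fun _ _ => rfl⟩ ht⟩⟩
  rcases loc_Gv0 hg with rfl | rfl
  · rw [(hs D).1.one, io, chi, loc_one, ZMod.val_zero, zero_nsmul]
  · rw [(hs D).2.1 k, io, h1, ZMod.val_one, one_nsmul]

end Cu

end Pool.Agent.SP
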