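import Pool.Agent.Lib.MP_696deb_nt.SP.PI2
import Pool.Agent.Lib.MP_696deb_nt.SP.TEb

/-! Curves without rational points of order two: positive discriminant. -/

set_option autoImplicit false

open scoped Classical
open Finset Function

namespace Pool.Agent.SP

open Pool.Agent.Lib.MP_696deb_nt Pool.Agent.Lib.MP_696deb_nt.Sm
open Pool.Agent.Lib.MP_696deb_nt.B2 (cc jC)

theorem pi_index {G : Type} [AddCommGroup G] {X Y : AddSubgroup G} {f : G → F2} {a : G}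
    (ha : a ∈ X) (h1 : f a = 1) (h : ∀ b ∈ X, f (b + a) = f b + f a)
    (hY : ∀ b, b ∈ Y ↔ b ∈ X ∧ f b = 0) : Nat.card X = 2 * Nat.card Y := by
  have h2 : (Y.addSubgroupOf X).index = 2 := by
    refine AddSubgroup.index_eq_two_iff.2 ⟨⟨a, ha⟩, fun b => ?_⟩
    have e1 := h b b.2
    have m : ∀ c : X, c ∈ Y.addSubgroupOf X ↔ f c = 0 := fun c => (hY c).trans (and_iff_right c.2)
    rw [m, m]
    show Xor (f (b + a) = 0) _
    rw [e1, h1]
    rcases F2_cases (f b) with e | e <;> rw [e] <;> decide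
  rw [← (Y.addSubgroupOf X).card_mul_index, h2, mul_comm, Nat.card_congr
    (AddSubgroup.addSubgroupOfEquivOfLe fun b hb => ((hY b).1 hb).1).toEquiv]

namespace Cu

variable {C : Cu} {g0 : GQ} {ε : ℤ} {i j m : Fin 3} {a k : GQ → C.A}

/-- A half of the middle point of order two gives the nonzero real class. -/
theorem mid_cc (hp : 0 < C.disc) (hm : ¬ 0 < C.fd m) (h : C.Ln ε i) :
    C.Z2 (Gv 0) (C.cob ε (C.hf (C.T m))) ∧ C.cob ε (C.hf (C.T m)) cc = C.T i := by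
  have c := isCC_Kpm hp B2.isCC_cc
  have z : C.Z2 (Gv 0) (C.cob ε (C.hf (C.T m))) := z2_cob_half fun g hg => by
    rw [two_hf, C.tw_two _ _ (C.two_T m)]
    rcases loc_Gv0 hg with rfl | rfl
    exacts [C.act_one _, act_of_pm c (C.two_T m)]
  refine ⟨z, ((C.ep_T_eq_zero i).1 (h _ z (C.loc_cob 0 ε _))).resolve_left fun e => hm ?_⟩
  obtain ⟨r, r1, r2⟩ := teb_half (C := C) (g := cc) (i := m) (by rw [C.e_pm, c m])
    (two_hf (C.T m)) (by
      rw [cob, tw, sub_eq_zero] at e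
      rcases F2_cases (chi ε cc) with s | s
      · rw [s, sn_zero, one_zsmul] at e
        exact .inl e
      · rw [s, sn_one, neg_one_zsmul] at e
        exact .inr (neg_eq_iff_eq_neg.1 e))
  have l := lam_ne (C.two_T m) (C.T m)
  have r3 : ((jC r).re : ℂ) = jC r := Complex.conj_eq_iff_re.1 (by rw [← B2.jC_cc, r1])
  rw [lam_TT, if_pos rfl, ← r2] at l
  rw [fd, lam_TT, if_pos rfl, ← r2, map_mul, ← r3, ← Complex.ofReal_mul, Complex.ofReal_re]
  refine mul_self_pos.2 fun e => l ?_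
  rw [(map_eq_zero jC).1 (r3.symm.trans (by rw [e, Complex.ofReal_zero])), mul_zero]

theorem ln_loc (hp : 0 < C.disc) (hm : ¬ 0 < C.fd m) (h : C.Ln ε i) (hk : C.Z2 (Gv 0) k)
    (e : C.ep (k cc) (C.T i) = 0) : C.Loc 0 ε k := by
  obtain ⟨z, c⟩ := mid_cc hp hm h
  rcases (C.ep_T_eq_zero i).1 e with e | e
  · refine (C.loc_zero 0 ε).congr (fun _ _ => rfl) fun g hg => ?_
    rcases loc_Gv0 hg with rfl | rfl
    exacts [hk.one, e]
  · refine (C.loc_cob 0 ε (C.hf (C.T m))).congr (fun _ _ => rfl) fun g hg => ?_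
    rcases loc_Gv0 hg with rfl | rfl
    exacts [hk.one.trans z.one.symm, e.trans c.symm]

/-- Some class with the local conditions at all primes is not trivial at the real place. -/
theorem exists_cc (pt : PTK) (hp : 0 < C.disc) (h0 : C.G3 g0) (hm : ¬ 0 < C.fd m)
    (hi : C.Ln 1 i) (hj : C.Ln (-1) j) (hij : i ≠ j) : ∃ a ∈ C.RR g0, a cc ≠ 0 := by
  by_contra! c
  have k : ∀ b, C.Un b → (∀ v ∈ plc C.N0, v ≠ 0 → C.Loc v 1 b) → b cc = 0 := fun b h1 h2 => by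
    obtain ⟨S, s1, s2, s3⟩ := ig_norm hp h0 h1
    exact s3.symm.trans (c _ ⟨s2, fun v hv hN =>
      (h2 v (mem_plc.2 (.inr ⟨hv, hN⟩)) hv.ne_zero).add (ig_loc v s1)⟩)
  obtain ⟨z, e⟩ := mid_cc hp hm hj
  obtain ⟨y, y1, y2, y3⟩ := pi_single pt C (mem_plc.2 (.inl rfl)) z fun b hb => by
    rw [bv, tb_zero, cu, cu, z.one, ep_zero_left, add_zero,
      k b hb.1 fun v hv _ => hb.2 v (C.bd_iff.2 hv), map_zero, ep_zero_right]
  have t := hi _ (z.add (y1.1.mono le_top)) y2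
  rw [Pi.add_apply, k y y1 y3, add_zero, e, ep_T, if_neg hij.symm] at t
  exact one_ne_zero t

theorem pos_par {ε' : ℤ} (hp : 0 < C.disc) (h0 : C.G3 g0) (hm : ¬ 0 < C.fd m) (hi : C.Ln ε i)
    (hj : C.Ln ε' j) (hij : i ≠ j) (ha : a ∈ C.RR g0) (e : a cc = C.T i) :
    par (Nat.card (C.SS g0 ε)) = par (Nat.card (C.SS g0 ε')) + 1 := by
  have := finite_le h0 (X := C.SS g0 ε) SS_le
  have r : ∀ b ∈ C.RR g0, b ∈ C.SS g0 ε := fun b hb => ⟨hb, ln_loc hp hm hi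
    (hb.1.1.mono le_top) (by rw [ep_comm, ← e, ep_cc hp ha (RR_le hb)])⟩
  refine pi_par (pi_index (f := fun b => C.ep (b cc) (C.T j)) (r a ha) (by
    simp only [e, ep_T, if_neg hij]) (fun b hb => C.ep_add_left (hb.1.1.1.two _ trivial)
      (ha.1.1.two _ trivial) (C.two_T j)) fun b => ⟨fun hb => ⟨r b hb.1,
        hj b (hb.1.1.1.mono le_top) hb.2⟩, fun hb => ⟨hb.1.1, ln_loc hp hm hj
          (hb.1.1.1.1.mono le_top) hb.2⟩⟩) Nat.card_pos.ne'

theorem pos_res (hp : 0 < C.disc) (h0 : C.G3 g0) (hε : ε = 1 ∨ ε = -1)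
    (h : par (Nat.card (C.SS g0 ε)) = 1) : C.Res1 g0 ε := by
  obtain ⟨s, h1, h2⟩ := exists_s3 hp h0 hε
  exact res1_of h0 hε h1 (adm_SS h0 hε le_rfl fun b hb =>
    Cb_of_fpf ((SS_le hb).1.two s trivial) h2) SS_le (fun l t => t.three hε h2) h

theorem pos_odd (pt : PTK) (hp : 0 < C.disc) (h0 : C.G3 g0) :
    ∃ ε : ℤ, (ε = 1 ∨ ε = -1) ∧ C.Res1 g0 ε := by
  obtain ⟨i, j, hij, hi, hj, h⟩ := exists_Ln hp
  have t3 : ∀ i j : Fin 3, ∃ m, ¬ (m = i ∨ m = j) := by decide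
  obtain ⟨m, hm⟩ := t3 i j
  replace hm := mt (h m) hm
  obtain ⟨a, ha, a0⟩ := exists_cc pt hp h0 hm hi hj hij
  obtain ⟨t, e⟩ := (C.tors2 (ha.1.1.two cc trivial)).resolve_left a0
  rcases F2_cases (par (Nat.card (C.SS g0 1))) with k | k
  swap
  · exact ⟨1, .inl rfl, pos_res hp h0 (.inl rfl) k⟩
  refine ⟨-1, .inr rfl, pos_res hp h0 (.inr rfl) ?_⟩
  rcases h t (ob_inf hp (mem_U_one.1 ha.1).1 ha.2 e) with rfl | rfl
  · exact CharTwo.add_eq_zero.1 ((pos_par hp h0 hm hi hj hij ha e).symm.trans k)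
  · rw [pos_par hp h0 hm hj hi hij.symm ha e, k, zero_add]

theorem res_odd (pt : PTK) (h0 : C.G3 g0) : ∃ ε : ℤ, (ε = 1 ∨ ε = -1) ∧ C.Res1 g0 ε :=
  C.disc_ne.lt_or_gt.elim (fun h => neg_odd pt h h0) fun h => pos_odd pt h h0

end Cu

end Pool.Agent.SP
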