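import Pool.Agent.Lib.MP_696deb_nt.SP.PI3

/-! Curves without rational points of order two: counting cocycles. -/

set_option autoImplicit false

open scoped Classical
open Finset Function

namespace Pool.Agent.SP

open Pool.Agent.Lib.MP_696deb_nt Pool.Agent.Lib.MP_696deb_nt.Sm
open Pool.Agent.Lib.MP_696deb_nt.B2 (cc jC)

namespace Cu

variable {C : Cu} {g0 : GQ} {D : ℤ}

theorem pi_four (C : Cu) : Nat.card {P : C.A | 2 ^ 1 • P = 0} = 4 := by
  rw [Nat.card_coe_set_eq, C.card_tors, pow_one]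

theorem G3.cob_inj (h0 : C.G3 g0) {S S' : C.A} {n : ℕ} (h : 2 ^ n • S = 0) (h' : 2 ^ n • S' = 0)
    (e : C.cob D S g0 = C.cob D S' g0) : S = S' := by
  refine sub_eq_zero.1 (h0.fix (n := n) (by rw [smul_sub, h, h', sub_zero]) ?_)
  rw [cob, cob, h0.tw, h0.tw] at e
  rw [map_sub, sub_eq_sub_iff_sub_eq_sub, e]

theorem sel_one {c : GQ → C.A} : C.IsSel D 1 c ↔ C.Z2 ⊤ c ∧ ∀ v, Pv v → C.Loc v D c :=
  ⟨fun h => ⟨h.z2, h.loc⟩, fun h => ⟨fun g => h.1.two g trivial, fun g k => by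
    rw [C.tw_two D g (h.1.two k trivial), h.1.coc g trivial k trivial], h.1.sm, h.2⟩⟩

/-- The number of Selmer cocycles of level two. -/
theorem card_sel (h0 : C.G3 g0) (D : ℤ) :
    Nat.card {c | C.IsSel D 1 c} = 4 * Nat.card (C.SL g0 D) := by
  have z : ∀ {S : C.A}, 2 ^ 1 • S = 0 → C.Z2 ⊤ (C.cob D S) := fun h =>
    (z2_cob ⊤ h).congr fun g _ => by rw [cob, C.tw_two D g h]
  rw [← C.pi_four, ← Nat.card_prod]
  refine (Nat.card_eq_of_bijective
    (fun t : {P : C.A | 2 ^ 1 • P = 0} × C.SL g0 D => (⟨t.2.1 + C.cob D t.1.1, sel_one.2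
      ⟨t.2.2.1.add (z t.1.2), fun v hv => (t.2.2.2.2 v hv).add (C.loc_cob v D _)⟩⟩ :
        {c | C.IsSel D 1 c})) ⟨fun t u e => ?_, fun c => ?_⟩).symm
  · replace e : t.2.1 + C.cob D t.1.1 = u.2.1 + C.cob D u.1.1 := congrArg Subtype.val e
    have e1 := congrFun e g0
    rw [Pi.add_apply, Pi.add_apply, t.2.2.2.1, u.2.2.2.1, zero_add, zero_add] at e1
    have e2 := h0.cob_inj t.1.2 u.1.2 e1
    exact Prod.ext (Subtype.ext e2) (Subtype.ext (add_right_cancel (e.trans (by rw [e2]))))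
  · obtain ⟨S, h1, h2⟩ := c.2.z2.norm h0
    refine ⟨(⟨S, h1⟩, ⟨c - C.cob D S, c.2.z2.sub (z h1), ?_, fun v hv => ?_⟩),
      Subtype.ext (sub_add_cancel _ _)⟩
    · rw [Pi.sub_apply, h2, cob, h0.tw, sub_self]
    · rw [sub_eq_add_neg, ← neg_one_zsmul]
      exact (c.2.loc v hv).add ((C.loc_cob v D S).zsmul _)

/-- The number of cocycles of level two that come from torsion points. -/
theorem card_cob (h0 : C.G3 g0) (D : ℤ) : Nat.card {c : GQ → C.A | (∀ g, 2 • c g = 0) ∧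
    ∃ (S : C.A) (m : ℕ), 2 ^ m • S = 0 ∧ c = C.cob D S} = 4 := by
  rw [← C.pi_four]
  refine (Nat.card_eq_of_bijective (fun t : {P : C.A | 2 ^ 1 • P = 0} => (⟨C.cob D t.1, fun g => by
      rw [← Pi.smul_apply, ← cob_nsmul, show 2 • t.1 = 0 from t.2, cob, tw_zero, sub_zero],
    t.1, 1, t.2, rfl⟩ : {c : GQ → C.A | (∀ g, 2 • c g = 0) ∧
      ∃ (S : C.A) (m : ℕ), 2 ^ m • S = 0 ∧ c = C.cob D S})) ⟨fun t u e => Subtype.ext
        (h0.cob_inj t.2 u.2 (congrFun (congrArg Subtype.val e) g0)), ?_⟩).symm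
  rintro ⟨_, h1, S, m, h2, rfl⟩
  refine ⟨⟨S, h0.cob_inj (D := D) (n := m) (S' := 0) (by rw [smul_comm, h2, smul_zero])
    (smul_zero _) ?_⟩, rfl⟩
  rw [pow_one, cob_nsmul, Pi.smul_apply, h1, cob, tw_zero, sub_zero]

theorem par_four : par 4 = 0 := by
  rw [show 4 = 2 * 2 from rfl, par_mul two_ne_zero two_ne_zero, par_two]
  rfl

/-- An odd normalised Selmer group gives an odd number of generators. -/
theorem par_sel (h0 : C.G3 g0) (h : par (Nat.card (C.SL g0 D)) = 1) :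
    par (Nat.card {c | C.IsSel D 1 c}) = 1 := by
  rw [card_sel h0, par_mul four_ne_zero fun e => ?_, par_four, h, zero_add]
  rw [e] at h
  simp [par] at h

end Cu

end Pool.Agent.SP
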