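import Pool.Agent.Lib.MP_696deb_nt.SP.PA0

/-! Two-cocycles that split on a subgroup of index two. -/

set_option autoImplicit false

open scoped Classical
open Finset Function

namespace Pool.Agent.SP

open Pool.Agent.Lib.MP_696deb_nt Pool.Agent.Lib.MP_696deb_nt.Sm
open Pool.Agent.Lib.MP_696deb_nt.B2 (cc jC Plc Op Zu Rs Z1 H0 GoodA Apart Away cupb)
open Pool.Agent.Lib.MP_696deb_nt.B6 (W2 N2 sg dW)

variable {r : GQ →* N2} {w : GQ → GQ → W2}

theorem py_cases (g : GQ) : chi (-1) g = 0 ∨ chi (-1) g = 1 ∧ chi (-1) (g * cc⁻¹) = 0 := by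
  have e := chi_mul_g (-1) (g * cc⁻¹) cc
  rw [inv_mul_cancel_right, tbb_cc] at e
  revert e
  generalize chi (-1) g = a
  generalize chi (-1) (g * cc⁻¹) = b
  revert a b
  decide

theorem py_alg (h : ∀ g l k, sg r g (w l k) + w g (l * k) = w (g * l) k + w g l)
    (h0 : ∀ g ∈ HF, ∀ l ∈ HF, w g l = 0) (h1 : ∀ g ∈ HF, w g cc = 0) (g l : GQ) :
    w g l = (chi (-1) g).val • sg r g (sg r cc⁻¹ (w cc l)) := by
  have h2 : ∀ g ∈ HF, ∀ l, w g l = 0 := fun g hg l => by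
    rcases py_cases l with k | ⟨-, k⟩
    · exact h0 g hg l k
    · simpa [h1 _ k, h1 _ (HF.mul_mem hg k), h0 g hg _ k] using h g (l * cc⁻¹) cc
  rcases py_cases g with k | ⟨k, j⟩
  · rw [h2 g k, k, ZMod.val_zero, zero_smul]
  · rw [k, ZMod.val_one, one_smul, ← B6.sg_mul]
    simpa [h2 _ j] using (h (g * cc⁻¹) cc l).symm

theorem py_coc {y : GQ → W2} (h : ∀ g l k, sg r g (w l k) + w g (l * k) = w (g * l) k + w g l)
    (e : ∀ g l, w g l = (chi (-1) g).val • sg r g (y l)) (l k : GQ) :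
    y (l * k) = y l + sg r l (y k) := by
  have j := congrArg (sg r cc⁻¹) (h cc l k)
  simp only [e, chi_mul_g, tbb_cc, ZMod.val_one, one_smul, map_add, map_nsmul, ← B6.sg_mul,
    inv_mul_cancel, inv_mul_cancel_left, B6.sg_one] at j
  rcases py_cases l with i | ⟨i, -⟩
  · simpa [i, ZMod.val_one, add_comm] using j
  · rw [i, show (1 + 1 : F2) = 0 from rfl, ZMod.val_zero, ZMod.val_one, one_smul, zero_smul,
      zero_add] at j
    rw [← j, add_right_comm, B6.W2.add_self, zero_add]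

theorem gysin (hs : B2.Sm ⊤ r) (h : C2R r ⊤ w) (k : SplR r HF w) : ∃ y β : GQ → W2,
    B2.Coc ⊤ (sg r) y ∧ B2.Sm ⊤ β ∧ ∀ g l, w g l =
      (chi (-1) g).val • sg r g (y l) + (β g + sg r g (β l) - β (g * l)) := by
  obtain ⟨b0, k1, k2⟩ := k
  obtain ⟨b, b1, b2⟩ := k1.extend
  obtain ⟨⟨U, u1, u2, u3⟩, hc⟩ := h
  have s1 : B2.Sm ⊤ fun g => w g cc :=
    ⟨U, u1, u2, fun g hg l hl e => u3 g hg l hl cc trivial cc trivial e (by simp)⟩
  have s2 : B2.Sm ⊤ fun g => w cc g :=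
    ⟨U, u1, u2, fun g hg l hl e => u3 cc trivial cc trivial g hg l hl (by simp) e⟩
  obtain ⟨β, c1, c2, c3⟩ : ∃ β : GQ → W2, B2.Sm ⊤ β ∧ (∀ g ∈ HF, β g = b0 g) ∧
      ∀ g ∈ HF, β (g * cc) = b0 g - w g cc := by
    refine ⟨fun g => if chi (-1) g = 0 then b g else b (1 * g * cc⁻¹) - w (1 * g * cc⁻¹) cc,
      ((lc_chi (-1)).comp₂ b1 Prod.mk).comp₂ ((b1.comp₂ s1 fun x y => x - y).conj 1 cc⁻¹
        fun _ _ => trivial) fun x y => if x.1 = 0 then x.2 else y,
      fun g hg => (if_pos hg).trans (b2 g hg), fun g hg => ?_⟩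
    have e : ¬ chi (-1) (g * cc) = 0 := by
      rw [chi_mul_g, mem_HF.1 hg, tbb_cc]
      decide
    simp only [if_neg e, one_mul, mul_inv_cancel_right, b2 g hg]
  have c4 : β cc = 0 := by
    have e1 := hc 1 trivial 1 trivial cc trivial
    have e2 := k2 1 HF.one_mem 1 HF.one_mem
    have e3 := c3 1 HF.one_mem
    simp only [one_mul, B6.sg_one, add_sub_cancel_right, add_right_inj] at e1 e2 e3
    rw [e3, e1, e2, sub_self]
  have hv : ∀ g l k, sg r g (w l k - (β l + sg r l (β k) - β (l * k))) +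
      (w g (l * k) - (β g + sg r g (β (l * k)) - β (g * (l * k)))) =
      w (g * l) k - (β (g * l) + sg r (g * l) (β k) - β (g * l * k)) +
        (w g l - (β g + sg r g (β l) - β (g * l))) := fun g l k => by
    simp only [map_sub, map_add, B6.sg_mul, mul_assoc]
    linear_combination (exp := 1) hc g trivial l trivial k trivial
  have e := py_alg (w := fun g l => w g l - (β g + sg r g (β l) - β (g * l))) hv
    (fun g hg l hl => by rw [c2 g hg, c2 l hl, c2 _ (HF.mul_mem hg hl), k2 g hg l hl, sub_self])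
    fun g hg => by rw [c2 g hg, c3 g hg, c4, map_zero]; abel
  refine ⟨_, β, ⟨?_, fun g _ l _ => py_coc hv e g l⟩, c1, fun g l => sub_eq_iff_eq_add.1 (e g l)⟩
  exact ((s2.comp₂ c1 Prod.mk).comp₂ (c1.conj cc 1 fun _ _ => trivial) fun x y =>
    sg r cc⁻¹ (x.1 - (β cc + sg r cc x.2 - y))).congr fun g _ => by rw [mul_one]

theorem coc_aN {H : Subgroup GQ} {z : GQ → W2 × W2} : B2.Coc H (aN r) z ↔
    B2.Coc H (sg r) (fun g => (z g).2) ∧ B2.Sm H (fun g => (z g).1) ∧ ∀ g ∈ H, ∀ l ∈ H,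
      (chi (-1) g).val • sg r g (z l).2 = (z g).1 + sg r g (z l).1 - (z (g * l)).1 := by
  have e : ∀ a b c d : W2, d = a + (b + c) ↔ c = a + b - d := by decide
  exact ⟨fun k => ⟨⟨k.1.comp Prod.snd, fun g hg l hl => congrArg Prod.snd (k.2 g hg l hl)⟩,
    k.1.comp Prod.fst, fun g hg l hl => (e _ _ _ _).1 (congrArg Prod.fst (k.2 g hg l hl))⟩,
    fun k => ⟨k.2.1.comp₂ k.1.1 Prod.mk,
      fun g hg l hl => Prod.ext ((e _ _ _ _).2 (k.2.2 g hg l hl)) (k.1.2 g hg l hl)⟩⟩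

end Pool.Agent.SP
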