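import Pool.Agent.Lib.MP_696deb_nt.SP.PE
import Pool.Agent.Lib.MP_696deb_nt.SP.PF2
import Pool.Agent.Lib.MP_696deb_nt.SP.PG
import Pool.Agent.Lib.MP_696deb_nt.SP.PH
import Pool.Agent.Lib.MP_696deb_nt.SP.PY

/-! The local-global principle for two-cocycles over the rational numbers. -/

set_option autoImplicit false

open scoped Classical
open Finset Function

namespace Pool.Agent.SP

open Pool.Agent.Lib.MP_696deb_nt Pool.Agent.Lib.MP_696deb_nt.Sm
open Pool.Agent.Lib.MP_696deb_nt.B2 (cc jC Plc Op Zu Rs Z1 H0 GoodA Apart Away cupb)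
open Pool.Agent.Lib.MP_696deb_nt.B6 (W2 N2 sg dW)

variable {r : GQ →* N2} {N : ℕ}

theorem pj_cup (p : GQ → W2 × W2) {u : GQ → W2 × W2} (hu : ∀ l, (u l).2 = 0) :
    cupb bN (aN r) p u = cupb dW (sg r) (fun g => (p g).2) fun g => (u g).1 := by
  funext g l
  simp only [cupb, bN_apply, aN_apply, hu, map_zero, smul_zero, add_zero, zero_add]

theorem pj_snd {s : Finset Plc} {z : GQ → W2 × W2} (hz : z ∈ Zu ⊤ (aN r) s) :
    (fun g => (z g).2) ∈ Zu ⊤ (sg r) s :=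
  ⟨⟨(coc_aN.1 hz.1.1).1, fun _ e => absurd trivial e⟩, fun w hw σ hσ =>
    congrArg Prod.snd (hz.2 w hw σ hσ)⟩

theorem pj_fst {s : Finset Plc} {z : GQ → W2 × W2} (hz : z ∈ Zu ⊤ (aN r) s)
    (k : ∀ g, (z g).2 = 0) : (fun g => (z g).1) ∈ Zu ⊤ (sg r) s :=
  ⟨⟨⟨(coc_aN.1 hz.1.1).2.1, fun g hg l hl => by
    have e := (coc_aN.1 hz.1.1).2.2 g hg l hl
    rw [k, map_zero, smul_zero] at e
    exact (sub_eq_zero.1 e.symm).symm⟩, fun _ e => absurd trivial e⟩, fun w hw σ hσ =>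
    congrArg Prod.fst (hz.2 w hw σ hσ)⟩

theorem pj_cob (h : Ur r N) (S : W2 × W2) : B2.cob (aN r) S ∈ Zu ⊤ (aN r) (plS N) :=
  ⟨⟨B6.cob_coc0 (dual3_aN h.sm ⊤).zero.act S, fun _ e => absurd trivial e⟩, fun w hw σ hσ =>
    sub_eq_zero.2 ((h.goodN w hw).2 σ hσ S)⟩

theorem norm_glob (h : Ur r N) (hb : BigW r N) {y : GQ → W2} (hy : y ∈ Zu ⊤ (sg r) (plS N))
    (x : ℕ → GQ → W2) (hx : ∀ v ∈ plc N, B2.Coc (Gv v) (aN r) fun g => (x v g, y g)) :
    ∃ x' : GQ → W2, B2.Coc ⊤ (aN r) fun g => (x' g, y g) := by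
  have hd := dual3_aN h.sm
  have big : ∀ u ∈ Zu ⊤ (sg r) (plS N), (∀ v ∈ plc N, ∃ S, ∀ g ∈ Gv v, u g = B2.cob (sg r) S g) →
      ∃ S, ∀ g, u g = (B2.cob (aN r) (0, S) g).2 := fun u hu k =>
    hb u hu fun v h1 h2 => k v (mem_plc.2 (.inr ⟨h1, h2⟩))
  obtain ⟨z, hz, k⟩ := pt_top (hd ⊤) h.two h.goodN (inq_aN h)
    (fun v z => ∃ S, ∀ g ∈ Gv v, (z g).2 = B2.cob (sg r) S g)
    (fun v z z' ⟨S, k⟩ ⟨S', k'⟩ => ⟨S + S', fun g hg => by
      rw [Pi.add_apply, Prod.snd_add, k g hg, k' g hg, B2.cob, B2.cob, B2.cob, map_add]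
      abel⟩)
    (fun v z z' ⟨S, k⟩ e => ⟨S, fun g hg => by rw [e g hg, k g hg]⟩)
    (fun v S => ⟨S.2, fun _ _ => rfl⟩) (fun v g => (x v g, y g)) hx fun z hz k => by
      obtain ⟨S, hS⟩ := big _ (pj_snd hz) k
      have h1 := sub_mem hz (pj_cob h (0, S))
      have h2 : ∀ g, ((z - B2.cob (aN r) (0, S)) g).2 = 0 := fun g => sub_eq_zero.2 (hS g)
      rw [← recip_top (dual3_dW h.sm ⊤).zero h.two h.good hy (pj_fst h1 h2)]
      refine sum_congr rfl fun v hv => ?_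
      have d := (hd (Gv v)).zero
      have c1 := B6.c2_cupb0 d (hx v hv) (h1.1.1.mono le_top)
      have c2 := B6.c2_cupb0 d (hx v hv) ((pj_cob h (0, S)).1.1.mono le_top)
      have e := iv_add (tc_pv hv) c1 c2
      rw [(iv_eq_zero (tc_pv hv) c2).2 (B6.spl_cupb_right0 d (hx v hv) fun _ _ => rfl), add_zero]
        at e
      refine Eq.trans (congrArg (iv v) (funext₂ fun g l => ?_))
        (e.trans (congrArg (iv v) (pj_cup _ h2)))
      simp only [Pi.add_apply, cupb, Pi.sub_apply, map_sub, sub_add_cancel]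
  obtain ⟨S, hS⟩ := big _ (add_mem hy (pj_snd hz)) fun v hv =>
    pk_ker (tc_pv hv) (dual3_dW h.sm _) ((add_mem hy (pj_snd hz)).1.1.mono le_top) fun c hc => by
      have e := k v hv (fun g => (c g, 0)) (coc_aN.2 ⟨B2.Coc.zero _ _, hc.1, fun g hg l hl => by
        simp only [map_zero, smul_zero, hc.2 g hg l hl, sub_self]⟩)
        ⟨0, fun g _ => by rw [B2.cob, map_zero, sub_zero]⟩
      rw [pj_cup _ fun _ => rfl] at e
      exact e
  refine ⟨fun g => ((z + B2.cob (aN r) (0, S)) g).1,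
    (add_mem hz (pj_cob h (0, S))).1.1.congr fun g _ => Prod.ext rfl ?_⟩
  rw [Pi.add_apply, Prod.snd_add, ← hS, Pi.add_apply, add_left_comm, B6.W2.add_self, add_zero]

theorem sha : ShaStmt := by
  intro r w hs hw hl
  obtain ⟨y, β, hy, hβ, e⟩ := gysin hs hw (sha_tc hs op_HF tc_HF (hw.mono le_top) fun v =>
    (splR_all hs hw hl v).mono inf_le_right)
  choose! γ h1 h2 using hl
  obtain ⟨N1, k1⟩ := exists_ur hs
  obtain ⟨N2, k2⟩ := exists_zu hs hy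
  obtain ⟨N, k3, k4⟩ := exists_bigW hs (max N1 N2)
  obtain ⟨x, hx⟩ := norm_glob (k1.mono (le_of_max_le_left k3)) k4 (k2 N (le_of_max_le_right k3))
    (fun v g => γ v g - β g) fun v hv => coc_aN.2 ⟨hy.mono le_top,
      (h1 v (tc_pv hv)).comp₂ (hβ.mono le_top) (· - ·), fun g hg l hl => by
        have e1 := (e g l).symm.trans (h2 v (tc_pv hv) g hg l hl)
        dsimp only
        rw [eq_sub_of_add_eq e1, map_sub]
        abel⟩
  obtain ⟨-, x1, x2⟩ := coc_aN.1 hx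
  refine ⟨fun g => x g + β g, x1.comp₂ hβ (· + ·), fun g hg l hl => ?_⟩
  rw [e, x2 g hg l hl, map_add]
  dsimp only
  abel

end Pool.Agent.SP
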