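import Pool.Agent.Lib.MP_696deb_nt.SP.PA
import Pool.Agent.Lib.MP_696deb_nt.SP.PH

/-! Selmer cocycles have a global half. -/

set_option autoImplicit false

open scoped Classical
open Finset Function

namespace Pool.Agent.SP

open Pool.Agent.Lib.MP_696deb_nt Pool.Agent.Lib.MP_696deb_nt.Sm
open Pool.Agent.Lib.MP_696deb_nt.B2 (cc jC Plc Op Zu Rs Z1 H0 GoodA Apart Away cupb)
open Pool.Agent.Lib.MP_696deb_nt.B6 (W2 N2 sg dW)

theorem Cu.lft (sha : ShaStmt) (C : Cu) (D : ℤ) : C.Lft D := by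
  intro n c hc
  obtain ⟨r, ι, h⟩ := C.exists_co
  obtain ⟨a, ha, a2⟩ : ∃ a : GQ → C.A, LC a ∧ ∀ g, 2 • a g = c g :=
    ⟨fun g => C.hf (c g), hc.lc.comp _, fun g => Cu.two_hf _⟩
  obtain ⟨w, hw, w2⟩ : ∃ w : GQ → GQ → W2, B2.Sm2 ⊤ w ∧
      ∀ g k, ι (w g k) = a g + C.tw D g (a k) - a (g * k) :=
    ⟨fun g k => invFun ι (a g + C.tw D g (a k) - a (g * k)),
      ((ha.left.comp₂ ((lc_chi D).left.comp₂ (Cu.ki_sm2_act ha) fun x P => sn x • P)
        (· + ·)).comp₂ ha.mul (· - ·)).comp (invFun ι), fun g k => h.inv (by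
      rw [smul_sub, smul_add, ← C.tw_nsmul, a2, a2, a2, hc.coc g k, sub_self])⟩
  have e (g : GQ) (x : W2) : ι (sg r g x) = C.tw D g (ι x) := by
    rw [C.tw_two D g (h.two x), h.act]
  obtain ⟨β, b1, b2⟩ := sha r w h.sm ⟨hw, fun g _ k _ l _ => h.inj (by
    simp only [map_add, e, w2, C.tw_add, C.tw_sub, C.tw_mul, mul_assoc]
    abel)⟩ fun v hv => by
      obtain ⟨P, hP⟩ := hc.loc v hv
      have k (g : GQ) (hg : g ∈ Gv v) :
          ι (invFun ι (a g - C.cob D (C.hf P) g)) = a g - C.cob D (C.hf P) g := h.inv (by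
        rw [smul_sub, ← Pi.smul_apply _ (C.cob _ _), ← Cu.cob_nsmul, Cu.two_hf, a2, hP g hg,
          sub_self])
      refine ⟨fun g => invFun ι (a g - C.cob D (C.hf P) g),
        ((ha.comp₂ (C.lc_cob D (C.hf P)) (· - ·)).comp (invFun ι)).mono le_top,
        fun g hg l hl => h.inj ?_⟩
      rw [map_sub, map_add, e, k g hg, k l hl, k _ (mul_mem hg hl), w2, C.tw_sub, C.cob_mul]
      abel
  refine ⟨fun g => a g - ι (β g), fun g k => ?_, ha.comp₂ b1 fun P x => P - ι x,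
    funext fun g => ?_⟩
  · have := congrArg ι (b2 g trivial k trivial)
    rw [w2, map_sub, map_add, e] at this
    beta_reduce
    rw [C.tw_sub]
    linear_combination (norm := abel) -this
  · rw [Pi.smul_apply, smul_sub, a2, h.two, sub_zero]

end Pool.Agent.SP
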