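import Pool.Agent.Lib.MP_696deb_nt.B2.GWb

/-! The existence form of global duality: algebra. -/

set_option autoImplicit false

open scoped Classical
open Finset Function

namespace Pool.Agent.SP

open Pool.Agent.Lib.MP_696deb_nt.B2

variable {n : ℕ} [NeZero n]

theorem pk_alg {V V' Z Z' : Type} [AddCommGroup V] [AddCommGroup V'] [AddCommGroup Z]
    [AddCommGroup Z'] [Finite V] [Finite V'] (P : V →+ V' →+ ZMod n)
    (l : Z →+ V) (l' : Z' →+ V') (hJ : l'.range ⊔ P.flip.ker = ann P (l.range ⊔ P.ker))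
    {U : AddSubgroup V'} (hU : P.flip.ker ≤ U)
    {x : V} (hx : ∀ b, l' b ∈ U → P x (l' b) = 0) : ∃ z, ∀ u ∈ U, P (x + l z) u = 0 := by
  have e := ann_ann P ((l.range ⊔ P.ker) ⊔ ann P.flip U)
  rw [ann_sup, ← hJ, show ann P (ann P.flip U) = U ⊔ P.flip.ker from ann_ann P.flip U,
    sup_eq_left.2 hU] at e
  have m : x ∈ (l.range ⊔ P.ker) ⊔ ann P.flip U ⊔ P.ker := by
    rw [← e]
    rintro _ ⟨k1, k2⟩
    obtain ⟨_, ⟨b, rfl⟩, k, hk, rfl⟩ := AddSubgroup.mem_sup.1 k1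
    show P x (l' b + k) = 0
    rw [map_add, hx b ((U.add_mem_cancel_right (hU hk)).1 k2), zero_add]
    exact DFunLike.congr_fun hk x
  obtain ⟨_, m1, k, hk, rfl⟩ := AddSubgroup.mem_sup.1 m
  obtain ⟨_, m2, w, hw, rfl⟩ := AddSubgroup.mem_sup.1 m1
  obtain ⟨_, ⟨z, rfl⟩, k', hk', rfl⟩ := AddSubgroup.mem_sup.1 m2
  refine ⟨-z, fun u hu => ?_⟩
  rw [show l z + k' + w + k + l (-z) = k' + w + k by rw [map_neg]; abel, map_add, map_add,
    show P k = 0 from hk, show P k' = 0 from hk', zero_add, add_zero]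
  exact hw u hu

theorem pk_cnt {V V' Z Z' : Type} [AddCommGroup V] [AddCommGroup V'] [AddCommGroup Z]
    [AddCommGroup Z'] [Finite V] [Finite V'] [Finite Z] [Finite Z'] (P : V →+ V' →+ ZMod n)
    (l : Z →+ V) (l' : Z' →+ V') (h : ∀ z z', P (l z) (l' z') = 0)
    (hb : Nat.card (P.ker.comap l) * Nat.card (P.flip.ker.comap l') * Nat.card V' ≤
      Nat.card Z * Nat.card Z' * Nat.card P.flip.ker) :
    l'.range ⊔ P.flip.ker = ann P (l.range ⊔ P.ker) := by
  have h1 := GWb_comap l (le_top (a := P.ker))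
  have h2 := GWb_comap l' (le_top (a := P.flip.ker))
  rw [AddSubgroup.comap_top, AddSubgroup.card_top, inf_top_eq] at h1 h2
  have hK : ∀ U, P.flip.ker ≤ ann P U := fun U y hy x _ => DFunLike.congr_fun hy x
  refine eq_ann P ?_ ?_
  · rw [ann_sup]
    refine sup_le (le_inf ?_ fun y _ x hx => DFunLike.congr_fun hx y) (le_inf (hK _) (hK _))
    rintro _ ⟨z', rfl⟩ _ ⟨z, rfl⟩
    exact h z z'
  rw [inf_eq_right.2 le_sup_right]
  refine Nat.le_of_mul_le_mul_left (c := Nat.card (P.ker.comap l) *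
    Nat.card (P.flip.ker.comap l')) ?_ (mul_pos Nat.card_pos Nat.card_pos)
  calc _ = Nat.card (P.ker.comap l) * Nat.card (P.flip.ker.comap l') * Nat.card V' *
        Nat.card P.ker := by ring
    _ ≤ _ := Nat.mul_le_mul_right _ hb
    _ = Nat.card Z * Nat.card P.ker * (Nat.card Z' * Nat.card P.flip.ker) := by ring
    _ = _ := by rw [h1, h2]; ring

theorem pk_lag {V V' Z Z' : Type} [AddCommGroup V] [AddCommGroup V'] [AddCommGroup Z]
    [AddCommGroup Z'] [Finite V] [Finite V'] (P : V →+ V' →+ ZMod n)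
    (l : Z →+ V) (l' : Z' →+ V') (h : ∀ z z', P (l z) (l' z') = 0)
    (k : ∀ x, (∀ b, P x (l' b) = 0) → ∃ z, x + l z ∈ P.ker) :
    l'.range ⊔ P.flip.ker = ann P (l.range ⊔ P.ker) := by
  rw [← ann_ann P.flip]
  refine congrArg (ann P) (le_antisymm (fun x hx => ?_) (sup_le ?_ fun x hx y _ =>
    DFunLike.congr_fun hx y))
  · obtain ⟨z, hz⟩ := k x fun b => hx _ ⟨b, rfl⟩
    exact AddSubgroup.mem_sup.2 ⟨_, ⟨-z, rfl⟩, _, hz, by rw [map_neg]; abel⟩
  · rintro _ ⟨z, rfl⟩ _ ⟨z', rfl⟩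
    exact h z z'

theorem pk_pi {ι : Type} [Fintype ι] {V V' : ι → Type} [∀ i, AddCommGroup (V i)]
    [∀ i, AddCommGroup (V' i)] [∀ i, Finite (V i)] [∀ i, Finite (V' i)] {Z Z' : Type}
    [AddCommGroup Z] [AddCommGroup Z'] (p : ∀ i, V i →+ V' i →+ ZMod n)
    (l : ∀ i, Z →+ V i) (l' : ∀ i, Z' →+ V' i) (h : ∀ z z', ∑ i, p i (l i z) (l' i z') = 0)
    (hb : (Finite Z ∧ Finite Z' ∧ Nat.card {z // ∀ i, l i z ∈ (p i).ker} *
      Nat.card {z // ∀ i, l' i z ∈ (p i).flip.ker} * ∏ i, Nat.card (V' i) ≤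
        Nat.card Z * Nat.card Z' * ∏ i, Nat.card (p i).flip.ker) ∨ ∀ x : ∀ i, V i,
      (∀ b, ∑ i, p i (x i) (l' i b) = 0) → ∃ z, ∀ i, x i + l i z ∈ (p i).ker)
    {U : ∀ i, AddSubgroup (V' i)} (hU : ∀ i, (p i).flip.ker ≤ U i) {x : ∀ i, V i}
    (hx : ∀ b, (∀ i, l' i b ∈ U i) → ∑ i, p i (x i) (l' i b) = 0) :
    ∃ z, ∀ i, ∀ u ∈ U i, p i (x i + l i z) u = 0 := by
  obtain ⟨P, hP⟩ : ∃ P : (∀ i, V i) →+ (∀ i, V' i) →+ ZMod n, ∀ x y, P x y = ∑ i, p i (x i) (y i) :=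
    ⟨∑ i, ((p i).comp (Pi.evalAddMonoidHom V i)).compl₂ (Pi.evalAddMonoidHom V' i), fun x y => by
      simp [AddMonoidHom.finsetSum_apply]⟩
  have e1 : ∀ i x y, P (Pi.single i x) y = p i x (y i) := fun i x y => by
    rw [hP, Finset.sum_eq_single i (fun j _ hj => by simp [Pi.single_eq_of_ne hj]) (by simp),
      Pi.single_eq_same]
  have e2 : ∀ i x y, P x (Pi.single i y) = p i (x i) y := fun i x y => by
    rw [hP, Finset.sum_eq_single i (fun j _ hj => by simp [Pi.single_eq_of_ne hj]) (by simp),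
      Pi.single_eq_same]
  have k1 : P.ker = AddSubgroup.pi Set.univ fun i => (p i).ker := AddSubgroup.ext fun x =>
    ⟨fun hx i _ => AddMonoidHom.ext fun y => (e2 i x y).symm.trans (DFunLike.congr_fun hx _),
      fun hx => AddMonoidHom.ext fun y => (hP x y).trans (Finset.sum_eq_zero fun i _ =>
        DFunLike.congr_fun (hx i trivial) _)⟩
  have k2 : P.flip.ker = AddSubgroup.pi Set.univ fun i => (p i).flip.ker := AddSubgroup.ext fun y =>
    ⟨fun hy i _ => AddMonoidHom.ext fun x => (e1 i x y).symm.trans (DFunLike.congr_fun hy _),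
      fun hy => AddMonoidHom.ext fun x => (hP x y).trans (Finset.sum_eq_zero fun i _ =>
        DFunLike.congr_fun (hy i trivial) _)⟩
  obtain ⟨z, hz⟩ := pk_alg P (AddMonoidHom.pi l) (AddMonoidHom.pi l') (by
      rcases hb with ⟨_, _, hb⟩ | hb
      · exact pk_cnt P _ _ (fun z z' => (hP _ _).trans (h z z'))
          (by rwa [k1, k2, GWb_card_comap, GWb_card_comap, GWb_card_pi, Nat.card_pi])
      · exact pk_lag P _ _ (fun z z' => (hP _ _).trans (h z z')) fun x k =>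
          (hb x fun b => (hP _ _).symm.trans (k b)).imp fun z hz => k1 ▸ fun i _ => hz i)
    (U := AddSubgroup.pi Set.univ U) (k2 ▸ fun x hx i hi => hU i (hx i hi)) (x := x)
    fun b hb => (hP _ _).trans (hx b fun i => hb i trivial)
  exact ⟨z, fun i u hu => (e2 i _ u).symm.trans (hz _ ((AddSubgroup.single_mem_pi i u).2 fun _ => hu))⟩

end Pool.Agent.SP
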