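import Pool.Agent.Lib.MP_696deb_nt.SP.TA
import Pool.Agent.Lib.MP_696deb_nt.SP.TBb

/-! Global duality for quadratic characters. -/

set_option autoImplicit false

open scoped Classical
open Finset

namespace Pool.Agent.SP

open Pool.Agent.Lib.MP_696deb_nt Pool.Agent.Lib.MP_696deb_nt.Sm
open Pool.Agent.Lib.MP_696deb_nt.B2 (jC cc)

theorem tc_sq {N : ℕ} (hN : 2 ≤ N) {t : GQ → F2} (h : t ∈ Ch N) :
    ∃ m : ℤ, Squarefree m ∧ (∀ q : ℕ, q.Prime → (q : ℤ) ∣ m → q ≤ N) ∧ t = chi m := by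
  obtain ⟨m, hm, rfl⟩ := kummer (fun g g' => h.1.2 g trivial g' trivial) h.1.1
  refine ⟨m, hm, fun q hq hd => not_lt.1 fun k => ?_, rfl⟩
  have := Fact.mk hq
  have h1 := h.2 q hq k
  rw [chi_sig hq (by omega) hm.ne_zero, ZMod.natCast_eq_zero_iff] at h1
  have h2 := ((padicValInt_dvd_iff 1 m).1 (by rwa [pow_one])).resolve_left hm.ne_zero
  have h3 := hm q (sq (q : ℤ) ▸ (padicValInt_dvd_iff 2 m).2 (Or.inr (by omega)))
  exact hq.ne_one (by simpa using Int.isUnit_iff_natAbs_eq.1 h3)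

theorem mem_Ch {N : ℕ} (hN : 2 ≤ N) {t : GQ → F2} : t ∈ Ch N ↔
    ∃ m : ℤ, m ≠ 0 ∧ (∀ q : ℕ, q.Prime → (q : ℤ) ∣ m → q ≤ N) ∧ t = chi m := by
  refine ⟨fun h => (tc_sq hN h).imp fun m k => ⟨k.1.ne_zero, k.2⟩, ?_⟩
  rintro ⟨m, -, h, rfl⟩
  exact ⟨ho_chi _ _, fun q hq k => chi_sig_of_not_dvd hq (by omega) fun d => (h q hq d).not_gt k⟩

theorem finite_Ch {N : ℕ} (hN : 2 ≤ N) : Finite (Ch N) := by
  refine ((Set.finite_Icc (-(N.factorial : ℤ)) N.factorial).image chi).subset fun t h => ?_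
  obtain ⟨m, hm, k, rfl⟩ := tc_sq hN h
  have h1 : m.natAbs ∣ N.factorial := by
    rw [← Nat.prod_primeFactors_of_squarefree (Int.squarefree_natAbs.2 hm),
      Nat.prod_primeFactors_dvd_iff N.factorial_ne_zero]
    intro q hq
    obtain ⟨a, b, -⟩ := Nat.mem_primeFactors.1 hq
    exact Nat.mem_primeFactors.2 ⟨a, a.dvd_factorial.2 (k q a (Int.natCast_dvd.2 b)),
      N.factorial_ne_zero⟩
  have h2 := Nat.le_of_dvd N.factorial_pos h1
  exact ⟨m, ⟨by omega, by omega⟩, rfl⟩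

/-- A set of vectors that is closed under addition is a subspace. -/
def tcSub {ι : Type} (A : (ι → F2) → Prop) (h0 : A 0) (ha : ∀ a b, A a → A b → A (a + b)) :
    Submodule F2 (ι → F2) where
  carrier := {a | A a}
  zero_mem' := h0
  add_mem' := ha _ _
  smul_mem' c a h := by
    rcases F2_cases c with rfl | rfl
    · rwa [zero_smul]
    · rwa [one_smul]

/-- Two large orthogonal subspaces are the annihilators of each other. -/
theorem tc_core {ι J : Type} [Fintype ι] (A A' B : Submodule F2 (ι → F2))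
    (h : ∀ a ∈ A, ∀ b ∈ A', a ⬝ᵥ b = 0) (j : J → A × A') (hj : Function.Injective j)
    (hc : Nat.card J = 2 ^ Fintype.card ι) {x : ι → F2} (hx : ∀ b ∈ A', b ∈ B → x ⬝ᵥ b = 0) :
    ∃ a ∈ A, ∀ b ∈ B, (x + a) ⬝ᵥ b = 0 := by
  have h1 := Nat.card_le_card_of_injective j hj
  rw [hc, Nat.card_prod, Module.natCard_eq_pow_finrank (K := F2) (V := A),
    Module.natCard_eq_pow_finrank (K := F2) (V := A'), Nat.card_zmod, ← pow_add,
    Nat.pow_le_pow_iff_right one_lt_two] at h1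
  have h2 := Subspace.finrank_add_finrank_dualAnnihilator_eq A'
  rw [Module.finrank_fintype_fun_eq_card] at h2
  have h3 : A.map (dotProductEquiv F2 ι).toLinearMap = A'.dualAnnihilator := by
    refine Submodule.eq_of_le_of_finrank_le ?_ ?_
    · rintro _ ⟨a, ha, rfl⟩
      exact (Submodule.mem_dualAnnihilator _).2 (h a ha)
    · rw [LinearEquiv.finrank_map_eq]
      omega
  have h4 : dotProductEquiv F2 ι x ∈ (A' ⊓ B).dualAnnihilator :=
    (Submodule.mem_dualAnnihilator _).2 fun b hb => hx b hb.1 hb.2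
  rw [Subspace.dualAnnihilator_inf_eq, ← h3] at h4
  obtain ⟨_, ⟨a, ha, rfl⟩, z, hz, e⟩ := Submodule.mem_sup.1 h4
  refine ⟨a, ha, fun b hb => ?_⟩
  have h5 : a ⬝ᵥ b + z b = x ⬝ᵥ b := LinearMap.congr_fun e b
  rw [add_dotProduct, ← h5, (Submodule.mem_dualAnnihilator _).1 hz b hb, add_zero, hilb_self]

variable {v : ℕ}

theorem tc_smul {H : Subgroup GQ} {t : GQ → F2} (h : Ho H t) (c : F2) : Ho H (c • t) := by
  rcases F2_cases c with rfl | rfl
  · exact zero_smul F2 t ▸ ho_zero H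
  · rwa [one_smul]

theorem tc_ho {ι : Type} (H : Subgroup GQ) (s : Finset ι) (c : ι → F2) (e : ι → ℤ) :
    Ho H (∑ i ∈ s, c i • chi (e i)) :=
  sum_induction _ (Ho H) (fun _ _ => Ho.add) (ho_zero H) fun _ _ => tc_smul (ho_chi H _) _

theorem tc_sum {ι : Type} (h : Pv v) (s : Finset ι) (c : ι → F2) (e : ι → ℤ) {y : GQ → F2}
    (k : Ho (Gv v) y) :
    hv v (∑ i ∈ s, c i • chi (e i)) y = ∑ i ∈ s, c i * hv v (chi (e i)) y := by
  induction s using Finset.induction_on with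
  | empty => exact hv_zero h (fun _ _ => rfl) y
  | insert i s hi ih =>
    rw [sum_insert hi, sum_insert hi, hv_add_left h (tc_smul (ho_chi _ _) _) (tc_ho _ s c e) k, ih]
    rcases F2_cases (c i) with l | l <;> rw [l]
    · rw [zero_mul, hv_zero h fun _ _ => by simp]
    · rw [one_smul, one_mul]

/-- The dimension of the group of local characters. -/
def tcD (v : ℕ) : ℕ := if v = 0 then 1 else if v = 2 then 3 else 2

theorem tc_non {p : ℕ} (hp : p.Prime) (h2 : p ≠ 2) : ∃ u : ℤ, ¬ (p : ℤ) ∣ u ∧ aleg p u = 1 := by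
  have := Fact.mk hp
  obtain ⟨a, ha⟩ := FiniteField.exists_nonsquare (F := ZMod p) (by rwa [ZMod.ringChar_zmod_n])
  obtain ⟨u, rfl⟩ := ZMod.intCast_surjective a
  exact ⟨u, fun k => ha ((ZMod.intCast_zmod_eq_zero_iff_dvd u p).2 k ▸ IsSquare.zero), if_neg ha⟩

theorem tc_basis0 : ∃ e f : Fin 1 → ℤ, (∀ i, e i ≠ 0) ∧ (∀ i, f i ≠ 0) ∧
    (∀ i j, hs 0 (e i) (f j) = if i = j then 1 else 0) ∧
    ∀ m : ℤ, m ≠ 0 → ∃ c : Fin 1 → F2, ∀ g ∈ Gv 0, chi m g = ∑ i, c i * chi (e i) g := by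
  refine ⟨![-1], ![-1], by decide, by decide, ?_, fun m hm => ?_⟩
  · simp [hs, Nat.not_prime_zero]
  rcases hm.lt_or_gt with h | h
  · refine ⟨![1], fun g hg => ?_⟩
    have := chi_mul (a := -1) (b := -m) (by decide) (neg_ne_zero.2 hm) g
    rw [chi_Gv_zero (neg_pos.2 h) g hg] at this
    simpa using this
  · exact ⟨![0], fun g hg => by simpa using chi_Gv_zero h g hg⟩

theorem tc_five (a : ℤ) : hs 2 a 5 = padicValInt 2 a := by
  have h3 : ep2 5 = 0 := rfl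
  have h4 : om2 5 = 1 := rfl
  simp [hs, hilb_up (p := 2) (a := 5) (by decide), h3, h4]

theorem tc_basis2 : ∃ e f : Fin 3 → ℤ, (∀ i, e i ≠ 0) ∧ (∀ i, f i ≠ 0) ∧
    (∀ i j, hs 2 (e i) (f j) = if i = j then 1 else 0) ∧
    ∀ m : ℤ, m ≠ 0 → ∃ c : Fin 3 → F2, ∀ g ∈ Gv 2, chi m g = ∑ i, c i * chi (e i) g := by
  have o1 : ¬ (2 : ℤ) ∣ -1 := by decide
  have o5 : ¬ (2 : ℤ) ∣ 5 := by decide
  refine ⟨![2, 5, -1], ![5, 2, -1], by decide, by decide, ?_, fun m hm => ?_⟩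
  · have a1 : hs 2 5 2 = 1 := (hilb_two o5).1
    have a2 : hs 2 (-1) 2 = 0 := (hilb_two o1).1
    have a3 : hs 2 5 5 = 0 := hilb_odd o5 o5
    have a4 : hs 2 5 (-1) = 0 := hilb_odd o5 o1
    have a5 : hs 2 (-1) (-1) = 1 := hilb_odd o1 o1
    simp [Fin.forall_fin_succ, a1, a2, a3, a4, a5, (hilb_two o1).2, hs_comm 2 2 5,
      hs_comm 2 2 (-1), hs_comm 2 (-1) 5]
  obtain ⟨h1, h2⟩ := up_spec Nat.prime_two hm
  generalize up 2 m = w at h1 h2
  have w0 : w ≠ 0 := B2.b4b_ne h2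
  obtain ⟨a, b, h3⟩ : ∃ a b : F2, (w * (5 ^ a.val * (-1) ^ b.val)) % 8 = 1 := by
    have : w % 8 = 1 ∨ w % 8 = 3 ∨ w % 8 = 5 ∨ w % 8 = 7 := by omega
    rcases this with l | l | l | l
    exacts [⟨0, 0, show w * 1 % 8 = 1 by omega⟩, ⟨1, 1, show w * -5 % 8 = 1 by omega⟩,
      ⟨1, 0, show w * 5 % 8 = 1 by omega⟩, ⟨0, 1, show w * -1 % 8 = 1 by omega⟩]
  refine ⟨![padicValInt 2 m, a, b], fun g hg => ?_⟩
  have h4 := chi_Gv_two h3 g hg
  rw [chi_mul w0 (by simp), chi_mul (by simp) (by simp), chi_pow_val (by decide),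
    chi_pow_val (by decide)] at h4
  conv_lhs => rw [h1, chi_mul (by simp) w0, chi_pow (by simp), CharTwo.add_eq_zero.1 h4]
  simp [Fin.sum_univ_succ]

theorem tc_basisp {p : ℕ} (hp : p.Prime) (h2 : p ≠ 2) : ∃ e f : Fin 2 → ℤ, (∀ i, e i ≠ 0) ∧
    (∀ i, f i ≠ 0) ∧ (∀ i j, hs p (e i) (f j) = if i = j then 1 else 0) ∧
    ∀ m : ℤ, m ≠ 0 → ∃ c : Fin 2 → F2, ∀ g ∈ Gv p, chi m g = ∑ i, c i * chi (e i) g := by
  obtain ⟨u, hu, hu'⟩ := tc_non hp h2
  have u0 : u ≠ 0 := B2.b4b_ne hu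
  have p0 : (p : ℤ) ≠ 0 := Int.natCast_ne_zero.2 hp.ne_zero
  have n1 : ¬ (p : ℤ) ∣ -1 := not_dvd_of_natAbs_eq' hp
  have val : ((padicValInt p p : ℕ) : F2) = 1 := by rw [padicValInt.self hp.one_lt, Nat.cast_one]
  refine ⟨![p, u], ![u, p * -1], by simp [Fin.forall_fin_succ, u0, hp.ne_zero],
    by simp [Fin.forall_fin_succ, u0, hp.ne_zero], ?_, fun m hm => ?_⟩
  · have a1 : hs p p u = 1 := by rw [hilb_un hp h2 _ hu, val, hu', one_mul]
    have a2 : hs p u u = 0 := by rw [hilb_un hp h2 _ hu, (hilb_up hu).1, Nat.cast_zero, zero_mul]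
    have a3 : hs p p (p * -1) = 0 := by
      rw [hs_mul_right p p0 p0 (by decide), hilb_same hp h2, hilb_un hp h2 _ n1, hilb_self]
    have a4 : hs p u (p * -1) = 1 := by
      rw [hs_mul_right p u0 p0 (by decide), hs_comm, a1, hilb_un hp h2 _ n1, (hilb_up hu).1,
        Nat.cast_zero, zero_mul, add_zero]
    simp only [Fin.forall_fin_two]
    exact ⟨⟨a1, a3⟩, a2, a4⟩
  have e : ∀ g, chi (m * (p ^ (chi m (sig p)).val * u ^ (chi m (frb p)).val)) g =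
      chi m g + (chi m (sig p) * chi p g + chi m (frb p) * chi u g) := fun g => by
    rw [chi_mul hm (by simp [u0, hp.ne_zero]), chi_mul (pow_ne_zero _ p0) (pow_ne_zero _ u0),
      chi_pow_val p0, chi_pow_val u0]
  refine ⟨![chi m (sig p), chi m (frb p)], fun g hg => ?_⟩
  have h4 := chi_Gv hp h2 (by simp [hm, u0, hp.ne_zero]) ((e _).trans (by
    rw [chi_sig_self hp h2, chi_sig_of_not_dvd hp h2 hu, mul_one, mul_zero, add_zero, hilb_self]))
    ((e _).trans (by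
      rw [chi_frb_self hp h2, chi_frb hp h2 hu, hu', mul_one, mul_zero, zero_add, hilb_self])) g hg
  rw [e] at h4
  rw [Fin.sum_univ_two]
  exact CharTwo.add_eq_zero.1 h4

theorem tc_basis (h : Pv v) : ∃ e f : Fin (tcD v) → ℤ, (∀ i, e i ≠ 0) ∧
    (∀ i, f i ≠ 0) ∧ (∀ i j, hs v (e i) (f j) = if i = j then 1 else 0) ∧
    ∀ m : ℤ, m ≠ 0 → ∃ c : Fin (tcD v) → F2, ∀ g ∈ Gv v, chi m g = ∑ i, c i * chi (e i) g := by
  rcases h with rfl | hp
  · exact tc_basis0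
  by_cases h2 : v = 2
  · subst h2
    exact tc_basis2
  · rw [show tcD v = 2 by rw [tcD, if_neg hp.ne_zero, if_neg h2]]
    exact tc_basisp hp h2

/-- Dual coordinates for local characters. -/
structure TcCo (v : ℕ) (L R : (GQ → F2) → Fin (tcD v) → F2) : Prop where
  addL : ∀ t t', Ho (Gv v) t → Ho (Gv v) t' → L (t + t') = L t + L t'
  addR : ∀ t t', Ho (Gv v) t → Ho (Gv v) t' → R (t + t') = R t + R t'
  dot : ∀ t y, Ho (Gv v) t → Ho (Gv v) y → hv v t y = L t ⬝ᵥ R y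
  injL : ∀ t t', Ho (Gv v) t → Ho (Gv v) t' → L t = L t' → ∀ g ∈ Gv v, t g = t' g
  injR : ∀ t t', Ho (Gv v) t → Ho (Gv v) t' → R t = R t' → ∀ g ∈ Gv v, t g = t' g
  zL : L 0 = 0
  zR : R 0 = 0

theorem tc_co (h : Pv v) : ∃ L R, TcCo v L R := by
  obtain ⟨e, f, e0, f0, ef, sp⟩ := tc_basis h
  have key : ∀ t, Ho (Gv v) t → (∀ g ∈ Gv v, t g = ∑ i, hv v t (chi (f i)) * chi (e i) g) ∧
      ∀ y, Ho (Gv v) y → hv v t y = ∑ i, hv v t (chi (f i)) * hv v (chi (e i)) y := by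
    intro t ht
    obtain ⟨m, m0, hm⟩ := loc_kummer h ht
    obtain ⟨c, hc⟩ := sp m m0
    have a : ∀ y, Ho (Gv v) y → hv v t y = ∑ i, c i * hv v (chi (e i)) y := fun y hy => by
      rw [← tc_sum h univ c e hy]
      exact hv_congr h (fun g hg => by simp [hm g hg, hc g hg]) fun _ _ => rfl
    have b : ∀ j, hv v t (chi (f j)) = c j := fun j => by
      simp [a _ (ho_chi _ _), hv_hs h (e0 _) (f0 _), ef]
    simp only [b]
    exact ⟨fun g hg => (hm g hg).trans (hc g hg), a⟩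
  have inj : ∀ t t', Ho (Gv v) t → Ho (Gv v) t' →
      (∀ i, hv v t (chi (f i)) = hv v t' (chi (f i))) → ∀ g ∈ Gv v, t g = t' g :=
    fun t t' k k' l g hg => by simp only [(key t k).1 g hg, (key t' k').1 g hg, l]
  refine ⟨fun t i => hv v t (chi (f i)), fun y i => hv v (chi (e i)) y,
    fun t t' k k' => funext fun i => hv_add_left h k k' (ho_chi _ _),
    fun t t' k k' => funext fun i => hv_add_right h (ho_chi _ _) k k',
    fun t y k l => (key t k).2 y l, fun t t' k k' l => inj t t' k k' (congrFun l),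
    fun t t' k k' l => inj t t' k k' fun i => ?_,
    funext fun i => hv_zero h (fun _ _ => rfl) _,
    funext fun i => (hv_comm h (ho_chi _ _) (ho_zero _)).trans (hv_zero h (fun _ _ => rfl) _)⟩
  rw [hv_comm h k (ho_chi _ _), hv_comm h k' (ho_chi _ _), (key _ (ho_chi _ _)).2 t k,
    (key _ (ho_chi _ _)).2 t' k']
  exact sum_congr rfl fun j _ => congrArg _ (congrFun l j)

/-- Generators of the global characters. -/
def tcG (w : ℕ) : ℤ := if w = 0 then -1 else w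

theorem tc_gn (w : ℕ) : tcG w ≠ 0 := by
  unfold tcG
  split_ifs <;> omega

theorem tc_dual (h : Pv v) :
    ∃ u : ℤ, u ≠ 0 ∧ ∀ w, Pv w → hs v (tcG w) u = if w = v then 1 else 0 := by
  rcases h with rfl | hp
  · refine ⟨-1, by decide, fun w _ => ?_⟩
    by_cases k : w = 0 <;> simp [hs, tcG, k, Nat.not_prime_zero]
  have a : ∀ w, Pv w → ((padicValInt v (tcG w) : ℕ) : F2) = if w = v then 1 else 0 := by
    rintro w (rfl | hw)
    · rw [if_neg hp.ne_zero.symm, tcG, if_pos rfl, (hilb_up (not_dvd_of_natAbs_eq' hp)).1,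
        Nat.cast_zero]
    rw [tcG, if_neg hw.ne_zero]
    split_ifs with k
    · rw [k, padicValInt.self hp.one_lt, Nat.cast_one]
    · rw [(hilb_up (not_dvd_of_natAbs_eq hp hw (Ne.symm k) rfl)).1, Nat.cast_zero]
  by_cases h2 : v = 2
  · subst h2
    exact ⟨5, by decide, fun w hw => (tc_five _).trans (a w hw)⟩
  · obtain ⟨u, hu, hu'⟩ := tc_non hp h2
    exact ⟨u, B2.b4b_ne hu, fun w hw => by rw [hilb_un hp h2 _ hu, hu', mul_one, a w hw]⟩

theorem tc_pv {N : ℕ} (h : v ∈ plc N) : Pv v := (mem_plc.1 h).imp_right And.left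

theorem tc_mem {N : ℕ} (hN : 2 ≤ N) (c : plc N → F2) : ∑ w, c w • chi (tcG w) ∈ Ch N := by
  refine sum_mem fun w _ => ?_
  rcases F2_cases (c w) with l | l <;> rw [l]
  · exact zero_smul F2 (chi (tcG w)) ▸ zero_mem _
  rw [one_smul]
  refine (mem_Ch hN).2 ⟨_, tc_gn w, fun q hq d => ?_, rfl⟩
  rcases mem_plc.1 w.2 with k | k
  · rw [tcG, if_pos k] at d
    exact (not_dvd_of_natAbs_eq' hq d).elim
  · rw [tcG, if_neg k.1.ne_zero] at d
    exact (Nat.le_of_dvd k.1.pos (Int.natCast_dvd_natCast.1 d)).trans k.2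

theorem tc_sep {N : ℕ} {c c' : plc N → F2} (h : ∀ v : plc N, ∀ g ∈ Gv v,
    (∑ w, c w • chi (tcG w)) g = (∑ w, c' w • chi (tcG w)) g) : c = c' := by
  funext v
  obtain ⟨u, u0, hu⟩ := tc_dual (tc_pv v.2)
  have a : ∀ c : plc N → F2, hv v (∑ w, c w • chi (tcG w)) (chi u) = c v := fun c => by
    rw [tc_sum (tc_pv v.2) univ c (fun w => tcG w) (ho_chi _ _)]
    simp [hv_hs (tc_pv v.2) (tc_gn _) u0, fun w : plc N => hu w (tc_pv w.2)]
  rw [← a c, ← a c']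
  exact hv_congr (tc_pv v.2) (h v) fun _ _ => rfl

theorem tc_card {N : ℕ} (hN : 2 ≤ N) : ∑ v ∈ plc N, tcD v = (plc N).card + (plc N).card := by
  have h0 : 0 ∈ plc N := mem_plc.2 (Or.inl rfl)
  have h2 : 2 ∈ plc N := mem_plc.2 (Or.inr ⟨Nat.prime_two, hN⟩)
  have a : ∀ v, tcD v + (if v = 0 then 1 else 0) = 1 + 1 + if v = 2 then 1 else 0 := fun v => by
    unfold tcD
    split_ifs <;> omega
  have b := sum_congr (rfl : plc N = _) fun v _ => a v
  simp only [sum_add_distrib, sum_ite_eq', if_pos h0, if_pos h2, ← card_eq_sum_ones] at b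
  omega

/-- Local characters that are orthogonal to a Selmer group come from a global character, up to
the orthogonal of the local conditions. -/
theorem du {N : ℕ} (hN : 2 ≤ N) (Y : ℕ → (GQ → F2) → Prop) (h0 : ∀ v, Y v 0)
    (ha : ∀ v y y', Y v y → Y v y' → Y v (y + y'))
    (hc : ∀ v y y', Y v y → (∀ g ∈ Gv v, y' g = y g) → Y v y')
    (t : ℕ → GQ → F2) (ht : ∀ v ∈ plc N, Ho (Gv v) (t v))
    (h : ∀ y ∈ Ch N, (∀ v ∈ plc N, Y v y) → ∑ v ∈ plc N, hv v (t v) y = 0) :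
    ∃ ξ ∈ Ch N, ∀ v ∈ plc N, ∀ y, Ho (Gv v) y → Y v y → hv v (t v + ξ) y = 0 := by
  choose L R co using fun v : plc N => tc_co (tc_pv v.2)
  have gl : ∀ {y}, y ∈ Ch N → ∀ v, Ho (Gv v) y := fun k v => k.1.mono le_top
  have dot : ∀ s y : ℕ → GQ → F2, (∀ v ∈ plc N, Ho (Gv v) (s v)) → (∀ v ∈ plc N, Ho (Gv v) (y v)) →
      (fun x : Σ v : plc N, Fin (tcD v) => L x.1 (s x.1) x.2) ⬝ᵥ (fun x => R x.1 (y x.1) x.2) =
        ∑ v ∈ plc N, hv v (s v) (y v) := fun s y k l => by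
    rw [dotProduct, Fintype.sum_sigma, ← sum_coe_sort (plc N)]
    exact sum_congr rfl fun v _ => ((co v).dot _ _ (k v v.2) (l v v.2)).symm
  obtain ⟨_, ⟨ξ, hξ, rfl⟩, k⟩ := tc_core (ι := Σ v : plc N, Fin (tcD v))
    (tcSub (fun a => ∃ y ∈ Ch N, a = fun x => L x.1 y x.2)
      ⟨0, zero_mem _, funext fun x => (congrFun (co x.1).zL x.2).symm⟩ (by
        rintro _ _ ⟨y, k, rfl⟩ ⟨y', k', rfl⟩
        exact ⟨y + y', add_mem k k', funext fun x =>
          (congrFun ((co x.1).addL _ _ (gl k _) (gl k' _)) x.2).symm⟩))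
    (tcSub (fun a => ∃ y ∈ Ch N, a = fun x => R x.1 y x.2)
      ⟨0, zero_mem _, funext fun x => (congrFun (co x.1).zR x.2).symm⟩ (by
        rintro _ _ ⟨y, k, rfl⟩ ⟨y', k', rfl⟩
        exact ⟨y + y', add_mem k k', funext fun x =>
          (congrFun ((co x.1).addR _ _ (gl k _) (gl k' _)) x.2).symm⟩))
    (tcSub (fun a => ∃ y : ℕ → GQ → F2, (∀ v ∈ plc N, Ho (Gv v) (y v) ∧ Y v (y v)) ∧
        a = fun x => R x.1 (y x.1) x.2)
      ⟨0, fun v _ => ⟨ho_zero _, h0 v⟩, funext fun x => (congrFun (co x.1).zR x.2).symm⟩ (by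
        rintro _ _ ⟨y, k, rfl⟩ ⟨y', k', rfl⟩
        exact ⟨y + y', fun v l => ⟨(k v l).1.add (k' v l).1, ha v _ _ (k v l).2 (k' v l).2⟩,
          funext fun x => (congrFun ((co x.1).addR _ _ (k _ x.1.2).1 (k' _ x.1.2).1) x.2).symm⟩))
    (by
      rintro _ ⟨y, k, rfl⟩ _ ⟨y', k', rfl⟩
      exact (dot (fun _ => y) (fun _ => y') (fun v _ => gl k v) fun v _ => gl k' v).trans
        (hv_recip k.1 k'.1 _ (mem_plc.2 (Or.inl rfl)) (mem_plc.2 (Or.inr ⟨Nat.prime_two, hN⟩))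
          (fun _ => tc_pv) fun q hq l => by
            have : N < q := not_le.1 fun e => l (mem_plc.2 (Or.inr ⟨hq, e⟩))
            exact ⟨k.2 q hq this, k'.2 q hq this⟩))
    (fun c : (plc N → F2) × (plc N → F2) =>
      (⟨_, _, tc_mem hN c.1, rfl⟩, ⟨_, _, tc_mem hN c.2, rfl⟩))
    (fun c c' e => Prod.ext
      (tc_sep fun v => (co v).injL _ _ (gl (tc_mem hN _) v) (gl (tc_mem hN _) v)
        (funext fun i => congrFun (congrArg (fun z => z.1.1) e) ⟨v, i⟩))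
      (tc_sep fun v => (co v).injR _ _ (gl (tc_mem hN _) v) (gl (tc_mem hN _) v)
        (funext fun i => congrFun (congrArg (fun z => z.2.1) e) ⟨v, i⟩)))
    (by
      rw [Fintype.card_sigma]
      simp only [Fintype.card_fin]
      rw [sum_coe_sort (plc N) tcD, tc_card hN, pow_add]
      simp)
    (x := fun x => L x.1 (t x.1) x.2) (by
      rintro _ ⟨y, k, rfl⟩ ⟨z, l, e⟩
      refine (dot t (fun _ => y) ht fun v _ => gl k v).trans (h y k fun v hv' => ?_)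
      exact hc v _ _ (l v hv').2 ((co ⟨v, hv'⟩).injR _ _ (gl k v) (l v hv').1
        (funext fun i => congrFun e ⟨⟨v, hv'⟩, i⟩)))
  refine ⟨ξ, hξ, fun v hv' y k1 k2 => ?_⟩
  have a : ∀ w ∈ plc N, Ho (Gv w) (if w = v then y else 0) ∧ Y w (if w = v then y else 0) := by
    intro w _
    split_ifs with e
    · exact e ▸ ⟨k1, k2⟩
    · exact ⟨ho_zero _, h0 w⟩
  have b : ∀ w ∈ plc N, Ho (Gv w) (t w + ξ) := fun w l => (ht w l).add (gl hξ w)
  have c := dot (fun w => t w + ξ) _ b fun w l => (a w l).1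
  rw [sum_eq_single_of_mem v hv' fun w l e => by
    rw [if_neg e, hv_comm (tc_pv l) (b w l) (ho_zero _),
      hv_zero (t := 0) (tc_pv l) fun _ _ => rfl], if_pos rfl] at c
  rw [← c, ← k _ ⟨_, a, rfl⟩]
  exact congrArg (· ⬝ᵥ _) (funext fun x =>
    congrFun ((co x.1).addL _ _ (ht _ x.1.2) (gl hξ _)) x.2)

/-- Local duality: two orthogonal groups of local characters of large size. -/
theorem loc_perp {v : ℕ} (h : v.Prime) (X Y : (GQ → F2) → Prop) (hX0 : X 0)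
    (hXa : ∀ t t', X t → X t' → X (t + t'))
    (hXc : ∀ t t', X t → (∀ g ∈ Gv v, t' g = t g) → X t') (hY0 : Y 0)
    (hYa : ∀ t t', Y t → Y t' → Y (t + t'))
    (hXY : ∀ t y, Ho (Gv v) t → Ho (Gv v) y → X t → Y y → hv v t y = 0)
    (x y : Fin (if v = 2 then 8 else 4) → GQ → F2) (hx : ∀ i, Ho (Gv v) (x i) ∧ X (x i))
    (hy : ∀ i, Ho (Gv v) (y i) ∧ Y (y i))
    (hj : ∀ i j, (∀ g ∈ Gv v, x i g = x j g) → (∀ g ∈ Gv v, y i g = y j g) → i = j)
    {t : GQ → F2} (ht : Ho (Gv v) t) (hp : ∀ y, Ho (Gv v) y → Y y → hv v t y = 0) : X t := by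
  obtain ⟨L, R, co⟩ := tc_co (v := v) (Or.inr h)
  obtain ⟨_, ⟨s, hs, rfl⟩, k⟩ := tc_core
    (tcSub (fun a => ∃ s, (Ho (Gv v) s ∧ X s) ∧ a = L s) ⟨0, ⟨ho_zero _, hX0⟩, co.zL.symm⟩ (by
      rintro _ _ ⟨s, k, rfl⟩ ⟨s', k', rfl⟩
      exact ⟨s + s', ⟨k.1.add k'.1, hXa _ _ k.2 k'.2⟩, (co.addL _ _ k.1 k'.1).symm⟩))
    (tcSub (fun a => ∃ s, (Ho (Gv v) s ∧ Y s) ∧ a = R s) ⟨0, ⟨ho_zero _, hY0⟩, co.zR.symm⟩ (by
      rintro _ _ ⟨s, k, rfl⟩ ⟨s', k', rfl⟩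
      exact ⟨s + s', ⟨k.1.add k'.1, hYa _ _ k.2 k'.2⟩, (co.addR _ _ k.1 k'.1).symm⟩)) ⊤
    (by
      rintro _ ⟨s, k, rfl⟩ _ ⟨s', k', rfl⟩
      exact (co.dot _ _ k.1 k'.1).symm.trans (hXY _ _ k.1 k'.1 k.2 k'.2))
    (fun i => (⟨_, _, hx i, rfl⟩, ⟨_, _, hy i, rfl⟩))
    (fun i j e => hj i j (co.injL _ _ (hx i).1 (hx j).1 (congrArg (fun z => z.1.1) e))
      (co.injR _ _ (hy i).1 (hy j).1 (congrArg (fun z => z.2.1) e)))
    (by
      rw [Nat.card_fin, Fintype.card_fin, tcD, if_neg h.ne_zero]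
      split_ifs <;> rfl)
    (x := L t) (by
      rintro _ ⟨s, k, rfl⟩ -
      exact (co.dot _ _ ht k.1).symm.trans (hp _ k.1 k.2))
  refine hXc s t hs.2 (co.injL _ _ ht hs.1 (funext fun i => CharTwo.add_eq_zero.1 ?_))
  simpa using k (Pi.single i 1) trivial

end Pool.Agent.SP
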