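import Pool.Agent.Lib.MP_696deb_nt.SP.PK1
import Pool.Agent.Lib.MP_696deb_nt.SP.IF
import Pool.Agent.Lib.MP_696deb_nt.SP.TC

/-! Local and global duality over the rational numbers for modules killed by two. -/

set_option autoImplicit false

open scoped Classical
open Finset Function

namespace Pool.Agent.SP

open Pool.Agent.Lib.MP_696deb_nt Pool.Agent.Lib.MP_696deb_nt.Sm
open Pool.Agent.Lib.MP_696deb_nt.B2 (cc jC)

open Pool.Agent.Lib.MP_696deb_nt.B2 (Plc Op Zu Rs Zc Z1 B1 H0 GoodA rs cupb Coc ann)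
open Pool.Agent.Lib.MP_696deb_nt.B6 (N2 Dual0 Dual3)

variable {M M' : Type} [AddCommGroup M] [AddCommGroup M'] {a : GQ → M →+ M} {a' : GQ → M' →+ M'}
  {b : M →+ M' →+ ZMod (2 ^ 1)} {r : GQ →* N2} {v N : ℕ}

theorem pk_lp (hv : Pv v) (hd : Dual0 1 (Gv v) a a' b) :
    ∃ p : Z1 (Gv v) a →+ Z1 (Gv v) a' →+ ZMod (2 ^ 1), ∀ c c', p c c' = iv v (cupb b a' c c') :=
  ⟨AddMonoidHom.mk' (fun c => AddMonoidHom.mk' (fun c' => iv v (cupb b a' c c')) fun c' c₁ =>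
      (congrArg (iv v) (funext₂ fun g k => by simp [cupb])).trans
        (iv_add hv (B6.c2_cupb0 hd c.2.1 c'.2.1) (B6.c2_cupb0 hd c.2.1 c₁.2.1))) fun c c₁ =>
    AddMonoidHom.ext fun c' => (congrArg (iv v) (funext₂ fun g k => by simp [cupb])).trans
      (iv_add hv (B6.c2_cupb0 hd c.2.1 c'.2.1) (B6.c2_cupb0 hd c₁.2.1 c'.2.1)), fun _ _ => rfl⟩

theorem pk_real (hd : Dual0 1 (Gv 0) a a' b) {c : GQ → M} {c' : GQ → M'} (h : Coc (Gv 0) a c)
    (h' : Coc (Gv 0) a' c') : a' cc (c' cc) = c' cc ∧ iv 0 (cupb b a' c c') = b (c cc) (c' cc) := by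
  have e := h'.2 cc loc_cc_mem cc loc_cc_mem
  have t := hd.flip.pow_smul (c' cc)
  rw [B2.cc_mul_cc, B6.coc_one0 hd.act' h', ← t, pow_one, two_nsmul, add_right_inj] at e
  exact ⟨e.symm, by
    rw [tb_zero, cupb, cupb, B6.coc_one0 hd.act h, map_zero, AddMonoidHom.zero_apply, add_zero, ← e]⟩

theorem pk_mk (hd : Dual0 1 (Gv 0) a a' b) {x : M} (h : a cc x = x) :
    ∃ c ∈ Z1 (Gv 0) a, c cc = x := by
  have t := hd.pow_smul x
  have o : chi (-1) 1 = 0 := loc_one _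
  refine ⟨_, B2.rs_mem_Z1 (c := fun g => (chi (-1) g).val • x)
    ⟨((ho_chi (Gv 0) (-1)).1).comp fun s => s.val • x, fun g hg k hk => ?_⟩, ?_⟩
  · rw [pow_one, two_nsmul] at t
    rcases loc_Gv0 hg with rfl | rfl <;> rcases loc_Gv0 hk with rfl | rfl <;>
      simp [B2.cc_mul_cc, o, tbb_cc, ZMod.val_one, h, t, hd.act.one]
  · rw [B2.rs_of_mem loc_cc_mem, tbb_cc, ZMod.val_one, one_nsmul]

theorem pk_card0 [Finite M] (hd : Dual0 1 (Gv 0) a a' b) :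
    Finite (Z1 (Gv 0) a) ∧ Nat.card (Z1 (Gv 0) a) ≤ Nat.card (H0 (Gv 0) a) := by
  have j : Injective fun c : Z1 (Gv 0) a => (⟨c.1 cc, fun g hg => by
      rcases loc_Gv0 hg with rfl | rfl
      exacts [hd.act.one _, (pk_real hd.flip (B2.Coc.zero _ _) c.2.1).1]⟩ : H0 (Gv 0) a) :=
    fun c c' e => Subtype.ext (funext fun g => if hg : g ∈ Gv 0 then by
      rcases loc_Gv0 hg with rfl | rfl
      exacts [(B6.coc_one0 hd.act c.2.1).trans (B6.coc_one0 hd.act c'.2.1).symm,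
        congrArg Subtype.val e] else (c.2.2 g hg).trans (c'.2.2 g hg).symm)
  exact ⟨Finite.of_injective _ j, Nat.card_le_card_of_injective _ j⟩

/-- The local pairing is perfect. -/
theorem pk_ker [Finite M] [Finite M'] (hv : Pv v) (hd : Dual3 r 1 (Gv v) a a' b) {c : GQ → M}
    (h : Coc (Gv v) a c) (k : ∀ c', Coc (Gv v) a' c' → iv v (cupb b a' c c') = 0) :
    ∃ x, ∀ g ∈ Gv v, c g = B2.cob a x g := by
  rcases hv with rfl | hv
  swap
  · rw [← Cu.sa3_G hv] at hd h k ⊢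
    exact (B6.ld_core3 cft isOpen_univ hd).2.2 c h fun c' h' => (tb_prime hv _).symm.trans (k c' h')
  have m : c cc ∈ (a cc - AddMonoidHom.id M).range ⊔ b.ker := by
    rw [← B2.ann_ann]
    intro y hy
    obtain ⟨c', h1, rfl⟩ := pk_mk hd.zero.flip (x := y) (sub_eq_zero.1 (hd.right _ fun x => by
      have e := hd.eqv cc loc_cc_mem (a cc x) y
      rw [← hd.act.mul cc loc_cc_mem cc loc_cc_mem, B2.cc_mul_cc, hd.act.one, B2.cy_one_eq,
        one_mul] at e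
      rw [map_sub, e, ← AddMonoidHom.sub_apply, ← map_sub]
      exact hy _ ⟨x, rfl⟩))
    exact (pk_real hd.zero h h1.1).2.symm.trans (k c' h1.1)
  obtain ⟨_, ⟨x, rfl⟩, z, hz, e⟩ := AddSubgroup.mem_sup.1 m
  rw [hd.left z fun y => DFunLike.congr_fun hz y, add_zero] at e
  refine ⟨x, fun g hg => ?_⟩
  rcases loc_Gv0 hg with rfl | rfl
  · rw [B6.coc_one0 hd.act.toAct0 h, B2.cob, hd.act.one, sub_self]
  · exact e.symm

theorem pk_flip (hv : Pv v) (hd : Dual0 1 (Gv v) a a' b) {c : GQ → M} {c' : GQ → M'}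
    (h : Coc (Gv v) a c) (h' : Coc (Gv v) a' c') :
    iv v (cupb b.flip a c' c) = iv v (cupb b a' c c') := by
  rcases hv with rfl | hv
  · rw [(pk_real hd h h').2, (pk_real hd.flip h' h).2]
    rfl
  · rw [← Cu.sa3_G hv] at hd h h'
    rw [tb_prime hv, tb_prime hv]
    exact (B6.inv_cupb_flip0 cft isOpen_univ hd h h').trans (CharTwo.neg_eq (R := F2) _)

theorem pk_kers [Finite M] [Finite M'] (hv : Pv v) (hd : Dual3 r 1 (Gv v) a a' b)
    {p : Z1 (Gv v) a →+ Z1 (Gv v) a' →+ ZMod (2 ^ 1)}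
    (hp : ∀ c c', p c c' = iv v (cupb b a' c c')) : p.ker = (B1 (Gv v) a).addSubgroupOf _ ∧
      p.flip.ker = (B1 (Gv v) a').addSubgroupOf _ := by
  refine ⟨AddSubgroup.ext fun c => ?_, AddSubgroup.ext fun c => ?_⟩ <;>
    rw [AddSubgroup.mem_addSubgroupOf, ← B2.rs_eq_self c.2, B2.rs_mem_B1]
  · refine ⟨fun k => pk_ker hv hd c.2.1 fun c' h' => ?_, fun ⟨x, hx⟩ => AddMonoidHom.ext fun c' =>
      (hp _ _).trans ((iv_eq_zero hv (B6.c2_cupb0 hd.zero c.2.1 c'.2.1)).2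
        (B6.spl_cupb_left0 hd.zero hx c'.2.1))⟩
    refine Eq.trans (iv_congr hv fun g _ l hl => ?_) ((hp c ⟨_, B2.rs_mem_Z1 h'⟩).symm.trans
      (DFunLike.congr_fun k _))
    simp only [cupb, B2.rs_of_mem hl]
  · refine ⟨fun k => pk_ker hv hd.flip c.2.1 fun c' h' => ?_, fun ⟨x, hx⟩ =>
      AddMonoidHom.ext fun c' => (hp _ _).trans ((iv_eq_zero hv
        (B6.c2_cupb0 hd.zero c'.2.1 c.2.1)).2 (B6.spl_cupb_right0 hd.zero c'.2.1 hx))⟩
    rw [pk_flip hv hd.zero h' c.2.1]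
    refine Eq.trans (iv_congr hv fun g hg l _ => ?_) ((hp ⟨_, B2.rs_mem_Z1 h'⟩ c).symm.trans
      (DFunLike.congr_fun k _))
    simp only [cupb, B2.rs_of_mem hg]

theorem pk_card [Finite M] [Finite M'] (hv : v.Prime) (hd : Dual3 r 1 (Gv v) a a' b) :
    Finite (Z1 (Gv v) a) ∧ Nat.card (Z1 (Gv v) a) * Nat.card M =
      Nat.card M ^ tcD v * Nat.card (H0 (Gv v) a') := by
  rw [← Cu.sa3_G hv] at hd ⊢
  obtain ⟨h1, h2, -⟩ := B6.ld_core3 cft isOpen_univ hd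
  refine ⟨h1, ?_⟩
  rw [h2, B2.ldeg, pl_p hv, tcD, if_neg hv.ne_zero, top_inf_eq, Subgroup.relIndex_self]
  split_ifs <;> ring

theorem pk_recip (hd : Dual0 1 ⊤ a a' b) (two : 2 ≤ N) (hg : GoodA ⊤ a (plS N)) {c : GQ → M}
    {c' : GQ → M'} (k : c ∈ Zu ⊤ a (plS N)) (k' : c' ∈ Zu ⊤ a' (plS N)) :
    ∑ v ∈ plc N, iv v (cupb b a' c c') = 0 :=
  iv_recip (B6.c2_cupb0 hd k.1.1 k'.1.1) (plc N) (mem_plc.2 (.inl rfl))
    (mem_plc.2 (.inr ⟨Nat.prime_two, two⟩)) (fun _ => tc_pv) fun q hq hn => by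
      have e : B2.Away ⊤ (plS N) (pl q) := away_plS.2 (by
        rw [pl_p hq]
        exact not_le.1 fun e => hn (mem_plc.2 (.inr ⟨hq, e⟩)))
      rw [iv_prime hq]
      exact B6.inv_cupb_unr0 cft isOpen_univ (hd.mono inf_le_left) (B6.good_dual0 hg hd _ e).2
        (k.1.1.mono inf_le_left) (k'.1.1.mono inf_le_left) (k.2 _ e) (k'.2 _ e)

theorem pk_prod (f : Subgroup GQ → ℕ) :
    ∏ v ∈ plc N, f (Gv v) = f (Gv 0) * ∏ w ∈ plS N, f (⊤ ⊓ B2.Dec w) := by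
  have hi : Set.InjOn pl ((range (N + 1)).filter Nat.Prime : Finset ℕ) := fun v hv w hw e => by
    rw [← pl_p (mem_filter.1 hv).2, e, pl_p (mem_filter.1 hw).2]
  rw [plc, prod_insert fun e => Nat.not_prime_zero (mem_filter.1 e).2, plS, prod_image hi]
  exact congrArg _ (prod_congr rfl fun v hv => by rw [Cu.sa3_G (mem_filter.1 hv).2])

/-- Localisation. -/
noncomputable def pkL (a : GQ → M →+ M) (N v : ℕ) : Zu ⊤ a (plS N) →+ Z1 (Gv v) a :=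
  ((rs (Gv v)).comp (Zu ⊤ a (plS N)).subtype).codRestrict _ fun z =>
    B2.rs_mem_Z1 (z.2.1.1.mono le_top)

theorem pk_sha [Finite (Zu ⊤ a (plS N))] {W : ∀ v : plc N, AddSubgroup (Z1 (Gv v) a)}
    (h : ∀ v, W v = (B1 (Gv v) a).addSubgroupOf _) : Nat.card {z // ∀ v : plc N, pkL a N v z ∈ W v} ≤
      Nat.card (Zc ⊤ a (plS N) fun w => B1 (⊤ ⊓ B2.Dec w) a) := by
  have : Finite (Zc ⊤ a (plS N) fun w => B1 (⊤ ⊓ B2.Dec w) a) :=
    Finite.Set.subset (Zu ⊤ a (plS N)) fun _ h => (B2.mem_Zc.1 h).1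
  refine Nat.card_le_card_of_injective (fun z => ⟨z.1.1, B2.mem_Zc.2 ⟨z.1.2, fun w hw => ?_⟩⟩)
    fun z z' e => Subtype.ext (Subtype.ext (congrArg (·.1) e :))
  obtain ⟨v, h1, h2, rfl⟩ := IE_mem.1 hw
  have e := z.2 ⟨v, mem_plc.2 (.inr ⟨h2, h1⟩)⟩
  rw [h] at e
  rw [Cu.sa3_G h2]
  exact e

theorem pk_arith {c c' d d' h h' k z z' v0 v h0 β0 β μ s : ℕ} (e1 : c ≤ d) (e2 : c' ≤ d')
    (i1 : d' * h' * k ≤ z) (i2 : d * h * k ≤ z') (e3 : v0 ≤ h0) (e4 : v ≤ μ ^ (s + 1) * h)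
    (e5 : h0 * β0 = μ) (e6 : h' * β = μ ^ s) (e7 : h0 ≤ k) (p1 : 0 < h0) (p2 : 0 < h') :
    c * c' * (v0 * v) ≤ z * z' * (β0 * β) := by
  refine Nat.le_of_mul_le_mul_right ?_ (mul_pos p1 p2)
  calc _ ≤ d * d' * (k * (μ ^ (s + 1) * h)) * (k * h') := by
        gcongr
        exact e3.trans e7
    _ = d' * h' * k * (d * h * k) * (μ ^ s * μ) := by ring
    _ ≤ z * z' * (μ ^ s * μ) := by gcongr
    _ = _ := by rw [← e6, ← e5]; ring

/-- Global duality in the existence form, from the two global counts. -/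
theorem pk_gen [Finite M] [Finite M'] (hd : Dual3 r 1 ⊤ a a' b) (two : 2 ≤ N)
    (hg : GoodA ⊤ a (plS N)) {k : ℕ} (hk : Nat.card (H0 (Gv 0) a') ≤ k)
    (i1 : Nat.card (Rs ⊤ a' (plS N)) * k ≤ Nat.card (Zu ⊤ a (plS N)))
    (i2 : Nat.card (Rs ⊤ a (plS N)) * k ≤ Nat.card (Zu ⊤ a' (plS N)))
    {L : ℕ → AddSubgroup (GQ → M')} (hL : ∀ v ∈ plc N, B1 (Gv v) a' ≤ L v) {x : ℕ → GQ → M}
    (hx : ∀ v ∈ plc N, Coc (Gv v) a (x v))
    (h : ∀ y ∈ Zu ⊤ a' (plS N), (∀ v ∈ plc N, rs (Gv v) y ∈ L v) →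
      ∑ v ∈ plc N, iv v (cupb b a' (x v) y) = 0) :
    ∃ z ∈ Zu ⊤ a (plS N), ∀ v ∈ plc N, ∀ u ∈ L v, u ∈ Z1 (Gv v) a' →
      iv v (cupb b a' (x v + z) u) = 0 := by
  have hH : Op ⊤ := isOpen_univ
  have hl := fun v => hd.mono (le_top (a := Gv v))
  have f1 := B6.finite_Zu3 hH hd (plS N)
  have f2 := B6.finite_Zu3 hH hd.flip (plS N)
  have f3 : ∀ v : plc N, Finite (Z1 (Gv v) a) := fun ⟨v, hv⟩ => (tc_pv hv).elim
    (fun e => e ▸ (pk_card0 (hl 0).zero).1) fun e => (pk_card e (hl v)).1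
  have f4 : ∀ v : plc N, Finite (Z1 (Gv v) a') := fun ⟨v, hv⟩ => (tc_pv hv).elim
    (fun e => e ▸ (pk_card0 (hl 0).zero.flip).1) fun e => (pk_card e (hl v).flip).1
  choose p hp using fun v : plc N => pk_lp (tc_pv v.2) (hl v).zero
  have k1 := fun v : plc N => pk_kers (tc_pv v.2) (hl v) (hp v)
  have c4 : ∏ v : plc N, Nat.card (p v).flip.ker = ∏ v ∈ plc N, Nat.card (B1 (Gv v) a') := by
    rw [← prod_coe_sort (plc N)]
    refine prod_congr rfl fun v _ => ?_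
    rw [(k1 v).2]
    exact Nat.card_congr (AddSubgroup.addSubgroupOfEquivOfLe (B6.B1_le0 (hl v).zero.act')).toEquiv
  have c5 : (∏ w ∈ plS N, Nat.card (H0 (⊤ ⊓ B2.Dec w) a')) *
      ∏ w ∈ plS N, Nat.card (B1 (⊤ ⊓ B2.Dec w) a') = Nat.card M' ^ (plS N).card := by
    rw [← prod_mul_distrib, ← prod_const]
    exact prod_congr rfl fun v _ => B2.card_H0_B1 _ _
  have c6 : ∏ w ∈ plS N, Nat.card (Z1 (⊤ ⊓ B2.Dec w) a') ≤ Nat.card M' ^ ((plS N).card + 1) *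
      ∏ w ∈ plS N, Nat.card (H0 (⊤ ⊓ B2.Dec w) a) := by
    rw [prod_congr rfl fun w _ => (B6.ld_core3 cft hH (hd.flip.mono inf_le_left)).2.1,
      prod_mul_distrib, prod_pow_eq_pow_sum, sum_add_distrib, ← card_eq_sum_ones]
    have := B2.sum_ldeg_le hH (apart_plS N)
    rw [Subgroup.index_top] at this
    have : 0 < Nat.card M' := Nat.card_pos
    gcongr
  have c7 := (pk_card0 (hl 0).zero.flip).2
  have c8 := B2.card_H0_B1 (Gv 0) a'
  rw [B2.card_Rs] at i1 i2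
  obtain ⟨z, hz⟩ := pk_pi p (fun v => pkL a N v) (fun v => pkL a' N v) (fun z z' => by
      rw [← pk_recip hd.zero two hg z.2 z'.2, ← sum_coe_sort (plc N)]
      exact sum_congr rfl fun v _ => (hp _ _ _).trans (iv_congr (tc_pv v.2) fun g hg l hl => by
        simp [cupb, pkL, B2.rs_of_mem hg, B2.rs_of_mem hl])) (.inl ⟨f1, f2, by
      rw [c4, prod_coe_sort (plc N) fun v => Nat.card (Z1 (Gv v) a'),
        pk_prod fun D => Nat.card (Z1 D a'), pk_prod fun D => Nat.card (B1 D a')]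
      exact pk_arith (pk_sha fun v => (k1 v).1) (pk_sha fun v => (k1 v).2) i1 i2 c7 c6 c8 c5 hk
        Nat.card_pos (prod_pos fun _ _ => Nat.card_pos)⟩)
    (U := fun v => (L v).addSubgroupOf _) (fun v => (k1 v).2 ▸ fun c hc => hL v v.2 hc)
    (x := fun v => ⟨_, B2.rs_mem_Z1 (hx v v.2)⟩) fun y hy => by
      rw [← h y.1 y.2 fun v hv => hy ⟨v, hv⟩, ← sum_coe_sort (plc N)]
      exact sum_congr rfl fun v _ => (hp _ _ _).trans (iv_congr (tc_pv v.2) fun g hg l hl => by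
        simp [cupb, pkL, B2.rs_of_mem hg, B2.rs_of_mem hl])
  refine ⟨z.1, z.2, fun v hv u hu h1 => Eq.trans (iv_congr (tc_pv hv) fun g hg l _ => ?_)
    ((hp _ _ _).symm.trans (hz ⟨v, hv⟩ ⟨u, h1⟩ hu))⟩
  simp [cupb, pkL, B2.rs_of_mem hg]

end Pool.Agent.SP
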