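import Pool.Agent.Lib.MP_696deb_nt.SP.PE
import Pool.Agent.Lib.MP_696deb_nt.SP.PI3

/-! Local duality for the two-torsion of an elliptic curve. -/

set_option autoImplicit false

open scoped Classical
open Finset Function

namespace Pool.Agent.SP

open Pool.Agent.Lib.MP_696deb_nt Pool.Agent.Lib.MP_696deb_nt.Sm
open Pool.Agent.Lib.MP_696deb_nt.B2 (cc jC)

open Pool.Agent.Lib.MP_696deb_nt.B2 (Z1 B1 H0 rs cupb Coc ann)
open Pool.Agent.Lib.MP_696deb_nt.B6 (W2 N2 sg dW)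

namespace Cu

variable {C : Cu} {v : ℕ} {D : ℤ} {t : GQ → C.A}

theorem loc_nondeg (hv : Pv v) (ht : C.Z2 (Gv v) t)
    (h : ∀ k, C.Z2 (Gv v) k → C.bv v k t = 0) :
    ∃ S : C.A, 2 • S = 0 ∧ ∀ g ∈ Gv v, t g = C.act g S - S := by
  obtain ⟨r, ι, c⟩ := C.exists_co
  obtain ⟨x, hx⟩ := pk_ker hv (dual3_dW c.sm _) (c.coc ht) fun k hk => by
    rw [← c.bv, bv_congr hv (fun g hg => c.inv (ht.two g hg)) fun _ _ => rfl,
      bv_comm hv ht (c.z2 hk), h _ (c.z2 hk)]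
  exact ⟨ι x, c.two x, fun g hg => by rw [← c.cob, ← hx g hg, c.inv (ht.two g hg)]⟩

theorem pl_real (ht : C.Z2 (Gv 0) t)
    (h : ∀ k, C.Z2 (Gv 0) k → C.Loc 0 D k → C.bv 0 k t = 0) : C.Loc 0 D t := by
  rcases C.disc_ne.lt_or_gt with hn | hp
  · obtain ⟨S, hS, e⟩ := Z2.cob_cc hn (Gv_zero ▸ ht)
    exact loc_two 0 _ hS fun g hg => e g (Gv_zero ▸ hg)
  obtain ⟨i, j, -, hi, hj, k⟩ := exists_Ln hp
  have t3 : ∀ i j : Fin 3, ∃ m, ¬ (m = i ∨ m = j) := by decide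
  obtain ⟨m, hm⟩ := t3 i j
  replace hm := mt (k m) hm
  obtain ⟨ε, i, hi, e⟩ : ∃ (ε : ℤ) (i : Fin 3), C.Ln ε i ∧ chi D cc = chi ε cc := by
    rcases F2_cases (chi D cc) with e | e
    exacts [⟨1, i, hi, e.trans (chi_one _).symm⟩, ⟨-1, j, hj, e.trans tbb_cc.symm⟩]
  replace e : ∀ g ∈ Gv 0, chi D g = chi ε g := fun g hg => by
    rcases loc_Gv0 hg with rfl | rfl
    exacts [(loc_one _).trans (loc_one _).symm, e]
  obtain ⟨z, c⟩ := mid_cc hp hm hi
  have b := h _ z ((C.loc_cob 0 ε _).congr e fun _ _ => rfl)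
  rw [bv, tb_zero, cu, cu, z.one, ep_zero_left, add_zero, c,
    act_of_pm (isCC_Kpm hp B2.isCC_cc) (ht.two cc loc_cc_mem), ep_comm] at b
  exact (ln_loc hp hm hi ht b).congr e fun _ _ => rfl

/-- The local condition is its own annihilator. -/
theorem loc_dual (hv : Pv v) (hD : D ≠ 0) (ht : C.Z2 (Gv v) t)
    (h : ∀ k, C.Z2 (Gv v) k → C.Loc v D k → C.bv v k t = 0) : C.Loc v D t := by
  rcases id hv with rfl | hq
  · exact pl_real ht h
  obtain ⟨r, ι, c⟩ := C.exists_co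
  have hd := dual3_dW c.sm (Gv v)
  obtain ⟨p, hp⟩ := pk_lp hv hd.zero
  obtain ⟨f, e1⟩ := pk_card hq hd
  let L : AddSubgroup (Z1 (Gv v) (sg r)) :=
    { carrier := {k | C.Loc v D fun g => ι (k.1 g)}
      zero_mem' := (C.loc_zero v D).congr (fun _ _ => rfl) fun _ _ => map_zero ι
      add_mem' := fun k k' => (k.add k').congr (fun _ _ => rfl) fun _ _ => map_add ι _ _
      neg_mem' := fun k => (k.zsmul (-1)).congr (fun _ _ => rfl) fun _ _ =>
        (map_neg ι _).trans (neg_one_zsmul _).symm }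
  have iv' : ∀ {k : GQ → C.A}, C.Z2 (Gv v) k → ∀ g ∈ Gv v,
      ι (rs (Gv v) (fun g => invFun ι (k g)) g) = k g := fun hk g hg => by
    rw [B2.rs_of_mem hg, c.inv (hk.two g hg)]
  obtain ⟨k, k1, k2⟩ := ls C v D hq hD
  have e2 := Nat.card_le_card_of_injective (fun i => (⟨⟨_, B2.rs_mem_Z1 (c.coc (k1 i).1)⟩,
    (k1 i).2.congr (fun _ _ => rfl) (iv' (k1 i).1)⟩ : L)) fun i j e => k2 i j fun g hg => by
      rw [← iv' (k1 i).1 g hg, ← iv' (k1 j).1 g hg]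
      exact congrArg (fun z : L => ι (z.1.1 g)) e
  have e3 := B2.card_H0_B1 (Gv v) (sg r)
  have e4 : Nat.card (L ⊓ p.ker : AddSubgroup _) ≤ Nat.card (B1 (Gv v) (sg r)) := by
    rw [← Nat.card_congr (AddSubgroup.addSubgroupOfEquivOfLe (B6.B1_le0 hd.zero.act)).toEquiv,
      ← (pk_kers hv hd hp).1]
    exact AddSubgroup.card_le_of_le inf_le_right
  have e := B2.eq_ann p (W := L) (W' := L) (fun y hy x hx => by
    rw [hp, ← c.bv]
    exact bv_iso hv (c.z2 x.2.1) (c.z2 y.2.1) hx hy) (by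
      rw [B6.card_W2] at e1 e3
      rw [Nat.card_fin] at e2
      refine Nat.le_of_mul_le_mul_right ?_ four_pos
      calc _ = Nat.card (Z1 (Gv v) (sg r)) * 4 * Nat.card (L ⊓ p.ker : AddSubgroup _) := by ring
        _ ≤ 4 ^ tcD v * Nat.card (H0 (Gv v) (sg r)) * Nat.card (B1 (Gv v) (sg r)) := by
          rw [e1]
          gcongr
        _ = (if v = 2 then 8 else 4) * (if v = 2 then 8 else 4) * 4 := by
          rw [mul_assoc, e3, tcD, if_neg hq.ne_zero]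
          split_ifs <;> rfl
        _ ≤ _ := by gcongr)
  have m : (⟨_, B2.rs_mem_Z1 (c.coc ht)⟩ : Z1 (Gv v) (sg r)) ∈ L := by
    rw [e]
    intro x hx
    rw [hp, ← c.bv, bv_congr hv (fun _ _ => rfl) (iv' ht)]
    exact h _ (c.z2 x.2.1) hx
  exact Loc.congr m (fun _ _ => rfl) fun g hg => (iv' ht g hg).symm

end Cu

end Pool.Agent.SP
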