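import Pool.Agent.Lib.MP_696deb_nt.SP.TE

/-! Dual isogenies of degree two. -/

set_option autoImplicit false

open scoped Classical
open Finset

namespace Pool.Agent.SP

open Pool.Agent.Lib.MP_696deb_nt Pool.Agent.Lib.MP_696deb_nt.Sm
open Pool.Agent.Lib.MP_696deb_nt.B2 (jC cc)

variable {C C' : Cu} {φ : C.A →+ C'.A} {ψ : C'.A →+ C.A} {D : ℤ}

theorem Hi.tw (h : Hi C C' φ ψ) (D : ℤ) (g : GQ) (P : C.A) :
    φ (C.tw D g P) = C'.tw D g (φ P) := by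
  rw [Cu.tw, Cu.tw, map_zsmul, h.act]

theorem Hi.cob (h : Hi C C' φ ψ) (D : ℤ) (P : C.A) (g : GQ) :
    φ (C.cob D P g) = C'.cob D (φ P) g := by
  rw [Cu.cob, Cu.cob, map_sub, h.tw]

theorem Hi.io (h : Hi C C' φ ψ) (t : GQ → F2) (g : GQ) : φ (C.io t g) = 0 := by
  rw [Cu.io, map_nsmul, h.tor _ (C.two_T 0), C.ep_self, ZMod.val_zero, zero_nsmul, nsmul_zero]

theorem Hi.nu (h : Hi C C' φ ψ) (h' : Hi C' C ψ φ) {t : GQ → F2} {k : GQ → C'.A} {g : GQ}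
    (e : ψ (k g) = C.io t g) : 2 • k g = 0 ∧ C'.nu k g = t g := by
  have h1 : 2 • k g = 0 := by rw [← h'.dual, e, h.io]
  have h2 : C.io (C'.nu k) g = C.io t g := (h'.tor _ h1).symm.trans e
  exact ⟨h1, by rw [← Cu.ep_io (C := C) (C'.nu k) g, h2, Cu.ep_io]⟩

theorem Hi.bd (h : Hi C C' φ ψ) {v : ℕ} : C'.Bd v ↔ C.Bd v := by rw [Cu.Bd, Cu.Bd, h.N0]

theorem Iso.xl (h : Iso C C') (v : ℕ) (D : ℤ) (t : GQ → F2) : C.Xl v D t ↔ C'.Yl v D t := by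
  obtain ⟨φ, ψ, h1, h2⟩ := h
  constructor
  · rintro ⟨Q, hQ⟩
    obtain ⟨R, rfl⟩ := C.exists_half Q
    have e : ∀ g ∈ Gv v, 2 • C'.cob D (φ R) g = 0 ∧ C'.nu (C'.cob D (φ R)) g = t g :=
      fun g hg => h1.nu h2 (by rw [h2.cob, h1.dual, hQ g hg])
    refine ⟨C'.cob D (φ R), Cu.z2_cob_half fun g hg => ?_, C'.loc_cob v D _,
      fun g hg => (e g hg).2⟩
    have e1 := (e g hg).1
    rwa [Cu.cob, smul_sub, ← Cu.tw_nsmul, sub_eq_zero] at e1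
  · rintro ⟨k, k1, ⟨Q, hQ⟩, k3⟩
    exact ⟨ψ Q, fun g hg => by
      rw [← h2.cob, ← hQ g hg, h2.tor _ (k1.two g hg), Cu.io, ← k3 g hg, Cu.nu]⟩

theorem Iso.xp (h : Iso C C') (D : ℤ) : C.XP D = C'.YP D := by
  obtain ⟨φ, ψ, h1, -⟩ := id h
  ext t
  change (t ∈ Ch C.N0 ∧ ∀ v, C.Bd v → C.Xl v D t) ↔ t ∈ Ch C'.N0 ∧ ∀ v, C'.Bd v → C'.Yl v D t
  simp only [h1.N0, h1.bd, h.xl]

theorem Iso.kz (h : Iso C C') (k : C'.Kz D) : C.Kz D := by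
  obtain ⟨φ, ψ, h1, h2⟩ := h
  exact k.of φ ψ 1 (h1.tw D) (h2.tw D) h1.dual

theorem Iso.fn (fn : FnStmt) (h : Iso C C') (hD : D ≠ 0) (k : Fn C'.a C'.b C'.c D) :
    Fn C.a C.b C.c D :=
  (fn C D hD).1 (h.kz ((fn C' D hD).2 k))

theorem ti_ne {ε : ℤ} {p : ℕ} (hε : ε = 1 ∨ ε = -1) (hp : p.Prime) : ε * p ≠ 0 :=
  mul_ne_zero (by omega) (by exact_mod_cast hp.ne_zero)

theorem Iso.goalF (fn : FnStmt) (h : Iso C C') (k : GoalF C'.a C'.b C'.c) : GoalF C.a C.b C.c := by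
  obtain ⟨ε, U, s, N, h1, h2, h3, h4⟩ := k
  exact ⟨ε, U, s, N, h1, h2, h3, fun p hp a b => h.fn fn (ti_ne h1 hp) (h4 p hp a b)⟩

theorem Iso.goal (fn : FnStmt) (h : Iso C C') (k : Goal C'.a C'.b C'.c) : Goal C.a C.b C.c := by
  obtain ⟨ε, h1, h2⟩ := k
  exact ⟨ε, h1, h2.mono fun p hp a => h.fn fn (ti_ne h1 hp) a⟩

/-- A class of the first isogeny that lifts comes from the Selmer group of the second curve. -/
theorem Iso.lift (h : Iso C C') {ε : ℤ} {p : ℕ} (hε : ε = 1 ∨ ε = -1) (hp : C.Gp p)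
    {t : GQ → F2} (ht : t ∈ Ch C.N0) (k : C.Lf (ε * p) (C.io t)) :
    t ∈ C'.RY (ε * p) ∨ t + chi C.bb ∈ C'.RY (ε * p) := by
  obtain ⟨φ, ψ, h1, h2⟩ := h
  obtain ⟨c, c1, c2, c3, c4⟩ := k
  have hp' : C'.Gp p := ⟨hp.1, h1.N0 ▸ hp.2⟩
  have hD := ti_ne hε hp.1
  have e : ∀ g, 2 • (φ ∘ c) g = 0 ∧ C'.nu (φ ∘ c) g = t g := fun g =>
    h1.nu h2 (by rw [Function.comp_apply, h1.dual, c4])
  have z : C'.Z2 ⊤ (φ ∘ c) := ⟨fun g _ => (e g).1, fun g _ l _ => by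
    rw [← C'.tw_two (ε * p) g (e l).1]
    simp only [Function.comp_apply, c2, map_add, h1.tw], c1.comp φ⟩
  have l : ∀ v, Pv v → C'.Loc v (ε * p) (φ ∘ c) := fun v hv => by
    obtain ⟨Q, hQ⟩ := c3 v hv
    exact ⟨φ Q, fun g hg => by rw [Function.comp_apply, hQ g hg, h1.cob]⟩
  have nd : ∀ q, C'.Gp q → q ≠ p → ¬ (q : ℤ) ∣ ε * p := fun q hq hqp d => by
    have d1 : (q : ℤ) ∣ p := by
      rcases hε with rfl | rfl
      · rwa [one_mul] at d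
      · rwa [neg_one_mul, dvd_neg] at d
    exact hqp ((Nat.prime_dvd_prime_iff_eq hq.1 hp.1).1 (Int.natCast_dvd_natCast.1 d1))
  have u : ∀ q, C'.Gp q → q ≠ p → (φ ∘ c) (sig q) = 0 := fun q hq hqp =>
    Cu.loc_good hq (nd q hq hqp) (n := 1) (fun g => (e g).1) (l q (.inr hq.1))
  rcases (C'.ep_T_eq_zero 0).1 ((e (sig p)).2.trans (ht.2 p hp.1 hp.2)) with s | s
  · refine .inl ⟨φ ∘ c, ⟨⟨z, fun q hq => ?_⟩, fun v hv => l v hv.pv⟩, funext fun g => (e g).2⟩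
    by_cases hqp : q = p
    · rw [hqp, s]
    · exact u q hq hqp
  · have zd := Cu.z2_dT h2.two ⊤ (ε * p)
    refine .inr ⟨φ ∘ c + C'.dT (ε * p), ⟨⟨z.add zd, fun q hq => ?_⟩, fun v hv =>
      (l v hv.pv).add (Cu.loc_dT v _)⟩, funext fun g => ?_⟩
    · rw [Pi.add_apply, Cu.dT_sig h2.two hq hD]
      by_cases hqp : q = p
      · have := Fact.mk hp.1
        have v1 : padicValInt p (ε * p) = 1 := by
          rcases hε with rfl | rfl <;> simp [padicValInt]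
        rw [hqp, s, v1, Nat.cast_one, ZMod.val_one, one_nsmul, C'.T_add_self]
      · rw [u q hq hqp, padicValInt.eq_zero_of_not_dvd (nd q hq hqp), Nat.cast_zero,
          ZMod.val_zero, zero_nsmul, add_zero]
    · rw [C'.nu_add (e g).1 (zd.two g trivial), (e g).2, Cu.nu_dT h2.two, h1.b, Pi.add_apply]

end Pool.Agent.SP
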