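import Pool.Agent.Lib.MP_696deb_nt.SP.TI

/-! Translations of the curve. -/

set_option autoImplicit false

open scoped Classical
open Finset

namespace Pool.Agent.SP

open Pool.Agent.Lib.MP_696deb_nt Pool.Agent.Lib.MP_696deb_nt.Sm
open Pool.Agent.Lib.MP_696deb_nt.B2 (jC cc)

/-- An isomorphism over the rational numbers. -/
structure Eqv (C C' : Cu) (j : C.A ≃+ C'.A) : Prop where
  N0 : C'.N0 = C.N0
  disc : C'.disc = C.disc
  act : ∀ g P, j (C.act g P) = C'.act g (j P)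

theorem exists_eqv {C C' : Cu} (r : ℤ) (π : Equiv.Perm (Fin 3))
    (h : ∀ i, C'.e i = C.e (π i) - r) (hN : C'.N0 = C.N0) :
    ∃ j, Eqv C C' j ∧ ∀ i, j (C.T (π i)) = C'.T i := by
  have e : ∀ π : Equiv.Perm (Fin 3), π 0 = 0 ∧ π 1 = 1 ∧ π 2 = 2 ∨ π 0 = 0 ∧ π 1 = 2 ∧ π 2 = 1 ∨
      π 0 = 1 ∧ π 1 = 0 ∧ π 2 = 2 ∨ π 0 = 1 ∧ π 1 = 2 ∧ π 2 = 0 ∨ π 0 = 2 ∧ π 1 = 0 ∧ π 2 = 1 ∨
      π 0 = 2 ∧ π 1 = 1 ∧ π 2 = 0 := by decide
  have k : (C.a : Qb) = C'.a - 3 * r ∧ (C.b : Qb) = C'.b - 2 * r * C'.a + 3 * r ^ 2 ∧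
      (C.c : Qb) = C'.c - r * C'.b + r ^ 2 * C'.a - r ^ 3 := by
    rw [C.ha, C.hb, C.hc, C'.ha, C'.hb, C'.hc, h, h, h]
    rcases e π with ⟨a, b, c⟩ | ⟨a, b, c⟩ | ⟨a, b, c⟩ | ⟨a, b, c⟩ | ⟨a, b, c⟩ | ⟨a, b, c⟩ <;>
      rw [a, b, c] <;> refine ⟨?_, ?_, ?_⟩ <;> ring
  have v : VC (RingHom.id Qb) (C.W Qb) (C'.W Qb) 1 (-r) 0 0 := by
    refine ⟨one_ne_zero, ?_, ?_, ?_, ?_, ?_⟩ <;>
      simp only [Cu.W, RingHom.id_apply, k.1, k.2.1, k.2.2] <;> ring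
  refine ⟨AddEquiv.ofBijective v.hom ⟨v.hom_injective, ?_⟩, ⟨hN, ?_, fun g P => ?_⟩, fun i => ?_⟩
  · rintro (_ | ⟨x, y, hP⟩)
    · exact ⟨0, map_zero _⟩
    · exact v.mem_range hP (x := x + r) (y := y) (by simp) (by simp)
  · refine Int.cast_injective (α := Qb) ?_
    simp only [Cu.disc, dsc]
    push_cast
    rw [k.1, k.2.1, k.2.2]
    ring
  · change v.hom _ = C'.act g (v.hom P)
    rcases P with _ | ⟨x, y, hP⟩
    · rw [← WeierstrassCurve.Affine.Point.zero_def, map_zero, map_zero, map_zero]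
    · obtain ⟨h1, e1⟩ := C.act_some g hP
      obtain ⟨h2, e2⟩ := C'.act_some g ((v.nonsingular x y).mpr hP)
      rw [e1, v.hom_some, v.hom_some, e2]
      exact ell_ext (by simp) (by simp)
  · exact (v.hom_some (C.split (π i)).nonsingular_root).trans
      (ell_ext (by simp [h, sub_eq_add_neg]) (by simp))

variable {C C' : Cu} {j : C.A ≃+ C'.A} {D : ℤ} {a : GQ → C.A}

theorem Eqv.symm (h : Eqv C C' j) : Eqv C' C j.symm := by
  exact ⟨h.N0.symm, h.disc.symm, fun g P => j.injective (by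
    rw [h.act, j.apply_symm_apply, j.apply_symm_apply])⟩

theorem Eqv.tw (h : Eqv C C' j) (D : ℤ) (g : GQ) (P : C.A) :
    j (C.tw D g P) = C'.tw D g (j P) := by
  rw [Cu.tw, Cu.tw, map_zsmul, h.act]

theorem Eqv.cob (h : Eqv C C' j) (D : ℤ) (P : C.A) (g : GQ) :
    j (C.cob D P g) = C'.cob D (j P) g := by
  rw [Cu.cob, Cu.cob, map_sub, h.tw]

theorem eqv_ep (j : C.A ≃+ C'.A) (S S' : C.A) : C'.ep (j S) (j S') = C.ep S S' := by
  simp only [Cu.ep, map_eq_zero_iff _ j.injective, j.injective.eq_iff]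

theorem Eqv.loc (h : Eqv C C' j) {v : ℕ} (k : C.Loc v D a) : C'.Loc v D fun g => j (a g) := by
  obtain ⟨Q, hQ⟩ := k
  exact ⟨j Q, fun g hg => by rw [← h.cob, ← hQ g hg]⟩

theorem Eqv.z2 (h : Eqv C C' j) {H : Subgroup GQ} (k : C.Z2 H a) : C'.Z2 H fun g => j (a g) :=
  ⟨fun g hg => by rw [← map_nsmul, k.two g hg, map_zero],
    fun g hg l hl => by rw [k.coc g hg l hl, map_add, h.act], k.sm.comp j⟩

theorem Eqv.sh_of (h : Eqv C C' j) (k : a ∈ C.Sh D) : (fun g => j (a g)) ∈ C'.Sh D :=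
  ⟨⟨h.z2 k.1.1, fun q hq => by
    beta_reduce
    rw [k.1.2 q ⟨hq.1, h.N0 ▸ hq.2⟩, map_zero]⟩,
    fun v hv => h.loc (k.2 v (hv.imp_right fun e => ⟨e.1, h.N0 ▸ e.2⟩))⟩

theorem Eqv.sh (h : Eqv C C' j) : (fun g => j (a g)) ∈ C'.Sh D ↔ a ∈ C.Sh D := by
  refine ⟨fun k => ?_, h.sh_of⟩
  simpa only [j.symm_apply_apply] using h.symm.sh_of k

theorem Eqv.lf (h : Eqv C C' j) (k : C.Lf D a) : C'.Lf D fun g => j (a g) := by
  obtain ⟨c, c1, c2, c3, c4⟩ := k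
  exact ⟨fun g => j (c g), c1.comp j, fun g l => by
    beta_reduce
    rw [c2, map_add, h.tw], fun v hv => h.loc (c3 v hv), fun g => by
    beta_reduce
    rw [← map_nsmul, c4]⟩

theorem Eqv.card_Sh (h : Eqv C C' j) (D : ℤ) : Nat.card (C'.Sh D) = Nat.card (C.Sh D) := by
  exact Nat.card_congr ⟨fun c => ⟨fun g => j.symm (c.1 g), h.symm.sh_of c.2⟩,
    fun c => ⟨fun g => j (c.1 g), h.sh_of c.2⟩,
    fun c => Subtype.ext (funext fun g => j.apply_symm_apply _),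
    fun c => Subtype.ext (funext fun g => j.symm_apply_apply _)⟩

theorem Eqv.kz (h : Eqv C C' j) (k : C'.Kz D) : C.Kz D :=
  k.of j.toAddMonoidHom j.symm.toAddMonoidHom 0 (h.tw D) (h.symm.tw D) fun P =>
    (j.symm_apply_apply P).trans (one_nsmul P).symm

theorem Eqv.goalF (fn : FnStmt) (h : Eqv C C' j) (k : GoalF C'.a C'.b C'.c) :
    GoalF C.a C.b C.c := by
  obtain ⟨ε, U, s, N, h1, h2, h3, h4⟩ := k
  refine ⟨ε, U, s, N, h1, h2, h3, fun p hp hN hF => ?_⟩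
  have hD : ε * p ≠ 0 := mul_ne_zero (by omega) (Int.natCast_ne_zero.2 hp.ne_zero)
  exact (fn C _ hD).1 (h.kz ((fn C' _ hD).2 (h4 p hp hN hF)))

end Pool.Agent.SP
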