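import Pool.Agent.Lib.MP_696deb_nt.SP.PA
import Pool.Agent.Lib.MP_696deb_nt.SP.TI
import Pool.Agent.Lib.MP_696deb_nt.SP.TX

/-! Corank at most one: criteria and transfer. -/

set_option autoImplicit false

open scoped Classical
open Finset Function

namespace Pool.Agent.SP

open Pool.Agent.Lib.MP_696deb_nt Pool.Agent.Lib.MP_696deb_nt.Sm
open Pool.Agent.Lib.MP_696deb_nt.B2 (cc jC Plc Op Zu Rs Z1 H0 GoodA Apart Away cupb)
open Pool.Agent.Lib.MP_696deb_nt.B6 (W2 N2 sg dW)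

theorem pm_abs {G : Type} [AddCommGroup G] (B : AddSubgroup G) (Y : G → Prop)
    (hs : ∀ x y, Y x → Y y → Y (x - y)) (h2 : ∀ x, Y x → Y (2 • x)) (a : G)
    (h : ∀ y, Y y → 2 • y ∈ B → y ∈ B ∨ y - a ∈ B) (n : ℕ) :
    ∃ s : Finset G, s.card ≤ 2 ^ n ∧ ∀ y, Y y → 2 ^ n • y ∈ B → ∃ b ∈ s, y - b ∈ B := by
  induction n with
  | zero => exact ⟨{0}, le_rfl, fun y _ k => ⟨0, mem_singleton_self 0, by simpa using k⟩⟩
  | succ n ih =>
    obtain ⟨s, h1, h3⟩ := ih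
    obtain ⟨f, hf⟩ : ∃ f : G → G, ∀ b, (∃ y, Y y ∧ 2 • y - b ∈ B) → Y (f b) ∧ 2 • f b - b ∈ B :=
      ⟨fun b => if k : ∃ y, Y y ∧ 2 • y - b ∈ B then k.choose else 0, fun b k => by
        simp only [dif_pos k]
        exact k.choose_spec⟩
    refine ⟨s.image f ∪ s.image fun b => f b + a, ?_, fun y hy k => ?_⟩
    · have h4 := card_union_le (s.image f) (s.image fun b => f b + a)
      have h5 := card_image_le (s := s) (f := f)
      have h6 := card_image_le (s := s) (f := fun b => f b + a)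
      rw [pow_succ]
      omega
    · obtain ⟨b, hb, h4⟩ := h3 _ (h2 y hy) (by rwa [smul_smul, ← pow_succ])
      obtain ⟨h5, h6⟩ := hf b ⟨y, hy, h4⟩
      rcases h _ (hs y _ hy h5) (by
        rw [smul_sub, ← sub_sub_sub_cancel_right _ _ b]
        exact sub_mem h4 h6) with h7 | h7
      · exact ⟨_, mem_union_left _ (mem_image_of_mem f hb), h7⟩
      · exact ⟨_, mem_union_right _ (mem_image_of_mem _ hb), by rwa [← sub_sub]⟩

namespace Cu

/-- Coboundaries of points of two-power order. -/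
noncomputable def pmB (C : Cu) (D : ℤ) : AddSubgroup (GQ → C.A) where
  carrier := {c | ∃ (S : C.A) (m : ℕ), 2 ^ m • S = 0 ∧ c = C.cob D S}
  zero_mem' := ⟨0, 0, smul_zero _, funext fun g => by simp [cob, tw_zero]⟩
  add_mem' := by
    rintro _ _ ⟨S, m, h1, rfl⟩ ⟨S', m', k1, rfl⟩
    refine ⟨S + S', m + m', ?_, (C.cob_add D S S').symm⟩
    rw [smul_add, pow_add, mul_smul, mul_smul, k1, smul_comm, h1, smul_zero, smul_zero, add_zero]
  neg_mem' := by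
    rintro _ ⟨S, m, h1, rfl⟩
    exact ⟨-S, m, by rw [smul_neg, h1, _root_.neg_zero], by
      rw [← neg_one_zsmul S, cob_zsmul, neg_one_zsmul]⟩

variable {C C' : Cu} {D : ℤ}

theorem Nl1.k1 (h : C.Nl1 D) : C.K1 D := by
  obtain ⟨a, h⟩ := h
  refine ⟨1, fun n => ?_⟩
  obtain ⟨s, h1, h2⟩ := pm_abs (C.pmB D) (fun y => ∃ c m, c ∈ C.Zs D m ∧ y = 2 • c)
    (by
      rintro _ _ ⟨c, m, k, rfl⟩ ⟨c', m', k', rfl⟩
      rw [mem_Zs'] at k k'
      refine ⟨c - c', m + m', mem_Zs'.2 ⟨sub_mem k.1 k'.1, ?_⟩, (smul_sub 2 c c').symm⟩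
      rw [smul_sub, pow_add, mul_smul, mul_smul, k'.2, smul_comm, k.2, smul_zero, smul_zero,
        sub_zero])
    (by
      rintro _ ⟨c, m, k, rfl⟩
      exact ⟨2 • c, m, nsmul_mem k 2, rfl⟩) a
    (by
      rintro _ ⟨c, m, k, rfl⟩ ⟨S, l, k1, k2⟩
      obtain ⟨Q, rfl⟩ := C.exists_div 2 S
      obtain ⟨R, h3, h4⟩ := h _ ((mem_Zs.1 k).sub Q (m := 2) fun g => by
        have := congrFun k2 g
        rw [cob_nsmul, Pi.smul_apply, Pi.smul_apply, Pi.smul_apply, smul_smul] at this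
        rw [smul_sub, ← this]
        exact sub_self _)
      have h5 : 2 ^ (l + 2) • (R + 2 • Q) = 0 := by
        rw [smul_add, smul_comm _ 2 Q, pow_add, mul_smul, mul_smul, k1, smul_zero, add_zero]
        exact (congrArg _ h3).trans (smul_zero _)
      refine h4.imp (fun h6 => ⟨_, _, h5, funext fun g => ?_⟩) fun h6 => ⟨_, _, h5, funext fun g => ?_⟩
      · rw [cob_add, cob_nsmul, Pi.add_apply, ← h6, Pi.sub_apply, Pi.smul_apply, Pi.smul_apply,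
          smul_sub, sub_add_cancel]
      · have h7 := h6 g
        rw [Pi.sub_apply, smul_sub, sub_eq_iff_eq_add] at h7
        rw [cob_add, cob_nsmul, Pi.add_apply, Pi.sub_apply, Pi.smul_apply, Pi.smul_apply, h7]
        abel) n
  refine ⟨s, h1, fun c k => ?_⟩
  obtain ⟨b, hb, S, m, h3, h4⟩ := h2 _ ⟨c, n, mem_Zs.2 k, rfl⟩ (by
    rw [smul_comm, (mem_Zs'.1 (mem_Zs.2 k)).2, smul_zero]
    exact zero_mem _)
  exact ⟨b, hb, S, m, h3, fun g => by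
    rw [← h4, pow_one, Pi.sub_apply, Pi.smul_apply, add_sub_cancel]⟩

theorem K1.of (h : C'.K1 D) (φ : C.A →+ C'.A) (ψ : C'.A →+ C.A) (i : ℕ)
    (h1 : ∀ g P, φ (C.tw D g P) = C'.tw D g (φ P)) (h2 : ∀ g P, ψ (C'.tw D g P) = C.tw D g (ψ P))
    (h3 : ∀ P, ψ (φ P) = 2 ^ i • P) : C.K1 D := by
  obtain ⟨k, h⟩ := h
  refine ⟨k + i, fun n => ?_⟩
  obtain ⟨t, t1, h⟩ := h n
  refine ⟨t.image fun b g => ψ (b g), card_image_le.trans t1, fun c s => ?_⟩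
  obtain ⟨b, hb, S, m, k1, k2⟩ := h (fun g => φ (c g))
    ⟨fun g => by rw [← map_nsmul, s.tors, map_zero], fun g l => by
      rw [s.coc, map_add, h1], s.lc.comp φ, fun v hv => by
      obtain ⟨P, hP⟩ := s.loc v hv
      exact ⟨φ P, fun g hg => by
        beta_reduce
        rw [hP g hg, cob, cob, map_sub, h1]⟩⟩
  exact ⟨_, mem_image_of_mem _ hb, ψ S, m, by rw [← map_nsmul, k1, map_zero], fun g => by
    rw [pow_add, mul_smul, ← h3, ← map_nsmul, k2, map_add, cob, cob, map_sub, h2]⟩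

theorem fn1 (h : C.K1 D) (k : ¬ C.Kz D) : Fn1 C.a C.b C.c D := by
  intro C' h1 h2 h3
  obtain ⟨a, b, c, e, N, l⟩ := C'
  obtain rfl : a = C.a := h1
  obtain rfl : b = C.b := h2
  obtain rfl : c = C.c := h3
  exact ⟨h.of (AddMonoidHom.id _) (AddMonoidHom.id _) 0 (fun _ _ => rfl) (fun _ _ => rfl)
    fun P => (one_nsmul P).symm, fun z => k (z.of (AddMonoidHom.id _) (AddMonoidHom.id _) 0
      (fun _ _ => rfl) (fun _ _ => rfl) fun P => (one_nsmul P).symm)⟩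

end Cu

variable {C C' : Cu} {D : ℤ}

theorem pm_iso (h : Iso C C') (k : Fn1 C'.a C'.b C'.c D) : Fn1 C.a C.b C.c D := by
  obtain ⟨k1, k2⟩ := k C' rfl rfl rfl
  refine Cu.fn1 ?_ fun z => k2 (h.symm.kz z)
  obtain ⟨φ, ψ, h1, h2⟩ := h
  exact k1.of φ ψ 1 (h1.tw D) (h2.tw D) h1.dual

theorem pm_eqv {j : C.A ≃+ C'.A} (h : Eqv C C' j) (k : C'.K1 D ∧ ¬ C'.Kz D) : C.K1 D ∧ ¬ C.Kz D :=
  ⟨k.1.of j.toAddMonoidHom j.symm.toAddMonoidHom 0 (h.tw D) (h.symm.tw D) fun P =>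
    (j.symm_apply_apply P).trans (one_nsmul P).symm, fun z => k.2 (h.symm.kz z)⟩

theorem Iso.goalF1 (h : Iso C C') (k : GoalF1 C'.a C'.b C'.c) : GoalF1 C.a C.b C.c := by
  obtain ⟨ε, U, s, N, h1, h2, h3, h4⟩ := k
  exact ⟨ε, U, s, N, h1, h2, h3, fun p hp a b => pm_iso h (h4 p hp a b)⟩

theorem Iso.goal1 (h : Iso C C') (k : Goal1 C'.a C'.b C'.c) : Goal1 C.a C.b C.c := by
  obtain ⟨ε, h1, h2⟩ := k
  exact ⟨ε, h1, h2.mono fun p _ a => pm_iso h a⟩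

theorem Eqv.goalF1 {j : C.A ≃+ C'.A} (h : Eqv C C' j) (k : GoalF1 C'.a C'.b C'.c) :
    GoalF1 C.a C.b C.c := by
  obtain ⟨ε, U, s, N, h1, h2, h3, h4⟩ := k
  exact ⟨ε, U, s, N, h1, h2, h3, fun p hp a b =>
    have l := pm_eqv h (h4 p hp a b C' rfl rfl rfl)
    Cu.fn1 l.1 l.2⟩

theorem fn1_shift {a b c : ℤ} (r d : ℤ) (h : r ^ 3 + a * r ^ 2 + b * r + c = 0)
    (k : Fn1 (3 * r + a) (3 * r ^ 2 + 2 * a * r + b) 0 d) : Fn1 a b c d := by
  rintro C rfl rfl rfl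
  have h' : (r : Qb) ^ 3 + C.a * r ^ 2 + C.b * r + C.c = 0 := by exact_mod_cast h
  have e : dsc (3 * r + C.a) (3 * r ^ 2 + 2 * C.a * r + C.b) 0 = dsc C.a C.b C.c := by
    rw [show C.c = -(r ^ 3 + C.a * r ^ 2 + C.b * r) by omega, dsc, dsc]
    ring
  let C' : Cu := ⟨3 * r + C.a, 3 * r ^ 2 + 2 * C.a * r + C.b, 0, fun i => C.e i - r, C.N0,
    by push_cast; rw [C.ha]; ring, by push_cast; rw [C.ha, C.hb]; ring,
    by rw [C.ha, C.hb, C.hc] at h'; push_cast; linear_combination -h', e ▸ C.ne, e ▸ C.hN⟩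
  obtain ⟨j, hj, -⟩ := exists_eqv (C := C) (C' := C') r (Equiv.refl _) (fun _ => rfl) rfl
  exact pm_eqv hj (k C' rfl rfl rfl)

end Pool.Agent.SP
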