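import Pool.Agent.Lib.MP_696deb_nt.SP.YA
import Pool.Agent.Lib.MP_696deb_nt.TF.L2

/-! The Selmer groups that are defined with completions. -/

set_option autoImplicit false

open scoped Classical
open Finset Function WeierstrassCurve WeierstrassCurve.Affine

namespace Pool.Agent.SP

open Pool.Agent.Lib.MP_696deb_nt Pool.Agent.Lib.MP_696deb_nt.Sm Pool.Agent.TF
open Pool.Agent.Lib.MP_696deb_nt.B2 (jC cc Stmt.IsSel Stmt.CorankLE)

section real

variable {W : WeierstrassCurve ℚ} {e1 e2 e3 : Qb} {K : Type} [Field K] [CharZero K]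

theorem yb_split (h : Split (W.baseChange Qb) e1 e2 e3) (j : Qb →+* K) :
    Split (W.baseChange K) (j e1) (j e2) (j e3) := by
  obtain ⟨a1, a3, a2, a4, a6, b1, b2, b3, -⟩ := h
  refine ⟨?_, ?_, ?_, ?_, ?_, j.injective.ne b1, j.injective.ne b2, j.injective.ne b3, two_ne_zero⟩
  · simpa [WeierstrassCurve.baseChange] using a1
  · simpa [WeierstrassCurve.baseChange] using a3
  · simpa [WeierstrassCurve.baseChange] using congrArg j a2
  · simpa [WeierstrassCurve.baseChange] using congrArg j a4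
  · simpa [WeierstrassCurve.baseChange] using congrArg j a6

theorem yb_half (h : Split (W.baseChange Qb) e1 e2 e3) (j : Qb →+* K) {T : Pt W K}
    (k : 2 • T ∈ (pmap (W := W) j).range) : T ∈ (pmap (W := W) j).range := by
  obtain ⟨Q, k⟩ := k
  obtain ⟨Q, rfl⟩ := ex_half h Q
  obtain ⟨a, b, e⟩ := tors_form (yb_split h j) (U := T - pmap j Q) (by
    rw [smul_sub, ← k, map_nsmul, sub_self])
  have t1 : pmap (W := W) j h.T = (yb_split h j).T := ell_ext rfl (map_zero j)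
  have t2 : pmap (W := W) j h.swap12.T = (yb_split h j).swap12.T := ell_ext rfl (map_zero j)
  exact ⟨Q + (a.val • h.T + b.val • h.swap12.T), by
    rw [map_add, map_add, map_nsmul, map_nsmul, eq_comm, ← sub_eq_iff_eq_add', e, t1, t2]⟩

/-- A coboundary for an involution comes from an algebraic point. -/
theorem yb_inv [IsAlgClosed K] (h : Split (W.baseChange Qb) e1 e2 e3) (j : Qb →+* K) (s : K →+* K)
    (σ : Qb →+* Qb) (h1 : s.comp j = j.comp σ) (h2 : s.comp s = RingHom.id K) {P : Pt W Qb}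
    {S : Pt W K} (e : pmap j P = pmap s S - S) : ∃ Q, P = pmap σ Q - Q := by
  obtain ⟨S, rfl⟩ := ex_half (yb_split h j) S
  obtain ⟨Q, hQ⟩ := yb_half h j (T := S - pmap s S) ⟨-P, by
    rw [map_neg, e, neg_sub, smul_sub, map_nsmul]⟩
  have h3 : pmap s (pmap s S) = S := by
    rw [pmap_pmap, h2]
    cases S <;> rfl
  refine ⟨Q, pmap_injective j ?_⟩
  rw [map_sub, pmap_pmap, ← h1, ← pmap_pmap, hQ, map_sub, h3, e, map_nsmul, two_nsmul, two_nsmul]
  abel

theorem yb_real : ∃ (j : Qb →+* AlgebraicClosure ℝ) (s : B2.Stmt.AbsGal ℝ),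
    (∀ x, j (cc x) = s (j x)) ∧ ∀ x, s (s x) = x := by
  have : IsAlgClosure ℝ ℂ := ⟨inferInstance, inferInstance⟩
  let e : AlgebraicClosure ℝ ≃ₐ[ℝ] ℂ := IsAlgClosure.equiv ℝ _ _
  refine ⟨(e.symm : ℂ →+* AlgebraicClosure ℝ).comp jC, (e.trans Complex.conjAe).trans e.symm,
    fun x => ?_, fun x => ?_⟩
  · simp [B2.jC_cc]
  · simp

end real

namespace Cu

variable (C : Cu) {D : ℤ}

theorem yb_vc (hD : D ≠ 0) : VC (RingHom.id Qb) ((Tw C.a C.b C.c D).baseChange Qb) (C.W Qb)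
    (1 / rt (D : Qb)) 0 0 0 := by
  obtain ⟨h0, h1, h2, h3, h4, h6⟩ := C.tm_vc hD
  exact ⟨h0, h1, h2, h3, h4, h6⟩

theorem yb_sp (hD : D ≠ 0) :
    Split ((Tw C.a C.b C.c D).baseChange Qb) (D * C.e 0) (D * C.e 1) (D * C.e 2) := by
  have h : ∀ {i j : Fin 3}, i ≠ j → D * C.e i ≠ D * C.e j := fun k e =>
    k (C.e_inj (mul_left_cancel₀ (Int.cast_ne_zero.2 hD) e))
  refine ⟨?_, ?_, ?_, ?_, ?_, h (by decide), h (by decide), h (by decide), two_ne_zero⟩ <;>
    simp only [Tw, WeierstrassCurve.baseChange, WeierstrassCurve.map, map_zero, map_mul, map_pow,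
      map_intCast, C.ha, C.hb, C.hc] <;> ring

theorem yb_surj (hD : D ≠ 0) : Surjective (C.yb_vc hD).hom := by
  have h0 := tm_rt_ne hD
  rintro (_ | ⟨x, y, h⟩)
  · exact ⟨0, map_zero _⟩
  · exact (C.yb_vc hD).mem_range h (x := x * rt (D : Qb) ^ 2) (y := y * rt (D : Qb) ^ 3)
      (by rw [RingHom.id_apply]; field_simp; ring)
      (by simp only [RingHom.id_apply]; field_simp; ring)

theorem yb_tw (hD : D ≠ 0) (g : GQ) (P : Lib.MP_696deb_nt.Pt (Tw C.a C.b C.c D) Qb) :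
    (C.yb_vc hD).hom (pmap (g : Qb →+* Qb) P) = C.tw D g ((C.yb_vc hD).hom P) := by
  rcases P with _ | ⟨x, y, h⟩
  · rw [← Point.zero_def, map_zero, map_zero, tw_zero]
  have h0 := tm_rt_ne hD
  have hs : (sn (chi D g) : Qb) * sn (chi D g) = 1 := by
    rcases F2_cases (chi D g) with k | k <;> simp [k, sn_zero, sn_one]
  have hn := left_ne_zero_of_mul_eq_one hs
  obtain ⟨_, e⟩ := C.tw_some D g (((C.yb_vc hD).nonsingular x y).mpr h)
  rw [VC.hom_some, e]
  refine ell_ext ?_ ?_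
  · change _ * g x + 0 = _
    simp only [map_add, map_mul, map_pow, map_div₀, map_one, map_zero, chi_spec, RingHom.id_apply]
    generalize (sn (chi D g) : Qb) = s at hs hn
    field_simp
    linear_combination (g x) * hs
  · change _ * g y + _ * _ * g x + 0 = _
    simp only [map_add, map_mul, map_pow, map_div₀, map_one, map_zero, chi_spec, RingHom.id_apply]
    generalize (sn (chi D g) : Qb) = s at hs hn
    field_simp
    linear_combination (g y) * hs

theorem sel_of (hD : D ≠ 0) {φ : Lib.MP_696deb_nt.Pt (Tw C.a C.b C.c D) Qb →+ C.A}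
    (hg : ∀ (g : GQ) P, φ (pmap (g : Qb →+* Qb) P) = C.tw D g (φ P)) {m : ℕ}
    {ξ : GQ → Lib.MP_696deb_nt.Pt (Tw C.a C.b C.c D) Qb} (h : Stmt.IsSel (Tw C.a C.b C.c D) (2 ^ m) ξ) :
    C.IsSel D m fun g => φ (ξ g) := by
  obtain ⟨h1, h2, h3, h5, h4⟩ := h
  replace h2 : ∀ σ : GQ, 2 ^ m • ξ σ = 0 := h2
  replace h3 : ∀ σ τ : GQ, ξ (σ * τ) = ξ σ + pmap (σ : Qb →+* Qb) (ξ τ) := h3
  let _ : TopologicalSpace C.A := ⊥
  have : DiscreteTopology C.A := ⟨rfl⟩
  have c1 : Continuous fun g => φ (ξ g) := (h1.comp φ).continuous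
  have c2 : C.Coc D fun g => φ (ξ g) := fun g k => by simp only [h3, map_add, hg]
  have sp := C.yb_sp hD
  refine ⟨fun g => by rw [← map_nsmul, h2, map_zero], c2,
    B2.Sm.of_continuousOn isClosed_univ c1.continuousOn, ?_⟩
  rintro p (rfl | hp)
  · obtain ⟨j, s, k1, k2⟩ := yb_real
    obtain ⟨S, hS⟩ := h5 j
    obtain ⟨Q, hQ⟩ := yb_inv sp j (s : AlgebraicClosure ℝ →+* AlgebraicClosure ℝ)
      (cc : Qb →+* Qb) (RingHom.ext fun x => (k1 x).symm) (RingHom.ext k2) (hS s cc k1)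
    refine ⟨φ Q, fun g k => ?_⟩
    rcases loc_Gv0 k with rfl | rfl
    · have e := c2 1 1
      have e0 := chi_mul_g D 1 1
      rw [mul_one, left_eq_add] at e0
      rw [mul_one, left_eq_add, tw, e0, sn_zero, one_zsmul, act_one] at e
      rw [cob, tw, e0, sn_zero, one_zsmul, act_one, sub_self, e]
    · beta_reduce
      rw [hQ, map_sub, hg, cob]
  have := Fact.mk hp
  obtain ⟨j, hj⟩ := ex_emb (pl p) (pl_p hp)
  obtain ⟨S, hS⟩ := h4 p j
  obtain ⟨Q, hQ⟩ := pow_fix sp j m (Q := S) fun s => by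
    obtain ⟨σ, hσ⟩ := ex_res j s
    have k : pmap j (ξ σ) = pmap (s : PadicAlgCl p →+* PadicAlgCl p) S - S := hS s σ hσ
    rw [map_nsmul, ← sub_eq_zero, ← smul_sub, ← k, ← map_nsmul, h2, map_zero]
  refine ⟨φ Q, fun g k => ?_⟩
  rw [Gv_prime hp] at k
  refine closure_minimal (t := {g | φ (ξ g) = C.cob D (φ Q) g}) ?_ (isClosed_eq c1
    (continuousOn_univ.1 (C.lc_cob D _).continuousOn)) (dec_closure j (hj g k))
  rintro σ ⟨s, hσ⟩
  have k1 : pmap j (ξ σ) = pmap (s : PadicAlgCl p →+* PadicAlgCl p) S - S := hS s σ hσ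
  have k2 := hQ s
  have e : (s : PadicAlgCl p →+* PadicAlgCl p).comp j = j.comp (σ : Qb →+* Qb) :=
    RingHom.ext fun x => (hσ x).symm
  rw [map_sub, pmap_pmap, e, ← pmap_pmap, sub_eq_sub_iff_sub_eq_sub, ← k1, ← map_sub] at k2
  change φ (ξ σ) = _
  rw [pmap_injective j k2, map_sub, hg, cob]

variable {C} in
theorem Kz.cork (hD : D ≠ 0) (h : C.Kz D) : Stmt.CorankLE (Tw C.a C.b C.c D) 0 := by
  obtain ⟨B, hB⟩ := h.bound hD
  have f0 := (C.yb_vc hD).hom_injective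
  have f1 := C.yb_surj hD
  have f2 := C.yb_tw hD
  generalize (C.yb_vc hD).hom = φ at f0 f1 f2
  refine ⟨B, fun m s h1 h2 => ?_⟩
  rw [zero_mul, pow_zero, mul_one, ← Set.ncard_coe_finset,
    ← Set.ncard_image_of_injective _ f0.comp_left]
  refine hB m _ ?_ ?_
  · rintro _ ⟨ξ, k, rfl⟩
    exact C.sel_of hD f2 (h1 ξ k)
  · rintro _ ⟨ξ, k, rfl⟩ _ ⟨η, k', rfl⟩ S e1 e2
    obtain ⟨S, rfl⟩ := f1 S
    refine congrArg _ (h2 ξ k η k' ⟨S, f0 (by rw [map_nsmul, e1, map_zero]), fun σ : GQ => f0 ?_⟩)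
    change _ = φ (pmap (σ : Qb →+* Qb) S - S)
    rw [map_sub, map_sub, f2]
    exact e2 σ

end Cu

theorem Fn.out {a b c d : ℤ} (h : dsc a b c ≠ 0) (hd : d ≠ 0) (k : Fn a b c d) :
    Stmt.CorankLE (Tw a b c d) 0 ∧ Finite (Tw a b c d).toAffine.Point := by
  obtain ⟨C, rfl, rfl, rfl, -⟩ := exists_Cu h 0
  exact ⟨(k C rfl rfl rfl).cork hd, (k C rfl rfl rfl).fin hd⟩

end Pool.Agent.SP
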