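import Pool.Agent.Lib.MP_696deb_nt.SP.PA
import Pool.Agent.Lib.MP_696deb_nt.SP.YB

/-! Corank at most one: the number of classes. -/

set_option autoImplicit false

open scoped Classical
open Finset Function

namespace Pool.Agent.SP

open Pool.Agent.Lib.MP_696deb_nt Pool.Agent.Lib.MP_696deb_nt.Sm
open Pool.Agent.Lib.MP_696deb_nt.B2 (cc jC Plc Op Zu Rs Z1 H0 GoodA Apart Away cupb)
open Pool.Agent.Lib.MP_696deb_nt.B6 (W2 N2 sg dW)

namespace Cu

variable {C : Cu} {D : ℤ}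

theorem finite_rat (C : Cu) (D : ℤ) : {P | P ∈ C.Rat D ∧ ∃ m : ℕ, 2 ^ m • P = 0}.Finite := by
  obtain ⟨N, N0, hN⟩ := C.td_exp Nat.prime_two D
  exact (C.finite_tors N).subset fun P ⟨h, m, k⟩ => td_tors N0 (hN P fun g _ => h g) k

theorem K1.bound (hD : D ≠ 0) (h : C.K1 D) : ∃ B : ℕ, ∀ (n : ℕ) (s : Set (GQ → C.A)),
    (∀ c ∈ s, C.IsSel D n c) → (∀ c ∈ s, ∀ c' ∈ s, ∀ S : C.A, 2 ^ n • S = 0 →
      (∀ g, c g - c' g = C.cob D S g) → c = c') → s.ncard ≤ B * 2 ^ n := by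
  obtain ⟨k, h⟩ := h
  have f2 := (C.fin_sel hD k).prod (C.finite_rat D)
  refine ⟨({c | C.IsSel D k c} ×ˢ {P | P ∈ C.Rat D ∧ ∃ m : ℕ, 2 ^ m • P = 0}).ncard,
    fun n s h1 h2 => ?_⟩
  obtain ⟨t, ht, h⟩ := h n
  choose! b b1 S m b2 b3 using h
  have hr : ∀ c ∈ s, invFunOn b s (b c) ∈ s ∧ b (invFunOn b s (b c)) = b c := fun c hc =>
    invFunOn_pos ⟨c, hc, rfl⟩
  generalize invFunOn b s = r at hr
  have key : ∀ c ∈ s, ∃ Q : C.A, C.IsSel D k (c - r (b c) - C.cob D Q) ∧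
      2 ^ n • Q ∈ C.Rat D ∧ ∃ m : ℕ, 2 ^ m • 2 ^ n • Q = 0 := fun c hc => by
    obtain ⟨r1, r2⟩ := hr c hc
    generalize r (b c) = c' at r1 r2
    have s1 : C.IsSel D n (c - c') := mem_Zs.1 (sub_mem (mem_Zs.2 (h1 c hc)) (mem_Zs.2 (h1 c' r1)))
    rcases le_total n k with l | l
    · obtain ⟨i, rfl⟩ := Nat.exists_eq_add_of_le' l
      refine ⟨0, s1.sub 0 fun g => ?_, by rw [smul_zero]; exact zero_mem _, 0, by simp⟩
      rw [cob, tw_zero, sub_zero, sub_zero, pow_add, mul_smul, s1.tors, smul_zero]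
    · obtain ⟨i, rfl⟩ := Nat.exists_eq_add_of_le' l
      have e : ∀ g, 2 ^ k • (c - c') g = C.cob D (S c - S c') g := fun g => by
        rw [Pi.sub_apply, smul_sub, b3 c (h1 c hc), b3 c' (h1 c' r1), r2, cob_sub, Pi.sub_apply,
          add_sub_add_left_eq_sub]
      have e' : 2 ^ (m c + m c') • (S c - S c') = 0 := by
        rw [smul_sub, pow_add, mul_smul, mul_smul, b2 c' (h1 c' r1), smul_comm, b2 c (h1 c hc),
          smul_zero, smul_zero, sub_zero]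
      generalize S c - S c' = R at e e'
      obtain ⟨Q, rfl⟩ := C.exists_div k R
      refine ⟨Q, s1.sub Q fun g => ?_, fun g => sub_eq_zero.1 ?_, m c + m c', ?_⟩
      · rw [smul_sub, e, cob_nsmul, Pi.smul_apply, sub_self]
      · rw [← cob, pow_add, mul_smul, cob_nsmul, Pi.smul_apply, ← e, ← mul_smul, ← pow_add,
          s1.tors]
      · rw [pow_add 2 i, mul_smul, smul_comm, e', smul_zero]
  choose! Q q1 q2 using key
  refine (Set.ncard_le_ncard_of_injOn (fun c => ((c - r (b c) - C.cob D (Q c), 2 ^ n • Q c), b c))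
    (fun c hc => Set.mk_mem_prod (Set.mk_mem_prod (q1 c hc) (q2 c hc)) (b1 c (h1 c hc)))
    (fun c hc c' hc' e => h2 c hc c' hc' (Q c - Q c') ?_ ?_) (f2.prod t.finite_toSet)).trans ?_
  · rw [smul_sub, sub_eq_zero]
    exact congrArg (·.1.2) e
  · intro g
    have e1 : b c = b c' := congrArg Prod.snd e
    have e2 : c g - r (b c) g - C.cob D (Q c) g = c' g - r (b c') g - C.cob D (Q c') g :=
      congrFun (congrArg (·.1.1) e) g
    rw [e1, sub_right_comm, sub_right_comm (c' g), sub_left_inj] at e2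
    rwa [cob_sub, Pi.sub_apply, ← sub_eq_sub_iff_sub_eq_sub]
  · rw [Set.ncard_prod, Set.ncard_coe_finset]
    exact Nat.mul_le_mul_left _ ht

theorem K1.cork (hD : D ≠ 0) (h : C.K1 D) : B2.Stmt.CorankLE (Tw C.a C.b C.c D) 1 := by
  obtain ⟨B, hB⟩ := h.bound hD
  have f0 := (C.yb_vc hD).hom_injective
  have f1 := C.yb_surj hD
  have f2 := C.yb_tw hD
  generalize (C.yb_vc hD).hom = φ at f0 f1 f2
  refine ⟨B, fun m s h1 h2 => ?_⟩
  rw [one_mul, ← Set.ncard_coe_finset, ← Set.ncard_image_of_injective _ f0.comp_left]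
  refine hB m _ ?_ ?_
  · rintro _ ⟨ξ, k, rfl⟩
    exact C.sel_of hD f2 (h1 ξ k)
  · rintro _ ⟨ξ, k, rfl⟩ _ ⟨η, k', rfl⟩ S e1 e2
    obtain ⟨S, rfl⟩ := f1 S
    refine congrArg _ (h2 ξ k η k' ⟨S, f0 (by rw [map_nsmul, e1, map_zero]), fun σ : GQ => f0 ?_⟩)
    change _ = φ (pmap (σ : Qb →+* Qb) S - S)
    rw [map_sub, map_sub, f2]
    exact e2 σ

end Cu

end Pool.Agent.SP
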