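import Pool.Agent.Lib.MP_696deb_nt.SP.PA

/-! The pairing of Cassels and Tate: local data. -/

set_option autoImplicit false

open scoped Classical
open Finset Function

namespace Pool.Agent.SP

open Pool.Agent.Lib.MP_696deb_nt Pool.Agent.Lib.MP_696deb_nt.Sm
open Pool.Agent.Lib.MP_696deb_nt.B2 (cc jC Plc Op Zu Rs Z1 H0 GoodA Apart Away cupb)
open Pool.Agent.Lib.MP_696deb_nt.B6 (W2 N2 sg dW)

namespace Cu

variable {C : Cu} {D : ℤ} {n N N' : ℕ} {c c' d d' b : GQ → C.A} {t s : ℕ → GQ → C.A}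

theorem po_nd (hD : D ≠ 0) {q : ℕ} (k : D.natAbs < q) : ¬ (q : ℤ) ∣ D := fun e =>
  (Nat.le_of_dvd (Int.natAbs_pos.2 hD) (Int.natCast_dvd.1 e)).not_gt k

theorem po_pv {v : ℕ} (h : v ∈ plc N) : Pv v := (mem_plc.1 h).imp_right And.left

theorem po_out {v : ℕ} (hv : Pv v) (h : v ∉ plc N) : v.Prime ∧ N < v :=
  have e := hv.resolve_left fun e => h (mem_plc.2 (.inl e))
  ⟨e, not_le.1 fun k => h (mem_plc.2 (.inr ⟨e, k⟩))⟩

theorem exists_dat (hD : D ≠ 0) (h : C.Lft D) (hc : C.IsSel D n c) :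
    ∃ c' t N, C.Dat D c c' t N := by
  obtain ⟨c', h1, h2, h3⟩ := h n c hc
  have : ∀ v, ∃ P : C.A, Pv v → ∀ g ∈ Gv v, c g = C.cob D P g := fun v => by
    by_cases hv : Pv v
    · exact (hc.loc v hv).imp fun _ e _ => e
    · exact ⟨0, fun e => absurd e hv⟩
  choose P hP using this
  obtain ⟨U, u1, -, u3⟩ := id h2
  obtain ⟨S, hS⟩ := B2.finite_ram u1
  have one : c' 1 = 0 := by
    have e := h1 1 1
    rw [mul_one, tw, show chi D 1 = 0 from loc_one _, sn_zero, one_smul, act_one] at e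
    exact left_eq_add.1 e
  refine ⟨c', fun v => c' - C.cob D (C.hf (P v)), C.N0 + D.natAbs + S.sup id, h1, h2, h3,
    fun v hv => ?_, fun v _ => by rw [sub_sub_cancel]; exact C.loc_cob v D _, by omega, by omega,
    fun q hq k => ?_⟩
  · have two : ∀ g ∈ Gv v, 2 • (c' - C.cob D (C.hf (P v))) g = 0 := fun g hg => by
      rw [← Pi.smul_apply, smul_sub, h3, ← cob_nsmul, two_hf, Pi.sub_apply, hP v hv g hg, sub_self]
    refine ⟨two, fun g _ l hl => ?_, (h2.comp₂ (C.lc_cob D _) (· - ·)).mono le_top⟩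
    rw [← C.tw_two D g (two l hl)]
    simp only [Pi.sub_apply, h1 g l, C.cob_mul, tw_sub]
    abel
  · have gp : C.Gp q := ⟨hq, by omega⟩
    have z : ∀ g ∈ Iv q, c' g = 0 := fun g hg => (u3 1 trivial g trivial (by
      simpa using hS (pl q) (fun e => by
        have := le_sup (f := id) e
        rw [pl_p hq, id] at this
        omega) hg)).symm.trans one
    have w : ∀ g ∈ Iv q, ∀ Q, C.cob D Q g = C.act g Q - Q := fun g hg Q => by
      rw [cob, tw, chi_ine_of_not_dvd hq gp.ne_two (po_nd hD (by omega)) g hg, sn_zero, one_smul]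
    have i := sig_ine hq gp.ne_two
    rw [Pi.sub_apply, z _ i, w _ i, half_fix gp (fun g hg => ?_) _ i, sub_self, sub_self]
    rw [two_hf, ← sub_eq_zero, ← w g hg, ← hP q (.inr hq) g (Iv_le hq hg), ← h3, Pi.smul_apply,
      z g hg, smul_zero]

theorem Dat.mono (h : C.Dat D c c' t N) (k : N ≤ N') : C.Dat D c c' t N' :=
  ⟨h.coc, h.lc, h.two, h.z2, h.loc, h.big.trans k, h.abs.trans k,
    fun q hq e => h.unr q hq (k.trans_lt e)⟩

theorem Dat.bv_out (hD : D ≠ 0) (h : C.Dat D c c' t N) (hb : C.IsSel D 1 b) {q : ℕ} (hq : q.Prime)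
    (k : N < q) : C.bv q (t q) b = 0 := by
  have gp : C.Gp q := ⟨hq, h.big.trans_lt k⟩
  rw [bv_prime hq, Bv_tame gp (h.z2 q (.inr hq)) (hb.z2.mono le_top) (h.unr q hq k),
    loc_good gp (po_nd hD (h.abs.trans_lt k)) hb.tors (hb.loc q (.inr hq)), ep_zero_right]

theorem Dat.sum_mono (hD : D ≠ 0) (h : C.Dat D c c' t N) (hb : C.IsSel D 1 b) (k : N ≤ N') :
    ∑ v ∈ plc N', C.bv v (t v) b = ∑ v ∈ plc N, C.bv v (t v) b :=
  (sum_subset (fun _ hv => mem_plc.2 ((mem_plc.1 hv).imp_right fun e => ⟨e.1, e.2.trans k⟩))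
    fun _ hv e => h.bv_out hD hb (po_out (po_pv hv) e).1 (po_out (po_pv hv) e).2).symm

theorem Dat.add (h : C.Dat D c c' t N) (k : C.Dat D d d' s N) :
    C.Dat D (c + d) (c' + d') (t + s) N :=
  ⟨fun g l => by
      simp only [Pi.add_apply, h.coc g l, k.coc g l, C.tw_add]
      abel, h.lc.comp₂ k.lc (· + ·), by rw [smul_add, h.two, k.two],
    fun v hv => (h.z2 v hv).add (k.z2 v hv), fun v hv => by
      rw [Pi.add_apply, add_sub_add_comm]
      exact (h.loc v hv).add (k.loc v hv), h.big, h.abs, fun q hq e => by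
      rw [Pi.add_apply, Pi.add_apply, h.unr q hq e, k.unr q hq e, add_zero]⟩

theorem Dat.zero (hD : D ≠ 0) (h : C.Dat D 0 c' t N) (hb : C.IsSel D 1 b) :
    ∑ v ∈ plc N, C.bv v (t v) b = 0 := by
  have z := h.coc.z2 h.lc (congrFun h.two)
  have y : ∀ v, Pv v → C.Z2 (Gv v) (c' - t v) := fun v hv => (z.mono le_top).sub (h.z2 v hv)
  have e := bv_recip (C := C.big N h.big) ⟨z.two, z.coc, z.sm⟩ ⟨hb.z2.two, hb.z2.coc, hb.z2.sm⟩ ∅
    (fun _ e => absurd e (notMem_empty _)) fun q hq _ => by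
      have gp : C.Gp q := ⟨hq.1, h.big.trans_lt hq.2⟩
      have nd := po_nd hD (h.abs.trans_lt hq.2)
      have := loc_good' gp nd (y q (.inr hq.1)) (h.loc q (.inr hq.1))
      rw [Pi.sub_apply, h.unr q hq.1 hq.2, sub_zero] at this
      exact ⟨this, loc_good gp nd hb.tors (hb.loc q (.inr hq.1))⟩
  refine (sum_congr rfl fun v hv => ?_).trans (e.symm.trans sum_empty)
  have pv := po_pv hv
  have := bv_add_left pv (y v pv) (h.z2 v pv) (hb.z2.mono le_top)
  rw [sub_add_cancel, bv_iso pv (y v pv) (hb.z2.mono le_top) (h.loc v pv) (hb.loc v pv),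
    zero_add] at this
  exact this.symm

theorem po_neg (h : C.Dat D c c' t N) : C.Dat D (-c) (-c') (-t) N :=
  ⟨fun g l => by
      rw [Pi.neg_apply, Pi.neg_apply, Pi.neg_apply, h.coc g l, ← neg_one_zsmul (c' l), C.tw_zsmul,
        neg_one_zsmul, neg_add], h.lc.comp (-·), by rw [smul_neg, h.two],
    fun v hv => (h.z2 v hv).neg, fun v hv => by
      rw [Pi.neg_apply, ← neg_sub', ← neg_one_zsmul]
      exact (h.loc v hv).zsmul (-1), h.big, h.abs, fun q hq e => by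
      rw [Pi.neg_apply, Pi.neg_apply, h.unr q hq e, _root_.neg_zero]⟩

theorem Dat.uniq (hD : D ≠ 0) (h : C.Dat D c c' t N) (k : C.Dat D c d' s N')
    (hb : C.IsSel D 1 b) : ∑ v ∈ plc N, C.bv v (t v) b = ∑ v ∈ plc N', C.bv v (s v) b := by
  have h1 := h.mono (le_max_left N N')
  have k1 := k.mono (le_max_right N N')
  have e := h1.add (po_neg k1)
  rw [add_neg_cancel] at e
  rw [← h.sum_mono hD hb (le_max_left N N'), ← k.sum_mono hD hb (le_max_right N N'),
    ← zero_add (∑ v ∈ _, C.bv v (s v) b), ← e.zero hD hb, ← sum_add_distrib]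
  refine sum_congr rfl fun v hv => ?_
  have pv := po_pv hv
  rw [← bv_add_left pv (e.z2 v pv) (k.z2 v pv) (hb.z2.mono le_top), Pi.add_apply, Pi.neg_apply,
    neg_add_cancel_right]

theorem Dat.of_sel (hc : C.IsSel D n c') : C.Dat D (2 • c') c' 0 (C.N0 + D.natAbs) :=
  ⟨hc.coc, hc.lc, rfl, fun _ _ => C.z2_zero _, fun v hv => by
    rw [Pi.zero_apply, sub_zero]
    exact hc.loc v hv, Nat.le_add_right _ _, Nat.le_add_left _ _, fun _ _ _ => rfl⟩

theorem Dat.ker (pt : PTK) (hD : D ≠ 0) (h : C.Dat D c c' t N) (hc : C.IsSel D n c)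
    (k : ∀ b, C.IsSel D 1 b → ∑ v ∈ plc N, C.bv v (t v) b = 0) :
    ∃ d, C.IsSel D (n + 1) d ∧ 2 • d = c := by
  have out : ∀ {v : ℕ} {x : GQ → C.A}, v.Prime ∧ N < v → C.Z2 (Gv v) x → x (sig v) = 0 →
      C.Loc v D x := fun e => loc_unr ⟨e.1, h.big.trans_lt e.2⟩ (po_nd hD (h.abs.trans_lt e.2))
  obtain ⟨y, y1, y2⟩ : ∃ y : GQ → C.A, (C.big N h.big).Un y ∧
      ∀ v ∈ plc N, C.Loc v D (t v + y) :=
    pt (C.big N h.big) D hD (fun q hq => po_nd hD (h.abs.trans_lt hq.2)) t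
      (fun v hv => have e := h.z2 v (po_pv hv); ⟨e.two, e.coc, e.sm⟩) fun (b : GQ → C.A) hb => by
        have z : C.Z2 ⊤ b := ⟨hb.1.1.two, hb.1.1.coc, hb.1.1.sm⟩
        refine k b ⟨fun g => z.two g trivial, fun g l => ?_, z.sm, fun v hv => ?_⟩
        · rw [z.coc g trivial l trivial, C.tw_two D g (z.two l trivial)]
        · by_cases e : v ∈ plc N
          · exact hb.2 v (mem_plc.1 e)
          · exact out (po_out hv e) (z.mono le_top) (hb.1.2 v (po_out hv e))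
  have z : C.Z2 ⊤ y := ⟨y1.1.two, y1.1.coc, y1.1.sm⟩
  have e : 2 • (c' + y) = c := by
    rw [smul_add, h.two, show 2 • y = 0 from funext fun g => z.two g trivial, add_zero]
  refine ⟨c' + y, ⟨fun g => ?_, fun g l => ?_, h.lc.comp₂ z.sm (· + ·), fun v hv => ?_⟩, e⟩
  · rw [pow_succ, mul_smul, ← Pi.smul_apply 2, e, hc.tors]
  · simp only [Pi.add_apply, h.coc g l, z.coc g trivial l trivial, C.tw_add,
      C.tw_two D g (z.two l trivial)]
    abel
  · rw [← sub_add_add_cancel c' y (t v), add_comm y]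
    refine (h.loc v hv).add (if m : v ∈ plc N then y2 v m else ?_)
    have o := po_out hv m
    exact out o ((h.z2 v hv).add (z.mono le_top)) (by
      rw [Pi.add_apply, h.unr v o.1 o.2, zero_add]
      exact y1.2 v o)

end Cu

end Pool.Agent.SP
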