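import Pool.Agent.Lib.MP_696deb_nt.SP.TA
import Pool.Agent.Lib.MP_696deb_nt.B6.GW1

/-! The parity of a tower with alternating pairings. -/

set_option autoImplicit false

open scoped Classical
open Finset Function

namespace Pool.Agent.SP

open Pool.Agent.Lib.MP_696deb_nt Pool.Agent.Lib.MP_696deb_nt.Sm
open Pool.Agent.Lib.MP_696deb_nt.B2 (cc jC Plc Op Zu Rs Z1 H0 GoodA Apart Away cupb)
open Pool.Agent.Lib.MP_696deb_nt.B6 (W2 N2 sg dW)

theorem pp_cnt {X : Type} [AddCommGroup X] (f : X →+ X) {K L : AddSubgroup X}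
    (h : ∀ c, c ∈ L ↔ c ∈ K ∧ f c = 0) : Nat.card K = Nat.card L * Nat.card (K.map f) := by
  have e : (f.addSubgroupMap K).ker = L.addSubgroupOf K := by
    ext x
    rw [AddSubgroup.mem_addSubgroupOf, AddMonoidHom.mem_ker, h, and_iff_right x.2]
    exact Subtype.ext_iff
  rw [TA_card_surj _ (f.addSubgroupMap_surjective K), e,
    Nat.card_congr (AddSubgroup.addSubgroupOfEquivOfLe fun c hc => ((h c).1 hc).1).toEquiv]

theorem pp_step {X : Type} [AddCommGroup X] (Zi : AddSubgroup X) (Z : ℕ → AddSubgroup X)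
    (hZ : ∀ n c, c ∈ Z n ↔ c ∈ Zi ∧ 2 ^ n • c = 0) (fin : ∀ n, Finite (Z n)) (o : X → X → F2)
    (k : ℕ) (addl : ∀ c ∈ Z (k + 1), ∀ c' ∈ Z (k + 1), ∀ b ∈ Z 1, o (c + c') b = o c b + o c' b)
    (addr : ∀ c ∈ Z (k + 1), ∀ b ∈ Z 1, ∀ b' ∈ Z 1, o c (b + b') = o c b + o c b')
    (ker : ∀ c ∈ Z (k + 1), (∀ b ∈ Z 1, o c b = 0) ↔ ∃ c' ∈ Z (k + 2), 2 • c' = c)
    (alt : ∀ c ∈ Z (k + 1), o c (2 ^ k • c) = 0) :
    par (Nat.card (Z (k + 2))) = par (Nat.card (Z k)) := by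
  have mono : ∀ {i j}, i ≤ j → Z i ≤ Z j := fun {i j} h c hc => by
    obtain ⟨l, rfl⟩ := Nat.exists_eq_add_of_le' h
    exact (hZ _ c).2 ⟨((hZ _ c).1 hc).1, by rw [pow_add, mul_smul, ((hZ _ c).1 hc).2, smul_zero]⟩
  have sh : ∀ i j, ∀ c ∈ Z (i + j), 2 ^ j • c ∈ Z i := fun i j c hc =>
    (hZ _ _).2 ⟨nsmul_mem ((hZ _ c).1 hc).1 _, by rw [← mul_smul, ← pow_add, ((hZ _ c).1 hc).2]⟩
  have s1 : ∀ j, ∀ c ∈ Z (j + 1), 2 ^ j • c ∈ Z 1 := fun j c hc => sh 1 j c (add_comm j 1 ▸ hc)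
  have cnt : ∀ {i} {K : AddSubgroup X}, Z i ≤ K → K ≤ Z (k + 2) →
      Nat.card K = Nat.card (Z i) * Nat.card (K.map (nsmulAddMonoidHom (2 ^ i))) :=
    fun {i K} h1 h2 => pp_cnt _ fun c => ⟨fun hc => ⟨h1 hc, ((hZ _ c).1 hc).2⟩,
      fun hc => (hZ _ c).2 ⟨((hZ _ c).1 (h2 hc.1)).1, hc.2⟩⟩
  have pos : ∀ n, Nat.card (Z n) ≠ 0 := fun n => Nat.card_pos.ne'
  let P : Z (k + 1) →+ Z 1 →+ ZMod 2 := AddMonoidHom.mk'
    (fun c => AddMonoidHom.mk' (fun b => o c b) fun b b' => addr c c.2 b b.2 b' b'.2)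
    fun c c' => AddMonoidHom.ext fun b => addl c c.2 c' c'.2 b b.2
  let m : Z (k + 1) →+ Z 1 := AddMonoidHom.mk' (fun c => ⟨2 ^ k • c.1, s1 k c c.2⟩)
    fun c c' => Subtype.ext (smul_add _ _ _)
  let B : Z (k + 1) →+ Z (k + 1) →+ F2 := P.compl₂ m
  have hB : ∀ a, B a a = 0 := fun a => alt a a.2
  have hs : ∀ a b, B a b = B b a := fun a b => by
    have h := hB (a + b)
    simp only [map_add, AddMonoidHom.add_apply, hB, zero_add, add_zero] at h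
    rw [eq_neg_of_add_eq_zero_right h, CharTwo.neg_eq]
  set A := (Z (k + 2)).map (nsmulAddMonoidHom (2 ^ (k + 1))) with hA
  set D := (Z (k + 2)).map (nsmulAddMonoidHom (2 ^ 1)) with hD
  have c1 : Nat.card (Z (k + 2)) = Nat.card (Z (k + 1)) * Nat.card A := cnt (mono (by omega)) le_rfl
  have c2 : Nat.card (Z (k + 2)) = Nat.card (Z 1) * Nat.card D := cnt (mono (by omega)) le_rfl
  have lA : A ≤ Z 1 := by
    rintro _ ⟨c, hc, rfl⟩
    exact s1 (k + 1) c hc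
  have lD : D ≤ Z (k + 1) := by
    rintro _ ⟨c, hc, rfl⟩
    exact sh (k + 1) 1 c hc
  have e1 : P.ker = D.addSubgroupOf (Z (k + 1)) := by
    ext c
    rw [AddSubgroup.mem_addSubgroupOf, AddMonoidHom.mem_ker]
    exact (DFunLike.ext_iff.trans (Subtype.forall (p := (· ∈ Z 1)))).trans (ker c c.2)
  have c3 := B2.pair_card P
  rw [e1, Nat.card_congr (AddSubgroup.addSubgroupOfEquivOfLe lD).toEquiv, ← c2, c1,
    mul_right_inj' (pos _)] at c3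
  have two : ∀ c : X, 2 ^ k • 2 ^ 1 • c = 2 ^ (k + 1) • c := fun c => by
    rw [← mul_smul, ← pow_add]
  have e2 : A.addSubgroupOf (Z 1) = P.flip.ker := by
    refine AddSubgroup.eq_of_le_of_card_ge ?_ ?_
    · rintro b ⟨c, hc, e⟩
      refine AddMonoidHom.ext fun a => ?_
      have h1 : (⟨_, sh (k + 1) 1 c hc⟩ : Z (k + 1)) ∈ P.ker := e1 ▸ ⟨c, hc, rfl⟩
      have h2 : b = m ⟨_, sh (k + 1) 1 c hc⟩ := Subtype.ext (e.symm.trans (two c).symm)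
      rw [h2]
      exact (hs a _).trans (DFunLike.congr_fun h1 (m a))
    · rw [c3, Nat.card_congr (AddSubgroup.addSubgroupOfEquivOfLe lA).toEquiv]
  let K := Z (k + 1) ⊓ A.comap (nsmulAddMonoidHom (2 ^ k))
  have e3 : B.ker = K.addSubgroupOf (Z (k + 1)) := by
    ext c
    have h1 : m c ∈ A.addSubgroupOf (Z 1) ↔ m c ∈ P.flip.ker := by rw [e2]
    refine Iff.trans ?_ (h1.symm.trans (and_iff_right c.2).symm)
    rw [AddMonoidHom.mem_ker, AddMonoidHom.mem_ker, DFunLike.ext_iff, DFunLike.ext_iff]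
    exact forall_congr' fun a => by rw [hs c a]; rfl
  have e4 : K.map (nsmulAddMonoidHom (2 ^ k)) = A := by
    refine le_antisymm ?_ ?_
    · rintro _ ⟨c, hc, rfl⟩
      exact hc.2
    · rintro _ ⟨c, hc, rfl⟩
      exact ⟨_, ⟨sh (k + 1) 1 c hc, c, hc, (two c).symm⟩, two c⟩
  have c4 := cnt (i := k) (K := K) (fun c hc => ⟨mono k.le_succ hc, 0, zero_mem _,
    (map_zero _).trans ((hZ _ c).1 hc).2.symm⟩) (inf_le_left.trans (mono (by omega)))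
  have h := alt_par B hB
  have pA : Nat.card A ≠ 0 := right_ne_zero_of_mul (c1 ▸ pos _)
  rw [e3, Nat.card_congr (AddSubgroup.addSubgroupOfEquivOfLe inf_le_left).toEquiv, c4, e4,
    par_mul (pos _) pA] at h
  rw [c1, par_mul (pos _) pA, ← h, add_assoc, CharTwo.add_self_eq_zero, add_zero]

theorem tower_par {X : Type} [AddCommGroup X] (Zi : AddSubgroup X) (Z : ℕ → AddSubgroup X)
    (hZ : ∀ n c, c ∈ Z n ↔ c ∈ Zi ∧ 2 ^ n • c = 0) (fin : ∀ n, Finite (Z n)) (o : X → X → F2)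
    (addl : ∀ k, ∀ c ∈ Z (k + 1), ∀ c' ∈ Z (k + 1), ∀ b ∈ Z 1, o (c + c') b = o c b + o c' b)
    (addr : ∀ k, ∀ c ∈ Z (k + 1), ∀ b ∈ Z 1, ∀ b' ∈ Z 1, o c (b + b') = o c b + o c b')
    (ker : ∀ k, ∀ c ∈ Z (k + 1), (∀ b ∈ Z 1, o c b = 0) ↔ ∃ c' ∈ Z (k + 2), 2 • c' = c)
    (alt : ∀ k, ∀ c ∈ Z (k + 1), o c (2 ^ k • c) = 0) (T : AddSubgroup X) (k : ℕ)
    (hT : ∀ b, b ∈ T ↔ ∃ c ∈ Z (k + 1), 2 ^ k • c = b) :
    par (Nat.card (Z 1)) = par (Nat.card T) := by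
  have key : ∀ n, par (Nat.card (Z 1)) = par (Nat.card (Z (n + 1))) + par (Nat.card (Z n)) := by
    intro n
    induction n with
    | zero =>
      have e : Z 0 = ⊥ := (AddSubgroup.eq_bot_iff_forall _).2 fun c hc => by
        simpa using ((hZ 0 c).1 hc).2
      rw [e, AddSubgroup.card_bot, par_one, add_zero]
    | succ n ih =>
      rw [ih, pp_step Zi Z hZ fin o n (addl n) (addr n) (ker n) (alt n), add_comm]
  have e : T = (Z (k + 1)).map (nsmulAddMonoidHom (2 ^ k)) := AddSubgroup.ext hT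
  have c := pp_cnt (nsmulAddMonoidHom (2 ^ k)) (K := Z (k + 1)) (L := Z k) fun c =>
    ⟨fun hc => ⟨(hZ _ c).2 ⟨((hZ _ c).1 hc).1, by
      rw [pow_succ', mul_smul, ((hZ _ c).1 hc).2, smul_zero]⟩, ((hZ _ c).1 hc).2⟩,
      fun hc => (hZ _ c).2 ⟨((hZ _ c).1 hc.1).1, hc.2⟩⟩
  have p : Nat.card (Z (k + 1)) ≠ 0 := Nat.card_pos.ne'
  rw [c] at p
  rw [key k, c, par_mul (left_ne_zero_of_mul p) (right_ne_zero_of_mul p), e, add_right_comm,
    CharTwo.add_self_eq_zero, zero_add]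

end Pool.Agent.SP
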