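import Pool.Agent.Lib.MP_696deb_nt.SP.PN
import Pool.Agent.Lib.MP_696deb_nt.QP.LK
import Pool.Agent.Lib.MP_696deb_nt.SP.KG

/-! Corank exactly one. -/

set_option autoImplicit false

open scoped Classical
open Finset Function

namespace Pool.Agent.SP

open Pool.Agent.Lib.MP_696deb_nt Pool.Agent.Lib.MP_696deb_nt.Sm
open Pool.Agent.Lib.MP_696deb_nt.B2 (cc jC Plc Op Zu Rs Z1 H0 GoodA Apart Away cupb)
open Pool.Agent.Lib.MP_696deb_nt.B6 (W2 N2 sg dW)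

namespace Cu

variable {C : Cu} {D : ℤ}

theorem pq_conj {c : GQ → C.A} (h : C.Coc D c) {g : GQ} {S : C.A} (e : c g = C.cob D S g) (k : GQ) :
    c (k * g * k⁻¹) = C.cob D (C.tw D k S - c k) (k * g * k⁻¹) := by
  have h1 := h (k * g * k⁻¹) k
  rw [inv_mul_cancel_right, h, e, cob, tw_sub] at h1
  rw [cob, tw_sub, ← tw_mul, inv_mul_cancel_right, tw_mul, eq_sub_of_add_eq h1.symm]
  abel

theorem pq_loc {φ : Lib.MP_696deb_nt.Pt (Tw C.a C.b C.c D) Qb →+ C.A}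
    (hi : Bijective φ) (hg : ∀ (g : GQ) P, φ (pmap (g : Qb →+* Qb) P) = C.tw D g (φ P))
    {ξ : GQ → Lib.MP_696deb_nt.Pt (Tw C.a C.b C.c D) Qb} {F : Type} [Field F] [CharZero F]
    (h : ∀ j : Qb →+* AlgebraicClosure F, ∃ S, ∀ (s : B2.Stmt.AbsGal F) (σ : GQ),
      (∀ x, j (σ x) = s (j x)) → φ (ξ σ) = C.cob D S σ) :
    B2.Stmt.LocTriv (Tw C.a C.b C.c D) F ξ := fun j => by
  obtain ⟨S, hS⟩ := h j
  obtain ⟨S, rfl⟩ := hi.2 S
  refine ⟨pmap j S, fun s (σ : GQ) k => ?_⟩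
  have e : (s : AlgebraicClosure F →+* AlgebraicClosure F).comp j =
      j.comp (σ : Qb →+* Qb) := RingHom.ext fun x => (k x).symm
  have e1 := hS s σ k
  rw [cob, ← hg, ← map_sub] at e1
  change pmap j (ξ σ) =
    pmap (s : AlgebraicClosure F →+* AlgebraicClosure F) (pmap j S) - pmap j S
  rw [hi.1 e1, map_sub, pmap_pmap, pmap_pmap, e]

theorem pq_nsmul {n : ℕ} {c : GQ → C.A} (h : C.IsSel D n c) (i : ℕ) :
    C.IsSel D n fun g => i • c g :=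
  ⟨fun g => by rw [smul_comm, h.tors, smul_zero], fun g k => by
    simp only [h.coc g k, smul_add, tw_nsmul], h.lc.comp fun P => i • P, fun v hv => by
    obtain ⟨P, hP⟩ := h.loc v hv
    exact ⟨i • P, fun g hg => by rw [cob_nsmul, Pi.smul_apply, ← hP g hg]⟩⟩

theorem pq_bez {t : ℤ} (ht : t ≠ 0) {B : ℕ} (h : t.natAbs ≤ B) (n : ℕ) :
    ∃ x y : ℤ, (2 : ℤ) ^ B = x * t + y * 2 ^ n := by
  obtain ⟨a, -, ha⟩ := (Nat.dvd_prime_pow Nat.prime_two).1 (Nat.gcd_dvd_right t.natAbs (2 ^ n))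
  have h1 : 2 ^ a ≤ B :=
    ha ▸ (Nat.le_of_dvd (Int.natAbs_pos.2 ht) (Nat.gcd_dvd_left _ _)).trans h
  obtain ⟨z, rfl⟩ := Nat.exists_eq_add_of_le (Nat.lt_two_pow_self.le.trans h1)
  have h2 := Int.gcd_eq_gcd_ab t (2 ^ n)
  rw [Int.gcd, Int.natAbs_pow, show (2 : ℤ).natAbs = 2 from rfl, ha] at h2
  push_cast at h2
  exact ⟨2 ^ z * t.gcdA (2 ^ n), 2 ^ z * t.gcdB (2 ^ n), by rw [pow_add, h2]; ring⟩

theorem stmt_of (hD : D ≠ 0) {φ : Lib.MP_696deb_nt.Pt (Tw C.a C.b C.c D) Qb →+ C.A}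
    (hi : Bijective φ) (hg : ∀ (g : GQ) P, φ (pmap (g : Qb →+* Qb) P) = C.tw D g (φ P)) {m : ℕ}
    {ξ : GQ → Lib.MP_696deb_nt.Pt (Tw C.a C.b C.c D) Qb} (h : C.IsSel D m fun g => φ (ξ g)) :
    B2.Stmt.IsSel (Tw C.a C.b C.c D) (2 ^ m) ξ := by
  refine ⟨?_, fun σ : GQ => hi.1 (by rw [map_nsmul, h.tors, map_zero]), fun σ τ : GQ => hi.1 ?_,
    pq_loc hi hg fun j => ?_, fun p _ => pq_loc hi hg fun j => ?_⟩
  · let _ : TopologicalSpace (Lib.MP_696deb_nt.Pt (Tw C.a C.b C.c D) Qb) := ⊥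
    have : DiscreteTopology (Lib.MP_696deb_nt.Pt (Tw C.a C.b C.c D) Qb) := ⟨rfl⟩
    have k : B2.Sm ⊤ ξ := (h.lc.comp (invFun φ)).congr fun g _ => leftInverse_invFun hi.1 _
    exact (IsLocallyConstant.iff_continuous ξ).2 (continuousOn_univ.1 k.continuousOn)
  · change φ (ξ (σ * τ)) = φ (ξ σ + pmap (σ : Qb →+* Qb) (ξ τ))
    rw [map_add, hg]
    exact h.coc σ τ
  · obtain ⟨k, hk⟩ := B2.lk_real j
    obtain ⟨S, hS⟩ := h.loc 0 (.inl rfl)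
    refine ⟨C.tw D k S - φ (ξ k), fun s σ e => ?_⟩
    have h1 := pq_conj h.coc (hS 1 (one_mem _)) k
    rcases hk s σ e with rfl | rfl
    · rwa [mul_one, mul_inv_cancel] at h1
    · exact pq_conj h.coc (hS cc (Gv_zero ▸ Subgroup.mem_zpowers cc)) k
  · obtain ⟨w, hw⟩ := B2.lk_plc p j
    obtain ⟨k, hk⟩ := B2.plc_conj (w := pl w.p) (v := w) (pl_p w.prime)
    obtain ⟨S, hS⟩ := h.loc w.p (.inr w.prime)
    refine ⟨C.tw D k S - φ (ξ k), fun s σ e => ?_⟩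
    have h1 := pq_conj h.coc (hS (k⁻¹ * σ * k) (by
      rw [Gv_prime w.prime, ← B2.mem_Dec_smul, hk]
      exact hw s σ e)) k
    rwa [show k * (k⁻¹ * σ * k) * k⁻¹ = σ by group] at h1

theorem kz_of_cork (hD : D ≠ 0) (h : B2.Stmt.CorankLE (Tw C.a C.b C.c D) 0) : C.Kz D := by
  obtain ⟨B, hB⟩ := h
  have f0 : Bijective (C.yb_vc hD).hom := ⟨(C.yb_vc hD).hom_injective, C.yb_surj hD⟩
  have f2 := C.yb_tw hD
  generalize (C.yb_vc hD).hom = φ at f0 f2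
  refine ⟨B, fun n c hc => ?_⟩
  choose ψ hψ using f0.2
  obtain ⟨i, hi, j, hj, k1, S, k2, k3⟩ : ∃ i ∈ range (B + 1), ∃ j ∈ range (B + 1), i ≠ j ∧
      B2.Stmt.Cohom (Tw C.a C.b C.c D) (2 ^ n) (fun g : GQ => ψ (i • c g))
        fun g : GQ => ψ (j • c g) := by
    by_contra k
    push Not at k
    have h1 := hB n ((range (B + 1)).image fun i (g : GQ) => ψ (i • c g)) (fun ξ hξ => by
      obtain ⟨i, -, rfl⟩ := mem_image.1 hξ
      exact stmt_of hD f0 f2 (by simpa only [hψ] using pq_nsmul hc i)) fun ξ hξ η hη e => by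
      obtain ⟨i, hi, rfl⟩ := mem_image.1 hξ
      obtain ⟨j, hj, rfl⟩ := mem_image.1 hη
      rw [not_ne_iff.1 fun d => k i hi j hj d e]
    rw [card_image_of_injOn fun i hi j hj e => not_ne_iff.1 fun d => k i hi j hj d
      ⟨0, smul_zero _, fun g => (sub_eq_zero.2 (congrFun e g)).trans
        (sub_eq_zero.2 (map_zero _)).symm⟩,
      card_range, zero_mul, pow_zero] at h1
    omega
  have k4 : ∀ g, ((i : ℤ) - j) • c g = C.cob D (φ S) g := fun g => by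
    have := congrArg φ (k3 g)
    rw [map_sub, hψ, hψ, map_sub] at this
    rw [sub_smul, natCast_zsmul, natCast_zsmul, this, cob, ← f2]
    rfl
  obtain ⟨x, y, e⟩ := pq_bez (t := (i : ℤ) - j) (B := B) (by omega)
    (by rw [mem_range] at hi hj; omega) n
  refine ⟨x • φ S, n, by rw [smul_comm, ← map_nsmul, k2, map_zero, smul_zero], fun g => ?_⟩
  have k5 : (2 : ℤ) ^ n • c g = 0 := by exact_mod_cast hc.tors g
  rw [cob_zsmul, Pi.smul_apply, ← k4, ← natCast_zsmul]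
  push_cast
  rw [e, add_smul, mul_smul, mul_smul, k5, smul_zero, add_zero]

end Cu

theorem rank_of_cork {a b c d : ℤ} (h : dsc a b c ≠ 0) (hd : d ≠ 0) {r : ℕ}
    (k : B2.Stmt.CorankLE (Tw a b c d) r) : Module.Finite ℤ (Tw a b c d).toAffine.Point ∧
      Module.finrank ℤ (Tw a b c d).toAffine.Point ≤ r := by
  obtain ⟨C, rfl, rfl, rfl, -⟩ := exists_Cu h 0
  obtain ⟨W, e⟩ : ∃ W : B6.Cw, @B6.Wu W = Tw C.a C.b C.c d :=
    ⟨⟨_, kg_ne C hd⟩, by ext <;> simp [B6.Wu, B6.WZ, B6.Cw.W, Tw]⟩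
  rw [← e] at k ⊢
  exact ⟨QP.fg_of_gro (QP.gro_of_corank k),
    Nat.le_of_add_le_add_right (QP.rank_of_gro (QP.gro_of_corank k))⟩

theorem Fn1.out {a b c d : ℤ} (h : dsc a b c ≠ 0) (hd : d ≠ 0) (k : Fn1 a b c d) :
    B2.Stmt.CorankLE (Tw a b c d) 1 ∧ ¬ B2.Stmt.CorankLE (Tw a b c d) 0 := by
  obtain ⟨C, rfl, rfl, rfl, -⟩ := exists_Cu h 0
  exact ⟨(k C rfl rfl rfl).1.cork hd, fun e => (k C rfl rfl rfl).2 (Cu.kz_of_cork hd e)⟩

end Pool.Agent.SP
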