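import Pool.Agent.Lib.MP_696deb_nt.SP.TBb
import Pool.Agent.Lib.MP_696deb_nt.SP.KA
import Pool.Agent.Lib.MP_696deb_nt.B6.GW1

/-! The reciprocity law for classes that are locally of order two. -/

set_option autoImplicit false

open scoped Classical
open Finset Function

namespace Pool.Agent.SP

open Pool.Agent.Lib.MP_696deb_nt Pool.Agent.Lib.MP_696deb_nt.Sm
open Pool.Agent.Lib.MP_696deb_nt.B2 (cc jC Plc Op Zu Rs Z1 H0 GoodA Apart Away cupb)
open Pool.Agent.Lib.MP_696deb_nt.B6 (W2 N2 sg dW)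

theorem pr_self (j : ℕ) (t : F2) : B2.up j t + B2.up j t = 0 := by
  rw [← B2.up_add, CharTwo.add_self_eq_zero, B2.up_zero]

theorem pr_inv {j p : ℕ} {c : GQ → GQ → ZMod (2 ^ (1 + j))} {η : GQ → GQ → F2} (hp : p.Prime)
    (hc : B2.C2 (1 + j) (Gv p) c) (h1 : B2.C2 1 (Gv p) η)
    (h2 : B2.Spl (1 + j) (Gv p) fun g h => c g h - B2.up j (η g h)) :
    cft.inv (1 + j) ⊤ (pl p) c = B2.up j (iv p η) := by
  have e : (fun g h => c g h - B2.up j (η g h)) = c + fun g h => B2.up j (η g h) := by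
    funext g h
    rw [sub_eq_add_neg, neg_eq_of_add_eq_zero_left (pr_self j _)]
    rfl
  have k := B2.c2_up h1 j
  rw [e, ← inv_eq_zero hp (hc.add k), inv_add hp hc k,
    B2.inv_up cft isOpen_univ (Cu.sa3_G hp ▸ h1) j, ← iv_prime hp] at h2
  exact (eq_neg_of_add_eq_zero_left h2).trans (neg_eq_of_add_eq_zero_left (pr_self j _))

theorem pr_spl {j : ℕ} {H : Subgroup GQ} {c : GQ → GQ → ZMod (2 ^ (1 + j))} {η : GQ → GQ → F2}
    (h1 : B2.Spl 1 H η) (h2 : B2.Spl (1 + j) H fun g h => c g h - B2.up j (η g h)) :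
    B2.Spl (1 + j) H c := by
  obtain ⟨a, a1, a2⟩ := h1
  obtain ⟨b, b1, b2⟩ := h2
  refine ⟨fun g => b g + B2.up j (a g), b1.comp₂ a1 fun x y => x + B2.up j y,
    fun g hg h hh => ?_⟩
  have e := b2 g hg h hh
  have e' := a2 g hg h hh
  rw [B2.cy_one_eq, one_mul, CharTwo.sub_eq_add] at e'
  beta_reduce at e ⊢
  rw [e', B2.up_add, B2.up_add] at e
  rw [mul_add, B2.cy_mul_up]
  linear_combination e + pr_self j (a (g * h))

theorem pr_base {j N : ℕ} {c : GQ → GQ → ZMod (2 ^ (1 + j))} (hc : B2.C2 (1 + j) ⊤ c)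
    (η : ℕ → GQ → GQ → F2) (h1 : ∀ v, Pv v → B2.C2 1 (Gv v) (η v))
    (h2 : ∀ v, Pv v → B2.Spl (1 + j) (Gv v) fun g h => c g h - B2.up j (η v g h))
    (h0 : iv 0 (η 0) = 0) (h3 : ∀ q : ℕ, q.Prime → N < q → iv q (η q) = 0) :
    ∑ v ∈ (plc N).erase 0, iv v (η v) = 0 := by
  have a1 : ∀ v ∈ (plc N).erase 0, v.Prime := fun v hv =>
    ((mem_plc.1 (mem_of_mem_erase hv)).resolve_left (ne_of_mem_erase hv)).1
  have a2 : ∀ p : ℕ, p.Prime → cft.inv (1 + j) ⊤ (pl p) c = B2.up j (iv p (η p)) := fun p hp =>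
    pr_inv hp (hc.mono le_top) (h1 p (.inr hp)) (h2 p (.inr hp))
  have k := recipQ hc (pr_spl ((iv_eq_zero (.inl rfl) (h1 0 (.inl rfl))).1 h0) (h2 0 (.inl rfl)))
    _ a1 fun q hq m => by
      rw [a2 q hq, h3 q hq (not_le.1 fun e => m (mem_erase.2
        ⟨hq.ne_zero, mem_plc.2 (.inr ⟨hq, e⟩)⟩)), B2.up_zero]
  rwa [sum_congr rfl fun v hv => a2 v (a1 v hv), ← B2.up_sum, B2.up_eq_zero] at k

theorem recip_up {j N : ℕ} {c : GQ → GQ → ZMod (2 ^ (1 + j))} (hc : B2.C2 (1 + j) ⊤ c)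
    (η : ℕ → GQ → GQ → F2) (h1 : ∀ v, Pv v → B2.C2 1 (Gv v) (η v))
    (h2 : ∀ v, Pv v → B2.Spl (1 + j) (Gv v) fun g h => c g h - B2.up j (η v g h)) (hN : 2 ≤ N)
    (h3 : ∀ q : ℕ, q.Prime → N < q → iv q (η q) = 0) : ∑ v ∈ plc N, iv v (η v) = 0 := by
  rw [← add_sum_erase _ _ (mem_plc.2 (.inl rfl))]
  rcases F2_cases (iv 0 (η 0)) with e | e
  · rw [e, zero_add]
    exact pr_base hc η h1 h2 e h3
  have k0 := c2_ho (ho_chi ⊤ (-1)) (ho_chi ⊤ (-1))
  have a1 : ∀ v ∈ (plc N).erase 0, v.Prime := fun v hv =>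
    ((mem_plc.1 (mem_of_mem_erase hv)).resolve_left (ne_of_mem_erase hv)).1
  have b0 : ∀ v, Pv v → iv v (η v + fun g l => chi (-1) g * chi (-1) l) =
      iv v (η v) + hv v (chi (-1)) (chi (-1)) := fun v hv =>
    iv_add hv (h1 v hv) (k0.mono le_top)
  have b1 : ∀ q : ℕ, q.Prime → q ≠ 2 → hv q (chi (-1)) (chi (-1)) = 0 := fun q hq k => by
    rw [hv_tame hq k (ho_chi _ _) (ho_chi _ _) (tbb_neg hq k), tbb_neg hq k, mul_zero]
  have b2 := pr_base (N := N) (hc.add (B2.c2_up k0 j))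
    (fun v => η v + fun g l => chi (-1) g * chi (-1) l)
    (fun v hv => (h1 v hv).add (k0.mono le_top)) (fun v hv => by
      convert h2 v hv using 3 with g l
      exact (congrArg _ (B2.up_add j _ _)).trans (add_sub_add_right_eq_sub _ _ _))
    (by rw [b0 0 (.inl rfl), e, hv_real (ho_chi _ _), tbb_cc]; decide) fun q hq k => by
      rw [b0 q (.inr hq), h3 q hq k, b1 q hq (by omega), add_zero]
  rw [sum_congr rfl fun v hv => b0 v (.inr (a1 v hv)), sum_add_distrib,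
    sum_eq_single_of_mem 2 (mem_erase.2 ⟨two_ne_zero, mem_plc.2 (.inr ⟨Nat.prime_two, hN⟩)⟩)
      fun v hv k => b1 v (a1 v hv) k, tbb_two] at b2
  rw [e, add_comm, b2]

end Pool.Agent.SP
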