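import Pool.Agent.Lib.MP_696deb_nt.SP.TG

/-! The parity of the rank of the pairing of the isogeny. -/

set_option autoImplicit false

open scoped Classical
open Finset

namespace Pool.Agent.SP

open Pool.Agent.Lib.MP_696deb_nt Pool.Agent.Lib.MP_696deb_nt.Sm
open Pool.Agent.Lib.MP_696deb_nt.B2 (jC cc)

namespace Cu

variable {C : Cu} {D : ℤ} {a a' : GQ → C.A} {t t' : ℕ → GQ → F2} {y : GQ → F2} {v : ℕ}

/-- The local characters `t` move the cocycle `a` into the local conditions. -/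
def Dec (C : Cu) (D : ℤ) (a : GQ → C.A) (t : ℕ → GQ → F2) : Prop :=
  ∀ v ∈ plc C.N0, Ho (Gv v) (t v) ∧ C.Loc v D (a + C.io (t v))

theorem tk_pv (h : v ∈ plc C.N0) : Pv v := Bd.pv (C.bd_iff.2 h)

theorem tk_two {x z : F2} (h : x + z = 0) : x = z := by
  rw [← CharTwo.neg_eq z]
  exact eq_neg_of_add_eq_zero_left h

theorem tk_dec (h : C.e 0 = 0) (ha : C.Z2 ⊤ a) (hy : C.nu a ∈ C.YP D) : ∃ t, C.Dec D a t := by
  have key : ∀ v, ∃ s : GQ → F2, v ∈ plc C.N0 → Ho (Gv v) s ∧ C.Loc v D (a + C.io s) := by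
    intro v
    by_cases hv : v ∈ plc C.N0
    · obtain ⟨k, k1, k2, k3⟩ := hy.2 v (C.bd_iff.2 hv)
      have ha' : C.Z2 (Gv v) a := ha.mono le_top
      obtain ⟨e1, e2⟩ := exists_io h (ha'.add k1) fun g hg => by
        rw [C.nu_add (ha'.two g hg) (k1.two g hg), k3 g hg, CharTwo.add_self_eq_zero]
      refine ⟨_, fun _ => ⟨e1, k2.congr (fun _ _ => rfl) fun g hg => ?_⟩⟩
      rw [Pi.add_apply, ← e2 g hg, Pi.add_apply, ← add_assoc, ← two_nsmul, ha'.two g hg, zero_add]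
    · exact ⟨0, fun k => absurd k hv⟩
  choose t ht using key
  exact ⟨t, ht⟩

theorem tk_bv (h : C.e 0 = 0) (hv' : Pv v) (ha : C.Z2 (Gv v) a) (hy : Ho (Gv v) y) :
    C.bv v a (C.io y) = hv v y (C.nu a) := by
  rw [bv_comm hv' ha (z2_io h hy), bv_io h]

theorem tk_symm (h : C.e 0 = 0) (ha : C.Un a) (ha' : C.Un a') (ht : C.Dec D a t)
    (ht' : C.Dec D a' t') :
    ∑ v ∈ plc C.N0, hv v (t v) (C.nu a') = ∑ v ∈ plc C.N0, hv v (t' v) (C.nu a) := by
  have h1 := bv_recip ha.1 ha'.1 ∅ (by simp) fun q hq _ => ⟨ha.2 q hq, ha'.2 q hq⟩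
  rw [sum_empty] at h1
  apply tk_two
  rw [← sum_add_distrib, h1]
  refine sum_congr rfl fun v hv' => ?_
  have p := tk_pv hv'
  have z : C.Z2 (Gv v) a := ha.1.mono le_top
  have z' : C.Z2 (Gv v) a' := ha'.1.mono le_top
  have i := z2_io h (ht v hv').1
  have i' := z2_io h (ht' v hv').1
  have h2 := bv_iso p (z.add i) (z'.add i') (ht v hv').2 (ht' v hv').2
  rw [bv_add_left p z i (z'.add i'), bv_add_right p z z' i', bv_add_right p i z' i',
    tk_bv h p z (ht' v hv').1, bv_io h, bv_io h, nu_io, hv_comm p (ht v hv').1 (ho_zero _),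
    hv_zero p (t := 0) (fun _ _ => rfl), add_zero, add_assoc] at h2
  rw [tk_two h2, add_comm]

theorem tk_q (h : C.e 0 = 0) (qs : QStmt) (ha : C.Un a) (ht : C.Dec D a t) :
    ∑ v ∈ plc C.N0, hv v (t v) (C.nu a) = ∑ v ∈ plc C.N0, hv v (t v) (chi C.b) := by
  obtain ⟨Q, q1, q2, q3, q4⟩ := qs C
  apply tk_two
  rw [← sum_add_distrib, ← q4 a ha]
  refine sum_congr rfl fun v hv' => ?_
  have p := tk_pv hv'
  have z : C.Z2 (Gv v) a := ha.1.mono le_top
  have i := z2_io h (ht v hv').1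
  have h1 := q3 v _ D p (z.add i) (ht v hv').2
  rw [q2 v _ _ p z i, tk_bv h p z (ht v hv').1, add_assoc] at h1
  obtain ⟨m, hm, e⟩ := loc_kummer p (ht v hv').1
  have h2 := q3 v _ _ p (z2_dT h _ (1 * m)) (loc_dT v (1 * m))
  rw [dT_mul h one_ne_zero hm, q2 v _ _ p (z2_dT h _ 1) (z2_io h (ho_chi _ m)),
    q3 v _ _ p (z2_dT h _ 1) (loc_dT v 1), zero_add, tk_bv h p (z2_dT h _ 1) (ho_chi _ m),
    nu_dT h, ← hv_congr p e (fun _ _ => rfl),
    ← q1 v (C.io (t v)) _ p fun g hg => by rw [io, io, e g hg]] at h2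
  rw [tk_two h1, tk_two h2, add_comm]

theorem tk_ker (ls : LSStmt) (h : C.e 0 = 0) (hD : D ≠ 0) (ha : C.Un a) (ht : C.Dec D a t)
    (h0 : ∀ y ∈ C.YP D, ∑ v ∈ plc C.N0, hv v (t v) y = 0) : C.nu a ∈ C.RY D := by
  obtain ⟨ξ, h1, h2⟩ := du C.two_le_N0 (fun v => C.Yl v D) (fun v => C.yl_zero v D)
    (fun _ _ _ => Yl.add) (fun _ _ _ k e => k.congr (fun _ _ => rfl) e) t (fun v k => (ht v k).1)
    fun y k k' => h0 y ⟨k, fun v b => k' v (C.bd_iff.1 b)⟩
  have z := z2_io h h1.1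
  refine ⟨a + C.io ξ, ⟨ha.add ⟨z, fun q hq => ?_⟩, fun v b => ?_⟩, funext fun g => ?_⟩
  · rw [io, h1.2 q hq.1 hq.2, ZMod.val_zero, zero_nsmul]
  · have k := C.bd_iff.1 b
    have h3 : C.Xl v D (t v + ξ) := tx ls h b.pv hD ((ht v k).1.add (h1.1.mono le_top)) (h2 v k)
    have h4 := (ht v k).2.add h3
    rwa [add_assoc, ← io_add, ← add_assoc, CharTwo.add_self_eq_zero, zero_add] at h4
  · rw [C.nu_add (ha.1.two g trivial) (z.two g trivial), nu_io, Pi.zero_apply, add_zero]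

theorem tk_w (h : C.e 0 = 0) {ε : ℤ} {l : ℕ} (hε : ε = 1 ∨ ε = -1) (hl : C.Gp l) :
    C.Un (C.dT ε) ∧ C.Dec (ε * l) (C.dT ε) (fun _ => chi l) ∧
      ∀ y ∈ Ch C.N0, ∑ v ∈ plc C.N0, hv v (chi l) y = y (frb l) := by
  have e0 : ε ≠ 0 := by rcases hε with rfl | rfl <;> decide
  have l0 : (l : ℤ) ≠ 0 := Int.natCast_ne_zero.2 hl.1.ne_zero
  refine ⟨⟨z2_dT h _ _, fun q hq => ?_⟩, fun v _ => ⟨ho_chi _ _, ?_⟩, fun y hy => ?_⟩
  · have e : padicValInt q ε = 0 := by rcases hε with rfl | rfl <;> simp [padicValInt]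
    rw [dT_sig h hq e0, e, Nat.cast_zero, ZMod.val_zero, zero_nsmul]
  · rw [← dT_mul h e0 l0]
    exact loc_dT v _
  · have n : l ∉ plc C.N0 := fun k => by
      rcases mem_plc.1 k with k | k
      · exact hl.1.ne_zero k
      · exact absurd hl.2 (not_lt.2 k.2)
    have h1 := hv_recip (ho_chi ⊤ l) hy.1 (insert l (plc C.N0))
      (mem_insert_of_mem (mem_plc.2 (.inl rfl)))
      (mem_insert_of_mem (mem_plc.2 (.inr ⟨Nat.prime_two, C.two_le_N0⟩)))
      (fun v k => by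
        rcases mem_insert.1 k with rfl | k
        exacts [.inr hl.1, tk_pv k])
      fun q hq k => by
        have k1 : q ≠ l := fun e => k (e ▸ mem_insert_self _ _)
        have k2 : C.N0 < q := not_le.1 fun e => k (mem_insert_of_mem (mem_plc.2 (.inr ⟨hq, e⟩)))
        refine ⟨chi_sig_of_not_dvd hq (C.two_le_N0.trans_lt k2).ne' fun e => k1 ?_, hy.2 q hq k2⟩
        exact (Nat.prime_dvd_prime_iff_eq hq hl.1).1 (Int.natCast_dvd_natCast.1 e)
    rw [sum_insert n, hv_comm (.inr hl.1) (ho_chi _ _) (hy.1.mono le_top),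
      hv_tame hl.1 hl.ne_two (hy.1.mono le_top) (ho_chi _ _) (hy.2 l hl.1 hl.2),
      chi_sig_self hl.1 hl.ne_two, mul_one] at h1
    exact (tk_two h1).symm

theorem theta_par (ls : LSStmt) (qs : QStmt) {C : Cu} (h : C.e 0 = 0) {ε : ℤ} {l : ℕ}
    (hε : ε = 1 ∨ ε = -1) (hl : C.Gp l) :
    par (Nat.card (C.RY (ε * l))) = par (Nat.card (C.YP (ε * l))) + chi C.b (frb l) := by
  have hD : ε * l ≠ 0 := mul_ne_zero (by rcases hε with rfl | rfl <;> decide)
    (Int.natCast_ne_zero.2 hl.1.ne_zero)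
  obtain ⟨w1, w2, w3⟩ := tk_w h hε hl
  generalize ε * (l : ℤ) = D at hD w2 ⊢
  choose a a1 a2 using fun y : C.YP D => exists_lift h y.2
  choose t ht using fun y : C.YP D => tk_dec (D := D) h (a1 y).1 ((a2 y).symm ▸ y.2)
  have hs : ∀ y y' : C.YP D, ∑ v ∈ plc C.N0, hv v (t y v) y' = ∑ v ∈ plc C.N0, hv v (t y' v) y :=
    fun y y' => by
      have e := tk_symm h (a1 y) (a1 y') (ht y) (ht y')
      rwa [a2, a2] at e
  have ha : ∀ y y' y'' : C.YP D, ∑ v ∈ plc C.N0, hv v (t y v) (y' + y'' : C.YP D) =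
      ∑ v ∈ plc C.N0, hv v (t y v) y' + ∑ v ∈ plc C.N0, hv v (t y v) y'' := fun y y' y'' => by
    rw [← sum_add_distrib]
    exact sum_congr rfl fun v k => hv_add_right (tk_pv k) (ht y v k).1 (y'.2.1.1.mono le_top)
      (y''.2.1.1.mono le_top)
  let θ : C.YP D →+ C.YP D →+ F2 := AddMonoidHom.mk'
    (fun y => AddMonoidHom.mk' (fun y' => ∑ v ∈ plc C.N0, hv v (t y v) y') (ha y)) fun y y' => by
      ext y''
      change ∑ v ∈ plc C.N0, hv v (t (y + y') v) y'' =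
        ∑ v ∈ plc C.N0, hv v (t y v) y'' + ∑ v ∈ plc C.N0, hv v (t y' v) y''
      rw [hs, ha, hs y'' y, hs y'' y']
  have hθ : ∀ y y', θ y y' = ∑ v ∈ plc C.N0, hv v (t y v) y' := fun _ _ => rfl
  have : Finite (Ch C.N0) := finite_Ch C.two_le_N0
  have : Finite (C.YP D) := Finite.of_injective _
    (AddSubgroup.inclusion_injective (H := C.YP D) (K := Ch C.N0) fun _ k => k.1)
  let w : C.YP D := ⟨chi C.b, (two_ch h).1, fun v _ => yl_b h v D⟩
  have h1 := sym_par (fun y => Subtype.ext (CharTwo.add_self_eq_zero y.1)) θ hs w fun y => by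
    have e := tk_q h qs (a1 y) (ht y)
    rwa [a2] at e
  have h2 : θ w w = chi C.b (frb l) := by
    have e := tk_symm h (a1 w) w1 (ht w) w2
    rw [nu_dT h, a2, w3 _ w.2.1] at e
    exact e
  have h3 : θ.ker = (C.RY D).addSubgroupOf (C.YP D) := by
    ext y
    rw [AddMonoidHom.mem_ker, AddSubgroup.mem_addSubgroupOf]
    constructor
    · intro k
      rw [← a2 y]
      exact tk_ker ls h hD (a1 y) (ht y) fun y' k' => DFunLike.congr_fun k ⟨y', k'⟩
    · rintro ⟨c, c1, c2⟩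
      ext y'
      have e := tk_symm (t' := fun _ => 0) h (a1 y') c1.1 (ht y') fun v k =>
        ⟨ho_zero _, by
          rw [io_zero, add_zero]
          exact c1.2 v (C.bd_iff.2 k)⟩
      rw [c2] at e
      rw [hθ, hs, e]
      exact sum_eq_zero fun v k => hv_zero (tk_pv k) (fun _ _ => rfl) _
  rw [← h2, ← h1, h3, Nat.card_congr (AddSubgroup.addSubgroupOfEquivOfLe (RY_le h D)).toEquiv]

end Cu

end Pool.Agent.SP
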