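import Pool.Agent.Lib.MP_696deb_nt.SP.PL
import Pool.Agent.Lib.MP_696deb_nt.SP.PC1
import Pool.Agent.Lib.MP_696deb_nt.SP.TK
import Pool.Agent.Lib.MP_696deb_nt.SP.TX

/-! Global duality for the two-torsion of an elliptic curve. -/

set_option autoImplicit false

open scoped Classical
open Finset Function

namespace Pool.Agent.SP

open Pool.Agent.Lib.MP_696deb_nt Pool.Agent.Lib.MP_696deb_nt.Sm
open Pool.Agent.Lib.MP_696deb_nt.B2 (cc jC)

open Pool.Agent.Lib.MP_696deb_nt.B2 (Zu cupb)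
open Pool.Agent.Lib.MP_696deb_nt.B6 (W2 N2 sg dW)

theorem hv_nondeg {v : ℕ} {t : GQ → F2} (h : Pv v) (ht : Ho (Gv v) t)
    (k : ∀ y, Ho (Gv v) y → hv v t y = 0) : ∀ g ∈ Gv v, t g = 0 := by
  obtain ⟨x, hx⟩ := pk_ker (r := 1) (a := B2.tr) (a' := B2.tr) (b := B2.mu2) h
    (have a : B6.Act3 1 (Gv v) B2.tr := ⟨B6.act0_of (B2.act_tr _), fun _ _ _ => ⟨0, fun _ => rfl⟩,
      fun _ _ e => absurd (show (1 : N2).trace = 1 from e) (by decide)⟩
    ⟨B2.Sm.const 1, a, a, (B2.dual_tr _).eqv, (B2.dual_tr ⊤).left, (B2.dual_tr ⊤).right⟩)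
    (B2.coc_tr.2 ht) fun y hy => k y (B2.coc_tr.1 hy)
  exact fun g hg => (hx g hg).trans (sub_self _)

namespace Cu

variable {C C' : Cu} {D : ℤ} {y : GQ → F2} {r : GQ →* N2} {ι : W2 →+ C.A}

theorem pt_bb (h : C.e 0 = 0) {v : ℕ} (hv' : Pv v) {k : GQ → C.A} (hk : C.Z2 (Gv v) k)
    (e : ∀ g ∈ Gv v, C.nu k g = y g) : hv v (chi C.bb) y = 0 := by
  rw [← hv_congr hv' (fun _ _ => rfl) e, ← bv_io h, bv,
    iv_eq_zero hv' (c2_cu (z2_io h (ho_chi _ _)) hk)]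
  exact spl_cob (C.two_T 1) (fun g _ => (act_T1 h g).symm) hk

/-- A character that lifts locally lifts globally. -/
theorem pt_lift (h : C.e 0 = 0) (hy : y ∈ Ch C.N0) (y3 : ∀ v, C.Bd v → hv v (chi C.bb) y = 0) :
    ∃ a, C.Un a ∧ C.nu a = y := by
  obtain ⟨y1, y2⟩ := hy
  obtain ⟨β, b1, b2⟩ := iv_abhn (c2_ho (ho_chi ⊤ C.bb) y1) fun v hv' => by
    by_cases e : C.Bd v
    · exact y3 v e
    · have p1 : v.Prime := hv'.resolve_left fun k => e (.inl k)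
      have p2 : C.Gp v := ⟨p1, not_le.1 fun k => e (.inr ⟨p1, k⟩)⟩
      refine (hv_tame p1 p2.ne_two (ho_chi _ _) (y1.mono le_top)
        ((two_ch h).2.2 v p1 p2.2)).trans ?_
      rw [y2 v p1 p2.2, mul_zero]
  have b3 : ∀ g l, β (g * l) = β g + β l + chi C.bb g * y l := fun g l => by
    have e := b2 g trivial l trivial
    rw [B2.cy_one_eq, one_mul] at e
    have e1 : ∀ a b c : F2, a = b - c → c = b + a := by decide
    exact e1 _ _ _ e
  have b4 : β 1 = 0 := by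
    have e := b3 1 1
    rw [mul_one, show chi C.bb 1 = 0 from loc_one _, zero_mul, add_zero] at e
    exact left_eq_add.1 e
  obtain ⟨m, hm⟩ := tg_fix b1 b4
  refine ⟨_, ⟨tg_z2 (β := β + chi m) h y1 (lc_add b1 (lc_chi m)) fun g _ l _ => ?_,
    fun q hq => ?_⟩, funext fun g => ?_⟩
  · simp only [Pi.add_apply, b3, chi_mul_g]
    abel
  · rw [Pi.add_apply, hm q hq.1 hq.ne_two, CharTwo.add_self_eq_zero, y2 q hq.1 hq.2,
      ZMod.val_zero, zero_nsmul, zero_nsmul, add_zero]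
  · rw [nu, C.ep_add_left (C.two_smul_val _ (C.two_T 0)) (C.two_smul_val _ (C.two_T 1))
      (C.two_T 0), ep_smul_left, ep_smul_left, ep_self, ep_T, if_neg (by decide), mul_zero,
      mul_one, zero_add]

theorem un_io (h : C.e 0 = 0) (hy : y ∈ Ch C.N0) : C.Un (C.io y) :=
  ⟨z2_io h hy.1, fun q hq => by rw [io, hy.2 q hq.1 hq.2, ZMod.val_zero, zero_nsmul]⟩

theorem sum_bv {a b : GQ → C.A} (ha : C.Un a) (hb : C.Un b) :
    ∑ v ∈ plc C.N0, C.bv v a b = 0 :=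
  (bv_recip ha.1 hb.1 ∅ (by simp) fun q hq _ => ⟨ha.2 q hq, hb.2 q hq⟩).symm.trans sum_empty

theorem lag_two (h : C.e 0 = 0) : C.Lag := fun t ht k => by
  obtain ⟨ξ, x1, x2⟩ := du C.two_le_N0 (fun _ _ => True) (fun _ => trivial)
    (fun _ _ _ _ _ => trivial) (fun _ _ _ _ _ => trivial) (fun v => C.nu (t v))
    (fun v hv' => ho_nu h (ht v hv')) fun y hy _ => by
      rw [← k _ (un_io h hy)]
      exact sum_congr rfl fun v hv' => by
        rw [tk_bv h (tc_pv hv') (ht v hv') (hy.1.mono le_top),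
          hv_comm (tc_pv hv') (ho_nu h (ht v hv')) (hy.1.mono le_top)]
  have x3 : ∀ v ∈ plc C.N0, ∀ g ∈ Gv v, C.nu (t v) g = ξ g := fun v hv' g hg =>
    CharTwo.add_eq_zero.1 (hv_nondeg (tc_pv hv') ((ho_nu h (ht v hv')).add (x1.1.mono le_top))
      (fun y hy => x2 v hv' y hy trivial) g hg)
  obtain ⟨a, a1, rfl⟩ := pt_lift h x1 fun v b =>
    pt_bb h b.pv (ht v (C.bd_iff.1 b)) (x3 v (C.bd_iff.1 b))
  have z := fun v hv' => (ht v hv').add (a1.1.mono le_top)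
  have s := fun v hv' => exists_io h (z v hv') fun g hg => by
    rw [C.nu_add ((ht v hv').two g hg) (a1.1.two g trivial), x3 v hv' g hg,
      CharTwo.add_self_eq_zero]
  obtain ⟨η, y1, y2⟩ := du C.two_le_N0
    (fun v y => ∃ c, C.Z2 (Gv v) c ∧ ∀ g ∈ Gv v, C.nu c g = y g)
    (fun v => ⟨0, C.z2_zero _, fun g _ => congrFun C.nu_zero g⟩)
    (fun v y y' ⟨c, c1, c2⟩ ⟨d, d1, d2⟩ => ⟨c + d, c1.add d1, fun g hg => by
      rw [C.nu_add (c1.two g hg) (d1.two g hg), Pi.add_apply, c2 g hg, d2 g hg]⟩)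
    (fun v y y' ⟨c, c1, c2⟩ e => ⟨c, c1, fun g hg => (c2 g hg).trans (e g hg).symm⟩)
    (fun v g => C.ep ((t v + a) g) (C.T 1)) (fun v hv' => (s v hv').1) fun y hy l => by
      obtain ⟨b, b1, rfl⟩ := pt_lift h hy fun v b =>
        (l v (C.bd_iff.1 b)).elim fun c e => pt_bb h b.pv e.1 e.2
      rw [← (congrArg₂ (· + ·) (k b b1) (sum_bv a1 b1)).trans (add_zero 0), ← sum_add_distrib]
      exact sum_congr rfl fun v hv' => by
        rw [← bv_io h, ← bv_congr (tc_pv hv') (s v hv').2 fun _ _ => rfl,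
          bv_add_left (tc_pv hv') (ht v hv') (a1.1.mono le_top) (b1.1.mono le_top)]
  have u := un_io h y1
  refine ⟨a + C.io η, a1.add u, fun v hv' => ?_⟩
  have w := (z v hv').add (u.1.mono le_top)
  rw [← add_assoc]
  refine loc_nondeg (tc_pv hv') w fun c hc => ?_
  rw [bv_comm (tc_pv hv') hc w, ← y2 v hv' _ (ho_nu h hc) ⟨c, hc, fun _ _ => rfl⟩, ← bv_io h]
  exact bv_congr (tc_pv hv') (fun g hg => by
    rw [io_add, Pi.add_apply, Pi.add_apply _ (C.io η), ← (s v hv').2 g hg]) fun _ _ => rfl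

theorem Co.lag (c : C.Co r ι) (h : C.Lag) : LagA (sg r) dW C.N0 := fun t ht k => by
  obtain ⟨y, y1, y2⟩ := h (fun v g => ι (t v g)) (fun v hv => c.z2 (ht v hv)) fun y hy => by
    have e : (fun g => ι (invFun ι (y g))) = y := funext fun g => c.inv (hy.1.two g trivial)
    rw [← k _ (c.zu.2 (e.symm ▸ hy))]
    exact sum_congr rfl fun v _ => by rw [← c.bv, e]
  have e : ∀ g, ι (invFun ι (y g)) = y g := fun g => c.inv (y1.1.two g trivial)
  refine ⟨fun g => invFun ι (y g), c.zu.2 (by simpa only [e] using y1), fun v hv => ?_⟩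
  obtain ⟨S, s1, s2⟩ := y2 v hv
  exact ⟨invFun ι S, fun g hg => c.inj (by
    rw [c.cob, c.inv s1, ← s2 g hg, Pi.add_apply, Pi.add_apply, map_add, e])⟩

/-- The duality theorem for one curve and one twist. -/
def PK (C : Cu) (D : ℤ) : Prop := ∀ x : ℕ → GQ → C.A, (∀ v ∈ plc C.N0, C.Z2 (Gv v) (x v)) →
  (∀ b ∈ C.Sh D, ∑ v ∈ plc C.N0, C.bv v (x v) b = 0) →
  ∃ y, C.Un y ∧ ∀ v ∈ plc C.N0, C.Loc v D (x v + y)

theorem Co.pk (c : C.Co r ι) (h : PtA (sg r) dW C.N0) (hD : D ≠ 0) : C.PK D := fun x hx k => by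
  have e : ∀ v ∈ plc C.N0, ∀ g ∈ Gv v, ι (invFun ι (x v g)) = x v g := fun v hv g hg =>
    c.inv ((hx v hv).two g hg)
  obtain ⟨z, z1, z2⟩ := h (fun v y => C.Loc v D fun g => ι (y g))
    (fun v y y' a b => (a.add b).congr (fun _ _ => rfl) fun _ _ => map_add ι _ _)
    (fun v y y' a b => a.congr (fun _ _ => rfl) fun g hg => congrArg ι (b g hg))
    (fun v s => loc_two v D (c.two s) fun g _ => c.cob s g) (fun v g => invFun ι (x v g))
    (fun v hv => c.coc (hx v hv)) fun y y1 y2 => by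
      rw [← k _ ⟨c.zu.1 y1, fun v b => y2 v (C.bd_iff.1 b)⟩]
      exact sum_congr rfl fun v hv => by
        rw [← c.bv, bv_congr (tc_pv hv) (e v hv) fun _ _ => rfl]
  have u := c.zu.1 z1
  refine ⟨_, u, fun v hv => ?_⟩
  have w := (hx v hv).add (u.1.mono le_top)
  refine loc_dual (tc_pv hv) hD w fun b b1 b2 => ?_
  have e2 : ∀ g ∈ Gv v, ι (invFun ι (b g)) = b g := fun g hg => c.inv (b1.two g hg)
  rw [bv_comm (tc_pv hv) b1 w, ← z2 v hv _ (c.coc b1) (b2.congr (fun _ _ => rfl) e2), ← c.bv]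
  exact bv_congr (tc_pv hv) (fun g hg => by
    rw [Pi.add_apply, Pi.add_apply, map_add, e v hv g hg]) fun g hg => (e2 g hg).symm

theorem pk_big {N : ℕ} (hN : C.N0 ≤ N) (hD : ∀ q, C.Gp q → ¬ (q : ℤ) ∣ D)
    (h : (C.big N hN).PK D) : C.PK D := fun x hx k => by
  have sub : plc C.N0 ⊆ plc N := fun v hv =>
    mem_plc.2 ((mem_plc.1 hv).imp_right fun e => ⟨e.1, e.2.trans hN⟩)
  have un : ∀ {b : GQ → C.A}, (C.big N hN).Un b →
      (∀ v ∈ plc N, v ∉ plc C.N0 → C.Loc v D b) → C.Un b := fun {b} h1 h2 =>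
    have z : C.Z2 ⊤ b := ⟨h1.1.two, h1.1.coc, h1.1.sm⟩
    ⟨z, fun q hq => (le_or_gt q N).elim (fun e => loc_good' hq (hD q hq) (z.mono le_top)
      (h2 q (mem_plc.2 (.inr ⟨hq.1, e⟩)) fun m => (mem_plc.1 m).elim hq.1.ne_zero
        fun m => m.2.not_gt hq.2)) fun e => h1.2 q ⟨hq.1, e⟩⟩
  obtain ⟨y, y1, y2⟩ : ∃ y : GQ → C.A, (C.big N hN).Un y ∧
      ∀ v ∈ plc N, C.Loc v D ((if v ∈ plc C.N0 then x v else 0) + y) :=
    h (fun v => if v ∈ plc C.N0 then x v else 0) (fun v _ => by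
      split_ifs with e
      exacts [⟨(hx v e).two, (hx v e).coc, (hx v e).sm⟩, (C.big N hN).z2_zero _])
      fun (b : GQ → C.A) hb => by
        have l : ∀ v ∈ plc N, C.Loc v D b := fun v hv => hb.2 v (mem_plc.1 hv)
        have u := un hb.1 fun v hv _ => l v hv
        rw [← k b ⟨u, fun v e => l v (sub (C.bd_iff.1 e))⟩]
        show ∑ v ∈ plc N, C.bv v (if v ∈ plc C.N0 then x v else 0) b = _
        rw [← sum_subset sub fun v hv e => by rw [if_neg e, bv_zero (tc_pv hv) (u.1.mono le_top)]]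
        exact sum_congr rfl fun v hv => by rw [if_pos hv]
  refine ⟨y, un y1 fun v hv e => ?_, fun v hv => ?_⟩
  · simpa only [if_neg e, zero_add] using y2 v hv
  · simpa only [if_pos hv] using y2 v (sub hv)

end Cu

theorem Eqv.pk {C C' : Cu} {j : C.A ≃+ C'.A} {D : ℤ} (h : Eqv C C' j) (k : C'.PK D) : C.PK D := by
  intro x hx e
  obtain ⟨y, y1, y2⟩ := k (fun v g => j (x v g)) (fun v hv => h.z2 (hx v (h.N0 ▸ hv)))
    fun b hb => by
      rw [← e _ (h.symm.sh_of hb), h.N0]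
      refine sum_congr rfl fun v _ => congrArg (iv v) (funext₂ fun g l => ?_)
      rw [Cu.cu, Cu.cu, ← eqv_ep j, h.act, j.apply_symm_apply]
  refine ⟨fun g => j.symm (y g), ⟨h.symm.z2 y1.1, fun q hq => ?_⟩, fun v hv => ?_⟩
  · beta_reduce
    rw [y1.2 q ⟨hq.1, h.N0 ▸ hq.2⟩, map_zero]
  · exact (h.symm.loc (y2 v (h.N0 ▸ hv))).congr (fun _ _ => rfl) fun g _ => by simp

theorem ptk : PTK := fun C D hD h => by
  by_cases h0 : ∀ x : ℤ, x ^ 3 + C.a * x ^ 2 + C.b * x + C.c ≠ 0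
  · obtain ⟨g0, hg⟩ := C.exists_G3 h0
    obtain ⟨N, hN, hB⟩ := exists_big C.op_P0 C.N0
    obtain ⟨r, ι, c⟩ := C.exists_co
    have u := (c.big hN).ur
    exact Cu.pk_big hN h ((c.big hN).pk (pt_top (dual3_dW c.sm _) u.two u.good
      (ineq_one c.sm ⟨g0, c.tr g0 hg.fpf⟩ u.two u.unr (c.p0 ▸ hB))) hD)
  push Not at h0
  obtain ⟨r, k⟩ := h0
  have h' : (r : Qb) ^ 3 + C.a * r ^ 2 + C.b * r + C.c = 0 := by exact_mod_cast k
  have e : dsc (3 * r + C.a) (3 * r ^ 2 + 2 * C.a * r + C.b) 0 = dsc C.a C.b C.c := by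
    rw [show C.c = -(r ^ 3 + C.a * r ^ 2 + C.b * r) by omega, dsc, dsc]
    ring
  obtain ⟨i, hi⟩ : ∃ i, C.e i = r := by
    rw [C.root_iff, mul_eq_zero, mul_eq_zero, sub_eq_zero, sub_eq_zero, sub_eq_zero] at h'
    rcases h' with (e | e) | e
    exacts [⟨0, e.symm⟩, ⟨1, e.symm⟩, ⟨2, e.symm⟩]
  let C' : Cu := ⟨3 * r + C.a, 3 * r ^ 2 + 2 * C.a * r + C.b, 0, fun j => C.e (j + i) - r, C.N0,
    by push_cast; rw [C.ha]; rcases fin3 i with rfl | rfl | rfl <;> simp <;> ring,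
    by push_cast; rw [C.ha, C.hb]; rcases fin3 i with rfl | rfl | rfl <;> simp <;> ring,
    by simp [hi], e ▸ C.ne, e ▸ C.hN⟩
  obtain ⟨j, hj, -⟩ := exists_eqv (C := C) (C' := C') r (Equiv.addRight i) (fun _ => rfl) rfl
  obtain ⟨s, ι, c⟩ := C'.exists_co
  exact hj.pk (c.pk (pt_of_lag (dual3_dW c.sm _) c.ur.two c.ur.good
    (c.lag (Cu.lag_two (show C.e (0 + i) - r = 0 by rw [zero_add, hi, sub_self])))) hD)

end Pool.Agent.SP
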