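import Pool.Agent.Lib.MP_696deb_nt.SP.PA
import Pool.Agent.Lib.MP_696deb_nt.SP.KG

/-! The Weil pairing at every level. -/

set_option autoImplicit false

open scoped Classical
open Finset Function

namespace Pool.Agent.SP

open Pool.Agent.Lib.MP_696deb_nt Pool.Agent.Lib.MP_696deb_nt.Sm
open Pool.Agent.Lib.MP_696deb_nt.B2 (cc jC Plc Op Zu Rs Z1 H0 GoodA Apart Away cupb)
open Pool.Agent.Lib.MP_696deb_nt.B6 (W2 N2 sg dW)

theorem pw_dec : ∀ s t : Fin 2 → B2.Z2,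
    s 0 * t 1 + s 1 * t 0 = if s = 0 ∨ t = 0 ∨ s = t then 0 else 1 := by
  decide

theorem pw_self (j : ℕ) (t : B2.Z2) : B2.up j t + B2.up j t = 0 := by
  rw [← B2.up_add, B2.Z2.add_self, B2.up_zero]

theorem pw_inj (j : ℕ) : Injective (B2.up j) := fun s t h => by
  have k : ∀ s t : B2.Z2, s + t = 0 → s = t := by decide
  exact k s t (B2.up_eq_zero.1 (by rw [B2.up_add, h, pw_self]))

theorem pw_mul (j : ℕ) (u : ZMod (2 ^ (1 + j))) (t : B2.Z2) :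
    u * B2.up j t = B2.up j ((u.val : B2.Z2) * t) := by
  rcases B2.Z2.cases t with rfl | rfl
  · rw [mul_zero, B2.up_zero, mul_zero]
  · rw [mul_one, B2.GWa_up_nat, ZMod.natCast_zmod_val, B2.GWa_up_one, mul_comm]

theorem pw_right (j : ℕ) (x y : Fin 2 → ZMod (2 ^ (1 + j))) (h : 2 • y = 0) :
    B2.det2 x y = B2.up j (if 2 ^ j • x = 0 ∨ y = 0 ∨ 2 ^ j • x = y then 0 else 1) := by
  have h1 : ∀ i, ∃ t, B2.up j t = y i := fun i => B2.exists_up (by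
    have := congrFun h i
    rwa [two_nsmul] at this)
  choose t ht using h1
  obtain rfl : y = B2.up j ∘ t := funext fun i => (ht i).symm
  obtain ⟨s, hs⟩ : ∃ s : Fin 2 → B2.Z2, ∀ i, s i = ((x i).val : B2.Z2) := ⟨_, fun _ => rfl⟩
  have e : 2 ^ j • x = B2.up j ∘ s := funext fun i => by
    rw [comp_apply, hs, B2.GWa_up_nat, ZMod.natCast_zmod_val, Pi.smul_apply, nsmul_eq_mul,
      Nat.cast_pow, Nat.cast_ofNat]
  have z : (0 : Fin 2 → ZMod (2 ^ (1 + j))) = B2.up j ∘ (0 : Fin 2 → B2.Z2) :=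
    funext fun _ => (B2.up_zero j).symm
  have hi : ∀ a b : Fin 2 → B2.Z2, B2.up j ∘ a = B2.up j ∘ b ↔ a = b := fun _ _ =>
    (pw_inj j).comp_left.eq_iff
  rw [e, z]
  simp only [hi]
  rw [← pw_dec, B2.up_add, hs, hs, ← pw_mul, ← pw_mul, B2.det2, comp_apply, comp_apply]
  linear_combination (-x 1) * pw_self j (t 0)

theorem Cu.exists_EW (C : Cu) {D : ℤ} (hD : D ≠ 0) (j : ℕ) : Nonempty (C.EW D j) := by
  obtain ⟨W, ψ, hψ⟩ := C.exists_twist hD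
  obtain ⟨T⟩ := exists_TB
  obtain ⟨f, hf⟩ : ∃ f : (Fin 2 → ZMod (2 ^ (1 + j))) →+ C.A, ∀ x, f x = ψ (T.emb (1 + j) x) :=
    ⟨ψ.toAddMonoidHom.comp (T.emb (1 + j)), fun _ => rfl⟩
  have hi : Injective f := fun x y h => T.inj _ (ψ.injective (by rwa [← hf, ← hf]))
  have hs : ∀ P : C.A, 2 ^ (1 + j) • P = 0 → ∃ x, f x = P := fun P h => by
    obtain ⟨x, hx⟩ := T.surj (1 + j) (ψ.symm P) (by
      rw [← map_nsmul]
      exact (congrArg _ h).trans (map_zero _))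
    exact ⟨x, by rw [hf, hx, ψ.apply_symm_apply]⟩
  have hl := leftInverse_invFun hi
  have ht : ∀ g x, C.tw D g (f x) = f ((B2.mred (1 + j) (T.ρ g)).mulVec x) := fun g x => by
    rw [hf, hf, ← hψ, T.smul]
  have h4 : ∀ S : C.A, 2 • S = 0 → 2 ^ (1 + j) • S = 0 := fun S h => by
    rw [add_comm, pow_succ, mul_smul, h, smul_zero]
  have he : ∀ x y, C.ep (f x) (f y) = if x = 0 ∨ y = 0 ∨ x = y then 0 else 1 := fun x y => by
    simp only [Cu.ep, map_eq_zero_iff f hi, hi.eq_iff]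
  refine ⟨⟨fun P Q => B2.det2 (invFun f P) (invFun f Q), fun P P' Q h1 h2 _ => ?_,
    fun P Q Q' _ h1 h2 => ?_, fun P Q => ?_, fun g P Q h1 h2 => ?_, fun P S h1 h2 => ?_,
    fun H A B P Q hH h1 h2 h3 h5 => ?_⟩⟩
  · obtain ⟨x, rfl⟩ := hs P h1
    obtain ⟨y, rfl⟩ := hs P' h2
    rw [← map_add, hl, hl, hl]
    simp only [B2.det2, Pi.add_apply]
    ring
  · obtain ⟨x, rfl⟩ := hs Q h1
    obtain ⟨y, rfl⟩ := hs Q' h2
    rw [← map_add, hl, hl, hl]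
    simp only [B2.det2, Pi.add_apply]
    ring
  · simp only [B2.det2]
    ring
  · obtain ⟨x, rfl⟩ := hs P h1
    obtain ⟨y, rfl⟩ := hs Q h2
    rw [ht, ht, hl, hl, hl, hl, B6.tac_det]
  · obtain ⟨x, rfl⟩ := hs P h1
    obtain ⟨y, rfl⟩ := hs S (h4 S h2)
    rw [hl, hl, ← map_nsmul, he, pw_right j x y (hi (by rw [map_nsmul, h2, map_zero]))]
  · have k : ∀ (A : GQ → C.A) (P : C.A), (∀ g ∈ H, 2 ^ (1 + j) • A g = 0) →
        (∀ g ∈ H, A g = C.cob D P g) →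
        ∀ g ∈ H, T.emb (1 + j) (invFun f (A g)) = g • ψ.symm P - ψ.symm P := fun A P a1 a2 g hg =>
      ψ.injective (by
        rw [← hf, invFun_eq (hs _ (a1 g hg)), map_sub, hψ, ψ.apply_symm_apply, a2 g hg, Cu.cob])
    obtain ⟨b, b1, b2⟩ := T.iso (1 + j) H _ _ _ _ hH (k A P h1 h3) (k B Q h2 h5)
    refine ⟨b, b1, fun g hg h hh => (b2 g hg h hh).symm ▸ ?_⟩
    obtain ⟨y, hy⟩ := hs _ (h2 h hh)
    beta_reduce
    rw [← hy, ht, hl, hl]

end Pool.Agent.SP
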