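import Pool.Agent.Lib.MP_696deb_nt.SP.PA

/-! The square of Pontryagin. -/

set_option autoImplicit false

open scoped Classical
open Finset Function

namespace Pool.Agent.SP

open Pool.Agent.Lib.MP_696deb_nt Pool.Agent.Lib.MP_696deb_nt.Sm
open Pool.Agent.Lib.MP_696deb_nt.B2 (cc jC Plc Op Zu Rs Z1 H0 GoodA Apart Away cupb)
open Pool.Agent.Lib.MP_696deb_nt.B6 (W2 N2 sg dW)

namespace Cu

variable {C : Cu} {D : ℤ} {j : ℕ} (W : C.EW D j) {A : GQ → C.A}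

theorem px_tw (D : ℤ) (g : GQ) {n : ℕ} {P : C.A} (h : n • P = 0) : n • C.tw D g P = 0 := by
  rw [← tw_nsmul, h, tw_zero]

theorem px_add {n : ℕ} {P Q : C.A} (h : n • P = 0) (k : n • Q = 0) : n • (P + Q) = 0 := by
  rw [smul_add, h, k, add_zero]

theorem px_sub {n : ℕ} {P Q : C.A} (h : n • P = 0) (k : n • Q = 0) : n • (P - Q) = 0 := by
  rw [smul_sub, h, k, sub_zero]

theorem px_dvd {m n : ℕ} {P : C.A} (k : m ∣ n) (h : m • P = 0) : n • P = 0 := by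
  obtain ⟨c, rfl⟩ := k
  rw [mul_comm, mul_smul, h, smul_zero]

theorem px_two (j : ℕ) {P : C.A} (h : 2 • P = 0) : 2 ^ (1 + j) • P = 0 :=
  px_dvd (dvd_pow_self 2 (by omega)) h

theorem px_half {P : C.A} (h : 2 ^ (1 + j) • P = 0) : 2 • 2 ^ j • P = 0 := by
  rwa [smul_smul, ← pow_succ', add_comm]

theorem px_up (j : ℕ) (t : F2) : B2.up j t + B2.up j t = 0 := by
  rw [← B2.up_add, B2.Z2.add_self, B2.up_zero]

theorem px_up2 (j : ℕ) (s t : F2) : B2.up j (s + t) = B2.up j s + B2.up j t := B2.up_add j s t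

theorem EW.px_subl {P P' Q : C.A} (h : 2 ^ (1 + j) • P = 0) (h' : 2 ^ (1 + j) • P' = 0)
    (k : 2 ^ (1 + j) • Q = 0) : W.e (P - P') Q = W.e P Q - W.e P' Q := by
  rw [eq_sub_iff_add_eq, ← W.addl _ _ _ (px_sub h h') h' k, sub_add_cancel]

theorem EW.px_subr {P Q Q' : C.A} (h : 2 ^ (1 + j) • P = 0) (k : 2 ^ (1 + j) • Q = 0)
    (k' : 2 ^ (1 + j) • Q' = 0) : W.e P (Q - Q') = W.e P Q - W.e P Q' := by
  rw [eq_sub_iff_add_eq, ← W.addr _ _ _ h (px_sub k k') k', sub_add_cancel]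

theorem EW.px_nsl {P Q : C.A} (h : 2 ^ (1 + j) • P = 0) (k : 2 ^ (1 + j) • Q = 0) (n : ℕ) :
    W.e (n • P) Q = n * W.e P Q := by
  induction n with
  | zero =>
    have e := W.px_subl h h k
    rw [sub_self, sub_self] at e
    rw [zero_nsmul, e, Nat.cast_zero, zero_mul]
  | succ n ih =>
    rw [succ_nsmul, W.addl _ _ _ (by rw [smul_comm, h, smul_zero]) h k, ih, Nat.cast_succ,
      add_mul, one_mul]

theorem EW.px_left {P S : C.A} (h : 2 ^ (1 + j) • P = 0) (k : 2 • S = 0) :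
    W.e S P = B2.up j (C.ep (2 ^ j • P) S) := by
  rw [W.skew, W.right _ _ h k, neg_eq_iff_add_eq_zero, px_up]

theorem EW.px_four {i : ℕ} (W : C.EW D (i + 2)) {P Q : C.A} (h : 4 • P = 0) (k : 4 • Q = 0) :
    W.e P Q = 2 ^ i * B2.up (i + 2) (C.ep (2 • P) (2 • Q)) := by
  obtain ⟨R, rfl⟩ := C.exists_div (i + 1) P
  have hR : 2 ^ (1 + (i + 2)) • R = 0 := by
    rw [← h, smul_smul]
    congr 1
    ring
  have hQ : 2 ^ (1 + (i + 2)) • Q = 0 := px_dvd ⟨2 ^ (i + 1), by ring⟩ k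
  have h2 : 2 • 2 • Q = 0 := by rw [smul_smul]; exact k
  have e := W.px_nsl hQ hR 2
  rw [W.px_left hR h2, W.skew Q R] at e
  rw [W.px_nsl hR hQ, smul_smul 2 _ R, ← pow_succ', e]
  push_cast
  have := px_up (i + 2) (C.ep (2 ^ (i + 2) • R) (2 • Q))
  rw [e] at this
  linear_combination (-2 ^ i) * this

theorem EW.pont_c2 (hj : 1 ≤ j) (hA : LC A) (h1 : ∀ g, 2 ^ (1 + j) • A g = 0)
    (h2 : ∀ g h, 2 • (A g + C.tw D g (A h) - A (g * h)) = 0) : B2.C2 (1 + j) ⊤ (W.pont A) := by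
  have s1 : B2.Sm2 ⊤ fun g k => C.tw D g (A k) :=
    (lc_chi D).left.comp₂ (ki_sm2_act hA) fun c P => sn c • P
  refine ⟨(hA.left.comp₂ s1 W.e).comp₂ ((hA.mul.comp₂ (hA.left.comp₂ s1 (· + ·))
    fun x y => C.ep (2 ^ j • x) (y - x)).comp (B2.up j)) (· + ·), fun g _ h _ k _ => ?_⟩
  obtain ⟨δ, hδ⟩ : ∃ δ : GQ → GQ → C.A, ∀ g h, A g + C.tw D g (A h) - A (g * h) = δ g h :=
    ⟨_, fun _ _ => rfl⟩
  obtain ⟨a, ha⟩ : ∃ a : GQ → C.A, ∀ g, 2 ^ j • A g = a g := ⟨_, fun _ => rfl⟩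
  have d2 : ∀ g h, 2 • δ g h = 0 := fun g h => hδ g h ▸ h2 g h
  have a2 : ∀ g, 2 • a g = 0 := fun g => ha g ▸ px_half (h1 g)
  have eA : ∀ g h, A (g * h) = A g + C.tw D g (A h) - δ g h := fun g h => by
    rw [← hδ, sub_sub_cancel]
  have ea : ∀ g h, a (g * h) = a g + C.act g (a h) := fun g h => by
    rw [← ha, eA, smul_sub, smul_add, ← tw_nsmul, ha, ha, C.tw_two D g (a2 h),
      px_dvd (dvd_pow_self 2 (by omega)) (d2 g h), sub_zero]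
  have ed : δ g (h * k) = δ (g * h) k + δ g h + C.act g (δ h k) := by
    rw [← C.neg_two (C.two_act g (d2 h k)), ← C.tw_two D g (d2 h k)]
    simp only [← hδ, tw_mul, tw_sub, tw_add, mul_assoc]
    abel
  have t1 := px_tw D g (h1 h)
  have t2 := px_tw D g (px_tw D h (h1 k))
  have t3 := C.two_act g (d2 h k)
  have e1 : W.e (A g) (C.tw D g (A (h * k))) = W.e (A g) (C.tw D g (A h)) +
      W.e (A g) (C.tw D g (C.tw D h (A k))) - B2.up j (C.ep (a g) (C.act g (δ h k))) := by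
    rw [eA, tw_sub, tw_add, C.tw_two D g (d2 h k),
      W.px_subr (h1 g) (px_add t1 t2) (px_two j t3), W.addr _ _ _ (h1 g) t1 t2,
      W.right _ _ (h1 g) t3, ha]
  have e2 : W.e (A (g * h)) (C.tw D (g * h) (A k)) = W.e (A g) (C.tw D g (C.tw D h (A k))) +
      B2.cy (1 + j) g * W.e (A h) (C.tw D h (A k)) -
        B2.up j (C.ep (C.act (g * h) (a k)) (δ g h)) := by
    rw [eA, W.px_subl (px_add (h1 g) t1) (px_two j (d2 g h)) (px_tw D _ (h1 k)),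
      W.px_left (px_tw D _ (h1 k)) (d2 g h), ← tw_nsmul, ha, C.tw_two D _ (a2 k), tw_mul,
      W.addl _ _ _ (h1 g) t1 t2, W.eqv g _ _ (h1 h) (px_tw D h (h1 k))]
  have e3 : C.ep (a (g * (h * k))) (δ g (h * k)) = C.ep (a (g * h * k)) (δ (g * h) k) +
      (C.ep (a (g * h)) (δ g h) + C.ep (C.act (g * h) (a k)) (δ g h)) +
        (C.ep (a g) (C.act g (δ h k)) + C.ep (a (h * k)) (δ h k)) := by
    rw [ed, C.ep_add_right (px_add (d2 _ _) (d2 _ _)) t3 (a2 _),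
      C.ep_add_right (d2 _ _) (d2 _ _) (a2 _), ← C.ep_act g (a (h * k)),
      ← C.ep_add_left (a2 _) (C.two_act _ (a2 _)) t3,
      ← C.ep_add_left (a2 _) (C.two_act _ (a2 _)) (d2 g h), ← ea, ← ea, mul_assoc]
  simp only [EW.pont, hδ, ha]
  rw [e1, e2, e3, mul_add, B2.cy_mul_up, px_up2, px_up2, px_up2, px_up2]
  linear_combination px_up j (C.ep (C.act (g * h) (a k)) (δ g h)) +
    px_up j (C.ep (a (h * k)) (δ h k))

theorem EW.pont_loc (hj : 2 ≤ j) (hA : LC A) (h1 : ∀ g, 2 ^ (1 + j) • A g = 0)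
    (h2 : ∀ g h, 2 • (A g + C.tw D g (A h) - A (g * h)) = 0) {H : Subgroup GQ}
    (hH : IsClosed (H : Set GQ)) {Q : C.A} {t b : GQ → C.A} (ht : C.Z2 H t)
    (h3 : ∀ g ∈ H, 2 • (A g - C.cob D Q g) = t g) (h4 : ∀ g, 2 ^ j • A g = b g) :
    B2.Spl (1 + j) H fun g h => W.pont A g h - B2.up j (C.cu t b g h) := by
  obtain ⟨i, rfl⟩ : ∃ i, j = i + 2 := ⟨j - 2, by omega⟩
  obtain ⟨T, hT⟩ : ∃ T : GQ → C.A, ∀ g, A g - C.cob D Q g = T g := ⟨_, fun _ => rfl⟩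
  obtain ⟨q, hq⟩ : ∃ q : C.A → F2, ∀ S, (if S = 0 then 0 else 1) = q S := ⟨_, fun _ => rfl⟩
  have eA : ∀ g, A g = C.cob D Q g + T g := fun g => by rw [← hT, add_sub_cancel]
  have T2 : ∀ g ∈ H, 2 • T g = t g := fun g hg => hT g ▸ h3 g hg
  have T4 : ∀ g ∈ H, 4 • T g = 0 := fun g hg => by
    rw [show (4 : ℕ) = 2 * 2 from rfl, mul_smul, T2 g hg, ht.two g hg]
  have T5 : ∀ g ∈ H, 2 ^ (1 + (i + 2)) • T g = 0 := fun g hg =>
    px_dvd ⟨2 ^ (i + 1), by ring⟩ (T4 g hg)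
  have K5 : ∀ g ∈ H, 2 ^ (1 + (i + 2)) • C.cob D Q g = 0 := fun g hg => by
    rw [eq_sub_of_add_eq (eA g).symm]
    exact px_sub (h1 g) (T5 g hg)
  have Kb : ∀ g ∈ H, 2 ^ (i + 2) • C.cob D Q g = b g := fun g hg => by
    rw [← h4, eA, smul_add, px_dvd ⟨2 ^ i, by ring⟩ (T4 g hg), add_zero]
  have b2 : ∀ g, 2 • b g = 0 := fun g => h4 g ▸ px_half (h1 g)
  obtain ⟨β, β1, β2⟩ := W.iso H _ _ Q Q hH K5 K5 (fun _ _ => rfl) fun _ _ => rfl
  refine ⟨fun g => β g - W.e (C.cob D Q g) (T g) + 2 ^ i * B2.up (i + 2) (q (t g)),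
    (β1.comp₂ ((((C.lc_cob D Q).comp₂ hA fun x y => W.e x (y - x)).congr fun g _ => by
      rw [hT]).mono le_top) (· - ·)).comp₂ ht.sm fun x y => x + 2 ^ i * B2.up (i + 2) (q y),
    fun g hg h hh => ?_⟩
  obtain ⟨δ, hδ⟩ : ∃ δ, A g + C.tw D g (A h) - A (g * h) = δ := ⟨_, rfl⟩
  have d2 : 2 • δ = 0 := hδ ▸ h2 g h
  have eT : T (g * h) = T g + C.tw D g (T h) - δ := by
    simp only [← hδ, ← hT, cob_mul, tw_sub]
    abel
  have t1 := px_tw D g (K5 h hh)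
  have t2 := px_tw D g (T5 h hh)
  have e1 : W.e (A g) (C.tw D g (A h)) = W.e (C.cob D Q g) (C.tw D g (C.cob D Q h)) +
      W.e (C.cob D Q g) (C.tw D g (T h)) + (W.e (T g) (C.tw D g (C.cob D Q h)) +
        W.e (T g) (C.tw D g (T h))) := by
    rw [eA g, eA h, tw_add, W.addl _ _ _ (K5 g hg) (T5 g hg) (px_add t1 t2),
      W.addr _ _ _ (K5 g hg) t1 t2, W.addr _ _ _ (T5 g hg) t1 t2]
  have e2 : W.e (C.cob D Q (g * h)) (T (g * h)) = W.e (C.cob D Q g) (T g) +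
      W.e (C.cob D Q g) (C.tw D g (T h)) + (-W.e (T g) (C.tw D g (C.cob D Q h)) +
        B2.cy (1 + (i + 2)) g * W.e (C.cob D Q h) (T h)) -
          B2.up (i + 2) (C.ep (b (g * h)) δ) := by
    rw [eT, W.px_subr (K5 _ (mul_mem hg hh)) (px_add (T5 g hg) t2) (px_two _ d2),
      W.right _ _ (K5 _ (mul_mem hg hh)) d2, Kb _ (mul_mem hg hh), cob_mul,
      W.addl _ _ _ (K5 g hg) t1 (px_add (T5 g hg) t2), W.addr _ _ _ (K5 g hg) (T5 g hg) t2,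
      W.addr _ _ _ t1 (T5 g hg) t2, W.eqv g _ _ (K5 h hh) (T5 h hh),
      W.skew (C.tw D g _) (T g)]
  have e3 := W.px_nsl (T5 g hg) t1 2
  rw [T2 g hg, W.px_left t1 (ht.two g hg), ← tw_nsmul, Kb h hh, C.tw_two D g (b2 h), ep_comm] at e3
  have e4 := W.px_four (T4 g hg) (px_tw D g (T4 h hh))
  rw [← tw_nsmul, T2 g hg, T2 h hh, C.tw_two D g (ht.two h hh)] at e4
  have e5 : q (t (g * h)) = q (t g) + q (t h) + C.ep (t g) (C.act g (t h)) := by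
    rw [← hq, ← hq, ← hq, ht.coc g hg h hh, kn_q (C.two_act g (ht.two h hh))]
    simp only [map_eq_zero_iff _ (C.act_inj g)]
  have e6 := β2 g hg h hh
  dsimp only at e6
  simp only [EW.pont, hδ, h4, cu]
  rw [e1, e2, e4, e5, e6, px_up2, px_up2, mul_add, mul_left_comm, B2.cy_mul_up, e3]
  push_cast
  linear_combination px_up (i + 2) (C.ep (b (g * h)) δ) +
    2 ^ i * px_up (i + 2) (C.ep (t g) (C.act g (t h)))

end Cu

end Pool.Agent.SP
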