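import Pool.Agent.Lib.MP_696deb_nt.SP.PO
import Pool.Agent.Lib.MP_696deb_nt.SP.PX
import Pool.Agent.Lib.MP_696deb_nt.SP.PW
import Pool.Agent.Lib.MP_696deb_nt.SP.PR
import Pool.Agent.Lib.MP_696deb_nt.SP.PP
import Pool.Agent.Lib.MP_696deb_nt.SP.PK

/-! The parity theorem. -/

set_option autoImplicit false

open scoped Classical
open Finset Function

namespace Pool.Agent.SP

open Pool.Agent.Lib.MP_696deb_nt Pool.Agent.Lib.MP_696deb_nt.Sm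
open Pool.Agent.Lib.MP_696deb_nt.B2 (cc jC Plc Op Zu Rs Z1 H0 GoodA Apart Away cupb)
open Pool.Agent.Lib.MP_696deb_nt.B6 (W2 N2 sg dW)

namespace Cu

variable {C : Cu} {D : ℤ} {k N : ℕ} {c c' : GQ → C.A} {t : ℕ → GQ → C.A}

theorem pz_sel (hc : C.IsSel D (k + 1) c) : C.IsSel D 1 (2 ^ k • c) :=
  mem_Zs.1 ⟨nsmul_mem (mem_Zs.2 hc).1 _, funext fun g => by
    show 2 ^ 1 • 2 ^ k • c g = 0
    rw [smul_smul, ← pow_add, add_comm, hc.tors]⟩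

theorem Dat.alt (hD : D ≠ 0) (h : C.Dat D c c' t N) (hc : C.IsSel D (k + 1) c) :
    ∑ v ∈ plc N, C.bv v (t v) (2 ^ k • c) = 0 := by
  obtain ⟨W⟩ := C.exists_EW hD (k + 2)
  have hb := pz_sel hc
  have a0 : LC fun g => C.hf (c' g) := h.lc.comp C.hf
  have a4 : ∀ g, 2 ^ (k + 2) • C.hf (c' g) = (2 ^ k • c) g := fun g => by
    rw [pow_succ, mul_smul, two_hf, pow_succ, mul_smul, ← h.two]
    rfl
  have a1 : ∀ g, 2 ^ (1 + (k + 2)) • C.hf (c' g) = 0 := fun g => by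
    rw [pow_add, mul_smul, a4, hb.tors]
  have a2 : ∀ g l, 2 • (C.hf (c' g) + C.tw D g (C.hf (c' l)) - C.hf (c' (g * l))) = 0 :=
    fun g l => by
      rw [smul_sub, smul_add, ← C.tw_nsmul, two_hf, two_hf, two_hf, h.coc g l, sub_self]
  refine recip_up (W.pont_c2 (by omega) a0 a1 a2) (fun v => C.cu (t v) (2 ^ k • c))
    (fun v hv => c2_cu (h.z2 v hv) (hb.z2.mono le_top)) (fun v hv => ?_)
    (C.two_le_N0.trans h.big) fun q hq l => h.bv_out hD hb hq l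
  obtain ⟨Q, hQ⟩ := h.loc v hv
  refine W.pont_loc (by omega) a0 a1 a2 (closed_Gv hv) (Q := C.hf Q) (h.z2 v hv) (fun g hg => ?_) a4
  rw [smul_sub, two_hf, ← Pi.smul_apply 2 (C.cob D _), ← C.cob_nsmul, two_hf, ← hQ g hg,
    Pi.sub_apply, sub_sub_cancel]

theorem Kz.ti (h : C.Kz D) :
    ∃ k, ∀ b, b ∈ C.Ti D ↔ ∃ c ∈ C.Zs D (k + 1), 2 ^ k • c = b := by
  obtain ⟨k, h⟩ := h
  refine ⟨k, fun b => ⟨?_, ?_⟩⟩
  · rintro ⟨h1, S, -, -, rfl⟩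
    obtain ⟨Q, rfl⟩ := C.exists_div k S
    rw [C.cob_nsmul] at h1 ⊢
    exact ⟨_, mem_Zs'.2 ⟨C.cob_Zi D Q, by rw [pow_succ', mul_smul]; exact funext h1⟩, rfl⟩
  · rintro ⟨c, hc, rfl⟩
    obtain ⟨S, m, h1, h2⟩ := h _ c (mem_Zs.1 hc)
    exact ⟨(pz_sel (mem_Zs.1 hc)).tors, S, m, h1, funext h2⟩

theorem pz_o (C : Cu) (hD : D ≠ 0) : ∃ o : (GQ → C.A) → (GQ → C.A) → F2, ∀ {c c' t N b},
    C.Dat D c c' t N → C.IsSel D 1 b → o c b = ∑ v ∈ plc N, C.bv v (t v) b := by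
  refine ⟨fun c b => if h : ∃ p : _ × _ × ℕ, C.Dat D c p.1 p.2.1 p.2.2 then
    ∑ v ∈ plc h.choose.2.2, C.bv v (h.choose.2.1 v) b else 0, fun {c c' t N b} h hb => ?_⟩
  have e : ∃ p : _ × _ × ℕ, C.Dat D c p.1 p.2.1 p.2.2 := ⟨(c', t, N), h⟩
  exact (dif_pos e).trans (e.choose_spec.uniq hD h hb)

theorem pz_pv {v : ℕ} (h : v ∈ plc N) : Pv v := (mem_plc.1 h).imp_right And.left

end Cu

open Cu in
theorem par_of (pt : PTK) (sha : ShaStmt) : ParStmt := by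
  intro C D hD hK
  obtain ⟨k, hk⟩ := hK.ti
  obtain ⟨o, ho⟩ := C.pz_o hD
  have ex := fun n c (hc : c ∈ C.Zs D n) => exists_dat hD (C.lft sha D) (mem_Zs.1 hc)
  have z := fun b (hb : b ∈ C.Zs D 1) v => (mem_Zs.1 hb).z2.mono (le_top (a := Gv v))
  rw [Cu.Pr, tower_par (C.Zi D) (C.Zs D) (fun _ _ => mem_Zs') (C.finite_Zs hD) o
    (fun k c hc d hd b hb => ?_) (fun k c hc b hb b' hb' => ?_)
    (fun k c hc => ⟨fun l => ?_, ?_⟩) (fun k c hc => ?_) _ k hk, CharTwo.add_self_eq_zero]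
  · obtain ⟨c', t, N, h⟩ := ex _ c hc
    obtain ⟨d', s, N', l⟩ := ex _ d hd
    have h' := h.mono (le_max_left N N')
    have l' := l.mono (le_max_right N N')
    rw [ho (h'.add l') (mem_Zs.1 hb), ho h' (mem_Zs.1 hb), ho l' (mem_Zs.1 hb), ← sum_add_distrib]
    exact sum_congr rfl fun v hv =>
      bv_add_left (pz_pv hv) (h.z2 v (pz_pv hv)) (l.z2 v (pz_pv hv)) (z b hb v)
  · obtain ⟨c', t, N, h⟩ := ex _ c hc
    rw [ho h (mem_Zs.1 (add_mem hb hb')), ho h (mem_Zs.1 hb), ho h (mem_Zs.1 hb'),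
      ← sum_add_distrib]
    exact sum_congr rfl fun v hv =>
      bv_add_right (pz_pv hv) (h.z2 v (pz_pv hv)) (z b hb v) (z b' hb' v)
  · obtain ⟨c', t, N, h⟩ := ex _ c hc
    exact (h.ker pt hD (mem_Zs.1 hc) fun b hb => (ho h hb).symm.trans (l b (mem_Zs.2 hb))).imp
      fun d hd => ⟨mem_Zs.2 hd.1, hd.2⟩
  · rintro ⟨d, hd, rfl⟩ b hb
    rw [ho (Dat.of_sel (mem_Zs.1 hd)) (mem_Zs.1 hb)]
    refine sum_eq_zero fun v hv => ?_
    have e := bv_add_left (pz_pv hv) (C.z2_zero _) (C.z2_zero _) (z b hb v)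
    rw [add_zero] at e
    exact left_eq_add.1 e
  · obtain ⟨c', t, N, h⟩ := ex _ c hc
    exact (ho h (pz_sel (mem_Zs.1 hc))).trans (h.alt hD (mem_Zs.1 hc))

end Pool.Agent.SP
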