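import Pool.Agent.Lib.MP_696deb_nt.SP.Z0
import Pool.Agent.Lib.MP_696deb_nt.SP.K5

/-! Curves with a rational point of order two: definitions. -/

set_option autoImplicit false

open scoped Classical
open Finset

namespace Pool.Agent.SP

open Pool.Agent.Lib.MP_696deb_nt Pool.Agent.Lib.MP_696deb_nt.Sm
open Pool.Agent.Lib.MP_696deb_nt.B2 (jC cc)

/-- The parity of the exponent of two. -/
noncomputable def par (n : ℕ) : F2 := (padicValNat 2 n : F2)

/-- The real place, written `0`, and the primes. -/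
def Pv (v : ℕ) : Prop := v = 0 ∨ v.Prime

/-- The real place and the primes up to `N`. -/
def plc (N : ℕ) : Finset ℕ := insert 0 ((range (N + 1)).filter Nat.Prime)

/-- The local invariant of a cocycle with values in the field with two elements. -/
noncomputable def iv (v : ℕ) (c : GQ → GQ → F2) : F2 :=
  if v = 0 then c cc cc + c 1 1 else cft.inv 1 ⊤ (pl v) c

/-- Smooth characters of order two on `H`. -/
def Ho (H : Subgroup GQ) (t : GQ → F2) : Prop := B2.Sm H t ∧ B2.IsHom H t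

/-- The local symbol of two characters. -/
noncomputable def hv (v : ℕ) (t y : GQ → F2) : F2 := iv v fun g h => t g * y h

theorem ho_zero (H : Subgroup GQ) : Ho H 0 := ⟨B2.Sm.const 0, fun _ _ _ _ => (add_zero _).symm⟩

theorem Ho.add {H : Subgroup GQ} {t y : GQ → F2} (h : Ho H t) (k : Ho H y) : Ho H (t + y) :=
  ⟨h.1.comp₂ k.1 (· + ·), fun g hg l hl => by
    simp only [Pi.add_apply, h.2 g hg l hl, k.2 g hg l hl]
    abel⟩

theorem Ho.mono {H H' : Subgroup GQ} {t : GQ → F2} (h : Ho H t) (k : H' ≤ H) : Ho H' t :=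
  ⟨h.1.mono k, fun g hg l hl => h.2 g (k hg) l (k hl)⟩

theorem ho_chi (H : Subgroup GQ) (d : ℤ) : Ho H (chi d) :=
  ⟨(lc_chi d).mono le_top, fun g _ h _ => chi_mul_g d g h⟩

theorem neg_F2 (t : GQ → F2) : -t = t := funext fun g => CharTwo.neg_eq (t g)

/-- The quadratic characters that are unramified at the primes above `N`. -/
def Ch (N : ℕ) : AddSubgroup (GQ → F2) where
  carrier := {t | Ho ⊤ t ∧ ∀ q : ℕ, q.Prime → N < q → t (sig q) = 0}
  zero_mem' := ⟨ho_zero ⊤, fun _ _ _ => rfl⟩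
  add_mem' := fun h k => ⟨h.1.add k.1, fun q h1 h2 => by
    rw [Pi.add_apply, h.2 q h1 h2, k.2 q h1 h2, add_zero]⟩
  neg_mem' := fun {t} h => by rwa [neg_F2]

theorem mem_plc {N v : ℕ} : v ∈ plc N ↔ v = 0 ∨ v.Prime ∧ v ≤ N := by
  simp only [plc, mem_insert, mem_filter, mem_range, Nat.lt_succ_iff, and_comm]

namespace Cu

variable (C : Cu)

theorem bd_iff {v : ℕ} : C.Bd v ↔ v ∈ plc C.N0 := mem_plc.symm

theorem Bd.pv {C : Cu} {v : ℕ} (h : C.Bd v) : Pv v := h.imp_right And.left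

/-- The local pairing at any place. -/
noncomputable def bv (v : ℕ) (u b : GQ → C.A) : F2 := iv v (C.cu u b)

/-- Cocycles that are unramified at the good primes and come from points at the bad places. -/
noncomputable def Sh (D : ℤ) : AddSubgroup (GQ → C.A) where
  carrier := {c | C.Un c ∧ ∀ v, C.Bd v → C.Loc v D c}
  zero_mem' := ⟨C.un_zero, fun v _ => C.loc_zero v D⟩
  add_mem' := fun h k => ⟨h.1.add k.1, fun v hv => (h.2 v hv).add (k.2 v hv)⟩
  neg_mem' := fun {c} h => ⟨h.1.neg, fun v hv => by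
    simpa only [neg_one_zsmul] using (h.2 v hv).zsmul (-1)⟩

/-- Elements that are killed by the quadratic characters that are unramified at good primes. -/
def QK (u : GQ) : Prop := ∀ t ∈ Ch C.N0, t u = 0

/-- `a` is twice a cocycle of the twist by `D` that comes from points at all places. -/
def Lf (D : ℤ) (a : GQ → C.A) : Prop := ∃ c : GQ → C.A, LC c ∧
  (∀ g h, c (g * h) = c g + C.tw D g (c h)) ∧ (∀ v, Pv v → C.Loc v D c) ∧ ∀ g, 2 • c g = a g

/-- Elements that fix the two-torsion and are killed by `S` and by the quadratic characters. -/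
def Nn (S : AddSubgroup (GQ → C.A)) (u : GQ) : Prop := u ∈ C.Kpm ∧ C.QK u ∧ ∀ a ∈ S, a u = 0

/-- The discriminant of the quadratic factor. -/
def bb : ℤ := C.a ^ 2 - 4 * C.b

/-- The image in the quotient by the first point of order two. -/
noncomputable def nu (c : GQ → C.A) (g : GQ) : F2 := C.ep (c g) (C.T 0)

/-- A character as a cocycle with values in the multiples of the first point of order two. -/
noncomputable def io (t : GQ → F2) (g : GQ) : C.A := (t g).val • C.T 0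

/-- The local condition of the first isogeny. -/
def Xl (v : ℕ) (D : ℤ) (t : GQ → F2) : Prop := C.Loc v D (C.io t)

/-- The local condition of the second isogeny. -/
def Yl (v : ℕ) (D : ℤ) (t : GQ → F2) : Prop :=
  ∃ k, C.Z2 (Gv v) k ∧ C.Loc v D k ∧ ∀ g ∈ Gv v, C.nu k g = t g

theorem io_zero : C.io 0 = 0 := funext fun _ => zero_nsmul _

theorem io_add (t y : GQ → F2) : C.io (t + y) = C.io t + C.io y :=
  funext fun g => val_add_smul (C.two_T 0) (t g) (y g)

theorem nu_zero : C.nu 0 = 0 := funext fun _ => C.ep_zero_left _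

theorem nu_add {c c' : GQ → C.A} {g : GQ} (h : 2 • c g = 0) (h' : 2 • c' g = 0) :
    C.nu (c + c') g = C.nu c g + C.nu c' g := C.ep_add_left h h' (C.two_T 0)

theorem nu_io (t : GQ → F2) : C.nu (C.io t) = 0 := funext fun g => by
  rw [nu, io, ep_smul_left, ep_self, mul_zero, Pi.zero_apply]

theorem xl_zero (v : ℕ) (D : ℤ) : C.Xl v D 0 := by
  rw [Xl, io_zero]
  exact C.loc_zero v D

theorem Xl.add {C : Cu} {v : ℕ} {D : ℤ} {t y : GQ → F2} (h : C.Xl v D t) (k : C.Xl v D y) :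
    C.Xl v D (t + y) := by
  rw [Xl, io_add]
  exact Loc.add h k

theorem yl_zero (v : ℕ) (D : ℤ) : C.Yl v D 0 :=
  ⟨0, C.z2_zero _, C.loc_zero v D, fun _ _ => C.ep_zero_left _⟩

theorem Yl.add {C : Cu} {v : ℕ} {D : ℤ} {t y : GQ → F2} (h : C.Yl v D t) (k : C.Yl v D y) :
    C.Yl v D (t + y) := by
  obtain ⟨a, a1, a2, a3⟩ := h
  obtain ⟨b, b1, b2, b3⟩ := k
  exact ⟨a + b, a1.add b1, a2.add b2, fun g hg => by
    rw [C.nu_add (a1.two g hg) (b1.two g hg), a3 g hg, b3 g hg, Pi.add_apply]⟩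

/-- The Selmer group of the first isogeny, unramified at all good primes. -/
def XP (D : ℤ) : AddSubgroup (GQ → F2) where
  carrier := {t | t ∈ Ch C.N0 ∧ ∀ v, C.Bd v → C.Xl v D t}
  zero_mem' := ⟨zero_mem _, fun v _ => C.xl_zero v D⟩
  add_mem' := fun h k => ⟨add_mem h.1 k.1, fun v hv => (h.2 v hv).add (k.2 v hv)⟩
  neg_mem' := fun {t} h => by rwa [neg_F2]

/-- The Selmer group of the second isogeny, unramified at all good primes. -/
def YP (D : ℤ) : AddSubgroup (GQ → F2) where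
  carrier := {t | t ∈ Ch C.N0 ∧ ∀ v, C.Bd v → C.Yl v D t}
  zero_mem' := ⟨zero_mem _, fun v _ => C.yl_zero v D⟩
  add_mem' := fun h k => ⟨add_mem h.1 k.1, fun v hv => (h.2 v hv).add (k.2 v hv)⟩
  neg_mem' := fun {t} h => by rwa [neg_F2]

/-- The image of the Selmer group of the two-torsion. -/
def RY (D : ℤ) : AddSubgroup (GQ → F2) where
  carrier := {t | ∃ c ∈ C.Sh D, C.nu c = t}
  zero_mem' := ⟨0, zero_mem _, C.nu_zero⟩
  add_mem' := by
    rintro _ _ ⟨a, ha, rfl⟩ ⟨b, hb, rfl⟩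
    exact ⟨a + b, add_mem ha hb, funext fun g =>
      C.nu_add (ha.1.1.two g trivial) (hb.1.1.two g trivial)⟩
  neg_mem' := fun {t} h => by rwa [neg_F2]

/-- The Kummer cocycle of the first point of order two. -/
noncomputable def dT (D : ℤ) : GQ → C.A := C.cob D (C.hf (C.T 0))

end Cu

/-- One half of a pair of dual isogenies of degree two. -/
structure Hi (C C' : Cu) (φ : C.A →+ C'.A) (ψ : C'.A →+ C.A) : Prop where
  two : C.e 0 = 0
  N0 : C'.N0 = C.N0
  b : chi C'.b = chi C.bb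
  act : ∀ g P, φ (C.act g P) = C'.act g (φ P)
  dual : ∀ P, ψ (φ P) = 2 • P
  tor : ∀ S, 2 • S = 0 → φ S = (C.ep S (C.T 0)).val • C'.T 0

/-- Two curves that are linked by dual isogenies of degree two. -/
def Iso (C C' : Cu) : Prop := ∃ φ ψ, Hi C C' φ ψ ∧ Hi C' C ψ φ

theorem Iso.symm {C C' : Cu} (h : Iso C C') : Iso C' C := by
  obtain ⟨φ, ψ, h1, h2⟩ := h
  exact ⟨ψ, φ, h2, h1⟩

/-- The variation of the Cassels-Tate pairing in a class of primes. -/
def CoreStmt : Prop := ∀ (C : Cu) (ε : ℤ) (l : ℕ) (S : AddSubgroup (GQ → C.A)),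
  ε = 1 ∨ ε = -1 → C.Gp l → Finite S → S ≤ C.Sh (ε * l) → (∀ a ∈ S, a (frb l) = 0) →
  ∃ (B : S →+ S →+ F2) (Φ : GQ → S → S → F2), (∀ a, B a a = 0) ∧
    (∀ u u', C.Nn S u → C.Nn S u' → ∀ a b, Φ (u * u') a b = Φ u a b + Φ u' a b) ∧
    (∀ g ∈ C.Kpm, ∀ a b : S, Φ (g * g) a b = C.ep (a.1 g) (b.1 g)) ∧
    ∀ u, C.Nn S u → ∃ (U : Subgroup GQ) (N : ℕ), B2.Op U ∧ U.Normal ∧ ∀ p : ℕ, p.Prime → N < p →
      Frb U (frb l * u) p → ∀ a : S, C.Lf (ε * p) a → ∀ b, B a b = Φ u a b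

/-- The quadratic refinement of the local pairing. -/
def QStmt : Prop := ∀ C : Cu, ∃ Q : ℕ → (GQ → C.A) → F2,
  (∀ v a a', Pv v → (∀ g ∈ Gv v, a g = a' g) → Q v a = Q v a') ∧
  (∀ v a a', Pv v → C.Z2 (Gv v) a → C.Z2 (Gv v) a' → Q v (a + a') = Q v a + Q v a' + C.bv v a a') ∧
  (∀ v a D, Pv v → C.Z2 (Gv v) a → C.Loc v D a → Q v a = 0) ∧
  ∀ a, C.Un a → ∑ v ∈ plc C.N0, Q v a = 0

/-- The size of the local condition at a prime. -/
def LSStmt : Prop := ∀ (C : Cu) (v : ℕ) (D : ℤ), v.Prime → D ≠ 0 →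
  ∃ k : Fin (if v = 2 then 8 else 4) → GQ → C.A, (∀ i, C.Z2 (Gv v) (k i) ∧ C.Loc v D (k i)) ∧
    ∀ i j, (∀ g ∈ Gv v, k i g = k j g) → i = j

end Pool.Agent.SP
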