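import Pool.Agent.Lib.MP_696deb_nt.SP.TW

/-! Primes that split in the field of the two-torsion. -/

set_option autoImplicit false

open scoped Classical
open Finset

namespace Pool.Agent.SP

open Pool.Agent.Lib.MP_696deb_nt Pool.Agent.Lib.MP_696deb_nt.Sm
open Pool.Agent.Lib.MP_696deb_nt.B2 (jC cc)

theorem tu_ne {ε : ℤ} (hε : ε = 1 ∨ ε = -1) {p : ℕ} (hp : p.Prime) : ε * p ≠ 0 :=
  mul_ne_zero (by rcases hε with rfl | rfl <;> decide) (Int.natCast_ne_zero.2 hp.ne_zero)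

theorem tu_val {ε : ℤ} (hε : ε = 1 ∨ ε = -1) {p : ℕ} (hp : p.Prime) :
    padicValInt p (ε * p) = 1 := by
  have : Fact p.Prime := ⟨hp⟩
  have e : (ε * p).natAbs = p := by
    rcases hε with rfl | rfl <;> simp
  rw [padicValInt, e, padicValNat_self]

theorem tu_ndvd {ε : ℤ} (hε : ε = 1 ∨ ε = -1) {p q : ℕ} (hp : p.Prime) (hq : q.Prime)
    (h : q ≠ p) : ¬ (q : ℤ) ∣ ε * p := fun k => by
  have e : (ε * p).natAbs = p := by
    rcases hε with rfl | rfl <;> simp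
  have k1 := Int.natCast_dvd.1 k
  rw [e] at k1
  exact h ((Nat.prime_dvd_prime_iff_eq hq hp).1 k1)

theorem tu_inv {t : GQ → F2} (h : Ho ⊤ t) (g : GQ) : t g⁻¹ = t g := by
  have h1 := h.2 1 trivial 1 trivial
  have h2 := h.2 g⁻¹ trivial g trivial
  rw [mul_one, left_eq_add] at h1
  rw [inv_mul_cancel, h1, eq_comm] at h2
  exact CharTwo.add_eq_zero.1 h2

theorem tu_comm {t : GQ → F2} (h : Ho ⊤ t) (g k : GQ) : t (g * k * g⁻¹ * k⁻¹) = 0 := by
  rw [h.2 _ trivial _ trivial, h.2 _ trivial _ trivial, h.2 _ trivial _ trivial, tu_inv h,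
    tu_inv h]
  generalize t g = x
  generalize t k = y
  revert x y
  decide

namespace Cu

variable {C : Cu} {ε D : ℤ} {p : ℕ} {a b : GQ → C.A}

theorem tu_act (h : C.e 0 = 0) (g : GQ) {S : C.A} (hS : 2 • S = 0) :
    C.act g S - S = (C.ep S (C.T 0) * chi C.bb g).val • C.T 0 := by
  have e := two_coord hS
  have e1 := act_T1 h g
  generalize C.ep S (C.T 0) = y at e
  generalize C.ep S (C.T 1) = x at e
  rw [e, map_add, map_nsmul, map_nsmul, act_T0 h, add_sub_add_left_eq_sub, ← smul_sub, e1, io]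
  rcases F2_cases y with rfl | rfl
  · rw [zero_mul, ZMod.val_zero, zero_nsmul, zero_nsmul]
  · rw [one_mul, ZMod.val_one, one_nsmul]

theorem tu_zero {S : C.A} (hS : 2 • S = 0) (h0 : C.ep S (C.T 0) = 0) (h1 : C.ep S (C.T 1) = 0) :
    S = 0 := by
  rw [two_coord hS, h0, h1, ZMod.val_zero, zero_nsmul, zero_nsmul, add_zero]

theorem tu_line {S : C.A} (hS : 2 • S = 0) (h0 : C.ep S (C.T 0) = 0) :
    S = (C.ep S (C.T 1)).val • C.T 0 := by
  have e := two_coord hS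
  rwa [h0, ZMod.val_zero, zero_nsmul, add_zero] at e

theorem tu_T01 (C : Cu) : C.ep (C.T 0) (C.T 1) = 1 := by
  rw [ep_T, if_neg (by decide)]

/-- The value at the complex conjugation. -/
theorem tu_cc (h : C.e 0 = 0) (hc : chi C.bb cc = 1) (ha : C.Z2 ⊤ a) : C.nu a cc = 0 := by
  have e := ha.coc cc trivial cc trivial
  have e1 := tu_act h cc (ha.two cc trivial)
  rw [B2.cc_mul_cc, ha.one, eq_comm, add_comm, ← C.neg_two (ha.two cc trivial), map_neg,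
    ← map_neg, C.neg_two (ha.two cc trivial)] at e
  rw [hc, mul_one, sub_eq_add_neg, C.neg_two (ha.two cc trivial)] at e1
  refine (F2_cases _).resolve_right fun k => ?_
  rw [nu] at k
  rw [k, ZMod.val_one, one_nsmul, e] at e1
  exact C.T_ne 0 e1.symm

/-- Reciprocity for a class and a class that is ramified at one good prime only. -/
theorem tu_rec (hp : C.Gp p) (ha : a ∈ C.Sh D) (hb : C.Z2 ⊤ b) (hl : ∀ v, Pv v → C.Loc v D b)
    (h0 : ∀ q, C.Gp q → q ≠ p → b (sig q) = 0) : C.ep (a (frb p)) (b (sig p)) = 0 := by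
  have e := bv_recip ha.1.1 hb {p} (fun v hv => mem_singleton.1 hv ▸ hp)
    fun q hq k => ⟨ha.1.2 q hq, h0 q hq fun k' => k (mem_singleton.2 k')⟩
  rw [sum_singleton, Bv_tame hp (ha.1.1.mono le_top) (hb.mono le_top) (ha.1.2 p hp)] at e
  rw [e]
  exact sum_eq_zero fun v hv => bv_iso (C.bd_iff.2 hv).pv (ha.1.1.mono le_top) (hb.mono le_top)
    (ha.2 v (C.bd_iff.2 hv)) (hl v (C.bd_iff.2 hv).pv)

theorem tu_dT (h : C.e 0 = 0) (hε : ε = 1 ∨ ε = -1) (hp : C.Gp p) :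
    C.dT (ε * p) (sig p) = C.T 0 ∧ ∀ q, C.Gp q → q ≠ p → C.dT (ε * p) (sig q) = 0 := by
  refine ⟨?_, fun q hq k => ?_⟩
  · rw [dT_sig h hp (tu_ne hε hp.1), tu_val hε hp.1, Nat.cast_one, ZMod.val_one, one_nsmul]
  · exact loc_good hq (tu_ndvd hε hp.1 hq.1 k) (n := 1)
      (fun g => (z2_dT h ⊤ _).two g trivial) (loc_dT _ _)

theorem tu_frb (h : C.e 0 = 0) (hε : ε = 1 ∨ ε = -1) (hp : C.Gp p) (ha : a ∈ C.Sh (ε * p)) :
    C.nu a (frb p) = 0 := by
  have e := tu_rec hp ha (z2_dT h ⊤ _) (fun v _ => loc_dT v _) (tu_dT h hε hp).2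
  rwa [(tu_dT h hε hp).1] at e

theorem tu_io (h : C.e 0 = 0) (D : ℤ) : C.io (chi C.bb) ∈ C.Sh D :=
  ⟨⟨z2_io h (ho_chi ⊤ _), fun q hq => by
    rw [io, (two_ch h).2.2 q hq.1 hq.2, ZMod.val_zero, zero_nsmul]⟩, fun v _ => xl_bb h v D⟩

/-- Unramified classes that come from points vanish at a prime that splits. -/
theorem tu_loc (hp : C.Gp p) (hf : frb p ∈ C.Kpm) (hD : padicValInt p D = 1)
    (ha : C.Z2 (Gv p) a) (hl : C.Loc p D a) (h0 : a (sig p) = 0) : a (frb p) = 0 := by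
  have h2 := hp.ne_two
  have hD0 : D ≠ 0 := by
    rintro rfl
    simp at hD
  refine C.eq_zero_of_ep fun i => ?_
  have f : ∀ g ∈ Gv p, C.act g (C.T i) = C.T i :=
    hp.act_Gv (C.two_T _) (act_of_pm hf (C.two_T _))
  have z : C.Z2 (Gv p) (C.cob D (C.hf (C.T i))) :=
    z2_cob_half fun g hg => by rw [two_hf, C.tw_two D g (C.two_T _), f g hg]
  have h1 := half_fix (Q := C.hf (C.T i)) hp
    (fun g hg => by rw [two_hf, f g (Iv_le hp.1 hg)]) _ (sig_ine hp.1 h2)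
  have e := Bv_iso hp.1 ha z hl (C.loc_cob p D _)
  rwa [Bv_tame hp ha z h0, cob, tw, h1, chi_sig hp.1 h2 hD0, hD, Nat.cast_one, sn_one,
    neg_one_zsmul, sub_eq_add_neg, ← neg_add, ← two_nsmul, two_hf, C.neg_two (C.two_T _)] at e

/-- A prime of the same class has the same local conditions. -/
theorem tu_cls (hε : ε = 1 ∨ ε = -1) {l : ℕ} (hl : C.Gp l) (hp : C.Gp p) {U : Subgroup GQ}
    (hU : ∀ u ∈ U, C.QK u) {u : GQ} (hu : C.QK u) (k : Frb U (frb l * u) p) :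
    ∀ v, C.Bd v → ∀ g ∈ Gv v, chi (ε * l) g = chi (ε * p) g := by
  rintro v (rfl | ⟨h1, h2⟩)
  · exact cls_real hε hl.1 hp.1
  · refine cls_loc C.two_le_N0 hε hε hl.1 hp.1 hl.2 hp.2 (fun t ht => ?_) v h1 h2
    rw [k.ch C.two_le_N0 hU hp.1 hp.2 t ht, ht.1.2 _ trivial _ trivial, hu t ht, add_zero]

/-- The classes that vanish at two elements. -/
noncomputable def tuS (C : Cu) (D : ℤ) (s f : GQ) : AddSubgroup (GQ → C.A) where
  carrier := {a | a ∈ C.Sh D ∧ a s = 0 ∧ a f = 0}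
  zero_mem' := ⟨zero_mem _, rfl, rfl⟩
  add_mem' := fun h k => ⟨add_mem h.1 k.1, by rw [Pi.add_apply, h.2.1, k.2.1, add_zero],
    by rw [Pi.add_apply, h.2.2, k.2.2, add_zero]⟩
  neg_mem' := fun h => ⟨neg_mem h.1, by rw [Pi.neg_apply, h.2.1, neg_zero],
    by rw [Pi.neg_apply, h.2.2, neg_zero]⟩

/-- The points of the twists by the primes of the class. -/
theorem tu_pts (h : C.e 0 = 0) (hε : ε = 1 ∨ ε = -1) {l : ℕ} (hl : C.Gp l)
    (hc : chi C.bb cc = 1) (hf : chi C.bb (frb l) = 0) (ha : a ∈ C.Sh (ε * l))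
    (ha1 : a (frb l) = C.T 0) (u : GQ) (hu : C.Nn (C.Sh (ε * l)) u) :
    ∃ (U : Subgroup GQ) (N : ℕ), B2.Op U ∧ U.Normal ∧
      ∀ p : ℕ, p.Prime → N < p → Frb U (frb l * u) p → ∀ b, C.IsSel (ε * p) 1 b →
        ∃ R : C.A, 4 • R = 0 ∧ b - C.cob (ε * p) R ∈ C.tuS (ε * l) cc (frb l) := by
  have := (card_Sh h (ε * l)).1
  obtain ⟨U, u1, u2, u3⟩ := C.exists_U (C.Sh (ε * l)) fun a k => k.1.1
  refine ⟨U, C.N0, u1, u2, fun p p1 p2 k b hb => ?_⟩
  have hp : C.Gp p := ⟨p1, p2⟩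
  have hK := (two_Kpm h).2 hf
  obtain ⟨f1, g, f2⟩ := k.val hp (mul_mem hK hu.1) fun u k => (u3 u k).1
  have eS := (Sh_congr (tu_cls hε hl hp (fun u k => (u3 u k).2.1) hu.2.1 k)).1
  have f3 : ∀ b ∈ C.Sh (ε * l), b (frb p) = C.act g (b (frb l)) := fun b hb => by
    rw [f2 b hb.1.1 (hb.1.2 p hp) fun u k => (u3 u k).2.2 b hb,
      hb.1.1.coc _ trivial _ trivial, hu.2.2 b hb, map_zero, add_zero]
  have z : ∀ {b}, C.IsSel (ε * p) 1 b → ∀ q, C.Gp q → q ≠ p → b (sig q) = 0 := fun k q hq e =>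
    loc_good hq (tu_ndvd hε p1 hq.1 e) k.tors (k.loc q (.inr hq.1))
  have r := tu_rec hp (eS ▸ ha) hb.z2 hb.loc (z hb)
  rw [f3 a ha, ha1, act_T0 h, ep_comm] at r
  have r1 := tu_line (hb.z2.two _ trivial) r
  generalize C.ep (b (sig p)) (C.T 1) = j at r1
  have e0 : C.cob (ε * p) (j.val • C.hf (C.T 0)) = j.val • C.dT (ε * p) := C.cob_nsmul _ _ _
  have e1 : 4 • j.val • C.hf (C.T 0) = 0 := by
    rw [smul_comm, show 4 = 2 * 2 from rfl, mul_smul, two_hf, C.two_T, smul_zero]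
  have z3 := hb.sub (j.val • C.hf (C.T 0)) (m := 1) fun g =>
    (hb.z2.sub (e0 ▸ (z2_dT h ⊤ _).smul j)).two g trivial
  have z5 : (b - C.cob (ε * p) (j.val • C.hf (C.T 0))) (sig p) = 0 := by
    rw [e0, Pi.sub_apply, Pi.smul_apply, r1, (tu_dT h hε hp).1, sub_self]
  generalize j.val • C.hf (C.T 0) = R at e1 z3 z5
  have m : b - C.cob (ε * p) R ∈ C.Sh (ε * l) := eS ▸ ⟨⟨z3.z2, fun q hq => by
    by_cases k : q = p
    · rw [k, z5]
    · exact z z3 q hq k⟩, fun v hv => z3.loc v hv.pv⟩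
  have m1 : (b - C.cob (ε * p) R) (frb l) = 0 := C.act_inj g (by
    rw [← f3 _ m, map_zero]
    exact tu_loc hp f1 (tu_val hε p1) (z3.z2.mono le_top) (z3.loc p (.inr p1)) z5)
  have m2 := tu_line (z3.z2.two cc trivial) (tu_cc h hc z3.z2)
  generalize C.ep ((b - C.cob (ε * p) R) cc) (C.T 1) = i at m2
  have e2 : C.cob (ε * p) (C.T 1) = C.io (chi C.bb) := funext fun g => by
    rw [cob, C.tw_two _ g (C.two_T 1), act_T1 h]
  refine ⟨R - i.val • C.T 1, by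
    rw [smul_sub, e1, show 4 = 2 * 2 from rfl, mul_smul, C.two_smul_val i (C.two_T 1), smul_zero,
      sub_zero], ?_⟩
  rw [cob_sub, cob_nsmul, e2, ← sub_add]
  refine ⟨add_mem m (nsmul_mem (tu_io h _) _), ?_, ?_⟩
  · rw [Pi.add_apply, Pi.smul_apply, m2, io, hc, ZMod.val_one, one_nsmul, ← two_nsmul,
      C.two_smul_val i (C.two_T 0)]
  · rw [Pi.add_apply, Pi.smul_apply, m1, io, hf, ZMod.val_zero, zero_nsmul, smul_zero, add_zero]

/-- The orders of the groups. -/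
theorem tu_card (h : C.e 0 = 0) {s f : GQ} (hs : chi C.bb s = 1) (hf : chi C.bb f = 0)
    (h1 : ∀ b ∈ C.Sh D, C.nu b s = 0) (h2 : ∀ b ∈ C.Sh D, C.nu b f = 0) (ha : a ∈ C.Sh D)
    (ha1 : a f = C.T 0) : Nat.card (C.Sh D) = 4 * Nat.card (C.tuS D s f) ∧
      Nat.card (C.RY D) * Nat.card {b : C.tuS D s f // C.nu b = 0} ≤
        2 * Nat.card (C.tuS D s f) := by
  have := (card_Sh h D).1
  have le : C.tuS D s f ≤ C.Sh D := fun b k => k.1
  have : Finite (C.tuS D s f) := Finite.of_injective _ (AddSubgroup.inclusion_injective le)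
  have t : ∀ b ∈ C.Sh D, ∀ g, 2 • b g = 0 := fun b k g => k.1.1.two g trivial
  constructor
  · let φ : C.Sh D →+ F2 × F2 := AddMonoidHom.mk'
      (fun b => (C.ep (b.1 s) (C.T 1), C.ep (b.1 f) (C.T 1))) fun b b' => Prod.ext
        (C.ep_add_left (t _ b.2 s) (t _ b'.2 s) (C.two_T 1))
        (C.ep_add_left (t _ b.2 f) (t _ b'.2 f) (C.two_T 1))
    have k1 : φ.ker = (C.tuS D s f).addSubgroupOf (C.Sh D) := by
      ext b
      rw [AddMonoidHom.mem_ker, AddSubgroup.mem_addSubgroupOf, Prod.ext_iff]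
      refine ⟨fun k => ⟨b.2, tu_zero (t _ b.2 s) (h1 _ b.2) k.1,
        tu_zero (t _ b.2 f) (h2 _ b.2) k.2⟩, fun k => ⟨?_, ?_⟩⟩
      · exact (congrArg (C.ep · (C.T 1)) k.2.1).trans (C.ep_zero_left _)
      · exact (congrArg (C.ep · (C.T 1)) k.2.2).trans (C.ep_zero_left _)
    have k2 : φ ⟨_, tu_io h D⟩ = (1, 0) :=
      Prod.ext ((ep_io _ _).trans hs) ((ep_io _ _).trans hf)
    have k3 : (φ ⟨a, ha⟩).2 = 1 := (congrArg (C.ep · (C.T 1)) ha1).trans C.tu_T01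
    have k4 : φ.range = ⊤ := by
      refine top_unique fun x _ => ?_
      have e : ∀ x y : F2 × F2, y.2 = 1 →
          x = (x.1 + x.2 * y.1).val • ((1, 0) : F2 × F2) + x.2.val • y := by decide
      rw [e x _ k3, ← k2]
      exact add_mem (nsmul_mem (AddMonoidHom.mem_range.2 ⟨_, rfl⟩) _)
        (nsmul_mem (AddMonoidHom.mem_range.2 ⟨_, rfl⟩) _)
    rw [← AddSubgroup.index_mul_card φ.ker, AddSubgroup.index_ker, k4, k1,
      Nat.card_congr (AddSubgroup.addSubgroupOfEquivOfLe le).toEquiv, AddSubgroup.card_top,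
      Nat.card_prod, Nat.card_zmod]
  · let ν : C.Sh D →+ GQ → F2 := AddMonoidHom.mk' (fun b => C.nu b.1) fun b b' =>
      funext fun g => C.nu_add (t _ b.2 g) (t _ b'.2 g)
    let μ := ν.comp (AddSubgroup.inclusion le)
    have : Finite μ.range := Finite.of_surjective _ μ.rangeRestrict_surjective
    have m : ∀ x : F2 × μ.range, x.2.1 + x.1.val • C.nu a ∈ C.RY D := fun ⟨_, _, b, e⟩ =>
      add_mem ⟨b.1, b.2.1, e⟩ (nsmul_mem (show C.nu a ∈ C.RY D from ⟨a, ha, rfl⟩) _)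
    have k1 : Nat.card (C.RY D) ≤ Nat.card (F2 × μ.range) := by
      refine Nat.card_le_card_of_surjective (fun x => ⟨_, m x⟩) ?_
      rintro ⟨_, c, hc, rfl⟩
      have e1 := tu_line (t c hc f) (h2 c hc)
      generalize C.ep (c f) (C.T 1) = j at e1
      have m1 := add_mem hc (nsmul_mem ha j.val)
      have e2 := tu_line (t _ m1 s) (h1 _ m1)
      generalize C.ep ((c + j.val • a) s) (C.T 1) = i at e2
      have m2 : c + j.val • a + i.val • C.io (chi C.bb) ∈ C.tuS D s f := by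
        refine ⟨add_mem m1 (nsmul_mem (tu_io h D) _), ?_, ?_⟩
        · rw [Pi.add_apply, e2, Pi.smul_apply, io, hs, ZMod.val_one, one_nsmul, ← two_nsmul,
            C.two_smul_val i (C.two_T 0)]
        · rw [Pi.add_apply, Pi.add_apply, Pi.smul_apply, Pi.smul_apply, e1, ha1, io, hf,
            ZMod.val_zero, zero_nsmul, smul_zero, add_zero, ← two_nsmul,
            C.two_smul_val j (C.two_T 0)]
      refine ⟨(j, ⟨_, ⟨_, m2⟩, rfl⟩), Subtype.ext ?_⟩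
      change ν (⟨c, hc⟩ + j.val • ⟨a, ha⟩ + i.val • ⟨_, tu_io h D⟩) + j.val • ν ⟨a, ha⟩ = ν ⟨c, hc⟩
      rw [map_add, map_add, map_nsmul, map_nsmul, show ν ⟨_, tu_io h D⟩ = 0 from C.nu_io _,
        smul_zero, add_zero, add_assoc, add_eq_left, ← eq_neg_iff_add_eq_zero, neg_F2]
    rw [Nat.card_prod, Nat.card_zmod] at k1
    rw [← AddSubgroup.index_mul_card μ.ker, AddSubgroup.index_ker, ← mul_assoc]
    exact Nat.mul_le_mul_right _ k1

end Cu

theorem tu_main (core : CoreStmt) (mw : MWStmt) {C C' : Cu} (h : Iso C C') {ε : ℤ}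
    {l : ℕ} (hε : ε = 1 ∨ ε = -1) (hl : C.Gp l) (hc : chi C.bb cc = 1)
    (hf : chi C.bb (frb l) = 0) (he : par (Nat.card (C.Sh (ε * l))) = 0)
    (hR : Nat.card (C'.RY (ε * l)) < Nat.card (C.RY (ε * l))) {a : GQ → C.A}
    (ha : a ∈ C.Sh (ε * l)) (ha1 : a (frb l) = C.T 0) : GoalF C.a C.b C.c := by
  obtain ⟨φ, ψ, i1, i2⟩ := id h
  have h0 := i1.two
  obtain ⟨c1, c2⟩ := Cu.tu_card h0 hc hf (fun b k => Cu.tu_cc h0 hc k.1.1)
    (fun b k => Cu.tu_frb h0 hε hl k) ha ha1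
  have := (Cu.card_Sh h0 (ε * l)).1
  have n1 : Nat.card (C.tuS (ε * l) cc (frb l)) ≠ 0 := fun k => by
    rw [k, mul_zero] at c1
    exact Nat.card_pos.ne' c1
  have fin : ∀ C : Cu, C.e 0 = 0 → ∃ k, Nat.card (C.RY (ε * l)) = 2 ^ k := fun C k => by
    have := finite_Ch C.two_le_N0
    have le : C.RY (ε * l) ≤ Ch C.N0 := fun t m => (Cu.RY_le k _ m).1
    have := Finite.of_injective _ (AddSubgroup.inclusion_injective le)
    exact card_two fun t => Subtype.ext (eq_neg_iff_add_eq_zero.1 (neg_F2 _).symm)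
  refine last core mw h hε hl (C.tuS (ε * l) cc (frb l)) (fun b k => k.1) (fun b k => k.2.2) hc
    (fun b k => k.2.1) ?_ ?_ (Cu.tu_pts h0 hε hl hc hf ha ha1)
  · rwa [c1, par_mul (by decide) n1, show 4 = 2 * 2 from rfl, par_mul two_ne_zero two_ne_zero,
      CharTwo.add_self_eq_zero, zero_add] at he
  · obtain ⟨k, e⟩ := fin C h0
    obtain ⟨k', e'⟩ := fin C' i2.two
    rw [e, e', Nat.pow_lt_pow_iff_right one_lt_two] at hR
    rw [e] at c2
    rw [e']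
    refine Nat.le_of_mul_le_mul_left (le_trans ?_ c2) two_pos
    rw [← mul_assoc, ← pow_succ']
    exact Nat.mul_le_mul_right _ (Nat.pow_le_pow_right two_pos hR)

/-- Primes that split in the field of the two-torsion. -/
theorem type_U (den : DenStmt) (core : CoreStmt) (mw : MWStmt) {C C' : Cu} (h : Iso C C') {ε : ℤ}
    {l : ℕ} (hε : ε = 1 ∨ ε = -1) (hl : C.Gp l) (hn : C.bb < 0) (hf : chi C.bb (frb l) = 0)
    (he : par (Nat.card (C.Sh (ε * l))) = 0)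
    (hR : Nat.card (C'.RY (ε * l)) < Nat.card (C.RY (ε * l))) : GoalF C.a C.b C.c := by
  obtain ⟨φ, ψ, i1, i2⟩ := id h
  have h0 := i1.two
  have hc : chi C.bb cc = 1 := by rw [loc_chi_cc hn.ne, if_neg hn.not_gt]
  obtain ⟨a, ha, g, hg⟩ : ∃ a ∈ C.Sh (ε * l), ∃ g, C.nu a g = 1 := by
    by_contra! k
    have e : C.RY (ε * l) = ⊥ := (AddSubgroup.eq_bot_iff_forall _).2 fun t ⟨c, m, e⟩ =>
      e ▸ funext fun g => (F2_cases _).resolve_right (k c m g)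
    have := finite_Ch C'.two_le_N0
    have le : C'.RY (ε * l) ≤ Ch C'.N0 := fun t m => (Cu.RY_le i2.two _ m).1
    have := Finite.of_injective _ (AddSubgroup.inclusion_injective le)
    rw [e, AddSubgroup.card_bot, Nat.lt_one_iff] at hR
    exact Nat.card_pos.ne' hR
  have z := ha.1.1
  rcases (C.ep_T_eq_zero 0).1 (Cu.tu_frb h0 hε hl ha) with a0 | a0
  swap
  · exact tu_main core mw h hε hl hc hf he hR ha a0
  obtain ⟨k, k1, k2⟩ : ∃ k, k ∈ C.Kpm ∧ C.nu a k = 1 := by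
    rcases F2_cases (chi C.bb g) with e | e
    · exact ⟨g, (Cu.two_Kpm h0).2 e, hg⟩
    · refine ⟨g * cc, (Cu.two_Kpm h0).2 ?_, ?_⟩
      · rw [chi_mul_g, e, hc, CharTwo.add_self_eq_zero]
      · rw [(Cu.ho_nu h0 z).2 _ trivial _ trivial, hg, Cu.tu_cc h0 hc z, add_zero]
  have q : C.QK (cc * k * cc⁻¹ * k⁻¹) := fun t ht => tu_comm ht.1 _ _
  have q1 : cc * k * cc⁻¹ * k⁻¹ ∈ C.Kpm := (Cu.two_Kpm h0).2 (tu_comm (ho_chi ⊤ _) _ _)
  have q2 : cc * k * cc⁻¹ ∈ C.Kpm := by simpa using mul_mem q1 k1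
  have q3 : a (cc * k * cc⁻¹ * k⁻¹) = C.T 0 := by
    have e := z.coc (cc * k * cc⁻¹ * k⁻¹) trivial k trivial
    have e1 := Cu.tu_act h0 cc (z.two k trivial)
    rw [inv_mul_cancel_right, z.conj trivial trivial (Cu.act_of_pm q2 (z.two _ trivial)),
      Cu.act_of_pm q1 (z.two _ trivial), ← sub_eq_iff_eq_add] at e
    rw [← e, e1, hc, mul_one, ← Cu.nu, k2, ZMod.val_one, one_nsmul]
  have := (Cu.card_Sh h0 (ε * l)).1
  obtain ⟨U, u1, u2, u3⟩ := C.exists_U (C.Sh (ε * l)) fun a k => k.1.1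
  obtain ⟨p, p1, p2, p3⟩ := (den U (frb l * (cc * k * cc⁻¹ * k⁻¹)) C.N0 u1 u2).exists
  have hp : C.Gp p := ⟨p1, p2⟩
  obtain ⟨f1, r, f2⟩ := p3.val hp (mul_mem ((Cu.two_Kpm h0).2 hf) q1) fun u k => (u3 u k).1
  have cl := Cu.tu_cls hε hl hp (fun u k => (u3 u k).2.1) q p3
  obtain ⟨e1, -, -, e2⟩ := Cu.Sh_congr cl
  have e3 := (Cu.Sh_congr (C := C') fun v hv => cl v (by rwa [Cu.Bd, i1.N0] at hv)).2.2.2
  refine tu_main core mw h hε hp hc ((Cu.two_Kpm h0).1 f1) (e1 ▸ he) (e2 ▸ e3 ▸ hR) (e1 ▸ ha) ?_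
  rw [f2 a z (ha.1.2 p hp) fun u k => (u3 u k).2.2 a ha, z.coc _ trivial _ trivial, a0, q3,
    zero_add, Cu.act_T0 h0, Cu.act_T0 h0]

end Pool.Agent.SP
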