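import Pool.Agent.Lib.MP_696deb_nt.SP.T0

/-! Parity of the rank of alternating and symmetric forms. -/

set_option autoImplicit false

open scoped Classical
open Finset

namespace Pool.Agent.SP

open Pool.Agent.Lib.MP_696deb_nt Pool.Agent.Lib.MP_696deb_nt.Sm
open Pool.Agent.Lib.MP_696deb_nt.B2 (jC cc)

theorem par_mul {m n : ℕ} (hm : m ≠ 0) (hn : n ≠ 0) : par (m * n) = par m + par n := by
  rw [par, padicValNat.mul hm hn, Nat.cast_add, par, par]

theorem par_one : par 1 = 0 := by
  rw [par, padicValNat_one_right, Nat.cast_zero]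

theorem par_two : par 2 = 1 := by
  rw [par, padicValNat_self, Nat.cast_one]

/-- A finite group of exponent two has order a power of two. -/
theorem card_two {S : Type} [AddCommGroup S] [Finite S] (h : ∀ a : S, a + a = 0) :
    ∃ k, Nat.card S = 2 ^ k := by
  let : Module (ZMod 2) S := AddCommGroup.zmodModule fun x => by rw [two_nsmul, h]
  exact ⟨_, by rw [Module.natCard_eq_pow_finrank (K := ZMod 2), Nat.card_zmod]⟩

theorem TA_card_hom {S : Type} [AddCommGroup S] [Finite S] (h : ∀ a : S, a + a = 0) :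
    Nat.card (S →+ F2) = Nat.card S := by
  let : Module (ZMod 2) S := AddCommGroup.zmodModule fun x => by rw [two_nsmul, h]
  rw [Nat.card_congr (AddMonoidHom.toZModLinearMapEquiv 2).toEquiv]
  exact Nat.card_congr (Module.finBasis (ZMod 2) S).toDualEquiv.toEquiv.symm

/-- The characters that vanish on a subgroup. -/
theorem card_ann {S : Type} [AddCommGroup S] [Finite S] (h : ∀ a : S, a + a = 0)
    (x : AddSubgroup S) : Nat.card {f : S →+ F2 // ∀ a ∈ x, f a = 0} * Nat.card x = Nat.card S := by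
  have hq : ∀ a : S ⧸ x, a + a = 0 := fun a => by
    obtain ⟨a, rfl⟩ := QuotientAddGroup.mk_surjective a
    rw [← QuotientAddGroup.mk_add, h, QuotientAddGroup.mk_zero]
  have e : {f : S →+ F2 // ∀ a ∈ x, f a = 0} ≃ (S ⧸ x →+ F2) :=
    { toFun := fun f => QuotientAddGroup.lift x f.1 f.2
      invFun := fun g => ⟨g.comp (QuotientAddGroup.mk' x), fun a ha => by
        rw [AddMonoidHom.comp_apply, QuotientAddGroup.mk'_apply,
          (QuotientAddGroup.eq_zero_iff a).2 ha, map_zero]⟩
      left_inv := fun f => Subtype.ext (AddMonoidHom.ext fun _ => rfl)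
      right_inv := fun g => AddMonoidHom.ext fun a => by
        obtain ⟨a, rfl⟩ := QuotientAddGroup.mk_surjective a
        rfl }
  rw [Nat.card_congr e, TA_card_hom hq, ← AddSubgroup.card_eq_card_quotient_mul_card_addSubgroup]

theorem TA_card_surj {A C : Type} [AddCommGroup A] [AddCommGroup C] (f : A →+ C)
    (hf : Function.Surjective f) : Nat.card A = Nat.card f.ker * Nat.card C := by
  rw [← AddSubgroup.card_mul_index f.ker, AddSubgroup.index_ker,
    AddMonoidHom.range_eq_top.2 hf, AddSubgroup.card_top]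

theorem TA_F2 (x : F2) : x = 0 ∨ x = 1 := by
  revert x
  decide

theorem TA_alt (n : ℕ) : ∀ (S : Type) [AddCommGroup S] [Finite S] (B : S →+ S →+ F2),
    (∀ a, B a a = 0) → Nat.card S = n → par (Nat.card B.ker) = par (Nat.card S) := by
  induction n using Nat.strong_induction_on with
  | _ n ih =>
  intro S _ _ B hB hn
  have hs : ∀ a b, B a b = B b a := fun a b => by
    have h := hB (a + b)
    simp only [map_add, AddMonoidHom.add_apply, hB, zero_add, add_zero] at h
    rw [eq_neg_of_add_eq_zero_right h, CharTwo.neg_eq]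
  by_cases h0 : ∀ a b, B a b = 0
  · have : B.ker = ⊤ := (AddSubgroup.eq_top_iff' _).2 fun a =>
      AddMonoidHom.mem_ker.2 (AddMonoidHom.ext (h0 a))
    rw [this, AddSubgroup.card_top]
  obtain ⟨a, ha⟩ := not_forall.1 h0
  obtain ⟨b, hb⟩ := not_forall.1 ha
  have hab : B a b = 1 := (TA_F2 _).resolve_left hb
  have hba : B b a = 1 := (hs b a).trans hab
  let φ : S →+ F2 × F2 := (B a).prod (B b)
  have hv : ∀ c d : F2, φ (c.val • b + d.val • a) = (c, d) := fun c d => by
    simp only [φ, AddMonoidHom.prod_apply, map_add, map_nsmul, hB, hab, hba, smul_zero, add_zero,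
      zero_add, nsmul_eq_mul, mul_one, ZMod.natCast_zmod_val, Prod.smul_mk, Prod.mk_add_mk]
  have hφ : Function.Surjective φ := fun p => ⟨_, hv p.1 p.2⟩
  have hc : Nat.card S = Nat.card φ.ker * (2 * 2) := by
    rw [TA_card_surj φ hφ, Nat.card_prod, Nat.card_zmod]
  have hpos : 0 < Nat.card φ.ker := Nat.card_pos
  let B' : φ.ker →+ φ.ker →+ F2 := (B.comp φ.ker.subtype).compl₂ φ.ker.subtype
  have h1 := ih (Nat.card φ.ker) (by omega) φ.ker B' (fun x => hB x.1) rfl
  have hm : ∀ x : S, x ∈ φ.ker ↔ B a x = 0 ∧ B b x = 0 := fun x => by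
    rw [AddMonoidHom.mem_ker]
    exact Prod.ext_iff
  have h2 : B'.ker = B.ker.addSubgroupOf φ.ker := by
    ext x
    rw [AddSubgroup.mem_addSubgroupOf, AddMonoidHom.mem_ker, AddMonoidHom.mem_ker]
    refine ⟨fun hx => AddMonoidHom.ext fun y => ?_,
      fun hx => AddMonoidHom.ext fun y => DFunLike.congr_fun hx y.1⟩
    have hy : y - ((B a y).val • b + (B b y).val • a) ∈ φ.ker := by
      rw [AddMonoidHom.mem_ker, map_sub, hv]
      exact sub_self _
    have h3 : B x.1 (y - ((B a y).val • b + (B b y).val • a)) = 0 :=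
      DFunLike.congr_fun hx ⟨_, hy⟩
    obtain ⟨h4, h5⟩ := (hm x.1).1 x.2
    rw [map_sub, map_add, map_nsmul, map_nsmul, hs x.1 a, hs x.1 b, h4, h5, smul_zero, smul_zero,
      add_zero, sub_zero] at h3
    exact h3
  have h3 : B.ker ≤ φ.ker := fun x hx => by
    rw [hm, hs a, hs b, AddMonoidHom.mem_ker.1 hx]
    exact ⟨rfl, rfl⟩
  rw [h2, Nat.card_congr (AddSubgroup.addSubgroupOfEquivOfLe h3).toEquiv] at h1
  rw [h1, hc, par_mul hpos.ne' (by norm_num), par_mul (by norm_num) (by norm_num),
    CharTwo.add_self_eq_zero, add_zero]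

/-- Alternating forms have even rank. -/
theorem alt_par {S : Type} [AddCommGroup S] [Finite S] (B : S →+ S →+ F2) (hB : ∀ a, B a a = 0) :
    par (Nat.card B.ker) = par (Nat.card S) := TA_alt _ S B hB rfl

/-- The parity of the rank of a symmetric form with characteristic vector `w`. -/
theorem sym_par {S : Type} [AddCommGroup S] [Finite S] (h : ∀ a : S, a + a = 0) (B : S →+ S →+ F2)
    (hs : ∀ a b, B a b = B b a) (w : S) (hw : ∀ a, B a a = B a w) :
    par (Nat.card B.ker) = par (Nat.card S) + B w w := by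
  let B2 : S →+ S →+ F2 := B + ((AddMonoidHom.mul.comp (B w)).compl₂ (B w))
  have e : ∀ a b, B2 a b = B a b + B w a * B w b := fun _ _ => rfl
  have hsq : ∀ x : F2, x + x * x = 0 := by decide
  have h1 := alt_par B2 fun a => by rw [e, hw, hs a w, hsq]
  have hk : ∀ (P : S →+ S →+ F2) a, a ∈ P.ker ↔ ∀ b, P a b = 0 := fun P a => by
    rw [AddMonoidHom.mem_ker]
    exact DFunLike.ext_iff
  have h3 : B.ker ≤ B2.ker := fun a ha => (hk _ _).2 fun b => by
    rw [e, hs w a, (hk _ _).1 ha, (hk _ _).1 ha, zero_mul, add_zero]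
  have h4 : ∀ a ∈ B2.ker, B w a = 0 → a ∈ B.ker := fun a ha h0 => (hk _ _).2 fun b => by
    have := (hk _ _).1 ha b
    rwa [e, h0, zero_mul, add_zero] at this
  rcases TA_F2 (B w w) with h0 | h0
  · have h5 : B2.ker ≤ B.ker := fun a ha => h4 a ha (by
      have := (hk _ _).1 ha w
      rwa [e, h0, mul_zero, add_zero, hs] at this)
    rw [h0, add_zero, ← h1, le_antisymm h3 h5]
  · have hw2 : w ∈ B2.ker := (hk _ _).2 fun b => by
      rw [e, h0, one_mul, CharTwo.add_self_eq_zero]
    let ψ : B2.ker →+ F2 := (B w).comp B2.ker.subtype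
    have hψ : Function.Surjective ψ := fun c => by
      rcases TA_F2 c with rfl | rfl
      · exact ⟨0, map_zero _⟩
      · exact ⟨⟨w, hw2⟩, h0⟩
    have h5 : ψ.ker = B.ker.addSubgroupOf B2.ker := by
      ext x
      rw [AddSubgroup.mem_addSubgroupOf, AddMonoidHom.mem_ker]
      exact ⟨fun hx => h4 x.1 x.2 hx, fun hx => (hs w x.1).trans ((hk _ _).1 hx w)⟩
    have h6 := TA_card_surj ψ hψ
    rw [h5, Nat.card_congr (AddSubgroup.addSubgroupOfEquivOfLe h3).toEquiv, Nat.card_zmod] at h6
    rw [h6, par_mul Nat.card_pos.ne' (by norm_num), par_two] at h1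
    rw [h0, ← h1, add_assoc, CharTwo.add_self_eq_zero, add_zero]

end Pool.Agent.SP
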