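import Pool.Agent.Lib.MP_696deb_nt.SP.T0

/-! Local invariants over the rational numbers, with the real place. -/

set_option autoImplicit false

open scoped Classical
open Finset

namespace Pool.Agent.SP

open Pool.Agent.Lib.MP_696deb_nt Pool.Agent.Lib.MP_696deb_nt.Sm
open Pool.Agent.Lib.MP_696deb_nt.B2 (jC cc)

variable {v : ℕ} {c c' : GQ → GQ → F2} {t t' y y' : GQ → F2}

theorem tb_zero (c : GQ → GQ → F2) : iv 0 c = c cc cc + c 1 1 := if_pos rfl

theorem tb_prime (h : v.Prime) (c : GQ → GQ → F2) : iv v c = cft.inv 1 ⊤ (pl v) c :=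
  if_neg h.ne_zero

theorem closed_Gv (h : Pv v) : IsClosed (Gv v : Set GQ) := by
  rcases h with rfl | h
  · rw [Gv_zero]
    exact (isOfFinOrder_iff_pow_eq_one.2
      ⟨2, two_pos, by rw [sq, B2.cc_mul_cc]⟩).finite_zpowers.isClosed
  · rw [Gv_prime h]
    exact B2.closed_Dec _

theorem iv_congr (h : Pv v) (k : ∀ g ∈ Gv v, ∀ l ∈ Gv v, c g l = c' g l) : iv v c = iv v c' := by
  rcases h with rfl | h
  · rw [tb_zero, tb_zero, k _ loc_cc_mem _ loc_cc_mem, k _ (one_mem _) _ (one_mem _)]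
  · rw [← Cu.sa3_G h] at k
    rw [tb_prime h, tb_prime h]
    exact cft.congr k

theorem iv_add (h : Pv v) (k : B2.C2 1 (Gv v) c) (k' : B2.C2 1 (Gv v) c') :
    iv v (c + c') = iv v c + iv v c' := by
  rcases h with rfl | h
  · simp only [tb_zero, Pi.add_apply]
    abel
  · rw [← Cu.sa3_G h] at k k'
    rw [tb_prime h, tb_prime h, tb_prime h]
    exact cft.add isOpen_univ k k'

theorem iv_eq_zero (h : Pv v) (k : B2.C2 1 (Gv v) c) : iv v c = 0 ↔ B2.Spl 1 (Gv v) c := by
  rcases h with rfl | h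
  · have k2 : ∀ g ∈ Gv 0, ∀ l ∈ Gv 0, ∀ m ∈ Gv 0,
        c l m + c g (l * m) = c (g * l) m + c g l := fun g hg l hl m hm => by
      have := k.2 g hg l hl m hm
      rwa [B2.cy_one_eq, one_mul] at this
    rw [tb_zero]
    constructor
    · intro e
      have e1 : c cc cc = c 1 1 := CharTwo.add_eq_zero.1 e
      have e2 : c 1 cc = c 1 1 := by
        have := k2 1 (one_mem _) 1 (one_mem _) cc loc_cc_mem
        rw [one_mul, one_mul] at this
        exact add_left_cancel this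
      have e3 : c cc 1 = c 1 1 := by
        have := k2 cc loc_cc_mem 1 (one_mem _) 1 (one_mem _)
        rw [mul_one, mul_one] at this
        exact (add_right_cancel this).symm
      refine Cu.sa3_spl (B2.Sm.const (c 1 1)) fun g hg l hl => ?_
      rcases loc_Gv0 hg with rfl | rfl <;> rcases loc_Gv0 hl with rfl | rfl
      exacts [rfl, by rw [e2], by rw [e3], by rw [e1]]
    · rintro ⟨b, -, hb⟩
      have e1 := hb cc loc_cc_mem cc loc_cc_mem
      have e2 := hb 1 (one_mem _) 1 (one_mem _)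
      rw [B2.cy_one_eq, one_mul, B2.cc_mul_cc] at e1
      rw [B2.cy_one_eq, one_mul, one_mul] at e2
      have e : ∀ x z : F2, x + x - z + (z + z - z) = 0 := by decide
      exact (congrArg₂ (· + ·) e1 e2).trans (e _ _)
  · rw [← Cu.sa3_G h] at k ⊢
    rw [tb_prime h]
    exact cft.zero_iff isOpen_univ k

theorem c2_ho {H : Subgroup GQ} (h : Ho H t) (k : Ho H y) : B2.C2 1 H fun g l => t g * y l := by
  refine ⟨h.1.left.comp₂ k.1.right (· * ·), fun g hg l hl m hm => ?_⟩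
  rw [B2.cy_one_eq, one_mul]
  show t l * y m + t g * y (l * m) = t (g * l) * y m + t g * y l
  rw [h.2 g hg l hl, k.2 l hl m hm]
  ring

theorem hv_congr (h : Pv v) (k : ∀ g ∈ Gv v, t g = t' g) (k' : ∀ g ∈ Gv v, y g = y' g) :
    hv v t y = hv v t' y' :=
  iv_congr h fun g hg l hl => by rw [k g hg, k' l hl]

theorem hv_add_left (h : Pv v) (k : Ho (Gv v) t) (k' : Ho (Gv v) t') (l : Ho (Gv v) y) :
    hv v (t + t') y = hv v t y + hv v t' y :=
  (iv_congr h fun _ _ _ _ => add_mul _ _ _).trans (iv_add h (c2_ho k l) (c2_ho k' l))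

theorem hv_add_right (h : Pv v) (k : Ho (Gv v) t) (l : Ho (Gv v) y) (l' : Ho (Gv v) y') :
    hv v t (y + y') = hv v t y + hv v t y' :=
  (iv_congr h fun _ _ _ _ => mul_add _ _ _).trans (iv_add h (c2_ho k l) (c2_ho k l'))

theorem hv_comm (h : Pv v) (k : Ho (Gv v) t) (l : Ho (Gv v) y) : hv v t y = hv v y t := by
  have k1 := c2_ho k l
  have k2 := c2_ho l k
  refine CharTwo.add_eq_zero.1 ((iv_add h k1 k2).symm.trans
    ((iv_eq_zero h (k1.add k2)).2 (Cu.sa3_spl (k.1.comp₂ l.1 (· * ·)) fun g hg m hm => ?_)))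
  show t (g * m) * y (g * m) + (t g * y m + y g * t m) = t g * y g + t m * y m
  rw [k.2 g hg m hm, l.2 g hg m hm]
  have e : ∀ a b x z : F2, (a + b) * (x + z) + (a * z + x * b) = a * x + b * z := by decide
  exact e _ _ _ _

theorem hv_zero (h : Pv v) (k : ∀ g ∈ Gv v, t g = 0) (y : GQ → F2) : hv v t y = 0 := by
  have e := hv_add_left h (ho_zero _) (ho_zero _) (ho_zero (Gv v))
  rw [add_zero, left_eq_add] at e
  exact (iv_congr h fun g hg l _ => by rw [k g hg, zero_mul, Pi.zero_apply, zero_mul]).trans e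

theorem hv_real (k : Ho (Gv 0) t) : hv 0 t y = t cc * y cc := by
  have e := k.2 1 (one_mem _) 1 (one_mem _)
  rw [one_mul, left_eq_add] at e
  rw [hv, tb_zero, e, zero_mul, add_zero]

namespace Cu

variable {C : Cu} {u u' b b' : GQ → C.A} {D : ℤ}

theorem bv_prime (h : v.Prime) (u b : GQ → C.A) : C.bv v u b = C.Bv v u b := tb_prime h _

theorem bv_congr (h : Pv v) (k : ∀ g ∈ Gv v, u g = u' g) (k' : ∀ g ∈ Gv v, b g = b' g) :
    C.bv v u b = C.bv v u' b' :=
  iv_congr h fun g hg l hl => by rw [cu, cu, k g hg, k' l hl]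

theorem bv_add_left (h : Pv v) (k : C.Z2 (Gv v) u) (k' : C.Z2 (Gv v) u') (l : C.Z2 (Gv v) b) :
    C.bv v (u + u') b = C.bv v u b + C.bv v u' b :=
  (iv_congr h fun g hg m hm => C.ep_add_left (k.two g hg) (k'.two g hg)
    (C.two_act g (l.two m hm))).trans (iv_add h (c2_cu k l) (c2_cu k' l))

theorem tb_comm (h : Pv v) (k : C.Z2 (Gv v) u) (l : C.Z2 (Gv v) b) :
    C.bv v u b = C.bv v b u := by
  have k1 := c2_cu k l
  have k2 := c2_cu l k
  refine CharTwo.add_eq_zero.1 ((iv_add h k1 k2).symm.trans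
    ((iv_eq_zero h (k1.add k2)).2 (sa3_spl (k.sm.comp₂ l.sm C.ep) fun g hg m hm => ?_)))
  have t1 := C.two_act g (k.two m hm)
  have t2 := C.two_act g (l.two m hm)
  show C.ep (u (g * m)) (b (g * m)) + (C.cu u b g m + C.cu b u g m) = _
  rw [cu, cu, k.coc g hg m hm, l.coc g hg m hm,
    C.ep_add_left (k.two g hg) t1 (by rw [smul_add, l.two g hg, t2, add_zero]),
    C.ep_add_right (l.two g hg) t2 (k.two g hg), C.ep_add_right (l.two g hg) t2 t1, ep_act,
    C.ep_comm (b g)]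
  have e : ∀ x y z t : F2, x + y + (z + t) + (y + z) = x + t := by decide
  exact e _ _ _ _

theorem bv_add_right (h : Pv v) (k : C.Z2 (Gv v) u) (l : C.Z2 (Gv v) b) (l' : C.Z2 (Gv v) b') :
    C.bv v u (b + b') = C.bv v u b + C.bv v u b' := by
  rw [tb_comm h k (l.add l'), bv_add_left h l l' k, tb_comm h k l, tb_comm h k l']

theorem bv_comm (h : Pv v) (k : C.Z2 (Gv v) u) (l : C.Z2 (Gv v) b) : C.bv v u b = C.bv v b u :=
  tb_comm h k l

theorem bv_iso (h : Pv v) (k : C.Z2 (Gv v) u) (l : C.Z2 (Gv v) b) (hu : C.Loc v D u)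
    (hb : C.Loc v D b) : C.bv v u b = 0 := by
  obtain ⟨P, hP⟩ := hu
  obtain ⟨Q, hQ⟩ := hb
  exact (iv_eq_zero h (c2_cu k l)).2 (spl_iso (closed_Gv h) k l hP hQ)

end Cu

end Pool.Agent.SP
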