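import Pool.Agent.Lib.MP_696deb_nt.SP.TBb

/-! The rational point of order two. -/

set_option autoImplicit false

open scoped Classical
open Finset

namespace Pool.Agent.SP

open Pool.Agent.Lib.MP_696deb_nt Pool.Agent.Lib.MP_696deb_nt.Sm
open Pool.Agent.Lib.MP_696deb_nt.B2 (jC cc)

namespace Cu

variable {C : Cu} {H : Subgroup GQ} {t y : GQ → F2} {k : GQ → C.A} {v : ℕ} {D D' : ℤ}

theorem two_c (h : C.e 0 = 0) : C.c = 0 := by
  have := C.hc
  rw [h, zero_mul, zero_mul, neg_zero] at this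
  exact_mod_cast this

theorem two_b (h : C.e 0 = 0) : C.b ≠ 0 ∧ C.bb ≠ 0 ∧ C.disc = C.b ^ 2 * C.bb := by
  have e : C.disc = C.b ^ 2 * C.bb := by rw [disc, dsc, two_c h, bb]; ring
  have n := C.disc_ne
  rw [e] at n
  exact ⟨fun k => n (by rw [k]; ring), right_ne_zero_of_mul n, e⟩

theorem te_pm0 (h : C.e 0 = 0) (g : GQ) : C.pm g 0 = 0 :=
  C.e_inj (by rw [← e_pm, h, map_zero])

theorem te_pm (h : C.e 0 = 0) (g : GQ) : C.pm g 1 = 1 ∧ C.pm g 2 = 2 ∧ chi C.bb g = 0 ∨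
    C.pm g 1 = 2 ∧ C.pm g 2 = 1 ∧ chi C.bb g = 1 := by
  have e : ∀ f : Fin 3 → Fin 3, Function.Injective f → f 0 = 0 →
      f 1 = 1 ∧ f 2 = 2 ∨ f 1 = 2 ∧ f 2 = 1 := by decide
  have n : (C.bb : Qb) ≠ 0 := Int.cast_ne_zero.2 (two_b h).2.1
  have s : (C.e 1 - C.e 2) * (C.e 1 - C.e 2) = (C.bb : Qb) := by
    rw [bb]
    push_cast
    rw [C.ha, C.hb, h]
    ring
  refine (e _ (C.pm_inj g) (te_pm0 h g)).imp (fun k => ⟨k.1, k.2, chB_eq n s ?_⟩)
    fun k => ⟨k.1, k.2, chB_eq n s ?_⟩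
  · rw [map_sub, e_pm, e_pm, k.1, k.2, sn_zero, Int.cast_one, one_mul]
  · rw [map_sub, e_pm, e_pm, k.1, k.2, sn_one, Int.cast_neg, Int.cast_one, neg_one_mul, neg_sub]

theorem act_T0 (h : C.e 0 = 0) (g : GQ) : C.act g (C.T 0) = C.T 0 := by
  rw [act_T, te_pm0 h]

theorem act_T1 (h : C.e 0 = 0) (g : GQ) : C.act g (C.T 1) - C.T 1 = C.io (chi C.bb) g := by
  rw [act_T, io]
  rcases te_pm h g with ⟨a, -, b⟩ | ⟨a, -, b⟩ <;> rw [a, b]
  · rw [sub_self, ZMod.val_zero, zero_nsmul]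
  · rw [ZMod.val_one, one_nsmul, sub_eq_iff_eq_add]
    exact (C.T_add 0).symm

theorem two_Kpm (h : C.e 0 = 0) {g : GQ} : g ∈ C.Kpm ↔ chi C.bb g = 0 := by
  rcases te_pm h g with ⟨a, b, c⟩ | ⟨a, -, c⟩
  · refine iff_of_true (fun i => ?_) c
    rcases fin3 i with rfl | rfl | rfl
    exacts [te_pm0 h g, a, b]
  · exact iff_of_false (fun k => absurd (a.symm.trans (k 1)) (by decide)) (c ▸ one_ne_zero)

theorem two_ch (h : C.e 0 = 0) : chi C.b ∈ Ch C.N0 ∧ chi C.bb ∈ Ch C.N0 := by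
  have k : ∀ d : ℤ, d ∣ C.disc → chi d ∈ Ch C.N0 := fun d hd => ⟨ho_chi _ _, fun q h1 h2 =>
    chi_sig_of_not_dvd h1 (Gp.ne_two ⟨h1, h2⟩) fun e => Gp.not_dvd ⟨h1, h2⟩ (e.trans hd)⟩
  exact ⟨k _ ⟨C.b * C.bb, by rw [(two_b h).2.2]; ring⟩, k _ ⟨C.b ^ 2, by rw [(two_b h).2.2]; ring⟩⟩

/-- Coordinates on the two-torsion. -/
theorem two_coord {S : C.A} (hS : 2 • S = 0) :
    S = (C.ep S (C.T 1)).val • C.T 0 + (C.ep S (C.T 0)).val • C.T 1 := by
  rcases C.tors2 hS with rfl | ⟨i, rfl⟩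
  · simp [ep_zero_left]
  rcases fin3 i with rfl | rfl | rfl
  · simp [ep_T, ZMod.val_one]
  · simp [ep_T, ZMod.val_one]
  · simpa [ep_T, ZMod.val_one] using (C.T_add 0).symm

theorem ep_coord {S S' : C.A} (hS : 2 • S = 0) (hS' : 2 • S' = 0) : C.ep S S' =
    C.ep S (C.T 1) * C.ep S' (C.T 0) + C.ep S (C.T 0) * C.ep S' (C.T 1) := by
  rcases C.tors2 hS with rfl | ⟨i, rfl⟩
  · simp [ep_zero_left]
  rcases C.tors2 hS' with rfl | ⟨j, rfl⟩
  · simp [ep_zero_left, ep_zero_right]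
  simp only [ep_T]
  clear hS hS'
  revert i j
  decide

theorem z2_io (h : C.e 0 = 0) (ht : Ho H t) : C.Z2 H (C.io t) := by
  exact ⟨fun _ _ => C.two_smul_val _ (C.two_T 0), fun g hg k hk => by
    rw [io, io, io, ht.2 g hg k hk, val_add_smul (C.two_T 0), map_nsmul, act_T0 h],
    ht.1.comp fun a => a.val • C.T 0⟩

theorem ho_nu (h : C.e 0 = 0) (hk : C.Z2 H k) : Ho H (C.nu k) := by
  refine ⟨hk.sm.comp fun P => C.ep P (C.T 0), fun a ha b hb => ?_⟩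
  rw [nu, nu, nu, hk.coc a ha b hb, C.ep_add_left (hk.two a ha) (C.two_act a (hk.two b hb))
    (C.two_T 0), ← C.ep_act a (k b), act_T0 h]

/-- Cocycles in the kernel of `nu` come from characters. -/
theorem exists_io (h : C.e 0 = 0) (hk : C.Z2 H k) (h0 : ∀ g ∈ H, C.nu k g = 0) :
    Ho H (fun g => C.ep (k g) (C.T 1)) ∧ ∀ g ∈ H, k g = C.io (fun g => C.ep (k g) (C.T 1)) g := by
  have e : ∀ g ∈ H, k g = C.io (fun g => C.ep (k g) (C.T 1)) g := fun g hg => by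
    have := two_coord (hk.two g hg)
    rwa [show C.ep (k g) (C.T 0) = 0 from h0 g hg, ZMod.val_zero, zero_nsmul, add_zero] at this
  refine ⟨⟨hk.sm.comp fun P => C.ep P (C.T 1), fun a ha b hb => ?_⟩, e⟩
  have f : C.act a (k b) = k b := by rw [e b hb, io, map_nsmul, act_T0 h]
  beta_reduce
  rw [hk.coc a ha b hb, f, C.ep_add_left (hk.two a ha) (hk.two b hb) (C.two_T 1)]

theorem ep_io (t : GQ → F2) (g : GQ) : C.ep (C.io t g) (C.T 1) = t g := by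
  rw [io, ep_smul_left, ep_T, if_neg (by decide), mul_one]

theorem bv_io (h : C.e 0 = 0) (v : ℕ) (t : GQ → F2) (k : GQ → C.A) :
    C.bv v (C.io t) k = hv v t (C.nu k) := by
  refine congrArg (iv v) (funext fun g => funext fun l => ?_)
  rw [cu, io, ep_smul_left, nu, C.ep_comm (k l), ← C.ep_act g (C.T 0) (k l), act_T0 h]

theorem z2_dT (h : C.e 0 = 0) (H : Subgroup GQ) (D : ℤ) : C.Z2 H (C.dT D) := by
  exact z2_cob_half fun g _ => by rw [two_hf, C.tw_two D g (C.two_T _), act_T0 h]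

theorem te_act (g : GQ) (j : Fin 3) (Q : C.A) :
    ell_s (C.W Qb) (C.e (C.pm g j)) (C.act g Q) = g (ell_s (C.W Qb) (C.e j) Q) := by
  rcases Q with _ | ⟨u, w, hR⟩
  · rw [← WeierstrassCurve.Affine.Point.zero_def, map_zero]
    exact (map_zero g).symm
  · obtain ⟨k, e'⟩ := C.act_some g hR
    rw [e', ell_s_some, ell_s_some, ← e_pm]
    simp [W, map_ofNat]

theorem te_T {P : C.A} (hP : 2 • P ≠ 0) (i j : Fin 3) : ell_s (C.W Qb) (C.e j) (P + C.T i) =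
    if i = j then ell_s (C.W Qb) (C.e j) P else -ell_s (C.W Qb) (C.e j) P := by
  split_ifs with e
  · exact e ▸ (ell_add_T (C.split i) hP).1
  · obtain ⟨k, k1, k2⟩ : ∃ k, i ≠ k ∧ j ≠ k := by clear hP; revert i j; decide
    exact (ell_add_T (split' e k1 k2) hP).2

theorem nu_dT (h : C.e 0 = 0) (D : ℤ) : C.nu (C.dT D) = chi C.b := by
  funext g
  have h0 : 2 • C.hf (C.T 0) ≠ 0 := (two_hf (C.T 0)).trans_ne (C.T_ne 0)
  have s : ∀ j, ell_s (C.W Qb) (C.e j) (C.hf (C.T 0)) * ell_s (C.W Qb) (C.e j) (C.hf (C.T 0)) =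
      C.e 0 - C.e j := fun j => ell_sq (C.split j) (two_hf (C.T 0))
  have hS := (z2_dT h ⊤ D).two g trivial
  have e : C.act g (C.hf (C.T 0)) = sn (chi D g) • (C.hf (C.T 0) + C.dT D g) := by
    rw [dT, cob, add_sub_cancel, tw, smul_smul, ← sn_add, CharTwo.add_self_eq_zero, sn_zero,
      one_smul]
  have s2 : (sn (chi D g) : Qb) * sn (chi D g) = 1 := by
    rw [← Int.cast_mul, ← sn_add, CharTwo.add_self_eq_zero, sn_zero, Int.cast_one]
  refine (chB_eq (z := ell_s (C.W Qb) (C.e 1) (C.hf (C.T 0)) * ell_s (C.W Qb) (C.e 2) (C.hf (C.T 0)))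
    (Int.cast_ne_zero.2 (two_b h).1) ?_ ?_).symm
  · rw [mul_mul_mul_comm, s, s, C.hb, h]
    ring
  have e2 : g (ell_s (C.W Qb) (C.e 1) (C.hf (C.T 0)) * ell_s (C.W Qb) (C.e 2) (C.hf (C.T 0))) =
      ell_s (C.W Qb) (C.e 1) (C.hf (C.T 0) + C.dT D g) *
        ell_s (C.W Qb) (C.e 2) (C.hf (C.T 0) + C.dT D g) := by
    rw [map_mul, ← te_act, ← te_act, e, ell_s_sn (C.split 0), ell_s_sn (C.split 0),
      mul_mul_mul_comm, s2, one_mul]
    rcases te_pm h g with ⟨a, b, -⟩ | ⟨a, b, -⟩ <;> rw [a, b]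
    exact mul_comm _ _
  rw [e2, nu]
  rcases C.tors2 hS with k | ⟨i, k⟩ <;> rw [k]
  · rw [add_zero, ep_zero_left, sn_zero, Int.cast_one, one_mul]
  rw [te_T h0, te_T h0, ep_T]
  rcases fin3 i with rfl | rfl | rfl <;> simp [sn_zero, sn_one]

theorem dT_mul (h : C.e 0 = 0) (hD : D ≠ 0) (hD' : D' ≠ 0) :
    C.dT (D * D') = C.dT D + C.io (chi D') := by
  funext g
  have e : 2 • C.tw D g (C.hf (C.T 0)) = C.T 0 := by
    rw [← tw_nsmul, two_hf, C.tw_two D g (C.two_T _), act_T0 h]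
  rw [Pi.add_apply, dT, dT, cob, cob, io, C.tw_twist hD hD']
  rcases F2_cases (chi D' g) with k | k <;> rw [k]
  · rw [sn_zero, one_zsmul, ZMod.val_zero, zero_nsmul, add_zero]
  · rw [sn_one, neg_one_zsmul, ZMod.val_one, one_nsmul]
    generalize C.hf (C.T 0) = R at e ⊢
    rw [← C.neg_two (C.two_T 0), ← e, two_nsmul]
    abel

theorem dT_sig (h : C.e 0 = 0) {q : ℕ} (hq : C.Gp q) (hD : D ≠ 0) :
    C.dT D (sig q) = (padicValInt q D : F2).val • C.T 0 := by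
  have h2 := hq.ne_two
  have h1 := half_fix (Q := C.hf (C.T 0)) hq (fun g _ => by rw [two_hf, act_T0 h]) _
    (sig_ine hq.1 h2)
  rw [dT, cob, tw, h1, chi_sig hq.1 h2 hD]
  rcases F2_cases (padicValInt q D : F2) with k | k <;> rw [k]
  · rw [sn_zero, one_zsmul, ZMod.val_zero, zero_nsmul, sub_self]
  · rw [sn_one, neg_one_zsmul, ZMod.val_one, one_nsmul, sub_eq_add_neg, ← neg_add, ← two_nsmul,
      two_hf, C.neg_two (C.two_T _)]

theorem loc_dT (v : ℕ) (D : ℤ) : C.Loc v D (C.dT D) := C.loc_cob v D _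

theorem xl_bb (h : C.e 0 = 0) (v : ℕ) (D : ℤ) : C.Xl v D (chi C.bb) := by
  exact ⟨C.T 1, fun g _ => by rw [cob, C.tw_two D g (C.two_T _), act_T1 h]⟩

theorem yl_b (h : C.e 0 = 0) (v : ℕ) (D : ℤ) : C.Yl v D (chi C.b) := by
  exact ⟨C.dT D, z2_dT h _ D, loc_dT v D, fun g _ => by rw [nu_dT h]⟩

theorem Xl.congr (h : C.Xl v D t) (hD : ∀ g ∈ Gv v, chi D' g = chi D g)
    (e : ∀ g ∈ Gv v, y g = t g) : C.Xl v D' y := by
  exact Loc.congr h hD fun g hg => by rw [io, io, e g hg]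

theorem Yl.congr (h : C.Yl v D t) (hD : ∀ g ∈ Gv v, chi D' g = chi D g)
    (e : ∀ g ∈ Gv v, y g = t g) : C.Yl v D' y := by
  obtain ⟨k, a, b, c⟩ := h
  exact ⟨k, a, b.congr hD fun _ _ => rfl, fun g hg => (c g hg).trans (e g hg).symm⟩

/-- The two local conditions are orthogonal. -/
theorem xy (h : C.e 0 = 0) (hv' : Pv v) (ht : Ho (Gv v) t) (hx : C.Xl v D t) (hy : C.Yl v D y) :
    hv v t y = 0 := by
  obtain ⟨k, a, b, c⟩ := hy
  rw [hv_congr hv' (fun _ _ => rfl) fun g hg => (c g hg).symm, ← bv_io h]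
  exact bv_iso hv' (z2_io h ht) a hx b

end Cu

end Pool.Agent.SP
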