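import Pool.Agent.Lib.MP_696deb_nt.SP.TC
import Pool.Agent.Lib.MP_696deb_nt.SP.TEb

/-! The Cassels-Tate pairing of the isogeny and the parity of its rank. -/

set_option autoImplicit false

open scoped Classical
open Finset

namespace Pool.Agent.SP

open Pool.Agent.Lib.MP_696deb_nt Pool.Agent.Lib.MP_696deb_nt.Sm
open Pool.Agent.Lib.MP_696deb_nt.B2 (jC cc)

/-- A smooth function agrees with a quadratic character at the chosen inertia elements. -/
theorem tg_fix {β : GQ → F2} (h : LC β) (h1 : β 1 = 0) :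
    ∃ m : ℤ, ∀ q : ℕ, q.Prime → q ≠ 2 → chi m (sig q) = β (sig q) := by
  obtain ⟨U, u1, -, u3⟩ := h
  obtain ⟨s, hs⟩ := B2.finite_ram u1
  refine ⟨∏ p ∈ s.filter fun p => p.Prime ∧ β (sig p) = 1, (p : ℤ), fun q hq h2 => ?_⟩
  rw [chi_prod _ _ fun p hp => Int.natCast_ne_zero.2 (mem_filter.1 hp).2.1.ne_zero]
  have e : ∀ p ∈ s.filter fun p => p.Prime ∧ β (sig p) = 1, p ≠ q → chi p (sig q) = 0 :=
    fun p hp k => chi_sig_of_not_dvd hq h2 fun l => k
      ((Nat.prime_dvd_prime_iff_eq hq (mem_filter.1 hp).2.1).1 (Int.natCast_dvd_natCast.1 l)).symm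
  rcases F2_cases (β (sig q)) with k | k
  · rw [k]
    refine sum_eq_zero fun p hp => e p hp ?_
    rintro rfl
    exact zero_ne_one (k.symm.trans (mem_filter.1 hp).2.2)
  · have hs' : q ∈ s := by
      by_contra l
      have h3 := hs (pl q) (by rwa [pl_p hq]) (sig_ine hq h2)
      rw [← u3 1 trivial _ trivial (by simpa using h3), h1] at k
      exact zero_ne_one k
    rw [sum_eq_single_of_mem q (mem_filter.2 ⟨hs', hq, k⟩) e, chi_sig_self hq h2, k]

namespace Cu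

variable {C : Cu} {t y : GQ → F2} {v : ℕ} {D : ℤ}

/-- The two local conditions are exact annihilators. -/
theorem tx (ls : LSStmt) (h : C.e 0 = 0) (hv' : Pv v) (hD : D ≠ 0) (ht : Ho (Gv v) t)
    (hp : ∀ y, Ho (Gv v) y → C.Yl v D y → hv v t y = 0) : C.Xl v D t := by
  rcases hv' with rfl | hv'
  · obtain ⟨b1, b2, -⟩ := two_b h
    have key : C.Yl 0 D t ∧ (C.Xl 0 D t ↔ t cc = 0) → C.Xl 0 D t := fun k =>
      k.2.2 (mul_self_eq_zero.1 ((hv_real ht).symm.trans (hp t ht k.1)))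
    rcases b2.lt_or_gt with c | c
    · exact (real_neg h c D ht).1
    rcases b1.lt_or_gt with d | d
    · exact key (real_mid h d D ht)
    obtain ⟨s, hs⟩ := real_pos h d c
    by_cases e : chi D cc = s
    · exact ((hs D t ht).1 e).1
    · exact key ((hs D t ht).2 e)
  obtain ⟨k, h1, h2⟩ := ls C v D hv' hD
  have : Nonempty (Fin (if v = 2 then 8 else 4)) := ⟨⟨0, by split_ifs <;> norm_num⟩⟩
  let f : Fin (if v = 2 then 8 else 4) → Gv v → F2 := fun i g => C.nu (k i) g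
  let b := fun i => Function.invFun f (f i)
  have hb : ∀ i, f (b i) = f i := fun i => Function.invFun_eq ⟨i, rfl⟩
  have z : ∀ i, C.Z2 (Gv v) (k i - k (b i)) := fun i => (h1 i).1.sub (h1 _).1
  have n : ∀ i, ∀ g ∈ Gv v, C.nu (k i - k (b i)) g = 0 := fun i g hg => by
    have e : C.nu (k (b i)) g = C.nu (k i) g := congrFun (hb i) ⟨g, hg⟩
    have t1 := (h1 i).1.two g hg
    have t2 := (h1 (b i)).1.two g hg
    rw [nu, Pi.sub_apply, sub_eq_add_neg, C.neg_two t2, C.ep_add_left t1 t2 (C.two_T 0)]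
    exact CharTwo.add_eq_zero.2 e.symm
  have x := fun i => exists_io h (z i) (n i)
  refine loc_perp hv' (C.Xl v D) (C.Yl v D) (C.xl_zero v D) (fun _ _ => Xl.add)
    (fun _ _ a e => a.congr (fun _ _ => rfl) e) (C.yl_zero v D) (fun _ _ => Yl.add)
    (fun _ _ a _ c d => xy h (.inr hv') a c d) (fun i g => C.ep ((k i - k (b i)) g) (C.T 1))
    (fun i => C.nu (k i)) (fun i => ⟨(x i).1, ?_⟩)
    (fun i => ⟨ho_nu h (h1 i).1, k i, (h1 i).1, (h1 i).2, fun _ _ => rfl⟩)
    (fun i j e1 e2 => h2 i j fun g hg => ?_) ht hp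
  · refine ((h1 i).2.add ((h1 (b i)).2.zsmul (-1))).congr (fun _ _ => rfl) fun g hg => ?_
    rw [← (x i).2 g hg, neg_one_zsmul, sub_eq_add_neg]
  · have e : b i = b j := congrArg (Function.invFun f) (funext fun g => e2 g g.2)
    have e3 := (x i).2 g hg
    rw [io, e1 g hg, ← io.eq_def C (fun g => C.ep ((k j - k (b j)) g) (C.T 1)), ← (x j).2 g hg, e,
      Pi.sub_apply, Pi.sub_apply] at e3
    exact sub_left_injective e3

theorem RY_le (h : C.e 0 = 0) (D : ℤ) : C.RY D ≤ C.YP D := by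
  rintro _ ⟨c, hc, rfl⟩
  exact ⟨⟨ho_nu h hc.1.1, fun q h1 h2 => by rw [nu, hc.1.2 q ⟨h1, h2⟩, ep_zero_left]⟩,
    fun v hv => ⟨c, hc.1.1.mono le_top, hc.2 v hv, fun _ _ => rfl⟩⟩

theorem card_Sh (h : C.e 0 = 0) (D : ℤ) :
    Finite (C.Sh D) ∧ Nat.card (C.Sh D) = Nat.card (C.XP D) * Nat.card (C.RY D) := by
  let f : C.Sh D →+ GQ → F2 := AddMonoidHom.mk' (fun c => C.nu c.1) fun a b => funext fun g =>
    C.nu_add (a.2.1.1.two g trivial) (b.2.1.1.two g trivial)
  have h1 : f.range = C.RY D := AddSubgroup.ext fun _ =>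
    ⟨fun ⟨c, e⟩ => ⟨c.1, c.2, e⟩, fun ⟨c, k, e⟩ => ⟨⟨c, k⟩, e⟩⟩
  let j : C.XP D → f.ker := fun t => ⟨⟨C.io t.1, ⟨z2_io h t.2.1.1, fun q hq => by
    rw [io, t.2.1.2 q hq.1 hq.2, ZMod.val_zero, zero_nsmul]⟩, t.2.2⟩, C.nu_io t.1⟩
  have h2 : Function.Bijective j := by
    refine ⟨fun a b e => Subtype.ext (funext fun g => ?_), fun ⟨⟨c, hc⟩, e⟩ => ?_⟩
    · have e1 : C.io a.1 = C.io b.1 := congrArg (·.1.1) e
      rw [← ep_io (C := C) a.1 g, e1, ep_io]
    · obtain ⟨k1, k2⟩ := exists_io h hc.1.1 fun g _ => congrFun e g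
      have k3 : C.io (fun g => C.ep (c g) (C.T 1)) = c := funext fun g => (k2 g trivial).symm
      exact ⟨⟨_, ⟨k1, fun q q1 q2 => by rw [hc.1.2 q ⟨q1, q2⟩, ep_zero_left]⟩,
        fun v hv => by rw [Xl, k3]; exact hc.2 v hv⟩, Subtype.ext (Subtype.ext k3)⟩
  have h3 : Nat.card (C.Sh D) = Nat.card (C.XP D) * Nat.card (C.RY D) := by
    rw [AddSubgroup.card_eq_card_quotient_mul_card_addSubgroup f.ker,
      Nat.card_congr (QuotientAddGroup.quotientKerEquivRange f).toEquiv, h1,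
      Nat.card_eq_of_bijective j h2, mul_comm]
  have := finite_Ch C.two_le_N0
  have : Finite (C.XP D) := Finite.of_injective _
    (AddSubgroup.inclusion_injective (show C.XP D ≤ Ch C.N0 from fun _ k => k.1))
  have : Finite (C.RY D) := Finite.of_injective _
    (AddSubgroup.inclusion_injective (show C.RY D ≤ Ch C.N0 from fun _ k => (RY_le h D k).1))
  exact ⟨Nat.finite_of_card_ne_zero (h3 ▸ mul_ne_zero Nat.card_pos.ne' Nat.card_pos.ne'), h3⟩

/-- A cocycle from its two coordinates. -/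
theorem tg_z2 {H : Subgroup GQ} {β : GQ → F2} (h : C.e 0 = 0) (hy : Ho H y) (hs : B2.Sm H β)
    (hβ : ∀ g ∈ H, ∀ l ∈ H, β (g * l) = β g + β l + chi C.bb g * y l) :
    C.Z2 H fun g => (β g).val • C.T 0 + (y g).val • C.T 1 := by
  refine ⟨fun g _ => ?_, fun g hg l hl => ?_,
    hs.comp₂ hy.1 fun a b => a.val • C.T 0 + b.val • C.T 1⟩
  · rw [smul_add, C.two_smul_val _ (C.two_T 0), C.two_smul_val _ (C.two_T 1), add_zero]
  · have e : (chi C.bb g * y l).val • C.T 0 = (y l).val • (chi C.bb g).val • C.T 0 := by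
      rcases F2_cases (y l) with k | k <;> rw [k]
      · rw [mul_zero, ZMod.val_zero, zero_nsmul, zero_nsmul]
      · rw [mul_one, ZMod.val_one, one_nsmul]
    rw [hβ g hg l hl, hy.2 g hg l hl, val_add_smul (C.two_T 0), val_add_smul (C.two_T 0),
      val_add_smul (C.two_T 1), map_add, map_nsmul, map_nsmul, act_T0 h,
      sub_eq_iff_eq_add.1 (act_T1 h g), io, e, smul_add]
    abel

/-- Global lifts of the classes of the second isogeny. -/
theorem exists_lift (h : C.e 0 = 0) (hy : y ∈ C.YP D) : ∃ a, C.Un a ∧ C.nu a = y := by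
  obtain ⟨⟨y1, y2⟩, y3⟩ := hy
  obtain ⟨β, b1, b2⟩ := iv_abhn (c2_ho (ho_chi ⊤ C.bb) y1) fun v hv' => by
    by_cases e : C.Bd v
    · exact xy h hv' (ho_chi _ _) (xl_bb h v D) (y3 v e)
    · have p1 : v.Prime := hv'.resolve_left fun k => e (.inl k)
      have p2 : C.Gp v := ⟨p1, not_le.1 fun k => e (.inr ⟨p1, k⟩)⟩
      refine (hv_tame p1 p2.ne_two (ho_chi _ _) (y1.mono le_top)
        ((two_ch h).2.2 v p1 p2.2)).trans ?_
      rw [y2 v p1 p2.2, mul_zero]
  have b3 : ∀ g l, β (g * l) = β g + β l + chi C.bb g * y l := fun g l => by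
    have e := b2 g trivial l trivial
    rw [B2.cy_one_eq, one_mul] at e
    have e1 : ∀ a b c : F2, a = b - c → c = b + a := by decide
    exact e1 _ _ _ e
  have b4 : β 1 = 0 := by
    have e := b3 1 1
    rw [mul_one, show chi C.bb 1 = 0 from loc_one _, zero_mul, add_zero] at e
    exact left_eq_add.1 e
  obtain ⟨m, hm⟩ := tg_fix b1 b4
  refine ⟨_, ⟨tg_z2 (β := β + chi m) h y1 (lc_add b1 (lc_chi m)) fun g _ l _ => ?_,
    fun q hq => ?_⟩, funext fun g => ?_⟩
  · simp only [Pi.add_apply, b3, chi_mul_g]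
    abel
  · rw [Pi.add_apply, hm q hq.1 hq.ne_two, CharTwo.add_self_eq_zero, y2 q hq.1 hq.2,
      ZMod.val_zero, zero_nsmul, zero_nsmul, add_zero]
  · rw [nu, C.ep_add_left (C.two_smul_val _ (C.two_T 0)) (C.two_smul_val _ (C.two_T 1))
      (C.two_T 0), ep_smul_left, ep_smul_left, ep_self, ep_T, if_neg (by decide), mul_zero,
      mul_one, zero_add]

end Cu

end Pool.Agent.SP
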