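import Pool.Agent.Lib.MP_696deb_nt.SP.TG

/-! The change of sign. -/

set_option autoImplicit false

open scoped Classical
open Finset

namespace Pool.Agent.SP

open Pool.Agent.Lib.MP_696deb_nt Pool.Agent.Lib.MP_696deb_nt.Sm
open Pool.Agent.Lib.MP_696deb_nt.B2 (jC cc)

/-- The subgroup of the functions that vanish at a point has index one or two. -/
theorem th_idx {A B : AddSubgroup (GQ → F2)} [Finite A] (x : GQ)
    (h : ∀ t, t ∈ B ↔ t ∈ A ∧ t x = 0) :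
    par (Nat.card A) = par (Nat.card B) + if ∃ t ∈ A, t x ≠ 0 then 1 else 0 := by
  split_ifs with k
  · obtain ⟨t, ht, h1⟩ := k
    let f : A →+ F2 := (Pi.evalAddMonoidHom (fun _ : GQ => F2) x).comp A.subtype
    have e1 : f.ker = B.addSubgroupOf A := AddSubgroup.ext fun y => by
      rw [AddMonoidHom.mem_ker, AddSubgroup.mem_addSubgroupOf, h]
      exact ⟨fun k => ⟨y.2, k⟩, And.right⟩
    have e2 : f.range = ⊤ := eq_top_iff.2 fun a _ => by
      rcases F2_cases a with rfl | rfl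
      · exact zero_mem _
      · exact ⟨⟨t, ht⟩, (F2_cases _).resolve_left h1⟩
    have e3 : Nat.card f.ker = Nat.card B := by
      rw [e1]
      exact Nat.card_congr (AddSubgroup.addSubgroupOfEquivOfLe fun t k => ((h t).1 k).1).toEquiv
    have e4 : f.ker.index = 2 := by
      rw [AddSubgroup.index_ker, e2, AddSubgroup.card_top, Nat.card_zmod]
    rw [← f.ker.card_mul_index, e4, par_mul Nat.card_pos.ne' two_ne_zero, par_two, e3]
  · have e : A = B := AddSubgroup.ext fun t =>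
      ⟨fun ht => (h t).2 ⟨ht, by_contra fun h1 => k ⟨t, ht, h1⟩⟩, fun ht => ((h t).1 ht).1⟩
    rw [e, add_zero]

namespace Cu

variable {C : Cu} {D D' : ℤ}

/-- The parity of the two Selmer groups of the isogeny. -/
noncomputable def pi (C : Cu) (D : ℤ) : F2 := par (Nat.card (C.XP D)) + par (Nat.card (C.YP D))

theorem th_le (hs : ∀ v, C.Bd v → ∀ c, C.Z2 (Gv v) c → C.Loc v D c → C.Loc v D' c)
    (hx : ∀ v, C.Bd v → ∀ t, Ho ⊤ t → C.Xl v D t → C.Xl v D' t) :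
    C.Sh D ≤ C.Sh D' ∧ C.XP D ≤ C.XP D' ∧ C.YP D ≤ C.YP D' ∧ C.RY D ≤ C.RY D' := by
  have h1 : C.Sh D ≤ C.Sh D' := fun c hc =>
    ⟨hc.1, fun v hv => hs v hv c (hc.1.1.mono le_top) (hc.2 v hv)⟩
  refine ⟨h1, fun t ht => ⟨ht.1, fun v hv => hx v hv t ht.1.1 (ht.2 v hv)⟩,
    fun t ht => ⟨ht.1, fun v hv => ?_⟩, fun t ⟨c, hc, e⟩ => ⟨c, h1 hc, e⟩⟩
  obtain ⟨k, k1, k2, k3⟩ := ht.2 v hv
  exact ⟨k, k1, hs v hv k k1 k2, k3⟩

theorem th_anti
    (h : C.Sh D ≤ C.Sh D' ∧ C.XP D ≤ C.XP D' ∧ C.YP D ≤ C.YP D' ∧ C.RY D ≤ C.RY D')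
    (k : C.Sh D' ≤ C.Sh D ∧ C.XP D' ≤ C.XP D ∧ C.YP D' ≤ C.YP D ∧ C.RY D' ≤ C.RY D) :
    C.Sh D = C.Sh D' ∧ C.XP D = C.XP D' ∧ C.YP D = C.YP D' ∧ C.RY D = C.RY D' :=
  ⟨le_antisymm h.1 k.1, le_antisymm h.2.1 k.2.1, le_antisymm h.2.2.1 k.2.2.1,
    le_antisymm h.2.2.2 k.2.2.2⟩

theorem Sh_congr (h : ∀ v, C.Bd v → ∀ g ∈ Gv v, chi D g = chi D' g) :
    C.Sh D = C.Sh D' ∧ C.XP D = C.XP D' ∧ C.YP D = C.YP D' ∧ C.RY D = C.RY D' :=
  th_anti (th_le (fun v hv _ _ k => k.congr (fun g hg => (h v hv g hg).symm) fun _ _ => rfl)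
      fun v hv _ _ k => Loc.congr k (fun g hg => (h v hv g hg).symm) fun _ _ => rfl)
    (th_le (fun v hv _ _ k => k.congr (h v hv) fun _ _ => rfl)
      fun v hv _ _ k => Loc.congr k (h v hv) fun _ _ => rfl)

/-- The exchange of the two real conditions changes the parity. -/
theorem th_key (ls : LSStmt) (h : C.e 0 = 0) (hD' : D' ≠ 0)
    (e : ∀ v : ℕ, v.Prime → v ≤ C.N0 → ∀ g ∈ Gv v, chi D g = chi D' g)
    (r : ∀ t, Ho (Gv 0) t → C.Xl 0 D t ∧ (C.Yl 0 D t ↔ t cc = 0))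
    (r' : ∀ t, Ho (Gv 0) t → C.Yl 0 D' t ∧ (C.Xl 0 D' t ↔ t cc = 0)) :
    C.pi D + C.pi D' = 1 := by
  have hF := finite_Ch C.two_le_N0
  have f1 : Finite (C.XP D) := Finite.of_injective _
    (AddSubgroup.inclusion_injective (show C.XP D ≤ Ch C.N0 from fun _ k => k.1))
  have f2 : Finite (C.YP D') := Finite.of_injective _
    (AddSubgroup.inclusion_injective (show C.YP D' ≤ Ch C.N0 from fun _ k => k.1))
  have e1 := th_idx (A := C.XP D) (B := C.XP D') cc fun t =>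
    ⟨fun k => ⟨⟨k.1, fun v hv => by
        rcases hv with rfl | hv
        · exact (r t (k.1.1.mono le_top)).1
        · exact (k.2 v (.inr hv)).congr (e v hv.1 hv.2) fun _ _ => rfl⟩,
      (r' t (k.1.1.mono le_top)).2.1 (k.2 0 (.inl rfl))⟩,
    fun k => ⟨k.1.1, fun v hv => by
      rcases hv with rfl | hv
      · exact (r' t (k.1.1.1.mono le_top)).2.2 k.2
      · exact (k.1.2 v (.inr hv)).congr (fun g hg => (e v hv.1 hv.2 g hg).symm) fun _ _ => rfl⟩⟩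
  have e2 := th_idx (A := C.YP D') (B := C.YP D) cc fun t =>
    ⟨fun k => ⟨⟨k.1, fun v hv => by
        rcases hv with rfl | hv
        · exact (r' t (k.1.1.mono le_top)).1
        · exact (k.2 v (.inr hv)).congr (fun g hg => (e v hv.1 hv.2 g hg).symm) fun _ _ => rfl⟩,
      (r t (k.1.1.mono le_top)).2.1 (k.2 0 (.inl rfl))⟩,
    fun k => ⟨k.1.1, fun v hv => by
      rcases hv with rfl | hv
      · exact (r t (k.1.1.1.mono le_top)).2.2 k.2
      · exact (k.1.2 v (.inr hv)).congr (e v hv.1 hv.2) fun _ _ => rfl⟩⟩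
  have h0 : (0 : ℕ) ∈ plc C.N0 := mem_plc.2 (.inl rfl)
  have hP : ∀ v ∈ plc C.N0, Pv v := fun v hv => (C.bd_iff.2 hv).pv
  have n2 : (∃ t ∈ C.XP D, t cc ≠ 0) → ¬ ∃ y ∈ C.YP D', y cc ≠ 0 := by
    rintro ⟨t, ht, t1⟩ ⟨y, hy, y1⟩
    have k := hv_recip ht.1.1 hy.1.1 (plc C.N0) h0
      (mem_plc.2 (.inr ⟨Nat.prime_two, C.two_le_N0⟩)) hP fun q hq hn => by
        have : C.N0 < q := not_le.1 fun k => hn (mem_plc.2 (.inr ⟨hq, k⟩))
        exact ⟨ht.1.2 q hq this, hy.1.2 q hq this⟩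
    rw [sum_eq_single_of_mem 0 h0 fun v hv hn => ?_, hv_real (ht.1.1.mono le_top)] at k
    · exact mul_ne_zero t1 y1 k
    · have hv' := (mem_plc.1 hv).resolve_left hn
      exact xy h (hP v hv) (ht.1.1.mono le_top) (ht.2 v (.inr hv'))
        ((hy.2 v (.inr hv')).congr (e v hv'.1 hv'.2) fun _ _ => rfl)
  have n1 : (¬ ∃ y ∈ C.YP D', y cc ≠ 0) → ∃ t ∈ C.XP D, t cc ≠ 0 := fun k => by
    have ht : ∀ v : ℕ, Ho (Gv v) (if v = 0 then chi (-1) else 0) := fun v => by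
      split_ifs
      · exact ho_chi _ _
      · exact ho_zero _
    obtain ⟨ξ, hξ, l⟩ := du C.two_le_N0 (fun v => C.Yl v D') (fun v => C.yl_zero v D')
      (fun _ _ _ => Yl.add) (fun _ _ _ k1 k2 => k1.congr (fun _ _ => rfl) k2)
      (fun v => if v = 0 then chi (-1) else 0) (fun v _ => ht v) fun y hy hy' => by
        have y0 : y cc = 0 := by_contra fun y1 =>
          k ⟨y, ⟨hy, fun v hv => hy' v (C.bd_iff.1 hv)⟩, y1⟩
        refine sum_eq_zero fun v hv => ?_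
        by_cases hn : v = 0
        · subst hn
          rw [hv_real (ht 0), y0, mul_zero]
        · exact hv_zero (hP v hv) (fun g _ => by rw [if_neg hn, Pi.zero_apply]) y
    have l1 : ∀ v ∈ plc C.N0, C.Xl v D' ((if v = 0 then chi (-1) else 0) + ξ) := fun v hv =>
      tx ls h (hP v hv) hD' ((ht v).add (hξ.1.mono le_top)) (l v hv)
    refine ⟨ξ, ⟨hξ, fun v hv => ?_⟩, fun k1 => ?_⟩
    · rcases hv with rfl | hv
      · exact (r ξ (hξ.1.mono le_top)).1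
      · exact (l1 v (mem_plc.2 (.inr hv))).congr (e v hv.1 hv.2) fun g _ => by
          rw [if_neg hv.1.ne_zero, zero_add]
    · have l2 := (r' _ ((ht 0).add (hξ.1.mono le_top))).2.1 (l1 0 h0)
      rw [if_pos rfl, Pi.add_apply, k1, add_zero, loc_chi_cc (by decide), if_neg (by decide)] at l2
      exact one_ne_zero l2
  have z : ∀ a b : F2, (a + 1 + b + (a + (b + 0)) = 1) ∧ a + 0 + b + (a + (b + 1)) = 1 := by
    decide
  rw [pi, pi, e1, e2]
  by_cases k : ∃ y ∈ C.YP D', y cc ≠ 0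
  · rw [if_pos k, if_neg fun k1 => n2 k1 k]
    exact (z _ _).2
  · rw [if_neg k, if_pos (n1 k)]
    exact (z _ _).1

theorem flip_pos (ls : LSStmt) (h : C.e 0 = 0) (hb : 0 < C.b) (hb' : 0 < C.bb) (hD : 0 < D)
    (hD' : D' < 0) (e : ∀ v : ℕ, v.Prime → v ≤ C.N0 → ∀ g ∈ Gv v, chi D g = chi D' g) :
    C.pi D' = C.pi D + 1 := by
  obtain ⟨s, hs⟩ := real_pos h hb hb'
  have c0 : chi D cc = 0 := by rw [loc_chi_cc hD.ne', if_pos hD]
  have c1 : chi D' cc = 1 := by rw [loc_chi_cc hD'.ne, if_neg hD'.not_gt]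
  have z : ∀ a b : F2, (a + b = 1 → b = a + 1) ∧ (b + a = 1 → b = a + 1) := by decide
  rcases F2_cases s with rfl | rfl
  · exact (z _ _).1 (th_key ls h hD'.ne e (fun t ht => (hs D t ht).1 c0)
      fun t ht => (hs D' t ht).2 (c1 ▸ one_ne_zero))
  · exact (z _ _).2 (th_key ls h hD.ne' (fun v k k' g hg => (e v k k' g hg).symm)
      (fun t ht => (hs D' t ht).1 c1) fun t ht => (hs D t ht).2 (c0 ▸ zero_ne_one))

theorem flip_neg (h : C.e 0 = 0) (hb' : C.bb < 0)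
    (e : ∀ v : ℕ, v.Prime → v ≤ C.N0 → ∀ g ∈ Gv v, chi D g = chi D' g) :
    C.Sh D = C.Sh D' ∧ C.XP D = C.XP D' ∧ C.YP D = C.YP D' ∧ C.RY D = C.RY D' := by
  have hn : C.disc < 0 := by
    rw [(two_b h).2.2]
    exact mul_neg_of_pos_of_neg (sq_pos_of_ne_zero (two_b h).1) hb'
  have k : ∀ E E' : ℤ, (∀ v : ℕ, v.Prime → v ≤ C.N0 → ∀ g ∈ Gv v, chi E' g = chi E g) →
      ∀ v, C.Bd v → ∀ c, C.Z2 (Gv v) c → C.Loc v E c → C.Loc v E' c := fun E E' l v hv c hc k => by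
    rcases hv with rfl | hv
    · obtain ⟨S, hS, e⟩ := Z2.cob_cc hn (Gv_zero ▸ hc)
      exact ⟨S, fun g hg => by rw [cob, C.tw_two E' g hS, e g (Gv_zero ▸ hg)]⟩
    · exact k.congr (l v hv.1 hv.2) fun _ _ => rfl
  have e' : ∀ v : ℕ, v.Prime → v ≤ C.N0 → ∀ g ∈ Gv v, chi D' g = chi D g :=
    fun v k k' g hg => (e v k k' g hg).symm
  exact th_anti
    (th_le (k D D' e') fun v hv t ht => k D D' e' v hv _ (z2_io h (ht.mono le_top)))
    (th_le (k D' D e) fun v hv t ht => k D' D e v hv _ (z2_io h (ht.mono le_top)))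

end Cu

end Pool.Agent.SP
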