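import Pool.Agent.Lib.MP_696deb_nt.SP.T0
import Pool.Agent.Lib.MP_696deb_nt.Sm.Isog

/-! The isogeny of degree two. -/

set_option autoImplicit false

open scoped Classical
open Finset

namespace Pool.Agent.SP

open Pool.Agent.Lib.MP_696deb_nt Pool.Agent.Lib.MP_696deb_nt.Sm
open Pool.Agent.Lib.MP_696deb_nt.B2 (jC cc)
open WeierstrassCurve.Affine

theorem tia_mk {a b : ℤ} {N : ℕ} (h : dsc a b 0 ≠ 0) (hN : (dsc a b 0).natAbs + 2 ≤ N) :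
    ∃ C : Cu, C.a = a ∧ C.b = b ∧ C.c = 0 ∧ C.e 0 = 0 ∧ C.N0 = N := by
  have hs := rt_mul_self ((a : Qb) ^ 2 - 4 * b)
  generalize rt _ = s at hs
  refine ⟨⟨a, b, 0, ![0, (-a + s) / 2, (-a - s) / 2], N, ?_, ?_, ?_, h, hN⟩,
    rfl, rfl, rfl, rfl, rfl⟩ <;> simp only [Matrix.cons_val]
  · ring
  · linear_combination hs / 4
  · simp

theorem tia_phi (C C' : Cu) (h0 : C.e 0 = 0) (h0' : C'.e 0 = 0) (ha : C'.a = -2 * C.a)
    (hb : C'.b = C.a ^ 2 - 4 * C.b) : ∃ φ : C.A →+ C'.A,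
      (∀ g P, φ (C.act g P) = C'.act g (φ P)) ∧ (∀ P, φ P = 0 ↔ P = 0 ∨ P = C.T 0) ∧
      (∀ i, i ≠ 0 → φ (C.T i) = C'.T 0) ∧ Function.Surjective φ := by
  have h : Split (C.W Qb) (C.e 0) (C.e 1) (C.e 2) := C.split 0
  have h' : Split (C'.W Qb) 0 (C'.e 1) (C'.e 2) := h0' ▸ C'.split 0
  have a1 := C.ha
  have b1 := C.hb
  have a2 := C'.ha
  have b2 := C'.hb
  rw [ha] at a2
  rw [hb] at b2
  push_cast at a2 b2
  rw [h0] at a1 b1
  rw [h0'] at a2 b2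
  obtain ⟨φ, hT, hφ⟩ := isog_gen h h' (by rw [h0]; linear_combination a2 + 2 * a1)
    (by rw [a1, b1] at b2; linear_combination -b2)
  have hT0 : φ (C.T 0) = 0 := hT
  refine ⟨φ, fun g P => ?_, fun P => ⟨fun k => ?_, ?_⟩, fun i hi => ?_, fun Q => ?_⟩
  · rcases P with _ | ⟨x, y, hP⟩
    · rw [← Point.zero_def, map_zero, map_zero, map_zero]
    have g0 : g (C.e 0) = C.e 0 := by rw [h0, map_zero]
    by_cases hx : x = C.e 0
    · subst hx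
      rw [C.eq_T hP, hT0, map_zero, C.act_T, C.e_inj ((C.e_pm g 0).symm.trans g0), hT0]
    · obtain ⟨k1, e1⟩ := C.act_some g hP
      obtain ⟨k2, e2⟩ := hφ x y hP hx
      obtain ⟨k3, e3⟩ := hφ _ _ k1 fun k => hx (g.injective (k.trans g0.symm))
      obtain ⟨k4, e4⟩ := C'.act_some g k2
      have e5 : (C.e 1 - C.e 0) * (C.e 2 - C.e 0) = C.b := by rw [h0, b1]; ring
      rw [e1, e2, e3, e4]
      exact ell_ext (by simp [g0]) (by simp [e5, g0])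
  · rcases P with _ | ⟨x, y, hP⟩
    · exact Or.inl rfl
    by_cases hx : x = C.e 0
    · subst hx
      exact Or.inr (C.eq_T hP)
    · obtain ⟨k2, e2⟩ := hφ x y hP hx
      exact absurd (e2.symm.trans k) (Point.some_ne_zero _)
  · rintro (rfl | rfl)
    · exact map_zero φ
    · exact hT0
  · obtain ⟨k2, e2⟩ := hφ _ _ (C.split i).nonsingular_root (C.e_inj.ne hi)
    exact e2.trans (ell_ext (by simp [h0']) (by simp))
  · rcases Q with _ | ⟨X, Y, hQ⟩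
    · exact ⟨0, map_zero φ⟩
    obtain ⟨A, hA⟩ : ∃ A, A = 2 * C.e 0 - C.e 1 - C.e 2 := ⟨_, rfl⟩
    obtain ⟨B, hB⟩ : ∃ B, B = (C.e 1 - C.e 0) * (C.e 2 - C.e 0) := ⟨_, rfl⟩
    have B0 : B ≠ 0 := hB ▸ mul_ne_zero (sub_ne_zero.2 h.h12.symm) (sub_ne_zero.2 h.h13.symm)
    have hs := rt_mul_self ((A - X) ^ 2 - 4 * B)
    generalize rt _ = s at hs
    obtain ⟨u, hu⟩ : ∃ u, u ^ 2 + (A - X) * u + B = 0 :=
      ⟨(X - A + s) / 2, by linear_combination hs / 4⟩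
    have u0 : u ≠ 0 := fun k => B0 (by rw [k] at hu; linear_combination hu)
    obtain ⟨x, rfl⟩ : ∃ x, u = x - C.e 0 := ⟨u + C.e 0, by ring⟩
    obtain ⟨y, hy⟩ := IsAlgClosed.exists_pow_nat_eq ((x - C.e 0) * (x - C.e 1) * (x - C.e 2))
      two_pos
    have hP := (h.nonsingular_iff x y).2 hy
    obtain ⟨k, e⟩ := hφ x y hP (sub_ne_zero.1 u0)
    have hX : y ^ 2 / (x - C.e 0) ^ 2 = X := by
      rw [isog_X u0 (isog_eq h hP), ← hA, ← hB]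
      field_simp
      linear_combination hu
    rcases (Point.X_eq_iff (h₁ := k) (h₂ := hQ)).1 hX with k1 | k1
    · exact ⟨_, e.trans k1⟩
    · exact ⟨-_, by rw [map_neg, e, k1, neg_neg]⟩

theorem tia_iso (C C' : Cu) (h0 : C.e 0 = 0) (h0' : C'.e 0 = 0) (ha : C'.a = -2 * C.a)
    (hb : C'.b = C.a ^ 2 - 4 * C.b) (hN : C'.N0 = C.N0) (b0 : C.b ≠ 0) : Iso C C' := by
  obtain ⟨φ, h1, h2, h3, h4⟩ := tia_phi C C' h0 h0' ha hb
  have h5 : ∀ P, φ P = 0 → 2 • P = 0 := fun P h => by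
    rcases (h2 P).1 h with rfl | rfl
    · exact nsmul_zero 2
    · exact C.two_T 0
  choose s hs using id h4
  have h6 : ∀ P, 2 • s (φ P) = 2 • P := fun P => by
    rw [← sub_eq_zero, ← nsmul_sub]
    exact h5 _ (by rw [map_sub, hs, sub_self])
  obtain ⟨ψ, hψ⟩ : ∃ ψ : C'.A →+ C.A, ∀ P, ψ (φ P) = 2 • P :=
    ⟨AddMonoidHom.mk' (fun Q => 2 • s Q) fun Q Q' => by
      rw [← nsmul_add, ← h6 (s Q + s Q'), map_add, hs, hs],
      fun P => by rw [AddMonoidHom.mk'_apply, h6]⟩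
  have h7 : ∀ S, 2 • S = 0 → φ S = (C.ep S (C.T 0)).val • C'.T 0 := fun S h => by
    rcases C.tors2 h with rfl | ⟨i, rfl⟩
    · rw [map_zero, C.ep_zero_left, ZMod.val_zero, zero_nsmul]
    by_cases hi : i = 0
    · rw [hi, (h2 _).2 (.inr rfl), C.ep_self, ZMod.val_zero, zero_nsmul]
    · rw [h3 i hi, C.ep_T, if_neg hi, ZMod.val_one, one_nsmul]
  refine ⟨φ, ψ, ⟨h0, hN, by rw [hb, Cu.bb], h1, hψ, h7⟩, h0', hN.symm, funext fun g => ?_,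
    fun g Q => ?_, fun Q => ?_, fun S h => ?_⟩
  · have e : C'.bb = 16 * C.b := by rw [Cu.bb, ha, hb]; ring
    rw [e]
    exact chi_congr b0 (mul_ne_zero (by norm_num) b0) ⟨4 * C.b, by ring⟩ g
  · obtain ⟨P, rfl⟩ := h4 Q
    rw [← h1, hψ, hψ, map_nsmul]
  · obtain ⟨P, rfl⟩ := h4 Q
    rw [hψ, map_nsmul]
  · obtain ⟨P, rfl⟩ := h4 S
    rw [hψ]
    rcases F2_cases (C'.ep (φ P) (C'.T 0)) with k | k
    · rw [k, ZMod.val_zero, zero_nsmul]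
      rcases (C'.ep_T_eq_zero 0).1 k with k1 | k1
      · exact h5 P k1
      · have k2 := h5 (P - C.T 1) (by rw [map_sub, k1, h3 1 (by decide), sub_self])
        rwa [nsmul_sub, C.two_T, sub_zero] at k2
    · rw [k, ZMod.val_one, one_nsmul]
      refine ((h2 _).1 ((map_nsmul φ 2 P).trans h)).resolve_left fun k1 => ?_
      rw [h7 P k1, C'.ep_smul_left, C'.ep_self, mul_zero] at k
      exact zero_ne_one k

theorem iso_of {C C' : Cu} (h : C.e 0 = 0) (h' : C'.e 0 = 0) (ha : C'.a = -2 * C.a)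
    (hb : C'.b = C.a ^ 2 - 4 * C.b) (hN : C'.N0 = C.N0) : Iso C C' := by
  refine tia_iso C C' h h' ha hb hN fun k => ?_
  have h1 := C.hb
  rw [k, h, Int.cast_zero, zero_mul, zero_mul, zero_add, zero_add, eq_comm, mul_eq_zero, ← h,
    C.e_inj.eq_iff, C.e_inj.eq_iff] at h1
  revert h1
  decide

theorem exists_two {a b : ℤ} (hb : b ≠ 0) (hb' : a ^ 2 - 4 * b ≠ 0) (N : ℕ)
    (hN : (dsc a b 0).natAbs + 2 ≤ N) :
    ∃ C : Cu, C.a = a ∧ C.b = b ∧ C.c = 0 ∧ C.e 0 = 0 ∧ C.N0 = N := by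
  refine tia_mk ?_ hN
  rw [show dsc a b 0 = b ^ 2 * (a ^ 2 - 4 * b) by rw [dsc]; ring]
  exact mul_ne_zero (pow_ne_zero 2 hb) hb'

theorem exists_iso {a b : ℤ} (hb : b ≠ 0) (hb' : a ^ 2 - 4 * b ≠ 0) : ∃ C C' : Cu,
    C.a = a ∧ C.b = b ∧ C.c = 0 ∧ C'.a = -2 * a ∧ C'.b = a ^ 2 - 4 * b ∧ C'.c = 0 ∧ Iso C C' := by
  have d1 : dsc a b 0 ≠ 0 := by
    rw [show dsc a b 0 = b ^ 2 * (a ^ 2 - 4 * b) by rw [dsc]; ring]
    exact mul_ne_zero (pow_ne_zero 2 hb) hb'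
  have d2 : dsc (-2 * a) (a ^ 2 - 4 * b) 0 ≠ 0 := by
    rw [show dsc (-2 * a) (a ^ 2 - 4 * b) 0 = (a ^ 2 - 4 * b) ^ 2 * (16 * b) by rw [dsc]; ring]
    exact mul_ne_zero (pow_ne_zero 2 hb') (mul_ne_zero (by norm_num) hb)
  obtain ⟨C, h1, h2, h3, h4, h5⟩ := tia_mk d1
    (N := (dsc a b 0).natAbs + (dsc (-2 * a) (a ^ 2 - 4 * b) 0).natAbs + 2) (by omega)
  obtain ⟨C', k1, k2, k3, k4, k5⟩ := tia_mk d2
    (N := (dsc a b 0).natAbs + (dsc (-2 * a) (a ^ 2 - 4 * b) 0).natAbs + 2) (by omega)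
  exact ⟨C, C', h1, h2, h3, k1, k2, k3, tia_iso C C' h4 k4 (by rw [k1, h1]) (by rw [k2, h1, h2])
    (k5.trans h5.symm) (h2 ▸ hb)⟩

end Pool.Agent.SP
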