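import Pool.Agent.Lib.MP_696deb_nt.SP.TC

/-! Classes of Frobenius elements. -/

set_option autoImplicit false

open scoped Classical
open Finset

namespace Pool.Agent.SP

open Pool.Agent.Lib.MP_696deb_nt Pool.Agent.Lib.MP_696deb_nt.Sm
open Pool.Agent.Lib.MP_696deb_nt.B2 (jC cc)

theorem tj_one {t : GQ → F2} (h : Ho ⊤ t) : t 1 = 0 := by
  have e := h.2 1 trivial 1 trivial
  rwa [mul_one, hilb_self] at e

theorem tj_pow {t : GQ → F2} (h : Ho ⊤ t) (s : GQ) (j : ℕ) : t (s ^ (2 * j + 1)) = t s := by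
  rw [pow_succ, two_mul, pow_add, h.2 _ trivial _ trivial, h.2 _ trivial _ trivial, hilb_self,
    zero_add]

theorem tj_odd {k : ℕ} (h : k.Coprime 6) : Odd k :=
  Nat.coprime_two_right.1 (h.coprime_dvd_right (by norm_num))

theorem tj_move {a : ℤ} (ha : ¬ IsSquare a) : ∃ g : GQ, chi a g = 1 := by
  by_contra k
  have h1 : B2.Fx ⊤ (rt a) := fun g _ => by
    rw [chi_spec, (F2_cases (chi a g)).resolve_right fun h => k ⟨g, h⟩, sn_zero, Int.cast_one,
      one_mul]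
  obtain ⟨r, hr⟩ := B2.fx_top h1
  have h2 := rt_mul_self (a : Qb)
  rw [hr] at h2
  exact ha (Rat.isSquare_intCast_iff.1 ⟨r, by exact_mod_cast h2.symm⟩)

theorem PosD.exists {S : Set ℕ} (h : PosD S) : ∃ p, p.Prime ∧ p ∈ S := by
  obtain ⟨δ, h0, h⟩ := h
  obtain ⟨s, h1, h2⟩ := (h.and (Ioo_mem_nhdsGT one_lt_two)).exists
  by_contra k
  have h3 : ∀ p : ℕ, ¬ (p.Prime ∧ p ∈ S) := fun p hp => k ⟨p, hp⟩
  simp only [h3, if_false, tsum_zero] at h1
  have h4 : 0 < Real.log (1 / (s - 1)) :=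
    Real.log_pos (one_lt_one_div (sub_pos.2 h2.1) (by linarith [h2.2]))
  exact (mul_pos h0 h4).not_ge h1

theorem Frb.mono {U U' : Subgroup GQ} {s : GQ} {p : ℕ} (h : Frb U s p) (k : U ≤ U') :
    Frb U' s p := by
  obtain ⟨w, φ, n, h1, h2, h3, h4⟩ := h
  exact ⟨w, φ, n, h1, h2, h3, k h4⟩

/-- The chosen Frobenius element is conjugate to an element of the class, up to inertia. -/
theorem Frb.conj {U : Subgroup GQ} {s : GQ} {p : ℕ} (h : Frb U s p) (hp : p.Prime) (h2 : p ≠ 2) :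
    ∃ (g u σ : GQ) (k : ℕ), u ∈ U ∧ σ ∈ Iv p ∧ k.Coprime 6 ∧
      frb p = g * (s ^ k * u) * g⁻¹ * σ := by
  obtain ⟨w, φ, k, h1, h3, h4, h5⟩ := h
  obtain ⟨g, hg⟩ := B2.plc_conj (h1.trans (pl_p hp).symm)
  have h6 := h3.smul g
  rw [hg] at h6
  exact ⟨g, _, _, k, inv_mem h5, h6.inv_mul_mem (frb_spec hp h2).1, h4, by group⟩

/-- An open normal subgroup that is killed by all characters unramified above `N`. -/
theorem exists_ker {N : ℕ} (hN : 2 ≤ N) : ∃ U : Subgroup GQ, B2.Op U ∧ U.Normal ∧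
    ∀ u ∈ U, ∀ t ∈ Ch N, t u = 0 := by
  have := finite_Ch hN
  obtain ⟨U, h1, h2, h3⟩ := B2.Sm.pi (H := ⊤) fun t : Ch N => t.2.1.1
  refine ⟨U, h1, h2, fun u hu t ht => ?_⟩
  have h4 := congrFun (h3 1 trivial u trivial (by simpa using hu)) ⟨t, ht⟩
  exact h4.symm.trans (tj_one ht.1)

theorem Frb.ch {N : ℕ} (hN : 2 ≤ N) {U : Subgroup GQ} (hU : ∀ u ∈ U, ∀ t ∈ Ch N, t u = 0) {s : GQ}
    {p : ℕ} (h : Frb U s p) (hp : p.Prime) (hN' : N < p) : ∀ t ∈ Ch N, t (frb p) = t s := by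
  intro t ht
  have h2 : p ≠ 2 := (hN.trans_lt hN').ne'
  obtain ⟨g, u, σ, k, h1, h3, h4, e⟩ := h.conj hp h2
  have h5 : t σ = 0 := by
    obtain ⟨m, -, h6, rfl⟩ := (mem_Ch hN).1 ht
    exact chi_ine_of_not_dvd hp h2 (fun h7 => (h6 p hp h7).not_gt hN') σ h3
  have h8 := fun a b => ht.1.2 a trivial b trivial
  have h9 := h8 g g⁻¹
  rw [mul_inv_cancel, tj_one ht.1] at h9
  obtain ⟨j, rfl⟩ := tj_odd h4
  rw [e, h8, h8, h8, h8, h5, hU u h1 t ht, tj_pow ht.1]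
  linear_combination -h9

/-- Primes with the same symbols are locally equal up to squares. -/
theorem cls_loc {N : ℕ} (hN : 2 ≤ N) {ε ε' : ℤ} {l l' : ℕ} (hε : ε = 1 ∨ ε = -1)
    (hε' : ε' = 1 ∨ ε' = -1) (hl : l.Prime) (hl' : l'.Prime) (h1 : N < l) (h1' : N < l')
    (h : ∀ t ∈ Ch N, t (frb l) + chi ε cc * t cc = t (frb l') + chi ε' cc * t cc) :
    ∀ v : ℕ, v.Prime → v ≤ N → ∀ g ∈ Gv v, chi (ε * l) g = chi (ε' * l') g := by
  have l2 : l ≠ 2 := (hN.trans_lt h1).ne'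
  have l2' : l' ≠ 2 := (hN.trans_lt h1').ne'
  have key : ∀ m : ℤ, m ≠ 0 → (∀ q : ℕ, q.Prime → (q : ℤ) ∣ m → q ≤ N) →
      aleg l m + chi ε cc * chi m cc = aleg l' m + chi ε' cc * chi m cc := fun m h0 hm => by
    rw [← chi_frb hl l2 fun k => (hm l hl k).not_gt h1,
      ← chi_frb hl' l2' fun k => (hm l' hl' k).not_gt h1']
    exact h _ ((mem_Ch hN).2 ⟨m, h0, hm, rfl⟩)
  have nd : ∀ {v l : ℕ} {ε : ℤ}, v.Prime → l.Prime → v ≠ l → ε = 1 ∨ ε = -1 →
      ¬ (v : ℤ) ∣ ε * l := fun hv hl k hε =>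
    not_dvd_of_natAbs_eq hv hl k (by rcases hε with rfl | rfl <;> simp)
  intro v hv hvN g hg
  have n1 := nd hv hl (hvN.trans_lt h1).ne hε
  have n2 := nd hv hl' (hvN.trans_lt h1').ne hε'
  suffices k : chi (ε * l * (ε' * l')) g = 0 by
    rw [chi_mul (B2.b4b_ne n1) (B2.b4b_ne n2)] at k
    exact (B2.b4b_eq k).symm
  have c1 : chi (-1) cc = 1 := by rw [loc_chi_cc (by norm_num), if_neg (by norm_num)]
  by_cases v2 : v = 2
  · subst v2
    have k1 := key (-1) (by norm_num) fun q hq k => absurd k (not_dvd_of_natAbs_eq' hq)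
    have k2 := key 2 (by norm_num) fun q hq k =>
      (Nat.le_of_dvd two_pos (by exact_mod_cast k)).trans hN
    rw [chi_Gv_zero two_pos cc loc_cc_mem, mul_zero, mul_zero, add_zero, add_zero,
      hilb_sup hl l2, hilb_sup hl' l2'] at k2
    rw [hilb_neg hl l2, hilb_neg hl' l2', c1, mul_one, mul_one] at k1
    have two : ∀ {l : ℕ} {ε : ℤ}, l.Prime → l ≠ 2 → ε = 1 ∨ ε = -1 →
        ep2 (ε * l) = ep2 l + chi ε cc ∧ om2 (ε * l) = om2 l := fun {l ε} hl k hε => by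
      have k3 : ¬ (2 : ℤ) ∣ l := not_dvd_of_natAbs_eq Nat.prime_two hl (Ne.symm k) rfl
      rcases hε with rfl | rfl
      · rw [one_mul, chi_one, add_zero]
        exact ⟨rfl, rfl⟩
      · obtain ⟨k4, k5⟩ := hilb_ep (a := -1) (by decide) k3
        rw [k4, k5, c1, show ep2 (-1) = 1 by decide, show om2 (-1) = 0 by decide, zero_add,
          add_comm]
        exact ⟨rfl, rfl⟩
    obtain ⟨k3, k4⟩ := hilb_ep n1 n2
    rw [(two hl l2 hε).1, (two hl' l2' hε').1, k1, hilb_self] at k3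
    rw [(two hl l2 hε).2, (two hl' l2' hε').2, k2, hilb_self] at k4
    have k5 : (ε * l * (ε' * l')) % 4 = 1 := by
      by_contra k
      exact one_ne_zero ((if_neg k).symm.trans k3)
    have k6 : (ε * l * (ε' * l')) % 8 = 1 ∨ (ε * l * (ε' * l')) % 8 = 7 := by
      by_contra k
      exact one_ne_zero ((if_neg k).symm.trans k4)
    exact chi_Gv_two (by omega) g hg
  · have p0 : pstar v ≠ 0 := Int.natAbs_ne_zero.1 ((natAbs_pstar v).symm ▸ hv.ne_zero)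
    have k1 := key (pstar v) p0 fun q hq k =>
      (Nat.le_of_dvd hv.pos (natAbs_pstar v ▸ Int.natCast_dvd.1 k)).trans hvN
    have k2 : chi (pstar v) cc = aleg v (-1) := by
      have k3 : (0 : ℤ) < v := Int.natCast_pos.2 hv.pos
      rw [hilb_neg hv v2, loc_chi_cc p0, ep2, pstar]
      by_cases k : v % 4 = 1
      · rw [if_pos k, if_pos k3, if_pos (by omega)]
      · rw [if_neg k, if_neg (by omega), if_neg (by omega)]
    have odd : ∀ {l : ℕ} {ε : ℤ}, l.Prime → l ≠ 2 → v ≠ l → ε = 1 ∨ ε = -1 →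
        aleg v (ε * l) = aleg l (pstar v) + chi ε cc * aleg v (-1) := fun {l ε} hl k k' hε => by
      rw [aleg_pstar hl hv k v2 k'.symm]
      rcases hε with rfl | rfl
      · rw [one_mul, chi_one, zero_mul, add_zero]
      · rw [aleg_mul hv (not_dvd_of_natAbs_eq' hv) (not_dvd_of_natAbs_eq hv hl k' rfl), c1,
          one_mul, add_comm]
    refine chi_Gv_of_aleg hv v2
      (fun k => ((Nat.prime_iff_prime_int.1 hv).dvd_or_dvd k).elim n1 n2) ?_ g hg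
    rw [aleg_mul hv n1 n2, odd hl l2 (hvN.trans_lt h1).ne hε,
      odd hl' l2' (hvN.trans_lt h1').ne hε', ← k2, k1, hilb_self]

theorem cls_real {ε : ℤ} (hε : ε = 1 ∨ ε = -1) {l l' : ℕ} (hl : l.Prime) (hl' : l'.Prime) :
    ∀ g ∈ Gv 0, chi (ε * l) g = chi (ε * l') g := by
  intro g hg
  have h0 : ε ≠ 0 := by rcases hε with rfl | rfl <;> norm_num
  have h1 : (0 : ℤ) < l := Int.natCast_pos.2 hl.pos
  have h2 : (0 : ℤ) < l' := Int.natCast_pos.2 hl'.pos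
  rw [chi_mul h0 h1.ne', chi_mul h0 h2.ne', chi_Gv_zero h1 g hg, chi_Gv_zero h2 g hg]

/-- An element that moves two square roots. -/
theorem exists_both {a b : ℤ} (ha : ¬ IsSquare a) (hb : ¬ IsSquare b) :
    ∃ g : GQ, chi a g = 1 ∧ chi b g = 1 := by
  obtain ⟨g, h1⟩ := tj_move ha
  obtain ⟨k, h2⟩ := tj_move hb
  rcases F2_cases (chi b g) with h3 | h3
  · rcases F2_cases (chi a k) with h4 | h4
    · exact ⟨g * k, by rw [chi_mul_g, h1, h4, add_zero], by rw [chi_mul_g, h3, h2, zero_add]⟩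
    · exact ⟨k, h4, h2⟩
  · exact ⟨g, h1, h3⟩

/-- An open normal subgroup that fixes the two-torsion and is killed by finitely many cocycles and
by the characters. -/
theorem Cu.exists_U (C : Cu) (S : AddSubgroup (GQ → C.A)) [Finite S] (hS : ∀ a ∈ S, C.Z2 ⊤ a) :
    ∃ U : Subgroup GQ, B2.Op U ∧ U.Normal ∧ ∀ u ∈ U, C.Nn S u := by
  have := finite_Ch C.two_le_N0
  obtain ⟨U, h1, h2, h3⟩ := ((C.sm_pm ⊤).comp₂ (B2.Sm.pi fun a : S => (hS a a.2).sm)
    Prod.mk).comp₂ (B2.Sm.pi fun t : Ch C.N0 => t.2.1.1) Prod.mk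
  refine ⟨U, h1, h2, fun u hu => ?_⟩
  obtain ⟨h4, h5⟩ := Prod.mk.inj (h3 1 trivial u trivial (by simpa using hu))
  obtain ⟨h6, h7⟩ := Prod.mk.inj h4
  exact ⟨fun i => by rw [← h6, Cu.pm_one], fun t ht => (congrFun h5 ⟨t, ht⟩).symm.trans (tj_one ht.1),
    fun a ha => (congrFun h7 ⟨a, ha⟩).symm.trans (hS a ha).one⟩

/-- The value of an unramified cocycle at the chosen Frobenius element. -/
theorem Frb.val {C : Cu} {U : Subgroup GQ} {s : GQ} {p : ℕ} (h : Frb U s p) (hp : C.Gp p)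
    (hs : s ∈ C.Kpm) (hU : U ≤ C.Kpm) : frb p ∈ C.Kpm ∧ ∃ g : GQ, ∀ a : GQ → C.A, C.Z2 ⊤ a →
      a (sig p) = 0 → (∀ u ∈ U, a u = 0) → a (frb p) = C.act g (a s) := by
  obtain ⟨g, u, σ, k, h1, h2, h3, e⟩ := h.conj hp.1 hp.ne_two
  have h4 : s ^ k * u ∈ C.Kpm := mul_mem (pow_mem hs k) (hU h1)
  have h5 : g * (s ^ k * u) * g⁻¹ ∈ C.Kpm := fun i => by
    rw [Cu.pm_mul, Cu.pm_mul, h4, Cu.pm_inv]
  refine ⟨e ▸ mul_mem h5 (hp.pm_ine h2), g, fun a ha h6 h7 => ?_⟩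
  have h8 : ∀ n : ℕ, a (s ^ n) = n • a s := fun n => by
    induction n with
    | zero => rw [pow_zero, ha.one, zero_nsmul]
    | succ n ih =>
      rw [pow_succ, ha.coc _ trivial _ trivial, ih,
        Cu.act_of_pm (pow_mem hs n) (ha.two s trivial), succ_nsmul]
  obtain ⟨j, rfl⟩ := tj_odd h3
  rw [e, ha.coc _ trivial _ trivial, (ha.mono le_top).ine hp h2, h6, nsmul_zero, map_zero, add_zero,
    ha.conj trivial trivial (Cu.act_of_pm h5 (ha.two g trivial)), ha.coc _ trivial _ trivial,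
    h7 u h1, map_zero, add_zero, h8, succ_nsmul, mul_nsmul, ha.two s trivial, nsmul_zero, zero_add]

end Pool.Agent.SP
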