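import Pool.Agent.Lib.MP_696deb_nt.SP.TA

/-! Moving an alternating form by forms of rank two. -/

set_option autoImplicit false

open Finset

namespace Pool.Agent.SP

open Pool.Agent.Lib.MP_696deb_nt Pool.Agent.Lib.MP_696deb_nt.Sm
open Pool.Agent.Lib.MP_696deb_nt.B2 (jC cc)

/-- Singular matrices of size two. -/
abbrev tlS (m : (F2 × F2) × F2 × F2) : Prop := m.1.1 * m.2.2 + m.1.2 * m.2.1 = 0

set_option synthInstance.maxSize 2048 in
theorem tl_six : ∀ a, tlS a → ¬ (a.1.2 = 0 ∧ a.2.2 = 0) → ∀ b, tlS b → ¬ (b.1.1 = 0 ∧ b.2.1 = 0) →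
    tlS (a + b) → ∀ c, tlS c → ¬ (c.1.1 = c.1.2 ∧ c.2.1 = c.2.2) → tlS (a + c) → tlS (b + c) →
    ∀ d, tlS d → d.1 ≠ 0 → tlS (a + d) → tlS (b + d) → tlS (c + d) →
    ∀ e, tlS e → e.2 ≠ 0 → tlS (a + e) → tlS (b + e) → tlS (c + e) → tlS (d + e) →
    ∀ f, tlS f → f.1 ≠ f.2 → tlS (a + f) → tlS (b + f) → tlS (c + f) → tlS (d + f) →
    ¬ tlS (e + f) := by decide +kernel

open scoped Classical

section

variable {S : Type} [AddCommGroup S] {B : S →+ S →+ F2} {p q : S →+ F2}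

/-- The alternating form of two characters. -/
def tlW (p q : S →+ F2) : S →+ S →+ F2 :=
  (AddMonoidHom.mul.compl₂ q).comp p + (AddMonoidHom.mul.compl₂ p).comp q

theorem tlW_apply (a b : S) : tlW p q a b = p a * q b + q a * p b := rfl

theorem tl_mem {v : S} : v ∈ B.ker ↔ ∀ u, B v u = 0 := DFunLike.ext_iff

theorem tl_mem' {v : S} : v ∈ (B + tlW p q).ker ↔ ∀ u, B v u + (p v * q u + q v * p u) = 0 := tl_mem

theorem tl_one {t : F2} : t ≠ 0 → t = 1 := by
  revert t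
  decide

theorem tl_sym (hB : ∀ a, B a a = 0) (a b : S) : B a b = B b a := by
  have := hB (a + b)
  simp only [map_add, AddMonoidHom.add_apply, hB, zero_add, add_zero] at this
  generalize B a b = s, B b a = t at this
  revert s t
  decide

theorem tl_lt [Finite S] {K K' : AddSubgroup S} (h : K' ≤ K) {a : S} (ha : a ∈ K) (ha' : a ∉ K') :
    Nat.card K' < Nat.card K :=
  (AddSubgroup.card_le_of_le h).lt_of_ne fun e =>
    ha' (AddSubgroup.eq_of_le_of_card_ge h e.ge ▸ ha)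

theorem tl_shrink [Finite S] (hB : ∀ a, B a a = 0) {a b : S} (ha : a ∈ B.ker) (hb : b ∈ B.ker)
    (h : p a * q b + q a * p b ≠ 0) : Nat.card (B + tlW p q).ker < Nat.card B.ker := by
  refine tl_lt (fun v hv => tl_mem.2 fun u => ?_) ha fun k => h ?_
  · have h1 := tl_mem'.1 hv a
    have h2 := tl_mem'.1 hv b
    rw [tl_sym hB, tl_mem.1 ha] at h1
    rw [tl_sym hB, tl_mem.1 hb] at h2
    have : ∀ s t a b c d : F2, a * d + c * b ≠ 0 → 0 + (s * c + t * a) = 0 →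
      0 + (s * d + t * b) = 0 → s = 0 ∧ t = 0 := by decide
    obtain ⟨e1, e2⟩ := this _ _ _ _ _ _ h h1 h2
    simpa [e1, e2] using tl_mem'.1 hv u
  · simpa [tl_mem.1 ha] using tl_mem'.1 k b

theorem tl_move [Finite S] (hB : ∀ a, B a a = 0) {R : AddSubgroup S} {a : S} (ha : a ∈ B.ker ⊓ R)
    (h1 : p a = 1) (h2 : q a = 0) (h3 : q ∉ R.map B) :
    (∀ v ∈ (B + tlW p q).ker, p v = 0 → v ∈ B.ker) ∧
      Nat.card ↥((B + tlW p q).ker ⊓ R) < Nat.card ↥(B.ker ⊓ R) ∧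
      Nat.card (B + tlW p q).ker ≤ Nat.card B.ker := by
  have key : ∀ v ∈ (B + tlW p q).ker, ∀ u, B v u = p v * q u := fun v hv u => by
    have e := tl_mem'.1 hv a
    rw [tl_sym hB, tl_mem.1 ha.1, h1, h2, mul_zero, mul_one, zero_add, zero_add] at e
    have := tl_mem'.1 hv u
    rw [e, zero_mul, add_zero] at this
    exact (CharTwo.add_eq_zero.1 this)
  have k0 : ∀ v ∈ (B + tlW p q).ker, p v = 0 → v ∈ B.ker := fun v hv e =>
    tl_mem.2 fun u => by rw [key v hv, e, zero_mul]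
  have k1 : ∀ v ∈ (B + tlW p q).ker ⊓ R, p v = 0 := fun v hv => by
    by_contra e
    exact h3 ⟨v, hv.2, AddMonoidHom.ext fun u => by rw [key v hv.1, tl_one e, one_mul]⟩
  refine ⟨k0, tl_lt (fun v hv => ⟨k0 v hv.1 (k1 v hv), hv.2⟩) ha fun k =>
    one_ne_zero (h1.symm.trans (k1 a k)), ?_⟩
  by_cases e : ∀ v ∈ (B + tlW p q).ker, p v = 0
  · exact AddSubgroup.card_le_of_le fun v hv => k0 v hv (e v hv)
  push Not at e
  obtain ⟨w, hw, e⟩ := e
  have k2 : p (w + a) = 0 := by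
    rw [map_add, tl_one e, h1]
    rfl
  refine Nat.card_le_card_of_injective (fun v => if h : p v = 0 then ⟨v, k0 _ v.2 h⟩ else
    ⟨v + (w + a), tl_mem.2 fun u => ?_⟩) fun v v' k => Subtype.ext ?_
  · simp only [map_add, AddMonoidHom.add_apply, key _ v.2, key _ hw, tl_one h, tl_one e,
      tl_mem.1 ha.1, add_zero, CharTwo.add_self_eq_zero]
  · dsimp only at k
    split_ifs at k with c c' c'
    · exact Subtype.mk.inj k
    · have := congrArg (p ·.1) k
      simp only [map_add p _ (w + a), k2, add_zero] at this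
      exact absurd (this ▸ c) c'
    · have := congrArg (p ·.1) k
      simp only [map_add p _ (w + a), k2, add_zero] at this
      exact absurd (this ▸ c') c
    · exact add_right_cancel (congrArg Subtype.val k)

theorem tl_third [Finite S] {K : AddSubgroup S} (h : par (Nat.card K) = 0) {b : S} (hb : b ∈ K)
    (b0 : b ≠ 0) : ∃ a ∈ K, a ≠ 0 ∧ a ≠ b := by
  by_contra! k
  rw [(Nat.card_eq_two_iff' 0).2 ⟨⟨b, hb⟩, fun e => b0 (congrArg Subtype.val e),
    fun y hy => Subtype.ext (k _ y.2 fun e => hy (Subtype.ext e))⟩, par_two] at h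
  exact one_ne_zero h

theorem tl_pick [Finite S] {G : Type} [Group G] {p q : G → S →+ F2}
    (hp : ∀ g h, p (g * h) = p g + p h) (hq : ∀ g h, q (g * h) = q g + q h) {x R : AddSubgroup S}
    (hx : ∀ a, a ∈ x ↔ ∀ g, q g a = 0) (hR : Nat.card R * Nat.card x ≤ Nat.card S) {a : S}
    (ha : a ∈ B.ker ⊓ R) (a0 : ¬ ∀ g, p g a = 0) : ∃ g, p g a = 1 ∧ q g ∉ R.map B := by
  have two : ∀ f : S →+ F2, f + f = 0 := fun f =>
    AddMonoidHom.ext fun u => CharTwo.add_self_eq_zero (f u)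
  have fin : Finite (S →+ F2) := .of_injective _ DFunLike.coe_injective
  let Q : AddSubgroup (S →+ F2) :=
    { carrier := Set.range q
      add_mem' := fun ⟨g, e⟩ ⟨h, e'⟩ => ⟨g * h, by rw [hq, e, e']⟩
      zero_mem' := ⟨1 * 1, by rw [hq, two]⟩
      neg_mem' := fun {f} h => by rwa [neg_eq_of_add_eq_zero_left (two f)] }
  obtain ⟨g, hg⟩ : ∃ g, q g ∉ R.map B := by
    by_contra! k
    have c1 : Nat.card Q ≤ Nat.card (R.map B) :=
      AddSubgroup.card_le_of_le fun _ ⟨g, e⟩ => e ▸ k g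
    have c2 := AddSubgroup.card_eq_card_quotient_mul_card_addSubgroup (B.comp R.subtype).ker
    rw [Nat.card_congr (QuotientAddGroup.quotientKerEquivRange _).toEquiv, ← AddMonoidHom.map_range,
      AddSubgroup.range_subtype] at c2
    have c3 : 1 < Nat.card (B.comp R.subtype).ker := Finite.one_lt_card_iff_nontrivial.2
      ⟨⟨⟨a, ha.2⟩, ha.1⟩, 0, fun e => a0 fun g => by
        rw [show a = 0 from congrArg (·.1.1) e, map_zero]⟩
    let ev : S →+ Q →+ F2 := Q.subtype.flip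
    have c4 := AddSubgroup.card_eq_card_quotient_mul_card_addSubgroup ev.ker
    have c5 : ev.ker = x := AddSubgroup.ext fun u => DFunLike.ext_iff.trans
      ⟨fun h => (hx u).2 fun g => h ⟨_, g, rfl⟩, fun h ⟨_, g, e⟩ => e ▸ (hx u).1 h g⟩
    have fin' : Finite (Q →+ F2) := .of_injective _ DFunLike.coe_injective
    have c6 : Nat.card ev.range ≤ Nat.card (Q →+ F2) := AddSubgroup.card_le_card_addGroup _
    have c7 := card_ann (S := Q) (fun f => Subtype.ext (two f)) ⊥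
    rw [AddSubgroup.card_bot, mul_one, Nat.card_congr (Equiv.subtypeUnivEquiv fun f u hu => by
      rw [AddSubgroup.mem_bot.1 hu, map_zero])] at c7
    rw [Nat.card_congr (QuotientAddGroup.quotientKerEquivRange _).toEquiv, c5] at c4
    have c8 := Nat.card_pos (α := x)
    have c9 := Nat.card_pos (α := R.map B)
    have := Nat.le_of_mul_le_mul_right (hR.trans c4.le) c8
    nlinarith
  obtain ⟨g', hg'⟩ := not_forall.1 a0
  by_cases e : p g a = 0
  · by_cases e' : q g' ∈ R.map B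
    · refine ⟨g * g', by rw [hp, AddMonoidHom.add_apply, e, zero_add, tl_one hg'], fun k => hg ?_⟩
      rwa [hq, AddSubgroup.add_mem_cancel_right _ e'] at k
    · exact ⟨g', tl_one hg', e'⟩
  · exact ⟨g, tl_one e, hg⟩

end

theorem tl_la3 {S G : Type} [AddCommGroup S] [Finite S] [Group G] (p q : G → S →+ F2)
    (hp : ∀ g h, p (g * h) = p g + p h) (hq : ∀ g h, q (g * h) = q g + q h)
    (h1 : ∀ a, (∀ g, p g a = 0) → (∀ g, q g a = 0) → a = 0)
    (B : S →+ S →+ F2) (hB : ∀ a, B a a = 0) (he : par (Nat.card S) = 0)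
    (x R : Fin 3 → AddSubgroup S) (hx0 : ∀ a, a ∈ x 0 ↔ ∀ g, q g a = 0)
    (hx1 : ∀ a, a ∈ x 1 ↔ ∀ g, p g a = 0) (hx2 : ∀ a, a ∈ x 2 ↔ ∀ g, p g a = q g a)
    (hR : ∀ i, Nat.card (R i) * Nat.card (x i) ≤ Nat.card S) :
    ∃ l : List G, ∀ a, (∀ i, a ∈ x i → a ∈ R i) →
      (∀ b, B a b = (l.map fun g => p g a * q g b + q g a * p g b).sum) → a = 0 := by
  let F : List G → S →+ S →+ F2 := fun l => l.foldr (fun g C => C + tlW (p g) (q g)) B
  have hF : ∀ l a b, F l a b = B a b + (l.map fun g => p g a * q g b + q g a * p g b).sum :=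
    fun l a b => by
      induction l with
      | nil => exact (add_zero _).symm
      | cons g l ih =>
        rw [List.map_cons, List.sum_cons, add_comm _ (List.sum _), ← add_assoc, ← ih]
        rfl
  have alt : ∀ l a, F l a a = 0 := fun l a => by
    induction l with
    | nil => exact hB a
    | cons g l ih =>
      change F l a a + (p g a * q g a + q g a * p g a) = 0
      rw [ih, mul_comm, CharTwo.add_self_eq_zero, add_zero]
  have ev := fun l => (alt_par _ (alt l)).trans he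
  have dis : ∀ i j a, a ≠ 0 → a ∈ x i → a ∈ x j → i = j := fun i j a a0 hi hj => by
    have d1 : a ∈ x 0 → a ∉ x 1 := fun h k => a0 (h1 a ((hx1 a).1 k) ((hx0 a).1 h))
    have d2 : a ∈ x 0 → a ∉ x 2 := fun h k =>
      a0 (h1 a (fun g => ((hx2 a).1 k g).trans ((hx0 a).1 h g)) ((hx0 a).1 h))
    have d3 : a ∈ x 1 → a ∉ x 2 := fun h k =>
      a0 (h1 a ((hx1 a).1 h) fun g => ((hx2 a).1 k g).symm.trans ((hx1 a).1 h g))
    fin_cases i <;> fin_cases j
    exacts [rfl, absurd hj (d1 hi), absurd hj (d2 hi), absurd hi (d1 hj), rfl, absurd hj (d3 hi),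
      absurd hi (d2 hj), absurd hi (d3 hj), rfl]
  obtain ⟨l₀, -, m₀⟩ := (measure fun l => Nat.card (F l).ker).wf.has_min Set.univ ⟨[], trivial⟩
  have cls : ∀ l, Nat.card (F l).ker ≤ Nat.card (F l₀).ker → ∀ b ∈ (F l).ker, b ≠ 0 →
      ∃ i, (F l).ker ≤ x i := fun l m₁ b hb b0 => by
    have pair : ∀ a ∈ (F l).ker, a ≠ 0 → a ≠ b → ∃ i, a ∈ x i ∧ b ∈ x i := fun a ha a0 ab => by
      by_contra k
      let m : G → (F2 × F2) × F2 × F2 := fun g => ((p g a, q g a), p g b, q g b)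
      have i : ∀ g, tlS (m g) := fun g => by
        by_contra k
        exact m₀ (g :: l) trivial ((tl_shrink (alt l) ha hb k).trans_le m₁)
      have j : ∀ g h, tlS (m g + m h) := fun g h => by
        have := i (g * h)
        simp only [m, hp, hq] at this
        exact this
      obtain ⟨g₁, e₁⟩ := not_forall.1 fun e : ∀ g, q g a = 0 ∧ q g b = 0 =>
        k ⟨0, (hx0 a).2 fun g => (e g).1, (hx0 b).2 fun g => (e g).2⟩
      obtain ⟨g₂, e₂⟩ := not_forall.1 fun e : ∀ g, p g a = 0 ∧ p g b = 0 =>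
        k ⟨1, (hx1 a).2 fun g => (e g).1, (hx1 b).2 fun g => (e g).2⟩
      obtain ⟨g₃, e₃⟩ := not_forall.1 fun e : ∀ g, p g a = q g a ∧ p g b = q g b =>
        k ⟨2, (hx2 a).2 fun g => (e g).1, (hx2 b).2 fun g => (e g).2⟩
      obtain ⟨g₄, e₄⟩ := not_forall.1 fun e : ∀ g, (m g).1 = 0 =>
        a0 (h1 a (fun g => congrArg Prod.fst (e g)) fun g => congrArg Prod.snd (e g))
      obtain ⟨g₅, e₅⟩ := not_forall.1 fun e : ∀ g, (m g).2 = 0 =>
        b0 (h1 b (fun g => congrArg Prod.fst (e g)) fun g => congrArg Prod.snd (e g))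
      obtain ⟨g₆, e₆⟩ := not_forall.1 fun e : ∀ g, (m g).1 = (m g).2 =>
        ab (sub_eq_zero.1 (h1 _ (fun g => (map_sub ..).trans (sub_eq_zero.2 (congrArg Prod.fst (e g))))
          fun g => (map_sub ..).trans (sub_eq_zero.2 (congrArg Prod.snd (e g)))))
      exact tl_six _ (i g₁) e₁ _ (i g₂) e₂ (j _ _) _ (i g₃) e₃ (j _ _) (j _ _) _ (i g₄) e₄ (j _ _)
        (j _ _) (j _ _) _ (i g₅) e₅ (j _ _) (j _ _) (j _ _) (j _ _) _ (i g₆) e₆ (j _ _) (j _ _)
        (j _ _) (j _ _) (j _ _)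
    obtain ⟨a, ha, a0, ab⟩ := tl_third (ev l) hb b0
    obtain ⟨i, -, hi⟩ := pair a ha a0 ab
    refine ⟨i, fun c hc => ?_⟩
    rcases eq_or_ne c 0 with rfl | c0
    · exact zero_mem _
    rcases eq_or_ne c b with rfl | cb
    · exact hi
    obtain ⟨j, h, hj⟩ := pair c hc c0 cb
    exact dis j i b b0 hj hi ▸ h
  let A : Set S := {a | ∀ i, a ∈ x i → a ∈ R i}
  have hA : ∀ (K : AddSubgroup S) i, K ≤ x i → Nat.card ↥((K : Set S) ∩ A) = Nat.card ↥(K ⊓ R i) :=
    fun K i h => congrArg (fun s : Set S => Nat.card s) (Set.ext fun a =>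
      (⟨fun k => ⟨k.1, k.2 i (h k.1)⟩, fun k => ⟨k.1, fun j hj => by
        rcases eq_or_ne a 0 with rfl | a0
        exacts [zero_mem _, dis i j a a0 (h k.1) hj ▸ k.2]⟩⟩ :
        a ∈ (K : Set S) ∩ A ↔ a ∈ (K ⊓ R i : AddSubgroup S)))
  obtain ⟨l, m₁, m₂⟩ := (measure fun l => Nat.card ↥(((F l).ker : Set S) ∩ A)).wf.has_min
    {l | Nat.card (F l).ker ≤ Nat.card (F l₀).ker} ⟨l₀, le_refl (Nat.card (F l₀).ker)⟩
  refine ⟨l, fun a k1 k2 => ?_⟩
  by_contra a0
  have ha : a ∈ (F l).ker := tl_mem.2 fun u => by rw [hF, k2, CharTwo.add_self_eq_zero]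
  obtain ⟨i, hK⟩ := cls l m₁ a ha a0
  have ha' : a ∈ (F l).ker ⊓ R i := ⟨ha, k1 i (hK ha)⟩
  obtain ⟨P, Q, hP, hQ, hW, hx, hn⟩ : ∃ P Q : G → S →+ F2, (∀ g h, P (g * h) = P g + P h) ∧
      (∀ g h, Q (g * h) = Q g + Q h) ∧ (∀ g, tlW (P g) (Q g) = tlW (p g) (q g)) ∧
      (∀ a, a ∈ x i ↔ ∀ g, Q g a = 0) ∧ ¬ ∀ g, P g a = 0 := by
    have := hK ha
    fin_cases i
    · exact ⟨p, q, hp, hq, fun _ => rfl, hx0, fun e => a0 (h1 a e ((hx0 a).1 this))⟩
    · exact ⟨q, p, hq, hp, fun _ => add_comm _ _, hx1, fun e => a0 (h1 a ((hx1 a).1 this) e)⟩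
    · refine ⟨p, p + q, hp, fun g h => ?_, fun g => ?_, fun a => (hx2 a).trans
        (forall_congr' fun g => CharTwo.add_eq_zero.symm),
        fun e => a0 (h1 a e fun g => ((hx2 a).1 this g).symm.trans (e g))⟩
      · simp only [Pi.add_apply, hp, hq, add_add_add_comm]
      · ext u v
        simp only [tlW_apply, Pi.add_apply, AddMonoidHom.add_apply]
        linear_combination CharTwo.add_self_eq_zero (p g u * p g v)
  obtain ⟨g, k3, k4⟩ := tl_pick hP hQ hx (hR i) ha' hn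
  obtain ⟨t1, t2, t3⟩ := tl_move (alt l) ha' k3 ((hx a).1 (hK ha) g) k4
  rw [hW] at t1 t2 t3
  refine m₂ (g :: l) (t3.trans m₁) ?_
  change Nat.card ↥(((F (g :: l)).ker : Set S) ∩ A) < Nat.card ↥(((F l).ker : Set S) ∩ A)
  rw [hA _ i hK, hA _ i fun b hb => ?_]
  · exact t2
  rcases eq_or_ne b 0 with rfl | b0
  · exact zero_mem _
  obtain ⟨j, hj⟩ := cls (g :: l) (t3.trans m₁) b hb b0
  obtain ⟨c, hc, c0, cb⟩ := tl_third (ev (g :: l)) hb b0
  obtain ⟨d, hd, d0, e⟩ : ∃ d ∈ (F (g :: l)).ker, d ≠ 0 ∧ P g d = 0 := by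
    by_cases e : P g b = 0
    · exact ⟨b, hb, b0, e⟩
    by_cases e' : P g c = 0
    · exact ⟨c, hc, c0, e'⟩
    exact ⟨c - b, sub_mem hc hb, sub_ne_zero.2 cb, by rw [map_sub, tl_one e, tl_one e', sub_self]⟩
  exact dis j i d d0 (hj hd) (hK (t1 d hd e)) ▸ hj hb

theorem la2 {S G : Type} [AddCommGroup S] [Finite S] [Group G] (p q : G → S →+ F2)
    (hp : ∀ g h, p (g * h) = p g + p h) (hq : ∀ g h, q (g * h) = q g + q h)
    (h1 : ∀ a, (∀ g, p g a = 0) → a = 0) (h2 : ∀ a, (∀ g, p g a = q g a) → a = 0)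
    (B : S →+ S →+ F2) (hB : ∀ a, B a a = 0) (he : par (Nat.card S) = 0)
    (x R : AddSubgroup S) (hx : ∀ a, a ∈ x ↔ ∀ g, q g a = 0)
    (hR : Nat.card R * Nat.card x ≤ Nat.card S) :
    ∃ l : List G, ∀ a, (a ∈ x → a ∈ R) →
      (∀ b, B a b = (l.map fun g => p g a * q g b + q g a * p g b).sum) → a = 0 := by
  obtain ⟨l, hl⟩ := tl_la3 p q hp hq (fun a e _ => h1 a e) B hB he ![x, ⊥, ⊥] ![R, ⊥, ⊥] hx
    (fun a => ⟨fun e g => by rw [AddSubgroup.mem_bot.1 e, map_zero], h1 a⟩)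
    (fun a => ⟨fun e g => by rw [AddSubgroup.mem_bot.1 e, map_zero, map_zero], h2 a⟩) fun i => by
      fin_cases i
      exacts [hR, by simpa using Nat.succ_le_of_lt Nat.card_pos,
        by simpa using Nat.succ_le_of_lt Nat.card_pos]
  refine ⟨l, fun a k => hl a fun i => ?_⟩
  fin_cases i
  exacts [k, id, id]

end Pool.Agent.SP
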