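import Pool.Agent.Lib.MP_696deb_nt.SP.TL

/-! Moving an alternating form by forms of rank two: three lines. -/

set_option autoImplicit false

open scoped Classical
open Finset

namespace Pool.Agent.SP

open Pool.Agent.Lib.MP_696deb_nt Pool.Agent.Lib.MP_696deb_nt.Sm
open Pool.Agent.Lib.MP_696deb_nt.B2 (jC cc)

theorem la3 {S G : Type} [AddCommGroup S] [Finite S] [Group G] (p q : G → S →+ F2)
    (hp : ∀ g h, p (g * h) = p g + p h) (hq : ∀ g h, q (g * h) = q g + q h)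
    (h1 : ∀ a, (∀ g, p g a = 0) → (∀ g, q g a = 0) → a = 0)
    (B : S →+ S →+ F2) (hB : ∀ a, B a a = 0) (he : par (Nat.card S) = 0)
    (x R : Fin 3 → AddSubgroup S) (hx0 : ∀ a, a ∈ x 0 ↔ ∀ g, q g a = 0)
    (hx1 : ∀ a, a ∈ x 1 ↔ ∀ g, p g a = 0) (hx2 : ∀ a, a ∈ x 2 ↔ ∀ g, p g a = q g a)
    (hR : ∀ i, Nat.card (R i) * Nat.card (x i) ≤ Nat.card S) :
    ∃ l : List G, ∀ a, (∀ i, a ∈ x i → a ∈ R i) →
      (∀ b, B a b = (l.map fun g => p g a * q g b + q g a * p g b).sum) → a = 0 :=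
  tl_la3 p q hp hq h1 B hB he x R hx0 hx1 hx2 hR

end Pool.Agent.SP
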