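import Pool.Agent.Lib.MP_696deb_nt.SP.TM
import Pool.Agent.Lib.MP_696deb_nt.Height

/-! The descent theorem for twists. -/

set_option autoImplicit false

open scoped Classical
open Finset

namespace Pool.Agent.SP

open Pool.Agent.Lib.MP_696deb_nt Pool.Agent.Lib.MP_696deb_nt.Sm
open Pool.Agent.Lib.MP_696deb_nt.B2 (jC cc)

theorem tmb_ell (C : Cu) {D : ℤ} (hD : D ≠ 0) : (Tw C.a C.b C.c D).IsElliptic := by
  have h : (Tw C.a C.b C.c D).Δ = 16 * (D : ℚ) ^ 6 * (dsc C.a C.b C.c : ℤ) := by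
    simp only [Tw, dsc, WeierstrassCurve.Δ, WeierstrassCurve.b₂, WeierstrassCurve.b₄,
      WeierstrassCurve.b₆, WeierstrassCurve.b₈]
    push_cast
    ring
  refine ⟨isUnit_iff_ne_zero.2 ?_⟩
  rw [h]
  exact mul_ne_zero (mul_ne_zero (by norm_num) (pow_ne_zero _ (Int.cast_ne_zero.2 hD)))
    (Int.cast_ne_zero.2 C.ne)

/-- The descent theorem. -/
theorem Cu.Kz.fin {C : Cu} {D : ℤ} (hD : D ≠ 0) (h : C.Kz D) :
    Finite (Tw C.a C.b C.c D).toAffine.Point := by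
  obtain ⟨f, hf, hr⟩ := exists_phi C D hD
  have := tmb_ell C hD
  obtain ⟨k, h⟩ := h
  have z : ∀ {P}, P ∈ C.Rat D ↔ ∀ g, C.cob D P g = 0 := forall_congr' fun g => sub_eq_zero.symm
  refine finite_point_of_two_divisible_mod_torsion _ fun P => ?_
  obtain ⟨Q, hQ⟩ := C.exists_div (k + 1) (f P)
  have h0 : ∀ g, 2 ^ (k + 1) • C.cob D Q g = 0 := fun g => by
    rw [← Pi.smul_apply, ← C.cob_nsmul, hQ]
    exact z.1 (hr ▸ ⟨P, rfl⟩) g
  obtain ⟨S, m, h1, h2⟩ := h (k + 1) (C.cob D Q)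
    ⟨h0, C.cob_mul D Q, C.lc_cob D Q, fun v _ => C.loc_cob v D Q⟩
  obtain ⟨R, hR⟩ : 2 ^ k • Q - S ∈ f.range := hr ▸ z.2 fun g => by
    rw [Cu.cob_sub, C.cob_nsmul, Pi.sub_apply, Pi.smul_apply, h2, sub_self]
  refine ⟨P - 2 • R, R, isOfFinAddOrder_iff_nsmul_eq_zero.2 ⟨2 ^ m, by positivity, hf ?_⟩,
    (sub_add_cancel _ _).symm⟩
  rw [map_nsmul, map_sub, map_nsmul, hR, ← hQ, smul_sub 2, smul_smul, ← pow_succ', sub_sub_cancel,
    smul_comm, h1, smul_zero, map_zero]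

end Pool.Agent.SP
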