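import Pool.Agent.Lib.MP_696deb_nt.SP.TW

/-! The two types of primes. -/

set_option autoImplicit false

open scoped Classical
open Finset

namespace Pool.Agent.SP

open Pool.Agent.Lib.MP_696deb_nt Pool.Agent.Lib.MP_696deb_nt.Sm
open Pool.Agent.Lib.MP_696deb_nt.B2 (jC cc)

section aux

variable {C : Cu} {ε : ℤ} {l q : ℕ} {a : GQ → C.A}

theorem tt_abs (hε : ε = 1 ∨ ε = -1) (l : ℕ) : (ε * l).natAbs = l := by
  rcases hε with rfl | rfl <;> simp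

theorem tt_ne (hε : ε = 1 ∨ ε = -1) (hl : l.Prime) : ε * l ≠ 0 := fun e =>
  hl.ne_zero (by rw [← tt_abs hε l, e, Int.natAbs_zero])

theorem tt_nd (hε : ε = 1 ∨ ε = -1) (hl : l.Prime) (hq : q.Prime) (h : q ≠ l) :
    ¬ (q : ℤ) ∣ ε * l := fun e =>
  h ((Nat.prime_dvd_prime_iff_eq hq hl).1 (tt_abs hε l ▸ Int.natCast_dvd.1 e))

theorem tt_sig (h : C.e 0 = 0) (hε : ε = 1 ∨ ε = -1) (hl : C.Gp l) :
    C.dT (ε * l) (sig l) = C.T 0 := by
  rw [Cu.dT_sig h hl (tt_ne hε hl.1), padicValInt, tt_abs hε, padicValNat.self hl.1.one_lt,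
    Nat.cast_one, ZMod.val_one, one_nsmul]

/-- The value of a class at the Frobenius element of the prime. -/
theorem tt_val (h : C.e 0 = 0) (hε : ε = 1 ∨ ε = -1) (hl : C.Gp l) (ha : a ∈ C.Sh (ε * l)) :
    a (frb l) = 0 ∨ a (frb l) = C.T 0 := by
  have h1 := Cu.bv_recip ha.1.1 (Cu.z2_dT h ⊤ (ε * l)) {l} (fun v hv => mem_singleton.1 hv ▸ hl)
    fun q hq k => ⟨ha.1.2 q hq, by
      rw [Cu.dT_sig h hq (tt_ne hε hl.1),
        padicValInt.eq_zero_of_not_dvd (tt_nd hε hl.1 hq.1 (notMem_singleton.1 k)), Nat.cast_zero,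
        ZMod.val_zero, zero_nsmul]⟩
  rw [sum_singleton, Cu.Bv_tame hl (ha.1.1.mono le_top) (Cu.z2_dT h _ _) (ha.1.2 l hl),
    tt_sig h hε hl, sum_eq_zero fun v hv => Cu.bv_iso (C.bd_iff.2 hv).pv (ha.1.1.mono le_top)
      (Cu.z2_dT h _ _) (ha.2 v (C.bd_iff.2 hv)) (Cu.loc_dT v _)] at h1
  exact (C.ep_T_eq_zero 0).1 h1

theorem tt_w (h : C.e 0 = 0) (D : ℤ) : C.io (chi C.bb) ∈ C.Sh D :=
  ⟨⟨Cu.z2_io h (ho_chi ⊤ _), fun q hq => by
    rw [Cu.io, (Cu.two_ch h).2.2 q hq.1 hq.2, ZMod.val_zero, zero_nsmul]⟩,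
    fun v _ => Cu.xl_bb h v D⟩

/-- Classes that are unramified at the prime. -/
theorem tt_sh (hε : ε = 1 ∨ ε = -1) (hl : l.Prime) (ha : C.IsSel (ε * l) 1 a)
    (hs : a (sig l) = 0) : a ∈ C.Sh (ε * l) := by
  refine ⟨⟨ha.z2, fun q hq => ?_⟩, fun v hv => ha.loc v hv.pv⟩
  rcases eq_or_ne q l with rfl | k
  · exact hs
  · exact Cu.loc_good hq (tt_nd hε hl hq.1 k) ha.tors (ha.loc q (.inr hq.1))

theorem tt_sub {D : ℤ} (ha : C.IsSel D 1 a) {R : C.A} (h : C.Z2 ⊤ (C.cob D R)) :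
    C.IsSel D 1 (a - C.cob D R) :=
  ha.sub R fun g => (ha.z2.sub h).two g trivial

theorem tt_four {T : C.A} (h : 2 • T = 0) : 4 • C.hf T = 0 := by
  rw [show 4 = 2 * 2 from rfl, mul_smul, Cu.two_hf, h]

theorem tt_half (h : C.e 0 = 0) (hε : ε = 1 ∨ ε = -1) (hl : C.Gp l) (hf : chi C.bb (frb l) = 1)
    (ha : C.IsSel (ε * l) 1 a) : ∃ R : C.A, 4 • R = 0 ∧ a - C.cob (ε * l) R ∈ C.Sh (ε * l) := by
  rcases (ha.z2.mono le_top).sig_ty hl with e | ⟨i, hi, e⟩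
  · refine ⟨0, smul_zero _, ?_⟩
    rw [← zero_nsmul (0 : C.A), Cu.cob_nsmul, zero_nsmul, sub_zero]
    exact tt_sh hε hl.1 ha e
  have h2 : C.pm (frb l) 0 = 0 := C.T_inj (by rw [← Cu.act_T, Cu.act_T0 h])
  have h3 : C.pm (frb l) 1 ≠ 1 := fun k => C.T_ne 0 (by
    have := Cu.act_T1 h (frb l)
    rw [Cu.act_T, k, sub_self, Cu.io, hf, ZMod.val_one, one_nsmul] at this
    exact this.symm)
  have h4 : i = 0 := by
    have e3 : ∀ f : Fin 3 → Fin 3, Function.Injective f → f 0 = 0 → f 1 ≠ 1 → ∀ i, f i = i →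
        i = 0 := by decide
    exact e3 _ (C.pm_inj _) h2 h3 i hi
  subst h4
  exact ⟨C.hf (C.T 0), tt_four (C.two_T 0), tt_sh hε hl.1 (tt_sub ha (Cu.z2_dT h ⊤ _))
    (sub_eq_zero.2 (e.trans (tt_sig h hε hl).symm))⟩

end aux

/-- Primes that are inert in the field of the two-torsion. -/
theorem type_T (core : CoreStmt) (mw : MWStmt) {C C' : Cu} (h : Iso C C') {ε : ℤ} {l : ℕ}
    (hε : ε = 1 ∨ ε = -1) (hl : C.Gp l) (hf : chi C.bb (frb l) = 1)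
    (he : par (Nat.card (C.Sh (ε * l))) = 1)
    (hR : Nat.card (C'.RY (ε * l)) ≤ Nat.card (C.RY (ε * l))) : GoalF C.a C.b C.c := by
  have h0 : C.e 0 = 0 := by
    obtain ⟨_, _, k, -⟩ := h
    exact k.two
  let S : AddSubgroup (GQ → C.A) :=
    C.Sh (ε * l) ⊓ (Pi.evalAddMonoidHom (fun _ : GQ => C.A) (frb l)).ker
  have hS : ∀ a, a ∈ S ↔ a ∈ C.Sh (ε * l) ∧ a (frb l) = 0 := fun a => Iff.rfl
  have hle : S ≤ C.Sh (ε * l) := inf_le_left
  have hw := tt_w h0 (ε * l)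
  have hw1 : C.io (chi C.bb) (frb l) = C.T 0 := by rw [Cu.io, hf, ZMod.val_one, one_nsmul]
  have key : ∀ a ∈ C.Sh (ε * l), Xor (a + C.io (chi C.bb) ∈ S) (a ∈ S) := fun a ha => by
    rw [hS, hS, Pi.add_apply, hw1]
    rcases tt_val h0 hε hl ha with e | e
    · exact .inr ⟨⟨ha, e⟩, fun k => C.T_ne 0 (by simpa [e] using k.2)⟩
    · exact .inl ⟨⟨add_mem ha hw, by rw [e, C.T_add_self]⟩, fun k => C.T_ne 0 (e.symm.trans k.2)⟩
  have hfin := (Cu.card_Sh h0 (ε * l)).1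
  have hfS : Finite S := Finite.of_injective _ (AddSubgroup.inclusion_injective hle)
  refine last core mw h hε hl S hle (fun a ha => ha.2) hf (fun a ha => ha.2) ?_ ?_ ?_
  · have h1 : (S.addSubgroupOf (C.Sh (ε * l))).index = 2 :=
      AddSubgroup.index_eq_two_iff.2 ⟨⟨_, hw⟩, fun b => key b.1 b.2⟩
    have h2 := (S.addSubgroupOf (C.Sh (ε * l))).card_mul_index
    rw [h1, Nat.card_congr (AddSubgroup.addSubgroupOfEquivOfLe hle).toEquiv] at h2
    rw [← h2, par_mul Nat.card_pos.ne' two_ne_zero, par_two] at he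
    exact add_eq_right.1 he
  · let ν : S →+ GQ → F2 := AddMonoidHom.mk' (fun a => C.nu a) fun a b => funext fun g =>
      C.nu_add (a.2.1.1.1.two g trivial) (b.2.1.1.1.two g trivial)
    have h1 : ν.range = C.RY (ε * l) := by
      refine le_antisymm (fun _ ⟨a, e⟩ => ⟨a, a.2.1, e⟩) ?_
      rintro _ ⟨a, ha, rfl⟩
      rcases key a ha with k | k
      · refine ⟨⟨_, k.1⟩, funext fun g => ?_⟩
        exact (C.nu_add (ha.1.1.two g trivial) (hw.1.1.two g trivial)).trans (by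
          rw [Cu.nu_io, Pi.zero_apply, add_zero])
      · exact ⟨⟨_, k.1⟩, rfl⟩
    have h2 := ν.ker.card_mul_index
    rw [AddSubgroup.index_ker, h1, mul_comm] at h2
    exact (Nat.mul_le_mul_right _ hR).trans h2.le
  · intro u hu
    obtain ⟨U, u1, u2, u3⟩ := exists_ker C.two_le_N0
    refine ⟨U, C.N0, u1, u2, fun p hp hN hF a ha => ?_⟩
    have h1 : ∀ t ∈ Ch C.N0, t (frb p) = t (frb l) := fun t ht => by
      rw [hF.ch C.two_le_N0 u3 hp hN t ht, ht.1.2 _ trivial _ trivial, hu.2.1 t ht, add_zero]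
    have h2 : C.Sh (ε * p) = C.Sh (ε * l) := (Cu.Sh_congr fun v hv => by
      rcases hv with rfl | hv
      · exact cls_real hε hp hl.1
      · exact cls_loc C.two_le_N0 hε hε hp hl.1 hN hl.2 (fun t ht => by rw [h1 t ht]) v hv.1
          hv.2).1
    obtain ⟨R, q1, q2⟩ := tt_half h0 hε ⟨hp, hN⟩ ((h1 _ (Cu.two_ch h0).2).trans hf) ha
    rcases key _ (h2 ▸ q2) with k | k
    · refine ⟨R - C.T 1, by rw [smul_sub, q1, show 4 = 2 * 2 from rfl, mul_smul, C.two_T,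
        smul_zero, sub_zero], ?_⟩
      have e : C.cob (ε * p) (C.T 1) = C.io (chi C.bb) := funext fun g => by
        rw [Cu.cob, C.tw_two _ g (C.two_T 1), Cu.act_T1 h0]
      rw [Cu.cob_sub, e, ← sub_add]
      exact k.1
    · exact ⟨R, q1, k.1⟩

end Pool.Agent.SP
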