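import Pool.Agent.Lib.MP_696deb_nt.SP.TI
import Pool.Agent.Lib.MP_696deb_nt.SP.TJ
import Pool.Agent.Lib.MP_696deb_nt.SP.TL
import Pool.Agent.Lib.MP_696deb_nt.SP.TH

/-! The last step: no class lifts. -/

set_option autoImplicit false

open scoped Classical
open Finset

namespace Pool.Agent.SP

open Pool.Agent.Lib.MP_696deb_nt Pool.Agent.Lib.MP_696deb_nt.Sm
open Pool.Agent.Lib.MP_696deb_nt.B2 (jC cc)

theorem tw_add {C : Cu} {a : GQ → C.A} (ha : C.Z2 ⊤ a) {g : GQ} (hg : g ∈ C.Kpm) (k : GQ) :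
    a (g * k) = a g + a k := by
  rw [ha.coc g trivial k trivial, Cu.act_of_pm hg (ha.two k trivial)]

theorem tw_nn_one (C : Cu) {S : AddSubgroup (GQ → C.A)} (hS : ∀ a ∈ S, C.Z2 ⊤ a) : C.Nn S 1 :=
  ⟨one_mem _, fun t ht => by simpa using ht.1.2 1 trivial 1 trivial, fun a ha => (hS a ha).one⟩

theorem tw_nn_mul {C : Cu} {S : AddSubgroup (GQ → C.A)} (hS : ∀ a ∈ S, C.Z2 ⊤ a) {u u' : GQ}
    (h : C.Nn S u) (h' : C.Nn S u') : C.Nn S (u * u') :=
  ⟨mul_mem h.1 h'.1, fun t ht => by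
    rw [ht.1.2 u trivial u' trivial, h.2.1 t ht, h'.2.1 t ht, add_zero], fun a ha => by
    rw [tw_add (hS a ha) h.1, h.2.2 a ha, h'.2.2 a ha, add_zero]⟩

theorem tw_nn_sq {C : Cu} {S : AddSubgroup (GQ → C.A)} (hS : ∀ a ∈ S, C.Z2 ⊤ a) {g : GQ}
    (h : g ∈ C.Kpm) : C.Nn S (g * g) :=
  ⟨mul_mem h h, fun t ht => by rw [ht.1.2 g trivial g trivial, CharTwo.add_self_eq_zero],
    fun a ha => by rw [tw_add (hS a ha) h, ← two_nsmul, (hS a ha).two g trivial]⟩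

/-- Products of squares of elements that fix the two-torsion. -/
theorem Cu.nn_list (C : Cu) {S : AddSubgroup (GQ → C.A)} (hS : ∀ a ∈ S, C.Z2 ⊤ a)
    (l : List C.Kpm) : C.Nn S (l.map fun g => g.1 * g.1).prod := by
  induction l with
  | nil => exact tw_nn_one C hS
  | cons g l ih =>
    rw [List.map_cons, List.prod_cons]
    exact tw_nn_mul hS (tw_nn_sq hS g.2) ih

/-- Reduction to the subgroup that fixes the two-torsion. -/
theorem tw_red {C : Cu} (h : C.e 0 = 0) {s : GQ} (hs : chi C.bb s = 1) (g : GQ) :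
    ∃ k ∈ C.Kpm, ∀ a, C.Z2 ⊤ a → a s = 0 → a g = a k := by
  rcases F2_cases (chi C.bb g) with e | e
  · exact ⟨g, (Cu.two_Kpm h).2 e, fun _ _ _ => rfl⟩
  · have e1 := chi_mul_g C.bb (g * s⁻¹) s
    rw [inv_mul_cancel_right, e, hs, right_eq_add] at e1
    have e2 := (Cu.two_Kpm h).2 e1
    refine ⟨g * s⁻¹, e2, fun a ha h0 => ?_⟩
    have e3 := tw_add ha e2 s
    rwa [inv_mul_cancel_right, h0, add_zero] at e3

/-- Conjugation by an element that moves the second point of order two. -/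
theorem tw_conj {C : Cu} (h : C.e 0 = 0) {s : GQ} (hs : chi C.bb s = 1) {g : GQ}
    (hg : g ∈ C.Kpm) : ∃ k ∈ C.Kpm, ∀ a, C.Z2 ⊤ a →
      C.ep (a k) (C.T 1) = C.ep (a g) (C.T 1) + C.ep (a g) (C.T 0) ∧
      C.ep (a k) (C.T 0) = C.ep (a g) (C.T 0) := by
  have e0 : s * g * s⁻¹ ∈ C.Kpm := fun i => by
    rw [Cu.pm_mul, Cu.pm_mul, hg, Cu.pm_inv]
  have e1 : C.act s (C.T 1 + C.T 0) = C.T 1 := by
    have e2 := Cu.act_T1 h s
    rw [Cu.io, hs, ZMod.val_one, one_nsmul, sub_eq_iff_eq_add] at e2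
    rw [map_add, e2, Cu.act_T0 h, add_comm (C.T 0), add_assoc, Cu.T_add_self, add_zero]
  refine ⟨_, e0, fun a ha => ?_⟩
  rw [ha.conj trivial trivial (Cu.act_of_pm e0 (ha.two s trivial))]
  constructor
  · rw [← C.ep_add_right (C.two_T 1) (C.two_T 0) (ha.two g trivial), ← C.ep_act s (a g), e1]
  · rw [← C.ep_act s (a g), Cu.act_T0 h]

theorem tw_van {C : Cu} (h : C.e 0 = 0) {s : GQ} (hs : chi C.bb s = 1) {a : GQ → C.A}
    (ha : C.Z2 ⊤ a) (h0 : a s = 0)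
    (k : ∀ g ∈ C.Kpm, C.ep (a g) (C.T 1) = 0 ∧ C.ep (a g) (C.T 0) = 0) : a = 0 := by
  funext g
  obtain ⟨u, hu, e⟩ := tw_red h hs g
  rw [e a ha h0, Cu.two_coord (ha.two u trivial), (k u hu).1, (k u hu).2]
  simp

/-- A coordinate of the value of a cocycle. -/
noncomputable def tw_co {C : Cu} {S : AddSubgroup (GQ → C.A)} (hS : ∀ a ∈ S, C.Z2 ⊤ a)
    (i : Fin 3) (g : GQ) : S →+ F2 :=
  AddMonoidHom.mk' (fun a => C.ep (a.1 g) (C.T i)) fun a b =>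
    C.ep_add_left ((hS _ a.2).two g trivial) ((hS _ b.2).two g trivial) (C.two_T i)

theorem tw_co_mul {C : Cu} {S : AddSubgroup (GQ → C.A)} (hS : ∀ a ∈ S, C.Z2 ⊤ a) (i : Fin 3)
    (g k : C.Kpm) : tw_co hS i (g * k : C.Kpm) = tw_co hS i g + tw_co hS i k := by
  refine AddMonoidHom.ext fun a => ?_
  have ha := hS _ a.2
  change C.ep (a.1 (g.1 * k.1)) _ = C.ep (a.1 g) _ + C.ep (a.1 k) _
  rw [tw_add ha g.2, C.ep_add_left (ha.two _ trivial) (ha.two _ trivial) (C.two_T i)]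

/-- The classes of the first isogeny that come from the second curve. -/
noncomputable def tw_R {C : Cu} {S : AddSubgroup (GQ → C.A)} (hS : ∀ a ∈ S, C.Z2 ⊤ a)
    (Y : AddSubgroup (GQ → F2)) : AddSubgroup S where
  carrier := {a | (∀ g, tw_co hS 0 g a = 0) ∧
    ∃ j : F2, (fun g => tw_co hS 1 g a + j * chi C.bb g) ∈ Y}
  zero_mem' := ⟨fun g => map_zero _, 0, by
    simp only [map_zero, zero_mul, add_zero]
    exact Y.zero_mem⟩
  add_mem' := by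
    rintro a b ⟨a1, i, a2⟩ ⟨b1, j, b2⟩
    refine ⟨fun g => by rw [map_add, a1, b1, add_zero], i + j, ?_⟩
    convert Y.add_mem a2 b2 using 1
    funext g
    rw [map_add, Pi.add_apply]
    ring
  neg_mem' := by
    rintro a ⟨a1, i, a2⟩
    refine ⟨fun g => by rw [map_neg, a1, neg_zero], i, ?_⟩
    simpa only [map_neg, CharTwo.neg_eq] using a2

theorem tw_card {C : Cu} {S : AddSubgroup (GQ → C.A)} (hS : ∀ a ∈ S, C.Z2 ⊤ a)
    (Y : AddSubgroup (GQ → F2)) [Finite Y] {s : GQ} (hs : chi C.bb s = 1)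
    (hs0 : ∀ a ∈ S, a s = 0) : Nat.card (tw_R hS Y) ≤ Nat.card Y := by
  refine Nat.card_le_card_of_injective (fun a => ⟨_, a.2.2.choose_spec⟩) fun a b e => ?_
  have e1 := congrFun (congrArg Subtype.val e)
  have e2 : ∀ c : S, tw_co hS 1 s c = 0 := fun c => by
    change C.ep (c.1 s) _ = 0
    rw [hs0 _ c.2, Cu.ep_zero_left]
  have e3 := e1 s
  simp only [e2, hs, zero_add, mul_one] at e3
  refine Subtype.ext (Subtype.ext (funext fun g => ?_))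
  have e4 := e1 g
  simp only [e3, add_left_inj] at e4
  have e5 : C.ep (a.1.1 g) (C.T 1) = C.ep (b.1.1 g) (C.T 1) := e4
  have e6 : C.ep (a.1.1 g) (C.T 0) = 0 := a.2.1 g
  have e7 : C.ep (b.1.1 g) (C.T 0) = 0 := b.2.1 g
  rw [Cu.two_coord ((hS _ a.1.2).two g trivial), Cu.two_coord ((hS _ b.1.2).two g trivial), e5,
    e6, e7]

theorem tw_lf {C : Cu} {D : ℤ} {c : GQ → C.A} {R : C.A} (h : C.IsSel D 2 c)
    (k : C.Z2 ⊤ (2 • c - C.cob D R)) : C.Lf D (2 • c - C.cob D R) := by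
  have e : ∀ g, 2 • (c g - C.cob D (C.hf R) g) = (2 • c - C.cob D R) g := fun g => by
    rw [smul_sub, ← Pi.smul_apply _ (C.cob _ _), ← Cu.cob_nsmul, Cu.two_hf]
    rfl
  have s := h.sub (C.hf R) (m := 2) fun g => by
    rw [pow_two, mul_smul, e, k.two g trivial]
  exact ⟨_, s.lc, s.coc, s.loc, e⟩

theorem last (core : CoreStmt) (mw : MWStmt) {C C' : Cu} (h : Iso C C') {ε : ℤ} {l : ℕ}
    (hε : ε = 1 ∨ ε = -1) (hl : C.Gp l) (S : AddSubgroup (GQ → C.A)) (hS : S ≤ C.Sh (ε * l))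
    (h0 : ∀ a ∈ S, a (frb l) = 0) {s : GQ} (hs : chi C.bb s = 1) (hs0 : ∀ a ∈ S, a s = 0)
    (he : par (Nat.card S) = 0)
    (hR : Nat.card (C'.RY (ε * l)) * Nat.card {a : S // C.nu a = 0} ≤ Nat.card S)
    (hP : ∀ u, C.Nn (C.Sh (ε * l)) u → ∃ (U : Subgroup GQ) (N : ℕ), B2.Op U ∧ U.Normal ∧
      ∀ p : ℕ, p.Prime → N < p → Frb U (frb l * u) p → ∀ a, C.IsSel (ε * p) 1 a →
        ∃ R : C.A, 4 • R = 0 ∧ a - C.cob (ε * p) R ∈ S) :
    GoalF C.a C.b C.c := by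
  obtain ⟨φ, ψ, i1, i2⟩ := id h
  have hz := i1.two
  have f1 := (Cu.card_Sh hz (ε * l)).1
  have f2 : Finite S := Finite.of_injective _ (AddSubgroup.inclusion_injective hS)
  have f3 := finite_Ch C'.two_le_N0
  have f4 : Finite (C'.RY (ε * l)) := Finite.of_injective _ (AddSubgroup.inclusion_injective
    (show C'.RY (ε * l) ≤ Ch C'.N0 from fun t ht => (Cu.RY_le i2.two _ ht).1))
  have hZ : ∀ a ∈ S, C.Z2 ⊤ a := fun a ha => (hS ha).1.1
  obtain ⟨B, Φ, b1, b2, b3, b4⟩ := core C ε l S hε hl f2 hS h0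
  have x1 : ∀ a : S, (∀ g : C.Kpm, tw_co hZ 0 g a = 0) → ∀ g, tw_co hZ 0 g a = 0 := fun a k g => by
    obtain ⟨u, hu, e⟩ := tw_red hz hs g
    change C.ep (a.1 g) _ = 0
    rw [e _ (hZ _ a.2) (hs0 _ a.2)]
    exact k ⟨u, hu⟩
  have x2 : ∀ a : S, a ∈ ⨅ g : C.Kpm, (tw_co hZ 0 g).ker ↔ ∀ g : C.Kpm, tw_co hZ 0 g a = 0 :=
    fun a => by simp only [AddSubgroup.mem_iInf, AddMonoidHom.mem_ker]
  obtain ⟨L, hL⟩ := la2 (fun g : C.Kpm => tw_co hZ 1 g) (fun g : C.Kpm => tw_co hZ 0 g)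
    (tw_co_mul hZ 1) (tw_co_mul hZ 0)
    (fun a k => Subtype.ext (tw_van hz hs (hZ _ a.2) (hs0 _ a.2) fun g hg => by
      obtain ⟨u, hu, e⟩ := tw_conj hz hs hg
      have e1 := (e _ (hZ _ a.2)).1
      have e2 : C.ep (a.1 u) (C.T 1) = 0 := k ⟨u, hu⟩
      have e3 : C.ep (a.1 g) (C.T 1) = 0 := k ⟨g, hg⟩
      rw [e2, e3, zero_add] at e1
      exact ⟨e3, e1.symm⟩))
    (fun a k => Subtype.ext (tw_van hz hs (hZ _ a.2) (hs0 _ a.2) fun g hg => by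
      obtain ⟨u, hu, e⟩ := tw_conj hz hs hg
      obtain ⟨e0, e1⟩ := e _ (hZ _ a.2)
      have e2 : C.ep (a.1 u) (C.T 1) = C.ep (a.1 u) (C.T 0) := k ⟨u, hu⟩
      have e3 : C.ep (a.1 g) (C.T 1) = C.ep (a.1 g) (C.T 0) := k ⟨g, hg⟩
      rw [e2, e1, right_eq_add] at e0
      exact ⟨e0, e3 ▸ e0⟩))
    B b1 he _ (tw_R hZ (C'.RY (ε * l))) x2 (by
      refine le_trans (Nat.mul_le_mul (tw_card hZ _ hs hs0) (le_of_eq ?_)) hR
      exact Nat.card_congr (Equiv.subtypeEquivRight fun a => (x2 a).trans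
        ⟨fun k => funext (x1 a k), fun k g => congrFun k g⟩))
  have p1 : ∀ (L : List C.Kpm) (a b : S), Φ (L.map fun g => g.1 * g.1).prod a b =
      (L.map fun g : C.Kpm => tw_co hZ 1 g a * tw_co hZ 0 g b +
        tw_co hZ 0 g a * tw_co hZ 1 g b).sum := fun L a b => by
    induction L with
    | nil => simpa using b2 1 1 (tw_nn_one C hZ) (tw_nn_one C hZ) a b
    | cons g L ih =>
      rw [List.map_cons, List.prod_cons, List.map_cons, List.sum_cons,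
        b2 _ _ (tw_nn_sq hZ g.2) (C.nn_list hZ L), ih, b3 _ g.2,
        Cu.ep_coord ((hZ _ a.2).two _ trivial) ((hZ _ b.2).two _ trivial)]
      rfl
  have n1 := C.nn_list hZ L
  obtain ⟨U1, N1, o1, m1, k1⟩ := b4 _ n1
  obtain ⟨U2, N2, o2, m2, k2⟩ := hP _ (C.nn_list (S := C.Sh (ε * l)) (fun a ha => ha.1.1) L)
  obtain ⟨U3, o3, m3, k3⟩ := exists_ker C.two_le_N0
  refine ⟨ε, U1 ⊓ U2 ⊓ U3, frb l * (L.map fun g => g.1 * g.1).prod, N1 + N2 + C.N0, hε,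
    (o1.inf o2).inf o3, inferInstance, fun p hp hN hF => ?_⟩
  have hp' : C.Gp p := ⟨hp, by omega⟩
  have d0 : ε * (p : ℤ) ≠ 0 := mul_ne_zero (by omega) (by exact_mod_cast hp.ne_zero)
  have r1 : C'.RY (ε * p) = C'.RY (ε * l) := (Cu.Sh_congr fun v hv => by
    rcases hv with rfl | ⟨v1, v2⟩
    · exact cls_real hε hp hl.1
    · refine cls_loc C.two_le_N0 hε hε hp hl.1 hp'.2 hl.2 (fun t ht => ?_) v v1 (i1.N0 ▸ v2)
      rw [(hF.mono inf_le_right).ch C.two_le_N0 k3 hp hp'.2 t ht, ht.1.2 _ trivial _ trivial,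
        n1.2.1 t ht, add_zero]).2.2.2
  refine (mw C _ d0 fun c hc => ?_).2
  obtain ⟨R, q1, q2⟩ := k2 p hp (by omega) (hF.mono (inf_le_left.trans inf_le_right)) _ hc.two
  have q3 := tw_lf hc (hZ _ q2)
  have q4 := hL ⟨_, q2⟩ (fun k => by
    have k' := x1 _ ((x2 _).1 k)
    obtain ⟨t1, t2⟩ := Cu.exists_io hz (hZ _ q2) fun g _ => k' g
    have t3 : (fun g => C.ep ((2 • c - C.cob (ε * p) R) g) (C.T 1)) ∈ Ch C.N0 :=
      ⟨t1, fun q h1 h2 => by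
        simp only [(hS q2).1.2 q ⟨h1, h2⟩, Cu.ep_zero_left]⟩
    have t4 := h.lift hε hp' t3 ((funext fun g => t2 g trivial) ▸ q3)
    rw [r1] at t4
    rcases t4 with t4 | t4
    · refine ⟨k', 0, ?_⟩
      simp only [zero_mul, add_zero]
      exact t4
    · refine ⟨k', 1, ?_⟩
      simp only [one_mul]
      exact t4)
    fun b => (k1 p hp (by omega) (hF.mono (inf_le_left.trans inf_le_left)) ⟨_, q2⟩ q3 b).trans
      (p1 L _ b)
  exact ⟨R, q1, fun g => sub_eq_zero.1 (congrFun (congrArg Subtype.val q4) g)⟩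

end Pool.Agent.SP
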