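import Pool.Agent.Lib.MP_696deb_nt.SP.TX
import Pool.Agent.Lib.MP_696deb_nt.SP.TT
import Pool.Agent.Lib.MP_696deb_nt.SP.TL3

/-! Curves with three rational points of order two. -/

set_option autoImplicit false

open scoped Classical
open Finset

namespace Pool.Agent.SP

open Pool.Agent.Lib.MP_696deb_nt Pool.Agent.Lib.MP_696deb_nt.Sm
open Pool.Agent.Lib.MP_696deb_nt.B2 (jC cc)

section aux

variable {C C1 : Cu} {ε D : ℤ} {l : ℕ} {a : GQ → C.A} {T : C.A} {j : C.A ≃+ C1.A}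

theorem ty_rat (hK : ∀ g, g ∈ C.Kpm) (hT : 2 • T = 0) (D : ℤ) : T ∈ C.Rat D := fun g => by
  rw [C.tw_two D g hT, Cu.act_of_pm (hK g) hT]

theorem ty_z2 (hK : ∀ g, g ∈ C.Kpm) (hT : 2 • T = 0) (H : Subgroup GQ) (D : ℤ) :
    C.Z2 H (C.cob D (C.hf T)) :=
  Cu.z2_cob_half fun g _ => by rw [Cu.two_hf, ty_rat hK hT D g]

theorem ty_sig (hK : ∀ g, g ∈ C.Kpm) (hε : ε = 1 ∨ ε = -1) (hl : C.Gp l) (hT : 2 • T = 0) :
    C.cob (ε * l) (C.hf T) (sig l) = T := by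
  have h1 := Cu.half_fix (Q := C.hf T) hl
    (fun g _ => by rw [Cu.two_hf, Cu.act_of_pm (hK g) hT]) _ (sig_ine hl.1 hl.ne_two)
  rw [Cu.cob, Cu.tw, h1, chi_sig hl.1 hl.ne_two (tt_ne hε hl.1), padicValInt, tt_abs hε,
    padicValNat.self hl.1.one_lt, Nat.cast_one, sn_one, neg_one_zsmul, sub_eq_add_neg, ← neg_add,
    ← two_nsmul, Cu.two_hf, C.neg_two hT]

theorem ty_val (hK : ∀ g, g ∈ C.Kpm) (hε : ε = 1 ∨ ε = -1) (hl : C.Gp l)
    (ha : a ∈ C.Sh (ε * l)) : a (frb l) = 0 := by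
  refine C.eq_zero_of_ep fun i => ?_
  have z := fun H => ty_z2 hK (C.two_T i) H (ε * l)
  have h1 := Cu.bv_recip ha.1.1 (z ⊤) {l} (fun v hv => mem_singleton.1 hv ▸ hl)
    fun q hq k => ⟨ha.1.2 q hq, Cu.loc_good hq (tt_nd hε hl.1 hq.1 (notMem_singleton.1 k)) (n := 1)
      (fun g => (z ⊤).two g trivial) (C.loc_cob q _ _)⟩
  rwa [sum_singleton, Cu.Bv_tame hl (ha.1.1.mono le_top) (z _) (ha.1.2 l hl),
    ty_sig hK hε hl (C.two_T i), sum_eq_zero fun v hv => Cu.bv_iso (C.bd_iff.2 hv).pv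
      (ha.1.1.mono le_top) (z _) (ha.2 v (C.bd_iff.2 hv)) (C.loc_cob v _ _)] at h1

theorem ty_half (hK : ∀ g, g ∈ C.Kpm) (hε : ε = 1 ∨ ε = -1) (hl : C.Gp l)
    (ha : C.IsSel (ε * l) 1 a) : ∃ R : C.A, 4 • R = 0 ∧ a - C.cob (ε * l) R ∈ C.Sh (ε * l) :=
  have h := ha.z2.two (sig l) trivial
  ⟨C.hf (a (sig l)), tt_four h, tt_sh hε hl.1 (tt_sub ha (ty_z2 hK h ⊤ _))
    (sub_eq_zero.2 (ty_sig hK hε hl h).symm)⟩

theorem ty_bb (hK : ∀ g, g ∈ C.Kpm) (hj : Eqv C C1 j) (h : C1.e 0 = 0) : chi C1.bb = 0 := by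
  funext g
  refine (Cu.two_Kpm h).1 fun i => C1.T_inj ?_
  have h1 : 2 • j.symm (C1.T i) = 0 := by rw [← map_nsmul, C1.two_T, map_zero]
  have h2 := hj.act g (j.symm (C1.T i))
  rw [Cu.act_of_pm (hK g) h1, j.apply_symm_apply] at h2
  rw [← Cu.act_T, ← h2]

/-- A coordinate of the image of a cocycle. -/
noncomputable def ty_co (j : C.A ≃+ C1.A) (D : ℤ) (i : Fin 3) : C.Sh D →+ GQ → F2 :=
  AddMonoidHom.mk' (fun a g => C1.ep (j (a.1 g)) (C1.T i)) fun a b => funext fun g => by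
    have h : ∀ c : C.Sh D, 2 • j (c.1 g) = 0 := fun c => by
      rw [← map_nsmul, c.2.1.1.two g trivial, map_zero]
    exact (congrArg (C1.ep · _) (map_add j _ _)).trans (C1.ep_add_left (h a) (h b) (C1.two_T i))

theorem ty_range (hj : Eqv C C1 j) (D : ℤ) : (ty_co j D 0).range = C1.RY D := by
  refine le_antisymm (fun _ ⟨a, e⟩ => ⟨_, hj.sh.2 a.2, e⟩) ?_
  rintro _ ⟨c, hc, rfl⟩
  refine ⟨⟨fun g => j.symm (c g), hj.sh.1 (by simpa only [j.apply_symm_apply] using hc)⟩,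
    funext fun g => ?_⟩
  exact congrArg (C1.ep · _) (j.apply_symm_apply _)

theorem ty_card (hj : Eqv C C1 j) (D : ℤ) (Y : AddSubgroup (GQ → F2)) [Finite Y]
    (h : Nat.card Y ≤ Nat.card (C1.RY D)) :
    Nat.card ↥((ty_co j D 0).ker ⊓ Y.comap (ty_co j D 1)) * Nat.card (ty_co j D 0).ker ≤
      Nat.card (C.Sh D) := by
  have h2 := (ty_co j D 0).ker.card_mul_index
  rw [AddSubgroup.index_ker, ty_range hj, mul_comm] at h2
  refine (Nat.mul_le_mul_right _ (le_trans ?_ h)).trans h2.le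
  refine Nat.card_le_card_of_injective (fun a => ⟨_, a.2.2⟩) fun a b e => ?_
  refine Subtype.ext (Subtype.ext (funext fun g => j.injective ?_))
  have h0 : ∀ c : C.Sh D, 2 • j (c.1 g) = 0 := fun c => by
    rw [← map_nsmul, c.2.1.1.two g trivial, map_zero]
  have e5 : C1.ep (j (a.1.1 g)) (C1.T 1) = C1.ep (j (b.1.1 g)) (C1.T 1) :=
    congrFun (congrArg Subtype.val e) g
  have e6 : C1.ep (j (a.1.1 g)) (C1.T 0) = 0 := congrFun a.2.1 g
  have e7 : C1.ep (j (b.1.1 g)) (C1.T 0) = 0 := congrFun b.2.1 g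
  rw [Cu.two_coord (h0 a.1), Cu.two_coord (h0 b.1), e5, e6, e7]

end aux

theorem type_F (core : CoreStmt) (mw : MWStmt) {C : Cu} (hK : ∀ g, g ∈ C.Kpm)
    (C1 C' : Fin 3 → Cu) (j : ∀ i, C.A ≃+ (C1 i).A) (hj : ∀ i, Eqv C (C1 i) (j i))
    (hT : ∀ i, j i (C.T i) = (C1 i).T 0) (hI : ∀ i, Iso (C1 i) (C' i)) {ε : ℤ} {l : ℕ}
    (hε : ε = 1 ∨ ε = -1) (hl : C.Gp l) (he : par (Nat.card (C.Sh (ε * l))) = 0)
    (hR : ∀ i, Nat.card ((C' i).RY (ε * l)) ≤ Nat.card ((C1 i).RY (ε * l))) :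
    GoalF C.a C.b C.c := by
  have hi : ∀ i, (C1 i).e 0 = 0 ∧ (C' i).e 0 = 0 ∧ (C' i).N0 = C.N0 := fun i => by
    obtain ⟨_, _, i1, i2⟩ := hI i
    exact ⟨i1.two, i2.two, i1.N0.trans (hj i).N0⟩
  have f1 := (Cu.card_Sh (hi 0).1 (ε * l)).1
  have f2 : Finite (C.Sh (ε * l)) :=
    Nat.finite_of_card_ne_zero ((hj 0).card_Sh (ε * l) ▸ Nat.card_pos.ne')
  have f4 : ∀ i, Finite ((C' i).RY (ε * l)) := fun i => by
    have f3 := finite_Ch (C' i).two_le_N0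
    exact Finite.of_injective _ (AddSubgroup.inclusion_injective
      (show (C' i).RY (ε * l) ≤ Ch (C' i).N0 from fun t ht => (Cu.RY_le (hi i).2.1 _ ht).1))
  have hZ : ∀ a ∈ C.Sh (ε * l), C.Z2 ⊤ a := fun a ha => ha.1.1
  obtain ⟨B, Φ, b1, b2, b3, b4⟩ := core C ε l _ hε hl f2 le_rfl fun a => ty_val hK hε hl
  have x2 : ∀ i (a : C.Sh (ε * l)), a ∈ (ty_co (j i) (ε * l) 0).ker ↔
      ∀ g : C.Kpm, tw_co hZ i g a = 0 := fun i a => by
    have e : ∀ g, ty_co (j i) (ε * l) 0 a g = tw_co hZ i g a := fun g => by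
      change (C1 i).ep _ _ = C.ep _ _
      rw [← hT i, eqv_ep]
    exact ⟨fun k g => (e g).symm.trans (congrFun k g), fun k => funext fun g =>
      (e g).trans (k ⟨g, hK g⟩)⟩
  obtain ⟨L, hL⟩ := la3 (fun g : C.Kpm => tw_co hZ 1 g) (fun g : C.Kpm => tw_co hZ 0 g)
    (tw_co_mul hZ 1) (tw_co_mul hZ 0)
    (fun a k k' => Subtype.ext (funext fun g => by
      have e1 : C.ep (a.1 g) (C.T 1) = 0 := k ⟨g, hK g⟩
      have e0 : C.ep (a.1 g) (C.T 0) = 0 := k' ⟨g, hK g⟩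
      rw [Cu.two_coord ((hZ _ a.2).two g trivial), e1, e0]
      simp))
    B b1 he (fun i => (ty_co (j i) (ε * l) 0).ker)
    (fun i => (ty_co (j i) (ε * l) 0).ker ⊓ ((C' i).RY (ε * l)).comap (ty_co (j i) (ε * l) 1))
    (x2 0) (x2 1) (fun a => (x2 2 a).trans (forall_congr' fun g => by
      have e := C.sum_ep ((hZ _ a.2).two g trivial)
      rw [Fin.sum_univ_three] at e
      have e' : ∀ x y z : F2, x + y + z = 0 → (z = 0 ↔ y = x) := by decide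
      exact e' _ _ _ e))
    fun i => ty_card (hj i) _ _ (hR i)
  have p1 : ∀ (L : List C.Kpm) (a b : C.Sh (ε * l)), Φ (L.map fun g => g.1 * g.1).prod a b =
      (L.map fun g : C.Kpm => tw_co hZ 1 g a * tw_co hZ 0 g b +
        tw_co hZ 0 g a * tw_co hZ 1 g b).sum := fun L a b => by
    induction L with
    | nil => simpa using b2 1 1 (tw_nn_one C hZ) (tw_nn_one C hZ) a b
    | cons g L ih =>
      rw [List.map_cons, List.prod_cons, List.map_cons, List.sum_cons,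
        b2 _ _ (tw_nn_sq hZ g.2) (C.nn_list hZ L), ih, b3 _ g.2,
        Cu.ep_coord ((hZ _ a.2).two _ trivial) ((hZ _ b.2).two _ trivial)]
      rfl
  have n1 := C.nn_list hZ L
  obtain ⟨U1, N1, o1, m1, k1⟩ := b4 _ n1
  obtain ⟨U3, o3, m3, k3⟩ := exists_ker C.two_le_N0
  refine ⟨ε, U1 ⊓ U3, frb l * (L.map fun g => g.1 * g.1).prod, N1 + C.N0, hε,
    o1.inf o3, inferInstance, fun p hp hN hF => ?_⟩
  have hp' : C.Gp p := ⟨hp, by omega⟩
  have r0 : ∀ v, C.Bd v → ∀ g ∈ Gv v, chi (ε * p) g = chi (ε * l) g := fun v hv => by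
    rcases hv with rfl | ⟨v1, v2⟩
    · exact cls_real hε hp hl.1
    · refine cls_loc C.two_le_N0 hε hε hp hl.1 hp'.2 hl.2 (fun t ht => ?_) v v1 v2
      rw [(hF.mono inf_le_right).ch C.two_le_N0 k3 hp hp'.2 t ht, ht.1.2 _ trivial _ trivial,
        n1.2.1 t ht, add_zero]
  refine (mw C _ (tt_ne hε hp) fun c hc => ?_).2
  obtain ⟨R, q1, q2⟩ := ty_half hK hε hp' hc.two
  rw [(Cu.Sh_congr r0).1] at q2
  have q3 := tw_lf hc q2.1.1
  have q4 := hL ⟨_, q2⟩ (fun i k => by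
    have t0 := (hj i).sh.2 q2
    obtain ⟨t1, t2⟩ := Cu.exists_io (hi i).1 t0.1.1 fun g _ => congrFun k g
    have t3 : (fun g => (C1 i).ep (j i ((2 • c - C.cob (ε * p) R) g)) ((C1 i).T 1)) ∈ Ch (C1 i).N0 :=
      ⟨t1, fun q h1 h2 => by
        have e : j i ((2 • c - C.cob (ε * p) R) (sig q)) = 0 := t0.1.2 q ⟨h1, h2⟩
        simp only [e, Cu.ep_zero_left]⟩
    have t4 := (hI i).lift hε ⟨hp, (hj i).N0 ▸ hp'.2⟩ t3
      ((funext fun g => t2 g trivial) ▸ (hj i).lf q3)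
    rw [ty_bb hK (hj i) (hi i).1, add_zero, or_self, (Cu.Sh_congr (C := C' i) fun v hv =>
      r0 v (hv.imp_right fun e => ⟨e.1, (hi i).2.2 ▸ e.2⟩)).2.2.2] at t4
    exact ⟨k, t4⟩)
    fun b => (k1 p hp (by omega) (hF.mono inf_le_left) ⟨_, q2⟩ q3 b).trans (p1 L _ b)
  exact ⟨R, q1, fun g => sub_eq_zero.1 (congrFun (congrArg Subtype.val q4) g)⟩

end Pool.Agent.SP
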