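import Pool.Agent.Lib.MP_696deb_nt.SP.U9
import Pool.Agent.Lib.MP_696deb_nt.SP.Z8

/-! Reduction to the three cases, odd parity. -/

set_option autoImplicit false

open scoped Classical
open Finset

namespace Pool.Agent.SP

open Pool.Agent.Lib.MP_696deb_nt Pool.Agent.Lib.MP_696deb_nt.Sm
open Pool.Agent.Lib.MP_696deb_nt.B2 (jC cc)

section

variable (three : ∀ e1 e2 : ℤ, e1 ≠ 0 → e2 ≠ 0 → e1 ≠ e2 → Goal1 (-(e1 + e2)) (e1 * e2) 0)

include three

theorem goal_sq1 {a b : ℤ} (hb : b ≠ 0) (hb' : a ^ 2 - 4 * b ≠ 0)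
    (h : IsSquare (a ^ 2 - 4 * b)) : Goal1 a b 0 := by
  obtain ⟨s, hs⟩ := h
  have h2 : Even ((s - a) * (s - a)) := ⟨a ^ 2 - 2 * b - a * s, by linear_combination -hs⟩
  obtain ⟨e, he⟩ : Even (s - a) := (Int.even_mul.1 h2).elim id id
  have h3 : e * (e - s) = b := by
    have : 4 * (e * (e - s)) = 4 * b := by
      rw [show a = s - 2 * e by omega] at hs
      linear_combination hs
    omega
  have := three e (e - s) (left_ne_zero_of_mul (h3 ▸ hb)) (right_ne_zero_of_mul (h3 ▸ hb))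
    fun k => hb' (by rw [hs, show s = 0 by omega, mul_zero])
  rwa [h3, show -(e + (e - s)) = a by omega] at this

theorem goal_two1 (den : DenStmt) (core : CoreStmt) (ps : ParStmt) (ls : LSStmt)
    (qs : QStmt) {a b : ℤ} (hb : b ≠ 0) (hb' : a ^ 2 - 4 * b ≠ 0) :
    Goal1 a b 0 := by
  by_cases s1 : IsSquare (a ^ 2 - 4 * b)
  · exact goal_sq1 three hb hb' s1
  obtain ⟨C, C', a1, a2, a3, b1, b2, b3, h⟩ := exists_iso hb hb'
  have e : (-2 * a) ^ 2 - 4 * (a ^ 2 - 4 * b) = 16 * b := by ring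
  suffices Goal1 C.a C.b C.c by rwa [a1, a2, a3] at this
  by_cases s2 : IsSquare b
  · refine h.goal1 ?_
    rw [b1, b2, b3]
    refine goal_sq1 three hb' (by rw [e]; omega) ?_
    rw [e]
    exact IsSquare.mul ⟨4, rfl⟩ s2
  rcases lt_or_gt_of_ne hb with n | n
  · refine h.goal1 ((case_two1 den core ps ls qs h.symm ?_ (b2 ▸ s1) ?_).goal den)
    · rw [b2]
      nlinarith [sq_nonneg a]
    · rw [Cu.bb, b1, b2, e]
      exact fun k => k.nonneg.not_gt (by omega)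
  · refine (case_two1 den core ps ls qs h (a2 ▸ n) (a2 ▸ s2) ?_).goal den
    rwa [Cu.bb, a1, a2]

theorem all_of1 (den : DenStmt) (core : CoreStmt) (ps : ParStmt) (ls : LSStmt)
    (qs : QStmt) (one : ∀ a b c : ℤ, dsc a b c ≠ 0 → (∀ x : ℤ, x ^ 3 + a * x ^ 2 + b * x + c ≠ 0) → GoalF1 a b c)
    {a b c : ℤ} (h : dsc a b c ≠ 0) :
    Goal1 a b c := by
  by_cases k : ∀ x : ℤ, x ^ 3 + a * x ^ 2 + b * x + c ≠ 0
  · exact (one a b c h k).goal den
  obtain ⟨r, hr⟩ := not_forall.1 k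
  rw [not_not] at hr
  have e : dsc a b c = (3 * r ^ 2 + 2 * a * r + b) ^ 2 *
      ((3 * r + a) ^ 2 - 4 * (3 * r ^ 2 + 2 * a * r + b)) := by
    rw [show c = -(r ^ 3 + a * r ^ 2 + b * r) by omega, dsc]
    ring
  rw [e] at h
  obtain ⟨ε, h1, h2⟩ := goal_two1 three den core ps ls qs
    (pow_ne_zero_iff two_ne_zero |>.1 (left_ne_zero_of_mul h)) (right_ne_zero_of_mul h)
  exact ⟨ε, h1, h2.mono fun p _ k => fn1_shift r _ hr k⟩

end

end Pool.Agent.SP
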