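import Pool.Agent.Lib.MP_696deb_nt.SP.UT
import Pool.Agent.Lib.MP_696deb_nt.SP.T9

/-! Curves with exactly one rational point of order two in the whole class, odd parity. -/

set_option autoImplicit false

open scoped Classical
open Finset

namespace Pool.Agent.SP

open Pool.Agent.Lib.MP_696deb_nt Pool.Agent.Lib.MP_696deb_nt.Sm
open Pool.Agent.Lib.MP_696deb_nt.B2 (jC cc)

/-- The choice of the sign and of the class of primes. -/
theorem Cu.exists_cls1 (den : DenStmt) (ls : LSStmt) {C : Cu} (h : C.e 0 = 0) (hb : 0 < C.b)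
    (h1 : ¬ IsSquare C.b) (h2 : ¬ IsSquare C.bb) : ∃ (ε : ℤ) (l : ℕ), (ε = 1 ∨ ε = -1) ∧ C.Gp l ∧
      chi C.b (frb l) = 1 ∧ C.pi (ε * l) + chi C.bb (frb l) = 0 ∧
      (chi C.bb (frb l) = 1 ∨ C.bb < 0) := by
  obtain ⟨f, f1, f2⟩ := exists_both h1 h2
  obtain ⟨U, U1, U2, U3⟩ := exists_ker C.two_le_N0
  obtain ⟨l, l1, l2, l3⟩ := (den U f C.N0 U1 U2).exists
  obtain ⟨m, m1, m2, m3⟩ := (den U (cc * f) C.N0 U1 U2).exists
  have l4 := l3.ch C.two_le_N0 U3 l1 l2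
  have m4 : ∀ t ∈ Ch C.N0, t (frb m) = t cc + t f := fun t ht =>
    (m3.ch C.two_le_N0 U3 m1 m2 t ht).trans (ht.1.2 cc trivial f trivial)
  obtain ⟨c1, c2⟩ := Cu.two_ch h
  obtain ⟨b1, b2, -⟩ := Cu.two_b h
  have e := cls_loc C.two_le_N0 (ε := 1) (ε' := -1) (.inl rfl) (.inr rfl) l1 m1 l2 m2
    fun t ht => by
      rw [l4 t ht, m4 t ht, chi_one, loc_chi_cc (by decide), if_neg (by decide), zero_mul, one_mul,
        add_zero, add_comm (t cc), add_assoc, CharTwo.add_self_eq_zero, add_zero]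
  have a1 : chi C.b (frb l) = 1 := (l4 _ c1).trans f1
  have a2 : chi C.bb (frb l) = 1 := (l4 _ c2).trans f2
  have a3 : chi C.b (frb m) = 1 := by rw [m4 _ c1, f1, loc_chi_cc b1, if_pos hb, zero_add]
  rcases (F2_cases (C.pi (1 * l))).symm with p | p
  · exact ⟨1, l, .inl rfl, ⟨l1, l2⟩, a1, by rw [p, a2]; decide, .inl a2⟩
  refine ⟨-1, m, .inr rfl, ⟨m1, m2⟩, a3, ?_⟩
  rcases lt_or_gt_of_ne b2 with n | n
  · obtain ⟨-, k1, k2, -⟩ := Cu.flip_neg h n e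
    refine ⟨?_, .inr n⟩
    rw [Cu.pi, ← k1, ← k2, ← Cu.pi, p, m4 _ c2, f2, loc_chi_cc b2, if_neg n.not_gt]
    decide
  · have a4 : chi C.bb (frb m) = 1 := by rw [m4 _ c2, f2, loc_chi_cc b2, if_pos n, zero_add]
    have l0 : (0 : ℤ) < l := by exact_mod_cast l1.pos
    have m0 : (0 : ℤ) < m := by exact_mod_cast m1.pos
    refine ⟨?_, .inl a4⟩
    rw [Cu.flip_pos ls h hb n (by omega) (by omega) e, p, a4]
    decide

theorem case_two1 (den : DenStmt) (core : CoreStmt) (ps : ParStmt) (ls : LSStmt)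
    (qs : QStmt) {C C' : Cu} (h : Iso C C') (hb : 0 < C.b) (h1 : ¬ IsSquare C.b)
    (h2 : ¬ IsSquare C.bb) : GoalF1 C.a C.b C.c := by
  obtain ⟨φ, ψ, i, i'⟩ := id h
  obtain ⟨ε, l, hε, hl, a1, a2, a3⟩ := Cu.exists_cls1 den ls i.two hb h1 h2
  have hl' : C'.Gp l := ⟨hl.1, i.N0 ▸ hl.2⟩
  have p := Cu.par_Sh ls qs i.two hε hl
  have p' := Cu.par_Sh ls qs i'.two hε hl'
  rw [h.pi, i.b, a2] at p'
  rcases le_or_gt (Nat.card (C.RY (ε * l))) (Nat.card (C'.RY (ε * l))) with r | r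
  · exact h.goalF1 (type_T1 core ps h.symm hε hl' (i'.b ▸ a1) p' r)
  rcases F2_cases (chi C.bb (frb l)) with k | k
  · rw [k, add_zero] at a2
    refine type_U1 den core ps h hε hl (a3.resolve_left (by rw [k]; decide)) k ?_ r
    rw [p, a1, a2, zero_add]
  · refine type_T1 core ps h hε hl k ?_ r.le
    rw [p, a1, ← k, a2]

end Pool.Agent.SP
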