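import Pool.Agent.Lib.MP_696deb_nt.SP.PM
import Pool.Agent.Lib.MP_696deb_nt.SP.TW

/-! Odd parity and the step to corank one. -/

set_option autoImplicit false

open scoped Classical
open Finset Function

namespace Pool.Agent.SP

open Pool.Agent.Lib.MP_696deb_nt Pool.Agent.Lib.MP_696deb_nt.Sm
open Pool.Agent.Lib.MP_696deb_nt.B2 (cc jC Plc Op Zu Rs Z1 H0 GoodA Apart Away cupb)
open Pool.Agent.Lib.MP_696deb_nt.B6 (W2 N2 sg dW)

namespace Cu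

variable {C : Cu} {ε D : ℤ} {p : ℕ} {S : AddSubgroup (GQ → C.A)}

theorem pr_of_compl (hD : D ≠ 0) (h1 : S ≤ C.Zs D 1) (h2 : ∀ a ∈ S, a ∈ C.Ti D → a = 0)
    (h3 : ∀ a, C.IsSel D 1 a → ∃ R : C.A, 4 • R = 0 ∧ a - C.cob D R ∈ S) :
    C.Pr D = par (Nat.card S) := by
  have := C.finite_Zs hD 1
  have e1 : S ⊔ C.Ti D = C.Zs D 1 := le_antisymm (sup_le h1 (C.Ti_le D)) fun a ha => by
    obtain ⟨R, h4, h5⟩ := h3 a (mem_Zs.1 ha)
    have h6 := (sub_mem ha (h1 h5)).2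
    rw [sub_sub_cancel] at h6
    exact sub_add_cancel a (C.cob D R) ▸
      AddSubgroup.add_mem_sup h5 ⟨fun g => congrFun h6 g, R, 2, h4, rfl⟩
  have e2 := B2.card_inf_sup S (C.Ti D)
  rw [e1, show S ⊓ C.Ti D = ⊥ from eq_bot_iff.2 fun a ha => h2 a ha.1 ha.2, AddSubgroup.card_bot,
    one_mul] at e2
  obtain ⟨n1, n2⟩ := mul_ne_zero_iff.1 (e2 ▸ (Nat.card_pos (α := C.Zs D 1)).ne')
  rw [Pr, e2, par_mul n1 n2, add_assoc, CharTwo.add_self_eq_zero, add_zero]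

theorem not_kz (ps : ParStmt) (hε : ε = 1 ∨ ε = -1) (hp : C.Gp p) (hS : S ≤ C.Sh (ε * p))
    (cb : ∀ a ∈ S, C.Cb a (frb p))
    (h0 : ∀ T : C.A, 2 • T = 0 → (fun g => C.act g T - T) ∈ S → ∀ g, C.act g T = T)
    (hP : ∀ a, C.IsSel (ε * p) 1 a → ∃ R : C.A, 4 • R = 0 ∧ a - C.cob (ε * p) R ∈ S)
    (he : par (Nat.card S) = 1) : ¬ C.Kz (ε * p) := by
  have ab : (ε * p).natAbs = p := by rcases hε with rfl | rfl <;> simp
  have ne : ε * p ≠ 0 := fun e => hp.1.ne_zero (by rw [← ab, e, Int.natAbs_zero])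
  intro k
  refine one_ne_zero (he.symm.trans ((pr_of_compl ne (fun a ha => ?_) ?_ hP).symm.trans
    (ps C _ ne k)))
  · obtain ⟨⟨z, u⟩, l⟩ := hS ha
    refine mem_Zs.2 ⟨fun g => z.two g trivial, fun g h => by
      rw [z.coc g trivial h trivial, C.tw_two _ g (z.two h trivial)], z.sm, fun v hv => ?_⟩
    by_cases b : C.Bd v
    · exact l v b
    have gp : C.Gp v := ⟨hv.resolve_left fun e => b (.inl e), not_le.1 fun e =>
      b (hv.imp_right fun k => ⟨k, e⟩)⟩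
    rcases eq_or_ne v p with rfl | e
    · exact loc_of_cb gp (z.mono le_top) (u v gp) (cb a ha) _
    · exact loc_unr gp (fun d => e ((Nat.prime_dvd_prime_iff_eq gp.1 hp.1).1
        (ab ▸ Int.natCast_dvd.1 d))) (z.mono le_top) (u v gp)
  · rintro _ ha ⟨-, T, m, h1, rfl⟩
    have h2 := (hS ha).1.2 p hp
    rw [cob, tw, chi_sig hp.1 hp.ne_two ne, padicValInt, ab, padicValNat.self hp.1.one_lt,
      Nat.cast_one, sn_one, neg_one_zsmul, hp.act_tors h1 _ (sig_ine hp.1 hp.ne_two), sub_eq_add_neg,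
      ← neg_add, neg_eq_zero, ← two_nsmul] at h2
    have h3 : C.cob (ε * p) T = fun g => C.act g T - T :=
      funext fun g => by rw [cob, C.tw_two _ g h2]
    rw [h3] at ha ⊢
    exact funext fun g => sub_eq_zero.2 (h0 T h2 ha g)

theorem Lf.add {a b : GQ → C.A} (h : C.Lf D a) (k : C.Lf D b) : C.Lf D (a + b) := by
  obtain ⟨c, c1, c2, c3, c4⟩ := h
  obtain ⟨d, d1, d2, d3, d4⟩ := k
  refine ⟨c + d, c1.comp₂ d1 (· + ·), fun g l => ?_, fun v hv => (c3 v hv).add (d3 v hv),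
    fun g => by rw [Pi.add_apply, smul_add, c4, d4, Pi.add_apply]⟩
  simp only [Pi.add_apply, c2 g l, d2 g l, C.tw_add]
  abel

theorem nl1_of (hS : ∀ a ∈ S, C.Z2 ⊤ a) (f : S →+ F2)
    (hP : ∀ a, C.IsSel D 1 a → ∃ R : C.A, 4 • R = 0 ∧ a - C.cob D R ∈ S)
    (h : ∀ a : S, f a = 0 → C.Lf D a → a = 0) : C.Nl1 D := by
  obtain ⟨a₀, k⟩ : ∃ a₀ : S, ∀ a : S, C.Lf D a → f a = 1 → a = a₀ := by
    by_cases e : ∃ a₀ : S, C.Lf D a₀ ∧ f a₀ = 1
    · obtain ⟨a₀, e1, e2⟩ := e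
      refine ⟨a₀, fun a l1 l2 => ?_⟩
      have := h (a + a₀) (by rw [map_add, l2, e2, CharTwo.add_self_eq_zero]) (l1.add e1)
      rw [eq_neg_of_add_eq_zero_left this]
      exact Subtype.ext (funext fun g => C.neg_two ((hS _ a₀.2).two g trivial))
    · exact ⟨0, fun a l1 l2 => absurd ⟨a, l1, l2⟩ e⟩
  refine ⟨a₀, fun c hc => ?_⟩
  obtain ⟨R, h1, h2⟩ := hP _ hc.two
  have l := tw_lf hc (hS _ h2)
  refine ⟨R, h1, (TA_F2 (f ⟨_, h2⟩)).imp (fun e g => ?_) fun e g => ?_⟩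
  · exact sub_eq_zero.1 (congrFun (congrArg Subtype.val (h ⟨_, h2⟩ e l)) g)
  · exact eq_add_of_sub_eq (congrFun (congrArg Subtype.val (k ⟨_, h2⟩ l e)) g)

theorem cb_cls (hS : ∀ a ∈ S, C.Un a) {l : ℕ} (h0 : ∀ a ∈ S, a (frb l) = 0) {u : GQ}
    (hu : C.Nn S u) {U : Subgroup GQ} (hn : U.Normal) (hU : ∀ u ∈ U, C.Nn S u) (hp : C.Gp p)
    (k : Frb U (frb l * u) p) : ∀ a ∈ S, C.Cb a (frb p) := fun a ha =>
  (Cb_Frb hn (fun u h => (hU u h).1) k hp (hS a ha).1 ((hS a ha).2 p hp)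
    fun u h => (hU u h).2.2 a ha).2 ((Cb_mul (hS a ha).1 hu.1 (hu.2.2 a ha)).2
      ⟨0, smul_zero _, by rw [h0 a ha, map_zero, sub_zero]⟩)

end Cu

end Pool.Agent.SP
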