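import Pool.Agent.Lib.MP_696deb_nt.SP.PI4
import Pool.Agent.Lib.MP_696deb_nt.SP.PT
import Pool.Agent.Lib.MP_696deb_nt.SP.PM
import Pool.Agent.Lib.MP_696deb_nt.SP.IJ

/-! Curves without rational points of order two have prime twists of corank one. -/

set_option autoImplicit false

open scoped Classical
open Finset Function

namespace Pool.Agent.SP

open Pool.Agent.Lib.MP_696deb_nt Pool.Agent.Lib.MP_696deb_nt.Sm
open Pool.Agent.Lib.MP_696deb_nt.B2 (cc jC)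

namespace Cu

variable {C : Cu} {g0 : GQ} {D : ℤ}

theorem nl1_nrm (h0 : C.G3 g0) {a₀ : GQ → C.A}
    (h : ∀ A, C.IsSel D 2 A → A g0 = 0 → 2 • A = 0 ∨ 2 • A = a₀) : C.Nl1 D := by
  refine ⟨a₀, fun c hc => ?_⟩
  obtain ⟨Q, k1, k2, k3⟩ := ij_norm h0 hc
  have e : ∀ g, 2 • c g = (2 • (c - C.cob D Q)) g + C.cob D (2 • Q) g := fun g => by
    rw [cob_nsmul, Pi.smul_apply, Pi.smul_apply, Pi.sub_apply, smul_sub, sub_add_cancel]
  refine ⟨2 • Q, by rw [smul_comm]; exact (congrArg _ k1).trans (smul_zero _),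
    (h _ k2 k3).imp (fun k g => ?_) fun k g => ?_⟩
  · rw [e, k, Pi.zero_apply, zero_add]
  · rw [e, k]

theorem pr_SL (h0 : C.G3 g0) (h : par (Nat.card (C.SL g0 D)) = 1) : C.Pr D = 1 := by
  have e1 : Nat.card (C.Zs D 1) = Nat.card {c | C.IsSel D 1 c} :=
    Nat.card_congr (Equiv.subtypeEquivRight fun _ => mem_Zs)
  have e2 : Nat.card (C.Ti D) = 4 := card_cob h0 D
  rw [Pr, e1, par_sel h0 h, e2, par_four, add_zero]

end Cu

theorem caseI1 (ps : ParStmt) {a b c : ℤ} (h : dsc a b c ≠ 0)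
    (h0 : ∀ x : ℤ, x ^ 3 + a * x ^ 2 + b * x + c ≠ 0) : GoalF1 a b c := by
  obtain ⟨C, rfl, rfl, rfl, -⟩ := exists_Cu h 0
  obtain ⟨g0, hg⟩ := C.exists_G3 h0
  obtain ⟨ε, hε, U, s, h1, h2, h3⟩ := Cu.res_odd ptk hg
  refine ⟨ε, U, s, C.N0, hε, h1, h2, fun p hp k hf => ?_⟩
  obtain ⟨⟨-, -, a₀, -, h5⟩, h6⟩ := h3 p ⟨hp, k⟩ hf
  exact Cu.fn1 (Cu.nl1_nrm hg h5).k1 fun e => one_ne_zero ((Cu.pr_SL hg h6).symm.trans
    (ps C _ (Cu.tw1_prime (C := C) hε ⟨hp, k⟩).ne e))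

end Pool.Agent.SP
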