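import Pool.Agent.Lib.MP_696deb_nt.SP.TL3
import Pool.Agent.Lib.MP_696deb_nt.B6.GW1

/-! Alternating forms on groups of odd dimension. -/

set_option autoImplicit false

open scoped Classical
open Finset Function

namespace Pool.Agent.SP

open Pool.Agent.Lib.MP_696deb_nt Pool.Agent.Lib.MP_696deb_nt.Sm
open Pool.Agent.Lib.MP_696deb_nt.B2 (cc jC Plc Op Zu Rs Z1 H0 GoodA Apart Away cupb)
open Pool.Agent.Lib.MP_696deb_nt.B6 (W2 N2 sg dW)

theorem ul_pick {S : Type} [AddCommGroup S] [Finite S] (h : ∀ a : S, a + a = 0)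
    (h8 : Nat.card S = 2 ∨ 8 ≤ Nat.card S) (x : Fin 3 → AddSubgroup S) :
    ∃ f : S →+ F2, f ≠ 0 ∧ ∀ i, 4 ≤ Nat.card (x i) → ¬ ∀ a ∈ x i, f a = 0 := by
  have fin : Finite (S →+ F2) := .of_injective _ DFunLike.coe_injective
  have := Fintype.ofFinite (S →+ F2)
  let b : Fin 3 → Finset (S →+ F2) := fun i =>
    univ.filter fun f => 4 ≤ Nat.card (x i) ∧ ∀ a ∈ x i, f a = 0
  have hb : ∀ i, (b i).card * 4 ≤ Nat.card S := fun i => by
    by_cases k : 4 ≤ Nat.card (x i)
    · rw [← card_ann h (x i)]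
      refine Nat.mul_le_mul ?_ k
      rw [Nat.card_eq_fintype_card, Fintype.card_subtype]
      exact card_le_card fun f hf => mem_filter.2 ⟨mem_univ _, (mem_filter.1 hf).2.2⟩
    · simp [b, k]
  have lt : (insert 0 (b 0 ∪ b 1 ∪ b 2)).card < (univ : Finset (S →+ F2)).card := by
    have c1 := card_insert_le 0 (b 0 ∪ b 1 ∪ b 2)
    have c2 := card_union_le (b 0 ∪ b 1) (b 2)
    have c3 := card_union_le (b 0) (b 1)
    have c4 := hb 0
    have c5 := hb 1
    have c6 := hb 2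
    rw [card_univ, ← Nat.card_eq_fintype_card, TA_card_hom h]
    omega
  obtain ⟨f, -, hf⟩ := exists_mem_notMem_of_card_lt_card lt
  simp only [mem_insert, mem_union, not_or] at hf
  refine ⟨f, hf.1, fun i k e => ?_⟩
  have m : f ∈ b i := mem_filter.2 ⟨mem_univ _, k, e⟩
  fin_cases i
  exacts [hf.2.1.1 m, hf.2.1.2 m, hf.2.2 m]

theorem ul_half {S : Type} [AddCommGroup S] {f : S →+ F2} (h : ¬ ∀ a, f a = 0) :
    Nat.card S = Nat.card f.ker * 2 := by
  obtain ⟨a, ha⟩ := not_forall.1 h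
  rw [TA_card_surj f fun c => ?_, Nat.card_zmod]
  rcases TA_F2 c with rfl | rfl
  exacts [⟨0, map_zero _⟩, ⟨a, tl_one ha⟩]

theorem la3_odd {S G : Type} [AddCommGroup S] [Finite S] [Group G] (p q : G → S →+ F2)
    (hp : ∀ g h, p (g * h) = p g + p h) (hq : ∀ g h, q (g * h) = q g + q h)
    (h1 : ∀ a, (∀ g, p g a = 0) → (∀ g, q g a = 0) → a = 0)
    (B : S →+ S →+ F2) (hB : ∀ a, B a a = 0) (he : par (Nat.card S) = 1)
    (x R : Fin 3 → AddSubgroup S) (hx0 : ∀ a, a ∈ x 0 ↔ ∀ g, q g a = 0)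
    (hx1 : ∀ a, a ∈ x 1 ↔ ∀ g, p g a = 0) (hx2 : ∀ a, a ∈ x 2 ↔ ∀ g, p g a = q g a)
    (hR : ∀ i, Nat.card (R i) * Nat.card (x i) ≤ Nat.card S) :
    ∃ (l : List G) (f : S →+ F2), ∀ a, f a = 0 → (∀ i, a ∈ x i → a ∈ R i) →
      (∀ b, B a b = (l.map fun g => p g a * q g b + q g a * p g b).sum) → a = 0 := by
  have two : ∀ a : S, a + a = 0 := fun a =>
    h1 _ (fun g => by rw [map_add, CharTwo.add_self_eq_zero])
      fun g => by rw [map_add, CharTwo.add_self_eq_zero]
  have h8 : Nat.card S = 2 ∨ 8 ≤ Nat.card S := by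
    obtain ⟨k, hk⟩ := card_two two
    rw [hk, par, padicValNat.prime_pow] at he
    rw [hk]
    rcases k with _ | _ | _ | k
    · exact absurd he (by decide)
    · exact .inl rfl
    · exact absurd he (by decide)
    · exact .inr (Nat.pow_le_pow_right (n := 2) two_pos (show 3 ≤ k + 1 + 1 + 1 by omega))
  obtain ⟨f, f0, hf⟩ := ul_pick two h8 x
  have hc := ul_half (f := f) fun e => f0 (AddMonoidHom.ext e)
  have pos : 0 < Nat.card f.ker := Nat.card_pos
  obtain ⟨l, hl⟩ := tl_la3 (fun g => (p g).comp f.ker.subtype) (fun g => (q g).comp f.ker.subtype)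
    (fun g h => by rw [hp]; rfl) (fun g h => by rw [hq]; rfl)
    (fun a e e' => Subtype.ext (h1 a.1 e e')) ((B.comp f.ker.subtype).compl₂ f.ker.subtype)
    (fun a => hB a.1) (by
      rw [hc, par_mul pos.ne' two_ne_zero, par_two] at he
      exact add_eq_right.1 he)
    (fun i => (x i).addSubgroupOf f.ker) (fun i => (R i ⊓ x i).addSubgroupOf f.ker)
    (fun a => hx0 a.1) (fun a => hx1 a.1) (fun a => hx2 a.1) fun i => by
      by_cases k : 4 ≤ Nat.card (x i)
      · have c1 := ul_half (f := f.comp (x i).subtype) fun e => hf i k fun a ha => e ⟨a, ha⟩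
        have c2 : Nat.card ((x i).addSubgroupOf f.ker) = Nat.card (f.comp (x i).subtype).ker :=
          Nat.card_congr ⟨fun a => ⟨⟨a.1.1, a.2⟩, a.1.2⟩, fun a => ⟨⟨a.1.1, a.2⟩, a.1.2⟩,
            fun _ => rfl, fun _ => rfl⟩
        have c3 : Nat.card ((R i ⊓ x i).addSubgroupOf f.ker) ≤ Nat.card (R i) :=
          Nat.card_le_card_of_injective (fun a => ⟨a.1.1, a.2.1⟩)
            fun a b e => Subtype.ext (Subtype.ext (Subtype.mk.inj e))
        have c4 := hR i
        rw [c1, hc, ← c2, ← mul_assoc] at c4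
        exact (Nat.mul_le_mul_right _ c3).trans (Nat.le_of_mul_le_mul_right c4 two_pos)
      · have c1 : Nat.card (x i) ≤ 2 := by
          obtain ⟨j, hj⟩ := card_two (S := x i) fun a => Subtype.ext (two a.1)
          rw [hj] at k ⊢
          rcases j with _ | _ | j
          · decide
          · decide
          · exact absurd (Nat.pow_le_pow_right (n := 2) two_pos (show 2 ≤ j + 1 + 1 by omega)) k
        have c2 : Nat.card ((x i).addSubgroupOf f.ker) ≤ Nat.card (x i) :=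
          Nat.card_le_card_of_injective (fun a => ⟨a.1.1, a.2⟩)
            fun a b e => Subtype.ext (Subtype.ext (Subtype.mk.inj e))
        have c3 : Nat.card ((R i ⊓ x i).addSubgroupOf f.ker) ≤
            Nat.card ((x i).addSubgroupOf f.ker) :=
          AddSubgroup.card_le_of_le fun a ha => ha.2
        have c4 := AddSubgroup.card_le_card_addGroup ((x i).addSubgroupOf f.ker)
        rcases h8 with e | e
        · exact (Nat.mul_le_mul (c3.trans c4) c4).trans (by
            rw [show Nat.card f.ker = 1 by omega])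
        · exact (Nat.mul_le_mul (c3.trans (c2.trans c1)) (c2.trans c1)).trans (by omega)
  exact ⟨l, f, fun a k1 k2 k3 => congrArg Subtype.val
    (hl ⟨a, k1⟩ (fun i hi => ⟨k2 i hi, hi⟩) fun b => k3 b.1)⟩

theorem la2_odd {S G : Type} [AddCommGroup S] [Finite S] [Group G] (p q : G → S →+ F2)
    (hp : ∀ g h, p (g * h) = p g + p h) (hq : ∀ g h, q (g * h) = q g + q h)
    (h1 : ∀ a, (∀ g, p g a = 0) → a = 0) (h2 : ∀ a, (∀ g, p g a = q g a) → a = 0)
    (B : S →+ S →+ F2) (hB : ∀ a, B a a = 0) (he : par (Nat.card S) = 1)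
    (x R : AddSubgroup S) (hx : ∀ a, a ∈ x ↔ ∀ g, q g a = 0)
    (hR : Nat.card R * Nat.card x ≤ Nat.card S) :
    ∃ (l : List G) (f : S →+ F2), ∀ a, f a = 0 → (a ∈ x → a ∈ R) →
      (∀ b, B a b = (l.map fun g => p g a * q g b + q g a * p g b).sum) → a = 0 := by
  obtain ⟨l, f, hl⟩ := la3_odd p q hp hq (fun a e _ => h1 a e) B hB he ![x, ⊥, ⊥] ![R, ⊥, ⊥] hx
    (fun a => ⟨fun e g => by rw [AddSubgroup.mem_bot.1 e, map_zero], h1 a⟩)
    (fun a => ⟨fun e g => by rw [AddSubgroup.mem_bot.1 e, map_zero, map_zero], h2 a⟩) fun i => by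
      fin_cases i
      exacts [hR, by simpa using Nat.succ_le_of_lt Nat.card_pos,
        by simpa using Nat.succ_le_of_lt Nat.card_pos]
  refine ⟨l, f, fun a k0 k => hl a k0 fun i => ?_⟩
  fin_cases i
  exacts [k, id, id]

end Pool.Agent.SP
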