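import Pool.Agent.Lib.MP_696deb_nt.SP.UW
import Pool.Agent.Lib.MP_696deb_nt.SP.TT

/-! The two types of primes, odd parity. -/

set_option autoImplicit false

open scoped Classical
open Finset

namespace Pool.Agent.SP

open Pool.Agent.Lib.MP_696deb_nt Pool.Agent.Lib.MP_696deb_nt.Sm
open Pool.Agent.Lib.MP_696deb_nt.B2 (jC cc)

/-- Primes that are inert in the field of the two-torsion. -/
theorem type_T1 (core : CoreStmt) (ps : ParStmt) {C C' : Cu} (h : Iso C C') {ε : ℤ} {l : ℕ}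
    (hε : ε = 1 ∨ ε = -1) (hl : C.Gp l) (hf : chi C.bb (frb l) = 1)
    (he : par (Nat.card (C.Sh (ε * l))) = 0)
    (hR : Nat.card (C'.RY (ε * l)) ≤ Nat.card (C.RY (ε * l))) : GoalF1 C.a C.b C.c := by
  have h0 : C.e 0 = 0 := by
    obtain ⟨_, _, k, -⟩ := h
    exact k.two
  let S : AddSubgroup (GQ → C.A) :=
    C.Sh (ε * l) ⊓ (Pi.evalAddMonoidHom (fun _ : GQ => C.A) (frb l)).ker
  have hS : ∀ a, a ∈ S ↔ a ∈ C.Sh (ε * l) ∧ a (frb l) = 0 := fun a => Iff.rfl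
  have hle : S ≤ C.Sh (ε * l) := inf_le_left
  have hw := tt_w h0 (ε * l)
  have hw1 : C.io (chi C.bb) (frb l) = C.T 0 := by rw [Cu.io, hf, ZMod.val_one, one_nsmul]
  have key : ∀ a ∈ C.Sh (ε * l), Xor (a + C.io (chi C.bb) ∈ S) (a ∈ S) := fun a ha => by
    rw [hS, hS, Pi.add_apply, hw1]
    rcases tt_val h0 hε hl ha with e | e
    · exact .inr ⟨⟨ha, e⟩, fun k => C.T_ne 0 (by simpa [e] using k.2)⟩
    · exact .inl ⟨⟨add_mem ha hw, by rw [e, C.T_add_self]⟩, fun k => C.T_ne 0 (e.symm.trans k.2)⟩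
  have hfin := (Cu.card_Sh h0 (ε * l)).1
  have hfS : Finite S := Finite.of_injective _ (AddSubgroup.inclusion_injective hle)
  refine last1 core ps h hε hl S hle (fun a ha => ha.2) hf (fun a ha => ha.2) ?_ ?_ ?_
  · have h1 : (S.addSubgroupOf (C.Sh (ε * l))).index = 2 :=
      AddSubgroup.index_eq_two_iff.2 ⟨⟨_, hw⟩, fun b => key b.1 b.2⟩
    have h2 := (S.addSubgroupOf (C.Sh (ε * l))).card_mul_index
    rw [h1, Nat.card_congr (AddSubgroup.addSubgroupOfEquivOfLe hle).toEquiv] at h2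
    rw [← h2, par_mul Nat.card_pos.ne' two_ne_zero, par_two] at he
    exact CharTwo.add_eq_zero.1 he
  · let ν : S →+ GQ → F2 := AddMonoidHom.mk' (fun a => C.nu a) fun a b => funext fun g =>
      C.nu_add (a.2.1.1.1.two g trivial) (b.2.1.1.1.two g trivial)
    have h1 : ν.range = C.RY (ε * l) := by
      refine le_antisymm (fun _ ⟨a, e⟩ => ⟨a, a.2.1, e⟩) ?_
      rintro _ ⟨a, ha, rfl⟩
      rcases key a ha with k | k
      · refine ⟨⟨_, k.1⟩, funext fun g => ?_⟩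
        exact (C.nu_add (ha.1.1.two g trivial) (hw.1.1.two g trivial)).trans (by
          rw [Cu.nu_io, Pi.zero_apply, add_zero])
      · exact ⟨⟨_, k.1⟩, rfl⟩
    have h2 := ν.ker.card_mul_index
    rw [AddSubgroup.index_ker, h1, mul_comm] at h2
    exact (Nat.mul_le_mul_right _ hR).trans h2.le
  · intro u hu
    obtain ⟨U, u1, u2, u3⟩ := exists_ker C.two_le_N0
    refine ⟨U, C.N0, u1, u2, fun p hp hN hF a ha => ?_⟩
    have h1 : ∀ t ∈ Ch C.N0, t (frb p) = t (frb l) := fun t ht => by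
      rw [hF.ch C.two_le_N0 u3 hp hN t ht, ht.1.2 _ trivial _ trivial, hu.2.1 t ht, add_zero]
    have h2 : C.Sh (ε * p) = C.Sh (ε * l) := (Cu.Sh_congr fun v hv => by
      rcases hv with rfl | hv
      · exact cls_real hε hp hl.1
      · exact cls_loc C.two_le_N0 hε hε hp hl.1 hN hl.2 (fun t ht => by rw [h1 t ht]) v hv.1
          hv.2).1
    obtain ⟨R, q1, q2⟩ := tt_half h0 hε ⟨hp, hN⟩ ((h1 _ (Cu.two_ch h0).2).trans hf) ha
    rcases key _ (h2 ▸ q2) with k | k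
    · refine ⟨R - C.T 1, by rw [smul_sub, q1, show 4 = 2 * 2 from rfl, mul_smul, C.two_T,
        smul_zero, sub_zero], ?_⟩
      have e : C.cob (ε * p) (C.T 1) = C.io (chi C.bb) := funext fun g => by
        rw [Cu.cob, C.tw_two _ g (C.two_T 1), Cu.act_T1 h0]
      rw [Cu.cob_sub, e, ← sub_add]
      exact k.1
    · exact ⟨R, q1, k.1⟩

theorem tu_main1 (core : CoreStmt) (ps : ParStmt) {C C' : Cu} (h : Iso C C') {ε : ℤ}
    {l : ℕ} (hε : ε = 1 ∨ ε = -1) (hl : C.Gp l) (hc : chi C.bb cc = 1)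
    (hf : chi C.bb (frb l) = 0) (he : par (Nat.card (C.Sh (ε * l))) = 1)
    (hR : Nat.card (C'.RY (ε * l)) < Nat.card (C.RY (ε * l))) {a : GQ → C.A}
    (ha : a ∈ C.Sh (ε * l)) (ha1 : a (frb l) = C.T 0) : GoalF1 C.a C.b C.c := by
  obtain ⟨φ, ψ, i1, i2⟩ := id h
  have h0 := i1.two
  obtain ⟨c1, c2⟩ := Cu.tu_card h0 hc hf (fun b k => Cu.tu_cc h0 hc k.1.1)
    (fun b k => Cu.tu_frb h0 hε hl k) ha ha1
  have := (Cu.card_Sh h0 (ε * l)).1
  have n1 : Nat.card (C.tuS (ε * l) cc (frb l)) ≠ 0 := fun k => by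
    rw [k, mul_zero] at c1
    exact Nat.card_pos.ne' c1
  have fin : ∀ C : Cu, C.e 0 = 0 → ∃ k, Nat.card (C.RY (ε * l)) = 2 ^ k := fun C k => by
    have := finite_Ch C.two_le_N0
    have le : C.RY (ε * l) ≤ Ch C.N0 := fun t m => (Cu.RY_le k _ m).1
    have := Finite.of_injective _ (AddSubgroup.inclusion_injective le)
    exact card_two fun t => Subtype.ext (eq_neg_iff_add_eq_zero.1 (neg_F2 _).symm)
  refine last1 core ps h hε hl (C.tuS (ε * l) cc (frb l)) (fun b k => k.1) (fun b k => k.2.2) hc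
    (fun b k => k.2.1) ?_ ?_ (Cu.tu_pts h0 hε hl hc hf ha ha1)
  · rwa [c1, par_mul (by decide) n1, show 4 = 2 * 2 from rfl, par_mul two_ne_zero two_ne_zero,
      CharTwo.add_self_eq_zero, zero_add] at he
  · obtain ⟨k, e⟩ := fin C h0
    obtain ⟨k', e'⟩ := fin C' i2.two
    rw [e, e', Nat.pow_lt_pow_iff_right one_lt_two] at hR
    rw [e] at c2
    rw [e']
    refine Nat.le_of_mul_le_mul_left (le_trans ?_ c2) two_pos
    rw [← mul_assoc, ← pow_succ']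
    exact Nat.mul_le_mul_right _ (Nat.pow_le_pow_right two_pos hR)

/-- Primes that split in the field of the two-torsion. -/
theorem type_U1 (den : DenStmt) (core : CoreStmt) (ps : ParStmt) {C C' : Cu} (h : Iso C C') {ε : ℤ}
    {l : ℕ} (hε : ε = 1 ∨ ε = -1) (hl : C.Gp l) (hn : C.bb < 0) (hf : chi C.bb (frb l) = 0)
    (he : par (Nat.card (C.Sh (ε * l))) = 1)
    (hR : Nat.card (C'.RY (ε * l)) < Nat.card (C.RY (ε * l))) : GoalF1 C.a C.b C.c := by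
  obtain ⟨φ, ψ, i1, i2⟩ := id h
  have h0 := i1.two
  have hc : chi C.bb cc = 1 := by rw [loc_chi_cc hn.ne, if_neg hn.not_gt]
  obtain ⟨a, ha, g, hg⟩ : ∃ a ∈ C.Sh (ε * l), ∃ g, C.nu a g = 1 := by
    by_contra! k
    have e : C.RY (ε * l) = ⊥ := (AddSubgroup.eq_bot_iff_forall _).2 fun t ⟨c, m, e⟩ =>
      e ▸ funext fun g => (F2_cases _).resolve_right (k c m g)
    have := finite_Ch C'.two_le_N0
    have le : C'.RY (ε * l) ≤ Ch C'.N0 := fun t m => (Cu.RY_le i2.two _ m).1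
    have := Finite.of_injective _ (AddSubgroup.inclusion_injective le)
    rw [e, AddSubgroup.card_bot, Nat.lt_one_iff] at hR
    exact Nat.card_pos.ne' hR
  have z := ha.1.1
  rcases (C.ep_T_eq_zero 0).1 (Cu.tu_frb h0 hε hl ha) with a0 | a0
  swap
  · exact tu_main1 core ps h hε hl hc hf he hR ha a0
  obtain ⟨k, k1, k2⟩ : ∃ k, k ∈ C.Kpm ∧ C.nu a k = 1 := by
    rcases F2_cases (chi C.bb g) with e | e
    · exact ⟨g, (Cu.two_Kpm h0).2 e, hg⟩
    · refine ⟨g * cc, (Cu.two_Kpm h0).2 ?_, ?_⟩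
      · rw [chi_mul_g, e, hc, CharTwo.add_self_eq_zero]
      · rw [(Cu.ho_nu h0 z).2 _ trivial _ trivial, hg, Cu.tu_cc h0 hc z, add_zero]
  have q : C.QK (cc * k * cc⁻¹ * k⁻¹) := fun t ht => tu_comm ht.1 _ _
  have q1 : cc * k * cc⁻¹ * k⁻¹ ∈ C.Kpm := (Cu.two_Kpm h0).2 (tu_comm (ho_chi ⊤ _) _ _)
  have q2 : cc * k * cc⁻¹ ∈ C.Kpm := by simpa using mul_mem q1 k1
  have q3 : a (cc * k * cc⁻¹ * k⁻¹) = C.T 0 := by
    have e := z.coc (cc * k * cc⁻¹ * k⁻¹) trivial k trivial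
    have e1 := Cu.tu_act h0 cc (z.two k trivial)
    rw [inv_mul_cancel_right, z.conj trivial trivial (Cu.act_of_pm q2 (z.two _ trivial)),
      Cu.act_of_pm q1 (z.two _ trivial), ← sub_eq_iff_eq_add] at e
    rw [← e, e1, hc, mul_one, ← Cu.nu, k2, ZMod.val_one, one_nsmul]
  have := (Cu.card_Sh h0 (ε * l)).1
  obtain ⟨U, u1, u2, u3⟩ := C.exists_U (C.Sh (ε * l)) fun a k => k.1.1
  obtain ⟨p, p1, p2, p3⟩ := (den U (frb l * (cc * k * cc⁻¹ * k⁻¹)) C.N0 u1 u2).exists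
  have hp : C.Gp p := ⟨p1, p2⟩
  obtain ⟨f1, r, f2⟩ := p3.val hp (mul_mem ((Cu.two_Kpm h0).2 hf) q1) fun u k => (u3 u k).1
  have cl := Cu.tu_cls hε hl hp (fun u k => (u3 u k).2.1) q p3
  obtain ⟨e1, -, -, e2⟩ := Cu.Sh_congr cl
  have e3 := (Cu.Sh_congr (C := C') fun v hv => cl v (by rwa [Cu.Bd, i1.N0] at hv)).2.2.2
  refine tu_main1 core ps h hε hp hc ((Cu.two_Kpm h0).1 f1) (e1 ▸ he) (e2 ▸ e3 ▸ hR) (e1 ▸ ha) ?_
  rw [f2 a z (ha.1.2 p hp) fun u k => (u3 u k).2.2 a ha, z.coc _ trivial _ trivial, a0, q3,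
    zero_add, Cu.act_T0 h0, Cu.act_T0 h0]

end Pool.Agent.SP
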