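import Pool.Agent.Lib.MP_696deb_nt.SP.UA
import Pool.Agent.Lib.MP_696deb_nt.SP.UL
import Pool.Agent.Lib.MP_696deb_nt.SP.TU

/-! The last step for curves with a rational point of order two, odd parity. -/

set_option autoImplicit false

open scoped Classical
open Finset

namespace Pool.Agent.SP

open Pool.Agent.Lib.MP_696deb_nt Pool.Agent.Lib.MP_696deb_nt.Sm
open Pool.Agent.Lib.MP_696deb_nt.B2 (jC cc)

theorem last1 (core : CoreStmt) (ps : ParStmt) {C C' : Cu} (h : Iso C C') {ε : ℤ} {l : ℕ}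
    (hε : ε = 1 ∨ ε = -1) (hl : C.Gp l) (S : AddSubgroup (GQ → C.A)) (hS : S ≤ C.Sh (ε * l))
    (h0 : ∀ a ∈ S, a (frb l) = 0) {s : GQ} (hs : chi C.bb s = 1) (hs0 : ∀ a ∈ S, a s = 0)
    (he : par (Nat.card S) = 1)
    (hR : Nat.card (C'.RY (ε * l)) * Nat.card {a : S // C.nu a = 0} ≤ Nat.card S)
    (hP : ∀ u, C.Nn (C.Sh (ε * l)) u → ∃ (U : Subgroup GQ) (N : ℕ), B2.Op U ∧ U.Normal ∧
      ∀ p : ℕ, p.Prime → N < p → Frb U (frb l * u) p → ∀ a, C.IsSel (ε * p) 1 a →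
        ∃ R : C.A, 4 • R = 0 ∧ a - C.cob (ε * p) R ∈ S) :
    GoalF1 C.a C.b C.c := by
  obtain ⟨φ, ψ, i1, i2⟩ := id h
  have hz := i1.two
  have f1 := (Cu.card_Sh hz (ε * l)).1
  have f2 : Finite S := Finite.of_injective _ (AddSubgroup.inclusion_injective hS)
  have f3 := finite_Ch C'.two_le_N0
  have f4 : Finite (C'.RY (ε * l)) := Finite.of_injective _ (AddSubgroup.inclusion_injective
    (show C'.RY (ε * l) ≤ Ch C'.N0 from fun t ht => (Cu.RY_le i2.two _ ht).1))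
  have hZ : ∀ a ∈ S, C.Z2 ⊤ a := fun a ha => (hS ha).1.1
  obtain ⟨B, Φ, b1, b2, b3, b4⟩ := core C ε l S hε hl f2 hS h0
  have x1 : ∀ a : S, (∀ g : C.Kpm, tw_co hZ 0 g a = 0) → ∀ g, tw_co hZ 0 g a = 0 := fun a k g => by
    obtain ⟨u, hu, e⟩ := tw_red hz hs g
    change C.ep (a.1 g) _ = 0
    rw [e _ (hZ _ a.2) (hs0 _ a.2)]
    exact k ⟨u, hu⟩
  have x2 : ∀ a : S, a ∈ ⨅ g : C.Kpm, (tw_co hZ 0 g).ker ↔ ∀ g : C.Kpm, tw_co hZ 0 g a = 0 :=
    fun a => by simp only [AddSubgroup.mem_iInf, AddMonoidHom.mem_ker]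
  obtain ⟨L, f, hL⟩ := la2_odd (fun g : C.Kpm => tw_co hZ 1 g) (fun g : C.Kpm => tw_co hZ 0 g)
    (tw_co_mul hZ 1) (tw_co_mul hZ 0)
    (fun a k => Subtype.ext (tw_van hz hs (hZ _ a.2) (hs0 _ a.2) fun g hg => by
      obtain ⟨u, hu, e⟩ := tw_conj hz hs hg
      have e1 := (e _ (hZ _ a.2)).1
      have e2 : C.ep (a.1 u) (C.T 1) = 0 := k ⟨u, hu⟩
      have e3 : C.ep (a.1 g) (C.T 1) = 0 := k ⟨g, hg⟩
      rw [e2, e3, zero_add] at e1
      exact ⟨e3, e1.symm⟩))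
    (fun a k => Subtype.ext (tw_van hz hs (hZ _ a.2) (hs0 _ a.2) fun g hg => by
      obtain ⟨u, hu, e⟩ := tw_conj hz hs hg
      obtain ⟨e0, e1⟩ := e _ (hZ _ a.2)
      have e2 : C.ep (a.1 u) (C.T 1) = C.ep (a.1 u) (C.T 0) := k ⟨u, hu⟩
      have e3 : C.ep (a.1 g) (C.T 1) = C.ep (a.1 g) (C.T 0) := k ⟨g, hg⟩
      rw [e2, e1, right_eq_add] at e0
      exact ⟨e0, e3 ▸ e0⟩))
    B b1 he _ (tw_R hZ (C'.RY (ε * l))) x2 (by
      refine le_trans (Nat.mul_le_mul (tw_card hZ _ hs hs0) (le_of_eq ?_)) hR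
      exact Nat.card_congr (Equiv.subtypeEquivRight fun a => (x2 a).trans
        ⟨fun k => funext (x1 a k), fun k g => congrFun k g⟩))
  have p1 : ∀ (L : List C.Kpm) (a b : S), Φ (L.map fun g => g.1 * g.1).prod a b =
      (L.map fun g : C.Kpm => tw_co hZ 1 g a * tw_co hZ 0 g b +
        tw_co hZ 0 g a * tw_co hZ 1 g b).sum := fun L a b => by
    induction L with
    | nil => simpa using b2 1 1 (tw_nn_one C hZ) (tw_nn_one C hZ) a b
    | cons g L ih =>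
      rw [List.map_cons, List.prod_cons, List.map_cons, List.sum_cons,
        b2 _ _ (tw_nn_sq hZ g.2) (C.nn_list hZ L), ih, b3 _ g.2,
        Cu.ep_coord ((hZ _ a.2).two _ trivial) ((hZ _ b.2).two _ trivial)]
      rfl
  have n1 := C.nn_list hZ L
  obtain ⟨U1, N1, o1, m1, k1⟩ := b4 _ n1
  obtain ⟨U2, N2, o2, m2, k2⟩ := hP _ (C.nn_list (S := C.Sh (ε * l)) (fun a ha => ha.1.1) L)
  obtain ⟨U3, o3, m3, k3⟩ := exists_ker C.two_le_N0
  obtain ⟨U4, o4, m4, k4⟩ := C.exists_U S hZ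
  refine ⟨ε, U1 ⊓ U2 ⊓ U3 ⊓ U4, frb l * (L.map fun g => g.1 * g.1).prod, N1 + N2 + C.N0, hε,
    ((o1.inf o2).inf o3).inf o4, inferInstance, fun p hp hN hF' => ?_⟩
  have hF := hF'.mono inf_le_left
  have hp' : C.Gp p := ⟨hp, by omega⟩
  have d0 : ε * (p : ℤ) ≠ 0 := mul_ne_zero (by omega) (by exact_mod_cast hp.ne_zero)
  have r0 : ∀ v, C.Bd v → ∀ g ∈ Gv v, chi (ε * p) g = chi (ε * l) g := fun v hv => by
    rcases hv with rfl | ⟨v1, v2⟩
    · exact cls_real hε hp hl.1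
    · refine cls_loc C.two_le_N0 hε hε hp hl.1 hp'.2 hl.2 (fun t ht => ?_) v v1 v2
      rw [(hF.mono inf_le_right).ch C.two_le_N0 k3 hp hp'.2 t ht, ht.1.2 _ trivial _ trivial,
        n1.2.1 t ht, add_zero]
  have r1 : C'.RY (ε * p) = C'.RY (ε * l) :=
    (Cu.Sh_congr fun v hv => r0 v (i1.bd.1 hv)).2.2.2
  have k5 := k2 p hp (by omega) (hF.mono (inf_le_left.trans inf_le_right))
  refine Cu.fn1 (Cu.nl1_of hZ f k5 fun ⟨a, q2⟩ q1 q3 => ?_).k1 (Cu.not_kz ps hε hp'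
    ((Cu.Sh_congr r0).1 ▸ hS) (Cu.cb_cls (fun a ha => (hS ha).1) h0 n1 m4 k4 hp'
      (hF'.mono inf_le_right)) (fun T h2 hT g => ?_) k5 he)
  swap
  · have e := sub_eq_zero.1 (hs0 _ hT)
    have e1 := Cu.tu_act hz s h2
    rw [e, sub_self, hs, mul_one] at e1
    rw [← sub_eq_zero, Cu.tu_act hz g h2]
    rcases F2_cases (C.ep T (C.T 0)) with k | k
    · rw [k, zero_mul, ZMod.val_zero, zero_nsmul]
    · rw [k, ZMod.val_one, one_nsmul] at e1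
      exact absurd e1.symm (C.T_ne 0)
  exact hL ⟨_, q2⟩ q1 (fun k => by
    have k' := x1 _ ((x2 _).1 k)
    obtain ⟨t1, t2⟩ := Cu.exists_io hz (hZ _ q2) fun g _ => k' g
    have t3 : (fun g => C.ep (a g) (C.T 1)) ∈ Ch C.N0 :=
      ⟨t1, fun q h1 h2 => by
        simp only [(hS q2).1.2 q ⟨h1, h2⟩, Cu.ep_zero_left]⟩
    have t4 := h.lift hε hp' t3 ((funext fun g => t2 g trivial) ▸ q3)
    rw [r1] at t4
    rcases t4 with t4 | t4
    · refine ⟨k', 0, ?_⟩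
      simp only [zero_mul, add_zero]
      exact t4
    · refine ⟨k', 1, ?_⟩
      simp only [one_mul]
      exact t4)
    fun b => (k1 p hp (by omega) (hF.mono (inf_le_left.trans inf_le_left)) ⟨_, q2⟩ q3 b).trans
      (p1 L _ b)

end Pool.Agent.SP
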