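import Pool.Agent.Lib.MP_696deb_nt.SP.UW
import Pool.Agent.Lib.MP_696deb_nt.SP.TY

/-! Curves with three rational points of order two, odd parity. -/

set_option autoImplicit false

open scoped Classical
open Finset

namespace Pool.Agent.SP

open Pool.Agent.Lib.MP_696deb_nt Pool.Agent.Lib.MP_696deb_nt.Sm
open Pool.Agent.Lib.MP_696deb_nt.B2 (jC cc)

theorem type_F1 (core : CoreStmt) (ps : ParStmt) {C : Cu} (hK : ∀ g, g ∈ C.Kpm)
    (C1 C' : Fin 3 → Cu) (j : ∀ i, C.A ≃+ (C1 i).A) (hj : ∀ i, Eqv C (C1 i) (j i))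
    (hT : ∀ i, j i (C.T i) = (C1 i).T 0) (hI : ∀ i, Iso (C1 i) (C' i)) {ε : ℤ} {l : ℕ}
    (hε : ε = 1 ∨ ε = -1) (hl : C.Gp l) (he : par (Nat.card (C.Sh (ε * l))) = 1)
    (hR : ∀ i, Nat.card ((C' i).RY (ε * l)) ≤ Nat.card ((C1 i).RY (ε * l))) :
    GoalF1 C.a C.b C.c := by
  have hi : ∀ i, (C1 i).e 0 = 0 ∧ (C' i).e 0 = 0 ∧ (C' i).N0 = C.N0 := fun i => by
    obtain ⟨_, _, i1, i2⟩ := hI i
    exact ⟨i1.two, i2.two, i1.N0.trans (hj i).N0⟩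
  have f1 := (Cu.card_Sh (hi 0).1 (ε * l)).1
  have f2 : Finite (C.Sh (ε * l)) :=
    Nat.finite_of_card_ne_zero ((hj 0).card_Sh (ε * l) ▸ Nat.card_pos.ne')
  have f4 : ∀ i, Finite ((C' i).RY (ε * l)) := fun i => by
    have f3 := finite_Ch (C' i).two_le_N0
    exact Finite.of_injective _ (AddSubgroup.inclusion_injective
      (show (C' i).RY (ε * l) ≤ Ch (C' i).N0 from fun t ht => (Cu.RY_le (hi i).2.1 _ ht).1))
  have hZ : ∀ a ∈ C.Sh (ε * l), C.Z2 ⊤ a := fun a ha => ha.1.1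
  obtain ⟨B, Φ, b1, b2, b3, b4⟩ := core C ε l _ hε hl f2 le_rfl fun a => ty_val hK hε hl
  have x2 : ∀ i (a : C.Sh (ε * l)), a ∈ (ty_co (j i) (ε * l) 0).ker ↔
      ∀ g : C.Kpm, tw_co hZ i g a = 0 := fun i a => by
    have e : ∀ g, ty_co (j i) (ε * l) 0 a g = tw_co hZ i g a := fun g => by
      change (C1 i).ep _ _ = C.ep _ _
      rw [← hT i, eqv_ep]
    exact ⟨fun k g => (e g).symm.trans (congrFun k g), fun k => funext fun g =>
      (e g).trans (k ⟨g, hK g⟩)⟩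
  obtain ⟨L, f, hL⟩ := la3_odd (fun g : C.Kpm => tw_co hZ 1 g) (fun g : C.Kpm => tw_co hZ 0 g)
    (tw_co_mul hZ 1) (tw_co_mul hZ 0)
    (fun a k k' => Subtype.ext (funext fun g => by
      have e1 : C.ep (a.1 g) (C.T 1) = 0 := k ⟨g, hK g⟩
      have e0 : C.ep (a.1 g) (C.T 0) = 0 := k' ⟨g, hK g⟩
      rw [Cu.two_coord ((hZ _ a.2).two g trivial), e1, e0]
      simp))
    B b1 he (fun i => (ty_co (j i) (ε * l) 0).ker)
    (fun i => (ty_co (j i) (ε * l) 0).ker ⊓ ((C' i).RY (ε * l)).comap (ty_co (j i) (ε * l) 1))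
    (x2 0) (x2 1) (fun a => (x2 2 a).trans (forall_congr' fun g => by
      have e := C.sum_ep ((hZ _ a.2).two g trivial)
      rw [Fin.sum_univ_three] at e
      have e' : ∀ x y z : F2, x + y + z = 0 → (z = 0 ↔ y = x) := by decide
      exact e' _ _ _ e))
    fun i => ty_card (hj i) _ _ (hR i)
  have p1 : ∀ (L : List C.Kpm) (a b : C.Sh (ε * l)), Φ (L.map fun g => g.1 * g.1).prod a b =
      (L.map fun g : C.Kpm => tw_co hZ 1 g a * tw_co hZ 0 g b +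
        tw_co hZ 0 g a * tw_co hZ 1 g b).sum := fun L a b => by
    induction L with
    | nil => simpa using b2 1 1 (tw_nn_one C hZ) (tw_nn_one C hZ) a b
    | cons g L ih =>
      rw [List.map_cons, List.prod_cons, List.map_cons, List.sum_cons,
        b2 _ _ (tw_nn_sq hZ g.2) (C.nn_list hZ L), ih, b3 _ g.2,
        Cu.ep_coord ((hZ _ a.2).two _ trivial) ((hZ _ b.2).two _ trivial)]
      rfl
  have n1 := C.nn_list hZ L
  obtain ⟨U1, N1, o1, m1, k1⟩ := b4 _ n1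
  obtain ⟨U3, o3, m3, k3⟩ := exists_ker C.two_le_N0
  obtain ⟨U4, o4, m4, k4⟩ := C.exists_U _ hZ
  refine ⟨ε, U1 ⊓ U3 ⊓ U4, frb l * (L.map fun g => g.1 * g.1).prod, N1 + C.N0, hε,
    (o1.inf o3).inf o4, inferInstance, fun p hp hN hF' => ?_⟩
  have hF := hF'.mono inf_le_left
  have hp' : C.Gp p := ⟨hp, by omega⟩
  have r0 : ∀ v, C.Bd v → ∀ g ∈ Gv v, chi (ε * p) g = chi (ε * l) g := fun v hv => by
    rcases hv with rfl | ⟨v1, v2⟩
    · exact cls_real hε hp hl.1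
    · refine cls_loc C.two_le_N0 hε hε hp hl.1 hp'.2 hl.2 (fun t ht => ?_) v v1 v2
      rw [(hF.mono inf_le_right).ch C.two_le_N0 k3 hp hp'.2 t ht, ht.1.2 _ trivial _ trivial,
        n1.2.1 t ht, add_zero]
  have k5 : ∀ a, C.IsSel (ε * p) 1 a → ∃ R : C.A, 4 • R = 0 ∧ a - C.cob (ε * p) R ∈ C.Sh (ε * l) :=
    fun a ha => (Cu.Sh_congr r0).1 ▸ ty_half hK hε hp' ha
  refine Cu.fn1 (Cu.nl1_of hZ f k5 fun ⟨a, q2⟩ q1 q3 => ?_).k1 (Cu.not_kz ps hε hp'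
    (Cu.Sh_congr r0).1.ge (Cu.cb_cls (fun a ha => ha.1) (fun a => ty_val hK hε hl) n1 m4 k4 hp'
      (hF'.mono inf_le_right)) (fun T h2 _ g => Cu.act_of_pm (hK g) h2) k5 he)
  exact hL ⟨_, q2⟩ q1 (fun i k => by
    have t0 := (hj i).sh.2 q2
    obtain ⟨t1, t2⟩ := Cu.exists_io (hi i).1 t0.1.1 fun g _ => congrFun k g
    have t3 : (fun g => (C1 i).ep (j i (a g)) ((C1 i).T 1)) ∈ Ch (C1 i).N0 :=
      ⟨t1, fun q h1 h2 => by
        have e : j i (a (sig q)) = 0 := t0.1.2 q ⟨h1, h2⟩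
        simp only [e, Cu.ep_zero_left]⟩
    have t4 := (hI i).lift hε ⟨hp, (hj i).N0 ▸ hp'.2⟩ t3
      ((funext fun g => t2 g trivial) ▸ (hj i).lf q3)
    rw [ty_bb hK (hj i) (hi i).1, add_zero, or_self, (Cu.Sh_congr (C := C' i) fun v hv =>
      r0 v (hv.imp_right fun e => ⟨e.1, (hi i).2.2 ▸ e.2⟩)).2.2.2] at t4
    exact ⟨k, t4⟩)
    fun b => (k1 p hp (by omega) (hF.mono inf_le_left) ⟨_, q2⟩ q3 b).trans (p1 L _ b)

end Pool.Agent.SP
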