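import Pool.Agent.Lib.MP_696deb_nt.SP.UY
import Pool.Agent.Lib.MP_696deb_nt.SP.U9
import Pool.Agent.Lib.MP_696deb_nt.SP.TZ

/-! The walk on the tree of isogenies, odd parity. -/

set_option autoImplicit false

open scoped Classical
open Finset

namespace Pool.Agent.SP

open Pool.Agent.Lib.MP_696deb_nt Pool.Agent.Lib.MP_696deb_nt.Sm
open Pool.Agent.Lib.MP_696deb_nt.B2 (jC cc)

theorem tz_tr1 {e1 e2 : ℤ} (h1 : e1 ≠ 0) (h2 : e2 ≠ 0) (h3 : e1 ≠ e2)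
    (k : GoalF1 (-(-e1 + (e2 - e1))) (-e1 * (e2 - e1)) 0) : GoalF1 (-(e1 + e2)) (e1 * e2) 0 := by
  have hN := Int.self_le_toNat ((e1 * e2 * (e1 - e2)) ^ 2 + 2)
  obtain ⟨C, h⟩ := exists_rt h1 h2 h3 hN
  obtain ⟨C', h'⟩ := exists_rt (e1 := -e1) (e2 := e2 - e1) (by omega) (by omega) (by omega)
    (le_of_eq_of_le (by ring) hN)
  obtain ⟨j, hj, -⟩ := h.eqv1 h' rfl rfl
  rw [← h'.abc.1, ← h'.abc.2.1, ← h'.abc.2.2] at k
  rw [← h.abc.1, ← h.abc.2.1, ← h.abc.2.2]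
  exact hj.goalF1 k

section

variable (den : DenStmt) (core : CoreStmt) (ps : ParStmt) (ls : LSStmt) (qs : QStmt)
include den core ps ls qs

theorem tz_lose1 {C C' : Cu} (h : Iso C C') {ε : ℤ} {l : ℕ} (hε : ε = 1 ∨ ε = -1) (hl : C.Gp l)
    (hp : C.vp ε l = 1) (k : ¬ Gd C (ε * l)) (hb : chi C'.bb (frb l) = 1 ∨ C'.bb < 0) :
    GoalF1 C.a C.b C.c := by
  obtain ⟨φ, ψ, i, i'⟩ := id h
  have hl' : C'.Gp l := ⟨hl.1, i.N0 ▸ hl.2⟩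
  have r := not_le.1 fun r => k ⟨C', h, r⟩
  rw [← h.vp ls qs hε hl, Cu.vp, tz_disc i'.two] at hp
  refine h.goalF1 ?_
  rcases F2_cases (chi C'.bb (frb l)) with e | e
  · rw [e, add_zero] at hp
    exact type_U1 den core ps h.symm hε hl' (hb.resolve_left (by rw [e]; decide)) e hp r
  · refine type_T1 core ps h.symm hε hl' e ?_ r.le
    rw [e] at hp
    exact add_eq_right.1 hp

theorem vertex1 {N : ℕ} {σ g1 g2 ε : ℤ} {l : ℕ} (hσ : σ = 1 ∨ σ = -1) (hB : Big N g1 g2)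
    (hε : ε = 1 ∨ ε = -1) {C0 C2 : Cu} (h0 : Rt C0 N (σ * g1) (σ * (g1 + g2)))
    (h2 : Rt C2 N (-σ * g2) (-σ * (g2 + g1))) (hl : C0.Gp l) (hp : C0.vp ε l = 1)
    (k0 : Gd C0 (ε * l)) (k2 : Gd C2 (ε * l)) : GoalF1 C0.a C0.b C0.c := by
  obtain ⟨C1, h1⟩ := (hB.s1 hσ).rt
  obtain ⟨j1, a1, b1⟩ := h0.eqv1 h1 rfl (by ring)
  by_cases k1 : Gd C1 (ε * l)
  · obtain ⟨j2, a2, b2⟩ := h0.eqv2 h2 (by ring) (by ring)
    have key : ∀ i : Fin 3, ∃ (E E' : Cu) (j : C0.A ≃+ E.A), Eqv C0 E j ∧ j (C0.T i) = E.T 0 ∧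
        Iso E E' ∧ Nat.card (E'.RY (ε * l)) ≤ Nat.card (E.RY (ε * l)) := fun i => by
      rcases fin3 i with rfl | rfl | rfl
      · obtain ⟨E', k⟩ := k0
        exact ⟨C0, E', .refl _, ⟨rfl, rfl, fun _ _ => rfl⟩, rfl, k⟩
      · obtain ⟨E', k⟩ := k1
        exact ⟨C1, E', j1, a1, b1, k⟩
      · obtain ⟨E', k⟩ := k2
        exact ⟨C2, E', j2, a2, b2, k⟩
    choose E E' j c1 c2 c3 c4 using key
    rw [Cu.vp, tz_disc h0.1, h0.ch, add_zero] at hp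
    exact type_F1 core ps (fun g => (Cu.two_Kpm h0.1).2 (h0.ch g)) E E' j c1 c2 c3 hε hl hp c4
  · obtain ⟨C', c1, c2⟩ := (hB.s1 hσ).iso h1
    refine a1.goalF1 (tz_lose1 den core ps ls qs c1 hε ⟨hl.1, a1.N0 ▸ hl.2⟩
      ((a1.vp ε l).trans hp) k1 (.inr ?_))
    have p := mul_pos hB.1 hB.2.1
    rw [c2]
    rcases hσ with rfl | rfl <;> linarith

theorem walk1 {N : ℕ} {β σ g1 g2 ε : ℤ} {l : ℕ} (hσ : σ = 1 ∨ σ = -1) (hε : ε = 1 ∨ ε = -1)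
    (hβ : chi β (frb l) = 1) (hD : Dn N β g1 g2) : ∀ C0 : Cu, Rt C0 N (σ * g1) (σ * (g1 + g2)) →
      C0.Gp l → C0.vp ε l = 1 → ¬ Gd C0 (ε * l) → GoalF1 C0.a C0.b C0.c := by
  have s2 : σ ^ 2 = 1 := by rcases hσ with rfl | rfl <;> rfl
  induction hD with
  | @base g1 g2 hB e =>
    intro C0 h0 hl hp k0
    obtain ⟨C', c1, -⟩ := (hB.s0 hσ).iso h0
    refine tz_lose1 den core ps ls qs c1 hε hl hp k0 (.inl ?_)
    obtain ⟨φ, ψ, -, i'⟩ := c1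
    rw [← i'.b, h0.abc.2.1, ← hβ, e]
    congr 1
    linear_combination g1 * (g1 + g2) * s2
  | @step g1 g2 m hB e hD ih =>
    intro C0 h0 hl hp k0
    obtain ⟨C2, h2⟩ := (hD.big.s2 hσ).rt
    obtain ⟨C3, h3⟩ := (hD.big.s0 hσ).rt
    have c1 : Iso C0 C2 := iso_of h0.1 h2.1 (by rw [h2.abc.1, h0.abc.1]; ring)
      (by rw [h2.abc.2.1, h0.abc.1, h0.abc.2.1]; linear_combination -4 * σ ^ 2 * e)
      (h2.2.2.2.trans h0.2.2.2.symm)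
    obtain ⟨j, a, -⟩ := h3.eqv2 h2 (by ring) (by ring)
    have l3 : C3.Gp l := ⟨hl.1, (h3.2.2.2.trans h0.2.2.2.symm) ▸ hl.2⟩
    have p3 : C3.vp ε l = 1 := by rw [← a.vp, c1.vp ls qs hε hl, hp]
    refine c1.goalF1 (a.symm.goalF1 ?_)
    by_cases k3 : Gd C3 (ε * l)
    · exact vertex1 den core ps ls qs hσ hD.big hε h3 h2 l3 p3 k3
        ⟨C0, c1.symm, (not_le.1 fun r => k0 ⟨C2, c1, r⟩).le⟩
    · exact ih C3 h3 l3 p3 k3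

omit core ps in
theorem tz_cls1 {C : Cu} (h : C.e 0 = 0) (hb : 0 < C.b) (hb' : 0 < C.bb) {β β' : ℤ} (p : 0 < β)
    (p' : 0 < β') (q : ¬ IsSquare β) (q' : ¬ IsSquare β') (r : β ≤ C.N0) (r' : β' ≤ C.N0) :
    ∃ (ε : ℤ) (l : ℕ), (ε = 1 ∨ ε = -1) ∧ C.Gp l ∧ chi β (frb l) = 1 ∧ chi β' (frb l) = 1 ∧
      par (Nat.card (C.Sh (ε * l))) = 1 := by
  obtain ⟨f, f1, f2⟩ := exists_both q q'
  obtain ⟨U, U1, U2, U3⟩ := exists_ker C.two_le_N0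
  obtain ⟨l, l1, l2, l3⟩ := (den U f C.N0 U1 U2).exists
  obtain ⟨m, m1, m2, m3⟩ := (den U (cc * f) C.N0 U1 U2).exists
  have l4 := l3.ch C.two_le_N0 U3 l1 l2
  have m4 : ∀ t ∈ Ch C.N0, t (frb m) = t cc + t f := fun t ht =>
    (m3.ch C.two_le_N0 U3 m1 m2 t ht).trans (ht.1.2 cc trivial f trivial)
  have m5 : ∀ b : ℤ, 0 < b → chi b ∈ Ch C.N0 → chi b (frb m) = chi b f := fun b b0 hb => by
    rw [m4 _ hb, loc_chi_cc b0.ne', if_pos b0, zero_add]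
  have c : ∀ b : ℤ, 0 < b → b ≤ C.N0 → chi b ∈ Ch C.N0 := fun b b0 hb =>
    (mem_Ch C.two_le_N0).2 ⟨b, b0.ne', fun q _ k => by
      have := Int.le_of_dvd b0 k
      omega, rfl⟩
  have e := cls_loc C.two_le_N0 (ε := 1) (ε' := -1) (.inl rfl) (.inr rfl) l1 m1 l2 m2
    fun t ht => by
      rw [l4 t ht, m4 t ht, chi_one, loc_chi_cc (by decide), if_neg (by decide), zero_mul, one_mul,
        add_zero, add_comm (t cc), add_assoc, CharTwo.add_self_eq_zero, add_zero]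
  rcases (F2_cases (par (Nat.card (C.Sh (1 * l))))).symm with k | k
  · exact ⟨1, l, .inl rfl, ⟨l1, l2⟩, (l4 _ (c β p r)).trans f1, (l4 _ (c β' p' r')).trans f2, k⟩
  refine ⟨-1, m, .inr rfl, ⟨m1, m2⟩, (m5 β p (c β p r)).trans f1, (m5 β' p' (c β' p' r')).trans f2,
    ?_⟩
  have l0 : (0 : ℤ) < l := by exact_mod_cast l1.pos
  have m0 : (0 : ℤ) < m := by exact_mod_cast m1.pos
  rw [Cu.par_Sh ls qs h (.inl rfl) ⟨l1, l2⟩, l4 _ (Cu.two_ch h).1] at k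
  rw [Cu.par_Sh ls qs h (.inr rfl) ⟨m1, m2⟩, Cu.flip_pos ls h hb hb' (by omega) (by omega) e,
    m5 _ hb (Cu.two_ch h).1, add_right_comm, k, zero_add]

theorem tz_pos1 {g1 g2 : ℤ} (h1 : 0 < g1) (h2 : 0 < g2) :
    GoalF1 (-(g1 + (g1 + g2))) (g1 * (g1 + g2)) 0 := by
  obtain ⟨β, p, q, N1, d1⟩ := exists_dn h1 h2
  obtain ⟨β', p', q', N2, d2⟩ := exists_dn h2 h1
  obtain ⟨N, n1, n2, n3, n4⟩ : ∃ N : ℕ, N1 ≤ N ∧ N2 ≤ N ∧ β ≤ N ∧ β' ≤ N :=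
    ⟨N1 + N2 + β.toNat + β'.toNat, by omega, by omega, by omega, by omega⟩
  have hB := (d1 N n1).big
  obtain ⟨C0, h0⟩ := (hB.s0 (.inl rfl)).rt
  obtain ⟨C2, h2'⟩ := (hB.s2 (.inl rfl)).rt
  obtain ⟨j, a, -⟩ := h0.eqv2 h2' (by ring) (by ring)
  obtain ⟨ε, l, hε, hl, c1, c2, hp⟩ := tz_cls1 den ls qs h0.1 (by rw [h0.abc.2.1]; positivity)
    (by rw [h0.bb]; nlinarith) p p' q q' (h0.2.2.2 ▸ n3) (h0.2.2.2 ▸ n4)
  replace hp : C0.vp ε l = 1 := by rw [Cu.vp, tz_disc h0.1, h0.ch, add_zero, hp]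
  have k : GoalF1 C0.a C0.b C0.c := by
    by_cases k0 : Gd C0 (ε * l)
    · by_cases k2 : Gd C2 (ε * l)
      · exact vertex1 den core ps ls qs (.inl rfl) hB hε h0 h2' hl hp k0 k2
      · exact a.goalF1 (walk1 den core ps ls qs (.inr rfl) hε c2 (d2 N n2) C2 h2'
          ⟨hl.1, a.N0 ▸ hl.2⟩ ((a.vp ε l).trans hp) k2)
    · exact walk1 den core ps ls qs (.inl rfl) hε c1 (d1 N n1) C0 h0 hl hp k0
  rwa [h0.abc.1, h0.abc.2.1, h0.abc.2.2, one_mul, one_mul] at k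

theorem three_of1 {e1 e2 : ℤ} (h1 : e1 ≠ 0) (h2 : e2 ≠ 0) (h3 : e1 ≠ e2) :
    GoalF1 (-(e1 + e2)) (e1 * e2) 0 := by
  have k1 : ∀ x y : ℤ, 0 < x → x < y → GoalF1 (-(x + y)) (x * y) 0 := fun x y hx hy => by
    have := tz_pos1 den core ps ls qs hx (sub_pos.2 hy)
    rwa [add_sub_cancel] at this
  have k2 : ∀ x y : ℤ, 0 < x → 0 < y → x ≠ y → GoalF1 (-(x + y)) (x * y) 0 := fun x y hx hy h => by
    rcases lt_or_gt_of_ne h with k | k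
    · exact k1 x y hx k
    · rw [add_comm, mul_comm]
      exact k1 y x hy k
  have k3 : ∀ x y : ℤ, x ≠ 0 → y ≠ 0 → x < y → GoalF1 (-(x + y)) (x * y) 0 := fun x y hx hy h => by
    rcases lt_or_gt_of_ne hx with k | k
    · exact tz_tr1 hx hy h.ne (k2 _ _ (by omega) (by omega) (by omega))
    · exact k1 x y k h
  rcases lt_or_gt_of_ne h3 with k | k
  · exact k3 _ _ h1 h2 k
  · rw [add_comm, mul_comm]
    exact k3 _ _ h2 h1 k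

end

end Pool.Agent.SP
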