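import Pool.Agent.Lib.MP_696deb_nt.SP.K0

/-! Twists by primes: densities, classes of Frobenius elements and the statements to prove. -/

set_option autoImplicit false

open scoped Classical
open Filter Topology

namespace Pool.Agent.SP

open Pool.Agent.Lib.MP_696deb_nt Pool.Agent.Lib.MP_696deb_nt.Sm

/-- The set `S` holds a set of primes of positive lower Dirichlet density. -/
def PosD (S : Set ℕ) : Prop := ∃ δ : ℝ, 0 < δ ∧ ∀ᶠ s : ℝ in 𝓝[>] 1,
  δ * Real.log (1 / (s - 1)) ≤ ∑' p : ℕ, if p.Prime ∧ p ∈ S then (p : ℝ) ^ (-s) else 0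

/-- A Frobenius element at `p` lies in the division of `s` modulo `U`. -/
def Frb (U : Subgroup GQ) (s : GQ) (p : ℕ) : Prop := ∃ (w : B2.Plc) (φ : GQ) (k : ℕ),
  w.p = p ∧ B2.IsFrob w p φ ∧ k.Coprime 6 ∧ φ⁻¹ * s ^ k ∈ U

/-- The density theorem of Frobenius, as a lower bound. -/
def DenStmt : Prop := ∀ (U : Subgroup GQ) (s : GQ) (N : ℕ), B2.Op U → U.Normal →
  PosD {p | N < p ∧ Frb U s p}

/-- The twist of `y ^ 2 = x ^ 3 + a x ^ 2 + b x + c` by `d`. -/
def Tw (a b c d : ℤ) : WeierstrassCurve ℚ := ⟨0, a * d, 0, b * d ^ 2, c * d ^ 3⟩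

namespace Cu

variable (C : Cu)

/-- The cocycle condition for the twisted action. -/
def Coc (D : ℤ) (c : GQ → C.A) : Prop := ∀ g h, c (g * h) = c g + C.tw D g (c h)

/-- The cocycles that represent the classical Selmer group of level `2 ^ n`. -/
structure IsSel (D : ℤ) (n : ℕ) (c : GQ → C.A) : Prop where
  tors : ∀ g, 2 ^ n • c g = 0
  coc : C.Coc D c
  lc : LC c
  loc : ∀ v : ℕ, v = 0 ∨ v.Prime → C.Loc v D c

/-- Twice a class of level four comes from a point that is killed by four. -/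
def Nl (D : ℤ) : Prop :=
  ∀ c, C.IsSel D 2 c → ∃ R : C.A, 4 • R = 0 ∧ ∀ g, 2 • c g = C.cob D R g

/-- The Selmer group of level `2 ^ ∞` has bounded exponent. -/
def Kz (D : ℤ) : Prop := ∃ k : ℕ, ∀ n c, C.IsSel D n c →
  ∃ (S : C.A) (m : ℕ), 2 ^ m • S = 0 ∧ ∀ g, 2 ^ k • c g = C.cob D S g

variable {C} {D : ℤ} {n : ℕ} {c : GQ → C.A}

theorem cob_sub (D : ℤ) (P Q : C.A) : C.cob D (P - Q) = C.cob D P - C.cob D Q := by
  funext g; simp only [cob, tw_sub, Pi.sub_apply]; abel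

theorem IsSel.z2 (h : C.IsSel D 1 c) : C.Z2 ⊤ c :=
  ⟨fun g _ => h.tors g, fun g _ k _ => by rw [h.coc, C.tw_two D g (h.tors k)], h.lc⟩

theorem IsSel.two (h : C.IsSel D (n + 1) c) : C.IsSel D n (2 • c) :=
  ⟨fun g => by rw [Pi.smul_apply, smul_smul, ← pow_succ, h.tors], fun g k => by
    simp only [Pi.smul_apply, h.coc g k, smul_add, tw_nsmul], h.lc.comp fun P => 2 • P,
    fun v hv => by rw [two_nsmul]; exact (h.loc v hv).add (h.loc v hv)⟩

theorem IsSel.sub (h : C.IsSel D n c) (Q : C.A) {m : ℕ}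
    (k : ∀ g, 2 ^ m • (c g - C.cob D Q g) = 0) : C.IsSel D m (c - C.cob D Q) :=
  ⟨k, fun g l => by
    simp only [Pi.sub_apply, h.coc g l, C.cob_mul, tw_sub]
    abel, h.lc.comp₂ (C.lc_cob D Q) (· - ·), fun v hv => by
    obtain ⟨P, hP⟩ := h.loc v hv
    exact ⟨P - Q, fun g hg => by rw [cob_sub, Pi.sub_apply, Pi.sub_apply, hP g hg]⟩⟩

theorem exists_div (C : Cu) (k : ℕ) (P : C.A) : ∃ Q : C.A, 2 ^ k • Q = P := by
  induction k generalizing P with
  | zero => exact ⟨P, one_nsmul P⟩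
  | succ k ih =>
    obtain ⟨Q, rfl⟩ := ih P
    obtain ⟨R, rfl⟩ := C.exists_half Q
    exact ⟨R, by rw [smul_smul, pow_succ]⟩

theorem Nl.kz (h : C.Nl D) : C.Kz D := by
  refine ⟨1, fun n => ?_⟩
  induction n with
  | zero => exact fun c k => ⟨0, 0, smul_zero _, fun g => by
      rw [← one_nsmul (c g), ← pow_zero 2, k.tors, smul_zero, cob, tw_zero, sub_zero]⟩
  | succ n ih =>
    intro c k
    obtain ⟨S, m, h1, h2⟩ := ih _ k.two
    obtain ⟨Q, rfl⟩ := C.exists_div 2 S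
    obtain ⟨R, h3, h4⟩ := h _ (k.sub Q (m := 2) fun g => by
      have := h2 g
      rw [cob_nsmul, Pi.smul_apply, Pi.smul_apply, smul_smul] at this
      rw [smul_sub, ← this]
      exact sub_self _)
    refine ⟨R + 2 • Q, m + 2, ?_, fun g => ?_⟩
    · rw [smul_add, smul_comm _ 2 Q, pow_add, mul_smul, mul_smul, h1, smul_zero, add_zero]
      exact (congrArg _ h3).trans (smul_zero _)
    · rw [cob_add, cob_nsmul, Pi.add_apply, ← h4, Pi.sub_apply, Pi.smul_apply, smul_sub,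
        sub_add_cancel, pow_one]

/-- Transfer along two maps whose composite is a power of two. -/
theorem Kz.of {C' : Cu} (h : C'.Kz D) (φ : C.A →+ C'.A) (ψ : C'.A →+ C.A) (i : ℕ)
    (h1 : ∀ g P, φ (C.tw D g P) = C'.tw D g (φ P)) (h2 : ∀ g P, ψ (C'.tw D g P) = C.tw D g (ψ P))
    (h3 : ∀ P, ψ (φ P) = 2 ^ i • P) : C.Kz D := by
  obtain ⟨k, h⟩ := h
  refine ⟨k + i, fun n c s => ?_⟩
  obtain ⟨S, m, k1, k2⟩ := h n (fun g => φ (c g))
    ⟨fun g => by rw [← map_nsmul, s.tors, map_zero], fun g l => by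
      beta_reduce
      rw [s.coc, map_add, h1], s.lc.comp φ, fun v hv => by
      obtain ⟨P, hP⟩ := s.loc v hv
      exact ⟨φ P, fun g hg => by
        beta_reduce
        rw [hP g hg, cob, cob, map_sub, h1]⟩⟩
  exact ⟨ψ S, m, by rw [← map_nsmul, k1, map_zero], fun g => by
    rw [pow_add, mul_smul, ← h3, ← map_nsmul, k2, cob, cob, map_sub, h2]⟩

end Cu

/-- The Selmer group of level `2 ^ ∞` of the twist has bounded exponent. -/
def Fn (a b c d : ℤ) : Prop := ∀ C : Cu, C.a = a → C.b = b → C.c = c → C.Kz d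

/-- One sign and a set of primes of positive density give twists of rank zero. -/
def Goal (a b c : ℤ) : Prop := ∃ ε : ℤ, (ε = 1 ∨ ε = -1) ∧ PosD {p | Fn a b c (ε * p)}

/-- One sign and one class of Frobenius elements give twists of rank zero. -/
def GoalF (a b c : ℤ) : Prop := ∃ (ε : ℤ) (U : Subgroup GQ) (s : GQ) (N : ℕ), (ε = 1 ∨ ε = -1) ∧
  B2.Op U ∧ U.Normal ∧ ∀ p : ℕ, p.Prime → N < p → Frb U s p → Fn a b c (ε * p)

/-- The points that are fixed by the twisted action. -/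
noncomputable def Cu.Rat (C : Cu) (D : ℤ) : AddSubgroup C.A where
  carrier := {P | ∀ g, C.tw D g P = P}
  zero_mem' := fun g => C.tw_zero D g
  add_mem' := fun h h' g => by rw [C.tw_add, h g, h' g]
  neg_mem' := fun {P} h g => by rw [← zero_sub, C.tw_sub, C.tw_zero, h g]

/-- The step from level four to all levels. -/
def MWStmt : Prop := ∀ (C : Cu) (D : ℤ), D ≠ 0 → C.Nl D → C.Kz D ∧ Fn C.a C.b C.c D

/-- The property depends on the coefficients only. -/
def FnStmt : Prop := ∀ (C : Cu) (D : ℤ), D ≠ 0 → (C.Kz D ↔ Fn C.a C.b C.c D)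

theorem fnst : FnStmt := fun C D _ => ⟨fun h C' h1 h2 h3 => by
  obtain ⟨a, b, c, e, N, k⟩ := C'
  obtain rfl : a = C.a := h1
  obtain rfl : b = C.b := h2
  obtain rfl : c = C.c := h3
  exact h.of (AddMonoidHom.id _) (AddMonoidHom.id _) 0 (fun _ _ => rfl) (fun _ _ => rfl)
    fun P => (one_nsmul P).symm, fun h => h C rfl rfl rfl⟩

theorem mw : MWStmt := fun C D hD h => ⟨h.kz, (fnst C D hD).1 h.kz⟩

theorem PosD.mono {S S' : Set ℕ} (h : PosD S) (k : ∀ p, p.Prime → p ∈ S → p ∈ S') : PosD S' := by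
  obtain ⟨δ, h0, h⟩ := h
  refine ⟨δ, h0, (h.and self_mem_nhdsWithin).mono fun s ⟨h1, h2⟩ => h1.trans ?_⟩
  have h3 : Summable fun p : ℕ => (p : ℝ) ^ (-s) :=
    Real.summable_nat_rpow.2 (neg_lt_neg (Set.mem_Ioi.1 h2))
  have h4 : ∀ T : Set ℕ, Summable fun p : ℕ =>
      if p.Prime ∧ p ∈ T then (p : ℝ) ^ (-s) else 0 := fun T =>
    h3.of_nonneg_of_le (fun p => by split_ifs <;> positivity) fun p => by
      split_ifs
      · exact le_rfl
      · positivity
  refine (h4 S).tsum_le_tsum (fun p => ?_) (h4 S')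
  by_cases hp : p.Prime ∧ p ∈ S
  · rw [if_pos hp, if_pos ⟨hp.1, k p hp.1 hp.2⟩]
  · rw [if_neg hp]
    split_ifs <;> positivity

theorem GoalF.goal (den : DenStmt) {a b c : ℤ} (h : GoalF a b c) : Goal a b c := by
  obtain ⟨ε, U, s, N, h1, h2, h3, h4⟩ := h
  exact ⟨ε, h1, (den U s N h2 h3).mono fun p hp k => h4 p hp k.1 k.2⟩

end Pool.Agent.SP
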