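import Pool.Agent.Lib.MP_696deb_nt.SP.Z8
import Pool.Agent.Lib.MP_696deb_nt.SP.TZ
import Pool.Agent.Lib.MP_696deb_nt.SP.TD
import Pool.Agent.Lib.MP_696deb_nt.SP.TF
import Pool.Agent.Lib.MP_696deb_nt.SP.D1
import Pool.Agent.Lib.MP_696deb_nt.SP.KQ
import Pool.Agent.Lib.MP_696deb_nt.SP.II
import Pool.Agent.Lib.MP_696deb_nt.SP.YB

/-! Every curve has twists by primes with finite Selmer group. -/

set_option autoImplicit false

open scoped Classical
open Filter Topology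

namespace Pool.Agent.SP

open Pool.Agent.Lib.MP_696deb_nt

theorem all {a b c : ℤ} (h : dsc a b c ≠ 0) : Goal a b c :=
  all_of den core mw fnst ls qst (fun _ _ _ => caseI mw)
    (fun _ _ h1 h2 h3 => (three_of den core mw fnst ls qst h1 h2 h3).goal den) h

theorem prime_twists {a b : ℤ} (h : 4 * a ^ 3 + 27 * b ^ 2 ≠ 0) :
    ∃ ε : ℤ, (ε = 1 ∨ ε = -1) ∧ PosD {p | ∀ W : WeierstrassCurve ℚ,
      W = ⟨0, 0, 0, a * (ε * p) ^ 2, b * (ε * p) ^ 3⟩ →
        B2.Stmt.CorankLE W 0 ∧ Finite W.toAffine.Point} := by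
  have h0 : dsc 0 a b ≠ 0 := fun k => h (by rw [dsc] at k; linear_combination -k)
  obtain ⟨ε, h1, h2⟩ := all h0
  refine ⟨ε, h1, h2.mono fun p hp k W e => ?_⟩
  obtain rfl : W = Tw 0 a b (ε * p) := by
    rw [e, Tw]
    push_cast
    rw [zero_mul]
  exact Fn.out h0 (ti_ne h1 hp) k

end Pool.Agent.SP
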