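import Pool.Agent.Lib.MP_696deb_nt.SP.Z9
import Pool.Agent.Lib.MP_696deb_nt.SP.U8
import Pool.Agent.Lib.MP_696deb_nt.SP.UZ
import Pool.Agent.Lib.MP_696deb_nt.SP.UI
import Pool.Agent.Lib.MP_696deb_nt.SP.PZ
import Pool.Agent.Lib.MP_696deb_nt.SP.PJ
import Pool.Agent.Lib.MP_696deb_nt.SP.PQ

/-! Every curve has twists by primes of corank zero and twists by primes of corank one. -/

set_option autoImplicit false

open scoped Classical
open Filter Topology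

namespace Pool.Agent.SP

open Pool.Agent.Lib.MP_696deb_nt

theorem all1 {a b c : ℤ} (h : dsc a b c ≠ 0) : Goal1 a b c :=
  all_of1 (fun _ _ h1 h2 h3 => (three_of1 den core (par_of ptk sha) ls qst h1 h2 h3).goal den)
    den core (par_of ptk sha) ls qst (fun _ _ _ => caseI1 (par_of ptk sha)) h

theorem prime_twists1 {a b : ℤ} (h : 4 * a ^ 3 + 27 * b ^ 2 ≠ 0) {r : ℕ} (hr : r ≤ 1) :
    ∃ ε : ℤ, (ε = 1 ∨ ε = -1) ∧ PosD {p | ∀ W : WeierstrassCurve ℚ,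
      W = ⟨0, 0, 0, a * (ε * p) ^ 2, b * (ε * p) ^ 3⟩ →
        IsLeast {n | B2.Stmt.CorankLE W n} r ∧ Module.Finite ℤ W.toAffine.Point ∧
          Module.finrank ℤ W.toAffine.Point ≤ r} := by
  have h0 : dsc 0 a b ≠ 0 := fun k => h (by rw [dsc] at k; linear_combination -k)
  have e : ∀ (ε : ℤ) (p : ℕ), (⟨0, 0, 0, a * (ε * p) ^ 2, b * (ε * p) ^ 3⟩ : WeierstrassCurve ℚ) =
      Tw 0 a b (ε * p) := fun ε p => by
    rw [Tw]
    push_cast
    rw [zero_mul]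
  obtain rfl | rfl : r = 0 ∨ r = 1 := by omega
  · obtain ⟨ε, h1, h2⟩ := all h0
    refine ⟨ε, h1, h2.mono fun p hp k W e' => ?_⟩
    obtain rfl := e'.trans (e ε p)
    have k1 := (Fn.out h0 (ti_ne h1 hp) k).1
    exact ⟨⟨k1, fun n _ => n.zero_le⟩, rank_of_cork h0 (ti_ne h1 hp) k1⟩
  · obtain ⟨ε, h1, h2⟩ := all1 h0
    refine ⟨ε, h1, h2.mono fun p hp k W e' => ?_⟩
    obtain rfl := e'.trans (e ε p)
    obtain ⟨k1, k2⟩ := Fn1.out h0 (ti_ne h1 hp) k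
    exact ⟨⟨k1, fun n hn => Nat.one_le_iff_ne_zero.2 fun q => k2 (q ▸ hn)⟩,
      rank_of_cork h0 (ti_ne h1 hp) k1⟩

end Pool.Agent.SP
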